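import Mathlib

-- part Pool.Agent.Lib.MP_9721b5_an.Defs
section

/-!
Definitions for the pointwise convergence of the averages of f(T^n x) g(T^(2n) x) h(T^(3n) x).
-/

set_option autoImplicit false

open Finset
open scoped Classical ComplexConjugate Pointwise

noncomputable section

namespace Pool.Agent.Lib.MP_9721b5_an

/-- The circle group R/Z. -/
abbrev Tor := UnitAddCircle

/-- e(x) = exp(2 pi i x). -/
def ex (x : Tor) : ℂ := (AddCircle.toCircle x : ℂ)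

/-- 2^(-n). -/
def hf (n : ℕ) : ℝ := (1 / 2 : ℝ) ^ n

/-- v is a combination of elements of E with coefficients in {-1,0,1}. -/
def InSpan {G : Type} [AddCommGroup G] (E : Finset G) (v : G) : Prop :=
  ∃ ε : G → ℤ, (∀ a, |ε a| ≤ 1) ∧ v = ∑ a ∈ E, ε a • a

/-! ### Cyclic groups -/

section Cyc

variable {p : ℕ} [NeZero p]

def tc (x : ZMod p) : Tor := ZMod.toAddCircle x

def ch (x : ZMod p) : ℂ := ex (tc x)

def nm (x : ZMod p) : ℝ := ‖tc x‖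

def ft (f : ZMod p → ℂ) (ξ : ZMod p) : ℂ := (∑ x, f x * ch (-(ξ * x))) / p

def bohr (Γ : Finset (ZMod p)) (ρ : ℝ) : Finset (ZMod p) :=
  univ.filter fun x => ∀ γ ∈ Γ, nm (γ * x) ≤ ρ

def dl (g : ZMod p → ℂ) (t : ZMod p) (x : ZMod p) : ℂ := g (x + t) * conj (g x)

def AddOn (B : Finset (ZMod p)) (φ : ZMod p → ZMod p) : Prop :=
  ∀ h ∈ B, ∀ k ∈ B, h + k ∈ B → φ (h + k) = φ h + φ k

def SymOn (B : Finset (ZMod p)) (φ : ZMod p → ZMod p) (ε : ℝ) : Prop :=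
  ∀ h ∈ B, ∀ k ∈ B, nm (φ h * k - φ k * h) ≤ ε

def cmb {k : ℕ} (ψ : Fin k → ZMod p → ZMod p) (v : Fin k → ℤ) (h : ZMod p) : ZMod p :=
  ∑ j, (v j : ZMod p) * ψ j h

def aff {k : ℕ} (ψ : Fin k → ZMod p → ZMod p) (c : Fin k → ZMod p) (v : Fin k → ℤ)
    (h : ZMod p) : ZMod p :=
  ∑ j, (v j : ZMod p) * (2 * ψ j h + c j)

/-- The Bohr set of radius ρ is regular for shifts of radius w, with tolerance ε. -/
def Reg (Γ : Finset (ZMod p)) (ρ w ε : ℝ) : Prop :=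
  ((bohr Γ (ρ + w)).card : ℝ) ≤ (1 + ε) * (bohr Γ (ρ - w)).card

def mass (g : ZMod p → ℂ) (t : ZMod p) (S : Finset (ZMod p)) : ℝ :=
  ∑ ξ ∈ S, ‖ft (dl g t) ξ‖ ^ 2

def Forms {k : ℕ} (Γ : Finset (ZMod p)) (ρ : ℝ) (ψ : Fin k → ZMod p → ZMod p) (ε : ℝ) : Prop :=
  ∀ j, AddOn (bohr Γ ρ) (ψ j) ∧ SymOn (bohr Γ ρ) (ψ j) ε

/-- For many t the spectral measure of the derivative gives mass 1/m to a set of low dimension. -/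
def SpecH (g : ZMod p → ℂ) (m R : ℕ) : Prop :=
  ∃ T : Finset (ZMod p), p ≤ 2 ^ R * T.card ∧ ∀ t ∈ T, ∃ S : Finset (ZMod p),
    (1 / m : ℝ) ≤ mass g t S ∧ ∀ Λ ⊆ S, AddDissociated (Λ : Set (ZMod p)) → Λ.card ≤ R

def Lives {k : ℕ} (g : ZMod p → ℂ) (m : ℕ) (ψ : Fin k → ZMod p → ZMod p) (c : Fin k → ZMod p)
    (t h : ZMod p) : Prop :=
  ∃ S : Finset (ZMod p), (1 / m : ℝ) ≤ mass g t S ∧
    ∀ ξ ∈ S, ∃ r : Fin k → ℤ, (∀ j, |r j| ≤ 1) ∧ ξ = aff ψ c r h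

def GraphH (g : ZMod p → ℂ) (m R : ℕ) : Prop :=
  ∃ (k n : ℕ) (Γ : Finset (ZMod p)) (ψ : Fin k → ZMod p → ZMod p) (c : Fin k → ZMod p)
    (τ : ZMod p) (T : Finset (ZMod p)), k ≤ R ∧ n ≤ R ∧ Γ.card ≤ R ∧ Forms Γ (hf n) ψ (1 / 10) ∧
    p ≤ 2 ^ R * T.card ∧ ∀ t ∈ T, t - τ ∈ bohr Γ (hf n / 2) ∧ Lives g m ψ c t (t - τ)

def LocCorr {k : ℕ} (g : ZMod p → ℂ) (m : ℕ) (ψ : Fin k → ZMod p → ZMod p)
    (W : Finset (ZMod p)) : Prop :=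
  ∃ (r : ZMod p → Fin k → ℤ) (ξ : ZMod p → ZMod p), (∀ x j, |r x j| ≤ 1) ∧
    (p * W.card : ℝ) / m ≤ ∑ x, ‖∑ w ∈ W, g (x + w) * ch (-(cmb ψ (r x) w * w + ξ x * w))‖

def OutH (g : ZMod p → ℂ) (m R : ℕ) : Prop :=
  ∃ (k : ℕ) (Γ : Finset (ZMod p)) (ψ : Fin k → ZMod p → ZMod p), k ≤ R ∧ Γ.card ≤ R ∧
    Forms Γ (hf R) ψ (1 / 10) ∧ ∀ W ⊆ bohr Γ (hf R), W.Nonempty → LocCorr g m ψ W

end Cyc

/-! ### Locally quadratic phases on the integers -/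

def BZ (Γ : Finset Tor) (ρ : ℝ) (h : ℤ) : Prop := ∀ γ ∈ Γ, ‖h • γ‖ ≤ ρ

def AddZ (Γ : Finset Tor) (ρ : ℝ) (φ : ℤ → Tor) : Prop :=
  ∀ h k, BZ Γ ρ h → BZ Γ ρ k → BZ Γ ρ (h + k) → φ (h + k) = φ h + φ k

def SymZ (Γ : Finset Tor) (ρ : ℝ) (φ : ℤ → Tor) (ε : ℝ) : Prop :=
  ∀ h k, BZ Γ ρ h → BZ Γ ρ k → ‖k • φ h - h • φ k‖ ≤ ε

def cz {ι : Type} [Fintype ι] (ψ : ι → ℤ → Tor) (v : ι → ℤ) (h : ℤ) : Tor := ∑ j, v j • ψ j h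

def FormOK {ι : Type} (Γ : Finset Tor) (ρ : ℝ) (ψ : ι → ℤ → Tor) : Prop :=
  ∀ j, AddZ Γ ρ (ψ j) ∧ SymZ Γ ρ (ψ j) (1 / 10)

/-- A phase P with its local linear part Λ and its local quadratic type r. -/
structure Ph (ι : Type) where
  P : ℤ → Tor
  Λ : ℤ → Tor
  r : ℤ → ι → ℤ

def Ph.Inner {ι : Type} [Fintype ι] (a : Ph ι) (Γ : Finset Tor) (ρ : ℝ) (ψ : ι → ℤ → Tor)
    (ε : ℝ) (y : ℤ) : Prop :=
  ∀ h, BZ Γ ρ h → ‖a.P (y + h) - a.P y - h • a.Λ y - h • cz ψ (a.r y) h‖ ≤ ε ∧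
    a.Λ (y + h) = a.Λ y + (2 : ℤ) • cz ψ (a.r y) h ∧ a.r (y + h) = a.r y

def Ph.Good {ι : Type} [Fintype ι] (a : Ph ι) (Γ : Finset Tor) (ρ : ℝ) (ψ : ι → ℤ → Tor)
    (ε : ℝ) (y : ℤ) : Prop :=
  ∀ h, BZ Γ ρ h → a.Inner Γ ρ ψ ε (y + h)

structure Atom where
  k : ℕ
  Γ : Finset Tor
  ψ : Fin k → ℤ → Tor
  ph : Ph (Fin k)

def Atom.OK (a : Atom) (R : ℕ) : Prop :=
  a.k ≤ R ∧ a.Γ.card ≤ R ∧ FormOK a.Γ (hf R) a.ψ ∧ ∀ y j, |a.ph.r y j| ≤ 1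

def Atom.Good (a : Atom) (ρ ε : ℝ) (y : ℤ) : Prop := a.ph.Good a.Γ ρ a.ψ ε y

/-- The trilinear average in direction s. -/
def tav (f : Fin 3 → ℤ → ℂ) (s : ℤ) (N : ℕ) (y : ℤ) : ℂ :=
  (∑ n ∈ Icc (1 : ℤ) N, f 0 (y + s * n) * f 1 (y + 2 * (s * n)) * f 2 (y + 3 * (s * n))) / N

def Uset (Γ : Finset Tor) (ρ : ℝ) (M : ℕ) : Finset ℤ := (Icc (-(M : ℤ)) M).filter (BZ Γ ρ)

def Low (Γ : Finset Tor) (ρ : ℝ) (φ : ℤ → Tor) (M : ℕ) (θ ε : ℝ) : Prop :=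
  ε * M ≤ (((Icc (-(2 * M : ℤ)) (2 * M)).filter fun x => BZ Γ ρ x ∧ ‖φ x‖ ≤ θ).card : ℝ)

def bump (Γ : Finset Tor) (n : ℕ) (h : ℤ) : ℝ := ∏ γ ∈ Γ, ((1 + (ex (h • γ)).re) / 2) ^ n

def lin (Γ : Finset Tor) (v : Γ → ℤ) : Tor := ∑ γ : Γ, v γ • (γ : Tor)

/-- Distance from ξ to the integer combinations of Γ with coefficients at most n. -/
def dz (Γ : Finset Tor) (n : ℕ) (ξ : Tor) : ℝ :=
  sInf {r : ℝ | ∃ v : Γ → ℤ, (∀ γ, |v γ| ≤ n) ∧ r = ‖ξ + lin Γ v‖}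

def Stab (Γ : Finset Tor) (n : ℕ) (ε : ℝ) (T0 Nb : ℕ) : Prop :=
  ∀ v : Γ → ℤ, (∀ γ, |v γ| ≤ 8 * n) → ‖lin Γ v‖ ≤ ε / T0 ∨ 1 / (ε * Nb) ≤ ‖lin Γ v‖

def bhat (Γ : Finset Tor) (n : ℕ) (s : ℤ) (N : ℕ) (ξ : Tor) : ℂ :=
  (∑ j ∈ Icc (1 : ℤ) N, (bump Γ n (s * j) : ℂ) * ex ((s * j) • ξ)) / N

def EqD (Γ : Finset Tor) (n : ℕ) (ε : ℝ) (T0 Nb : ℕ) (Z : ℝ) : Prop :=
  ∀ x : ℤ, |x| ≤ 2 * T0 → |(∑ m ∈ Icc (1 : ℤ) Nb, bump Γ n (x - m)) / Nb - Z| ≤ 20 * ε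

def Dich (Γ : Finset Tor) (n : ℕ) (ε : ℝ) (T0 Nb : ℕ) : Prop :=
  ∀ ξ : Tor, ∃ κ : ℂ, ∀ (N : ℕ) (s : ℤ), (s = 1 ∨ s = -1) → Nb ≤ N → N ≤ T0 →
    (dz Γ n ξ ≤ 32 * ε / N → ‖bhat Γ n s N ξ - κ‖ ≤ 300 * ε) ∧
    (1 / (32 * ε * N) ≤ dz Γ n ξ → ‖bhat Γ n s N ξ‖ ≤ 300 * ε)

def rho3 (Λ : Fin 3 → ℤ → Tor) (y x : ℤ) : Tor :=
  Λ 0 (y + x) + (2 : ℤ) • Λ 1 (y + 2 * x) + (3 : ℤ) • Λ 2 (y + 3 * x)

def mu3 {ι : Type} (a : Fin 3 → Ph ι) (y x : ℤ) : ι → ℤ :=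
  fun j => (a 0).r (y + x) j + 4 * (a 1).r (y + 2 * x) j + 9 * (a 2).r (y + 3 * x) j

def phi3 {ι : Type} (a : Fin 3 → Ph ι) (y x : ℤ) : Tor :=
  (a 0).P (y + x) + (a 1).P (y + 2 * x) + (a 2).P (y + 3 * x)

def wave {ι : Type} (a : Fin 3 → Ph ι) : Fin 3 → ℤ → ℂ := fun i y => ex ((a i).P y)

/-- The data of one stretch of scales. -/
structure SCtx (ι : Type) where
  Γ : Finset Tor
  ρ : ℝ
  ψ : ι → ℤ → Tor
  a : Fin 3 → Ph ι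
  η : ℝ
  Γ' : Finset Tor
  ρ' : ℝ
  n : ℕ
  ε : ℝ
  T0 : ℕ
  Nb : ℕ
  Z : ℝ
  Rk : (ι → ℤ) → Prop

structure SCtx.OK {ι : Type} [Fintype ι] (c : SCtx ι) : Prop where
  add : ∀ j, AddZ c.Γ c.ρ (c.ψ j)
  rho : 0 ≤ c.ρ
  eta0 : 0 < c.η
  eta1 : c.η ≤ 1 / 100
  eps0 : 0 < c.ε
  eps1 : 300 * c.ε ≤ c.η * c.Z
  Z1 : c.Z ≤ 1
  Nb1 : 1 ≤ c.Nb
  NbT : (c.Nb : ℝ) ≤ c.ε * c.T0
  small : ∀ h, BZ c.Γ' c.ρ' h → Even h ∧ BZ c.Γ (c.ρ / 3) h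
  kill : ∀ y x, c.Rk (mu3 c.a y x) → ∀ h : ℤ, |h| ≤ c.T0 → BZ c.Γ' c.ρ' h →
    ‖(2 : ℤ) • cz c.ψ (mu3 c.a y x) h‖ ≤ c.ε / c.T0
  tail : ∀ h, ¬ BZ c.Γ' c.ρ' h → bump c.Γ' c.n h ≤ c.η * c.Z
  eqd : EqD c.Γ' c.n c.ε c.T0 c.Nb c.Z
  dich : Dich c.Γ' c.n c.ε c.T0 c.Nb
  stab : Stab c.Γ' c.n c.ε c.T0 c.Nb

def SCtx.Good3 {ι : Type} [Fintype ι] (c : SCtx ι) (y x : ℤ) : Prop :=
  (c.a 0).Good c.Γ c.ρ c.ψ c.η (y + x) ∧ (c.a 1).Good c.Γ c.ρ c.ψ c.η (y + 2 * x) ∧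
    (c.a 2).Good c.Γ c.ρ c.ψ c.η (y + 3 * x)

def SCtx.badv {ι : Type} [Fintype ι] (c : SCtx ι) (y : ℤ) : ℝ :=
  (((Icc (1 : ℤ) c.Nb).filter fun x => ¬ c.Good3 y x).card : ℝ) / c.Nb

def SCtx.Scale {ι : Type} [Fintype ι] (c : SCtx ι) (N : ℕ) : Prop :=
  (c.Nb : ℝ) ≤ c.ε * N ∧ N ≤ c.T0 ∧ ∃ U : Finset ℤ, U.Nonempty ∧
    (∀ h ∈ U, (|h| : ℝ) ≤ c.η * N ∧ BZ c.Γ (c.ρ / 6) h) ∧
    ∀ y x, ¬ c.Rk (mu3 c.a y x) → ∀ ξ : Tor,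
      ‖∑ h ∈ U, ∑ w ∈ U, ex ((h + w) • ξ + (h + w) • cz c.ψ (mu3 c.a y x) (h + w))‖ ≤
        c.η * (U.card : ℝ) ^ 2

def SCtx.main {ι : Type} [Fintype ι] (c : SCtx ι) (s : ℤ) (N : ℕ) (y : ℤ) : ℂ :=
  (∑ x ∈ Icc (1 : ℤ) c.Nb, if c.Rk (mu3 c.a y x) then
    ex (phi3 c.a y x) * (bhat c.Γ' c.n s N (rho3 (fun i => (c.a i).Λ) y x) / c.Z) else 0) / c.Nb

/-! ### The dyadic tree -/

/-- The dyadic interval of length 2^e containing y. -/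
def nd (e : ℕ) (y : ℤ) : Finset ℤ := Ico (y / 2 ^ e * 2 ^ e) (y / 2 ^ e * 2 ^ e + 2 ^ e)

def nav (l : ℕ) (κ : ℕ → ℤ → ℝ) (d : ℕ) (y : ℤ) : ℝ := (∑ z ∈ nd (d + l) y, κ d z) / 2 ^ (d + l)

def Scales (N : ℕ → ℕ) : Prop := ∀ d, 2 ^ d ≤ N d ∧ N d < 2 ^ (d + 1)

/-- Forward if the average stays in the node, backward otherwise. -/
def sg (l N d : ℕ) (y : ℤ) : ℤ :=
  if y + 3 * N < y / 2 ^ (d + l) * 2 ^ (d + l) + 2 ^ (d + l) then 1 else -1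

def At (l : ℕ) (N : ℕ → ℕ) (f : Fin 3 → ℤ → ℂ) (d : ℕ) (y : ℤ) : ℂ :=
  tav f (sg l (N d) d y) (N d) y

structure Wts (l D : ℕ) (y0 : ℤ) (κ : ℕ → ℤ → ℝ) (q q' : ℕ → ℤ → ℕ) (η : ℝ) : Prop where
  nn : ∀ d y, 0 ≤ κ d y
  one : ∀ y ∈ nd (D + l) y0, ∑ d ∈ range (D + 1), κ d y ≤ 1
  lev : ∀ d ≤ D, ∀ y ∈ nd (D + l) y0, κ d y ≠ 0 → d ≤ q' d y ∧ q' d y ≤ q d y ∧ q d y ≤ D
  det : ∀ d y y', y / 2 ^ (d + l) = y' / 2 ^ (d + l) → q d y = q d y'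
  blk : ∀ y ∈ nd (D + l) y0, ∀ c : ℕ,
    (∑ d ∈ range (D + 1), if d ≤ c ∧ c ≤ q d y then nav l κ d y else 0) ≤ η

def Osc (l D : ℕ) (y0 : ℤ) (κ : ℕ → ℤ → ℝ) (q q' : ℕ → ℤ → ℕ) (A : ℕ → ℤ → ℂ) : ℝ :=
  ∑ y ∈ nd (D + l) y0, ∑ d ∈ range (D + 1), κ d y * ‖A (q' d y) y - A (q d y) y‖

def clip (u : ℝ) : ℝ := max (-1) (min 1 u)

/-- F is a trigonometric polynomial in the phases P of degree D with coefficient sum M. -/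
def InAlg {α : Type} [Fintype α] (P : α → ℤ → Tor) (M : ℝ) (D : ℕ) (F : ℤ → ℂ) : Prop :=
  ∃ (s : Finset (α → ℤ)) (c : (α → ℤ) → ℂ), ∑ v ∈ s, ‖c v‖ ≤ M ∧
    (∀ v ∈ s, ∑ a, |v a| ≤ D) ∧ ∀ y, F y = ∑ v ∈ s, c v * ex (∑ a, v a • P a y)

end Pool.Agent.Lib.MP_9721b5_an
end
end

-- part Pool.Agent.Lib.MP_9721b5_an.Spec
section

/-!
The statements of the steps of the proof, as propositions. Each step is proved in its own file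
from the steps it depends on, which it takes as hypotheses.
-/

set_option autoImplicit false

open Finset
open scoped Classical ComplexConjugate Pointwise

noncomputable section

namespace Pool.Agent.Lib.MP_9721b5_an

/-- Chang's theorem for a complex weight w. -/
def ChangStmt : Prop :=
  ∀ (p : ℕ) [NeZero p] (w : ZMod p → ℂ) (M γ : ℝ) (Λ : Finset (ZMod p)),
    0 < γ → γ ≤ 1 → 1 ≤ M → 0 < ∑ x, ‖w x‖ → (∀ x, ‖w x‖ * p ≤ M * ∑ y, ‖w y‖) →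
    AddDissociated (Λ : Set (ZMod p)) →
    (∀ ξ ∈ Λ, γ * ∑ x, ‖w x‖ ≤ ‖∑ x, w x * ch (-(ξ * x))‖) →
    (Λ.card : ℝ) * γ ^ 2 ≤ 8 * Real.log (2 * M)

/-- The Bogolyubov lemma with the bounds of Sanders. -/
def BSStmt : Prop :=
  ∃ C : ℕ, ∀ R : ℕ, 2 ≤ R → ∀ (p : ℕ) [NeZero p] (A : Finset (ZMod p)), p ≤ 2 ^ R * A.card →
    ∃ Γ : Finset (ZMod p), Γ.card ≤ R ^ C ∧ ∀ b ∈ bohr Γ (hf (R ^ C)),
      ∃ a1 ∈ A, ∃ a2 ∈ A, ∃ a3 ∈ A, ∃ a4 ∈ A, b = a1 + a2 - a3 - a4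

/-- The Balog-Szemeredi-Gowers theorem. -/
def BSGStmt : Prop :=
  ∀ (G : Type) [AddCommGroup G] [DecidableEq G] (A : Finset G) (R : ℕ),
    A.card ^ 3 ≤ 2 ^ R * Finset.addEnergy A A →
    ∃ B ⊆ A, A.card ≤ 2 ^ (R + 4) * B.card ∧ (B - B).card ≤ 2 ^ (6 * R + 20) * B.card

/-- Large Fourier coefficients of derivatives: a Freiman homomorphism of order 6. -/
def FreimanStmt : Prop :=
  ∃ C : ℕ, ∀ R : ℕ, 2 ≤ R → ∀ (p : ℕ) [NeZero p], p.Prime →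
    ∀ (g : ZMod p → ℂ) (T : Finset (ZMod p)) (θ : ZMod p → ZMod p), (∀ x, ‖g x‖ ≤ 1) →
    p ≤ 2 ^ R * T.card → (∀ t ∈ T, hf R ≤ ‖ft (dl g t) (θ t)‖) →
    ∃ T' ⊆ T, p ≤ 2 ^ (R ^ C) * T'.card ∧ ∀ a b : Fin 6 → ZMod p, (∀ i, a i ∈ T') →
      (∀ i, b i ∈ T') → ∑ i, a i = ∑ i, b i → ∑ i, θ (a i) = ∑ i, θ (b i)

/-- The frequency function agrees on a dense set with a local symmetric affine map. -/
def GraphStmt : Prop :=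
  ∃ C : ℕ, ∀ R : ℕ, 2 ≤ R → ∃ n : ℕ, n ≤ R ^ C ∧ ∀ (p : ℕ) [NeZero p], p.Prime → 5 ≤ p →
    ∀ (g : ZMod p → ℂ) (T : Finset (ZMod p)) (θ : ZMod p → ZMod p), (∀ x, ‖g x‖ ≤ 1) →
    p ≤ 2 ^ R * T.card → (∀ t ∈ T, hf R ≤ ‖ft (dl g t) (θ t)‖) →
    ∃ (Γ : Finset (ZMod p)) (ψ : ZMod p → ZMod p) (τ c : ZMod p) (T' : Finset (ZMod p)),
      Γ.card ≤ R ^ C ∧ AddOn (bohr Γ (hf n)) ψ ∧ SymOn (bohr Γ (hf n)) ψ (1 / 10) ∧
      T' ⊆ T ∧ p ≤ 2 ^ (R ^ C) * T'.card ∧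
      ∀ t ∈ T', t - τ ∈ bohr Γ (hf n / 4) ∧ θ t = 2 * ψ (t - τ) + c

/-- Elimination of two of the three functions. -/
def ElimStmt : Prop :=
  ∃ C : ℕ, ∀ m R : ℕ, 2 ≤ m → m ≤ R → ∀ (p : ℕ) [NeZero p], p.Prime →
    ∀ (g u v : ZMod p → ℂ) (a b c : ZMod p) (E : Finset (ZMod p)),
    (∀ x, ‖g x‖ ≤ 1) → (∀ x, ‖u x‖ ≤ 1) → (∀ x, ‖v x‖ ≤ 1) →
    a ≠ 0 → b ≠ 0 → c ≠ 0 → a ≠ b → a ≠ c → b ≠ c → p ≤ 2 ^ R * E.card →
    (E.card : ℝ) / m ≤ ∑ y ∈ E, ‖(∑ n, g (y + a * n) * u (y + b * n) * v (y + c * n)) / p‖ →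
    SpecH g (m ^ C) (R ^ C)

def CoverStmt : Prop :=
  ∃ C : ℕ, ∀ m R : ℕ, 2 ≤ m → m ≤ R → ∀ (p : ℕ) [NeZero p], p.Prime → 5 ≤ p →
    ∀ g : ZMod p → ℂ, (∀ x, ‖g x‖ ≤ 1) → SpecH g m R → GraphH g (2 * m) (R ^ C)

/-- A local form with a large exponential sum vanishes on a smaller Bohr set; the number of new
frequencies does not depend on the rank. -/
def KillStmt : Prop :=
  ∃ C : ℕ, ∀ R : ℕ, 2 ≤ R → ∀ (p : ℕ) [NeZero p] (Γ : Finset (ZMod p)) (ψ : ZMod p → ZMod p)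
    (ξ : ZMod p) (ρ1 ρ2 ρ3 : ℝ), 0 ≤ ρ3 → ρ3 ≤ ρ2 → ρ2 ≤ ρ1 →
    Reg Γ ρ1 ρ2 (hf (R ^ C)) → Reg Γ ρ2 ρ3 (hf (R ^ C)) →
    AddOn (bohr Γ (2 * ρ1)) ψ → SymOn (bohr Γ (2 * ρ1)) ψ (hf (R ^ C)) →
    hf R * (bohr Γ ρ1).card ≤ ‖∑ x ∈ bohr Γ ρ1, ch (ψ x * x + ξ * x)‖ →
    ∃ Γ1 : Finset (ZMod p), Γ1.card ≤ R ^ C ∧ ∀ w ∈ bohr Γ ρ2,
      ∀ u ∈ bohr (Γ ∪ Γ1) (min ρ3 (hf (R ^ C))), nm (2 * ψ w * u) ≤ hf R

/-- The terminal step of the nested iteration. -/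
def TermStmt : Prop :=
  ∃ C : ℕ, ∀ m R R' : ℕ, 2 ≤ m → m ≤ R → R ≤ R' → ∀ (p : ℕ) [NeZero p] (g : ZMod p → ℂ)
    (k : ℕ) (ψ : Fin k → ZMod p → ZMod p) (c : Fin k → ZMod p) (τ : ZMod p)
    (Γ : Finset (ZMod p)) (ρC ρX ρ1 : ℝ) (H : Finset (ZMod p)) (Rk : (Fin k → ℤ) → Prop),
    (∀ x, ‖g x‖ ≤ 1) → k ≤ R → 0 ≤ ρ1 → ρ1 ≤ ρX → 2 * ρX ≤ ρC →
    Reg Γ ρC (2 * ρX) (hf (R ^ C)) → Reg Γ ρX ρ1 1 → Forms Γ (4 * ρC) ψ (hf (R ^ C)) →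
    H ⊆ bohr Γ ρX → (bohr Γ ρX).card ≤ 2 ^ R * H.card → p ≤ 2 ^ R' * H.card →
    (∀ h ∈ H, Lives g m ψ c (τ + h) h) → Rk 0 → (∀ v, Rk v → Rk (-v)) →
    (∀ v : Fin k → ℤ, (∀ j, |v j| ≤ 2) → Rk v → ∀ h ∈ H, ∀ u ∈ bohr Γ ρC,
      nm (aff ψ c v h * u) ≤ 1 / 25) →
    (∀ v : Fin k → ℤ, (∀ j, |v j| ≤ 2) → ¬ Rk v → ∀ ξ : ZMod p,
      ‖∑ x ∈ bohr Γ ρ1, ch (cmb ψ v x * x + ξ * x)‖ ≤ hf (R ^ C) * (bohr Γ ρ1).card) →
    ∃ Γ1 : Finset (ZMod p), Γ1.card ≤ R' ^ C ∧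
      ∀ W ⊆ bohr (Γ ∪ Γ1) (min ρ1 (hf (R' ^ C))), W.Nonempty → LocCorr g (m ^ C) ψ W

def NestStmt : Prop :=
  ∃ C : ℕ, ∀ m R : ℕ, 2 ≤ m → m ≤ R → ∀ (p : ℕ) [NeZero p] (g : ZMod p → ℂ),
    (∀ x, ‖g x‖ ≤ 1) → GraphH g m R → OutH g (m ^ C) (R ^ C)

def AtomStmt : Prop :=
  ∃ C : ℕ, ∀ m R : ℕ, 2 ≤ m → m ≤ R → ∀ (p : ℕ) [NeZero p] (g : ZMod p → ℂ),
    (∀ x, ‖g x‖ ≤ 1) → OutH g m R → ∀ y0 : ℤ, ∃ a : Atom, a.OK (R ^ C) ∧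
      (((Ico y0 (y0 + p)).filter fun y => ¬ a.Good (hf (R ^ C)) (hf R) y).card : ℝ) ≤ hf R * p ∧
      (p : ℝ) / (2 * m) ≤ ∑ y ∈ Ico y0 (y0 + p), (g (y : ZMod p) * conj (ex (a.ph.P y))).re

/-- The large deviation inverse theorem: constant correlation, polylogarithmic complexity. -/
def LDStmt : Prop :=
  ∃ C : ℕ, ∀ m R : ℕ, 2 ≤ m → m ≤ R → ∀ (y0 : ℤ) (len N : ℕ) (f : Fin 3 → ℤ → ℂ) (s : ℤ → ℤ)
    (E : Finset ℤ) (i : Fin 3), 1 ≤ N → 0 < len → len ≤ m * N → (∀ j y, ‖f j y‖ ≤ 1) →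
    E ⊆ Ico y0 (y0 + len) → len ≤ 2 ^ R * E.card →
    (∀ y ∈ E, (s y = 1 ∨ s y = -1) ∧ y + 3 * (s y * N) ∈ Ico y0 (y0 + len) ∧
      (1 / m : ℝ) ≤ ‖tav f (s y) N y‖) →
    ∃ a : Atom, a.OK (R ^ C) ∧
      (((Ico y0 (y0 + len)).filter fun y => ¬ a.Good (hf (R ^ C)) (hf R) y).card : ℝ) ≤
        hf R * len ∧
      (len : ℝ) / (m : ℝ) ^ C ≤ ∑ y ∈ Ico y0 (y0 + len), (f i y * conj (ex (a.ph.P y))).re

def KillZStmt : Prop :=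
  ∃ C : ℕ, ∀ R : ℕ, 2 ≤ R → ∀ (Γ : Finset Tor) (ρ θ : ℝ) (φ : ℤ → Tor) (M : ℕ), 1 ≤ M →
    AddZ Γ ρ φ → Low Γ (ρ / 4) φ M θ (hf R) →
    ∃ Γ1 : Finset Tor, Γ1.card ≤ R ^ C ∧
      ∀ h : ℤ, |h| ≤ M → BZ Γ1 (hf (R ^ C)) h → ‖φ h‖ ≤ 4 * θ

def NLStmt : Prop :=
  ∃ C : ℕ, ∀ R : ℕ, 2 ≤ R → ∀ (Γ : Finset Tor) (ρ1 : ℝ) (ψ : ℤ → Tor) (M : ℕ) (ξ : Tor),
    Γ.card ≤ R → hf R ≤ ρ1 → 1 ≤ M → AddZ Γ (2 * ρ1) ψ → SymZ Γ ρ1 ψ (hf (R + 4)) →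
    ¬ Low Γ (2 * ρ1) (fun h => (2 : ℤ) • ψ h) M (1 / M) (hf (R ^ C)) →
    ‖∑ h ∈ Uset Γ ρ1 M, ∑ w ∈ Uset Γ ρ1 M, ex ((h + w) • ξ + (h + w) • ψ (h + w))‖ ≤
      hf R * ((Uset Γ ρ1 M).card : ℝ) ^ 2

def ChainStmt : Prop :=
  ∃ C : ℕ, ∀ R : ℕ, 2 ≤ R → ∀ (ι : Type) [Fintype ι] (S : ℕ → Set (ι → ℤ)) (D : ℕ),
    Fintype.card ι ≤ R → (∀ d, S (d + 1) ⊆ S d) → (∀ d, ∀ v ∈ S d, ∀ j, |v j| ≤ 2 ^ R) →
    ∃ E : ℕ → Finset (ι → ℤ), (∀ d, d < D → E (d + 1) ⊆ E d) ∧ ∀ d ≤ D,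
      (∀ v ∈ E d, v ∈ S d) ∧ (E d).card ≤ R ^ C ∧ ∀ v ∈ S d, InSpan (E d) v

def BumpStmt : Prop :=
  ∀ (Γ : Finset Tor) (n : ℕ) (ε : ℝ) (T0 Nb : ℕ), 0 < ε → ε ≤ 1 / 100 → 1 ≤ Nb → Nb ≤ T0 →
    Stab Γ n ε T0 Nb → ∃ Z : ℝ, (1 / (2 * n + 1) : ℝ) ^ Γ.card ≤ Z ∧ Z ≤ 1 ∧
      EqD Γ n ε T0 Nb Z ∧ Dich Γ n ε T0 Nb

/-- The cube lemma. -/
def CubeStmt : Prop :=
  ∀ (Γ : Finset Tor) (n : ℕ) (ε : ℝ) (T0 Nb : ℕ) (Λ : Fin 3 → ℤ → Tor) (y0 : ℤ) (w D : ℕ)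
    (κ lo hi : ℕ → ℤ → ℝ) (τ : ℝ), 0 < ε → 1 ≤ Nb → 1 ≤ T0 → 1 ≤ w → Stab Γ n ε T0 Nb →
    (∀ d y, 0 ≤ κ d y) → (∀ y ∈ Ico y0 (y0 + w), ∑ d ∈ range D, κ d y ≤ 1) →
    (∀ d < D, ∀ y ∈ Ico y0 (y0 + w), κ d y ≠ 0 →
      16 * ε / T0 ≤ lo d y ∧ hi d y ≤ 1 / (4 * ε * Nb)) →
    (∑ y ∈ Ico y0 (y0 + w), ∑ y' ∈ Ico y0 (y0 + w), ∑ d ∈ range D, ∑ d' ∈ range D,
      if lo d y ≤ 8 * hi d' y' ∧ lo d' y' ≤ 8 * hi d y then κ d y * κ d' y' else 0) ≤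
        τ * (w : ℝ) ^ 2 →
    ((∑ y ∈ Ico y0 (y0 + w), ∑ x ∈ Ico (0 : ℤ) w, ∑ d ∈ range D,
      if lo d y ≤ dz Γ n (rho3 Λ y x) ∧ dz Γ n (rho3 Λ y x) ≤ hi d y then κ d y else 0) /
        (16 * (w : ℝ) ^ 2)) ^ 8 ≤ 64 * τ

/-- The uniform measure on a window is close to a short uniform measure convolved with the bump. -/
def ConvStmt : Prop :=
  ∀ (ι : Type) [Fintype ι] (c : SCtx ι), c.OK → ∀ (a0 : ℤ) (N : ℕ) (Ξ : ℤ → ℂ),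
    (c.Nb : ℝ) ≤ c.ε * N → (∀ x ∈ Ico a0 (a0 + N), |x| ≤ c.T0) → (∀ x, ‖Ξ x‖ ≤ 1) →
    ‖(∑ x ∈ Ico a0 (a0 + N), Ξ x) / N - (∑ x ∈ Icc (1 : ℤ) c.Nb, ∑ h ∈ Ico a0 (a0 + N),
      (bump c.Γ' c.n h : ℂ) * Ξ (x + h)) / (c.Nb * N * c.Z)‖ ≤ c.η / 10

def PointStmt : Prop :=
  ∀ (ι : Type) [Fintype ι] (c : SCtx ι), c.OK → ∀ (N : ℕ) (s y : ℤ), c.Scale N →
    (s = 1 ∨ s = -1) → ‖tav (wave c.a) s N y - c.main s N y‖ ≤ 100 * c.η + 10 * c.badv y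

def StretchStmt : Prop :=
  ∀ (ι : Type) [Fintype ι] (c : SCtx ι), c.OK → ∀ (l t : ℕ) (y0 : ℤ) (N : ℕ → ℕ)
    (s : ℕ → ℤ → ℤ) (κ : ℕ → ℤ → ℝ) (q q' : ℕ → ℤ → ℕ) (E G : ℕ),
    c.T0 = 2 ^ (t + l) → c.η = hf (8 * E) → Scales N → (∀ d y, s d y = 1 ∨ s d y = -1) →
    Wts l t y0 κ q q' c.η →
    (∀ d ≤ t, ∀ y ∈ nd (t + l) y0, κ d y ≠ 0 → c.Scale (N (q' d y)) ∧ c.Scale (N (q d y))) →
    1 ≤ c.ε ^ 2 * 2 ^ G →
    Osc l t y0 κ q q' (fun d y => tav (wave c.a) (s d y) (N d) y) ≤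
      1000 * (G + 1) * hf E * 2 ^ (t + l) + 100 * ∑ y ∈ nd (t + l) y0, c.badv y

/-- The oscillation bound for three locally quadratic phases. -/
def StructStmt : Prop :=
  ∃ C : ℕ, ∀ R E : ℕ, 2 ≤ R → 8 * E ≤ R → ∀ (ι : Type) [Fintype ι] (Γ : Finset Tor)
    (ψ : ι → ℤ → Tor) (a : Fin 3 → Ph ι) (l D : ℕ) (y0 : ℤ) (N : ℕ → ℕ) (s : ℕ → ℤ → ℤ)
    (κ : ℕ → ℤ → ℝ) (q q' : ℕ → ℤ → ℕ), Fintype.card ι ≤ R → Γ.card ≤ R →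
    FormOK Γ (hf R) ψ → (∀ i y j, |(a i).r y j| ≤ R) → 1 ≤ l → l ≤ R → Scales N →
    (∀ d y, s d y = 1 ∨ s d y = -1) → Wts l D y0 κ q q' (hf (8 * E)) →
    Osc l D y0 κ q q' (fun d y => tav (wave a) (s d y) (N d) y) ≤
      (R : ℝ) ^ C * (hf E * 2 ^ (D + l) + (((nd (D + l) y0).filter fun y =>
        ∃ i, ¬ (a i).Good Γ (hf R) ψ (hf (8 * E)) y).card : ℝ))

def ApproxStmt : Prop :=
  ∀ (α : Type) [Fintype α] (P : α → ℤ → Tor) (w : α → ℝ) (k : ℕ) (U : ℝ),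
    ∑ a, |w a| ≤ U → 1 ≤ U → 1 ≤ k → ∃ F : ℤ → ℝ,
      (∀ y, |F y| ≤ 1 ∧ |F y - clip (∑ a, w a * (ex (P a y)).re)| ≤ U / k) ∧
      InAlg P (2 ^ (k ^ 2)) (k ^ 2) (fun y => (F y : ℂ))

/-- One level of the chaining. -/
def LevelStmt : Prop :=
  ∃ C : ℕ, ∀ m R E : ℕ, 2 ≤ m → m ≤ R → 8 * E ≤ R → ∀ (l D : ℕ) (y0 : ℤ) (N : ℕ → ℕ)
    (F : Fin 3 → ℤ → ℝ) (κ : ℕ → ℤ → ℝ) (q q' : ℕ → ℤ → ℕ) (En : ℕ → ℤ → Prop),
    4 ≤ l → 2 ^ l ≤ m → Scales N → (∀ i y, |F i y| ≤ 1) → Wts l D y0 κ q q' (hf (8 * E)) →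
    (∀ d y y', y / 2 ^ (d + l) = y' / 2 ^ (d + l) → En d y → En d y') →
    (∀ d ≤ D, ∀ y ∈ nd (D + l) y0, κ d y ≠ 0 → En (q d y) y ∧ En (q' d y) y) →
    ∑ y ∈ nd (D + l) y0, ((range (D + 1)).filter fun d => En d y).card ≤ 2 ^ R * 2 ^ (D + l) →
    Osc l D y0 κ q q' (At l N fun i y => (F i y : ℂ)) ≤
      (1 / m + 2 ^ (m ^ C) * (R : ℝ) ^ C * hf E) * 2 ^ (D + l)

/-- The finite oscillation inequality. -/
def FiniteStmt : Prop :=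
  ∀ δ : ℝ, 0 < δ → ∀ l : ℕ, 4 ≤ l → ∃ J : ℕ, 0 < J ∧ ∀ (N : ℕ → ℕ) (D : ℕ) (s : ℕ → ℕ)
    (e : ℕ → ℤ → ℕ) (F : Fin 3 → ℤ → ℝ), Scales N → StrictMono s → s J ≤ D →
    (∀ j y, s j < e j y ∧ e j y ≤ s (j + 1)) → (∀ i y, |F i y| ≤ 1) →
    ∑ j ∈ range J, ∑ y ∈ nd (D + l) 0,
      ‖At l N (fun i y => (F i y : ℂ)) (e j y) y - At l N (fun i y => (F i y : ℂ)) (s (j + 1)) y‖
        ≤ δ * J * 2 ^ (D + l)

/-- The statement of the problem. -/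
def MainStmt : Prop :=
  ∀ (X : Type) [MeasurableSpace X] (μ : MeasureTheory.Measure X)
    [MeasureTheory.IsProbabilityMeasure μ] (T : X → X),
    MeasureTheory.MeasurePreserving T μ μ →
    ∀ f g h : X → ℝ, MeasureTheory.MemLp f ⊤ μ → MeasureTheory.MemLp g ⊤ μ →
      MeasureTheory.MemLp h ⊤ μ →
      ∀ᵐ x ∂μ, ∃ L : ℝ,
        Filter.Tendsto (fun N : ℕ => (N : ℝ)⁻¹ *
            ∑ n ∈ Finset.Icc 1 N, f (T^[n] x) * g (T^[2 * n] x) * h (T^[3 * n] x))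
          Filter.atTop (nhds L)

end Pool.Agent.Lib.MP_9721b5_an
end
end

-- part Pool.Agent.Lib.MP_9721b5_an.Basic
section

/-! Elementary lemmas on the circle, powers of one half and dissociated sets. -/

set_option autoImplicit false

open Finset
open scoped Classical ComplexConjugate Pointwise

noncomputable section

namespace Pool.Agent.Lib.MP_9721b5_an

lemma ex_coe (x : ℝ) : ex (x : Tor) = Complex.exp (2 * Real.pi * Complex.I * x) := by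
  unfold ex
  rw [AddCircle.toCircle_apply_mk, Circle.coe_exp]
  congr 1
  push_cast
  ring

lemma ex_add (x y : Tor) : ex (x + y) = ex x * ex y := by
  unfold ex
  rw [AddCircle.toCircle_add, Circle.coe_mul]

@[simp] lemma ex_zero : ex 0 = 1 := by
  unfold ex
  simp

@[simp] lemma norm_ex (x : Tor) : ‖ex x‖ = 1 := by
  unfold ex
  exact Circle.norm_coe _

lemma ex_ne_zero (x : Tor) : ex x ≠ 0 := by
  intro h
  have := norm_ex x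
  rw [h] at this
  simp at this

lemma ex_mul_neg (x : Tor) : ex x * ex (-x) = 1 := by
  rw [← ex_add]; simp

lemma conj_ex (x : Tor) : conj (ex x) = ex (-x) := by
  have h1 : ex x * conj (ex x) = 1 := by
    rw [Complex.mul_conj, Complex.normSq_eq_norm_sq, norm_ex]; simp
  have h2 := ex_mul_neg x
  exact mul_left_cancel₀ (ex_ne_zero x) (h1.trans h2.symm)

lemma ex_sub (x y : Tor) : ex (x - y) = ex x * conj (ex y) := by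
  rw [conj_ex, sub_eq_add_neg, ex_add]

lemma ex_sum {α : Type*} (s : Finset α) (f : α → Tor) : ex (∑ a ∈ s, f a) = ∏ a ∈ s, ex (f a) := by
  induction s using Finset.induction_on with
  | empty => simp
  | insert a s ha ih => rw [sum_insert ha, prod_insert ha, ex_add, ih]

lemma ex_nsmul (n : ℕ) (x : Tor) : ex (n • x) = ex x ^ n := by
  unfold ex
  rw [AddCircle.toCircle_nsmul, Circle.coe_pow]

lemma ex_zsmul (n : ℤ) (x : Tor) : ex (n • x) = ex x ^ n := by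
  unfold ex
  rw [AddCircle.toCircle_zsmul, Circle.coe_zpow]

lemma exists_rep (x : Tor) : ∃ r : ℝ, (r : Tor) = x ∧ |r| = ‖x‖ ∧ |r| ≤ 1 / 2 := by
  obtain ⟨t, rfl⟩ := QuotientAddGroup.mk_surjective x
  refine ⟨t - round t, ?_, ?_, abs_sub_round t⟩
  · rw [AddCircle.coe_sub]
    have : ((round t : ℝ) : Tor) = 0 := by
      rw [AddCircle.coe_eq_zero_iff]
      exact ⟨round t, by simp⟩
    rw [this, sub_zero]
  · rw [UnitAddCircle.norm_eq]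

lemma exists_rep01 (x : Tor) : ∃ r : ℝ, (r : Tor) = x ∧ 0 ≤ r ∧ r < 1 := by
  obtain ⟨t, rfl⟩ := QuotientAddGroup.mk_surjective x
  refine ⟨Int.fract t, ?_, Int.fract_nonneg t, Int.fract_lt_one t⟩
  rw [Int.fract, AddCircle.coe_sub]
  have : ((⌊t⌋ : ℝ) : Tor) = 0 := by
    rw [AddCircle.coe_eq_zero_iff]
    exact ⟨⌊t⌋, by simp⟩
  rw [this, sub_zero]

lemma norm_coe_le (r : ℝ) : ‖(r : Tor)‖ ≤ |r| := by
  rw [UnitAddCircle.norm_eq]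
  simpa using round_le r 0

lemma norm_le_half (x : Tor) : ‖x‖ ≤ 1 / 2 := by
  obtain ⟨r, -, h1, h2⟩ := exists_rep x
  linarith

lemma norm_ex_sub_one (r : ℝ) : ‖ex (r : Tor) - 1‖ = 2 * |Real.sin (Real.pi * r)| := by
  rw [ex_coe]
  have : (2 * Real.pi * Complex.I * r : ℂ) = Complex.I * ((2 * Real.pi * r : ℝ) : ℂ) := by
    push_cast; ring
  rw [this, Complex.norm_exp_I_mul_ofReal_sub_one]
  have : 2 * Real.pi * r / 2 = Real.pi * r := by ring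
  rw [this, Real.norm_eq_abs, abs_mul]
  simp

lemma ex_sub_one_le (x : Tor) : ‖ex x - 1‖ ≤ 2 * Real.pi * ‖x‖ := by
  obtain ⟨r, rfl, h1, -⟩ := exists_rep x
  rw [norm_ex_sub_one, ← h1]
  have := Real.abs_sin_le_abs (x := Real.pi * r)
  rw [abs_mul, abs_of_pos Real.pi_pos] at this
  linarith

lemma ex_sub_ex_le (x y : Tor) : ‖ex x - ex y‖ ≤ 2 * Real.pi * ‖x - y‖ := by
  have : ex x - ex y = (ex (x - y) - 1) * ex y := by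
    rw [sub_mul, ← ex_add]; simp
  rw [this, norm_mul, norm_ex, mul_one]
  exact ex_sub_one_le _

lemma four_norm_le (x : Tor) : 4 * ‖x‖ ≤ ‖ex x - 1‖ := by
  obtain ⟨r, rfl, h1, h2⟩ := exists_rep x
  rw [norm_ex_sub_one, ← h1]
  have h3 : |Real.pi * r| ≤ Real.pi / 2 := by
    rw [abs_mul, abs_of_pos Real.pi_pos]
    nlinarith [Real.pi_pos]
  have := Real.mul_abs_le_abs_sin h3
  rw [abs_mul, abs_of_pos Real.pi_pos] at this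
  have h4 : 2 / Real.pi * (Real.pi * |r|) = 2 * |r| := by
    field_simp
  linarith

lemma norm_ex_sub_one_sq (x : Tor) : ‖ex x - 1‖ ^ 2 = 2 - 2 * (ex x).re := by
  have h : (ex x).re ^ 2 + (ex x).im ^ 2 = 1 := by
    have := norm_ex x
    have h2 : ‖ex x‖ ^ 2 = (ex x).re ^ 2 + (ex x).im ^ 2 := by
      rw [← Complex.normSq_eq_norm_sq, Complex.normSq_apply]; ring
    rw [← h2, this]; norm_num
  rw [← Complex.normSq_eq_norm_sq, Complex.normSq_apply]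
  simp only [Complex.sub_re, Complex.one_re, Complex.sub_im, Complex.one_im]
  nlinarith

lemma one_add_re_le (x : Tor) : (1 + (ex x).re) / 2 ≤ 1 - 4 * ‖x‖ ^ 2 := by
  have h1 := four_norm_le x
  have h2 := norm_ex_sub_one_sq x
  have h3 : (4 * ‖x‖) ^ 2 ≤ ‖ex x - 1‖ ^ 2 := by
    gcongr
  nlinarith

lemma abs_re_ex_le (x : Tor) : |(ex x).re| ≤ 1 := by
  have := Complex.abs_re_le_norm (ex x)
  rwa [norm_ex] at this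

lemma norm_zsmul_le' (n : ℤ) (x : Tor) : ‖n • x‖ ≤ |(n : ℝ)| * ‖x‖ := by
  have := norm_zsmul_le n x
  rwa [Int.norm_eq_abs] at this

/-- If all multiples up to k are small then x is k times smaller. -/
lemma norm_le_of_mul (x : Tor) (k : ℕ) (θ : ℝ) (hk : 1 ≤ k) (hθ : θ ≤ 1 / 4)
    (h : ∀ j : ℕ, 1 ≤ j → j ≤ k → ‖(j : ℤ) • x‖ ≤ θ) : ‖x‖ ≤ θ / k := by
  obtain ⟨r, rfl, h1, h2⟩ := exists_rep x
  have key : ∀ j : ℕ, 1 ≤ j → j ≤ k → (j : ℝ) * |r| ≤ θ := by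
    intro j hj
    induction j, hj using Nat.le_induction with
    | base =>
      intro hjk
      have := h 1 le_rfl hjk
      simpa [h1] using this
    | succ j hj ih =>
      intro hjk
      have ih' := ih (by omega)
      have h3 := h (j + 1) (by omega) hjk
      have hj1 : (1 : ℝ) ≤ j := by exact_mod_cast hj
      have h4 : |((j + 1 : ℕ) : ℝ) * r| ≤ |(1 : ℝ)| / 2 := by
        rw [abs_mul, abs_one, Nat.abs_cast]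
        push_cast
        nlinarith [abs_nonneg r]
      have h5 := (AddCircle.norm_coe_eq_abs_iff (1 : ℝ) (x := ((j + 1 : ℕ) : ℝ) * r)
        one_ne_zero).2 h4
      have h6 : (((j + 1 : ℕ) : ℤ) • (r : Tor)) = ((((j + 1 : ℕ) : ℝ) * r : ℝ) : Tor) := by
        rw [← AddCircle.coe_zsmul]; congr 1; simp
      rw [h6, h5, abs_mul, Nat.abs_cast] at h3
      exact h3
  have hk0 : (0 : ℝ) < k := by exact_mod_cast hk
  rw [← h1, le_div_iff₀ hk0, mul_comm]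
  exact key k hk le_rfl

lemma geom_le (x : Tor) (a : ℤ) (N : ℕ) :
    ‖∑ j ∈ Ico a (a + N), ex (j • x)‖ * (2 * ‖x‖) ≤ 1 := by
  have key : ∀ N : ℕ, (∑ j ∈ Ico a (a + N), ex (j • x)) * (ex x - 1) =
      ex ((a + N) • x) - ex (a • x) := by
    intro N
    induction N with
    | zero => simp
    | succ N ih =>
      have : Ico a (a + ((N + 1 : ℕ) : ℤ)) = insert (a + N) (Ico a (a + N)) := by
        ext j; simp only [mem_Ico, mem_insert]; push_cast; omega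
      rw [this, sum_insert (by simp), add_mul, ih]
      have h2 : ex ((a + ((N + 1 : ℕ) : ℤ)) • x) = ex ((a + N) • x) * ex x := by
        rw [← ex_add]; congr 1; push_cast; rw [← add_assoc, add_smul (a + N), one_smul]
      rw [h2]; ring
  have h1 : ‖∑ j ∈ Ico a (a + N), ex (j • x)‖ * ‖ex x - 1‖ ≤ 2 := by
    rw [← norm_mul, key]
    refine (norm_sub_le _ _).trans ?_
    rw [norm_ex, norm_ex]; norm_num
  have h2 := four_norm_le x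
  nlinarith [norm_nonneg (∑ j ∈ Ico a (a + N), ex (j • x))]

lemma exists_ex_mul_norm (z : ℂ) : ∃ θ : Tor, ex θ * (‖z‖ : ℂ) = z := by
  refine ⟨((Complex.arg z / (2 * Real.pi) : ℝ) : Tor), ?_⟩
  rw [ex_coe]
  have : (2 * Real.pi * Complex.I * ((Complex.arg z / (2 * Real.pi) : ℝ) : ℂ) : ℂ) =
      Complex.arg z * Complex.I := by
    have hpi : (Real.pi : ℂ) ≠ 0 := by exact_mod_cast Real.pi_ne_zero
    push_cast
    field_simp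
  rw [this, mul_comm]
  exact Complex.norm_mul_exp_arg_mul_I z

lemma norm_sum_sub_sum_le {α : Type*} [DecidableEq α] (A B : Finset α) (F : α → ℂ) (hF : ∀ x, ‖F x‖ ≤ 1) :
    ‖∑ x ∈ A, F x - ∑ x ∈ B, F x‖ ≤ (A \ B).card + (B \ A).card := by
  rw [← sum_sdiff_sub_sum_sdiff]
  refine (norm_sub_le _ _).trans (add_le_add ?_ ?_)
  · refine (norm_sum_le _ _).trans ?_
    simpa using sum_le_card_nsmul (A \ B) (fun x => ‖F x‖) 1 fun x _ => hF x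
  · refine (norm_sum_le _ _).trans ?_
    simpa using sum_le_card_nsmul (B \ A) (fun x => ‖F x‖) 1 fun x _ => hF x

/-- Shifting a window by k changes a sum of bounded terms by at most 2|k|. -/
lemma sum_shift_le (F : ℤ → ℂ) (hF : ∀ x, ‖F x‖ ≤ 1) (a b k : ℤ) :
    ‖∑ x ∈ Ico a b, F (x + k) - ∑ x ∈ Ico a b, F x‖ ≤ 2 * |(k : ℝ)| := by
  have h1 : ∑ x ∈ Ico a b, F (x + k) = ∑ x ∈ Ico (a + k) (b + k), F x := by
    rw [← Finset.map_add_right_Ico, sum_map]; rfl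
  rw [h1]
  refine (norm_sum_sub_sum_le _ _ F hF).trans ?_
  have h2 : ((Ico (a + k) (b + k) \ Ico a b).card : ℤ) ≤ |k| := by
    have : Ico (a + k) (b + k) \ Ico a b ⊆ Ico (a + k) a ∪ Ico b (b + k) := by
      intro x; simp only [mem_sdiff, mem_Ico, mem_union]; omega
    have h3 := (card_le_card this).trans (card_union_le _ _)
    rw [Int.card_Ico, Int.card_Ico] at h3
    rcases abs_cases k with h | h <;> omega
  have h4 : ((Ico a b \ Ico (a + k) (b + k)).card : ℤ) ≤ |k| := by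
    have : Ico a b \ Ico (a + k) (b + k) ⊆ Ico a (a + k) ∪ Ico (b + k) b := by
      intro x; simp only [mem_sdiff, mem_Ico, mem_union]; omega
    have h3 := (card_le_card this).trans (card_union_le _ _)
    rw [Int.card_Ico, Int.card_Ico] at h3
    rcases abs_cases k with h | h <;> omega
  have h2' : ((Ico (a + k) (b + k) \ Ico a b).card : ℝ) ≤ |(k : ℝ)| := by exact_mod_cast h2
  have h4' : ((Ico a b \ Ico (a + k) (b + k)).card : ℝ) ≤ |(k : ℝ)| := by exact_mod_cast h4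
  linarith

lemma hf_pos (n : ℕ) : 0 < hf n := by
  unfold hf; positivity

lemma hf_le_one (n : ℕ) : hf n ≤ 1 := pow_le_one₀ (by norm_num) (by norm_num)

lemma hf_zero : hf 0 = 1 := pow_zero _

lemma hf_add (m n : ℕ) : hf (m + n) = hf m * hf n := pow_add _ _ _

lemma hf_succ (n : ℕ) : hf (n + 1) = hf n / 2 := by
  unfold hf; rw [pow_succ]; ring

lemma hf_mul (m n : ℕ) : hf (m * n) = hf m ^ n := pow_mul _ _ _

lemma hf_anti {m n : ℕ} (h : m ≤ n) : hf n ≤ hf m :=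
  pow_le_pow_of_le_one (by norm_num) (by norm_num) h

lemma hf_mul_two_pow (n : ℕ) : hf n * 2 ^ n = 1 := by
  unfold hf; rw [← mul_pow]; norm_num

lemma hf_eq_inv (n : ℕ) : hf n = ((2 : ℝ) ^ n)⁻¹ := by
  unfold hf; rw [one_div, inv_pow]

/-- x 2^(-(n + a)) is at most 2^(-n) when x is at most 2^a. -/
lemma mul_hf_le {x : ℝ} {a n m : ℕ} (hx : x ≤ 2 ^ a) (h : n + a ≤ m) : x * hf m ≤ hf n := by
  calc x * hf m ≤ 2 ^ a * hf m := by gcongr; exact (hf_pos m).le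
    _ ≤ 2 ^ a * hf (n + a) := by gcongr; exact hf_anti h
    _ = hf n * (hf a * 2 ^ a) := by rw [hf_add]; ring
    _ = hf n := by rw [hf_mul_two_pow, mul_one]

lemma nat_le_two_pow (n : ℕ) : (n : ℝ) ≤ 2 ^ n := by
  exact_mod_cast Nat.lt_two_pow_self.le

lemma const_le_pow {R a k : ℕ} (hR : 2 ≤ R) (ha : a ≤ 2 ^ k) : a ≤ R ^ k :=
  ha.trans (Nat.pow_le_pow_left hR k)

lemma poly_le {R a c k : ℕ} (hR : 2 ≤ R) (ha : a ≤ 2 ^ k) : a * R ^ c ≤ R ^ (c + k) := by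
  rw [pow_add, mul_comm]
  exact Nat.mul_le_mul_left _ (const_le_pow hR ha)

lemma add_le_pow {R x y c : ℕ} (hR : 2 ≤ R) (hx : x ≤ R ^ c) (hy : y ≤ R ^ c) :
    x + y ≤ R ^ (c + 1) := by
  rw [pow_succ]; nlinarith

lemma mul_le_pow {R x y c d : ℕ} (hx : x ≤ R ^ c) (hy : y ≤ R ^ d) : x * y ≤ R ^ (c + d) := by
  rw [pow_add]; exact Nat.mul_le_mul hx hy

lemma pow_le_pow_of {R x c d : ℕ} (hx : x ≤ R ^ c) : x ^ d ≤ R ^ (c * d) := by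
  rw [pow_mul]; exact Nat.pow_le_pow_left hx d

lemma le_pow_mono {R x c d : ℕ} (hR : 2 ≤ R) (hx : x ≤ R ^ c) (h : c ≤ d) : x ≤ R ^ d :=
  hx.trans (Nat.pow_le_pow_right (by omega) h)

/-- Pigeonhole: some fibre of a map into a finite set is large. -/
lemma exists_fiber {α β : Type*} [DecidableEq β] (S : Finset α) (t : Finset β) (ht : t.Nonempty)
    (c : α → β)
    (hc : ∀ a ∈ S, c a ∈ t) : ∃ b ∈ t, S.card ≤ t.card * (S.filter fun a => c a = b).card := by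
  obtain ⟨b, hb, hmax⟩ := t.exists_max_image (fun b => (S.filter fun a => c a = b).card) ht
  refine ⟨b, hb, ?_⟩
  rw [card_eq_sum_card_fiberwise (f := c) (t := t) (fun a ha => hc a ha)]
  simpa using sum_le_card_nsmul t _ _ hmax

lemma exists_cluster_one {α : Type*} (S : Finset α) (f : α → Tor) (Q : ℕ) (hQ : 0 < Q) :
    ∃ S' ⊆ S, S.card ≤ Q * S'.card ∧ ∀ a ∈ S', ∀ b ∈ S', ‖f a - f b‖ < 1 / Q := by
  choose r hr using exists_rep01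
  have hQ' : (0 : ℝ) < Q := by exact_mod_cast hQ
  obtain ⟨j, -, hj⟩ := exists_fiber S (range Q) ⟨0, mem_range.2 hQ⟩ (fun a => ⌊Q * r (f a)⌋₊)
    (fun a _ => by
      rw [mem_range, Nat.floor_lt (mul_nonneg hQ'.le (hr _).2.1)]
      nlinarith [(hr (f a)).2.2])
  refine ⟨_, filter_subset _ _, by simpa using hj, fun a ha b hb => ?_⟩
  have ha' := (mem_filter.1 ha).2
  have hb' := (mem_filter.1 hb).2
  rw [← (hr (f a)).1, ← (hr (f b)).1, ← AddCircle.coe_sub]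
  refine (norm_coe_le _).trans_lt ?_
  have h1 := Nat.floor_le (mul_nonneg hQ'.le (hr (f a)).2.1)
  have h2 := Nat.lt_floor_add_one (Q * r (f a))
  have h3 := Nat.floor_le (mul_nonneg hQ'.le (hr (f b)).2.1)
  have h4 := Nat.lt_floor_add_one (Q * r (f b))
  rw [ha'] at h1 h2
  rw [hb'] at h3 h4
  rw [lt_div_iff₀ hQ', ← abs_of_pos hQ', ← abs_mul, abs_lt]
  constructor <;> nlinarith

lemma exists_cluster {α β : Type*} (S : Finset α) (Γ : Finset β) (f : β → α → Tor) (n : ℕ) :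
    ∃ S' ⊆ S, S.card ≤ 2 ^ (n * Γ.card) * S'.card ∧
      ∀ a ∈ S', ∀ b ∈ S', ∀ γ ∈ Γ, ‖f γ a - f γ b‖ ≤ hf n := by
  induction Γ using Finset.induction_on with
  | empty => exact ⟨S, Subset.rfl, by simp, by simp⟩
  | insert γ Γ hγ ih =>
    obtain ⟨S1, h1, h2, h3⟩ := ih
    obtain ⟨S2, h4, h5, h6⟩ := exists_cluster_one S1 (f γ) (2 ^ n) (by positivity)
    refine ⟨S2, h4.trans h1, ?_, fun a ha b hb γ' hγ' => ?_⟩
    · rw [card_insert_of_notMem hγ, mul_add, pow_add, mul_one, mul_assoc]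
      exact h2.trans (Nat.mul_le_mul_left _ h5)
    · rcases mem_insert.1 hγ' with rfl | h
      · have := (h6 a ha b hb).le
        rw [hf_eq_inv]
        simpa using this
      · exact h3 a (h4 ha) b (h4 hb) γ' h

section Span

variable {G : Type} [AddCommGroup G]

lemma InSpan.zero (E : Finset G) : InSpan E 0 := ⟨0, by simp, by simp⟩

lemma InSpan.neg {E : Finset G} {v : G} (h : InSpan E v) : InSpan E (-v) := by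
  obtain ⟨ε, h1, h2⟩ := h
  exact ⟨-ε, by simpa using h1, by simp [h2]⟩

lemma InSpan.mono {E E' : Finset G} {v : G} (h : InSpan E v) (hE : E ⊆ E') : InSpan E' v := by
  obtain ⟨ε, h1, h2⟩ := h
  refine ⟨fun a => if a ∈ E then ε a else 0, fun a => ?_, ?_⟩
  · by_cases ha : a ∈ E <;> simp [ha, h1]
  · rw [h2, ← sum_subset hE (f := fun a => (if a ∈ E then ε a else 0) • a)]
    · exact sum_congr rfl fun a ha => by simp [ha]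
    · intro a _ ha; simp [ha]

lemma InSpan.of_mem {E : Finset G} {v : G} (h : v ∈ E) : InSpan E v := by
  have : InSpan {v} v := ⟨1, by simp, by simp⟩
  exact this.mono (by simpa using h)

lemma InSpan.norm_le {E : Finset G} {v : G} (h : InSpan E v) (f : G →+ Tor) (θ : ℝ)
    (hθ : ∀ a ∈ E, ‖f a‖ ≤ θ) : ‖f v‖ ≤ E.card * θ := by
  obtain ⟨ε, h1, h2⟩ := h
  rw [h2, map_sum]
  refine (norm_sum_le _ _).trans ?_
  have : ∀ a ∈ E, ‖f (ε a • a)‖ ≤ θ := by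
    intro a ha
    rw [map_zsmul]
    refine (norm_zsmul_le' _ _).trans ?_
    have h3 : |(ε a : ℝ)| ≤ 1 := by exact_mod_cast h1 a
    calc |(ε a : ℝ)| * ‖f a‖ ≤ 1 * ‖f a‖ := by gcongr
      _ ≤ θ := by rw [one_mul]; exact hθ a ha
  simpa using sum_le_card_nsmul E _ θ this

lemma inSpan_sub {E t u : Finset G} (ht : t ⊆ E) (hu : u ⊆ E) :
    InSpan E (∑ a ∈ t, a - ∑ a ∈ u, a) := by
  refine ⟨fun a => (if a ∈ t then 1 else 0) - (if a ∈ u then 1 else 0), fun a => ?_, ?_⟩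
  · by_cases h1 : a ∈ t <;> by_cases h2 : a ∈ u <;> simp [h1, h2]
  · simp only [sub_smul, sum_sub_distrib, ite_smul, one_smul, zero_smul]
    rw [← sum_filter, ← sum_filter, filter_mem_eq_inter, filter_mem_eq_inter,
      inter_eq_right.2 ht, inter_eq_right.2 hu]

lemma diss_insert {E : Finset G} {v : G} (hE : AddDissociated (E : Set G)) (hv : ¬ InSpan E v) :
    v ∉ E ∧ AddDissociated ((insert v E : Finset G) : Set G) := by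
  have hvE : v ∉ E := fun h => hv (InSpan.of_mem h)
  refine ⟨hvE, ?_⟩
  by_contra hcon
  obtain ⟨t, u, ht, hu, hdis, hne, hsum⟩ := not_addDissociated_iff_exists_disjoint.1 hcon
  have ht' : t ⊆ insert v E := by exact_mod_cast ht
  have hu' : u ⊆ insert v E := by exact_mod_cast hu
  by_cases hvt : v ∈ t
  · have hvu : v ∉ u := disjoint_left.1 hdis hvt
    have h1 : u ⊆ E := (subset_insert_iff_of_notMem hvu).1 hu'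
    have h2 : t.erase v ⊆ E := subset_insert_iff.1 ht'
    apply hv
    have : v = ∑ a ∈ u, a - ∑ a ∈ t.erase v, a := by
      rw [← hsum, ← add_sum_erase t _ hvt]; simp
    rw [this]
    exact inSpan_sub h1 h2
  · have h1 : t ⊆ E := (subset_insert_iff_of_notMem hvt).1 ht'
    by_cases hvu : v ∈ u
    · have h2 : u.erase v ⊆ E := subset_insert_iff.1 hu'
      apply hv
      have : v = ∑ a ∈ t, a - ∑ a ∈ u.erase v, a := by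
        rw [hsum, ← add_sum_erase u _ hvu]; simp
      rw [this]
      exact inSpan_sub h1 h2
    · have h2 : u ⊆ E := (subset_insert_iff_of_notMem hvu).1 hu'
      exact hne (hE (by exact_mod_cast h1) (by exact_mod_cast h2) hsum)

lemma exists_diss_span_ext (S E0 : Finset G) (h0 : E0 ⊆ S) (hE : AddDissociated (E0 : Set G)) :
    ∃ E : Finset G, E0 ⊆ E ∧ E ⊆ S ∧ AddDissociated (E : Set G) ∧ ∀ v ∈ S, InSpan E v := by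
  obtain ⟨E, hE1, hE2⟩ := (S.powerset.filter fun E : Finset G =>
    E0 ⊆ E ∧ AddDissociated (E : Set G)).exists_max_image Finset.card
    ⟨E0, mem_filter.2 ⟨mem_powerset.2 h0, Subset.rfl, hE⟩⟩
  obtain ⟨h1, h2, h3⟩ := mem_filter.1 hE1
  refine ⟨E, h2, mem_powerset.1 h1, h3, fun v hv => ?_⟩
  by_contra hcon
  obtain ⟨h4, h5⟩ := diss_insert h3 hcon
  have := hE2 (insert v E) (mem_filter.2 ⟨mem_powerset.2 (insert_subset hv (mem_powerset.1 h1)),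
    h2.trans (subset_insert _ _), h5⟩)
  rw [card_insert_of_notMem h4] at this
  omega

lemma exists_diss_span (S : Finset G) :
    ∃ E ⊆ S, AddDissociated (E : Set G) ∧ ∀ v ∈ S, InSpan E v := by
  obtain ⟨E, -, h1, h2, h3⟩ := exists_diss_span_ext S ∅ (empty_subset _) (by simp)
  exact ⟨E, h1, h2, h3⟩

lemma card_le_of_inSpan (S E : Finset G) (h : ∀ v ∈ S, InSpan E v) : S.card ≤ 3 ^ E.card := by
  have h1 : S ⊆ (Fintype.piFinset fun _ : E => (Icc (-1 : ℤ) 1)).image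
      fun ε => ∑ a : E, ε a • (a : G) := by
    intro v hv
    obtain ⟨ε, h2, h3⟩ := h v hv
    refine mem_image.2 ⟨fun a => ε a, ?_, ?_⟩
    · rw [Fintype.mem_piFinset]
      intro a
      rw [mem_Icc]
      exact abs_le.1 (h2 a)
    · rw [h3, ← sum_coe_sort E (fun a => ε a • a)]
  refine (card_le_card h1).trans (card_image_le.trans ?_)
  rw [Fintype.card_piFinset]
  simp

end Span

lemma diss_card {R : ℕ} (hR : 2 ≤ R) {ι : Type} [Fintype ι] (hι : Fintype.card ι ≤ R)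
    (E : Finset (ι → ℤ)) (hE : AddDissociated (E : Set (ι → ℤ)))
    (hb : ∀ v ∈ E, ∀ j, |v j| ≤ 2 ^ R) : E.card ≤ R ^ 5 := by
  by_contra hcon
  obtain ⟨F, hFE, hF⟩ := exists_subset_card_eq (s := E) (n := R ^ 5 + 1) (by omega)
  set m := R ^ 5 + 1 with hm
  have h1 : F.powerset.card ≤
      (Fintype.piFinset fun _ : ι => Icc (-(m * 2 ^ R : ℤ)) (m * 2 ^ R)).card := by
    refine card_le_card_of_injOn (fun t => ∑ a ∈ t, a) ?_ ?_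
    · intro t ht
      have ht' : t ⊆ F := mem_powerset.1 (by exact_mod_cast ht)
      rw [mem_coe, Fintype.mem_piFinset]
      intro j
      rw [mem_Icc, ← abs_le]
      show |(∑ a ∈ t, a) j| ≤ _
      rw [Finset.sum_apply]
      refine (abs_sum_le_sum_abs _ _).trans ?_
      refine (sum_le_card_nsmul t _ (2 ^ R) fun v hv => hb v (hFE (ht' hv)) j).trans ?_
      rw [nsmul_eq_mul]
      have : (t.card : ℤ) ≤ m := by exact_mod_cast hF ▸ card_le_card ht'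
      gcongr
    · intro t ht u hu htu
      have ht' : t ⊆ F := mem_powerset.1 (by exact_mod_cast ht)
      have hu' : u ⊆ F := mem_powerset.1 (by exact_mod_cast hu)
      exact hE (by exact_mod_cast ht'.trans hFE) (by exact_mod_cast hu'.trans hFE) htu
  rw [card_powerset, hF, Fintype.card_piFinset, prod_const, card_univ, Int.card_Icc] at h1
  have h2 : ((m : ℤ) * 2 ^ R + 1 - -(m * 2 ^ R)).toNat = 2 * m * 2 ^ R + 1 := by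
    have : ((m : ℤ) * 2 ^ R + 1 - -(m * 2 ^ R)) = ((2 * m * 2 ^ R + 1 : ℕ) : ℤ) := by
      push_cast; ring
    rw [this, Int.toNat_natCast]
  rw [h2] at h1
  have h3 : R ^ 5 ≤ 2 ^ (5 * R) := by
    rw [mul_comm, pow_mul]; exact Nat.pow_le_pow_left Nat.lt_two_pow_self.le 5
  have h4 : 0 < 2 ^ (5 * R) := by positivity
  have h5 : 0 < 2 ^ R := by positivity
  have h6 : 2 * m * 2 ^ R + 1 ≤ 2 ^ (6 * R + 3) := by
    have : 2 ^ (6 * R + 3) = 8 * (2 ^ (5 * R) * 2 ^ R) := by ring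
    rw [this, hm]; nlinarith
  have h7 : (2 * m * 2 ^ R + 1) ^ Fintype.card ι ≤ 2 ^ ((6 * R + 3) * R) := by
    rw [pow_mul]
    exact (Nat.pow_le_pow_left h6 _).trans (Nat.pow_le_pow_right (by positivity) hι)
  have h8 : m ≤ (6 * R + 3) * R := (Nat.pow_le_pow_iff_right (by norm_num)).1 (h1.trans h7)
  have h9 : 8 * R ^ 2 ≤ R ^ 5 := by
    have : 2 ^ 3 ≤ R ^ 3 := Nat.pow_le_pow_left hR 3
    calc 8 * R ^ 2 = 2 ^ 3 * R ^ 2 := by norm_num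
      _ ≤ R ^ 3 * R ^ 2 := by gcongr
      _ = R ^ 5 := by ring
  nlinarith

end Pool.Agent.Lib.MP_9721b5_an
end
end
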