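import Pool.Agent.Lib.MP_9721b5_an.Basic
import Pool.Agent.Lib.MP_9721b5_an.Tri.Stmts

-- part Pool.Agent.Lib.MP_9721b5_an.BSA
section

/-!
The Bogolyubov lemma in the form used here follows from its real-parameter form.
-/

set_option autoImplicit false

open Finset
open scoped Classical ComplexConjugate Pointwise

noncomputable section

namespace Pool.Agent.Lib.MP_9721b5_an

theorem bs_of_sanders (hS : Pool.Agent.Tri.SandersStmt) : BSStmt := by
  obtain ⟨C, hC⟩ := hS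
  refine ⟨C + 1, fun R hR p _ A hA => ?_⟩
  have hR' : (2 : ℝ) ≤ R := by exact_mod_cast hR
  have he : (2 : ℝ) ≤ Real.exp 1 := by linarith [Real.add_one_le_exp 1]
  obtain ⟨Θ, h1, h2⟩ := hC R hR' p A (by
    have h3 : (p : ℝ) ≤ 2 ^ R * A.card := by exact_mod_cast hA
    have h4 : (2 : ℝ) ^ R ≤ Real.exp R := by
      simpa [← Real.exp_nat_mul] using pow_le_pow_left₀ (by norm_num) he R
    rw [Real.exp_neg, inv_mul_le_iff₀ (Real.exp_pos _)]
    exact h3.trans (mul_le_mul_of_nonneg_right h4 (Nat.cast_nonneg _)))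
  refine ⟨Θ, le_trans (by exact_mod_cast h1) (Nat.pow_le_pow_right (by omega) (Nat.le_succ C)),
    fun b hb => h2 b fun θ hθ => ((mem_filter.1 hb).2 θ hθ).trans ?_⟩
  have h3 : (1 / 2 : ℝ) ^ 2 ≤ Real.exp (-1) := by
    rw [Real.exp_neg, le_inv_comm₀ (by norm_num) (Real.exp_pos _)]
    linarith [Real.exp_one_lt_d9]
  calc hf (R ^ (C + 1)) ≤ (1 / 2 : ℝ) ^ (2 * R ^ C) :=
        pow_le_pow_of_le_one (by norm_num) (by norm_num)
          (by rw [pow_succ']; exact Nat.mul_le_mul_right _ hR)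
    _ ≤ Real.exp (-1) ^ (R ^ C) := by
        rw [pow_mul]; exact pow_le_pow_left₀ (by norm_num) h3 _
    _ = _ := by rw [← Real.exp_nat_mul]; push_cast; rw [mul_neg_one]

end Pool.Agent.Lib.MP_9721b5_an
end
end

-- part Pool.Agent.Lib.MP_9721b5_an.Zed
section

/-! Elementary lemmas on Bohr sets in the integers, locally quadratic phases and the dyadic tree. -/

set_option autoImplicit false

open Finset
open scoped Classical ComplexConjugate Pointwise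

noncomputable section

namespace Pool.Agent.Lib.MP_9721b5_an

lemma BZ.mono {Γ Γ' : Finset Tor} {ρ ρ' : ℝ} {h : ℤ} (H : BZ Γ' ρ' h) (hΓ : Γ ⊆ Γ')
    (hρ : ρ' ≤ ρ) : BZ Γ ρ h := fun γ hγ => (H γ (hΓ hγ)).trans hρ

lemma BZ.le {Γ : Finset Tor} {ρ ρ' : ℝ} {h : ℤ} (H : BZ Γ ρ' h) (hρ : ρ' ≤ ρ) : BZ Γ ρ h :=
  H.mono Subset.rfl hρ

lemma BZ.zero (Γ : Finset Tor) {ρ : ℝ} (hρ : 0 ≤ ρ) : BZ Γ ρ 0 := fun γ _ => by
  simpa using hρ

lemma BZ.neg {Γ : Finset Tor} {ρ : ℝ} {h : ℤ} (H : BZ Γ ρ h) : BZ Γ ρ (-h) := fun γ hγ => by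
  rw [neg_smul, norm_neg]; exact H γ hγ

lemma BZ.add {Γ : Finset Tor} {ρ ρ' : ℝ} {h k : ℤ} (H : BZ Γ ρ h) (K : BZ Γ ρ' k) :
    BZ Γ (ρ + ρ') (h + k) := fun γ hγ => by
  rw [add_smul]; exact (norm_add_le _ _).trans (add_le_add (H γ hγ) (K γ hγ))

lemma BZ.sub {Γ : Finset Tor} {ρ ρ' : ℝ} {h k : ℤ} (H : BZ Γ ρ h) (K : BZ Γ ρ' k) :
    BZ Γ (ρ + ρ') (h - k) := by
  rw [sub_eq_add_neg]; exact H.add K.neg

lemma BZ.mul {Γ : Finset Tor} {ρ : ℝ} {h : ℤ} (H : BZ Γ ρ h) (n : ℤ) :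
    BZ Γ (|(n : ℝ)| * ρ) (n * h) := fun γ hγ => by
  rw [mul_smul]
  refine (norm_zsmul_le' _ _).trans ?_
  gcongr
  exact H γ hγ

lemma AddZ.mono {Γ Γ' : Finset Tor} {ρ ρ' : ℝ} {φ : ℤ → Tor} (H : AddZ Γ ρ φ) (hΓ : Γ ⊆ Γ')
    (hρ : ρ' ≤ ρ) : AddZ Γ' ρ' φ := fun h k h1 h2 h3 =>
  H h k (h1.mono hΓ hρ) (h2.mono hΓ hρ) (h3.mono hΓ hρ)

lemma SymZ.mono {Γ Γ' : Finset Tor} {ρ ρ' ε ε' : ℝ} {φ : ℤ → Tor} (H : SymZ Γ ρ φ ε)
    (hΓ : Γ ⊆ Γ') (hρ : ρ' ≤ ρ) (hε : ε ≤ ε') : SymZ Γ' ρ' φ ε' := fun h k h1 h2 =>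
  (H h k (h1.mono hΓ hρ) (h2.mono hΓ hρ)).trans hε

lemma FormOK.mono {ι : Type} {Γ Γ' : Finset Tor} {ρ ρ' : ℝ} {ψ : ι → ℤ → Tor}
    (H : FormOK Γ ρ ψ) (hΓ : Γ ⊆ Γ') (hρ : ρ' ≤ ρ) : FormOK Γ' ρ' ψ := fun j =>
  ⟨(H j).1.mono hΓ hρ, (H j).2.mono hΓ hρ le_rfl⟩

lemma AddZ.map_sub {Γ : Finset Tor} {ρ : ℝ} {φ : ℤ → Tor} (H : AddZ Γ ρ φ) {h k : ℤ}
    (hh : BZ Γ ρ h) (hk : BZ Γ ρ k) (hhk : BZ Γ ρ (h - k)) : φ (h - k) = φ h - φ k := by
  have := H (h - k) k hhk hk (by simpa using hh)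
  rw [sub_add_cancel] at this
  rw [this]; abel

lemma AddZ.nat_mul {Γ : Finset Tor} {ρ r : ℝ} {φ : ℤ → Tor} (H : AddZ Γ ρ φ) {x : ℤ}
    (hx : BZ Γ r x) (hr : 0 ≤ r) (j : ℕ) (hj : j * r ≤ ρ) (hrρ : r ≤ ρ) :
    φ (j * x) = (j : ℤ) • φ x := by
  induction j with
  | zero =>
    have h0 := BZ.zero Γ (hr.trans hrρ)
    have := H 0 0 h0 h0 (by simpa using h0)
    simpa using this
  | succ j ih =>
    have hm : ∀ i : ℕ, (i : ℝ) * r ≤ ρ → BZ Γ ρ (i * x) := by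
      intro i hi
      have := hx.mul (i : ℤ)
      push_cast at this
      rw [Nat.abs_cast] at this
      exact this.le hi
    have hj' : (j : ℝ) * r ≤ ρ := by push_cast at hj; nlinarith
    have h1 := hm (j + 1) hj
    push_cast at h1 ⊢
    rw [add_mul, one_mul] at h1 ⊢
    rw [H _ _ (hm j hj') (hx.le hrρ) h1, ih hj', add_smul, one_smul]

lemma AddZ.zsmul {Γ : Finset Tor} {ρ : ℝ} {φ : ℤ → Tor} (H : AddZ Γ ρ φ) (n : ℤ) :
    AddZ Γ ρ (fun h => n • φ h) := fun h k h1 h2 h3 => by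
  simp only [H h k h1 h2 h3, smul_add]

lemma AddZ.cz {ι : Type} [Fintype ι] {Γ : Finset Tor} {ρ : ℝ} {ψ : ι → ℤ → Tor}
    (H : ∀ j, AddZ Γ ρ (ψ j)) (v : ι → ℤ) : AddZ Γ ρ (cz ψ v) := fun h k h1 h2 h3 => by
  unfold MP_9721b5_an.cz
  rw [← sum_add_distrib]
  exact sum_congr rfl fun j _ => by rw [H j h k h1 h2 h3, smul_add]

lemma SymZ.scale {Γ : Finset Tor} {ρ ε : ℝ} {φ : ℤ → Tor} (ha : AddZ Γ ρ φ) (hs : SymZ Γ ρ φ ε)
    (hε : ε ≤ 1 / 4) (hρ : 0 ≤ ρ) (n : ℕ) : SymZ Γ (ρ * hf n) φ (ε * hf n * hf n) := by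
  have hr : 0 ≤ ρ * hf n := mul_nonneg hρ (hf_pos n).le
  have hr1 : ρ * hf n ≤ ρ := mul_le_of_le_one_right hρ (hf_le_one n)
  have hm : ∀ x, BZ Γ (ρ * hf n) x → ∀ j : ℕ, j ≤ 2 ^ n →
      BZ Γ ρ (j * x) ∧ φ (j * x) = (j : ℤ) • φ x := by
    intro x hx j hj
    have hj' : (j : ℝ) * (ρ * hf n) ≤ ρ := by
      have h2 : (j : ℝ) ≤ 2 ^ n := by exact_mod_cast hj
      calc (j : ℝ) * (ρ * hf n) ≤ 2 ^ n * (ρ * hf n) := by gcongr
        _ = ρ * (hf n * 2 ^ n) := by ring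
        _ = ρ := by rw [hf_mul_two_pow, mul_one]
    refine ⟨?_, ha.nat_mul hx hr j hj' hr1⟩
    have := hx.mul (j : ℤ)
    push_cast at this
    rw [Nat.abs_cast] at this
    exact this.le hj'
  have hdiv : ∀ θ : ℝ, θ / ((2 ^ n : ℕ) : ℝ) = θ * hf n := fun θ => by
    rw [hf_eq_inv, ← div_eq_mul_inv]; push_cast; rfl
  have h1 : ∀ x y, BZ Γ (ρ * hf n) x → BZ Γ ρ y → ‖y • φ x - x • φ y‖ ≤ ε * hf n := by
    intro x y hx hy
    rw [← hdiv]
    refine norm_le_of_mul _ (2 ^ n) ε Nat.one_le_two_pow hε fun j _ hj => ?_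
    obtain ⟨h2, h3⟩ := hm x hx j hj
    have h5 := hs _ y h2 hy
    rw [h3] at h5
    convert h5 using 2
    rw [smul_sub, smul_comm y, mul_smul]
  intro x y hx hy
  rw [← hdiv]
  have hε0 : 0 ≤ ε := (norm_nonneg _).trans (hs 0 0 (BZ.zero Γ hρ) (BZ.zero Γ hρ))
  refine norm_le_of_mul _ (2 ^ n) (ε * hf n) Nat.one_le_two_pow
    ((mul_le_of_le_one_right hε0 (hf_le_one n)).trans hε) fun j _ hj => ?_
  obtain ⟨h2, h3⟩ := hm y hy j hj
  have h5 := h1 x _ hx h2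
  rw [h3] at h5
  convert h5 using 2
  rw [smul_sub, smul_comm x, mul_smul]

lemma SymZ.cz {ι : Type} [Fintype ι] {Γ : Finset Tor} {ρ ε : ℝ} {ψ : ι → ℤ → Tor}
    (H : ∀ j, SymZ Γ ρ (ψ j) ε) (v : ι → ℤ) (b : ℕ) (hv : ∀ j, |v j| ≤ b) :
    SymZ Γ ρ (cz ψ v) (Fintype.card ι * b * ε) := by
  intro h k h1 h2
  have h3 : k • MP_9721b5_an.cz ψ v h - h • MP_9721b5_an.cz ψ v k =
      ∑ j, v j • (k • ψ j h - h • ψ j k) := by
    unfold MP_9721b5_an.cz
    rw [smul_sum, smul_sum, ← sum_sub_distrib]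
    exact sum_congr rfl fun j _ => by rw [smul_sub, smul_comm k, smul_comm h]
  rw [h3]
  refine (norm_sum_le _ _).trans ?_
  have h4 : ∀ j ∈ (univ : Finset ι), ‖v j • (k • ψ j h - h • ψ j k)‖ ≤ b * ε := by
    intro j _
    refine (norm_zsmul_le' _ _).trans ?_
    have h5 : |(v j : ℝ)| ≤ b := by exact_mod_cast hv j
    exact mul_le_mul h5 (H j h k h1 h2) (norm_nonneg _) (Nat.cast_nonneg b)
  have := sum_le_card_nsmul _ _ _ h4
  simpa [mul_assoc] using this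

/-- v -> cz ψ v h as an additive homomorphism. -/
def czHom {ι : Type} [Fintype ι] (ψ : ι → ℤ → Tor) (h : ℤ) : (ι → ℤ) →+ Tor where
  toFun v := cz ψ v h
  map_zero' := by simp [cz]
  map_add' v w := by simp [cz, add_smul, sum_add_distrib]

/-- v -> lin Γ v as an additive homomorphism. -/
def linHom (Γ : Finset Tor) : (Γ → ℤ) →+ Tor where
  toFun v := lin Γ v
  map_zero' := by simp [lin]
  map_add' v w := by simp [lin, add_smul, sum_add_distrib]

lemma Ph.Inner.mono {ι : Type} [Fintype ι] {a : Ph ι} {Γ Γ' : Finset Tor} {ρ ρ' ε ε' : ℝ}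
    {ψ : ι → ℤ → Tor} {y : ℤ} (H : a.Inner Γ ρ ψ ε y) (hΓ : Γ ⊆ Γ') (hρ : ρ' ≤ ρ) (hε : ε ≤ ε') :
    a.Inner Γ' ρ' ψ ε' y := fun h hh =>
  ⟨(H h (hh.mono hΓ hρ)).1.trans hε, (H h (hh.mono hΓ hρ)).2⟩

lemma Ph.Good.mono {ι : Type} [Fintype ι] {a : Ph ι} {Γ Γ' : Finset Tor} {ρ ρ' ε ε' : ℝ}
    {ψ : ι → ℤ → Tor} {y : ℤ} (H : a.Good Γ ρ ψ ε y) (hΓ : Γ ⊆ Γ') (hρ : ρ' ≤ ρ) (hε : ε ≤ ε') :
    a.Good Γ' ρ' ψ ε' y := fun h hh =>
  (H h (hh.mono hΓ hρ)).mono hΓ hρ hε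

lemma Ph.Good.inner {ι : Type} [Fintype ι] {a : Ph ι} {Γ : Finset Tor} {ρ ε : ℝ}
    {ψ : ι → ℤ → Tor} {y : ℤ} (H : a.Good Γ ρ ψ ε y) (hρ : 0 ≤ ρ) : a.Inner Γ ρ ψ ε y := by
  simpa using H 0 (BZ.zero Γ hρ)

lemma Atom.OK.mono {a : Atom} {R R' : ℕ} (H : a.OK R) (h : R ≤ R') : a.OK R' :=
  ⟨H.1.trans h, H.2.1.trans h, H.2.2.1.mono Subset.rfl (hf_anti h), H.2.2.2⟩

lemma Atom.Good.mono {a : Atom} {ρ ρ' ε ε' : ℝ} {y : ℤ} (H : a.Good ρ ε y) (hρ : ρ' ≤ ρ)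
    (hε : ε ≤ ε') : a.Good ρ' ε' y := Ph.Good.mono H Subset.rfl hρ hε

lemma Low.mono {Γ : Finset Tor} {ρ ρ' θ θ' ε ε' : ℝ} {φ : ℤ → Tor} {M : ℕ}
    (H : Low Γ ρ φ M θ ε) (hρ : ρ ≤ ρ') (hθ : θ ≤ θ') (hε : ε' ≤ ε) : Low Γ ρ' φ M θ' ε' := by
  unfold Low at H ⊢
  refine (mul_le_mul_of_nonneg_right hε (Nat.cast_nonneg M)).trans (H.trans ?_)
  refine Nat.cast_le.2 (card_le_card fun x hx => ?_)
  rw [mem_filter] at hx ⊢
  exact ⟨hx.1, hx.2.1.le hρ, hx.2.2.trans hθ⟩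

/-- Shifting the progression step by an element of the Bohr set. -/
lemma shift3 {ι : Type} [Fintype ι] {Γ : Finset Tor} {ρ ε : ℝ} {ψ : ι → ℤ → Tor}
    (hψ : ∀ j, AddZ Γ ρ (ψ j)) (hρ : 0 ≤ ρ) (a : Fin 3 → Ph ι) {y x k : ℤ}
    (h0 : (a 0).Inner Γ ρ ψ ε (y + x)) (h1 : (a 1).Inner Γ ρ ψ ε (y + 2 * x))
    (h2 : (a 2).Inner Γ ρ ψ ε (y + 3 * x)) (hk : BZ Γ (ρ / 3) k) :
    mu3 a y (x + k) = mu3 a y x ∧
    rho3 (fun i => (a i).Λ) y (x + k) =
      rho3 (fun i => (a i).Λ) y x + (2 : ℤ) • cz ψ (mu3 a y x) k ∧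
    ‖phi3 a y (x + k) - phi3 a y x - k • rho3 (fun i => (a i).Λ) y x -
      k • cz ψ (mu3 a y x) k‖ ≤ 3 * ε := by
  have hr : 0 ≤ ρ / 3 := by linarith
  have hk1 : BZ Γ ρ k := hk.le (by linarith)
  have hk2 : BZ Γ ρ (2 * k) := (hk.mul 2).le (by norm_num; linarith)
  have hk3 : BZ Γ ρ (3 * k) := (hk.mul 3).le (by norm_num; linarith)
  obtain ⟨a1, a2, a3⟩ := h0 k hk1
  obtain ⟨b1, b2, b3⟩ := h1 _ hk2
  obtain ⟨c1, c2, c3⟩ := h2 _ hk3
  have e2 : cz ψ ((a 1).r (y + 2 * x)) (2 * k) = (2 : ℤ) • cz ψ ((a 1).r (y + 2 * x)) k := by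
    have := (AddZ.cz hψ ((a 1).r (y + 2 * x))).nat_mul hk hr 2 (by push_cast; linarith)
      (by linarith)
    exact_mod_cast this
  have e3 : cz ψ ((a 2).r (y + 3 * x)) (3 * k) = (3 : ℤ) • cz ψ ((a 2).r (y + 3 * x)) k := by
    have := (AddZ.cz hψ ((a 2).r (y + 3 * x))).nat_mul hk hr 3 (by push_cast; linarith)
      (by linarith)
    exact_mod_cast this
  have em : cz ψ (mu3 a y x) k = cz ψ ((a 0).r (y + x)) k +
      (4 : ℤ) • cz ψ ((a 1).r (y + 2 * x)) k + (9 : ℤ) • cz ψ ((a 2).r (y + 3 * x)) k := by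
    have : mu3 a y x = (a 0).r (y + x) + (4 : ℤ) • (a 1).r (y + 2 * x) +
        (9 : ℤ) • (a 2).r (y + 3 * x) := by
      funext j; simp [mu3]
    rw [this]
    exact ((czHom ψ k).map_add _ _).trans (by
      rw [map_add, map_zsmul, map_zsmul]; rfl)
  have i1 : y + (x + k) = y + x + k := by ring
  have i2 : y + 2 * (x + k) = y + 2 * x + 2 * k := by ring
  have i3 : y + 3 * (x + k) = y + 3 * x + 3 * k := by ring
  rw [e2] at b1 b2
  rw [e3] at c1 c2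
  refine ⟨?_, ?_, ?_⟩
  · funext j
    simp only [mu3, i1, i2, i3, a3, b3, c3]
  · simp only [rho3, i1, i2, i3, a2, b2, c2, em]
    module
  · have := norm_add₃_le.trans (add_le_add (add_le_add a1 b1) c1)
    refine le_trans (le_of_eq ?_) (this.trans (le_of_eq (by ring)))
    congr 1
    simp only [phi3, rho3, i1, i2, i3, em]
    module

lemma card_Uset_ge (Γ : Finset Tor) (n M : ℕ) {ρ : ℝ} (hρ : hf n ≤ ρ) :
    M + 1 ≤ 2 ^ (n * Γ.card) * (Uset Γ ρ M).card := by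
  obtain ⟨S, h0, h1, h2⟩ := exists_cluster (Icc (0 : ℤ) M) Γ (fun γ x => x • γ) n
  rw [Int.card_Icc] at h1
  have h1' : M + 1 ≤ 2 ^ (n * Γ.card) * S.card := by
    refine le_trans (le_of_eq ?_) h1
    omega
  have hS : S.Nonempty := by
    rw [← card_pos]
    by_contra h
    have h0 : S.card = 0 := by omega
    rw [h0] at h1'
    omega
  obtain ⟨a, ha⟩ := hS
  refine h1'.trans (Nat.mul_le_mul_left _ ?_)
  refine card_le_card_of_injOn (fun x => x - a) ?_ (fun x _ y _ h => by simpa using h)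
  intro x hx
  have h3 := mem_Icc.1 (h0 ha)
  have h4 := mem_Icc.1 (h0 hx)
  rw [mem_coe, Uset, mem_filter, mem_Icc]
  refine ⟨by constructor <;> simp only <;> omega, fun γ hγ => ?_⟩
  rw [sub_smul]
  exact (h2 x hx a ha γ hγ).trans hρ

lemma bump_nonneg (Γ : Finset Tor) (n : ℕ) (h : ℤ) : 0 ≤ bump Γ n h :=
  prod_nonneg fun γ _ => pow_nonneg (by linarith [(abs_le.1 (abs_re_ex_le (h • γ))).1]) n

lemma bump_le_one (Γ : Finset Tor) (n : ℕ) (h : ℤ) : bump Γ n h ≤ 1 :=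
  prod_le_one (fun γ _ => pow_nonneg (by linarith [(abs_le.1 (abs_re_ex_le (h • γ))).1]) n)
    fun γ _ => pow_le_one₀ (by linarith [(abs_le.1 (abs_re_ex_le (h • γ))).1])
      (by linarith [(abs_le.1 (abs_re_ex_le (h • γ))).2])

lemma bump_tail (Γ : Finset Tor) (n : ℕ) {ρ : ℝ} (hρ : 0 ≤ ρ) {h : ℤ} (H : ¬ BZ Γ ρ h) :
    bump Γ n h ≤ Real.exp (-(4 * ρ ^ 2 * n)) := by
  unfold BZ at H
  push Not at H
  obtain ⟨γ, hγ, h1⟩ := H
  unfold bump
  rw [← mul_prod_erase Γ _ hγ]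
  have h2 := bump_le_one (Γ.erase γ) n h
  have h3 := bump_nonneg (Γ.erase γ) n h
  have h4 : ((1 + (ex (h • γ)).re) / 2) ^ n ≤ Real.exp (-(4 * ρ ^ 2 * n)) := by
    have h5 : (1 + (ex (h • γ)).re) / 2 ≤ Real.exp (-(4 * ρ ^ 2)) := by
      have h6 := one_add_re_le (h • γ)
      have h7 := Real.add_one_le_exp (-(4 * ρ ^ 2))
      have h8 : ρ ^ 2 ≤ ‖h • γ‖ ^ 2 := by gcongr
      linarith
    have h9 : -(4 * ρ ^ 2 * n) = n * -(4 * ρ ^ 2) := by ring
    rw [h9, Real.exp_nat_mul]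
    exact pow_le_pow_left₀ (by linarith [(abs_le.1 (abs_re_ex_le (h • γ))).1]) h5 n
  exact (mul_le_mul h4 h2 h3 (Real.exp_pos _).le).trans (by rw [mul_one])

lemma dz_finite (Γ : Finset Tor) (n : ℕ) (ξ : Tor) :
    {r : ℝ | ∃ v : Γ → ℤ, (∀ γ, |v γ| ≤ n) ∧ r = ‖ξ + lin Γ v‖}.Finite := by
  refine (((Fintype.piFinset fun _ : Γ => Icc (-(n : ℤ)) n).image
    fun v => ‖ξ + lin Γ v‖).finite_toSet).subset ?_
  rintro r ⟨v, hv, rfl⟩
  refine mem_coe.2 (mem_image.2 ⟨v, ?_, rfl⟩)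
  rw [Fintype.mem_piFinset]
  exact fun γ => mem_Icc.2 (abs_le.1 (hv γ))

lemma dz_nonneg (Γ : Finset Tor) (n : ℕ) (ξ : Tor) : 0 ≤ dz Γ n ξ :=
  Real.sInf_nonneg (by rintro r ⟨v, -, rfl⟩; exact norm_nonneg _)

lemma exists_dz (Γ : Finset Tor) (n : ℕ) (ξ : Tor) :
    ∃ v : Γ → ℤ, (∀ γ, |v γ| ≤ n) ∧ dz Γ n ξ = ‖ξ + lin Γ v‖ := by
  have h1 := dz_finite Γ n ξ
  have h2 : {r : ℝ | ∃ v : Γ → ℤ, (∀ γ, |v γ| ≤ n) ∧ r = ‖ξ + lin Γ v‖}.Nonempty :=
    ⟨_, 0, by simp, rfl⟩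
  exact h2.csInf_mem h1

lemma dz_le (Γ : Finset Tor) (n : ℕ) (ξ : Tor) (v : Γ → ℤ) (hv : ∀ γ, |v γ| ≤ n) :
    dz Γ n ξ ≤ ‖ξ + lin Γ v‖ :=
  csInf_le (dz_finite Γ n ξ).bddBelow ⟨v, hv, rfl⟩

lemma dz_lip (Γ : Finset Tor) (n : ℕ) (ξ ζ : Tor) : |dz Γ n (ξ + ζ) - dz Γ n ξ| ≤ ‖ζ‖ := by
  obtain ⟨v, hv, h1⟩ := exists_dz Γ n ξ
  obtain ⟨w, hw, h2⟩ := exists_dz Γ n (ξ + ζ)
  have h3 := dz_le Γ n (ξ + ζ) v hv
  have h4 := dz_le Γ n ξ w hw
  have h5 : ‖ξ + ζ + lin Γ v‖ ≤ ‖ξ + lin Γ v‖ + ‖ζ‖ := by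
    rw [add_right_comm]; exact norm_add_le _ _
  have h6 : ‖ξ + lin Γ w‖ ≤ ‖ξ + ζ + lin Γ w‖ + ‖ζ‖ := by
    have : ξ + lin Γ w = ξ + ζ + lin Γ w - ζ := by abel
    conv_lhs => rw [this]
    exact norm_sub_le _ _
  rw [abs_le]; constructor <;> linarith

lemma norm_tav_le {f : Fin 3 → ℤ → ℂ} (hf : ∀ i y, ‖f i y‖ ≤ 1) (s : ℤ) (N : ℕ) (y : ℤ) :
    ‖tav f s N y‖ ≤ 1 := by
  unfold tav
  rw [norm_div, Complex.norm_natCast]
  refine div_le_one_of_le₀ ((norm_sum_le _ _).trans ?_) (Nat.cast_nonneg N)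
  have := sum_le_card_nsmul (Icc (1 : ℤ) N)
    (fun n => ‖f 0 (y + s * n) * f 1 (y + 2 * (s * n)) * f 2 (y + 3 * (s * n))‖) 1 fun n _ => by
      rw [norm_mul, norm_mul]
      exact mul_le_one₀ (mul_le_one₀ (hf _ _) (norm_nonneg _) (hf _ _)) (norm_nonneg _) (hf _ _)
  simpa using this

lemma tav_wave {ι : Type} (a : Fin 3 → Ph ι) (s : ℤ) (N : ℕ) (y : ℤ) :
    tav (wave a) s N y = (∑ n ∈ Icc (1 : ℤ) N, ex (phi3 a y (s * n))) / N := by
  unfold tav wave phi3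
  simp only [ex_add]

/-- Sums over s * [1, N] as sums over an interval. -/
lemma sum_sign (M : Type*) [AddCommMonoid M] {s : ℤ} (hs : s = 1 ∨ s = -1) (N : ℕ) :
    ∃ a0 : ℤ, (∀ x ∈ Ico a0 (a0 + N), |x| ≤ N) ∧
      ∀ G : ℤ → M, ∑ n ∈ Icc (1 : ℤ) N, G (s * n) = ∑ x ∈ Ico a0 (a0 + N), G x := by
  rcases hs with rfl | rfl
  · refine ⟨1, fun x hx => ?_, fun G => ?_⟩
    · rw [mem_Ico] at hx; rw [abs_le]; omega
    · have : Ico (1 : ℤ) (1 + N) = Icc (1 : ℤ) N := by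
        ext x; simp only [mem_Ico, mem_Icc]; omega
      simp [this]
  · refine ⟨-N, fun x hx => ?_, fun G => ?_⟩
    · rw [mem_Ico] at hx; rw [abs_le]; omega
    · refine sum_bij (fun n _ => -1 * n) ?_ ?_ ?_ (fun _ _ => rfl)
      · intro n hn; rw [mem_Icc] at hn; rw [mem_Ico]; omega
      · intro a _ b _ h; omega
      · intro x hx; rw [mem_Ico] at hx; exact ⟨-x, by rw [mem_Icc]; omega, by ring⟩

/-! ### The dyadic tree -/

lemma mem_nd {e : ℕ} {y z : ℤ} : z ∈ nd e y ↔ z / 2 ^ e = y / 2 ^ e := by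
  have h : (0 : ℤ) < 2 ^ e := by positivity
  rw [nd, mem_Ico]
  constructor
  · rintro ⟨h1, h2⟩
    apply le_antisymm
    · rw [← Int.lt_add_one_iff, Int.ediv_lt_iff_lt_mul h]; linarith
    · rwa [Int.le_ediv_iff_mul_le h]
  · intro h1
    rw [← h1]
    exact ⟨Int.ediv_mul_le z h.ne', by
      have := Int.lt_ediv_add_one_mul_self z h
      linarith⟩

lemma self_mem_nd (e : ℕ) (y : ℤ) : y ∈ nd e y := mem_nd.2 rfl

lemma card_nd (e : ℕ) (y : ℤ) : (nd e y).card = 2 ^ e := by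
  rw [nd, Int.card_Ico, add_sub_cancel_left]
  have : (2 : ℤ) ^ e = ((2 ^ e : ℕ) : ℤ) := by push_cast; rfl
  rw [this, Int.toNat_natCast]

lemma nd_eq {e : ℕ} {y z : ℤ} (h : z ∈ nd e y) : nd e z = nd e y := by
  unfold nd; rw [mem_nd.1 h]

lemma div_eq_of_le {e e' : ℕ} (he : e ≤ e') {y z : ℤ} (h : y / 2 ^ e = z / 2 ^ e) :
    y / 2 ^ e' = z / 2 ^ e' := by
  obtain ⟨k, rfl⟩ := Nat.exists_eq_add_of_le he
  rw [pow_add, ← Int.ediv_ediv_of_nonneg (by positivity), ← Int.ediv_ediv_of_nonneg (by positivity), h]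

lemma nd_subset {e e' : ℕ} (he : e ≤ e') {y z : ℤ} (h : z ∈ nd e' y) : nd e z ⊆ nd e' y := fun _ hw =>
  mem_nd.2 ((div_eq_of_le he (mem_nd.1 hw)).trans (mem_nd.1 h))

lemma sum_nd_aux {M : Type*} [AddCommMonoid M] {e e' : ℕ} (he : e ≤ e') (y0 : ℤ) (F : ℤ → M) :
    ∑ z ∈ nd e' y0, F z =
      ∑ y ∈ (nd e' y0).image (fun z => z / 2 ^ e * 2 ^ e), ∑ z ∈ nd e y, F z := by
  have h2 : (0 : ℤ) < 2 ^ e := by positivity
  have hb : ∀ z : ℤ, z / 2 ^ e * 2 ^ e / 2 ^ e = z / 2 ^ e := fun z =>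
    Int.mul_ediv_cancel _ h2.ne'
  rw [← sum_fiberwise_of_maps_to (g := fun z => z / 2 ^ e * 2 ^ e)
    (fun z hz => mem_image_of_mem _ hz)]
  refine sum_congr rfl fun y hy => sum_congr ?_ fun _ _ => rfl
  obtain ⟨w, hw, rfl⟩ := mem_image.1 hy
  ext z
  rw [mem_filter, mem_nd (y := w / 2 ^ e * 2 ^ e), hb]
  constructor
  · rintro ⟨-, h⟩; exact mul_right_cancel₀ h2.ne' h
  · intro h; exact ⟨nd_subset he hw (mem_nd.2 h), by rw [h]⟩

/-- A node is the disjoint union of its descendants at a given level. -/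
lemma sum_nd_split {M : Type*} [AddCommMonoid M] {e e' : ℕ} (he : e ≤ e') (y0 : ℤ) :
    ∃ Y : Finset ℤ, Y.card = 2 ^ (e' - e) ∧ (∀ y ∈ Y, y ∈ nd e' y0) ∧
      ∀ F : ℤ → M, ∑ z ∈ nd e' y0, F z = ∑ y ∈ Y, ∑ z ∈ nd e y, F z := by
  have h2 : (0 : ℤ) < 2 ^ e := by positivity
  have hb : ∀ z : ℤ, z / 2 ^ e * 2 ^ e / 2 ^ e = z / 2 ^ e := fun z =>
    Int.mul_ediv_cancel _ h2.ne'
  refine ⟨(nd e' y0).image (fun z => z / 2 ^ e * 2 ^ e), ?_, ?_, fun F => ?_⟩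
  · have h3 := sum_nd_aux he y0 (fun _ => (1 : ℕ))
    simp only [sum_const, card_nd, smul_eq_mul, mul_one] at h3
    obtain ⟨k, rfl⟩ := Nat.exists_eq_add_of_le he
    rw [pow_add, mul_comm] at h3
    rw [Nat.add_sub_cancel_left]
    exact (Nat.eq_of_mul_eq_mul_right (by positivity) h3).symm
  · intro y hy
    obtain ⟨w, hw, rfl⟩ := mem_image.1 hy
    exact nd_subset he hw (mem_nd.2 (hb w))
  · exact sum_nd_aux he y0 F

lemma nav_det (l : ℕ) (κ : ℕ → ℤ → ℝ) (d : ℕ) {y y' : ℤ}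
    (h : y / 2 ^ (d + l) = y' / 2 ^ (d + l)) : nav l κ d y = nav l κ d y' := by
  unfold nav; rw [nd_eq (mem_nd.2 h)]

/-- Against a function that is constant on the nodes of level d, κ d can be replaced by its node
average. -/
lemma sum_nav (l d e' : ℕ) (he : d + l ≤ e') (y0 : ℤ) (κ : ℕ → ℤ → ℝ) (Φ : ℤ → ℝ)
    (hΦ : ∀ y y', y / 2 ^ (d + l) = y' / 2 ^ (d + l) → Φ y = Φ y') :
    ∑ y ∈ nd e' y0, nav l κ d y * Φ y = ∑ y ∈ nd e' y0, κ d y * Φ y := by
  obtain ⟨Y, -, -, hY⟩ := sum_nd_split (M := ℝ) he y0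
  rw [hY, hY]
  refine sum_congr rfl fun y _ => ?_
  have h1 : ∀ z ∈ nd (d + l) y, nav l κ d z * Φ z = nav l κ d y * Φ y := fun z hz => by
    rw [nav_det l κ d (mem_nd.1 hz), hΦ z y (mem_nd.1 hz)]
  have h2 : ∀ z ∈ nd (d + l) y, κ d z * Φ z = κ d z * Φ y := fun z hz => by
    rw [hΦ z y (mem_nd.1 hz)]
  rw [sum_congr rfl h1, sum_congr rfl h2, sum_const, card_nd, ← sum_mul, nsmul_eq_mul]
  unfold nav
  push_cast
  field_simp

lemma nav_mono (l : ℕ) {κ κ' : ℕ → ℤ → ℝ} (h : ∀ d y, κ' d y ≤ κ d y) (d : ℕ) (y : ℤ) :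
    nav l κ' d y ≤ nav l κ d y := by
  unfold nav
  gcongr with z
  exact h d z

lemma nav_nonneg (l : ℕ) {κ : ℕ → ℤ → ℝ} (h : ∀ d y, 0 ≤ κ d y) (d : ℕ) (y : ℤ) :
    0 ≤ nav l κ d y :=
  div_nonneg (sum_nonneg fun z _ => h d z) (by positivity)

/-- Restriction of a system of weights to a sub-node and a smaller weight. -/
lemma Wts.restrict {l D : ℕ} {y0 : ℤ} {κ : ℕ → ℤ → ℝ} {q q' : ℕ → ℤ → ℕ} {η : ℝ}
    (H : Wts l D y0 κ q q' η) {t : ℕ} (ht : t ≤ D) {y1 : ℤ} (hy : y1 ∈ nd (D + l) y0)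
    (P : ℕ → ℤ → Prop) (hP : ∀ d y, P d y → q d y ≤ t) :
    Wts l t y1 (fun d y => if P d y then κ d y else 0) q q' η := by
  have hsub := nd_subset (e := t + l) (by omega) hy
  have hle : ∀ d y, (if P d y then κ d y else 0) ≤ κ d y := fun d y => by
    split_ifs
    · exact le_rfl
    · exact H.nn d y
  have hr : range (t + 1) ⊆ range (D + 1) := range_mono (by omega)
  refine ⟨fun d y => ?_, fun y hy' => ?_, fun d hd y hy' h => ?_, H.det, fun y hy' c => ?_⟩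
  · split_ifs
    · exact H.nn d y
    · exact le_rfl
  · refine le_trans ?_ (H.one y (hsub hy'))
    exact (sum_le_sum fun d _ => hle d y).trans
      (sum_le_sum_of_subset_of_nonneg hr fun d _ _ => H.nn d y)
  · by_cases hPd : P d y
    · simp only [hPd, if_true] at h
      obtain ⟨h1, h2, -⟩ := H.lev d (by omega) y (hsub hy') h
      exact ⟨h1, h2, hP d y hPd⟩
    · simp [hPd] at h
  · refine le_trans ?_ (H.blk y (hsub hy') c)
    refine (sum_le_sum fun d _ => ?_).trans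
      (sum_le_sum_of_subset_of_nonneg hr fun d _ _ => ?_)
    · split_ifs
      · exact nav_mono l hle d y
      · exact le_rfl
    · split_ifs
      · exact nav_nonneg l H.nn d y
      · exact le_rfl

/-- The weight of the pairs whose block contains the level c. -/
lemma Wts.cross_le {l D : ℕ} {y0 : ℤ} {κ : ℕ → ℤ → ℝ} {q q' : ℕ → ℤ → ℕ} {η : ℝ}
    (H : Wts l D y0 κ q q' η) {t : ℕ} (ht : t ≤ D) {y1 : ℤ} (hy : y1 ∈ nd (D + l) y0) (c : ℕ)
    (hc : c ≤ t) :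
    (∑ y ∈ nd (t + l) y1, ∑ d ∈ range (D + 1), if d ≤ c ∧ c ≤ q d y then κ d y else 0) ≤
      η * 2 ^ (t + l) := by
  have hsub := nd_subset (e := t + l) (by omega) hy
  have h1 : (∑ y ∈ nd (t + l) y1, ∑ d ∈ range (D + 1), if d ≤ c ∧ c ≤ q d y then κ d y else 0) =
      ∑ y ∈ nd (t + l) y1, ∑ d ∈ range (D + 1),
        if d ≤ c ∧ c ≤ q d y then nav l κ d y else 0 := by
    rw [sum_comm, sum_comm (s := nd (t + l) y1)]
    refine sum_congr rfl fun d _ => ?_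
    by_cases hd : d ≤ c
    · have := sum_nav l d (t + l) (by omega) y1 κ (fun y => if c ≤ q d y then 1 else 0)
        (fun y y' h => by rw [H.det d y y' h])
      simpa [hd] using this.symm
    · simp [hd]
  rw [h1]
  have := sum_le_card_nsmul (nd (t + l) y1) _ η fun y hy' => H.blk y (hsub hy') c
  rw [card_nd, nsmul_eq_mul] at this
  push_cast at this
  linarith

lemma sg_cases (l N d : ℕ) (y : ℤ) : sg l N d y = 1 ∨ sg l N d y = -1 := by
  unfold sg; split_ifs <;> simp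

lemma sg_mem {l N d : ℕ} (hl : 4 ≤ l) (hN : N < 2 ^ (d + 1)) (y : ℤ) :
    y + 3 * (sg l N d y * N) ∈ nd (d + l) y := by
  have h1 := self_mem_nd (d + l) y
  have h2 : (16 : ℤ) * 2 ^ d ≤ 2 ^ (d + l) := by
    rw [pow_add, mul_comm]
    gcongr
    calc (16 : ℤ) = 2 ^ 4 := by norm_num
      _ ≤ 2 ^ l := pow_le_pow_right₀ (by norm_num) hl
  have h3 : (N : ℤ) < 2 * 2 ^ d := by
    rw [pow_succ, mul_comm] at hN; exact_mod_cast hN
  rw [nd, mem_Ico] at h1 ⊢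
  unfold sg
  split_ifs with h <;> omega

lemma card_sg_neg {l N d D : ℕ} (hN : N < 2 ^ (d + 1)) (hd : d ≤ D) (y0 : ℤ) :
    ((nd (D + l) y0).filter fun y => sg l N d y = -1).card ≤ 6 * 2 ^ D := by
  obtain ⟨Y, hY, -, hs⟩ := sum_nd_split (M := ℕ) (e := d + l) (e' := D + l) (by omega) y0
  rw [card_filter, hs]
  have h1 : ∀ y ∈ Y, (∑ z ∈ nd (d + l) y, if sg l N d z = -1 then 1 else 0) ≤ 6 * 2 ^ d := by
    intro y _
    rw [← card_filter]
    have h2 : ((nd (d + l) y).filter fun z => sg l N d z = -1) ⊆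
        Ico (y / 2 ^ (d + l) * 2 ^ (d + l) + 2 ^ (d + l) - 3 * N)
          (y / 2 ^ (d + l) * 2 ^ (d + l) + 2 ^ (d + l)) := by
      intro z hz
      obtain ⟨h3, h4⟩ := mem_filter.1 hz
      have h5 := mem_nd.1 h3
      rw [nd, mem_Ico] at h3
      unfold sg at h4
      rw [h5] at h4
      rw [mem_Ico]
      split_ifs at h4 with h
      omega
    refine (card_le_card h2).trans ?_
    rw [Int.card_Ico, pow_succ] at *
    omega
  refine (sum_le_card_nsmul Y _ _ h1).trans (le_of_eq ?_)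
  rw [hY, smul_eq_mul, show D + l - (d + l) = D - d by omega, mul_left_comm, ← pow_add]
  congr 2; omega

end Pool.Agent.Lib.MP_9721b5_an
end
end

-- part Pool.Agent.Lib.MP_9721b5_an.LevelA
section

/-! The stopping time induction for one level of the chaining, in abstract form. -/

set_option autoImplicit false

open Finset
open scoped Classical ComplexConjugate Pointwise

noncomputable section

namespace Pool.Agent.Lib.MP_9721b5_an

/-- restriction of a weight -/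
def levelaRes (κ : ℕ → ℤ → ℝ) (P : ℕ → ℤ → Prop) : ℕ → ℤ → ℝ :=
  fun d y => if P d y then κ d y else 0

lemma levela_res_pos {κ : ℕ → ℤ → ℝ} {P : ℕ → ℤ → Prop} {d : ℕ} {y : ℤ} (h : P d y) :
    levelaRes κ P d y = κ d y := if_pos h

lemma levela_res_neg {κ : ℕ → ℤ → ℝ} {P : ℕ → ℤ → Prop} {d : ℕ} {y : ℤ} (h : ¬ P d y) :
    levelaRes κ P d y = 0 := if_neg h

lemma levela_res_ne {κ : ℕ → ℤ → ℝ} {P : ℕ → ℤ → Prop} {d : ℕ} {y : ℤ}
    (h : levelaRes κ P d y ≠ 0) : P d y ∧ κ d y ≠ 0 := by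
  by_cases hP : P d y
  · exact ⟨hP, by rwa [levela_res_pos hP] at h⟩
  · exact (h (levela_res_neg hP)).elim

/-- number of enabled levels -/
def levelaNE (En : ℕ → ℤ → Prop) (D : ℕ) (y : ℤ) : ℝ :=
  ∑ d ∈ range (D + 1), if En d y then 1 else 0

lemma levela_ne_eq (En : ℕ → ℤ → Prop) (D : ℕ) (y : ℤ) :
    levelaNE En D y = (((range (D + 1)).filter fun d => En d y).card : ℝ) := by
  simp [levelaNE]

lemma levela_ne_nonneg (En : ℕ → ℤ → Prop) (D : ℕ) (y : ℤ) : 0 ≤ levelaNE En D y := by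
  rw [levela_ne_eq]
  positivity

/-- comparison of two sums over a union of nodes -/
lemma levela_lvl {e e' : ℕ} (he : e ≤ e') (y0 : ℤ) (Φ : ℤ → Prop) [DecidablePred Φ]
    (hΦ : ∀ y y', y / 2 ^ e = y' / 2 ^ e → Φ y → Φ y') (g h : ℤ → ℝ)
    (H : ∀ y1 ∈ nd e' y0, Φ y1 → ∑ z ∈ nd e y1, g z ≤ ∑ z ∈ nd e y1, h z) :
    (∑ y ∈ nd e' y0, if Φ y then g y else 0) ≤ ∑ y ∈ nd e' y0, if Φ y then h y else 0 := by
  obtain ⟨Y, -, hY, hs⟩ := sum_nd_split (M := ℝ) he y0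
  rw [hs, hs]
  refine sum_le_sum fun y1 hy1 => ?_
  by_cases h1 : Φ y1
  · have h2 : ∀ z ∈ nd e y1, Φ z := fun z hz => hΦ _ _ (mem_nd.1 hz).symm h1
    rw [sum_congr rfl fun z hz => if_pos (h2 z hz), sum_congr rfl fun z hz => if_pos (h2 z hz)]
    exact H y1 (hY y1 hy1) h1
  · have h2 : ∀ z ∈ nd e y1, ¬ Φ z := fun z hz h => h1 (hΦ _ _ (mem_nd.1 hz) h)
    rw [sum_congr rfl fun z hz => if_neg (h2 z hz), sum_congr rfl fun z hz => if_neg (h2 z hz)]

/-- the level just above the top stopping level -/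
lemma levela_top (l D : ℕ) (St : ℕ → ℤ → Prop)
    (hSt : ∀ d y y', y / 2 ^ (d + l) = y' / 2 ^ (d + l) → St d y → St d y') :
    ∃ tp : ℤ → ℕ, (∀ y, tp y ≤ D + 1) ∧ (∀ y c, tp y ≤ c → c ≤ D → ¬ St c y) ∧
      (∀ y c, tp y = c + 1 → St c y) ∧
      (∀ d y y', y / 2 ^ (d + l) = y' / 2 ^ (d + l) → tp y ≤ d → tp y' ≤ d) := by
  have ex : ∀ y : ℤ, ∃ t, ∀ c, t ≤ c → c ≤ D → ¬ St c y := fun y =>
    ⟨D + 1, fun c h1 h2 => by omega⟩
  refine ⟨fun y => Nat.find (ex y), fun y => Nat.find_min' _ fun c h1 h2 => by omega,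
    fun y => Nat.find_spec (ex y), fun y c hc => ?_, fun d y y' h hd => ?_⟩
  · by_contra hn
    have hc : Nat.find (ex y) = c + 1 := hc
    have h0 : Nat.find (ex y) ≤ D + 1 := Nat.find_min' _ fun c h1 h2 => by omega
    refine Nat.find_min (ex y) (m := c) (by omega) fun c' h1 h2 => ?_
    rcases h1.eq_or_lt with rfl | h1
    · exact hn
    · exact Nat.find_spec (ex y) c' (by omega) h2
  · refine Nat.find_min' _ fun c h1 h2 hc => Nat.find_spec (ex y) c (hd.trans h1) h2 ?_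
    exact hSt c y' y (div_eq_of_le (by omega) h.symm) hc

lemma levela_sum_top {D t : ℕ} (g : ℕ → ℝ) (ht : t ≤ D + 1) :
    (∑ c ∈ range (D + 1), if t = c + 1 then g c else 0) = if t = 0 then 0 else g (t - 1) := by
  rcases t with _ | t
  · simp
  · simp only [Nat.add_right_cancel_iff, sum_ite_eq, mem_range, Nat.add_one_ne_zero, if_false,
      Nat.add_sub_cancel]
    rw [if_pos (by omega)]

lemma levela_osc_le {l D : ℕ} {y0 : ℤ} {κ : ℕ → ℤ → ℝ} {q q' : ℕ → ℤ → ℕ} {η : ℝ}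
    (H : Wts l D y0 κ q q' η) {A : ℕ → ℤ → ℂ} (hA : ∀ d y, ‖A d y‖ ≤ 1) :
    Osc l D y0 κ q q' A ≤ ∑ _y ∈ nd (D + l) y0, (2 : ℝ) := by
  refine sum_le_sum fun y hy => ?_
  calc ∑ d ∈ range (D + 1), κ d y * ‖A (q' d y) y - A (q d y) y‖
      ≤ ∑ d ∈ range (D + 1), κ d y * 2 := by
        refine sum_le_sum fun d _ => mul_le_mul_of_nonneg_left ?_ (H.nn d y)
        linarith [norm_sub_le (A (q' d y) y) (A (q d y) y), hA (q' d y) y, hA (q d y) y]
    _ ≤ 2 := by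
        rw [← sum_mul]
        linarith [H.one y hy]

/-- one stopping time -/
lemma levela_step {l D : ℕ} {y0 : ℤ} {κ : ℕ → ℤ → ℝ} {q q' : ℕ → ℤ → ℕ} {η : ℝ}
    (H : Wts l D y0 κ q q' η) {En : ℕ → ℤ → Prop} {A G : ℕ → ℤ → ℂ} {a γ : ℝ} (ha : 0 ≤ a)
    (hη : 0 ≤ η) (hA : ∀ d y, ‖A d y‖ ≤ 1) (hG : ∀ d y, ‖G d y‖ ≤ 1)
    (hEn : ∀ d y y', y / 2 ^ (d + l) = y' / 2 ^ (d + l) → En d y → En d y')
    (hq : ∀ d ≤ D, ∀ y ∈ nd (D + l) y0, κ d y ≠ 0 → En (q d y) y ∧ En (q' d y) y)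
    {T B : ℤ → ℝ} (hB : ∀ y, 0 ≤ B y)
    (hT : ∀ κ', Wts l D y0 κ' q q' η → Osc l D y0 κ' q q' G ≤ ∑ y ∈ nd (D + l) y0, T y)
    (hQ : ∀ c ≤ D, ∀ y1 ∈ nd (D + l) y0,
      γ * 2 ^ (c + l) < (((nd (c + l) y1).filter fun z => a < ‖A c z - G c z‖).card : ℝ) →
      Osc l c y1 (levelaRes κ fun d y => q d y ≤ c) q q' A ≤ ∑ z ∈ nd (c + l) y1,
        (2 * a * ∑ d ∈ range (c + 1), levelaRes κ (fun d y => q d y ≤ c) d z +
          4 * γ * levelaNE En c z + B z)) :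
    Osc l D y0 κ q q' A ≤ ∑ y ∈ nd (D + l) y0,
      (2 * a * ∑ d ∈ range (D + 1), κ d y + 4 * γ * levelaNE En D y + T y + 2 * η + B y) := by
  obtain ⟨tp, t1, t2, t3, t4⟩ := levela_top l D (fun c y =>
    γ * 2 ^ (c + l) < (((nd (c + l) y).filter fun z => a < ‖A c z - G c z‖).card : ℝ))
    (fun d y y' h h' => by rwa [nd_eq (mem_nd.2 h)] at h')
  have t5 : ∀ c y y', y / 2 ^ (c + l) = y' / 2 ^ (c + l) → tp y = c + 1 → tp y' = c + 1 := by
    intro c y y' h hc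
    have h1 := t4 (c + 1) y y' (div_eq_of_le (by omega) h) hc.le
    have h2 := t4 c y' y h.symm
    omega
  set κA := levelaRes κ (fun d y => q d y ≤ D ∧ tp y ≤ q' d y) with hκA
  set κB : ℕ → ℕ → ℤ → ℝ := fun c => levelaRes κ (fun d y => q d y ≤ c) with hκB
  have wA : Wts l D y0 κA q q' η := H.restrict le_rfl (self_mem_nd _ _) _ fun d y h => h.1
  have nB : ∀ c d y, 0 ≤ κB c d y := fun c d y => by
    simp only [hκB, levelaRes]
    split_ifs
    exacts [H.nn d y, le_rfl]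
  set X : ℤ → ℝ := fun y => ∑ d ∈ range (D + 1),
    if En d y ∧ tp y ≤ d then (if a < ‖A d y - G d y‖ then 1 else 0) else 0 with hX
  set O : ℕ → ℤ → ℝ := fun c y =>
    ∑ d ∈ range (c + 1), κB c d y * ‖A (q' d y) y - A (q d y) y‖ with hO
  set C : ℕ → ℤ → ℝ := fun c y =>
    ∑ d ∈ range (D + 1), if d ≤ c ∧ c ≤ q d y then κ d y else 0 with hC
  set Rq : ℕ → ℤ → ℝ := fun c z =>
    2 * a * ∑ d ∈ range (c + 1), κB c d z + 4 * γ * levelaNE En c z + B z with hRq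
  have X0 : ∀ y, 0 ≤ X y := fun y => sum_nonneg fun d _ => by positivity
  have X1 : ∀ y d, d ≤ D → En d y → tp y ≤ d → ‖A d y - G d y‖ ≤ a + 2 * X y := by
    intro y d hd h1 h2
    by_cases h3 : a < ‖A d y - G d y‖
    · have h4 : 1 ≤ X y := by
        have := single_le_sum (s := range (D + 1)) (a := d) (f := fun d =>
          if En d y ∧ tp y ≤ d then (if a < ‖A d y - G d y‖ then (1 : ℝ) else 0) else 0)
          (fun d _ => by positivity) (mem_range.2 (by omega))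
        rwa [if_pos ⟨h1, h2⟩, if_pos h3] at this
      linarith [norm_sub_le (A d y) (G d y), hA d y, hG d y]
    · linarith [X0 y]
  -- the pointwise splitting
  have p1 : ∀ y ∈ nd (D + l) y0,
      ∑ d ∈ range (D + 1), κ d y * ‖A (q' d y) y - A (q d y) y‖ ≤
        ∑ d ∈ range (D + 1), κA d y * ‖G (q' d y) y - G (q d y) y‖ +
          2 * a * ∑ d ∈ range (D + 1), κA d y + 4 * X y +
          (∑ c ∈ range (D + 1), if tp y = c + 1 then O c y else 0) +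
          2 * ∑ c ∈ range (D + 1), if tp y = c + 1 then C c y else 0 := by
    intro y hy
    have hA' : ∀ d ∈ range (D + 1), κ d y ≠ 0 → tp y ≤ q' d y →
        κ d y * ‖A (q' d y) y - A (q d y) y‖ ≤
          κA d y * ‖G (q' d y) y - G (q d y) y‖ + 2 * a * κA d y + 4 * X y * κA d y := by
      intro d hd h0 h1
      have hd' : d ≤ D := by simpa [Nat.lt_succ_iff] using hd
      obtain ⟨l1, l2, l3⟩ := H.lev d hd' y hy h0
      obtain ⟨e1, e2⟩ := hq d hd' y hy h0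
      rw [hκA, levela_res_pos ⟨l3, h1⟩]
      have b1 := X1 y _ (l2.trans l3) e2 h1
      have b2 := X1 y _ l3 e1 (h1.trans l2)
      have b3 : ‖A (q' d y) y - A (q d y) y‖ ≤ ‖G (q' d y) y - G (q d y) y‖ +
          ‖A (q' d y) y - G (q' d y) y‖ + ‖A (q d y) y - G (q d y) y‖ := by
        have : A (q' d y) y - A (q d y) y = (G (q' d y) y - G (q d y) y) +
          (A (q' d y) y - G (q' d y) y) - (A (q d y) y - G (q d y) y) := by ring
        rw [this]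
        exact (norm_sub_le _ _).trans (add_le_add (norm_add_le _ _) le_rfl)
      have b4 := mul_le_mul_of_nonneg_left
        (b3.trans (add_le_add (add_le_add le_rfl b1) b2)) (H.nn d y)
      linarith
    have hX4 : ∑ d ∈ range (D + 1), 4 * X y * κA d y ≤ 4 * X y := by
      rw [← mul_sum]
      exact mul_le_of_le_one_right (by linarith [X0 y]) (wA.one y hy)
    have nA : ∀ d, 0 ≤ κA d y * ‖G (q' d y) y - G (q d y) y‖ + 2 * a * κA d y +
        4 * X y * κA d y := fun d => by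
      have := wA.nn d y
      have := X0 y
      positivity
    rw [levela_sum_top _ (t1 y), levela_sum_top _ (t1 y), mul_sum]
    by_cases h0 : tp y = 0
    · rw [if_pos h0, if_pos h0]
      refine (sum_le_sum (g := fun d => κA d y * ‖G (q' d y) y - G (q d y) y‖ + 2 * a * κA d y +
        4 * X y * κA d y) fun d hd => ?_).trans ?_
      · by_cases hk : κ d y = 0
        · rw [hk, zero_mul]
          exact nA d
        · exact hA' d hd hk (by omega)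
      · rw [sum_add_distrib, sum_add_distrib]
        linarith
    · rw [if_neg h0, if_neg h0]
      obtain ⟨c, hc⟩ : ∃ c, tp y = c + 1 := ⟨tp y - 1, by omega⟩
      have hcD : c ≤ D := by have := t1 y; omega
      rw [hc, Nat.add_sub_cancel]
      have hO' : O c y = ∑ d ∈ range (D + 1), κB c d y * ‖A (q' d y) y - A (q d y) y‖ := by
        refine sum_subset (range_subset_range.2 (by omega)) fun d hd hd' => ?_
        have : κB c d y = 0 := by
          by_contra hne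
          obtain ⟨h1, h2⟩ := levela_res_ne hne
          obtain ⟨l1, l2, -⟩ := H.lev d (by simpa [Nat.lt_succ_iff] using hd) y hy h2
          exact hd' (mem_range.2 (by omega))
        rw [this, zero_mul]
      refine (sum_le_sum (g := fun d => κA d y * ‖G (q' d y) y - G (q d y) y‖ + 2 * a * κA d y +
        4 * X y * κA d y + κB c d y * ‖A (q' d y) y - A (q d y) y‖ +
        2 * if d ≤ c ∧ c ≤ q d y then κ d y else 0) fun d hd => ?_).trans ?_
      · have n1 := nA d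
        have n2 : 0 ≤ κB c d y * ‖A (q' d y) y - A (q d y) y‖ :=
          mul_nonneg (nB c d y) (norm_nonneg _)
        have n3 : 0 ≤ if d ≤ c ∧ c ≤ q d y then κ d y else 0 := by
          split_ifs
          exacts [H.nn d y, le_rfl]
        by_cases hk : κ d y = 0
        · rw [hk, zero_mul]
          rw [hk] at n3
          linarith
        by_cases h1 : tp y ≤ q' d y
        · linarith [hA' d hd hk h1]
        by_cases h2 : q d y ≤ c
        · have : κB c d y = κ d y := levela_res_pos h2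
          rw [this]
          linarith
        · obtain ⟨l1, l2, -⟩ := H.lev d (by simpa [Nat.lt_succ_iff] using hd) y hy hk
          rw [if_pos ⟨by omega, by omega⟩]
          have b1 : ‖A (q' d y) y - A (q d y) y‖ ≤ 2 := by
            linarith [norm_sub_le (A (q' d y) y) (A (q d y) y), hA (q' d y) y, hA (q d y) y]
          have := mul_le_mul_of_nonneg_left b1 (H.nn d y)
          linarith
      · rw [sum_add_distrib, sum_add_distrib, sum_add_distrib, sum_add_distrib, ← hO',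
          ← mul_sum _ _ (2 : ℝ)]
        linarith
  -- the three global estimates
  have g1 : ∑ y ∈ nd (D + l) y0, X y ≤ ∑ y ∈ nd (D + l) y0,
      ∑ d ∈ range (D + 1), if En d y ∧ tp y ≤ d then γ else 0 := by
    simp only [hX]
    rw [sum_comm, sum_comm (s := nd (D + l) y0)]
    refine sum_le_sum fun d hd => ?_
    have hd' : d ≤ D := by simpa [Nat.lt_succ_iff] using hd
    refine levela_lvl (e := d + l) (e' := D + l) (by omega) y0 (fun y => En d y ∧ tp y ≤ d)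
      (fun y y' h h' => ⟨hEn d y y' h h'.1, t4 d y y' h h'.2⟩)
      (fun y => if a < ‖A d y - G d y‖ then 1 else 0) (fun _ => γ) fun y1 _ h1 => ?_
    have := not_lt.1 (t2 y1 d h1.2 hd')
    rw [sum_const, card_nd, nsmul_eq_mul, mul_comm]
    simpa using this
  have g2 : ∑ y ∈ nd (D + l) y0, (∑ c ∈ range (D + 1), if tp y = c + 1 then O c y else 0) ≤
      ∑ y ∈ nd (D + l) y0, ∑ c ∈ range (D + 1), if tp y = c + 1 then Rq c y else 0 := by
    rw [sum_comm, sum_comm (s := nd (D + l) y0)]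
    refine sum_le_sum fun c hc => ?_
    have hc' : c ≤ D := by simpa [Nat.lt_succ_iff] using hc
    exact levela_lvl (e := c + l) (e' := D + l) (by omega) y0 (fun y => tp y = c + 1)
      (t5 c) (O c) (Rq c) fun y1 hy1 h1 => hQ c hc' y1 hy1 (t3 y1 c h1)
  have g3 : ∑ y ∈ nd (D + l) y0, (∑ c ∈ range (D + 1), if tp y = c + 1 then C c y else 0) ≤
      ∑ y ∈ nd (D + l) y0, ∑ c ∈ range (D + 1), if tp y = c + 1 then η else 0 := by
    rw [sum_comm, sum_comm (s := nd (D + l) y0)]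
    refine sum_le_sum fun c hc => ?_
    have hc' : c ≤ D := by simpa [Nat.lt_succ_iff] using hc
    refine levela_lvl (e := c + l) (e' := D + l) (by omega) y0 (fun y => tp y = c + 1)
      (t5 c) (C c) (fun _ => η) fun y1 hy1 _ => ?_
    rw [sum_const, card_nd, nsmul_eq_mul, mul_comm]
    push_cast
    exact H.cross_le hc' hy1 c le_rfl
  -- recombination
  have p2 : ∀ y ∈ nd (D + l) y0, 2 * a * ∑ d ∈ range (D + 1), κA d y +
      (4 * ∑ d ∈ range (D + 1), if En d y ∧ tp y ≤ d then γ else 0) +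
      (∑ c ∈ range (D + 1), if tp y = c + 1 then Rq c y else 0) +
      (2 * ∑ c ∈ range (D + 1), if tp y = c + 1 then η else 0) ≤
      2 * a * ∑ d ∈ range (D + 1), κ d y + 4 * γ * levelaNE En D y + 2 * η + B y := by
    intro y hy
    rw [levela_sum_top _ (t1 y), levela_sum_top (fun _ => η) (t1 y)]
    by_cases h0 : tp y = 0
    · rw [if_pos h0, if_pos h0]
      have b1 : ∑ d ∈ range (D + 1), κA d y ≤ ∑ d ∈ range (D + 1), κ d y := by
        refine sum_le_sum fun d _ => ?_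
        simp only [hκA, levelaRes]
        split_ifs
        exacts [le_rfl, H.nn d y]
      have b2 : (∑ d ∈ range (D + 1), if En d y ∧ tp y ≤ d then γ else 0) ≤
          γ * levelaNE En D y := by
        rw [levelaNE, mul_sum]
        refine sum_le_sum fun d _ => ?_
        by_cases h1 : En d y <;> simp [h1, h0]
      have := mul_le_mul_of_nonneg_left b1 (show 0 ≤ 2 * a by linarith)
      linarith [hB y]
    · rw [if_neg h0, if_neg h0]
      obtain ⟨c, hc⟩ : ∃ c, tp y = c + 1 := ⟨tp y - 1, by omega⟩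
      have hcD : c ≤ D := by have := t1 y; omega
      rw [hc, Nat.add_sub_cancel]
      have b1 : ∑ d ∈ range (D + 1), κA d y + ∑ d ∈ range (c + 1), κB c d y ≤
          ∑ d ∈ range (D + 1), κ d y := by
        refine (add_le_add le_rfl (sum_le_sum_of_subset_of_nonneg
          (range_subset_range.2 (show c + 1 ≤ D + 1 by omega)) fun d _ _ => nB c d y)).trans ?_
        rw [← sum_add_distrib]
        refine sum_le_sum fun d hd => ?_
        by_cases hk : κ d y = 0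
        · simp [hκA, hκB, levelaRes, hk]
        obtain ⟨l1, l2, -⟩ := H.lev d (by simpa [Nat.lt_succ_iff] using hd) y hy hk
        simp only [hκA, hκB, levelaRes]
        have := H.nn d y
        split_ifs with h1 h2
        · omega
        all_goals linarith
      have b2 : (∑ d ∈ range (D + 1), if En d y ∧ c + 1 ≤ d then γ else 0) +
          γ * levelaNE En c y ≤ γ * levelaNE En D y := by
        have e1 : levelaNE En c y = ∑ d ∈ range (D + 1), if En d y ∧ d ≤ c then 1 else 0 := by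
          rw [levelaNE, ← sum_subset (range_subset_range.2 (show c + 1 ≤ D + 1 by omega))]
          · refine sum_congr rfl fun d hd => ?_
            have : d ≤ c := by simpa [Nat.lt_succ_iff] using hd
            simp [this]
          · intro d _ hd
            have : ¬ d ≤ c := by simpa [Nat.lt_succ_iff] using hd
            simp [this]
        rw [e1, levelaNE, mul_sum, mul_sum, ← sum_add_distrib]
        refine sum_le_sum fun d _ => ?_
        by_cases h1 : En d y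
        · by_cases h2 : d ≤ c
          · simp [h1, h2, show ¬ c + 1 ≤ d by omega]
          · simp [h1, h2, show c + 1 ≤ d by omega]
        · simp [h1]
      have := mul_le_mul_of_nonneg_left b1 (show 0 ≤ 2 * a by linarith)
      simp only [hRq]
      linarith
  have s1 := sum_le_sum p1
  have s2 := sum_le_sum p2
  have s3 := hT κA wA
  simp only [sum_add_distrib, ← mul_sum] at s1 s2 ⊢
  simp only [Osc] at s3 ⊢
  linarith

lemma levela_sum (s : Finset ℤ) (x b p : ℤ → ℝ) (k k' S e η β c : ℝ) :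
    ∑ z ∈ s, (x z + k * (S * (e + b z) + 2 * η) + k' ^ 2 * (S * β) + 2 * p z / c) =
      ∑ z ∈ s, x z + k * (S * (e * s.card + ∑ z ∈ s, b z) + 2 * η * s.card) +
        k' ^ 2 * (S * β * s.card) + 2 * (∑ z ∈ s, p z) / c := by
  simp only [sum_add_distrib, ← sum_div, ← mul_sum, sum_const, nsmul_eq_mul]
  ring

lemma levela_arith {O X k S e n b b' p p' η β c : ℝ} (hk : 0 ≤ k) (hc : 0 < c) (hS : 0 ≤ S)
    (he : 0 ≤ e) (hη : 0 ≤ η) (hβ : 0 ≤ β) (n0 : 0 ≤ n) (b0 : 0 ≤ b) (X0 : 0 ≤ X)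
    (o1 : O ≤ n * 2) (v2 : p' + n * c ≤ p) (v3 : b' ≤ b + n * β)
    (o2 : c * (k * O) ≤
      c * (k * (X + k * (S * (e * n + b') + 2 * η * n) + k ^ 2 * (S * β * n))) + 2 * p') :
    O ≤ X + k * (S * (e * n + b) + 2 * η * n) + (k + 1) ^ 2 * (S * β * n) +
      2 * p / (c * (k + 1)) := by
  obtain ⟨Y, hY⟩ : ∃ Y, Y = X + k * (S * (e * n + b) + 2 * η * n) + (k + 1) ^ 2 * (S * β * n) :=
    ⟨_, rfl⟩
  have Y0 : 0 ≤ Y := by rw [hY]; positivity
  have Y1 : X + k * (S * (e * n + b') + 2 * η * n) + k ^ 2 * (S * β * n) ≤ Y := by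
    have h1 := mul_le_mul_of_nonneg_left v3 (mul_nonneg hk hS)
    have h2 : 0 ≤ (k + 1) * (S * β * n) := by positivity
    rw [hY]
    linarith
  have Y2 := mul_le_mul_of_nonneg_left Y1 (mul_nonneg hc.le hk)
  have Y3 := mul_le_mul_of_nonneg_left o1 hc.le
  have Y4 := mul_nonneg hc.le Y0
  rw [← hY, ← sub_le_iff_le_add', le_div_iff₀ (by positivity)]
  linarith

/-- the induction on the number of remaining generations -/
theorem levela_main {St : Type*} {l : ℕ} {q q' : ℕ → ℤ → ℕ} {En : ℕ → ℤ → Prop}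
    {A : ℕ → ℤ → ℂ} (V : ℕ → St → Prop) (pot bad : St → ℤ → ℝ) (G : St → ℕ → ℤ → ℂ)
    {η a γ c S e β : ℝ} (hη : 0 ≤ η) (ha : 0 ≤ a) (hγ : 0 ≤ γ) (hc : 0 < c) (hS : 0 ≤ S)
    (he : 0 ≤ e) (hβ : 0 ≤ β) (hA : ∀ d y, ‖A d y‖ ≤ 1)
    (hG : ∀ k σ, V k σ → ∀ d y, ‖G σ d y‖ ≤ 1) (hpot : ∀ σ y, 0 ≤ pot σ y)
    (hbad : ∀ σ y, 0 ≤ bad σ y)
    (hEn : ∀ d y y', y / 2 ^ (d + l) = y' / 2 ^ (d + l) → En d y → En d y')
    (hstr : ∀ k σ, V k σ → ∀ D y0 κ, Wts l D y0 κ q q' η →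
      Osc l D y0 κ q q' (G σ) ≤ ∑ y ∈ nd (D + l) y0, S * (e + bad σ y))
    (hstep : ∀ k σ, V k σ → ∀ d y,
      γ * 2 ^ (d + l) < (((nd (d + l) y).filter fun z => a < ‖A d z - G σ d z‖).card : ℝ) →
      ∃ σ', (∀ k', k = k' + 1 → V k' σ') ∧
        ∑ z ∈ nd (d + l) y, (pot σ' z + c) ≤ ∑ z ∈ nd (d + l) y, pot σ z ∧
        ∑ z ∈ nd (d + l) y, bad σ' z ≤ ∑ z ∈ nd (d + l) y, (bad σ z + β)) (k : ℕ) :
    ∀ σ, V k σ → ∀ D y0 κ, Wts l D y0 κ q q' η →
      (∀ d ≤ D, ∀ y ∈ nd (D + l) y0, κ d y ≠ 0 → En (q d y) y ∧ En (q' d y) y) →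
      Osc l D y0 κ q q' A ≤ ∑ y ∈ nd (D + l) y0,
        (2 * a * ∑ d ∈ range (D + 1), κ d y + 4 * γ * levelaNE En D y +
          (k + 1) * (S * (e + bad σ y) + 2 * η) + (k + 1) ^ 2 * (S * β) +
          2 * pot σ y / (c * (k + 1))) := by
  induction k using Nat.strong_induction_on with
  | _ k ih =>
  intro σ hσ D y0 κ H hq
  have hk : (0 : ℝ) ≤ k := Nat.cast_nonneg k
  refine (levela_step H (γ := γ) ha hη hA (hG k σ hσ) hEn hq (T := fun y => S * (e + bad σ y))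
    (B := fun y => k * (S * (e + bad σ y) + 2 * η) + (k + 1) ^ 2 * (S * β) +
      2 * pot σ y / (c * (k + 1))) (fun y => ?_) (hstr k σ hσ D y0) fun t ht y1 hy1 hf => ?_).trans
    (le_of_eq (sum_congr rfl fun y _ => by ring))
  · have := hbad σ y
    have := hpot σ y
    positivity
  obtain ⟨σ', v1, v2, v3⟩ := hstep k σ hσ t y1 hf
  have wB : Wts l t y1 (levelaRes κ fun d y => q d y ≤ t) q q' η :=
    H.restrict ht hy1 _ fun d y h => h
  have o1 := levela_osc_le wB hA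
  have X0 : 0 ≤ ∑ z ∈ nd (t + l) y1, (2 * a * ∑ d ∈ range (t + 1),
      levelaRes κ (fun d y => q d y ≤ t) d z + 4 * γ * levelaNE En t z) := sum_nonneg fun z _ => by
    have := levela_ne_nonneg En t z
    have : 0 ≤ ∑ d ∈ range (t + 1), levelaRes κ (fun d y => q d y ≤ t) d z :=
      sum_nonneg fun d _ => wB.nn d z
    positivity
  have p0 : 0 ≤ ∑ z ∈ nd (t + l) y1, pot σ' z := sum_nonneg fun z _ => hpot σ' z
  rw [sum_add_distrib, sum_const, nsmul_eq_mul] at v2 v3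
  rw [sum_const, nsmul_eq_mul] at o1
  simp only [← add_assoc]
  rw [levela_sum]
  refine levela_arith hk hc hS he hη hβ (Nat.cast_nonneg _) (sum_nonneg fun z _ => hbad σ z) X0
    o1 v2 v3 ?_
  rcases k with _ | k
  · simp only [Nat.cast_zero, zero_mul, mul_zero, zero_add]
    positivity
  · have := ih k (Nat.lt_succ_self k) σ' (v1 k rfl) t y1 _ wB fun d hd y hy h =>
      hq d (hd.trans ht) y (nd_subset (by omega) hy1 hy) (levela_res_ne h).2
    rw [levela_sum] at this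
    have h2 := mul_le_mul_of_nonneg_left this (show 0 ≤ c * ((k : ℝ) + 1) by positivity)
    rw [mul_add _ _ (_ / _), mul_div_cancel₀ _ (by positivity)] at h2
    push_cast
    linarith

end Pool.Agent.Lib.MP_9721b5_an
end
end

-- part Pool.Agent.Lib.MP_9721b5_an.LevelB
section

/-! The oscillation bound for trigonometric polynomials in finitely many atoms. -/

set_option autoImplicit false

open Finset
open scoped Classical ComplexConjugate Pointwise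

noncomputable section

namespace Pool.Agent.Lib.MP_9721b5_an

/-- the average is trilinear -/
lemma levelb_tav {β : Type} (s : Fin 3 → Finset β) (c : Fin 3 → β → ℂ) (w : β → ℤ → ℂ)
    (f : Fin 3 → ℤ → ℂ) (hf : ∀ i y, f i y = ∑ v ∈ s i, c i v * w v y) (t : ℤ) (N : ℕ) (y : ℤ) :
    tav f t N y = ∑ v ∈ Fintype.piFinset s, (∏ i, c i (v i)) * tav (fun i => w (v i)) t N y := by
  simp only [tav, ← mul_div_assoc, ← sum_div, mul_sum]
  congr 1
  rw [sum_comm]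
  refine sum_congr rfl fun n _ => ?_
  have := prod_univ_sum s fun i v => c i v * w v (![y + t * n, y + 2 * (t * n), y + 3 * (t * n)] i)
  simp only [Fin.prod_univ_three, Matrix.cons_val_zero, Matrix.cons_val_one,
    Matrix.cons_val] at this
  rw [hf, hf, hf, this]
  refine sum_congr rfl fun v _ => ?_
  rw [Fin.prod_univ_three]
  ring

lemma levelb_osc {β : Type} {l D : ℕ} {y0 : ℤ} {κ : ℕ → ℤ → ℝ} (hκ : ∀ d y, 0 ≤ κ d y)
    (q q' : ℕ → ℤ → ℕ) (s : Finset β) (c : β → ℂ) (B : β → ℕ → ℤ → ℂ) (A : ℕ → ℤ → ℂ)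
    (hA : ∀ d y, A d y = ∑ v ∈ s, c v * B v d y) :
    Osc l D y0 κ q q' A ≤ ∑ v ∈ s, ‖c v‖ * Osc l D y0 κ q q' (B v) := by
  simp only [Osc, mul_sum]
  rw [sum_comm (s := s)]
  refine sum_le_sum fun y _ => ?_
  rw [sum_comm (s := s)]
  refine sum_le_sum fun d _ => ?_
  rw [hA, hA, ← sum_sub_distrib]
  refine (mul_le_mul_of_nonneg_left (norm_sum_le _ _) (hκ d y)).trans ?_
  rw [mul_sum]
  refine sum_le_sum fun v _ => ?_
  rw [← mul_sub, norm_mul]
  exact le_of_eq (by ring)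

section

variable {α : Type} [Fintype α] (A : α → Atom)

/-- all the forms of a family of atoms -/
def levelbψ : (Σ a, Fin (A a).k) → ℤ → Tor := fun j => (A j.1).ψ j.2

/-- an integer combination of the phases of a family of atoms -/
def levelbPh (v : α → ℤ) : Ph (Σ a, Fin (A a).k) where
  P y := ∑ a, v a • (A a).ph.P y
  Λ y := ∑ a, v a • (A a).ph.Λ y
  r y j := v j.1 * (A j.1).ph.r y j.2

lemma levelb_cz (v : α → ℤ) (y h : ℤ) : cz (levelbψ A) ((levelbPh A v).r y) h =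
    ∑ a, v a • cz (A a).ψ ((A a).ph.r y) h := by
  simp only [cz, levelbψ, levelbPh, Fintype.sum_sigma, smul_sum, mul_smul]

lemma levelb_inner {Γ : Finset Tor} {ρ ε : ℝ} (hε : 0 ≤ ε) {y : ℤ}
    (H : ∀ a, (A a).ph.Inner Γ ρ (A a).ψ ε y) {v : α → ℤ} {dg : ℕ} (hv : ∑ a, |v a| ≤ dg) :
    (levelbPh A v).Inner Γ ρ (levelbψ A) (dg * ε) y := by
  intro h hh
  refine ⟨?_, ?_, ?_⟩
  · have e1 : (levelbPh A v).P (y + h) - (levelbPh A v).P y - h • (levelbPh A v).Λ y -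
        h • cz (levelbψ A) ((levelbPh A v).r y) h = ∑ a, v a • ((A a).ph.P (y + h) -
          (A a).ph.P y - h • (A a).ph.Λ y - h • cz (A a).ψ ((A a).ph.r y) h) := by
      rw [levelb_cz]
      simp only [levelbPh, smul_sub, sum_sub_distrib, smul_sum, smul_comm h]
    rw [e1]
    refine (norm_sum_le _ _).trans ?_
    calc _ ≤ ∑ a, |(v a : ℝ)| * ε := sum_le_sum fun a _ => (norm_zsmul_le' _ _).trans
          (mul_le_mul_of_nonneg_left (H a h hh).1 (abs_nonneg _))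
      _ ≤ dg * ε := by
        rw [← sum_mul]
        exact mul_le_mul_of_nonneg_right (by exact_mod_cast hv) hε
  · rw [levelb_cz]
    simp only [levelbPh, smul_sum, ← sum_add_distrib]
    refine sum_congr rfl fun a _ => ?_
    rw [(H a h hh).2.1, smul_add, smul_comm (2 : ℤ)]
  · funext j
    simp only [levelbPh]
    rw [(H j.1 h hh).2.2]

end

/-- the body of the structured estimate -/
def levelbS (C : ℕ) : Prop :=
  ∀ R E : ℕ, 2 ≤ R → 8 * E ≤ R → ∀ (ι : Type) [Fintype ι] (Γ : Finset Tor)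
    (ψ : ι → ℤ → Tor) (a : Fin 3 → Ph ι) (l D : ℕ) (y0 : ℤ) (N : ℕ → ℕ) (s : ℕ → ℤ → ℤ)
    (κ : ℕ → ℤ → ℝ) (q q' : ℕ → ℤ → ℕ), Fintype.card ι ≤ R → Γ.card ≤ R →
    FormOK Γ (hf R) ψ → (∀ i y j, |(a i).r y j| ≤ R) → 1 ≤ l → l ≤ R → Scales N →
    (∀ d y, s d y = 1 ∨ s d y = -1) → Wts l D y0 κ q q' (hf (8 * E)) →
    Osc l D y0 κ q q' (fun d y => tav (wave a) (s d y) (N d) y) ≤
      (R : ℝ) ^ C * (hf E * 2 ^ (D + l) + (((nd (D + l) y0).filter fun y =>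
        ∃ i, ¬ (a i).Good Γ (hf R) ψ (hf (8 * E)) y).card : ℝ))

theorem levelb_struct {C : ℕ} (hS : levelbS C) {α : Type} [Fintype α] (A : α → Atom)
    {R0 R1 R' E dg : ℕ} (hOK : ∀ a, (A a).OK R0) (h2 : 2 ≤ R1) (hE : 8 * E ≤ R1)
    (hcard : Fintype.card α * R0 ≤ R1) (hR0 : R0 ≤ R1) (hdg : dg ≤ R1) (hR' : 8 * E + dg ≤ R')
    {M : ℝ} (Fs : Fin 3 → ℤ → ℂ) (hFs : ∀ i, InAlg (fun a => (A a).ph.P) M dg (Fs i))
    {l D : ℕ} {y0 : ℤ} {N : ℕ → ℕ} {κ : ℕ → ℤ → ℝ} {q q' : ℕ → ℤ → ℕ} (hl : 1 ≤ l) (hl' : l ≤ R1)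
    (hN : Scales N) (H : Wts l D y0 κ q q' (hf (8 * E))) :
    Osc l D y0 κ q q' (At l N Fs) ≤ ∑ y ∈ nd (D + l) y0, M ^ 3 * (R1 : ℝ) ^ C *
      (hf E + ∑ a, if (A a).Good (hf R0) (hf R') y then 0 else 1) := by
  choose s c h1 h3 h4 using hFs
  set Γ : Finset Tor := univ.biUnion fun a => (A a).Γ with hΓ
  have hsub : ∀ a, (A a).Γ ⊆ Γ := fun a => subset_biUnion_of_mem (fun a => (A a).Γ) (mem_univ a)
  set Bd := ∑ y ∈ nd (D + l) y0,
    (hf E + ∑ a, if (A a).Good (hf R0) (hf R') y then (0 : ℝ) else 1) with hBd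
  have key : ∀ v ∈ Fintype.piFinset s, Osc l D y0 κ q q'
      (fun d y => tav (wave fun i => levelbPh A (v i)) (sg l (N d) d y) (N d) y) ≤
      (R1 : ℝ) ^ C * Bd := by
    intro v hv
    have hv' : ∀ i, ∑ a, |v i a| ≤ dg := fun i => h3 i _ (Fintype.mem_piFinset.1 hv i)
    refine (hS R1 E h2 hE _ Γ (levelbψ A) (fun i => levelbPh A (v i)) l D y0 N
      (fun d y => sg l (N d) d y) κ q q' ?_ ?_ ?_ ?_ hl hl' hN
      (fun d y => sg_cases _ _ _ _) H).trans ?_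
    · rw [Fintype.card_sigma]
      refine (sum_le_card_nsmul _ _ R0 fun a _ => ?_).trans ?_
      · rw [Fintype.card_fin]
        exact (hOK a).1
      · simpa using hcard
    · refine card_biUnion_le.trans ((sum_le_card_nsmul _ _ R0 fun a _ => (hOK a).2.1).trans ?_)
      simpa using hcard
    · exact fun j => ((hOK j.1).2.2.1.mono (hsub j.1) (hf_anti hR0)) j.2
    · intro i y j
      have a1 : |v i j.1| ≤ dg := (single_le_sum (f := fun a => |v i a|)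
        (fun a _ => abs_nonneg _) (mem_univ j.1)).trans (hv' i)
      have a2 := (hOK j.1).2.2.2 y j.2
      have a3 : (dg : ℤ) ≤ R1 := by exact_mod_cast hdg
      simp only [levelbPh, abs_mul]
      nlinarith [abs_nonneg (v i j.1), abs_nonneg ((A j.1).ph.r y j.2)]
    · refine mul_le_mul_of_nonneg_left ?_ (by positivity)
      rw [hBd, sum_add_distrib, sum_const, card_nd, nsmul_eq_mul, mul_comm (hf E)]
      push_cast
      refine add_le_add le_rfl ?_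
      rw [card_filter]
      push_cast
      refine sum_le_sum fun y _ => ?_
      split_ifs with hy
      · by_contra hn
        obtain ⟨i, hi⟩ := hy
        have hg : ∀ a, (A a).Good (hf R0) (hf R') y := by
          intro a
          by_contra ha
          have := single_le_sum (f := fun a => if (A a).Good (hf R0) (hf R') y then (0 : ℝ) else 1)
            (fun a _ => by positivity) (mem_univ a)
          rw [if_neg ha] at this
          exact hn this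
        refine hi fun h hh => ?_
        refine (levelb_inner A (hf_pos R').le (fun a =>
          Ph.Good.mono (hg a) (hsub a) (hf_anti hR0) le_rfl h hh) (hv' i)).mono
          Subset.rfl le_rfl (mul_hf_le (nat_le_two_pow dg) hR')
      · positivity
  have Bd0 : 0 ≤ Bd := sum_nonneg fun y _ => by
    have := hf_pos E
    positivity
  refine (levelb_osc H.nn q q' (Fintype.piFinset s) (fun v => ∏ i, c i (v i))
    (fun v d y => tav (wave fun i => levelbPh A (v i)) (sg l (N d) d y) (N d) y) _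
    fun d y => levelb_tav s c (fun v y => ex ((levelbPh A v).P y)) Fs h4 _ _ _).trans ?_
  refine (sum_le_sum fun v hv => mul_le_mul_of_nonneg_left (key v hv) (norm_nonneg _)).trans ?_
  rw [← sum_mul, ← mul_sum, mul_assoc]
  refine mul_le_mul_of_nonneg_right ?_ (by positivity)
  simp only [norm_prod]
  rw [← prod_univ_sum s fun i v => ‖c i v‖]
  calc ∏ i, ∑ v ∈ s i, ‖c i v‖ ≤ ∏ _i : Fin 3, M :=
        prod_le_prod (fun i _ => sum_nonneg fun v _ => norm_nonneg _) fun i _ => h1 i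
    _ = M ^ 3 := by simp

end Pool.Agent.Lib.MP_9721b5_an
end
end
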