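import Pool.Agent.Lib.MP_9721b5_an.Tri.Stmts
import Pool.Agent.Lib.MP_9721b5_an.LevelB
import Pool.Agent.Lib.MP_9721b5_an.Basic

-- part Pool.Agent.Lib.MP_9721b5_an.Tri.LocChang
section

/-!
The local Chang lemma for approximate characters.
-/

set_option autoImplicit false

open Finset ComplexConjugate Real

namespace Pool.Agent.Tri

namespace LocChang

lemma abs_re_e_le (t : T) : |(e t).re| ≤ 1 := (Complex.abs_re_le_norm _).trans (norm_e t).le

lemma re_e_ge {t : T} (h : ‖t‖ ≤ 1 / 20) : 13 / 20 ≤ (e t).re := by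
  have h1 := norm_e_sub_one_le t
  have h2 := Complex.abs_re_le_norm (e t - 1)
  simp only [Complex.sub_re, Complex.one_re] at h2
  have := (abs_le.1 h2).1
  linarith

lemma abs_re_sub (s t : T) : |(e s).re - (e t).re| ≤ 7 * ‖s - t‖ := by
  rw [← Complex.sub_re]
  exact (Complex.abs_re_le_norm _).trans (norm_e_sub_e s t)

variable {Γ : Type} {ι : Type}

/-- the exponential weight -/
noncomputable def wt (c : ι → Γ → T) {r : ℕ} (zs : Fin r → ι) (x : Γ) : ℝ :=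
  exp ((∑ j, (e (c (zs j) x)).re) / 10)

lemma wt_pos (c : ι → Γ → T) {r : ℕ} (zs : Fin r → ι) (x : Γ) : 0 < wt c zs x := exp_pos _

lemma wt_le (c : ι → Γ → T) {r : ℕ} (zs : Fin r → ι) (x : Γ) : wt c zs x ≤ exp (r / 10) := by
  unfold wt
  gcongr
  calc _ ≤ ∑ _j : Fin r, (1 : ℝ) := sum_le_sum fun j _ => (abs_le.1 (abs_re_e_le _)).2
    _ = r := by simp

lemma wt_cons (c : ι → Γ → T) {r : ℕ} (zs : Fin r → ι) (z : ι) (x : Γ) :
    wt c (Fin.cons z zs : Fin (r + 1) → ι) x = wt c zs x * exp ((e (c z x)).re / 10) := by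
  unfold wt
  rw [Fin.sum_univ_succ, ← exp_add]
  simp only [Fin.cons_zero, Fin.cons_succ]
  congr 1
  ring

lemma sum_wt_ge {Zp : ι → Prop} {Ω S : Finset Γ} {c : ι → Γ → T} {q : ℝ} (hS : S ⊆ Ω)
    (hq : exp (-q) * Ω.card ≤ S.card) (hc : ∀ z, Zp z → ∀ x ∈ S, ‖c z x‖ ≤ 1 / 20) {r : ℕ}
    (zs : Fin r → ι) (hz : ∀ j, Zp (zs j)) :
    exp (-q) * Ω.card * exp (13 / 200 * r) ≤ ∑ x ∈ Ω, wt c zs x := by
  calc _ ≤ S.card * exp (13 / 200 * r) := by gcongr
    _ = ∑ _x ∈ S, exp (13 / 200 * r) := by simp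
    _ ≤ ∑ x ∈ S, wt c zs x := sum_le_sum fun x hx => by
        unfold wt
        gcongr
        have : ∑ _j : Fin r, (13 / 20 : ℝ) ≤ ∑ j, (e (c (zs j) x)).re :=
          sum_le_sum fun j _ => re_e_ge (hc _ (hz j) x hx)
        simp only [sum_const, card_univ, Fintype.card_fin, nsmul_eq_mul] at this
        linarith
    _ ≤ _ := sum_le_sum_of_subset_of_nonneg hS fun x _ _ => (wt_pos c zs x).le

lemma exists_final {Zp : ι → Prop} {Ω S : Finset Γ} {c : ι → Γ → T} {q : ℝ} (hS : S ⊆ Ω)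
    (hΩ : Ω.Nonempty) (hq : exp (-q) * Ω.card ≤ S.card)
    (hc : ∀ z, Zp z → ∀ x ∈ S, ‖c z x‖ ≤ 1 / 20) :
    ∃ (r : ℕ) (zs : Fin r → ι), (r : ℝ) ≤ 40 * q ∧ (∀ j, Zp (zs j)) ∧
      ∀ z, Zp z → 3 / 10 * ∑ x ∈ Ω, wt c zs x ≤ ∑ x ∈ Ω, wt c zs x * (e (c z x)).re := by
  classical
  have hΩ' : (0 : ℝ) < Ω.card := by exact_mod_cast hΩ.card_pos
  let P : ℕ → Prop := fun r => ∃ zs : Fin r → ι, (∀ j, Zp (zs j)) ∧
    ∑ x ∈ Ω, wt c zs x ≤ Ω.card * exp (r / 25)
  have hb : ∀ r, P r → (r : ℝ) ≤ 40 * q := by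
    rintro r ⟨zs, h1, h2⟩
    have h3 := (sum_wt_ge hS hq hc zs h1).trans h2
    rw [mul_right_comm, mul_comm, ← exp_add] at h3
    have := exp_le_exp.1 (le_of_mul_le_mul_left h3 hΩ')
    linarith
  have h0 : P 0 := ⟨Fin.elim0, fun j => j.elim0, by simp [wt]⟩
  have hr : P (Nat.findGreatest P ⌊40 * q⌋₊) := Nat.findGreatest_spec (Nat.zero_le _) h0
  have hmax : ¬ P (Nat.findGreatest P ⌊40 * q⌋₊ + 1) := fun h =>
    absurd (Nat.le_findGreatest (Nat.le_floor (hb _ h)) h) (by omega)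
  generalize Nat.findGreatest P ⌊40 * q⌋₊ = r at hr hmax
  have hr' := hb r hr
  obtain ⟨zs, h1, h2⟩ := hr
  refine ⟨r, zs, hr', h1, fun z hz => ?_⟩
  by_contra hlt
  push Not at hlt
  refine hmax ⟨Fin.cons z zs, fun j => Fin.cases hz h1 j, ?_⟩
  have e1 : ∀ x, wt c (Fin.cons z zs : Fin (r + 1) → ι) x ≤
      wt c zs x * (101 / 100) + wt c zs x * (e (c z x)).re / 10 := by
    intro x
    rw [wt_cons]
    have a1 := abs_re_e_le (c z x)
    have a2 : |(e (c z x)).re / 10| ≤ 1 := by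
      rw [abs_div, abs_of_pos (by norm_num : (0 : ℝ) < 10)]
      linarith
    have a3 := (abs_le.1 (Real.abs_exp_sub_one_sub_id_le a2)).2
    have a4 : ((e (c z x)).re) ^ 2 ≤ 1 := by rwa [sq_le_one_iff_abs_le_one]
    have a5 : exp ((e (c z x)).re / 10) ≤ 101 / 100 + (e (c z x)).re / 10 := by nlinarith
    have := mul_le_mul_of_nonneg_left a5 (wt_pos c zs x).le
    linarith
  have e2 := sum_le_sum fun x (_ : x ∈ Ω) => e1 x
  rw [sum_add_distrib, ← sum_mul, ← sum_div] at e2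
  have e3 : exp (((r + 1 : ℕ) : ℝ) / 25) = exp (r / 25) * exp (1 / 25) := by
    rw [← exp_add]; push_cast; congr 1; ring
  have e4 : 26 / 25 ≤ exp (1 / 25 : ℝ) := by
    have := Real.add_one_le_exp (1 / 25 : ℝ)
    linarith
  have e5 : 0 < Ω.card * exp ((r : ℝ) / 25) := by positivity
  rw [e3, ← mul_assoc]
  nlinarith

lemma wt_shift {c : ι → Γ → T} {r : ℕ} (zs : Fin r → ι) {x y : Γ} {d δ : ℝ}
    (h : ∀ j, ‖c (zs j) y - c (zs j) x‖ ≤ d) (hδ : 7 / 10 * r * d ≤ δ) (hδ1 : δ ≤ 1) :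
    |wt c zs y - wt c zs x| ≤ 2 * δ * wt c zs x := by
  set t := (∑ j, (e (c (zs j) y)).re) / 10 - (∑ j, (e (c (zs j) x)).re) / 10 with ht
  have h1 : |t| ≤ δ := by
    rw [ht, ← sub_div, ← sum_sub_distrib, abs_div, abs_of_pos (by norm_num : (0 : ℝ) < 10)]
    have : |∑ j, ((e (c (zs j) y)).re - (e (c (zs j) x)).re)| ≤ ∑ _j : Fin r, 7 * d :=
      (abs_sum_le_sum_abs _ _).trans (sum_le_sum fun j _ => (abs_re_sub _ _).trans (by
        have := h j
        linarith))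
    simp only [sum_const, card_univ, Fintype.card_fin, nsmul_eq_mul] at this
    linarith
  have h2 : wt c zs y - wt c zs x = (exp t - 1) * wt c zs x := by
    unfold wt
    rw [sub_mul, ← exp_add, ht]
    simp
  rw [h2, abs_mul, abs_of_pos (wt_pos c zs x)]
  have := Real.abs_exp_sub_one_le (h1.trans hδ1)
  exact mul_le_mul_of_nonneg_right (by linarith) (wt_pos c zs x).le

lemma phase [AddCommGroup Γ] {Ω : Finset Γ} {ω : Γ} {η ε κ M : ℝ} (hinv : Inv Ω ω η)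
    (G : Γ → ℝ) (hG0 : ∀ x, 0 ≤ G x) (hGM : ∀ x, G x ≤ M) (c : Γ → T) (a : T)
    (hκ : 0 ≤ κ) (hε : 0 ≤ ε)
    (hG : ∀ x ∈ Ω, x + ω ∈ Ω → |G (x + ω) - G x| ≤ κ * G x)
    (hc : ∀ x ∈ Ω, x + ω ∈ Ω → ‖c (x + ω) - c x - a‖ ≤ ε) :
    ‖∑ x ∈ Ω, (G x : ℂ) * e (c x)‖ * (4 * ‖a‖) ≤
      (κ + 7 * ε) * ∑ x ∈ Ω, G x + 2 * (η * Ω.card) * M := by
  classical
  set Ω' := Ω.filter (fun x => x + ω ∈ Ω) with hΩ'
  have hM : 0 ≤ M := (hG0 0).trans (hGM 0)
  have hinj : Set.InjOn (· + ω) (Ω' : Set Γ) := (add_left_injective ω).injOn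
  have hsub : Ω'.image (· + ω) ⊆ Ω := by
    intro y hy
    obtain ⟨x, hx, rfl⟩ := mem_image.1 hy
    exact (mem_filter.1 hx).2
  have c1 : ((Ω \ Ω').card : ℝ) ≤ η * Ω.card := by
    refine le_trans (le_of_eq ?_) hinv
    rw [cnt_eq_card, hΩ', ← filter_not]
  have c2 : ((Ω \ Ω'.image (· + ω)).card : ℝ) ≤ η * Ω.card := by
    rw [card_sdiff_of_subset hsub, card_image_of_injOn hinj,
      ← card_sdiff_of_subset (filter_subset _ _)]
    exact c1
  have nb : ∀ (U : Finset Γ) (f : Γ → T), ‖∑ x ∈ U, (G x : ℂ) * e (f x)‖ ≤ U.card * M := by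
    intro U f
    calc _ ≤ ∑ _x ∈ U, M := norm_sum_le_of_le _ fun x _ => by
          rw [norm_mul, norm_e, mul_one, Complex.norm_real, Real.norm_of_nonneg (hG0 x)]
          exact hGM x
      _ = _ := by simp
  have e1 : ∑ x ∈ Ω, (G x : ℂ) * e (c x) = ∑ x ∈ Ω \ Ω'.image (· + ω), (G x : ℂ) * e (c x) +
      ∑ x ∈ Ω', (G (x + ω) : ℂ) * e (c (x + ω)) := by
    rw [← sum_sdiff hsub, sum_image hinj]
  have e2 : (∑ x ∈ Ω, (G x : ℂ) * e (c x)) * e a = ∑ x ∈ Ω \ Ω', (G x : ℂ) * e (c x + a) +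
      ∑ x ∈ Ω', (G x : ℂ) * e (c x + a) := by
    rw [sum_sdiff (filter_subset _ _), sum_mul]
    exact sum_congr rfl fun x _ => by rw [e_add, mul_assoc]
  have e3 : ‖∑ x ∈ Ω', (G x : ℂ) * e (c x + a) - ∑ x ∈ Ω', (G (x + ω) : ℂ) * e (c (x + ω))‖ ≤
      (κ + 7 * ε) * ∑ x ∈ Ω, G x := by
    rw [← sum_sub_distrib]
    calc _ ≤ ∑ x ∈ Ω', (κ + 7 * ε) * G x := norm_sum_le_of_le _ fun x hx => by
          obtain ⟨h1, h2⟩ := mem_filter.1 hx
          have a1 : (G x : ℂ) * e (c x + a) - (G (x + ω) : ℂ) * e (c (x + ω)) =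
              (G x : ℂ) * (e (c x + a) - e (c (x + ω))) -
                ((G (x + ω) - G x : ℝ) : ℂ) * e (c (x + ω)) := by
            push_cast; ring
          have a2 : ‖e (c x + a) - e (c (x + ω))‖ ≤ 7 * ε := by
            rw [norm_sub_rev]
            refine (norm_e_sub_e _ _).trans ?_
            rw [← sub_sub]
            have := hc x h1 h2
            linarith
          rw [a1]
          refine (norm_sub_le _ _).trans ?_
          rw [norm_mul, norm_mul, norm_e, mul_one, Complex.norm_real, Complex.norm_real,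
            Real.norm_of_nonneg (hG0 x), Real.norm_eq_abs]
          have a3 := hG x h1 h2
          have a4 := mul_le_mul_of_nonneg_left a2 (hG0 x)
          linarith
      _ = (κ + 7 * ε) * ∑ x ∈ Ω', G x := by rw [mul_sum]
      _ ≤ _ := mul_le_mul_of_nonneg_left
          (sum_le_sum_of_subset_of_nonneg (filter_subset _ _) fun x _ _ => hG0 x) (by positivity)
  have e4 : (∑ x ∈ Ω, (G x : ℂ) * e (c x)) * (e a - 1) =
      (∑ x ∈ Ω', (G x : ℂ) * e (c x + a) - ∑ x ∈ Ω', (G (x + ω) : ℂ) * e (c (x + ω))) +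
        (∑ x ∈ Ω \ Ω', (G x : ℂ) * e (c x + a) -
          ∑ x ∈ Ω \ Ω'.image (· + ω), (G x : ℂ) * e (c x)) := by
    rw [mul_sub, e2, mul_one, e1]
    ring
  have n1 := (nb (Ω \ Ω') fun x => c x + a).trans (mul_le_mul_of_nonneg_right c1 hM)
  have n2 := (nb (Ω \ Ω'.image (· + ω)) c).trans (mul_le_mul_of_nonneg_right c2 hM)
  calc _ ≤ ‖∑ x ∈ Ω, (G x : ℂ) * e (c x)‖ * ‖e a - 1‖ :=
        mul_le_mul_of_nonneg_left (four_mul_norm_le a) (norm_nonneg _)
    _ = ‖(∑ x ∈ Ω, (G x : ℂ) * e (c x)) * (e a - 1)‖ := (norm_mul _ _).symm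
    _ ≤ _ := by
        rw [e4]
        refine (norm_add_le _ _).trans (add_le_add e3 ((norm_sub_le _ _).trans ?_))
        linarith

end LocChang

open LocChang in
theorem locChang : LocChangStmt := by
  refine ⟨60, fun Γ _ ι Zp Ω S Sh c a q η ε hq hη hε hS hΩ hcard hinv hc ha => ?_⟩
  obtain ⟨r, zs, h1, h2, h3⟩ := exists_final hS hΩ hcard hc
  refine ⟨r, zs, by push_cast; linarith, h2, fun s hs ω hω hz z hzp => ?_⟩
  push_cast
  have hΩ' : (0 : ℝ) < Ω.card := by exact_mod_cast hΩ.card_pos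
  have hx : 0 ≤ η * exp (60 * q) := by positivity
  have hsε : 0 ≤ s + ε := by linarith
  by_cases hbig : 1 ≤ 28 * (q * (s + ε))
  · have := norm_T_le (a z ω)
    linarith
  push Not at hbig
  have hδ : 7 / 10 * r * (s + ε) ≤ 28 * (q * (s + ε)) := by nlinarith
  have p1 := phase (hinv ω hω) (wt c zs) (fun x => (wt_pos c zs x).le) (wt_le c zs) (c z) (a z ω)
    (κ := 2 * (28 * (q * (s + ε)))) (by positivity) hε
    (fun x hx hx' => wt_shift zs (fun j => by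
      have a1 := ha _ (h2 j) ω hω x hx hx'
      have a2 := hz j
      have a3 := norm_add_le (c (zs j) (x + ω) - c (zs j) x - a (zs j) ω) (a (zs j) ω)
      rw [sub_add_cancel] at a3
      linarith) hδ hbig.le) (ha z hzp ω hω)
  set Z := ∑ x ∈ Ω, wt c zs x with hZ
  have p2 : 3 / 10 * Z ≤ ‖∑ x ∈ Ω, (wt c zs x : ℂ) * e (c z x)‖ := by
    refine (h3 z hzp).trans (le_trans (le_of_eq ?_) (Complex.re_le_norm _))
    rw [Complex.re_sum]
    exact sum_congr rfl fun x _ => by simp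
  have p3 : exp (-q) * Ω.card ≤ Z := by
    refine le_trans ?_ (sum_wt_ge hS hcard hc zs h2)
    exact le_mul_of_one_le_right (by positivity) (Real.one_le_exp (by positivity))
  have hZ0 : 0 < Z := lt_of_lt_of_le (by positivity) p3
  have p4 : Ω.card * exp ((r : ℝ) / 10) ≤ exp (60 * q) * Z := by
    calc _ ≤ Ω.card * exp (60 * q + -q) := by
          gcongr
          linarith
      _ = exp (60 * q) * (exp (-q) * Ω.card) := by rw [exp_add]; ring
      _ ≤ _ := by gcongr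
  have p5 : ε ≤ q * (s + ε) := by nlinarith
  have p6 : 3 / 10 * Z * (4 * ‖a z ω‖) ≤ (63 * (q * (s + ε)) + 2 * (η * exp (60 * q))) * Z := by
    have b1 := mul_le_mul_of_nonneg_right p2 (show 0 ≤ 4 * ‖a z ω‖ by positivity)
    have b2 := mul_le_mul_of_nonneg_left p4 hη
    have b3 := mul_le_mul_of_nonneg_right p5 hZ0.le
    nlinarith
  have p7 : 6 / 5 * ‖a z ω‖ ≤ 63 * (q * (s + ε)) + 2 * (η * exp (60 * q)) :=
    le_of_mul_le_mul_right (by linarith) hZ0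
  have : 0 ≤ q * (s + ε) := by positivity
  linarith

end Pool.Agent.Tri
end

-- part Pool.Agent.Lib.MP_9721b5_an.Tri.Fourier
section

/-!
Fourier analysis on `ZMod N`: Parseval, inversion, Chang's lemma.
-/

set_option autoImplicit false

open Finset ComplexConjugate

namespace Pool.Agent.Tri

section Cyclic

variable {N : ℕ} [NeZero N]

lemma Fourier.cast_ne : (N : ℂ) ≠ 0 := Nat.cast_ne_zero.2 (NeZero.ne N)

lemma Fourier.cast_pos : (0 : ℝ) < N := Nat.cast_pos.2 (Nat.pos_of_ne_zero (NeZero.ne N))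

lemma Fourier.pr_sum_left {ι : Type*} (S : Finset ι) (ξ : ι → ZMod N) (x : ZMod N) :
    pr (∑ i ∈ S, ξ i) x = ∑ i ∈ S, pr (ξ i) x := by
  unfold pr
  rw [sum_mul, map_sum]

lemma sum_e_pr (ξ : ZMod N) : ∑ x, e (pr ξ x) = if ξ = 0 then (N : ℂ) else 0 := by
  split_ifs with h
  · subst h
    simp
  · have h1 : ∑ x, e (pr ξ x) = ∑ x, e (pr ξ (x + 1)) :=
      (Equiv.sum_comp (Equiv.addRight (1 : ZMod N)) (fun x => e (pr ξ x))).symm
    simp only [pr_add_right, e_add, ← sum_mul] at h1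
    have h2 : e (pr ξ 1) - 1 ≠ 0 := by
      intro h0
      have h3 := four_mul_norm_le (pr ξ 1)
      rw [h0, norm_zero] at h3
      have h4 : pr ξ 1 = 0 := norm_eq_zero.1 (le_antisymm (by linarith) (norm_nonneg _))
      unfold pr at h4
      rw [mul_one, ZMod.toAddCircle_eq_zero] at h4
      exact h h4
    have h5 : (∑ x, e (pr ξ x)) * (e (pr ξ 1) - 1) = 0 := by linear_combination -h1
    exact (mul_eq_zero.1 h5).resolve_right h2

lemma ft_inv (f : ZMod N → ℂ) (x : ZMod N) : f x = ∑ ξ, ft f ξ * e (pr ξ x) := by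
  have h1 : ∀ ξ, ft f ξ * e (pr ξ x) = ∑ y, (N : ℂ)⁻¹ * f y * e (pr (x - y) ξ) := by
    intro ξ
    unfold ft
    rw [mul_sum, sum_mul]
    refine sum_congr rfl fun y _ => ?_
    rw [pr_sub_left, pr_comm x, pr_comm y, sub_eq_add_neg, e_add]
    ring
  simp only [h1]
  rw [sum_comm]
  simp only [← mul_sum, sum_e_pr, sub_eq_zero]
  rw [sum_eq_single x (fun y _ hy => by rw [if_neg (Ne.symm hy), mul_zero])
    (fun h => absurd (mem_univ x) h), if_pos rfl]
  have := Fourier.cast_ne (N := N)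
  field_simp

lemma Fourier.conj_ft (g : ZMod N → ℂ) (ξ : ZMod N) :
    conj (ft g ξ) = (N : ℂ)⁻¹ * ∑ x, conj (g x) * e (pr ξ x) := by
  unfold ft
  simp only [map_mul, map_sum, map_inv₀, Complex.conj_natCast, e_neg, Complex.conj_conj]

lemma parseval_inner (f g : ZMod N → ℂ) :
    ∑ ξ, ft f ξ * conj (ft g ξ) = (N : ℂ)⁻¹ * ∑ x, f x * conj (g x) := by
  have h1 : ∀ ξ, ft f ξ * conj (ft g ξ) =
      ∑ x, (N : ℂ)⁻¹ * conj (g x) * (ft f ξ * e (pr ξ x)) := by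
    intro ξ
    rw [Fourier.conj_ft, mul_sum, mul_sum]
    exact sum_congr rfl fun x _ => by ring
  simp only [h1]
  rw [sum_comm, mul_sum]
  refine sum_congr rfl fun x _ => ?_
  rw [← mul_sum, ← ft_inv]
  ring

lemma parseval (f : ZMod N → ℂ) : ∑ ξ, ‖ft f ξ‖ ^ 2 = (N : ℝ)⁻¹ * ∑ x, ‖f x‖ ^ 2 := by
  have h := parseval_inner f f
  simp only [Complex.mul_conj, Complex.normSq_eq_norm_sq] at h
  refine Complex.ofReal_injective ?_
  push_cast at h ⊢
  exact h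

lemma norm_ft_le (f : ZMod N → ℂ) (ξ : ZMod N) : ‖ft f ξ‖ ≤ (N : ℝ)⁻¹ * ∑ x, ‖f x‖ := by
  unfold ft
  rw [norm_mul, norm_inv, Complex.norm_natCast]
  refine mul_le_mul_of_nonneg_left ((norm_sum_le _ _).trans (le_of_eq ?_)) (by positivity)
  exact sum_congr rfl fun x _ => by rw [norm_mul, norm_e, mul_one]

lemma norm_dd_le {f : ZMod N → ℂ} (hf : ∀ x, ‖f x‖ ≤ 1) (h y : ZMod N) : ‖dd f h y‖ ≤ 1 := by
  unfold dd
  rw [norm_mul, Complex.norm_conj]
  exact mul_le_one₀ (hf _) (norm_nonneg _) (hf _)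

lemma sum_mm_le {f : ZMod N → ℂ} (hf : ∀ x, ‖f x‖ ≤ 1) (h : ZMod N) : ∑ ξ, mm f h ξ ≤ 1 := by
  unfold mm
  rw [parseval]
  have h1 : ∑ x, ‖dd f h x‖ ^ 2 ≤ ∑ _x : ZMod N, (1 : ℝ) :=
    sum_le_sum fun x _ => pow_le_one₀ (norm_nonneg _) (norm_dd_le hf h x)
  rw [sum_const, card_univ, ZMod.card, nsmul_eq_mul, mul_one] at h1
  have h2 := Fourier.cast_pos (N := N)
  rw [inv_mul_le_iff₀ h2, mul_one]
  exact h1

/-- Fourier transform of a correlation with a function on a finite set -/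
lemma ft_corr (F : ZMod N → ℂ) (W : Finset (ZMod N)) (g : ZMod N → ℂ) (η : ZMod N) :
    ft (fun v => ∑ w ∈ W, F (v + w) * conj (g w)) η =
      ft F η * conj (∑ w ∈ W, g w * e (-pr η w)) := by
  unfold ft
  simp only [map_sum, map_mul, e_neg, Complex.conj_conj]
  rw [mul_assoc, mul_sum W]
  congr 1
  simp only [sum_mul]
  rw [sum_comm]
  refine sum_congr rfl fun w _ => ?_
  rw [← Equiv.sum_comp (Equiv.addRight w)
    (fun x => F x * conj (e (pr η x)) * (conj (g w) * e (pr η w)))]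
  refine sum_congr rfl fun v _ => ?_
  simp only [Equiv.coe_addRight, pr_add_right, e_add, map_mul]
  linear_combination (-(F (v + w) * conj (g w) * conj (e (pr η v)))) * e_mul_conj (pr η w)

/-- randomisation along a dissociated set -/
lemma Fourier.rand {Λ : Finset (ZMod N)} (hΛ : AddDissociated (Λ : Set (ZMod N))) (a : ℂ)
    (d d' : ZMod N → ℂ) :
    ∑ x, ∏ ξ ∈ Λ, ((d ξ * e (pr ξ x) + d' ξ * e (-pr ξ x)) + a) = N * a ^ Λ.card := by
  simp only [prod_add _ (fun _ => a) Λ]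
  rw [sum_comm, sum_eq_single ∅ ?_ (fun h => absurd (empty_mem_powerset Λ) h)]
  · simp
  intro t ht hne
  rw [← sum_mul]
  refine mul_eq_zero_of_left ?_ _
  simp only [prod_add _ _ t]
  rw [sum_comm]
  refine sum_eq_zero fun u hu => ?_
  have h1 : ∀ x, (∏ ξ ∈ u, d ξ * e (pr ξ x)) * ∏ ξ ∈ t \ u, d' ξ * e (-pr ξ x) =
      ((∏ ξ ∈ u, d ξ) * ∏ ξ ∈ t \ u, d' ξ) * e (pr (∑ ξ ∈ u, ξ - ∑ ξ ∈ t \ u, ξ) x) := by
    intro x
    rw [pr_sub_left, Fourier.pr_sum_left, Fourier.pr_sum_left, sub_eq_add_neg, e_add, ← sum_neg_distrib, e_sum,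
      e_sum, prod_mul_distrib, prod_mul_distrib]
    ring
  simp only [h1]
  rw [← mul_sum, sum_e_pr, if_neg, mul_zero]
  have ht' := mem_powerset.1 ht
  have hu' := mem_powerset.1 hu
  rw [sub_eq_zero]
  exact hΛ.ne (coe_subset.2 (hu'.trans ht')) (coe_subset.2 (sdiff_subset.trans ht'))
    (sdiff_ne_right.2 <| .inl hne).symm

lemma Fourier.exp_le {t y : ℝ} (hy : |y| ≤ 1) :
    Real.exp (t * y) ≤ Real.cosh t + y * Real.sinh t := by
  have h := abs_le.1 hy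
  have h1 := convexOn_exp.2 (Set.mem_univ t) (Set.mem_univ (-t))
    (show 0 ≤ (1 + y) / 2 by linarith [h.1]) (show 0 ≤ (1 - y) / 2 by linarith [h.2]) (by ring)
  simp only [smul_eq_mul] at h1
  rw [Real.cosh_eq, Real.sinh_eq]
  have h2 : (1 + y) / 2 * t + (1 - y) / 2 * -t = t * y := by ring
  rw [h2] at h1
  linarith

/-- Rudin type exponential moment -/
lemma Fourier.rudin {Λ : Finset (ZMod N)} (hΛ : AddDissociated (Λ : Set (ZMod N))) {c : ZMod N → ℂ}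
    (hc : ∀ ξ, ‖c ξ‖ ≤ 1) (t : ℝ) :
    ∑ x, Real.exp (t * (∑ ξ ∈ Λ, c ξ * e (pr ξ x)).re) ≤ N * Real.exp (t ^ 2 / 2 * Λ.card) := by
  have h1 : ∀ x, Real.exp (t * (∑ ξ ∈ Λ, c ξ * e (pr ξ x)).re) ≤
      ∏ ξ ∈ Λ, ((c ξ * e (pr ξ x)).re * Real.sinh t + Real.cosh t) := by
    intro x
    rw [Complex.re_sum, mul_sum, Real.exp_sum]
    refine prod_le_prod (fun _ _ => (Real.exp_pos _).le) fun ξ _ => ?_
    rw [add_comm]
    refine Fourier.exp_le ((Complex.abs_re_le_norm _).trans ?_)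
    rw [norm_mul, norm_e, mul_one]
    exact hc ξ
  have h2 : ∑ x, ∏ ξ ∈ Λ, ((c ξ * e (pr ξ x)).re * Real.sinh t + Real.cosh t) =
      N * Real.cosh t ^ Λ.card := by
    have h := Fourier.rand hΛ (Real.cosh t : ℂ) (fun ξ => c ξ * (Real.sinh t : ℂ) / 2)
      (fun ξ => conj (c ξ) * (Real.sinh t : ℂ) / 2)
    refine Complex.ofReal_injective ?_
    rw [Complex.ofReal_mul, Complex.ofReal_pow, Complex.ofReal_natCast, ← h, Complex.ofReal_sum]
    refine sum_congr rfl fun x _ => ?_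
    rw [Complex.ofReal_prod]
    refine prod_congr rfl fun ξ _ => ?_
    rw [Complex.ofReal_add, Complex.ofReal_mul, Complex.re_eq_add_conj, map_mul, e_neg]
    ring
  refine (sum_le_sum fun x _ => h1 x).trans (h2.trans_le ?_)
  refine mul_le_mul_of_nonneg_left ?_ (Nat.cast_nonneg N)
  rw [mul_comm, Real.exp_nat_mul]
  exact pow_le_pow_left₀ (Real.cosh_pos t).le (Real.cosh_le_exp_half_sq t) _

lemma Fourier.exp_norm_le (z : ℂ) {t : ℝ} (ht : 0 ≤ t) :
    Real.exp (t * ‖z‖) ≤ Real.exp (t * (z.re + z.im)) + Real.exp (t * (z.re - z.im)) +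
      Real.exp (t * (-z.re + z.im)) + Real.exp (t * (-z.re - z.im)) := by
  have h0 := Complex.norm_le_abs_re_add_abs_im z
  have h1 := Real.exp_pos (t * (z.re + z.im))
  have h2 := Real.exp_pos (t * (z.re - z.im))
  have h3 := Real.exp_pos (t * (-z.re + z.im))
  have h4 := Real.exp_pos (t * (-z.re - z.im))
  have h5 := Real.exp_le_exp.2 (mul_le_mul_of_nonneg_left h0 ht)
  rcases abs_cases z.re with ⟨ha, -⟩ | ⟨ha, -⟩ <;> rcases abs_cases z.im with ⟨hb, -⟩ | ⟨hb, -⟩ <;>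
    rw [ha, hb] at h5 <;> simp only [sub_eq_add_neg] at h1 h2 h3 h4 ⊢ <;> linarith

/-- exponential moment of the modulus -/
lemma Fourier.rudin_norm {Λ : Finset (ZMod N)} (hΛ : AddDissociated (Λ : Set (ZMod N))) {c : ZMod N → ℂ}
    (hc : ∀ ξ, ‖c ξ‖ ≤ 1) {t : ℝ} (ht : 0 ≤ t) :
    ∑ x, Real.exp (t * ‖∑ ξ ∈ Λ, c ξ * e (pr ξ x)‖) ≤ 4 * N * Real.exp (t ^ 2 * Λ.card) := by
  have hs : (0 : ℝ) < √2 := by positivity
  have hs2 : √2 ^ 2 = (2 : ℝ) := Real.sq_sqrt (by norm_num)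
  have key : ∀ a b : ℝ, a ^ 2 = 1 → b ^ 2 = 1 →
      ∑ x, Real.exp (t * (a * (∑ ξ ∈ Λ, c ξ * e (pr ξ x)).re +
        b * (∑ ξ ∈ Λ, c ξ * e (pr ξ x)).im)) ≤ N * Real.exp (t ^ 2 * Λ.card) := by
    intro a b ha hb
    have hn : ‖(⟨a / √2, -b / √2⟩ : ℂ)‖ ≤ 1 := by
      rw [← sq_le_one_iff₀ (norm_nonneg _), Complex.sq_norm, Complex.normSq_mk]
      have : a / √2 * (a / √2) + -b / √2 * (-b / √2) = (a ^ 2 + b ^ 2) / √2 ^ 2 := by ring
      rw [this, ha, hb, hs2]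
      norm_num
    have h := Fourier.rudin hΛ (c := fun ξ => (⟨a / √2, -b / √2⟩ : ℂ) * c ξ) (fun ξ => by
      rw [norm_mul]; exact mul_le_one₀ hn (norm_nonneg _) (hc ξ)) (t * √2)
    have e1 : (t * √2) ^ 2 / 2 * Λ.card = t ^ 2 * Λ.card := by rw [mul_pow, hs2]; ring
    rw [e1] at h
    refine le_of_eq_of_le (sum_congr rfl fun x _ => ?_) h
    simp only [mul_assoc (⟨a / √2, -b / √2⟩ : ℂ), ← mul_sum]
    rw [Complex.mul_re]
    congr 1
    field_simp
    ring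
  have h1 := key 1 1 (by norm_num) (by norm_num)
  have h2 := key 1 (-1) (by norm_num) (by norm_num)
  have h3 := key (-1) 1 (by norm_num) (by norm_num)
  have h4 := key (-1) (-1) (by norm_num) (by norm_num)
  simp only [one_mul, neg_mul, ← sub_eq_add_neg] at h1 h2 h3 h4
  refine (sum_le_sum fun x _ => Fourier.exp_norm_le _ ht).trans ?_
  simp only [sum_add_distrib]
  linarith

/-- Chang's lemma -/
theorem chang {φ : ZMod N → ℂ} (hφ : ∀ x, ‖φ x‖ ≤ 1) {α ε : ℝ} (hα : 0 < α) (hε : 0 < ε)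
    (hε1 : ε ≤ 1) (h1 : α * N ≤ ∑ x, ‖φ x‖) {Λ : Finset (ZMod N)}
    (hΛ : AddDissociated (Λ : Set (ZMod N)))
    (hs : ∀ ξ ∈ Λ, ε * ((N : ℝ)⁻¹ * ∑ x, ‖φ x‖) ≤ ‖ft φ ξ‖) :
    (Λ.card : ℝ) ≤ 8 / ε ^ 2 * Real.log (2 / α) := by
  have hN := Fourier.cast_pos (N := N)
  choose u hu using fun ξ => exists_phase (conj (ft φ ξ))
  set S := ∑ x, ‖φ x‖ with hS
  set g : ZMod N → ℂ := fun x => ∑ ξ ∈ Λ, e (u ξ) * e (pr ξ x) with hg
  have hSN : S ≤ N := by
    have : S ≤ ∑ _x : ZMod N, (1 : ℝ) := sum_le_sum fun x _ => hφ x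
    rwa [sum_const, card_univ, ZMod.card, nsmul_eq_mul, mul_one] at this
  have hα1 : α ≤ 1 := by
    by_contra hc
    nlinarith
  have hA : ((∑ ξ ∈ Λ, ‖ft φ ξ‖ : ℝ) : ℂ) = (N : ℂ)⁻¹ * ∑ x, conj (φ x) * g x := by
    push_cast
    simp only [hg, mul_sum]
    rw [sum_comm]
    refine sum_congr rfl fun ξ _ => ?_
    rw [← Complex.norm_conj, ← hu ξ, Fourier.conj_ft, mul_sum, sum_mul]
    exact sum_congr rfl fun x _ => by ring
  have hB : ε * S * Λ.card ≤ ∑ x, ‖φ x‖ * ‖g x‖ := by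
    have h2 : ∑ _ξ ∈ Λ, ε * ((N : ℝ)⁻¹ * S) ≤ ∑ ξ ∈ Λ, ‖ft φ ξ‖ := sum_le_sum hs
    rw [sum_const, nsmul_eq_mul] at h2
    have h3 := congrArg norm hA
    rw [Complex.norm_real, norm_mul, norm_inv, Complex.norm_natCast,
      Real.norm_of_nonneg (sum_nonneg fun _ _ => norm_nonneg _)] at h3
    have h4 : ‖∑ x, conj (φ x) * g x‖ ≤ ∑ x, ‖φ x‖ * ‖g x‖ :=
      (norm_sum_le _ _).trans (le_of_eq (sum_congr rfl fun x _ => by
        rw [norm_mul, Complex.norm_conj]))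
    have h5 : (N : ℝ)⁻¹ * (ε * S * Λ.card) ≤ (N : ℝ)⁻¹ * ∑ x, ‖φ x‖ * ‖g x‖ := by
      calc _ = Λ.card * (ε * ((N : ℝ)⁻¹ * S)) := by ring
        _ ≤ _ := h2.trans (h3.trans_le (mul_le_mul_of_nonneg_left h4 (by positivity)))
    exact le_of_mul_le_mul_left h5 (by positivity)
  have hR := Fourier.rudin_norm hΛ (c := fun ξ => e (u ξ)) (fun ξ => (norm_e _).le)
    (show 0 ≤ ε / 2 by positivity)
  set m : ℝ := ε / 2 * ε * Λ.card with hm
  have hC : Real.exp m * S ≤ ∑ x, Real.exp (ε / 2 * ‖g x‖) := by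
    have h2 : ∀ x, Real.exp m * (‖φ x‖ * (1 - m) + ε / 2 * (‖φ x‖ * ‖g x‖)) ≤
        Real.exp (ε / 2 * ‖g x‖) := by
      intro x
      have h3 := Real.add_one_le_exp (ε / 2 * ‖g x‖ - m)
      have h4 : Real.exp (ε / 2 * ‖g x‖) = Real.exp m * Real.exp (ε / 2 * ‖g x‖ - m) := by
        rw [← Real.exp_add]; congr 1; ring
      rw [h4]
      refine mul_le_mul_of_nonneg_left ?_ (Real.exp_pos m).le
      calc _ = ‖φ x‖ * (ε / 2 * ‖g x‖ - m + 1) := by ring
        _ ≤ ‖φ x‖ * Real.exp (ε / 2 * ‖g x‖ - m) :=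
          mul_le_mul_of_nonneg_left h3 (norm_nonneg _)
        _ ≤ _ := mul_le_of_le_one_left (Real.exp_pos _).le (hφ x)
    refine le_trans ?_ (sum_le_sum fun x _ => h2 x)
    rw [← mul_sum, sum_add_distrib, ← sum_mul, ← mul_sum, ← hS]
    refine mul_le_mul_of_nonneg_left ?_ (Real.exp_pos m).le
    have := mul_le_mul_of_nonneg_left hB (show 0 ≤ ε / 2 by positivity)
    rw [hm]
    linarith
  have hD : Real.exp (ε ^ 2 / 4 * Λ.card) ≤ (2 / α) ^ 2 := by
    have h2 : Real.exp m = Real.exp (ε ^ 2 / 4 * Λ.card) * Real.exp ((ε / 2) ^ 2 * Λ.card) := by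
      rw [← Real.exp_add, hm]; congr 1; ring
    have h3 : Real.exp m * (α * N) ≤ 4 * N * Real.exp ((ε / 2) ^ 2 * Λ.card) :=
      (mul_le_mul_of_nonneg_left h1 (Real.exp_pos m).le).trans (hC.trans hR)
    rw [h2] at h3
    have h4 := Real.exp_pos ((ε / 2) ^ 2 * Λ.card)
    have h5 : Real.exp (ε ^ 2 / 4 * Λ.card) * α ≤ 4 := by
      refine le_of_mul_le_mul_right ?_ (mul_pos hN h4)
      linarith
    rw [div_pow, le_div_iff₀ (by positivity)]
    nlinarith [Real.exp_pos (ε ^ 2 / 4 * Λ.card)]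
  have hE := Real.log_le_log (Real.exp_pos _) hD
  rw [Real.log_exp, Real.log_pow] at hE
  rw [div_mul_eq_mul_div, le_div_iff₀ (by positivity)]
  push_cast at hE
  linarith

/-- the large spectrum of a set is annihilated by a Bohr set -/
theorem chang_bohr (X : Finset (ZMod N)) {α ε : ℝ} (hα : 0 < α) (hε : 0 < ε) (hε1 : ε ≤ 1)
    (hX : α * N ≤ X.card) : ∃ Λ : Finset (ZMod N), (Λ.card : ℝ) ≤ 8 / ε ^ 2 * Real.log (2 / α) ∧
      ∀ ξ, ε * X.card ≤ ‖∑ x ∈ X, e (pr ξ x)‖ → ∀ s b, InN Λ s b → ‖pr ξ b‖ ≤ Λ.card * s := by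
  classical
  have hN := Fourier.cast_pos (N := N)
  set φ : ZMod N → ℂ := fun x => if x ∈ X then 1 else 0 with hφ
  have hsum : ∑ x, ‖φ x‖ = X.card := by
    simp only [hφ, apply_ite norm, norm_one, norm_zero]
    rw [sum_ite_mem, univ_inter, sum_const, nsmul_eq_mul, mul_one]
  have hft : ∀ ξ, ‖ft φ ξ‖ = (N : ℝ)⁻¹ * ‖∑ x ∈ X, e (pr ξ x)‖ := by
    intro ξ
    rw [← Complex.norm_conj, Fourier.conj_ft, norm_mul, norm_inv, Complex.norm_natCast]
    congr 2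
    simp only [hφ, apply_ite conj, map_one, map_zero, ite_mul, one_mul, zero_mul]
    rw [sum_ite_mem, univ_inter]
  have hch : ∀ Λ ⊆ univ.filter (fun ξ => ε * X.card ≤ ‖∑ x ∈ X, e (pr ξ x)‖),
      AddDissociated (Λ : Set (ZMod N)) → (Λ.card : ℝ) ≤ 8 / ε ^ 2 * Real.log (2 / α) := by
    intro Λ hΛ hd
    refine chang (φ := φ) (fun x => ?_) hα hε hε1 (by rwa [hsum]) hd fun ξ hξ => ?_
    · simp only [hφ]
      split_ifs <;> simp
    · rw [hsum, hft, mul_left_comm]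
      exact mul_le_mul_of_nonneg_left (mem_filter.1 (hΛ hξ)).2 (by positivity)
  have h0 := hch ∅ (empty_subset _) (by simp)
  rw [card_empty, Nat.cast_zero] at h0
  obtain ⟨Λ, -, hcard, hspan⟩ :=
    exists_subset_addSpan_card_le_of_forall_addDissociated
      (s := univ.filter (fun ξ => ε * X.card ≤ ‖∑ x ∈ X, e (pr ξ x)‖))
      (d := ⌊8 / ε ^ 2 * Real.log (2 / α)⌋₊) fun Λ hΛ hd => Nat.le_floor (hch Λ hΛ hd)
  refine ⟨Λ, (Nat.cast_le.2 hcard).trans (Nat.floor_le h0), fun ξ hξ s b hb => ?_⟩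
  obtain ⟨σ, hσ, rfl⟩ := mem_addSpan.1 (hspan (mem_filter.2 ⟨mem_univ ξ, hξ⟩))
  rw [Fourier.pr_sum_left]
  refine (norm_sum_le _ _).trans ?_
  rw [← nsmul_eq_mul, ← sum_const]
  refine sum_le_sum fun a ha => ?_
  have h1 := hb a ha
  rw [pr_zsmul_left]
  rcases hσ a with h | h | h <;> rw [h]
  · rwa [neg_one_zsmul, norm_neg]
  · rw [zero_zsmul, norm_zero]; exact (norm_nonneg _).trans h1
  · rwa [one_zsmul]

end Cyclic

end Pool.Agent.Tri
end

-- part Pool.Agent.Lib.MP_9721b5_an.Tri.Sanders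
section

/-!
The quasi-polynomial Bogolyubov lemma, from almost periodicity and the lemma of Chang.
-/

set_option autoImplicit false

open Finset ComplexConjugate Real

namespace Pool.Agent.Tri

namespace Sanders

section CS

variable {G : Type} [AddCommGroup G] [Fintype G]

omit [AddCommGroup G] [Fintype G] in
lemma moment (A : Finset G) (y : G → ℝ) {l : ℝ} (hl : l ≤ 1) (hy : ∀ a ∈ A, |y a| ≤ l)
    (h0 : ∑ a ∈ A, y a = 0) (m : ℕ) :
    ∑ a ∈ Fintype.piFinset (fun _ : Fin m => A), exp (∑ i, y (a i)) ≤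
      (A.card : ℝ) ^ m * exp (l ^ 2 * m) := by
  have h1 : ∑ a ∈ A, exp (y a) ≤ A.card * exp (l ^ 2) := by
    calc ∑ a ∈ A, exp (y a) ≤ ∑ a ∈ A, (exp (l ^ 2) + y a) := by
          refine sum_le_sum fun a ha => ?_
          have h2 := abs_le.1 (Real.abs_exp_sub_one_sub_id_le ((hy a ha).trans hl))
          have h3 := Real.add_one_le_exp (l ^ 2)
          have h4 : y a ^ 2 ≤ l ^ 2 := by
            rw [← sq_abs (y a)]; exact pow_le_pow_left₀ (abs_nonneg _) (hy a ha) 2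
          linarith [h2.2]
      _ = _ := by rw [sum_add_distrib, h0, sum_const, nsmul_eq_mul, add_zero]
  simp only [Real.exp_sum]
  rw [← Finset.prod_univ_sum (fun _ : Fin m => A) (fun _ a => exp (y a)), prod_const, card_univ,
    Fintype.card_fin, mul_comm (l ^ 2), Real.exp_nat_mul, ← mul_pow]
  exact pow_le_pow_left₀ (sum_nonneg fun _ _ => (exp_pos _).le) h1 m

omit [AddCommGroup G] in
lemma sum_le_of_moment (S : Finset G) (w : G → ℝ) (c : ℝ) :
    ∑ x ∈ S, w x ≤ c * S.card + exp (-c) * ∑ x, exp (w x) := by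
  calc ∑ x ∈ S, w x ≤ ∑ x ∈ S, (c + exp (-c) * exp (w x)) := by
        refine sum_le_sum fun x _ => ?_
        have := Real.add_one_le_exp (-c + w x)
        rw [Real.exp_add] at this
        linarith
    _ = c * S.card + exp (-c) * ∑ x ∈ S, exp (w x) := by
        rw [sum_add_distrib, sum_const, nsmul_eq_mul, mul_sum, mul_comm]
    _ ≤ _ := by
        have : ∑ x ∈ S, exp (w x) ≤ ∑ x, exp (w x) :=
          sum_le_sum_of_subset_of_nonneg (subset_univ _) fun _ _ _ => (exp_pos _).le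
        have := mul_le_mul_of_nonneg_left this (exp_pos (-c)).le
        linarith

lemma exists_diag (m : ℕ) (Q : (Fin m → G) → Prop) :
    ∃ g : Fin m → G, cnt univ Q * Fintype.card G ≤
      (Fintype.card G : ℝ) ^ m * cnt univ (fun t : G => Q (fun i => g i + t)) := by
  classical
  have h1 : ∑ g : Fin m → G, cnt univ (fun t : G => Q (fun i => g i + t)) =
      cnt univ Q * Fintype.card G := by
    simp only [cnt_eq_sum]
    rw [sum_comm]
    have : ∀ t : G, (∑ g : Fin m → G, if Q (fun i => g i + t) then (1 : ℝ) else 0) =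
        ∑ g : Fin m → G, if Q g then (1 : ℝ) else 0 := fun t =>
      Equiv.sum_comp (Equiv.addRight (fun _ : Fin m => t)) (fun g => if Q g then (1 : ℝ) else 0)
    simp only [this, sum_const, card_univ, nsmul_eq_mul]
    ring
  have h2 : ∑ _g : Fin m → G, cnt univ Q * Fintype.card G ≤ ∑ g : Fin m → G,
      (Fintype.card G : ℝ) ^ m * cnt univ (fun t : G => Q (fun i => g i + t)) := by
    rw [← mul_sum _ _ ((Fintype.card G : ℝ) ^ m), h1, sum_const, card_univ, nsmul_eq_mul, Fintype.card_fun, Fintype.card_fin]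
    push_cast
    exact le_rfl
  obtain ⟨g, -, hg⟩ := exists_le_of_sum_le univ_nonempty h2
  exact ⟨g, hg⟩

/-- almost periods -/
lemma croot_sisask (A : Finset G) {p l : ℝ} (hA : exp (-p) * Fintype.card G ≤ A.card)
    (φ : G → ℝ) (hφ : ∀ x, 0 ≤ φ x ∧ φ x ≤ 1) (hl0 : 0 < l) (hl : l ≤ 1) {m : ℕ} (hm : 0 < m) :
    ∃ X : Finset G, exp (-(p * m)) / 2 * Fintype.card G ≤ X.card ∧ ∀ t ∈ X, ∀ t' ∈ X, ∀ s,
      |((A.card : ℝ) ^ 2)⁻¹ * ∑ a ∈ A, ∑ a' ∈ A, φ (s + t - t' + a - a') -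
        ((A.card : ℝ) ^ 2)⁻¹ * ∑ a ∈ A, ∑ a' ∈ A, φ (s + a - a')| ≤
        2 * (l + (p + 3) / (l * m)) := by
  classical
  have hN : (0 : ℝ) < Fintype.card G := Nat.cast_pos.2 Fintype.card_pos
  have hA0 : (0 : ℝ) < A.card := lt_of_lt_of_le (by positivity) hA
  have hm0 : (0 : ℝ) < m := Nat.cast_pos.2 hm
  obtain ⟨u, hu⟩ : ∃ u : G → ℝ, ∀ x, u x = (A.card : ℝ)⁻¹ * ∑ a ∈ A, φ (x - a) := ⟨_, fun _ => rfl⟩
  have hu0 : ∀ x, 0 ≤ u x := fun x => by
    rw [hu]; exact mul_nonneg (by positivity) (sum_nonneg fun _ _ => (hφ _).1)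
  have hu1 : ∀ x, u x ≤ 1 := fun x => by
    rw [hu, inv_mul_le_iff₀ hA0, mul_one]
    simpa using sum_le_card_nsmul A (fun a => φ (x - a)) 1 fun _ _ => (hφ _).2
  have hs : ∀ x, ∑ a ∈ A, (u x - φ (x - a)) = 0 := fun x => by
    rw [sum_sub_distrib, sum_const, nsmul_eq_mul, hu, ← mul_assoc, mul_inv_cancel₀ hA0.ne',
      one_mul, sub_self]
  have hab : ∀ x a, |u x - φ (x - a)| ≤ 1 := fun x a =>
    abs_le.2 ⟨by linarith [hu0 x, (hφ (x - a)).2], by linarith [hu1 x, (hφ (x - a)).1]⟩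
  have hmom : ∀ σ : ℝ, |σ| = l → ∑ a ∈ Fintype.piFinset (fun _ : Fin m => A),
      ∑ x, exp (∑ i, σ * (u x - φ (x - a i))) ≤
        Fintype.card G * ((A.card : ℝ) ^ m * exp (l ^ 2 * m)) := fun σ hσ => by
    rw [sum_comm]
    refine (sum_le_card_nsmul _ _ _ fun x _ => moment A (fun a => σ * (u x - φ (x - a))) hl
      (fun a _ => ?_) ?_ m).trans (by rw [card_univ, nsmul_eq_mul])
    · rw [abs_mul, hσ]; exact mul_le_of_le_one_right hl0.le (hab x a)
    · rw [← mul_sum, hs, mul_zero]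
  obtain ⟨W, hW⟩ : ∃ W : (Fin m → G) → ℝ, ∀ a, W a = ∑ x, exp (∑ i, l * (u x - φ (x - a i))) +
      ∑ x, exp (∑ i, -l * (u x - φ (x - a i))) := ⟨_, fun _ => rfl⟩
  have hW0 : ∀ a, 0 ≤ W a := fun a => by rw [hW]; positivity
  have hK : 0 < 4 * Fintype.card G * exp (l ^ 2 * m) := by positivity
  have h1 := cnt_markov (Fintype.piFinset (fun _ : Fin m => A)) W (fun a _ => hW0 a) hK
  have h2 : ∑ a ∈ Fintype.piFinset (fun _ : Fin m => A), W a ≤
      2 * (Fintype.card G * ((A.card : ℝ) ^ m * exp (l ^ 2 * m))) := by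
    simp only [hW, sum_add_distrib]
    linarith [hmom l (abs_of_pos hl0), hmom (-l) (by rw [abs_neg, abs_of_pos hl0])]
  have h3 := cnt_add_not (Fintype.piFinset (fun _ : Fin m => A))
    (fun a => 4 * Fintype.card G * exp (l ^ 2 * m) ≤ W a)
  have h4 : ((Fintype.piFinset (fun _ : Fin m => A)).card : ℝ) = (A.card : ℝ) ^ m := by
    rw [Fintype.card_piFinset, prod_const, card_univ, Fintype.card_fin, Nat.cast_pow]
  have h5 : (∑ a ∈ Fintype.piFinset (fun _ : Fin m => A), W a) /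
      (4 * Fintype.card G * exp (l ^ 2 * m)) ≤ (A.card : ℝ) ^ m / 2 := by
    rw [div_le_iff₀ hK]; linarith
  have h6 := cnt_subset (subset_univ (Fintype.piFinset (fun _ : Fin m => A)))
    (fun a => ¬ 4 * Fintype.card G * exp (l ^ 2 * m) ≤ W a)
  obtain ⟨g, hg⟩ := exists_diag m (fun a => ¬ 4 * Fintype.card G * exp (l ^ 2 * m) ≤ W a)
  rw [cnt_eq_card univ (fun t : G => ¬ 4 * Fintype.card G * exp (l ^ 2 * m) ≤ W fun i => g i + t)]
    at hg
  refine ⟨univ.filter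
    (fun t : G => ¬ 4 * Fintype.card G * exp (l ^ 2 * m) ≤ W fun i => g i + t), ?_, ?_⟩
  · have h7 : (exp (-p) * Fintype.card G) ^ m ≤ (A.card : ℝ) ^ m :=
      pow_le_pow_left₀ (by positivity) hA m
    rw [mul_pow, ← Real.exp_nat_mul] at h7
    have h8 : (A.card : ℝ) ^ m / 2 * Fintype.card G ≤ _ :=
      (mul_le_mul_of_nonneg_right (by linarith) hN.le).trans hg
    refine le_of_mul_le_mul_left (le_trans ?_ h8) (pow_pos hN m)
    have h9 : exp (-(p * m)) = exp (m * -p) := by congr 1; ring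
    rw [h9]
    nlinarith [mul_le_mul_of_nonneg_right h7 hN.le]
  · have key : ∀ t : G, ¬ 4 * Fintype.card G * exp (l ^ 2 * m) ≤ W (fun i => g i + t) → ∀ s : G,
        |∑ a ∈ A, (m * u (a + s + t) - ∑ i, φ (a + s - g i))| ≤
          m * (l + (p + 3) / (l * m)) * A.card := by
      intro t ht s
      have hσ : ∀ σ : ℝ, ∑ x, exp (∑ i, σ * (u x - φ (x - (g i + t)))) ≤
          4 * Fintype.card G * exp (l ^ 2 * m) →
          σ * ∑ a ∈ A, (m * u (a + s + t) - ∑ i, φ (a + s - g i)) ≤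
            l * (m * (l + (p + 3) / (l * m)) * A.card) := by
        intro σ hσ
        have e1 := sum_le_of_moment A
          (fun a => ∑ i, σ * (u (a + (s + t)) - φ (a + (s + t) - (g i + t)))) (l ^ 2 * m + p + 2)
        rw [show ∑ x, exp (∑ i, σ * (u (x + (s + t)) - φ (x + (s + t) - (g i + t)))) =
          ∑ x, exp (∑ i, σ * (u x - φ (x - (g i + t)))) from
          Equiv.sum_comp (Equiv.addRight (s + t))
            (fun x => exp (∑ i, σ * (u x - φ (x - (g i + t)))))] at e1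
        have e2 : σ * ∑ a ∈ A, (m * u (a + s + t) - ∑ i, φ (a + s - g i)) =
            ∑ a ∈ A, ∑ i, σ * (u (a + (s + t)) - φ (a + (s + t) - (g i + t))) := by
          rw [mul_sum]
          refine sum_congr rfl fun a _ => ?_
          rw [← mul_sum, sum_sub_distrib, sum_const, card_univ, Fintype.card_fin, nsmul_eq_mul,
            add_assoc]
          congr 2
          exact sum_congr rfl fun i _ => by congr 1; abel
        have e3 : exp (-(l ^ 2 * m + p + 2)) * (4 * Fintype.card G * exp (l ^ 2 * m)) ≤ A.card := by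
          have e4 : exp (-(l ^ 2 * m + p + 2)) * exp (l ^ 2 * m) = exp (-p) * exp (-2) := by
            rw [← Real.exp_add, ← Real.exp_add]; congr 1; ring
          have e5 : 4 * exp (-2 : ℝ) ≤ 1 := by
            have e6 := Real.add_one_le_exp (1 : ℝ)
            have e7 : exp (-2 : ℝ) * (exp 1 * exp 1) = 1 := by
              rw [← Real.exp_add, ← Real.exp_add]; norm_num
            nlinarith [exp_pos (-2 : ℝ), exp_pos (1 : ℝ), mul_self_le_mul_self (by norm_num) e6]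
          calc _ = (exp (-(l ^ 2 * m + p + 2)) * exp (l ^ 2 * m)) * 4 * Fintype.card G := by ring
            _ = (4 * exp (-2)) * (exp (-p) * Fintype.card G) := by rw [e4]; ring
            _ ≤ 1 * A.card := mul_le_mul e5 hA (by positivity) zero_le_one
            _ = _ := one_mul _
        have e6 := mul_le_mul_of_nonneg_left hσ (exp_pos (-(l ^ 2 * m + p + 2))).le
        have e7 : l * (m * (l + (p + 3) / (l * m)) * A.card) = (l ^ 2 * m + p + 3) * A.card := by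
          field_simp
          ring
        rw [e2, e7]
        linarith
      rw [not_le, hW] at ht
      have p1 : 0 ≤ ∑ x, exp (∑ i, l * (u x - φ (x - (g i + t)))) := by positivity
      have p2 : 0 ≤ ∑ x, exp (∑ i, -l * (u x - φ (x - (g i + t)))) := by positivity
      have q1 := le_of_mul_le_mul_left (hσ l (by linarith)) hl0
      have q2 := hσ (-l) (by linarith)
      rw [neg_mul, ← mul_neg] at q2
      exact abs_le.2 ⟨neg_le.1 (le_of_mul_le_mul_left q2 hl0), q1⟩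
    intro t ht t' ht' s
    have k1 := abs_le.1 (key t (mem_filter.1 ht).2 (s - t'))
    have k2 := abs_le.1 (key t' (mem_filter.1 ht').2 (s - t'))
    have e1 : ∀ v : G, ((A.card : ℝ) ^ 2)⁻¹ * ∑ a ∈ A, ∑ a' ∈ A, φ (v + a - a') =
        (A.card : ℝ)⁻¹ * ∑ a ∈ A, u (a + v) := fun v => by
      simp only [hu, ← mul_sum, add_comm v]
      rw [sq, mul_inv, mul_assoc]
    rw [e1, e1, ← mul_sub, abs_mul, abs_inv, abs_of_pos hA0, inv_mul_le_iff₀ hA0]
    have e2 : ∀ a, a + (s - t') + t = a + (s + t - t') := fun a => by abel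
    have e3 : ∀ a, a + (s - t') + t' = a + s := fun a => by abel
    simp only [sum_sub_distrib, ← mul_sum, e2, e3] at k1 k2
    refine abs_le.2 ⟨?_, ?_⟩
    · refine le_of_mul_le_mul_left ?_ hm0
      nlinarith [k1.1, k2.2]
    · refine le_of_mul_le_mul_left ?_ hm0
      nlinarith [k1.2, k2.1]

end CS

variable {N : ℕ} [NeZero N]

/-- squared normalised exponential sum -/
noncomputable def rr (X : Finset (ZMod N)) (ξ : ZMod N) : ℝ :=
  ((X.card : ℝ) ^ 2)⁻¹ * ‖∑ x ∈ X, e (pr ξ x)‖ ^ 2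

lemma sq_expand (X : Finset (ZMod N)) (ξ : ZMod N) :
    ((‖∑ x ∈ X, e (pr ξ x)‖ ^ 2 : ℝ) : ℂ) = ∑ a ∈ X, ∑ a' ∈ X, e (pr ξ (a - a')) := by
  rw [Complex.ofReal_pow, ← Complex.mul_conj', map_sum, sum_mul_sum]
  simp only [pr_sub_right, e_sub]

lemma avg_exp (X : Finset (ZMod N)) (c : ZMod N → ℂ) (t : ZMod N) :
    ((X.card : ℂ) ^ 2)⁻¹ * ∑ a ∈ X, ∑ a' ∈ X, ∑ ξ, c ξ * e (pr ξ (t + a - a')) =
      ∑ ξ, c ξ * rr X ξ * e (pr ξ t) := by
  have h1 : ∑ a ∈ X, ∑ a' ∈ X, ∑ ξ, c ξ * e (pr ξ (t + a - a')) =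
      ∑ ξ, ∑ a ∈ X, ∑ a' ∈ X, c ξ * e (pr ξ (t + a - a')) := by
    rw [sum_comm (s := univ)]
    exact sum_congr rfl fun a _ => sum_comm
  rw [h1, mul_sum]
  refine sum_congr rfl fun ξ _ => ?_
  rw [rr, Complex.ofReal_mul, sq_expand]
  simp only [add_sub_assoc, pr_add_right, e_add, ← mul_sum]
  push_cast
  ring

lemma rr_nonneg (X : Finset (ZMod N)) (ξ : ZMod N) : 0 ≤ rr X ξ := by rw [rr]; positivity

lemma rr_le {X : Finset (ZMod N)} {ξ : ZMod N} {a : ℝ} (hX : (0 : ℝ) < X.card)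
    (h : ‖∑ x ∈ X, e (pr ξ x)‖ ≤ a * X.card) : rr X ξ ≤ a ^ 2 := by
  rw [rr, inv_mul_le_iff₀ (by positivity), ← mul_pow, mul_comm]
  exact pow_le_pow_left₀ (norm_nonneg _) h 2

lemma rr_le_one {X : Finset (ZMod N)} (ξ : ZMod N) (hX : (0 : ℝ) < X.card) : rr X ξ ≤ 1 := by
  have := rr_le (ξ := ξ) (a := 1) hX ((norm_sum_le _ _).trans (by simp))
  simpa using this

lemma sum_rr {X : Finset (ZMod N)} (hX : (0 : ℝ) < X.card) : ∑ ξ, rr X ξ = N / X.card := by
  have h1 : ∑ ξ, ‖∑ x ∈ X, e (pr ξ x)‖ ^ 2 = (N : ℝ) * X.card := by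
    apply Complex.ofReal_injective
    rw [Complex.ofReal_sum]
    simp only [sq_expand]
    rw [sum_comm]
    have : ∀ a ∈ X, ∑ ξ : ZMod N, ∑ a' ∈ X, e (pr ξ (a - a')) = N := fun a ha => by
      rw [sum_comm]
      simp only [pr_comm _ (a - _), sum_e_pr, sub_eq_zero]
      rw [sum_ite_eq]
      simp [ha]
    rw [sum_congr rfl this]
    simp [mul_comm]
  simp only [rr, ← mul_sum, h1]
  field_simp

lemma iter_close {X : Finset (ZMod N)} (hX : (0 : ℝ) < X.card) (c : ZMod N → ℂ) {η : ℝ}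
    (h : ∀ t ∈ X, ∀ t' ∈ X, ∀ s,
      ‖∑ ξ, c ξ * e (pr ξ (s + t - t')) - ∑ ξ, c ξ * e (pr ξ s)‖ ≤ η) (k : ℕ) :
    ∀ s, ‖∑ ξ, c ξ * rr X ξ ^ k * e (pr ξ s) - ∑ ξ, c ξ * e (pr ξ s)‖ ≤ k * η := by
  induction k with
  | zero => simp
  | succ k ih =>
    intro s
    have h1 := avg_exp X (fun ξ => c ξ * rr X ξ ^ k) s
    have hX' : (X.card : ℂ) ≠ 0 := by exact_mod_cast hX.ne'
    have h2 : ∑ ξ, c ξ * rr X ξ ^ (k + 1) * e (pr ξ s) - ∑ ξ, c ξ * e (pr ξ s) =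
        ((X.card : ℂ) ^ 2)⁻¹ * ∑ a ∈ X, ∑ a' ∈ X,
          (∑ ξ, c ξ * rr X ξ ^ k * e (pr ξ (s + a - a')) - ∑ ξ, c ξ * e (pr ξ s)) := by
      simp only [sum_sub_distrib, mul_sub, h1, sum_const, nsmul_eq_mul]
      congr 1
      · simp only [pow_succ, mul_assoc]
      · field_simp
    rw [h2, norm_mul, norm_inv, norm_pow, Complex.norm_natCast, inv_mul_le_iff₀ (by positivity)]
    refine (norm_sum_le _ _).trans ((sum_le_card_nsmul _ _ (X.card • ((k + 1 : ℝ) * η))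
      fun a ha => (norm_sum_le _ _).trans (sum_le_card_nsmul _ _ _ fun a' ha' => ?_)).trans ?_)
    · have := norm_sub_le_norm_sub_add_norm_sub (∑ ξ, c ξ * rr X ξ ^ k * e (pr ξ (s + a - a')))
        (∑ ξ, c ξ * e (pr ξ (s + a - a'))) (∑ ξ, c ξ * e (pr ξ s))
      linarith [ih (s + a - a'), h a ha a' ha' s]
    · simp only [nsmul_eq_mul]
      push_cast
      exact le_of_eq (by ring)

end Sanders

open Sanders in
theorem sanders : SandersStmt := by
  classical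
  refine ⟨24, fun p hp N _ A hA => ?_⟩
  have hN : (0 : ℝ) < N := Nat.cast_pos.2 (NeZero.pos N)
  have hA0 : (0 : ℝ) < A.card := lt_of_lt_of_le (by positivity) hA
  obtain ⟨k, hk1, hk2⟩ : ∃ k : ℕ, p + 2 ≤ k ∧ (k : ℝ) ≤ p + 3 :=
    ⟨⌈p + 2⌉₊, Nat.le_ceil _, by linarith [(Nat.ceil_lt_add_one (by linarith : 0 ≤ p + 2)).le]⟩
  have hk0 : (4 : ℝ) ≤ k := by linarith
  obtain ⟨φ, hφ⟩ : ∃ φ : ZMod N → ℝ, ∀ x, φ x = if ∃ a ∈ A, ∃ a' ∈ A, x = a - a' then 1 else 0 :=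
    ⟨_, fun _ => rfl⟩
  have hφ1 : ∀ x, 0 ≤ φ x ∧ φ x ≤ 1 := fun x => by rw [hφ]; split_ifs <;> norm_num
  have hm : 0 < 256 * k ^ 2 * (k + 1) := by
    have : 0 < k := by exact_mod_cast (by linarith : (0 : ℝ) < k)
    positivity
  obtain ⟨X, hX, hper⟩ := croot_sisask A (p := p) (l := 1 / (16 * k)) (by rwa [ZMod.card]) φ hφ1
    (by positivity) (by rw [div_le_one (by positivity)]; linarith) hm
  rw [ZMod.card] at hX
  have hX0 : (0 : ℝ) < X.card := lt_of_lt_of_le (by positivity) hX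
  have hη : 2 * (1 / (16 * (k : ℝ)) + (p + 3) / (1 / (16 * k) * ((256 * k ^ 2 * (k + 1) : ℕ) : ℝ)))
      ≤ 1 / (4 * k) := by
    have h1 : (p + 3) / (1 / (16 * k) * ((256 * k ^ 2 * (k + 1) : ℕ) : ℝ)) ≤ 1 / (16 * k) := by
      rw [div_le_iff₀ (by positivity)]
      push_cast
      have : 1 / (16 * (k : ℝ)) * (1 / (16 * k) * (256 * k ^ 2 * (k + 1))) = k + 1 := by
        field_simp
        ring
      rw [this]; linarith
    have h2 : 1 / (4 * (k : ℝ)) = 2 * (1 / (16 * k) + 1 / (16 * k)) := by field_simp; ring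
    rw [h2]; linarith
  obtain ⟨Λ, hΛ, hspec⟩ := chang_bohr X (ε := 1 / 2) (by positivity) (by norm_num) (by norm_num) hX
  have hp1 : 1 ≤ p := by linarith
  have hΛ2 : (Λ.card : ℝ) ≤ p ^ 22 := by
    have h1 : (2 : ℝ) / (exp (-(p * ((256 * k ^ 2 * (k + 1) : ℕ) : ℝ))) / 2) =
        4 * exp (p * ((256 * k ^ 2 * (k + 1) : ℕ) : ℝ)) := by
      rw [Real.exp_neg]; field_simp; norm_num
    rw [h1, Real.log_mul (by norm_num) (exp_pos _).ne', Real.log_exp] at hΛ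
    have h2 : Real.log 4 ≤ 3 := by linarith [Real.log_le_sub_one_of_pos (by norm_num : (0 : ℝ) < 4)]
    have h3 : ((256 * k ^ 2 * (k + 1) : ℕ) : ℝ) ≤ 4800 * p ^ 3 := by
      push_cast
      have h4 : (k : ℝ) ≤ 5 / 2 * p := by linarith
      have h5 : (k : ℝ) + 1 ≤ 3 * p := by linarith
      calc (256 : ℝ) * k ^ 2 * (k + 1) ≤ 256 * (5 / 2 * p) ^ 2 * (3 * p) := by gcongr
        _ = _ := by ring
    have h4 := mul_le_mul_of_nonneg_left h3 (by linarith : 0 ≤ p)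
    have h5 : (2 : ℝ) ^ 18 ≤ p ^ 18 := pow_le_pow_left₀ (by norm_num) hp 18
    have h6 : 1 ≤ p ^ 4 := one_le_pow₀ hp1
    have h7 := mul_le_mul_of_nonneg_right h5 (by positivity : 0 ≤ p ^ 4)
    nlinarith
  have hp24 : 4 * p ^ 22 ≤ p ^ 24 := by
    have : (0 : ℝ) ≤ p ^ 22 := by positivity
    nlinarith [mul_le_mul_of_nonneg_left (by nlinarith : 4 ≤ p ^ 2) this]
  have hp22 : 0 ≤ p ^ 22 := by positivity
  refine ⟨Λ, by linarith, fun b hb => ?_⟩
  obtain ⟨c, hc⟩ : ∃ c : ZMod N → ℂ, ∀ ξ, c ξ = ft (fun x => (φ x : ℂ)) ξ * rr A ξ :=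
    ⟨_, fun _ => rfl⟩
  have hP : ∀ t, ∑ ξ, c ξ * e (pr ξ t) =
      ((((A.card : ℝ) ^ 2)⁻¹ * ∑ a ∈ A, ∑ a' ∈ A, φ (t + a - a') : ℝ) : ℂ) := fun t => by
    simp only [hc]
    rw [← avg_exp]
    simp only [← ft_inv (fun x => (φ x : ℂ))]
    push_cast
    rfl
  have hit := iter_close hX0 c (η := 1 / (4 * k)) (fun t ht t' ht' s => by
    rw [hP, hP, ← Complex.ofReal_sub, Complex.norm_real, Real.norm_eq_abs]
    exact (hper t ht t' ht' s).trans hη) k
  have hk4 : (k : ℝ) * (1 / (4 * k)) = 1 / 4 := by field_simp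
  rw [hk4] at hit
  have hcs : ∑ ξ, ‖c ξ‖ ≤ N / A.card := by
    rw [← sum_rr hA0]
    refine sum_le_sum fun ξ _ => ?_
    rw [hc, norm_mul, Complex.norm_real, Real.norm_eq_abs, abs_of_nonneg (rr_nonneg _ _)]
    refine mul_le_of_le_one_left (rr_nonneg _ _) ((norm_ft_le _ _).trans ?_)
    rw [inv_mul_le_iff₀ hN, mul_one]
    refine (sum_le_card_nsmul _ _ 1 fun x _ => ?_).trans (by simp)
    rw [Complex.norm_real, Real.norm_eq_abs, abs_of_nonneg (hφ1 x).1]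
    exact (hφ1 x).2
  have hsm : ∀ ξ, rr X ξ ^ k * ‖e (pr ξ b) - 1‖ ≤ exp (-p) / 4 := fun ξ => by
    rcases le_total (1 / 2 * (X.card : ℝ)) ‖∑ x ∈ X, e (pr ξ x)‖ with h | h
    · have h1 := hspec ξ h _ b hb
      have h2 := norm_e_sub_one_le (pr ξ b)
      have h3 : rr X ξ ^ k ≤ 1 := pow_le_one₀ (rr_nonneg _ _) (rr_le_one ξ hX0)
      have h4 : 28 * p ^ 22 * exp (-p ^ 24) ≤ exp (-p) := by
        have h5 : p ≤ p ^ 22 := le_self_pow₀ hp1 (by norm_num)
        have h6 : (2 : ℝ) ^ 22 ≤ p ^ 22 := pow_le_pow_left₀ (by norm_num) hp 22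
        have h7 : p ^ 22 ≤ exp (p ^ 22) := by linarith [Real.add_one_le_exp (p ^ 22)]
        calc 28 * p ^ 22 * exp (-p ^ 24) ≤ exp (p ^ 22) * exp (p ^ 22) * exp (-p ^ 24) := by
              gcongr
              linarith
          _ = exp (p ^ 22 + p ^ 22 + -p ^ 24) := by rw [Real.exp_add, Real.exp_add]
          _ ≤ _ := Real.exp_le_exp.2 (by linarith)
      have h5 := mul_le_mul_of_nonneg_right hΛ2 (exp_pos (-p ^ 24)).le
      have h6 := mul_le_of_le_one_left (norm_nonneg (e (pr ξ b) - 1)) h3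
      linarith
    · have h1 : rr X ξ ^ k ≤ ((1 / 2) ^ 2) ^ k := pow_le_pow_left₀ (rr_nonneg _ _) (rr_le hX0 h) k
      have h2 : ‖e (pr ξ b) - 1‖ ≤ 2 := (norm_sub_le _ _).trans (by rw [norm_e, norm_one]; norm_num)
      have h3 : (((1 : ℝ) / 2) ^ 2) ^ k ≤ exp (-p) / 8 := by
        obtain ⟨j, rfl⟩ : ∃ j, k = j + 2 := ⟨k - 2, by
          have : 4 ≤ k := by exact_mod_cast hk0
          omega⟩
        have h4 : ((1 : ℝ) / 2) ^ 2 ≤ exp (-1) := by
          rw [Real.exp_neg, le_inv_comm₀ (by norm_num) (exp_pos _)]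
          linarith [Real.exp_one_lt_d9]
        have h5 : (((1 : ℝ) / 2) ^ 2) ^ j ≤ exp (-p) := by
          refine (pow_le_pow_left₀ (by positivity) h4 j).trans ?_
          rw [← Real.exp_nat_mul]
          push_cast at hk1
          exact Real.exp_le_exp.2 (by linarith)
        rw [pow_add]
        linarith [exp_pos (-p)]
      have h4 := mul_le_mul (h1.trans h3) h2 (norm_nonneg _) (by positivity)
      linarith
  have hdiff : ‖∑ ξ, c ξ * rr X ξ ^ k * e (pr ξ b) - ∑ ξ, c ξ * rr X ξ ^ k * e (pr ξ 0)‖ ≤ 1 / 4 := by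
    rw [← sum_sub_distrib]
    refine (norm_sum_le _ _).trans ((sum_le_sum (g := fun ξ => ‖c ξ‖ * (exp (-p) / 4))
      fun ξ _ => ?_).trans ?_)
    · rw [← mul_sub, pr_zero_right, e_zero, norm_mul, norm_mul, norm_pow, Complex.norm_real,
        Real.norm_eq_abs, abs_of_nonneg (rr_nonneg _ _), mul_assoc]
      exact mul_le_mul_of_nonneg_left (hsm ξ) (norm_nonneg _)
    · rw [← sum_mul]
      refine (mul_le_mul_of_nonneg_right hcs (by positivity)).trans ?_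
      rw [div_mul_eq_mul_div, div_le_iff₀ hA0]
      linarith
  by_contra hne
  have hPb : ∑ ξ, c ξ * e (pr ξ b) = 0 := by
    rw [hP, sum_eq_zero, mul_zero, Complex.ofReal_zero]
    refine fun a ha => sum_eq_zero fun a' ha' => ?_
    rw [hφ, if_neg]
    rintro ⟨a₁, h₁, a₂, h₂, h⟩
    exact hne ⟨a₁, h₁, a', ha', a₂, h₂, a, ha, by linear_combination h⟩
  have hP0 : ∑ ξ, c ξ * e (pr ξ 0) = 1 := by
    rw [hP]
    have : ∀ a ∈ A, ∑ a' ∈ A, φ (0 + a - a') = A.card := fun a ha => by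
      rw [sum_congr rfl (g := fun _ => (1 : ℝ)) fun a' ha' => by
        rw [hφ, if_pos ⟨a, ha, a', ha', by rw [zero_add]⟩]]
      simp
    rw [sum_congr rfl this, sum_const, nsmul_eq_mul, ← sq, inv_mul_cancel₀ (by positivity),
      Complex.ofReal_one]
  have h1 := hit b
  have h2 := hit 0
  rw [hPb, sub_zero] at h1
  rw [hP0] at h2
  generalize ∑ ξ, c ξ * rr X ξ ^ k * e (pr ξ b) = z₁ at h1 hdiff
  generalize ∑ ξ, c ξ * rr X ξ ^ k * e (pr ξ 0) = z₂ at h2 hdiff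
  have h3 : ‖(1 : ℂ)‖ ≤ ‖z₁‖ + ‖z₁ - z₂‖ + ‖z₂ - 1‖ := by
    have : (1 : ℂ) = z₁ - (z₁ - z₂) - (z₂ - 1) := by ring
    calc ‖(1 : ℂ)‖ = ‖z₁ - (z₁ - z₂) - (z₂ - 1)‖ := by rw [← this]
      _ ≤ _ := (norm_sub_le _ _).trans (add_le_add_left (norm_sub_le _ _) _)
  rw [norm_one] at h3
  linarith

end Pool.Agent.Tri
end

-- part Pool.Agent.Lib.MP_9721b5_an.BS
section

/-!
The Bogolyubov lemma with the bounds of Sanders.
-/

set_option autoImplicit false

namespace Pool.Agent.Lib.MP_9721b5_an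

theorem bs (_hC : ChangStmt) : BSStmt := bs_of_sanders Pool.Agent.Tri.sanders

end Pool.Agent.Lib.MP_9721b5_an
end

-- part Pool.Agent.Lib.MP_9721b5_an.Chang
section

/-! Chang's theorem for a complex weight. -/

set_option autoImplicit false

open Finset
open scoped Classical ComplexConjugate Pointwise

noncomputable section

namespace Pool.Agent.Lib.MP_9721b5_an

theorem chang : ChangStmt := by
  intro p _ w M γ Λ hγ hγ1 hM hS hw hΛ hs
  set S := ∑ x, ‖w x‖ with hSdef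
  have hp : (0 : ℝ) < p := Nat.cast_pos.2 (Nat.pos_of_ne_zero (NeZero.ne p))
  have hM0 : 0 < M := by linarith
  set k : ℝ := p / (M * S) with hk
  have hk0 : 0 < k := by positivity
  have hn : ∀ x, ‖(k : ℂ) * w x‖ = k * ‖w x‖ := fun x => by
    rw [norm_mul, Complex.norm_real, Real.norm_of_nonneg hk0.le]
  have hsum : ∑ x, ‖(k : ℂ) * w x‖ = k * S := by
    simp only [hn]
    rw [← mul_sum]
  have h := Pool.Agent.Tri.chang (φ := fun x => (k : ℂ) * w x) (α := 1 / M) (ε := γ) (Λ := Λ)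
    (fun x => by
      rw [hn, hk, div_mul_eq_mul_div, div_le_one (by positivity), mul_comm]
      exact hw x) (by positivity) hγ hγ1 (by
      rw [hsum, hk]
      exact le_of_eq (by field_simp)) hΛ fun ξ hξ => by
      have e1 : Pool.Agent.Tri.ft (fun x => (k : ℂ) * w x) ξ =
          (p : ℂ)⁻¹ * ((k : ℂ) * ∑ x, w x * ch (-(ξ * x))) := by
        unfold Pool.Agent.Tri.ft
        rw [mul_sum univ _ (k : ℂ)]
        congr 1
        refine sum_congr rfl fun x _ => ?_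
        rw [mul_assoc, ch, tc, map_neg]
        rfl
      rw [hsum, e1, norm_mul, norm_mul, norm_inv, Complex.norm_natCast, Complex.norm_real,
        Real.norm_of_nonneg hk0.le]
      calc γ * ((p : ℝ)⁻¹ * (k * S)) = (p : ℝ)⁻¹ * (k * (γ * S)) := by ring
        _ ≤ _ := by gcongr; exact hs ξ hξ
  rw [div_mul_eq_mul_div, le_div_iff₀ (by positivity), div_div_eq_mul_div, div_one] at h
  exact h

end Pool.Agent.Lib.MP_9721b5_an
end
end
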