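import Pool.Agent.Lib.MP_9721b5_an.Tri.Stmts
import Pool.Agent.Lib.MP_9721b5_an.Basic
import Pool.Agent.Lib.MP_9721b5_an.Chang

-- part Pool.Agent.Lib.MP_9721b5_an.Tri.Sym
section

/-!
The symmetry argument.
-/

set_option autoImplicit false

open Finset ComplexConjugate Real

namespace Pool.Agent.Tri

namespace SymF

lemma cs {ι κ : Type*} (Z : Finset ι) (A : Finset κ) (b : ι → ℂ) (hb : ∀ z, ‖b z‖ ≤ 1)
    (g : ι → κ → ℂ) : ‖∑ z ∈ Z, b z * ∑ v ∈ A, g z v‖ ^ 2 ≤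
      Z.card * ‖∑ v ∈ A, ∑ v' ∈ A, ∑ z ∈ Z, g z v * conj (g z v')‖ := by
  have h1 : ‖∑ z ∈ Z, b z * ∑ v ∈ A, g z v‖ ≤ ∑ z ∈ Z, ‖∑ v ∈ A, g z v‖ :=
    norm_sum_le_of_le _ fun z _ => by
      rw [norm_mul]; exact mul_le_of_le_one_left (norm_nonneg _) (hb z)
  have h2 : ∑ v ∈ A, ∑ v' ∈ A, ∑ z ∈ Z, g z v * conj (g z v') =
      ((∑ z ∈ Z, ‖∑ v ∈ A, g z v‖ ^ 2 : ℝ) : ℂ) := by
    push_cast
    simp only [← Complex.mul_conj', map_sum, sum_mul_sum]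
    rw [eq_comm, sum_comm]
    exact sum_congr rfl fun v _ => sum_comm
  rw [h2, Complex.norm_real, Real.norm_of_nonneg (sum_nonneg fun _ _ => sq_nonneg _)]
  exact (pow_le_pow_left₀ (norm_nonneg _) h1 2).trans sq_sum_le_card_mul_sum_sq

variable {N : ℕ} [NeZero N]

/-- the antisymmetric form -/
noncomputable def al (L : ZMod N → ZMod N) (v v' : ZMod N) : T := pr (L v') v - pr (L v) v'

lemma step1 (L : ZMod N → ZMod N) (A : Finset (ZMod N)) {b₁ b₂ b₃ : ZMod N → ℂ}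
    (h₁ : ∀ x, ‖b₁ x‖ ≤ 1) (h₂ : ∀ x, ‖b₂ x‖ ≤ 1) (h₃ : ∀ x, ‖b₃ x‖ ≤ 1) :
    ∃ c₁ c₂ : ZMod N → ℂ, (∀ x, ‖c₁ x‖ ≤ 1) ∧ (∀ x, ‖c₂ x‖ ≤ 1) ∧
      ‖∑ v ∈ A, ∑ w, b₁ v * b₂ w * b₃ (v + w) * e (-pr (L v) w)‖ ^ 2 ≤
        (N : ℝ) ^ 2 * ‖∑ v ∈ A, ∑ v' ∈ A, c₁ v * c₂ v' * e (al L v v')‖ := by
  let c₁ : ZMod N → ZMod N → ℂ := fun u v => b₁ v * conj (b₂ (v + u)) * e (-pr (L v) u)
  let c₂ : ZMod N → ZMod N → ℂ := fun u v => conj (b₁ v) * b₂ (v + u) * e (pr (L v) u)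
  have h4 := cs univ A b₃ h₃ fun z v => b₁ v * b₂ (z - v) * e (-pr (L v) (z - v))
  have h5 : ∑ v ∈ A, ∑ w, b₁ v * b₂ w * b₃ (v + w) * e (-pr (L v) w) =
      ∑ z, b₃ z * ∑ v ∈ A, b₁ v * b₂ (z - v) * e (-pr (L v) (z - v)) := by
    simp only [mul_sum]
    rw [sum_comm (s := univ)]
    refine sum_congr rfl fun v _ => ?_
    rw [← Equiv.sum_comp (Equiv.addLeft v) (fun z => b₃ z * _)]
    refine sum_congr rfl fun w _ => ?_
    simp only [Equiv.coe_addLeft, add_sub_cancel_left]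
    ring
  have h6 : ∑ v ∈ A, ∑ v' ∈ A, ∑ z, b₁ v * b₂ (z - v) * e (-pr (L v) (z - v)) *
      conj (b₁ v' * b₂ (z - v') * e (-pr (L v') (z - v'))) =
      ∑ u, ∑ v ∈ A, ∑ v' ∈ A, c₁ u v * c₂ u v' * e (al L v v') := by
    rw [sum_comm (s := univ)]
    refine sum_congr rfl fun v _ => ?_
    rw [sum_comm (s := univ)]
    refine sum_congr rfl fun v' _ => ?_
    rw [← Equiv.sum_comp (Equiv.addLeft (v + v'))]
    refine sum_congr rfl fun u _ => ?_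
    simp only [Equiv.coe_addLeft, show v + v' + u - v = v' + u by ring,
      show v + v' + u - v' = v + u by ring, c₁, c₂, al, pr_add_right, map_mul, ← e_neg, neg_neg,
      neg_add, e_add, sub_eq_add_neg]
    ring
  obtain ⟨u, -, hu⟩ := exists_max_image univ
    (fun u => ‖∑ v ∈ A, ∑ v' ∈ A, c₁ u v * c₂ u v' * e (al L v v')‖) univ_nonempty
  refine ⟨c₁ u, c₂ u, fun x => ?_, fun x => ?_, ?_⟩
  · simp only [c₁, norm_mul, norm_e, mul_one, Complex.norm_conj]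
    exact mul_le_one₀ (h₁ _) (norm_nonneg _) (h₂ _)
  · simp only [c₂, norm_mul, norm_e, mul_one, Complex.norm_conj]
    exact mul_le_one₀ (h₁ _) (norm_nonneg _) (h₂ _)
  · rw [h5]
    refine h4.trans ?_
    rw [h6, card_univ, ZMod.card, sq, mul_assoc]
    refine mul_le_mul_of_nonneg_left ((norm_sum_le _ _).trans ?_) (Nat.cast_nonneg _)
    simpa using sum_le_card_nsmul _ _ _ hu

lemma step2 (L : ZMod N → ZMod N) {A S : Finset (ZMod N)} (hA : A ⊆ S) (hne : A.Nonempty)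
    {c₁ c₂ : ZMod N → ℂ} (h₁ : ∀ x, ‖c₁ x‖ ≤ 1) (h₂ : ∀ x, ‖c₂ x‖ ≤ 1) :
    ∃ v₂, ‖∑ v ∈ A, ∑ v' ∈ A, c₁ v * c₂ v' * e (al L v v')‖ ^ 2 ≤
      (N : ℝ) ^ 2 * ∑ v₁ ∈ A, ‖∑ w ∈ S, e (al L v₁ w - al L v₂ w)‖ := by
  have h4 := cs S A (fun z => if z ∈ A then c₂ z else 0) (fun z => by
    split_ifs
    · exact h₂ z
    · simp) fun z v => c₁ v * e (al L v z)
  have h5 : ∑ v ∈ A, ∑ v' ∈ A, c₁ v * c₂ v' * e (al L v v') =
      ∑ z ∈ S, (if z ∈ A then c₂ z else 0) * ∑ v ∈ A, c₁ v * e (al L v z) := by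
    simp only [ite_mul, zero_mul]
    rw [sum_ite_mem, inter_eq_right.2 hA, sum_comm]
    refine sum_congr rfl fun v' _ => ?_
    rw [mul_sum]
    exact sum_congr rfl fun v _ => by ring
  obtain ⟨v₂, -, hv⟩ := exists_max_image A
    (fun v₂ => ∑ v₁ ∈ A, ‖∑ w ∈ S, e (al L v₁ w - al L v₂ w)‖) hne
  have hc : ∀ X : Finset (ZMod N), (X.card : ℝ) ≤ N := fun X => by
    exact_mod_cast (card_le_univ X).trans_eq (ZMod.card N)
  refine ⟨v₂, ?_⟩
  rw [h5, sq (N : ℝ), mul_assoc]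
  refine h4.trans (mul_le_mul (hc S) ?_ (norm_nonneg _) (Nat.cast_nonneg _))
  rw [sum_comm]
  refine (norm_sum_le_of_le _ fun v' _ => norm_sum_le_of_le
    (n := fun v₁ => ‖∑ w ∈ S, e (al L v₁ w - al L v' w)‖) _ fun v _ => ?_).trans
    ((sum_le_card_nsmul _ _ _ hv).trans ?_)
  · have : ∑ z ∈ S, c₁ v * e (al L v z) * conj (c₁ v' * e (al L v' z)) =
        c₁ v * conj (c₁ v') * ∑ w ∈ S, e (al L v w - al L v' w) := by
      rw [mul_sum]
      exact sum_congr rfl fun w _ => by rw [e_sub, map_mul]; ring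
    rw [this, norm_mul, norm_mul, Complex.norm_conj]
    exact mul_le_of_le_one_left (norm_nonneg _) (mul_le_one₀ (h₁ _) (norm_nonneg _) (h₁ _))
  · rw [nsmul_eq_mul]
    exact mul_le_mul_of_nonneg_right (hc A) (sum_nonneg fun _ _ => norm_nonneg _)

lemma step0 {f : ZMod N → ℂ} (hf : ∀ x, ‖f x‖ ≤ 1) (L : ZMod N → ZMod N) (A : Finset (ZMod N))
    (h ζ : ZMod N) {a : ℝ} (ha : ∀ v ∈ A, a ≤ ‖ft (dd f (h + v)) (ζ + L v)‖) :
    ∃ b₁ b₂ b₃ : ZMod N → ℂ, (∀ x, ‖b₁ x‖ ≤ 1) ∧ (∀ x, ‖b₂ x‖ ≤ 1) ∧ (∀ x, ‖b₃ x‖ ≤ 1) ∧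
      A.card * (a * N) ≤ ‖∑ v ∈ A, ∑ w, b₁ v * b₂ w * b₃ (v + w) * e (-pr (L v) w)‖ := by
  choose t ht using fun v => exists_phase (ft (dd f (h + v)) (ζ + L v))
  refine ⟨fun v => e (t v), fun w => conj (f w) * e (-pr ζ w), fun z => f (z + h),
    fun x => (norm_e _).le, fun x => by simpa using hf x, fun x => hf _, ?_⟩
  have hN : (N : ℂ) ≠ 0 := Nat.cast_ne_zero.2 (NeZero.ne N)
  have h1 : ∀ v, ∑ w, e (t v) * (conj (f w) * e (-pr ζ w)) * f (v + w + h) * e (-pr (L v) w) =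
      ((‖ft (dd f (h + v)) (ζ + L v)‖ * N : ℝ) : ℂ) := fun v => by
    push_cast
    rw [← ht v, ft, mul_assoc, mul_assoc, mul_comm, mul_assoc, mul_assoc, mul_inv_cancel₀ hN,
      mul_one, sum_mul]
    refine sum_congr rfl fun w _ => ?_
    rw [dd, pr_add_left, neg_add, e_add, show w + (h + v) = v + w + h by ring]
    ring
  simp only [h1]
  rw [← Complex.ofReal_sum, Complex.norm_real]
  refine le_trans ?_ (le_abs_self _)
  rw [← nsmul_eq_mul]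
  exact card_nsmul_le_sum _ _ _ fun v hv =>
    mul_le_mul_of_nonneg_right (ha v hv) (Nat.cast_nonneg _)

lemma core {f : ZMod N → ℂ} (hf : ∀ x, ‖f x‖ ≤ 1) (L : ZMod N → ZMod N) {A S : Finset (ZMod N)}
    (hA : A ⊆ S) (h ζ : ZMod N) {a α δ : ℝ} (ha0 : 0 < a) (hα : 0 < α) (hδ : 0 ≤ δ)
    (ha : ∀ v ∈ A, a ≤ ‖ft (dd f (h + v)) (ζ + L v)‖) (hc : α * N ≤ A.card)
    (hd : 2 * δ ≤ (α * a) ^ 4) :
    ∃ v₂, δ * N ≤ cnt A fun v₁ => δ * N ≤ ‖∑ w ∈ S, e (al L v₁ w - al L v₂ w)‖ := by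
  have hN : (0 : ℝ) < N := Nat.cast_pos.2 (NeZero.pos N)
  have hcard : ∀ X : Finset (ZMod N), (X.card : ℝ) ≤ N := fun X => by
    exact_mod_cast (card_le_univ X).trans_eq (ZMod.card N)
  obtain ⟨b₁, b₂, b₃, h1, h2, h3, h4⟩ := step0 hf L A h ζ ha
  obtain ⟨c₁, c₂, h5, h6, h7⟩ := step1 L A h1 h2 h3
  obtain ⟨v₂, h8⟩ := step2 L hA (card_pos.1 (Nat.cast_pos.1 ((mul_pos hα hN).trans_le hc))) h5 h6
  have h9 : (α * a) ^ 2 * N ^ 2 ≤ ‖∑ v ∈ A, ∑ v' ∈ A, c₁ v * c₂ v' * e (al L v v')‖ := by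
    refine le_of_mul_le_mul_left (le_trans ?_ h7) (pow_pos hN 2)
    refine le_trans (le_of_eq (by ring)) (pow_le_pow_left₀ (by positivity)
      ((mul_le_mul_of_nonneg_right hc (by positivity)).trans h4) 2)
  have h10 : (α * a) ^ 4 * N ^ 2 ≤ ∑ v₁ ∈ A, ‖∑ w ∈ S, e (al L v₁ w - al L v₂ w)‖ := by
    refine le_of_mul_le_mul_left (le_trans ?_ h8) (pow_pos hN 2)
    exact le_trans (le_of_eq (by ring)) (pow_le_pow_left₀ (by positivity) h9 2)
  refine ⟨v₂, le_trans ?_ (cnt_rev_markov A _ hN (fun v _ => ?_) (by positivity))⟩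
  · rw [le_div_iff₀ hN]
    have := mul_le_mul_of_nonneg_left (hcard A) (by positivity : 0 ≤ δ * N)
    have := mul_le_mul_of_nonneg_right hd (by positivity : (0 : ℝ) ≤ N ^ 2)
    nlinarith
  · exact (norm_sum_le_of_le (n := fun _ => 1) _ fun w _ => (norm_e _).le).trans
      (by simpa using hcard S)

/-- the pairing as a homomorphism -/
noncomputable def prH (θ : ZMod N) : ZMod N →+ T := AddMonoidHom.mk' (pr θ) (pr_add_right θ)

lemma dense_ball {p : ℝ} (hp : 2 ≤ p) {R Θ : Finset (ZMod N)} (hR : exp (-p) * N ≤ R.card)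
    (hΘ : (Θ.card : ℝ) ≤ p) : ∃ h ∈ R, ∃ A : Finset (ZMod N),
      exp (-(p + 2 * p ^ 2)) * N ≤ A.card ∧ ∀ v ∈ A, h + v ∈ R ∧ InN Θ (exp (-p) / 4) v := by
  classical
  have hN : (0 : ℝ) < N := Nat.cast_pos.2 (NeZero.pos N)
  obtain ⟨h, h1, h2⟩ := ball_count Θ prH (R := 1 / 2) (r := exp (-p) / 4) (by positivity)
    (by norm_num) R (card_pos.1 (Nat.cast_pos.1 ((mul_pos (exp_pos _) hN).trans_le hR)))
    fun x _ i _ => norm_T_le _
  refine ⟨h, h1, univ.filter fun v => h + v ∈ R ∧ InN Θ (exp (-p) / 4) v, ?_, fun v hv =>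
    (mem_filter.1 hv).2⟩
  have h3 := cnt_le_of_inj (S := R) (S' := univ)
    (P := fun x => ∀ i ∈ Θ, ‖prH i (x - h)‖ ≤ exp (-p) / 4)
    (Q := fun v => h + v ∈ R ∧ InN Θ (exp (-p) / 4) v) (fun x => x - h)
    (fun x hx H => ⟨mem_univ _, by simpa using hx, H⟩) fun x _ y _ _ _ H => sub_left_injective H
  rw [cnt_eq_card univ] at h3
  have h4 : (2 * (1 / 2) / (exp (-p) / 4) + 1) ^ Θ.card ≤ exp (2 * p ^ 2) := by
    have h5 : 2 * (1 / 2) / (exp (-p) / 4) + 1 ≤ exp (p + 2) := by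
      have := add_one_le_exp 1
      have := add_one_le_exp p
      have h6 : exp (p + 2) = exp p * (exp 1 * exp 1) := by rw [← exp_add, ← exp_add]; norm_num
      have h7 : 2 * (1 / 2) / (exp (-p) / 4) = 4 * exp p := by rw [exp_neg]; field_simp
      have h8 : 5 ≤ exp 1 * exp 1 := by nlinarith [exp_one_gt_d9]
      rw [h6, h7]
      nlinarith
    refine (pow_le_pow_left₀ (by positivity) h5 _).trans ?_
    rw [← exp_nat_mul, exp_le_exp]
    nlinarith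
  have h5 := hR.trans (h2.trans (mul_le_mul h4 h3 (cnt_nonneg _ _) (exp_pos _).le))
  refine le_of_mul_le_mul_left (le_trans (le_of_eq ?_) h5) (exp_pos _)
  rw [← mul_assoc, ← exp_add]
  congr 2
  ring

end SymF

open SymF in
theorem sym (hS : SandersStmt) : SymStmt := by
  classical
  obtain ⟨C, hC⟩ := hS
  refine ⟨6 * C + 7, fun p hp N _ f hf R Θ ξ L hR hΘ hL hG hm => ?_⟩
  have hN : (0 : ℝ) < N := Nat.cast_pos.2 (NeZero.pos N)
  have hp1 : 1 ≤ p := by linarith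
  have hp4 : 16 ≤ p ^ 4 := le_trans (by norm_num) (pow_le_pow_left₀ (by norm_num) hp 4)
  have hp6 : 16 * p ^ 2 ≤ p ^ 6 := by nlinarith [sq_nonneg p]
  have hr := exp_pos (-p)
  have hr1 : exp (-p) ≤ 1 := exp_le_one_iff.2 (by linarith)
  obtain ⟨h, h1, A, h2, h3⟩ := dense_ball hp hR hΘ
  have he : 2 ≤ exp 1 := by linarith [add_one_le_exp 1]
  obtain ⟨S, hS⟩ := exists_regBohr Θ (r := exp (-p) / 2) (s := exp (-(p ^ 6 + 3 * p + 6)))
    (η := exp (-(p ^ 6 + p + 2))) (by positivity) (exp_pos _)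
    (exp_le_one_iff.2 (by nlinarith)) (by
      have h4 : exp (-(p ^ 6 + p + 2)) = exp 1 ^ 4 * exp (2 * p) * exp (-(p ^ 6 + 3 * p + 6)) := by
        rw [← exp_nat_mul, ← exp_add, ← exp_add]; congr 1; push_cast; ring
      rw [h4]
      refine mul_le_mul_of_nonneg_right (mul_le_mul (le_trans (by norm_num)
        (pow_le_pow_left₀ (by norm_num) he 4)) ?_ (by positivity) (by positivity)) (exp_pos _).le
      linarith [add_one_le_exp (2 * p)])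
  obtain ⟨v₂, h4⟩ := core hf L (A := A) (S := S) (fun v hv => hS.half v
    ((bohrF_mem (by positivity) _ _).2 ((h3 v hv).2.mono Subset.rfl (by linarith)))) h (ξ h)
    (δ := exp (-p ^ 6)) hr (exp_pos _) (exp_pos _).le (fun v hv => by
      have h5 := hG h h1 _ (h3 v hv).1 (by
        simpa using (h3 v hv).2.mono Subset.rfl (by linarith))
      have h6 := hm _ (h3 v hv).1
      rw [add_sub_cancel_left, sub_eq_iff_eq_add'] at h5
      rw [mm, h5] at h6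
      by_contra! h7
      nlinarith [norm_nonneg (ft (dd f (h + v)) (ξ h + L v))]) h2 (by
      rw [← exp_add, ← exp_nat_mul]
      refine (mul_le_mul_of_nonneg_right he (exp_pos _).le).trans ?_
      rw [← exp_add, exp_le_exp]
      push_cast
      nlinarith)
  rw [cnt_eq_card] at h4
  obtain ⟨Θ', h5, h6⟩ := hC (p ^ 6) (by nlinarith) N _ h4
  have h7 : (p ^ 6) ^ C ≤ p ^ (6 * C + 1) := by
    rw [← pow_mul]; exact pow_le_pow_right₀ hp1 (by omega)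
  refine ⟨Θ ∪ Θ', ?_, fun b t hb ht => ?_⟩
  · have h8 : p ≤ p ^ (6 * C + 1) := le_self_pow₀ hp1 (by omega)
    have h9 : p ^ (6 * C + 1) * p ≤ p ^ (6 * C + 7) := by
      rw [← pow_succ]; exact pow_le_pow_right₀ hp1 (by omega)
    have h10 : ((Θ ∪ Θ').card : ℝ) ≤ Θ.card + Θ'.card := by exact_mod_cast card_union_le _ _
    nlinarith
  have h8 : InN Θ (exp (-(p ^ 6 + 3 * p + 6)) * (exp (-p) / 2)) t := by
    refine ht.mono subset_union_left ?_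
    have h9 : p ^ 6 * p ≤ p ^ (6 * C + 7) := by
      rw [← pow_succ]; exact pow_le_pow_right₀ hp1 (by omega)
    rw [← mul_div_assoc, le_div_iff₀ two_pos, ← exp_add]
    refine (mul_le_mul_of_nonneg_left he (exp_pos _).le).trans ?_
    rw [← exp_add, exp_le_exp]
    nlinarith
  have h9 : InN Θ (exp (-p)) t := h8.mono Subset.rfl (by
    have : exp (-(p ^ 6 + 3 * p + 6)) ≤ 1 := exp_le_one_iff.2 (by nlinarith)
    nlinarith)
  have h10 : ∀ v ∈ A.filter fun v₁ => exp (-p ^ 6) * N ≤ ‖∑ w ∈ S, e (al L v₁ w - al L v₂ w)‖,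
      InN Θ (exp (-p) / 4) v ∧ ‖al L v t - al L v₂ t‖ ≤ exp (-p) / 4 := fun v hv => by
    rw [mem_filter] at hv
    refine ⟨(h3 v hv.1).2, (Inv.phase (ε := 0) (hS.inv ((bohrF_mem (by positivity) _ _).2 h8))
      ⟨0, hS.zero_mem⟩ (F := fun w => al L v w - al L v₂ w) (fun w hw => ?_) (exp_pos (-p ^ 6))
      (le_trans (mul_le_mul_of_nonneg_left ?_ (exp_pos _).le) hv.2)).trans ?_⟩
    · have := hL w t (((bohrF_mem (by positivity) _ _).1 (hS.one w hw)).mono Subset.rfl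
        (by linarith)) h9
      simp only [al, this, pr_add_left, pr_add_right]
      rw [norm_le_zero_iff]
      abel
    · exact_mod_cast (card_le_univ S).trans_eq (ZMod.card N)
    · rw [mul_zero, add_zero, ← exp_sub, le_div_iff₀ four_pos]
      have : (4 : ℝ) ≤ exp 1 * exp 1 := by nlinarith
      refine (mul_le_mul_of_nonneg_left this (exp_pos _).le).trans ?_
      rw [← exp_add, ← exp_add, exp_le_exp]
      linarith
  obtain ⟨a₁, m₁, a₂, m₂, a₃, m₃, a₄, m₄, rfl⟩ := h6 b (hb.mono subset_union_right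
    (exp_le_exp.2 (neg_le_neg (h7.trans (pow_le_pow_right₀ hp1 (by omega))))))
  obtain ⟨i₁, n₁⟩ := h10 _ m₁
  obtain ⟨i₂, n₂⟩ := h10 _ m₂
  obtain ⟨i₃, n₃⟩ := h10 _ m₃
  obtain ⟨i₄, n₄⟩ := h10 _ m₄
  have q : exp (-p) / 4 ≤ exp (-p) := by linarith
  have e1 := hL a₁ a₂ (i₁.mono Subset.rfl q) (i₂.mono Subset.rfl q)
  have e2 := hL a₃ a₄ (i₃.mono Subset.rfl q) (i₄.mono Subset.rfl q)
  have e3 := hL (a₁ + a₂ - a₃ - a₄) (a₃ + a₄)
    ((((i₁.add i₂).sub i₃).sub i₄).mono Subset.rfl (by linarith))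
    ((i₃.add i₄).mono Subset.rfl (by linarith))
  rw [show a₁ + a₂ - a₃ - a₄ + (a₃ + a₄) = a₁ + a₂ by ring, e1, e2, ← sub_eq_iff_eq_add] at e3
  have e4 : pr (L (a₁ + a₂ - a₃ - a₄)) t - pr (L t) (a₁ + a₂ - a₃ - a₄) =
      (al L a₃ t - al L v₂ t) + (al L a₄ t - al L v₂ t) - (al L a₁ t - al L v₂ t) -
        (al L a₂ t - al L v₂ t) := by
    simp only [← e3, al, pr_add_left, pr_add_right, pr_sub_left, pr_sub_right]
    abel
  rw [e4]
  refine (norm_sub_le _ _).trans ((add_le_add_left ((norm_sub_le _ _).trans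
    (add_le_add_left (norm_add_le _ _) _)) _).trans (by linarith))

end Pool.Agent.Tri
end

-- part Pool.Agent.Lib.MP_9721b5_an.Cyc
section

/-! Fourier analysis and Bohr sets in cyclic groups. -/

set_option autoImplicit false
set_option linter.unusedSectionVars false
set_option linter.unusedVariables false

open Finset
open scoped Classical ComplexConjugate Pointwise

noncomputable section

namespace Pool.Agent.Lib.MP_9721b5_an

variable {p : ℕ} [NeZero p]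

lemma tc_add (x y : ZMod p) : tc (x + y) = tc x + tc y :=
  map_add ZMod.toAddCircle x y

@[simp] lemma tc_zero : tc (0 : ZMod p) = 0 :=
  map_zero ZMod.toAddCircle

lemma tc_neg (x : ZMod p) : tc (-x) = -tc x :=
  map_neg ZMod.toAddCircle x

lemma tc_sub (x y : ZMod p) : tc (x - y) = tc x - tc y :=
  map_sub ZMod.toAddCircle x y

lemma tc_sum {α : Type*} (s : Finset α) (f : α → ZMod p) :
    tc (∑ a ∈ s, f a) = ∑ a ∈ s, tc (f a) :=
  map_sum ZMod.toAddCircle f s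

lemma zsmul_tc (n : ℤ) (x : ZMod p) : n • tc x = tc ((n : ZMod p) * x) := by
  unfold tc
  rw [← map_zsmul, zsmul_eq_mul]

lemma tc_intCast (j : ℤ) : tc (j : ZMod p) = (((j : ℝ) / p : ℝ) : Tor) :=
  ZMod.toAddCircle_intCast j

lemma tc_val (x : ZMod p) : tc x = (((x.val : ℝ) / p : ℝ) : Tor) :=
  ZMod.toAddCircle_apply x

/-- The map x -> tc (x * u) as an additive homomorphism. -/
def tcMul (u : ZMod p) : ZMod p →+ Tor where
  toFun x := tc (x * u)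
  map_zero' := by simp
  map_add' x y := by rw [add_mul, tc_add]

lemma ch_add (x y : ZMod p) : ch (x + y) = ch x * ch y := by
  unfold ch; rw [tc_add, ex_add]

@[simp] lemma ch_zero : ch (0 : ZMod p) = 1 := by
  unfold ch; simp

@[simp] lemma norm_ch (x : ZMod p) : ‖ch x‖ = 1 :=
  norm_ex _

lemma conj_ch (x : ZMod p) : conj (ch x) = ch (-x) := by
  unfold ch; rw [conj_ex, tc_neg]

lemma ch_mul_neg (x : ZMod p) : ch x * ch (-x) = 1 := by
  rw [← ch_add]; simp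

lemma ch_sub (x y : ZMod p) : ch (x - y) = ch x * conj (ch y) := by
  rw [conj_ch, sub_eq_add_neg, ch_add]

lemma ch_sub_one_le (x : ZMod p) : ‖ch x - 1‖ ≤ 2 * Real.pi * nm x :=
  ex_sub_one_le _

lemma ch_sub_ch_le (x y : ZMod p) : ‖ch x - ch y‖ ≤ 2 * Real.pi * nm (x - y) := by
  unfold nm; rw [tc_sub]; exact ex_sub_ex_le _ _

lemma four_nm_le (x : ZMod p) : 4 * nm x ≤ ‖ch x - 1‖ :=
  four_norm_le _

lemma nm_nonneg (x : ZMod p) : 0 ≤ nm x :=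
  norm_nonneg _

@[simp] lemma nm_zero : nm (0 : ZMod p) = 0 := by
  unfold nm; simp

@[simp] lemma nm_neg (x : ZMod p) : nm (-x) = nm x := by
  unfold nm; rw [tc_neg, norm_neg]

lemma nm_add_le (x y : ZMod p) : nm (x + y) ≤ nm x + nm y := by
  unfold nm; rw [tc_add]; exact norm_add_le _ _

lemma nm_sub_le (x y : ZMod p) : nm (x - y) ≤ nm x + nm y := by
  unfold nm; rw [tc_sub]; exact norm_sub_le _ _

lemma nm_sum_le {α : Type*} (s : Finset α) (f : α → ZMod p) :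
    nm (∑ a ∈ s, f a) ≤ ∑ a ∈ s, nm (f a) := by
  unfold nm; rw [tc_sum]; exact norm_sum_le _ _

lemma nm_intCast_mul_le (n : ℤ) (x : ZMod p) : nm ((n : ZMod p) * x) ≤ |(n : ℝ)| * nm x := by
  unfold nm; rw [← zsmul_tc]; exact norm_zsmul_le' _ _

lemma nm_intCast_le (j : ℤ) : nm (j : ZMod p) ≤ |(j : ℝ)| / p := by
  unfold nm
  rw [tc_intCast]
  refine (norm_coe_le _).trans ?_
  rw [abs_div, Nat.abs_cast]

lemma nm_sub_le_val (x y : ZMod p) : nm (x - y) ≤ |(x.val : ℝ) - y.val| / p := by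
  have h := nm_intCast_le (p := p) ((x.val : ℤ) - y.val)
  push_cast at h
  simpa using h

lemma nm_inSpan {E : Finset (ZMod p)} {v : ZMod p} (h : InSpan E v) (u : ZMod p) (θ : ℝ)
    (hE : ∀ a ∈ E, nm (a * u) ≤ θ) : nm (v * u) ≤ E.card * θ :=
  h.norm_le (tcMul u) θ hE

/-- The number of residues of small norm. -/
lemma card_nm_le (θ : ℝ) (hθ : 0 ≤ θ) :
    (((univ : Finset (ZMod p)).filter fun x => nm x ≤ θ).card : ℝ) ≤ 2 * θ * p + 1 := by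
  have hp : (0 : ℝ) < p := by exact_mod_cast NeZero.pos p
  have h1 : ((univ : Finset (ZMod p)).filter fun x => nm x ≤ θ).card ≤
      (Icc (-(⌊θ * p⌋₊ : ℤ)) ⌊θ * p⌋₊).card := by
    refine card_le_card_of_injOn ZMod.valMinAbs ?_ ZMod.injective_valMinAbs.injOn
    intro x hx
    have hx' : nm x ≤ θ := (mem_filter.1 (mem_coe.1 hx)).2
    have h2 : |((x.valMinAbs : ℝ) / p)| ≤ |(1 : ℝ)| / 2 := by
      have h3 := x.valMinAbs_mem_Ioc
      have h4 : (-(p : ℝ)) < (x.valMinAbs : ℝ) * 2 := by exact_mod_cast h3.1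
      have h5 : (x.valMinAbs : ℝ) * 2 ≤ p := by exact_mod_cast h3.2
      rw [abs_div, Nat.abs_cast, abs_one, div_le_iff₀ hp, abs_le]
      constructor <;> linarith
    have h6 := (AddCircle.norm_coe_eq_abs_iff (1 : ℝ) one_ne_zero).2 h2
    have h7 : nm x = |((x.valMinAbs : ℝ) / p)| := by
      rw [← h6]; unfold nm; rw [← tc_intCast, ZMod.coe_valMinAbs]
    rw [h7, abs_div, Nat.abs_cast, div_le_iff₀ hp] at hx'
    have h8 : x.valMinAbs.natAbs ≤ ⌊θ * p⌋₊ := by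
      apply Nat.le_floor
      rw [Nat.cast_natAbs]
      exact_mod_cast hx'
    rw [mem_coe, mem_Icc]
    omega
  rw [Int.card_Icc] at h1
  have h9 : ((⌊θ * p⌋₊ : ℤ) + 1 - -(⌊θ * p⌋₊ : ℤ)).toNat = 2 * ⌊θ * p⌋₊ + 1 := by omega
  rw [h9] at h1
  have h10 : (⌊θ * p⌋₊ : ℝ) ≤ θ * p := Nat.floor_le (by positivity)
  have h11 : ((((univ : Finset (ZMod p)).filter fun x => nm x ≤ θ).card : ℕ) : ℝ) ≤
      2 * (⌊θ * p⌋₊ : ℝ) + 1 := by exact_mod_cast h1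
  linarith

lemma exists_tc_near (x : Tor) : ∃ j : ZMod p, ‖x - tc j‖ ≤ 1 / p := by
  have hp : (0 : ℝ) < p := by exact_mod_cast NeZero.pos p
  obtain ⟨r, rfl, -, -⟩ := exists_rep x
  refine ⟨(⌊r * p⌋ : ℤ), ?_⟩
  rw [tc_intCast, ← AddCircle.coe_sub]
  refine (norm_coe_le _).trans ?_
  have h1 := Int.floor_le (r * p)
  have h2 := Int.lt_floor_add_one (r * p)
  have : r - (⌊r * p⌋ : ℝ) / p = (r * p - ⌊r * p⌋) / p := by field_simp
  rw [this, abs_div, Nat.abs_cast]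
  gcongr
  rw [abs_le]; constructor <;> linarith

lemma sum_ch_mul (ξ : ZMod p) : ∑ x, ch (ξ * x) = if ξ = 0 then (p : ℂ) else 0 := by
  have h := AddChar.sum_mulShift (R := ZMod p) (R' := ℂ) ξ (ZMod.isPrimitive_stdAddChar p)
  simp only [ZMod.card] at h
  have h2 : ∀ x : ZMod p, ch (ξ * x) = ZMod.stdAddChar (x * ξ) := fun x => by
    rw [mul_comm]; rfl
  simp only [h2]
  rw [h]
  split_ifs <;> simp

lemma ft_inv (f : ZMod p → ℂ) (x : ZMod p) : f x = ∑ ξ, ft f ξ * ch (ξ * x) := by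
  have hp : (p : ℂ) ≠ 0 := by exact_mod_cast NeZero.ne p
  have h1 : ∀ ξ, ft f ξ * ch (ξ * x) = (∑ y, f y * ch ((x - y) * ξ)) / p := by
    intro ξ
    unfold ft
    rw [div_mul_eq_mul_div, sum_mul]
    congr 1
    refine sum_congr rfl fun y _ => ?_
    rw [mul_assoc, ← ch_add]; congr 2; ring
  simp only [h1]
  rw [← sum_div, sum_comm]
  simp only [← mul_sum, sum_ch_mul, sub_eq_zero]
  rw [sum_eq_single x]
  · simp [hp]
  · intro y _ hy; simp [hy.symm]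
  · simp

lemma parseval_inner (f g : ZMod p → ℂ) :
    ∑ ξ, ft f ξ * conj (ft g ξ) = (∑ x, f x * conj (g x)) / p := by
  have h1 : ∀ ξ, ft f ξ * conj (ft g ξ) = (∑ x, ft f ξ * ch (ξ * x) * conj (g x)) / p := by
    intro ξ
    conv_lhs => rw [show ft g ξ = (∑ x, g x * ch (-(ξ * x))) / p from rfl]
    rw [map_div₀, map_sum, ← mul_div_assoc, mul_sum, Complex.conj_natCast]
    congr 1
    refine sum_congr rfl fun x _ => ?_
    rw [map_mul, conj_ch, neg_neg]; ring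
  simp only [h1]
  rw [← sum_div, sum_comm]
  congr 1
  refine sum_congr rfl fun x _ => ?_
  rw [← sum_mul, ← ft_inv]

lemma parseval (f : ZMod p → ℂ) : ∑ ξ, ‖ft f ξ‖ ^ 2 = (∑ x, ‖f x‖ ^ 2) / p := by
  have h := parseval_inner f f
  simp only [Complex.mul_conj, Complex.normSq_eq_norm_sq] at h
  exact_mod_cast h

lemma parseval_le_one (f : ZMod p → ℂ) (hf : ∀ x, ‖f x‖ ≤ 1) : ∑ ξ, ‖ft f ξ‖ ^ 2 ≤ 1 := by
  have hp : (0 : ℝ) < p := by exact_mod_cast NeZero.pos p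
  rw [parseval, div_le_one hp]
  have := sum_le_card_nsmul univ (fun x => ‖f x‖ ^ 2) 1 fun x _ =>
    pow_le_one₀ (norm_nonneg _) (hf x)
  simpa using this

lemma norm_ft_le (f : ZMod p → ℂ) (ξ : ZMod p) : ‖ft f ξ‖ ≤ (∑ x, ‖f x‖) / p := by
  unfold ft
  rw [norm_div, Complex.norm_natCast]
  gcongr
  refine (norm_sum_le _ _).trans (le_of_eq ?_)
  simp

lemma ft_shift (f : ZMod p → ℂ) (a ξ : ZMod p) :
    ft (fun x => f (x + a)) ξ = ft f ξ * ch (ξ * a) := by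
  unfold ft
  rw [div_mul_eq_mul_div, sum_mul]
  congr 1
  rw [← Equiv.sum_comp (Equiv.addRight a) (fun x => f x * ch (-(ξ * x)) * ch (ξ * a))]
  refine sum_congr rfl fun x _ => ?_
  simp only [Equiv.coe_addRight]
  rw [mul_assoc, ← ch_add]; congr 2; ring

/-- Correlation: sum over h of a(h) b(x+h) in Fourier terms. -/
lemma corr_eq (a b : ZMod p → ℂ) (x : ZMod p) :
    ∑ h, a h * b (x + h) = ∑ ξ, (p * ft a (-ξ) * ft b ξ) * ch (ξ * x) := by
  have hp : (p : ℂ) ≠ 0 := by exact_mod_cast NeZero.ne p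
  have h1 : ∀ h, a h * b (x + h) = ∑ ξ, a h * ch (-(-ξ * h)) * (ft b ξ * ch (ξ * x)) := by
    intro h
    conv_lhs => rw [ft_inv b (x + h), mul_sum]
    refine sum_congr rfl fun ξ _ => ?_
    rw [mul_add, ch_add, neg_mul, neg_neg]; ring
  simp only [h1]
  rw [sum_comm]
  refine sum_congr rfl fun ξ _ => ?_
  rw [← sum_mul]
  unfold ft
  field_simp

lemma norm_dl_le {g : ZMod p → ℂ} (hg : ∀ x, ‖g x‖ ≤ 1) (t x : ZMod p) : ‖dl g t x‖ ≤ 1 := by
  unfold dl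
  rw [norm_mul, Complex.norm_conj]
  exact mul_le_one₀ (hg _) (norm_nonneg _) (hg _)

lemma sum_Ico_zmod {M : Type*} [AddCommMonoid M] (F : ZMod p → M) (y0 : ℤ) :
    ∑ y ∈ Ico y0 (y0 + p), F (y : ZMod p) = ∑ x, F x := by
  refine sum_bij (fun y _ => (y : ZMod p)) (fun _ _ => mem_univ _) ?_ ?_ (fun _ _ => rfl)
  · intro a ha b hb hab
    rw [mem_Ico] at ha hb
    have h1 : (p : ℤ) ∣ b - a := (ZMod.intCast_eq_intCast_iff_dvd_sub a b p).1 hab
    have h2 := Int.eq_zero_of_abs_lt_dvd h1 (by rw [abs_lt]; constructor <;> omega)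
    omega
  · intro x _
    refine ⟨y0 + ((x - y0).val : ℤ), ?_, by simp⟩
    have := ZMod.val_lt (x - (y0 : ZMod p))
    rw [mem_Ico]; omega

lemma mem_bohr {Γ : Finset (ZMod p)} {ρ : ℝ} {x : ZMod p} :
    x ∈ bohr Γ ρ ↔ ∀ γ ∈ Γ, nm (γ * x) ≤ ρ := by
  simp [bohr]

lemma bohr_mono {Γ Γ' : Finset (ZMod p)} {ρ ρ' : ℝ} (hΓ : Γ ⊆ Γ') (hρ : ρ' ≤ ρ) :
    bohr Γ' ρ' ⊆ bohr Γ ρ := by
  intro x hx
  rw [mem_bohr] at hx ⊢
  exact fun γ hγ => (hx γ (hΓ hγ)).trans hρ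

lemma zero_mem_bohr (Γ : Finset (ZMod p)) {ρ : ℝ} (hρ : 0 ≤ ρ) : (0 : ZMod p) ∈ bohr Γ ρ := by
  rw [mem_bohr]; intro γ _; simpa using hρ

lemma card_bohr_pos (Γ : Finset (ZMod p)) {ρ : ℝ} (hρ : 0 ≤ ρ) : 0 < (bohr Γ ρ).card :=
  card_pos.2 ⟨0, zero_mem_bohr Γ hρ⟩

lemma neg_mem_bohr {Γ : Finset (ZMod p)} {ρ : ℝ} {x : ZMod p} (h : x ∈ bohr Γ ρ) :
    -x ∈ bohr Γ ρ := by
  rw [mem_bohr] at h ⊢
  intro γ hγ; rw [mul_neg, nm_neg]; exact h γ hγ

lemma add_mem_bohr {Γ : Finset (ZMod p)} {ρ ρ' : ℝ} {x y : ZMod p} (hx : x ∈ bohr Γ ρ)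
    (hy : y ∈ bohr Γ ρ') : x + y ∈ bohr Γ (ρ + ρ') := by
  rw [mem_bohr] at hx hy ⊢
  intro γ hγ; rw [mul_add]; exact (nm_add_le _ _).trans (add_le_add (hx γ hγ) (hy γ hγ))

lemma sub_mem_bohr {Γ : Finset (ZMod p)} {ρ ρ' : ℝ} {x y : ZMod p} (hx : x ∈ bohr Γ ρ)
    (hy : y ∈ bohr Γ ρ') : x - y ∈ bohr Γ (ρ + ρ') := by
  rw [sub_eq_add_neg]; exact add_mem_bohr hx (neg_mem_bohr hy)

lemma mem_bohr_of_le {Γ : Finset (ZMod p)} {ρ ρ' : ℝ} {x : ZMod p} (hx : x ∈ bohr Γ ρ)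
    (h : ρ ≤ ρ') : x ∈ bohr Γ ρ' :=
  bohr_mono Subset.rfl h hx

lemma intCast_mul_mem_bohr {Γ : Finset (ZMod p)} {ρ : ℝ} {x : ZMod p} (hx : x ∈ bohr Γ ρ) (n : ℤ) :
    (n : ZMod p) * x ∈ bohr Γ (|(n : ℝ)| * ρ) := by
  rw [mem_bohr] at hx ⊢
  intro γ hγ
  rw [mul_left_comm]
  refine (nm_intCast_mul_le _ _).trans ?_
  gcongr
  exact hx γ hγ

lemma BZ_image (Γ : Finset (ZMod p)) (ρ : ℝ) (h : ℤ) :
    BZ (Γ.image tc) ρ h ↔ (h : ZMod p) ∈ bohr Γ ρ := by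
  rw [mem_bohr]
  unfold BZ nm
  constructor
  · intro H γ hγ
    have := H (tc γ) (mem_image_of_mem _ hγ)
    rwa [zsmul_tc, mul_comm] at this
  · intro H γ hγ
    obtain ⟨γ', h1, rfl⟩ := mem_image.1 hγ
    rw [zsmul_tc, mul_comm]; exact H γ' h1

lemma card_bohr_ge (Γ : Finset (ZMod p)) (n : ℕ) :
    p ≤ 2 ^ (n * Γ.card) * (bohr Γ (hf n)).card := by
  obtain ⟨S, -, h1, h2⟩ := exists_cluster (univ : Finset (ZMod p)) Γ (fun γ x => tc (γ * x)) n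
  rw [card_univ, ZMod.card] at h1
  have hS : S.Nonempty := by
    rw [← card_pos]
    by_contra h
    have h0 : S.card = 0 := by omega
    rw [h0] at h1
    have := NeZero.pos p
    omega
  obtain ⟨a, ha⟩ := hS
  refine h1.trans (Nat.mul_le_mul_left _ ?_)
  refine card_le_card_of_injOn (fun x => x - a) ?_ (fun x _ y _ h => by simpa using h)
  intro x hx
  rw [mem_coe, mem_bohr]
  intro γ hγ
  have := h2 x hx a ha γ hγ
  unfold nm
  rwa [mul_sub, tc_sub]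

lemma card_bohr_ge' (Γ : Finset (ZMod p)) {n K : ℕ} {ρ : ℝ} (hρ : hf n ≤ ρ) (hK : Γ.card ≤ K) :
    p ≤ 2 ^ (n * K) * (bohr Γ ρ).card := by
  refine (card_bohr_ge Γ n).trans (Nat.mul_le_mul ?_ (card_le_card (bohr_mono Subset.rfl hρ)))
  exact Nat.pow_le_pow_right (by norm_num) (Nat.mul_le_mul_left _ hK)

lemma exists_reg (Γ : Finset (ZMod p)) {n K e : ℕ} {ρ w : ℝ} (hK : Γ.card ≤ K) (hρ : hf n ≤ ρ)
    (hw0 : 0 ≤ w) (hw : w * (4 * (n + 2) * (K + 1)) ≤ ρ * hf e) :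
    ∃ ρ' : ℝ, ρ / 2 ≤ ρ' ∧ ρ' ≤ ρ ∧ Reg Γ ρ' w (hf e) := by
  by_contra hcon
  push Not at hcon
  have hρ0 : 0 < ρ := (hf_pos n).trans_le hρ
  set M : ℕ := (n + 2) * (K + 1) * 2 ^ e with hM
  have hM0 : (0 : ℝ) < M := by rw [hM]; positivity
  set δ : ℝ := ρ / (4 * M) with hδ
  have hδ0 : 0 < δ := by positivity
  have hwδ : w ≤ δ := by
    rw [hδ, le_div_iff₀ (by positivity), hM]
    push_cast
    have h1 := hf_mul_two_pow e
    calc w * (4 * ((n + 2) * (K + 1) * 2 ^ e)) = w * (4 * (n + 2) * (K + 1)) * 2 ^ e := by ring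
      _ ≤ ρ * hf e * 2 ^ e := by gcongr
      _ = ρ := by rw [mul_assoc, h1, mul_one]
  have hMδ : M * δ = ρ / 4 := by rw [hδ]; field_simp
  have he := hf_pos e
  have key : ∀ i : ℕ, i ≤ M → (1 + hf e) ^ i * (bohr Γ (ρ / 2)).card ≤
      (bohr Γ (ρ / 2 + 2 * i * δ)).card := by
    intro i
    induction i with
    | zero => simp
    | succ i ih =>
      intro hi
      have ih' := ih (by omega)
      have hi' : (i : ℝ) + 1 ≤ M := by exact_mod_cast hi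
      have hi0 : (0 : ℝ) ≤ i := Nat.cast_nonneg i
      have h1 := hcon (ρ / 2 + (2 * i + 1) * δ) (by nlinarith) (by nlinarith)
      unfold Reg at h1
      push Not at h1
      have h2 : ((bohr Γ (ρ / 2 + 2 * i * δ)).card : ℝ) ≤
          (bohr Γ (ρ / 2 + (2 * i + 1) * δ - w)).card :=
        Nat.cast_le.2 (card_le_card (bohr_mono Subset.rfl (by nlinarith)))
      have h3 : ((bohr Γ (ρ / 2 + (2 * i + 1) * δ + w)).card : ℝ) ≤
          (bohr Γ (ρ / 2 + 2 * ((i + 1 : ℕ) : ℝ) * δ)).card :=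
        Nat.cast_le.2 (card_le_card (bohr_mono Subset.rfl (by push_cast; nlinarith)))
      calc (1 + hf e) ^ (i + 1) * ((bohr Γ (ρ / 2)).card : ℝ)
          = (1 + hf e) * ((1 + hf e) ^ i * (bohr Γ (ρ / 2)).card) := by ring
        _ ≤ (1 + hf e) * (bohr Γ (ρ / 2 + (2 * i + 1) * δ - w)).card := by
          gcongr; exact ih'.trans h2
        _ ≤ _ := h1.le.trans h3
  have h1 := key M le_rfl
  have h2 : ((bohr Γ (ρ / 2 + 2 * M * δ)).card : ℝ) ≤ p := by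
    have := card_le_univ (bohr Γ (ρ / 2 + 2 * M * δ))
    rw [ZMod.card] at this
    exact_mod_cast this
  have h3 : (p : ℝ) ≤ 2 ^ ((n + 1) * K) * (bohr Γ (ρ / 2)).card := by
    exact_mod_cast card_bohr_ge' Γ (n := n + 1) (by rw [hf_succ]; linarith) hK
  have h4 : (0 : ℝ) < (bohr Γ (ρ / 2)).card := by
    exact_mod_cast card_bohr_pos Γ (by linarith)
  have h5 : (2 : ℝ) ≤ (1 + hf e) ^ (2 ^ e) := by
    have := one_add_mul_le_pow (a := hf e) (by linarith) (2 ^ e)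
    have h6 := hf_mul_two_pow e
    push_cast at this
    linarith
  have h7 : (2 : ℝ) ^ ((n + 2) * (K + 1)) ≤ (1 + hf e) ^ M := by
    rw [hM, mul_comm ((n + 2) * (K + 1)), pow_mul (1 + hf e)]
    gcongr
  have h8 : (2 : ℝ) ^ ((n + 1) * K) < 2 ^ ((n + 2) * (K + 1)) :=
    pow_lt_pow_right₀ (by norm_num) (by nlinarith)
  have h9 : (1 + hf e) ^ M ≤ 2 ^ ((n + 1) * K) := le_of_mul_le_mul_right (h1.trans (h2.trans h3)) h4
  linarith

lemma Reg.mono {Γ : Finset (ZMod p)} {ρ w ε w' ε' : ℝ} (h : Reg Γ ρ w ε) (hε0 : 0 ≤ ε)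
    (hw : w' ≤ w) (hε : ε ≤ ε') : Reg Γ ρ w' ε' := by
  unfold Reg at h ⊢
  have h1 : ((bohr Γ (ρ + w')).card : ℝ) ≤ (bohr Γ (ρ + w)).card := by
    exact_mod_cast card_le_card (bohr_mono Subset.rfl (by linarith))
  have h2 : ((bohr Γ (ρ - w)).card : ℝ) ≤ (bohr Γ (ρ - w')).card := by
    exact_mod_cast card_le_card (bohr_mono Subset.rfl (by linarith))
  refine h1.trans (h.trans ?_)
  exact mul_le_mul (by linarith) h2 (Nat.cast_nonneg _) (by linarith)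

lemma Reg.card_add_le {Γ : Finset (ZMod p)} {ρ w ε : ℝ} (h : Reg Γ ρ w ε) (hε0 : 0 ≤ ε)
    (hw : 0 ≤ w) : ((bohr Γ (ρ + w)).card : ℝ) ≤ (1 + ε) * (bohr Γ ρ).card := by
  unfold Reg at h
  have h2 : ((bohr Γ (ρ - w)).card : ℝ) ≤ (bohr Γ ρ).card := by
    exact_mod_cast card_le_card (bohr_mono Subset.rfl (by linarith))
  refine h.trans ?_
  gcongr

lemma Reg.card_sdiff_le {Γ : Finset (ZMod p)} {ρ w ε : ℝ} (h : Reg Γ ρ w ε) (hε0 : 0 ≤ ε)
    (hw : 0 ≤ w) : ((bohr Γ (ρ + w) \ bohr Γ (ρ - w)).card : ℝ) ≤ ε * (bohr Γ ρ).card := by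
  unfold Reg at h
  have h1 : bohr Γ (ρ - w) ⊆ bohr Γ (ρ + w) := bohr_mono Subset.rfl (by linarith)
  have h2 : ((bohr Γ (ρ - w)).card : ℝ) ≤ (bohr Γ ρ).card := by
    exact_mod_cast card_le_card (bohr_mono Subset.rfl (by linarith))
  rw [card_sdiff_of_subset h1, Nat.cast_sub (card_le_card h1)]
  nlinarith

lemma Reg.shift {Γ : Finset (ZMod p)} {ρ w ε : ℝ} (h : Reg Γ ρ w ε) (hε0 : 0 ≤ ε) (hw : 0 ≤ w)
    (F : ZMod p → ℂ) (hF : ∀ x, ‖F x‖ ≤ 1) {u : ZMod p} (hu : u ∈ bohr Γ w) :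
    ‖∑ x ∈ bohr Γ ρ, F (x + u) - ∑ x ∈ bohr Γ ρ, F x‖ ≤ 2 * ε * (bohr Γ ρ).card := by
  have h1 : ∑ x ∈ bohr Γ ρ, F (x + u) = ∑ x ∈ (bohr Γ ρ).image (fun x => x + u), F x := by
    rw [sum_image (fun x _ y _ h => by simpa using h)]
  rw [h1]
  refine (norm_sum_sub_sum_le _ _ F hF).trans ?_
  have h2 := h.card_sdiff_le hε0 hw
  have h3 : (bohr Γ ρ).image (fun x => x + u) \ bohr Γ ρ ⊆ bohr Γ (ρ + w) \ bohr Γ (ρ - w) := by
    intro y hy
    obtain ⟨hy1, hy2⟩ := mem_sdiff.1 hy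
    obtain ⟨x, hx, rfl⟩ := mem_image.1 hy1
    exact mem_sdiff.2 ⟨add_mem_bohr hx hu, fun h' => hy2 (mem_bohr_of_le h' (by linarith))⟩
  have h4 : bohr Γ ρ \ (bohr Γ ρ).image (fun x => x + u) ⊆ bohr Γ (ρ + w) \ bohr Γ (ρ - w) := by
    intro y hy
    obtain ⟨hy1, hy2⟩ := mem_sdiff.1 hy
    refine mem_sdiff.2 ⟨mem_bohr_of_le hy1 (by linarith), fun h' => hy2 ?_⟩
    exact mem_image.2 ⟨y - u, mem_bohr_of_le (sub_mem_bohr h' hu) (by linarith), by simp⟩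
  have h5 : (((bohr Γ ρ).image (fun x => x + u) \ bohr Γ ρ).card : ℝ) ≤
      (bohr Γ (ρ + w) \ bohr Γ (ρ - w)).card := by exact_mod_cast card_le_card h3
  have h6 : ((bohr Γ ρ \ (bohr Γ ρ).image (fun x => x + u)).card : ℝ) ≤
      (bohr Γ (ρ + w) \ bohr Γ (ρ - w)).card := by exact_mod_cast card_le_card h4
  linarith

lemma exists_translate (T Y : Finset (ZMod p)) :
    ∃ z : ZMod p, T.card * Y.card ≤ p * (Y.filter fun y => z + y ∈ T).card := by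
  obtain ⟨z, -, hz⟩ := (univ : Finset (ZMod p)).exists_max_image
    (fun z => (Y.filter fun y => z + y ∈ T).card) univ_nonempty
  refine ⟨z, ?_⟩
  have h1 : ∑ z : ZMod p, (Y.filter fun y => z + y ∈ T).card = T.card * Y.card := by
    simp only [card_filter]
    rw [sum_comm]
    have : ∀ y ∈ Y, (∑ z : ZMod p, if z + y ∈ T then 1 else 0) = T.card := by
      intro y _
      have := Equiv.sum_comp (Equiv.addRight y) (fun z => if z ∈ T then (1 : ℕ) else 0)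
      simp only [Equiv.coe_addRight] at this
      have h2 : (∑ i : ZMod p, if i ∈ T then (1 : ℕ) else 0) = T.card := by simp
      rw [← h2]
      convert this
    rw [sum_congr rfl this, sum_const, smul_eq_mul, mul_comm]
  rw [← h1]
  simpa using sum_le_card_nsmul univ _ _ hz

lemma recenter {Γ : Finset (ZMod p)} {ρ w ε : ℝ} (h : Reg Γ ρ w ε) (hε0 : 0 ≤ ε) (hw : 0 ≤ w)
    (hρ : 0 ≤ ρ) (T X : Finset (ZMod p)) (hX : X ⊆ bohr Γ w) (τ : ZMod p) (σ : ℝ)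
    (hσ : σ * (bohr Γ ρ).card ≤ (((bohr Γ ρ).filter fun y => τ + y ∈ T).card : ℝ)) :
    ∃ y0 ∈ bohr Γ ρ, (σ - 2 * ε) * X.card ≤ ((X.filter fun x => τ + y0 + x ∈ T).card : ℝ) := by
  obtain ⟨y0, hy0, hmax⟩ := (bohr Γ ρ).exists_max_image
    (fun y0 => (X.filter fun x => τ + y0 + x ∈ T).card) ⟨0, zero_mem_bohr Γ hρ⟩
  refine ⟨y0, hy0, ?_⟩
  have hB : (0 : ℝ) < (bohr Γ ρ).card := by exact_mod_cast card_bohr_pos Γ hρ
  have h1 : ∀ x ∈ X, (σ - 2 * ε) * (bohr Γ ρ).card ≤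
      (((bohr Γ ρ).filter fun y => τ + y + x ∈ T).card : ℝ) := by
    intro x hx
    have h2 := h.shift hε0 hw (fun y => if τ + y ∈ T then 1 else 0)
      (fun y => by split_ifs <;> simp) (hX hx)
    simp only [← add_assoc, sum_boole] at h2
    rw [← Complex.ofReal_natCast, ← Complex.ofReal_natCast, ← Complex.ofReal_sub,
      Complex.norm_real, Real.norm_eq_abs, abs_le] at h2
    linarith [h2.1]
  have h3 : ∑ x ∈ X, ((bohr Γ ρ).filter fun y => τ + y + x ∈ T).card =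
      ∑ y ∈ bohr Γ ρ, (X.filter fun x => τ + y + x ∈ T).card := by
    simp only [card_filter]; rw [sum_comm]
  have h4 : ∑ y ∈ bohr Γ ρ, (X.filter fun x => τ + y + x ∈ T).card ≤
      (bohr Γ ρ).card * (X.filter fun x => τ + y0 + x ∈ T).card := by
    simpa using sum_le_card_nsmul _ _ _ hmax
  have h5 := card_nsmul_le_sum X _ _ h1
  rw [nsmul_eq_mul, ← Nat.cast_sum, h3] at h5
  have h6 : ((∑ y ∈ bohr Γ ρ, (X.filter fun x => τ + y + x ∈ T).card : ℕ) : ℝ) ≤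
      (bohr Γ ρ).card * (X.filter fun x => τ + y0 + x ∈ T).card := by exact_mod_cast h4
  refine le_of_mul_le_mul_left ?_ hB
  nlinarith

lemma AddOn.mono {B B' : Finset (ZMod p)} {φ : ZMod p → ZMod p} (h : AddOn B φ) (hB : B' ⊆ B) :
    AddOn B' φ := fun x hx y hy hxy => h x (hB hx) y (hB hy) (hB hxy)

lemma SymOn.mono {B B' : Finset (ZMod p)} {φ : ZMod p → ZMod p} {ε ε' : ℝ} (h : SymOn B φ ε)
    (hB : B' ⊆ B) (hε : ε ≤ ε') : SymOn B' φ ε' := fun x hx y hy => (h x (hB hx) y (hB hy)).trans hε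

lemma Forms.mono {k : ℕ} {Γ Γ' : Finset (ZMod p)} {ρ ρ' ε ε' : ℝ} {ψ : Fin k → ZMod p → ZMod p}
    (h : Forms Γ ρ ψ ε) (hΓ : Γ ⊆ Γ') (hρ : ρ' ≤ ρ) (hε : ε ≤ ε') : Forms Γ' ρ' ψ ε' := fun j =>
  ⟨(h j).1.mono (bohr_mono hΓ hρ), (h j).2.mono (bohr_mono hΓ hρ) hε⟩

lemma AddOn.map_zero {B : Finset (ZMod p)} {φ : ZMod p → ZMod p} (h : AddOn B φ) (h0 : 0 ∈ B) :
    φ 0 = 0 := by
  have := h 0 h0 0 h0 (by simpa using h0)
  simpa using this

lemma AddOn.map_sub {B : Finset (ZMod p)} {φ : ZMod p → ZMod p} (h : AddOn B φ) {x y : ZMod p}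
    (hx : x ∈ B) (hy : y ∈ B) (hxy : x - y ∈ B) : φ (x - y) = φ x - φ y := by
  have := h (x - y) hxy y hy (by simpa using hx)
  rw [sub_add_cancel] at this
  rw [this]; ring

lemma AddOn.nat_mul {Γ : Finset (ZMod p)} {ρ r : ℝ} {φ : ZMod p → ZMod p}
    (h : AddOn (bohr Γ ρ) φ) {x : ZMod p} (hx : x ∈ bohr Γ r) (hr : 0 ≤ r) (j : ℕ)
    (hj : j * r ≤ ρ) (hrρ : r ≤ ρ) : φ ((j : ZMod p) * x) = (j : ZMod p) * φ x := by
  induction j with
  | zero => simpa using h.map_zero (zero_mem_bohr Γ (hr.trans hrρ))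
  | succ j ih =>
    have hm : ∀ i : ℕ, (i : ℝ) * r ≤ ρ → (i : ZMod p) * x ∈ bohr Γ ρ := by
      intro i hi
      have := intCast_mul_mem_bohr hx (i : ℤ)
      push_cast at this
      rw [Nat.abs_cast] at this
      exact mem_bohr_of_le this hi
    have hj' : (j : ℝ) * r ≤ ρ := by push_cast at hj; nlinarith
    have h1 := hm (j + 1) hj
    push_cast at h1 ⊢
    rw [add_mul, one_mul] at h1 ⊢
    rw [h _ (hm j hj') _ (mem_bohr_of_le hx hrρ) h1, ih hj']; ring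

lemma SymOn.scale_left {Γ : Finset (ZMod p)} {ρ ε : ℝ} {φ : ZMod p → ZMod p}
    (ha : AddOn (bohr Γ ρ) φ) (hs : SymOn (bohr Γ ρ) φ ε) (hε : ε ≤ 1 / 4) (hρ : 0 ≤ ρ) (n : ℕ)
    {x y : ZMod p} (hx : x ∈ bohr Γ (ρ * hf n)) (hy : y ∈ bohr Γ ρ) :
    nm (φ x * y - φ y * x) ≤ ε * hf n := by
  have hr : 0 ≤ ρ * hf n := mul_nonneg hρ (hf_pos n).le
  have hr1 : ρ * hf n ≤ ρ := mul_le_of_le_one_right hρ (hf_le_one n)
  have h1 := norm_le_of_mul (tc (φ x * y - φ y * x)) (2 ^ n) ε Nat.one_le_two_pow hε ?_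
  · rw [hf_eq_inv, ← div_eq_mul_inv]
    exact_mod_cast h1
  · intro j _ hj
    have hj' : (j : ℝ) * (ρ * hf n) ≤ ρ := by
      have h2 : (j : ℝ) ≤ 2 ^ n := by exact_mod_cast hj
      calc (j : ℝ) * (ρ * hf n) ≤ 2 ^ n * (ρ * hf n) := by gcongr
        _ = ρ * (hf n * 2 ^ n) := by ring
        _ = ρ := by rw [hf_mul_two_pow, mul_one]
    have h3 := ha.nat_mul hx hr j hj' hr1
    have h4 : (j : ZMod p) * x ∈ bohr Γ ρ := by
      have := intCast_mul_mem_bohr hx (j : ℤ)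
      push_cast at this
      rw [Nat.abs_cast] at this
      exact mem_bohr_of_le this hj'
    have h5 := hs _ h4 y hy
    rw [h3] at h5
    rw [zsmul_tc]
    convert h5 using 1
    unfold nm
    congr 2
    push_cast; ring

lemma SymOn.scale {Γ : Finset (ZMod p)} {ρ ε : ℝ} {φ : ZMod p → ZMod p}
    (ha : AddOn (bohr Γ ρ) φ) (hs : SymOn (bohr Γ ρ) φ ε) (hε : ε ≤ 1 / 4) (hρ : 0 ≤ ρ) (n : ℕ) :
    SymOn (bohr Γ (ρ * hf n)) φ (ε * hf n) := fun _ hx _ hy =>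
  SymOn.scale_left ha hs hε hρ n hx (mem_bohr_of_le hy (mul_le_of_le_one_right hρ (hf_le_one n)))

lemma cmb_sub {k : ℕ} (ψ : Fin k → ZMod p → ZMod p) (v w : Fin k → ℤ) (h : ZMod p) :
    cmb ψ (v - w) h = cmb ψ v h - cmb ψ w h := by
  simp [cmb, sub_mul, sum_sub_distrib]

lemma aff_sub {k : ℕ} (ψ : Fin k → ZMod p → ZMod p) (c : Fin k → ZMod p) (v w : Fin k → ℤ)
    (h : ZMod p) : aff ψ c (v - w) h = aff ψ c v h - aff ψ c w h := by
  simp [aff, sub_mul, sum_sub_distrib]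

lemma aff_eq {k : ℕ} (ψ : Fin k → ZMod p → ZMod p) (c : Fin k → ZMod p) (v : Fin k → ℤ)
    (h : ZMod p) : aff ψ c v h = 2 * cmb ψ v h + ∑ j, (v j : ZMod p) * c j := by
  unfold aff cmb
  rw [mul_sum, ← sum_add_distrib]
  exact sum_congr rfl fun j _ => by ring

lemma Forms.cmb_add {k : ℕ} {Γ : Finset (ZMod p)} {ρ ε : ℝ} {ψ : Fin k → ZMod p → ZMod p}
    (h : Forms Γ ρ ψ ε) (v : Fin k → ℤ) : AddOn (bohr Γ ρ) (cmb ψ v) := by
  intro x hx y hy hxy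
  unfold cmb
  rw [← sum_add_distrib]
  exact sum_congr rfl fun j _ => by rw [(h j).1 x hx y hy hxy]; ring

lemma cmb_asym_le {k : ℕ} (ψ : Fin k → ZMod p → ZMod p) (v : Fin k → ℤ) (b : ℕ)
    (hv : ∀ j, |v j| ≤ b) (x y : ZMod p) (ε : ℝ) (hε : ∀ j, nm (ψ j x * y - ψ j y * x) ≤ ε) :
    nm (cmb ψ v x * y - cmb ψ v y * x) ≤ k * b * ε := by
  have h1 : cmb ψ v x * y - cmb ψ v y * x = ∑ j, (v j : ZMod p) * (ψ j x * y - ψ j y * x) := by
    unfold cmb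
    rw [sum_mul, sum_mul, ← sum_sub_distrib]
    exact sum_congr rfl fun j _ => by ring
  rw [h1]
  refine (nm_sum_le _ _).trans ?_
  have h2 : ∀ j ∈ (univ : Finset (Fin k)),
      nm ((v j : ZMod p) * (ψ j x * y - ψ j y * x)) ≤ b * ε := by
    intro j _
    refine (nm_intCast_mul_le _ _).trans ?_
    have h3 : |(v j : ℝ)| ≤ b := by exact_mod_cast hv j
    exact mul_le_mul h3 (hε j) (nm_nonneg _) (Nat.cast_nonneg b)
  have := sum_le_card_nsmul _ _ _ h2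
  simpa [mul_assoc] using this

lemma Forms.cmb_sym {k : ℕ} {Γ : Finset (ZMod p)} {ρ ε : ℝ} {ψ : Fin k → ZMod p → ZMod p}
    (h : Forms Γ ρ ψ ε) (v : Fin k → ℤ) (b : ℕ) (hv : ∀ j, |v j| ≤ b) :
    SymOn (bohr Γ ρ) (cmb ψ v) (k * b * ε) := fun x hx y hy =>
  cmb_asym_le ψ v b hv x y ε fun j => (h j).2 x hx y hy

end Pool.Agent.Lib.MP_9721b5_an
end
end

-- part Pool.Agent.Lib.MP_9721b5_an.Kill
section

/-!
A local form with a large exponential sum vanishes on a smaller Bohr set.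
-/

set_option autoImplicit false

open Finset
open scoped Classical ComplexConjugate Pointwise

noncomputable section

namespace Pool.Agent.Lib.MP_9721b5_an

variable {p : ℕ} [NeZero p]

lemma kill_inv {Γ : Finset (ZMod p)} {ρ w ε : ℝ} (h : Reg Γ ρ w ε) (hε : 0 ≤ ε) (hw : 0 ≤ w)
    {u : ZMod p} (hu : u ∈ bohr Γ w) : Tri.Inv (bohr Γ ρ) u ε := by
  refine le_trans ?_ (h.card_sdiff_le hε hw)
  rw [Tri.cnt_eq_card]
  refine Nat.cast_le.2 (card_le_card fun x hx => ?_)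
  rw [mem_filter] at hx
  exact mem_sdiff.2 ⟨mem_bohr_of_le hx.1 (by linarith), fun h' =>
    hx.2 (mem_bohr_of_le (add_mem_bohr h' hu) (by linarith))⟩

omit [NeZero p] in
lemma kill_vdc {X Y : Finset (ZMod p)} (hX : X.Nonempty) (hY : Y.Nonempty) (F : ZMod p → ℂ)
    (hF : ∀ x, ‖F x‖ ≤ 1) {τ : ℝ} (hτ : 0 ≤ τ) (h : τ * X.card ≤ ‖∑ x ∈ X, F x‖)
    (hs : ∀ k ∈ Y, ‖∑ x ∈ X, F (x + k) - ∑ x ∈ X, F x‖ ≤ τ / 2 * X.card) :
    ∃ k₀ ∈ Y, τ ^ 2 / 8 * Y.card ≤ Tri.cnt Y fun k =>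
      τ ^ 2 / 8 * X.card ≤ ‖∑ x ∈ X, F (x + k) * conj (F (x + k₀))‖ := by
  have hX' : (0 : ℝ) < X.card := Nat.cast_pos.2 hX.card_pos
  have hY' : (0 : ℝ) < Y.card := Nat.cast_pos.2 hY.card_pos
  have h1 := Tri.SymF.cs X Y (fun _ => 1) (by simp) fun x k => F (x + k)
  simp only [one_mul] at h1
  have h2 : τ / 2 * X.card * Y.card ≤ ‖∑ x ∈ X, ∑ k ∈ Y, F (x + k)‖ := by
    have h3 : ‖∑ k ∈ Y, (∑ x ∈ X, F (x + k) - ∑ x ∈ X, F x)‖ ≤ Y.card * (τ / 2 * X.card) :=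
      (norm_sum_le _ _).trans (by simpa using sum_le_card_nsmul _ _ _ hs)
    rw [sum_sub_distrib, sum_const, sum_comm, norm_sub_rev] at h3
    have h4 := (norm_sub_norm_le _ _).trans h3
    rw [nsmul_eq_mul, norm_mul, Complex.norm_natCast] at h4
    nlinarith [mul_le_mul_of_nonneg_left h hY'.le]
  obtain ⟨k₀, h3, h4⟩ := exists_max_image Y
    (fun k₀ => ∑ k ∈ Y, ‖∑ x ∈ X, F (x + k) * conj (F (x + k₀))‖) hY
  have h5 : ‖∑ k ∈ Y, ∑ k' ∈ Y, ∑ x ∈ X, F (x + k) * conj (F (x + k'))‖ ≤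
      Y.card * ∑ k ∈ Y, ‖∑ x ∈ X, F (x + k) * conj (F (x + k₀))‖ := by
    rw [sum_comm]
    refine (norm_sum_le_of_le _ fun k' _ => norm_sum_le _ _).trans ?_
    simpa using sum_le_card_nsmul _ _ _ h4
  have h6 : τ ^ 2 / 4 * X.card * Y.card ≤ ∑ k ∈ Y, ‖∑ x ∈ X, F (x + k) * conj (F (x + k₀))‖ := by
    refine le_of_mul_le_mul_left (le_of_mul_le_mul_left ?_ hX') hY'
    exact (le_of_eq (by ring)).trans (((pow_le_pow_left₀ (by positivity) h2 2).trans h1).trans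
      (mul_le_mul_of_nonneg_left h5 hX'.le))
  refine ⟨k₀, h3, le_trans ?_ (Tri.cnt_rev_markov Y _ hX' (fun k _ => ?_) (by positivity))⟩
  · rw [le_div_iff₀ hX']
    linarith
  · refine (norm_sum_le_of_le (n := fun _ => 1) _ fun x _ => ?_).trans (by simp)
    rw [norm_mul, Complex.norm_conj]
    exact mul_le_one₀ (hF _) (norm_nonneg _) (hF _)

lemma kill_small {Γ : Finset (ZMod p)} {ψ : ZMod p → ZMod p} {ξ : ZMod p} {ρ1 ρ2 ε a : ℝ}
    (h0 : 0 ≤ ρ2) (h1 : ρ2 ≤ ρ1) (hε : 0 ≤ ε) (hR : Reg Γ ρ1 ρ2 ε)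
    (hA : AddOn (bohr Γ (2 * ρ1)) ψ) (hS : SymOn (bohr Γ (2 * ρ1)) ψ ε) (ha : 0 < a)
    {k k₀ w : ZMod p} (hk : k ∈ bohr Γ ρ2) (hk₀ : k₀ ∈ bohr Γ ρ2) (hw : w ∈ bohr Γ ρ2)
    (h : a * (bohr Γ ρ1).card ≤ ‖∑ x ∈ bohr Γ ρ1, ch (ψ (x + k) * (x + k) + ξ * (x + k)) *
      conj (ch (ψ (x + k₀) * (x + k₀) + ξ * (x + k₀)))‖) :
    nm (2 * ψ w * (k - k₀)) ≤ ε / a + 2 * ε := by
  have hadd : ∀ x ∈ bohr Γ ρ1, ∀ u ∈ bohr Γ ρ2, ψ (x + u) = ψ x + ψ u := fun x hx u hu =>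
    hA x (mem_bohr_of_le hx (by linarith)) u (mem_bohr_of_le hu (by linarith))
      (mem_bohr_of_le (add_mem_bohr hx hu) (by linarith))
  have h2 : ∑ x ∈ bohr Γ ρ1, ch (ψ (x + k) * (x + k) + ξ * (x + k)) *
      conj (ch (ψ (x + k₀) * (x + k₀) + ξ * (x + k₀))) =
      ch (ψ k * k - ψ k₀ * k₀ + ξ * (k - k₀)) *
        ∑ x ∈ bohr Γ ρ1, Tri.e (tc (ψ x * (k - k₀) + (ψ k - ψ k₀) * x)) := by
    rw [mul_sum]
    refine sum_congr rfl fun x hx => ?_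
    change _ = _ * ch _
    rw [← ch_sub, ← ch_add, hadd x hx k hk, hadd x hx k₀ hk₀]
    congr 1
    ring
  rw [h2, norm_mul, norm_ch, one_mul] at h
  have h3 := Tri.Inv.phase (ε := 0) (kill_inv hR hε h0 hw) ⟨0, zero_mem_bohr Γ (h0.trans h1)⟩
    (c := tc (ψ w * (k - k₀) + (ψ k - ψ k₀) * w)) (fun x hx => by
      rw [← tc_sub, ← tc_sub, hadd x hx w hw, norm_le_zero_iff, ← tc_zero (p := p)]
      congr 1
      ring) ha h
  rw [mul_zero, add_zero] at h3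
  have hb : ∀ u ∈ bohr Γ ρ2, u ∈ bohr Γ (2 * ρ1) := fun u hu => mem_bohr_of_le hu (by linarith)
  have h4 := hS w (hb w hw) k (hb k hk)
  have h5 := hS w (hb w hw) k₀ (hb k₀ hk₀)
  rw [show 2 * ψ w * (k - k₀) = (ψ w * (k - k₀) + (ψ k - ψ k₀) * w) + (ψ w * k - ψ k * w) -
    (ψ w * k₀ - ψ k₀ * w) by ring]
  have h6 : nm (ψ w * (k - k₀) + (ψ k - ψ k₀) * w) ≤ ε / a := h3
  exact (nm_sub_le _ _).trans ((add_le_add_left (nm_add_le _ _) _).trans (by linarith))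

lemma kill_exp (n : ℕ) : Real.exp (-n) ≤ hf n ∧ Real.exp n ≤ 2 ^ (2 * n) := by
  constructor
  · rw [hf_eq_inv, Real.exp_neg]
    refine inv_anti₀ (by positivity) ?_
    simpa [← Real.exp_nat_mul] using pow_le_pow_left₀ (by norm_num)
      (show (2 : ℝ) ≤ Real.exp 1 by linarith [Real.add_one_le_exp 1]) n
  · rw [pow_mul]
    simpa [← Real.exp_nat_mul] using pow_le_pow_left₀ (Real.exp_pos 1).le
      (show Real.exp 1 ≤ 2 ^ 2 by linarith [Real.exp_one_lt_d9]) n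

theorem kill : KillStmt := by
  obtain ⟨C, hC⟩ := Tri.locChang
  refine ⟨C + 6, fun R hR p _ Γ ψ ξ ρ1 ρ2 ρ3 h3 h32 h21 hR1 hR2 hA hS h => ?_⟩
  have h2 : 0 ≤ ρ2 := h3.trans h32
  have hbig : 32 * (C + 1) * R ≤ R ^ (C + 6) := by
    have := poly_le (R := R) (a := 32 * (C + 1)) (c := 1) (k := C + 5) hR (by
      rw [pow_add, mul_comm]
      exact Nat.mul_le_mul Nat.lt_two_pow_self (by norm_num))
    rwa [pow_one, show 1 + (C + 5) = C + 6 by ring] at this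
  set ε := hf (R ^ (C + 6)) with hε
  have hε0 : 0 < ε := hf_pos _
  obtain ⟨k₀, h4, h5⟩ := kill_vdc ⟨0, zero_mem_bohr Γ (h2.trans h21)⟩ ⟨0, zero_mem_bohr Γ h2⟩
    (fun x => ch (ψ x * x + ξ * x)) (fun x => (norm_ch _).le) (hf_pos R).le h fun k hk => by
      refine (hR1.shift hε0.le h2 (fun x => ch (ψ x * x + ξ * x)) (fun x => (norm_ch _).le)
        hk).trans (mul_le_mul_of_nonneg_right ?_ (Nat.cast_nonneg _))
      rw [← hf_succ]
      exact mul_hf_le (a := 1) (by norm_num) (by nlinarith)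
  have h6 : hf R ^ 2 / 8 = hf (2 * R + 3) := by
    rw [hf_add, mul_comm 2 R, hf_mul, show hf 3 = 1 / 8 by norm_num [hf]]; ring
  rw [h6, Tri.cnt_eq_card] at h5
  obtain ⟨r, zs, h7, h8, h9⟩ := hC (ZMod p) (ZMod p) (· ∈ bohr Γ ρ2) (bohr Γ ρ2) _ (· ∈ bohr Γ ρ3)
    (fun w k => tc (2 * ψ w * (k - k₀))) (fun w u => tc (2 * ψ w * u)) ((2 * R + 3 : ℕ) : ℝ) ε 0
    (by exact_mod_cast (by omega : 1 ≤ 2 * R + 3)) hε0.le le_rfl (filter_subset _ _)
    ⟨0, zero_mem_bohr Γ h2⟩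
    ((mul_le_mul_of_nonneg_right (kill_exp _).1 (Nat.cast_nonneg _)).trans h5)
    (fun u hu => kill_inv hR2 hε0.le h3 hu)
    (fun w hw k hk => by
      rw [mem_filter] at hk
      refine (kill_small h2 h21 hε0.le hR1 hA hS (hf_pos _) hk.1 h4 hw hk.2).trans ?_
      have a1 : 2 ^ (2 * R + 3) * ε ≤ hf 6 := mul_hf_le le_rfl (by nlinarith)
      have a2 : 2 * ε ≤ hf 6 := mul_hf_le (a := 1) (by norm_num) (by nlinarith)
      rw [hf_eq_inv (2 * R + 3), div_inv_eq_mul, mul_comm]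
      norm_num [hf] at a1 a2 ⊢
      linarith)
    (fun w _ u _ x _ _ => by
      rw [← tc_sub, ← tc_sub, norm_le_zero_iff, ← tc_zero (p := p)]
      congr 1
      ring)
  refine ⟨univ.image fun j => 2 * ψ (zs j), card_image_le.trans ?_, fun w hw u hu => ?_⟩
  · have : r ≤ C * (2 * R + 3) := by exact_mod_cast h7
    rw [card_univ, Fintype.card_fin]
    nlinarith
  refine (h9 ε hε0.le u (bohr_mono subset_union_left (min_le_left _ _) hu) (fun j =>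
    (mem_bohr.1 hu _ (mem_union_right _ (mem_image_of_mem _ (mem_univ j)))).trans
      (min_le_right _ _)) w hw).trans ?_
  have a1 := (kill_exp (C * (2 * R + 3))).2
  have a2 := nat_le_two_pow (2 * R + 3)
  have a3 := nat_le_two_pow C
  have a4 : (2 : ℝ) ^ (2 * R + 3) ≤ 2 ^ (2 * ((C + 1) * (2 * R + 3))) :=
    pow_le_pow_right₀ one_le_two (by nlinarith)
  have a5 : (2 : ℝ) ^ (2 * (C * (2 * R + 3))) ≤ 2 ^ (2 * ((C + 1) * (2 * R + 3))) :=
    pow_le_pow_right₀ one_le_two (by nlinarith)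
  rw [Nat.cast_mul] at a1
  refine le_trans (le_of_eq (b := (C * (((2 * R + 3 : ℕ) : ℝ) +
    Real.exp (C * ((2 * R + 3 : ℕ) : ℝ)))) * ε) (by ring))
    (mul_hf_le (a := C + (2 * ((C + 1) * (2 * R + 3)) + 1)) ?_ (by nlinarith))
  rw [pow_add, pow_succ]
  exact mul_le_mul a3 (by linarith) (by positivity) (by positivity)

end Pool.Agent.Lib.MP_9721b5_an
end
end

-- part Pool.Agent.Lib.MP_9721b5_an.GraphA
section

/-! The analytic core of the symmetry argument. -/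

set_option autoImplicit false

open Finset
open scoped Classical ComplexConjugate Pointwise

noncomputable section

namespace Pool.Agent.Lib.MP_9721b5_an

section abstract

variable {α β : Type}

lemma graph_cs (X : Finset β) (f v : β → ℂ) (hf : ∀ x, ‖f x‖ ≤ 1) :
    ‖∑ x ∈ X, f x * v x‖ ^ 2 ≤ X.card * ∑ x ∈ X, ‖v x‖ ^ 2 := by
  have h1 : ‖∑ x ∈ X, f x * v x‖ ≤ ∑ x ∈ X, ‖v x‖ :=
    (norm_sum_le _ _).trans (sum_le_sum fun x _ => by
      rw [norm_mul]; exact mul_le_of_le_one_left (norm_nonneg _) (hf x))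
  exact (pow_le_pow_left₀ (norm_nonneg _) h1 2).trans sq_sum_le_card_mul_sum_sq

lemma graph_normsq (z : ℂ) : ((‖z‖ ^ 2 : ℝ) : ℂ) = z * conj z := by
  rw [Complex.mul_conj']; push_cast; rfl

lemma graph_gram (X : Finset β) (A : Finset α) (v : α → β → ℂ) :
    ∑ x ∈ X, ‖∑ a ∈ A, v a x‖ ^ 2 ≤ ∑ a ∈ A, ∑ b ∈ A, ‖∑ x ∈ X, v a x * conj (v b x)‖ := by
  have h1 : ((∑ x ∈ X, ‖∑ a ∈ A, v a x‖ ^ 2 : ℝ) : ℂ) =
      ∑ a ∈ A, ∑ b ∈ A, ∑ x ∈ X, v a x * conj (v b x) := by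
    rw [Complex.ofReal_sum]
    simp only [graph_normsq, map_sum, sum_mul_sum]
    rw [sum_comm]
    exact sum_congr rfl fun a _ => sum_comm
  calc _ ≤ ‖((∑ x ∈ X, ‖∑ a ∈ A, v a x‖ ^ 2 : ℝ) : ℂ)‖ := by
        rw [Complex.norm_real]; exact le_abs_self _
    _ ≤ _ := by
        rw [h1]
        exact (norm_sum_le _ _).trans (sum_le_sum fun a _ => norm_sum_le _ _)

lemma graph_dual (X : Finset β) (A : Finset α) (f : β → ℂ) (hf : ∀ x, ‖f x‖ ≤ 1)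
    (v : α → β → ℂ) : (∑ a ∈ A, ‖∑ x ∈ X, f x * v a x‖) ^ 2 ≤
      X.card * ∑ a ∈ A, ∑ b ∈ A, ‖∑ x ∈ X, v a x * conj (v b x)‖ := by
  choose θ hθ using fun a => exists_ex_mul_norm (∑ x ∈ X, f x * v a x)
  have h1 : ((∑ a ∈ A, ‖∑ x ∈ X, f x * v a x‖ : ℝ) : ℂ) =
      ∑ x ∈ X, f x * ∑ a ∈ A, ex (-θ a) * v a x := by
    rw [Complex.ofReal_sum]
    simp only [mul_sum]
    rw [sum_comm]
    refine sum_congr rfl fun a _ => ?_
    have h2 : ex (-θ a) * ∑ x ∈ X, f x * v a x = (‖∑ x ∈ X, f x * v a x‖ : ℝ) := by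
      conv_lhs => rw [← hθ a]
      rw [← mul_assoc, mul_comm (ex (-θ a)), ex_mul_neg, one_mul]
    rw [← h2, mul_sum]
    exact sum_congr rfl fun x _ => by ring
  have h3 := graph_cs X f (fun x => ∑ a ∈ A, ex (-θ a) * v a x) hf
  rw [← h1, Complex.norm_real, Real.norm_eq_abs, sq_abs] at h3
  refine h3.trans (mul_le_mul_of_nonneg_left ((graph_gram X A _).trans (le_of_eq ?_))
    (Nat.cast_nonneg _))
  refine sum_congr rfl fun a _ => sum_congr rfl fun b _ => ?_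
  have h4 : ∑ x ∈ X, ex (-θ a) * v a x * conj (ex (-θ b) * v b x) =
      (ex (-θ a) * conj (ex (-θ b))) * ∑ x ∈ X, v a x * conj (v b x) := by
    rw [mul_sum]
    exact sum_congr rfl fun x _ => by rw [map_mul]; ring
  rw [h4, norm_mul, norm_mul, Complex.norm_conj, norm_ex, norm_ex, one_mul, one_mul]

end abstract

variable {p : ℕ} [NeZero p]

/-- The asymmetry of a local form. -/
def graphOm (φ : ZMod p → ZMod p) (a b : ZMod p) : ZMod p := φ a * b - φ b * a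

def graphW (G : ZMod p → ℂ) (φ : ZMod p → ZMod p) (a x : ZMod p) : ℂ :=
  G (x + a) * ch (-(φ a * x))

def graphU (G : ZMod p → ℂ) (φ : ZMod p → ZMod p) (a : ZMod p) (z : ZMod p × ZMod p) : ℂ :=
  conj (G (-(z.1 + a))) * conj (G (z.2 + a)) * ch (φ a * z.1 + φ a * z.2 + φ a * a)

lemma graph_normU {G : ZMod p → ℂ} (hG : ∀ x, ‖G x‖ ≤ 1) (φ : ZMod p → ZMod p) (a : ZMod p)
    (z : ZMod p × ZMod p) : ‖graphU G φ a z‖ ≤ 1 := by
  simp only [graphU, norm_mul, Complex.norm_conj, norm_ch, mul_one]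
  exact mul_le_one₀ (hG _) (norm_nonneg _) (hG _)

/-- The reflection identity. -/
lemma graph_refl (G : ZMod p → ℂ) (φ : ZMod p → ZMod p) (a b : ZMod p) :
    ((‖∑ x, graphW G φ a x * conj (graphW G φ b x)‖ ^ 2 : ℝ) : ℂ) =
      ∑ z, graphU G φ a z * conj (graphU G φ b z * ch (-graphOm φ a b)) := by
  rw [graph_normsq, map_sum, Fintype.sum_prod_type, sum_mul_sum,
    ← Equiv.sum_comp ((Equiv.neg (ZMod p)).trans (Equiv.subRight (a + b)))]
  refine sum_congr rfl fun x _ => sum_congr rfl fun y _ => ?_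
  have e1 : -x - (a + b) + a = -(x + b) := by ring
  have e2 : -x - (a + b) + b = -(x + a) := by ring
  simp only [graphW, graphU, graphOm, Equiv.trans_apply, Equiv.neg_apply, Equiv.subRight_apply,
    map_mul, conj_ch, Complex.conj_conj, e1, e2]
  have e3 : ch (-(φ a * (-x - (a + b)))) * ch (- -(φ b * (-x - (a + b)))) *
      (ch (- -(φ a * y)) * ch (- - -(φ b * y))) =
      ch (φ a * x + φ a * y + φ a * a) * (ch (-(φ b * x + φ b * y + φ b * b)) *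
        ch (- -(φ a * b - φ b * a))) := by
    simp only [← ch_add]
    congr 1
    ring
  linear_combination (G (-(x + b)) * conj (G (-(x + a))) * conj (G (y + a)) * G (y + b)) * e3

lemma graph_core {g : ZMod p → ℂ} (hg : ∀ x, ‖g x‖ ≤ 1) (φ : ZMod p → ZMod p) (τ c : ZMod p)
    {H B : Finset (ZMod p)} (hHB : H ⊆ B) (hH : H.Nonempty) {κ : ℝ} (hκ : 0 ≤ κ)
    (h : ∀ a ∈ H, κ ≤ ‖ft (dl g (τ + a)) (c + φ a)‖) :
    κ ^ 8 * (H.card : ℝ) ^ 3 ≤
      ∑ b' ∈ H, ∑ b ∈ H, ‖∑ a ∈ B, ch (graphOm φ a b' - graphOm φ a b)‖ := by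
  set G : ZMod p → ℂ := fun x => g (x + τ) with hGdef
  have hG : ∀ x, ‖G x‖ ≤ 1 := fun x => hg _
  have hp : (0 : ℝ) < p := by exact_mod_cast NeZero.pos p
  have hH' : (0 : ℝ) < H.card := by exact_mod_cast hH.card_pos
  have hcard : ((univ : Finset (ZMod p)).card : ℝ) = p := by simp [ZMod.card]
  have h1 : ∀ a ∈ H, κ * p ≤ ‖∑ x, conj (g x) * ch (-(c * x)) * graphW G φ a x‖ := fun a ha => by
    have h2 := h a ha
    rw [ft, norm_div, Complex.norm_natCast, le_div_iff₀ hp] at h2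
    refine h2.trans (le_of_eq (congrArg _ (sum_congr rfl fun x _ => ?_)))
    have e1 : ch (-((c + φ a) * x)) = ch (-(c * x)) * ch (-(φ a * x)) := by
      rw [← ch_add]; congr 1; ring
    simp only [dl, graphW, hGdef, e1, show x + (τ + a) = x + a + τ by ring]
    ring
  set M : ZMod p → ZMod p → ℝ := fun a b => ‖∑ x, graphW G φ a x * conj (graphW G φ b x)‖
    with hM
  have h2 : κ ^ 2 * p * (H.card : ℝ) ^ 2 ≤ ∑ a ∈ H, ∑ b ∈ H, M a b := by
    have h3 := graph_dual univ H (fun x => conj (g x) * ch (-(c * x)))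
      (fun x => by simpa using hg x) (graphW G φ)
    have h4 : H.card * (κ * p) ≤ ∑ a ∈ H, ‖∑ x, conj (g x) * ch (-(c * x)) * graphW G φ a x‖ := by
      simpa using card_nsmul_le_sum H _ _ h1
    have h5 := (pow_le_pow_left₀ (by positivity) h4 2).trans h3
    rw [hcard] at h5
    refine le_of_mul_le_mul_left ?_ hp
    nlinarith
  have h3 : κ ^ 4 * p ^ 2 * (H.card : ℝ) ^ 2 ≤ ∑ a ∈ H, ∑ b ∈ H, M a b ^ 2 := by
    have h4 := sq_sum_le_card_mul_sum_sq (s := H ×ˢ H) (f := fun z => M z.1 z.2)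
    rw [sum_product, sum_product, card_product, Nat.cast_mul] at h4
    have h5 := (pow_le_pow_left₀ (by positivity) h2 2).trans h4
    refine le_of_mul_le_mul_left ?_ (show (0 : ℝ) < H.card * H.card by positivity)
    nlinarith
  set V : ZMod p × ZMod p × ZMod p → ℂ :=
    fun w => ∑ b ∈ H, graphU G φ b w.2 * ch (-graphOm φ w.1 b) with hV
  have h4 : ((∑ a ∈ H, ∑ b ∈ H, M a b ^ 2 : ℝ) : ℂ) =
      ∑ w ∈ H ×ˢ univ, graphU G φ w.1 w.2 * conj (V w) := by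
    rw [sum_product, Complex.ofReal_sum]
    refine sum_congr rfl fun a _ => ?_
    rw [Complex.ofReal_sum]
    simp only [hM, graph_refl, hV, map_sum (starRingEnd ℂ), mul_sum]
    exact sum_comm
  have h5 := graph_cs (H ×ˢ univ) (fun w : ZMod p × ZMod p × ZMod p => graphU G φ w.1 w.2)
    (fun w => conj (V w)) fun w => graph_normU hG φ _ _
  rw [← h4, Complex.norm_real, Real.norm_eq_abs, sq_abs] at h5
  simp only [Complex.norm_conj, card_product, card_univ, Fintype.card_prod, ZMod.card,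
    Nat.cast_mul] at h5
  have h6 : ∑ w ∈ H ×ˢ univ, ‖V w‖ ^ 2 ≤ ∑ w ∈ B ×ˢ univ, ‖V w‖ ^ 2 :=
    sum_le_sum_of_subset_of_nonneg (product_subset_product_left hHB) fun _ _ _ => sq_nonneg _
  have h7 : ∑ w ∈ B ×ˢ univ, ‖V w‖ ^ 2 ≤
      (p * p) * ∑ b' ∈ H, ∑ b ∈ H, ‖∑ a ∈ B, ch (graphOm φ a b' - graphOm φ a b)‖ := by
    refine (graph_gram (B ×ˢ univ) H fun b w => graphU G φ b w.2 * ch (-graphOm φ w.1 b)).trans ?_
    rw [sum_comm, mul_sum]
    refine sum_le_sum fun b' _ => ?_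
    rw [mul_sum]
    refine sum_le_sum fun b _ => ?_
    have e1 : ∑ w ∈ B ×ˢ univ, graphU G φ b w.2 * ch (-graphOm φ w.1 b) *
        conj (graphU G φ b' w.2 * ch (-graphOm φ w.1 b')) =
        (∑ a ∈ B, ch (graphOm φ a b' - graphOm φ a b)) *
          ∑ z, graphU G φ b z * conj (graphU G φ b' z) := by
      rw [sum_product, sum_mul_sum]
      refine sum_congr rfl fun a _ => sum_congr rfl fun z _ => ?_
      rw [map_mul, conj_ch, neg_neg, sub_eq_add_neg, ch_add]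
      ring
    have e2 : ‖∑ z, graphU G φ b z * conj (graphU G φ b' z)‖ ≤ p * p := by
      refine (norm_sum_le _ _).trans ?_
      have := sum_le_card_nsmul univ (fun z => ‖graphU G φ b z * conj (graphU G φ b' z)‖) 1
        fun z _ => by
          rw [norm_mul, Complex.norm_conj]
          exact mul_le_one₀ (graph_normU hG φ _ _) (norm_nonneg _) (graph_normU hG φ _ _)
      simpa [ZMod.card] using this
    rw [e1, norm_mul, mul_comm]
    exact mul_le_mul_of_nonneg_right e2 (norm_nonneg _)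
  have h8 := (pow_le_pow_left₀ (by positivity) h3 2).trans
    (h5.trans (mul_le_mul_of_nonneg_left (h6.trans h7) (by positivity)))
  refine le_of_mul_le_mul_left ?_ (show (0 : ℝ) < H.card * (p * p) * (p * p) by positivity)
  nlinarith

/-- Many second points see a large sum. -/
lemma graph_pick {H : Finset (ZMod p)} (hH : H.Nonempty) (D : ZMod p → ZMod p → ℝ) {L s a : ℝ}
    (hL : L ≤ p) (ha : 0 ≤ a) (hD : ∀ b' b, D b' b ≤ L) (hL0 : 0 ≤ L) (hs : 2 * a * p ≤ s)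
    (h : s * (H.card : ℝ) ^ 2 ≤ ∑ b' ∈ H, ∑ b ∈ H, D b' b) :
    ∃ b0 ∈ H, a * H.card ≤ ((H.filter fun b => a * L ≤ D b0 b).card : ℝ) := by
  have hp : (0 : ℝ) < p := by exact_mod_cast NeZero.pos p
  obtain ⟨b0, hb0, h1⟩ := exists_le_of_sum_le (f := fun _ => s * H.card)
    (g := fun b' => ∑ b ∈ H, D b' b) hH (by
      rw [sum_const, nsmul_eq_mul]; nlinarith)
  refine ⟨b0, hb0, ?_⟩
  have h2 : ∑ b ∈ H, D b0 b ≤ ∑ b ∈ H, ((if a * L ≤ D b0 b then (p : ℝ) else 0) + a * p) :=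
    sum_le_sum fun b _ => by
      have := mul_le_mul_of_nonneg_left hL ha
      split_ifs with hb
      · nlinarith [hD b0 b, mul_nonneg ha hL0]
      · linarith [not_le.1 hb]
  rw [sum_add_distrib, ← sum_filter, sum_const, sum_const, nsmul_eq_mul, nsmul_eq_mul] at h2
  have h3 : (0 : ℝ) ≤ H.card := Nat.cast_nonneg _
  refine le_of_mul_le_mul_right ?_ hp
  nlinarith [mul_le_mul_of_nonneg_right hs h3]

/-- A locally additive phase with a large sum over a regular Bohr set is small on the shifts. -/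
lemma graph_small {Γ : Finset (ZMod p)} {ρ w a : ℝ} (ha : 0 < a) (hρ : 0 ≤ ρ) (hw : 0 ≤ w)
    (hR : Reg Γ ρ w (a / 128)) {χ : ZMod p → ZMod p} {u : ZMod p} (hu : u ∈ bohr Γ w)
    (hχ : ∀ x ∈ bohr Γ ρ, χ (x + u) = χ x + χ u)
    (h : a * (bohr Γ ρ).card ≤ ‖∑ x ∈ bohr Γ ρ, ch (χ x)‖) : nm (χ u) ≤ 1 / 256 := by
  have h1 := hR.shift (by positivity) hw (fun x => ch (χ x)) (fun x => by simp) hu
  have h2 : ∑ x ∈ bohr Γ ρ, ch (χ (x + u)) - ∑ x ∈ bohr Γ ρ, ch (χ x) =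
      (ch (χ u) - 1) * ∑ x ∈ bohr Γ ρ, ch (χ x) := by
    rw [sub_mul, one_mul, mul_sum]
    congr 1
    exact sum_congr rfl fun x hx => by rw [hχ x hx, ch_add, mul_comm]
  rw [h2, norm_mul] at h1
  have h3 : (0 : ℝ) < (bohr Γ ρ).card := by exact_mod_cast card_bohr_pos Γ hρ
  have h4 := four_nm_le (χ u)
  have h5 := mul_le_mul_of_nonneg_left h (norm_nonneg (ch (χ u) - 1))
  have h6 : ‖ch (χ u) - 1‖ ≤ 1 / 64 := by
    refine le_of_mul_le_mul_right ?_ (mul_pos ha h3)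
    linarith
  linarith

lemma graph_recenter (A Γ : Finset (ZMod p)) (hA : A.Nonempty) {r : ℝ} (hr : 0 ≤ r) :
    ∃ τ ∈ A, A.card * (bohr Γ r).card ≤ p * ((bohr Γ (r + r)).filter fun h => τ + h ∈ A).card := by
  obtain ⟨z, hz⟩ := exists_translate A (bohr Γ r)
  obtain ⟨y, hy⟩ : ((bohr Γ r).filter fun y => z + y ∈ A).Nonempty := by
    rw [← card_pos]
    have := Nat.mul_pos hA.card_pos (card_bohr_pos Γ hr)
    exact Nat.pos_of_mul_pos_left (this.trans_le hz)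
  obtain ⟨hy1, hy2⟩ := mem_filter.1 hy
  refine ⟨z + y, hy2, hz.trans (Nat.mul_le_mul_left _ ?_)⟩
  refine card_le_card_of_injOn (fun x => x - y) (fun x hx => ?_) fun x _ x' _ h => by simpa using h
  obtain ⟨hx1, hx2⟩ := mem_filter.1 (mem_coe.1 hx)
  refine mem_coe.2 (mem_filter.2 ⟨sub_mem_bohr hx1 hy1, ?_⟩)
  rwa [show z + y + (x - y) = z + x by ring]

lemma graph_dens {a b c i j : ℕ} (h1 : p ≤ 2 ^ i * a) (h2 : p ≤ 2 ^ j * b) (h3 : a * b ≤ p * c) :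
    p ≤ 2 ^ (i + j) * c := by
  refine Nat.le_of_mul_le_mul_left ?_ (NeZero.pos p)
  calc p * p ≤ (2 ^ i * a) * (2 ^ j * b) := Nat.mul_le_mul h1 h2
    _ = 2 ^ (i + j) * (a * b) := by ring
    _ ≤ 2 ^ (i + j) * (p * c) := Nat.mul_le_mul_left _ h3
    _ = _ := by ring

end Pool.Agent.Lib.MP_9721b5_an
end
end
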