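import Pool.Agent.Lib.MP_9721b5_an.LevelB
import Pool.Agent.Lib.MP_9721b5_an.Basic
import Pool.Agent.Lib.MP_9721b5_an.GraphA

-- part Pool.Agent.Lib.MP_9721b5_an.Transfer
section

/-! Transference of the finite oscillation inequality to measure preserving systems. -/

set_option autoImplicit false

open Finset MeasureTheory Filter Topology
open scoped Classical

noncomputable section

namespace Pool.Agent.Lib.MP_9721b5_an

/-- The trilinear ergodic average. -/
def transfer_A {X : Type} (T : X → X) (f : Fin 3 → X → ℝ) (N : ℕ) (x : X) : ℝ :=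
  (N : ℝ)⁻¹ * ∑ n ∈ Icc 1 N, f 0 (T^[n] x) * f 1 (T^[2 * n] x) * f 2 (T^[3 * n] x)

lemma transfer_sum_Icc {M : Type} [AddCommMonoid M] (N : ℕ) (G : ℤ → M) :
    ∑ n ∈ Icc (1 : ℤ) N, G n = ∑ n ∈ Icc 1 N, G (n : ℕ) := by
  refine (Finset.sum_nbij' (fun n : ℕ => (n : ℤ)) Int.toNat ?_ ?_ ?_ ?_ ?_).symm
  · intro n hn; simp only [mem_Icc] at hn ⊢; omega
  · intro n hn; simp only [mem_Icc] at hn ⊢; omega
  · intro n _; simp
  · intro n hn; simp only [mem_Icc] at hn; omega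
  · intro n _; rfl

lemma transfer_tav {X : Type} (T : X → X) (f : Fin 3 → X → ℝ) (N : ℕ) (x : X) {y : ℤ}
    (hy : 0 ≤ y) : tav (fun i z => ((f i (T^[z.toNat] x) : ℝ) : ℂ)) 1 N y =
      (transfer_A T f N (T^[y.toNat] x) : ℝ) := by
  obtain ⟨m, rfl⟩ := Int.eq_ofNat_of_zero_le hy
  have h : ∀ k n : ℕ, ((m : ℤ) + (k : ℤ) * (1 * (n : ℤ))).toNat = k * n + m := fun k n => by
    rw [one_mul, ← Nat.cast_mul, ← Nat.cast_add, Int.toNat_natCast, add_comm]
  have h1 : ∀ n : ℕ, ((m : ℤ) + 1 * (n : ℤ)).toNat = n + m := fun n => by omega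
  have h2 : ∀ n : ℕ, ((m : ℤ) + 2 * (1 * (n : ℤ))).toNat = 2 * n + m := h 2
  have h3 : ∀ n : ℕ, ((m : ℤ) + 3 * (1 * (n : ℤ))).toNat = 3 * n + m := h 3
  rw [tav, transfer_sum_Icc, transfer_A]
  simp only [h1, h2, h3, Function.iterate_add_apply, Int.toNat_natCast]
  push_cast
  rw [div_eq_inv_mul]

lemma transfer_sum_w {N : ℕ → ℕ} (hN : Scales N) {D d d' : ℕ} (hd : d ≤ D) (hd' : d' ≤ D) :
    (2 : ℝ) ^ (D + 4) / 4 ≤ ∑ y ∈ nd (D + 4) 0, (1 - (if sg 4 (N d) d y = -1 then (1 : ℝ) else 0) -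
      if sg 4 (N d') d' y = -1 then (1 : ℝ) else 0) := by
  have h1 : (((nd (D + 4) 0).filter fun y => sg 4 (N d) d y = -1).card : ℝ) ≤ 6 * 2 ^ D := by
    exact_mod_cast card_sg_neg (l := 4) (hN d).2 hd 0
  have h2 : (((nd (D + 4) 0).filter fun y => sg 4 (N d') d' y = -1).card : ℝ) ≤ 6 * 2 ^ D := by
    exact_mod_cast card_sg_neg (l := 4) (hN d').2 hd' 0
  simp only [sum_sub_distrib, sum_boole, sum_const, card_nd, nsmul_eq_mul, mul_one]
  push_cast
  rw [pow_add]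
  linarith

variable {X : Type} [MeasurableSpace X] {μ : Measure X} [IsProbabilityMeasure μ] {T : X → X}
  {f : Fin 3 → X → ℝ}

lemma transfer_meas (hT : Measurable T) (hf : ∀ i, Measurable (f i)) (N : ℕ) :
    Measurable (transfer_A T f N) := by
  refine measurable_const.mul (Finset.measurable_sum _ fun n _ => ?_)
  exact (((hf 0).comp (hT.iterate _)).mul ((hf 1).comp (hT.iterate _))).mul
    ((hf 2).comp (hT.iterate _))

lemma transfer_block {a : ℕ → X → ℝ} (ha : ∀ d, Measurable (a d)) {δ : ℝ}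
    (hc : μ {x | ∀ s, ∃ d, s < d ∧ ∃ d', s < d' ∧ 2 * δ < |a d x - a d' x|} ≠ 0) :
    ∃ c : ℝ, 0 < c ∧ ∀ s, ∃ t, s < t ∧ c ≤ μ.real {x | ∃ d, s < d ∧ d ≤ t ∧ δ < |a d x - a t x|} := by
  set Om := {x | ∀ s, ∃ d, s < d ∧ ∃ d', s < d' ∧ 2 * δ < |a d x - a d' x|}
  have h0 : 0 < μ.real Om := ENNReal.toReal_pos hc (measure_ne_top _ _)
  refine ⟨μ.real Om / 2, by positivity, fun s => ?_⟩
  let B : ℕ → Set X := fun t =>
    {x | ∃ d, s < d ∧ d ≤ t ∧ ∃ d', s < d' ∧ d' ≤ t ∧ 2 * δ < |a d x - a d' x|}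
  have hm : Monotone B := by
    rintro t t' h x ⟨d, h1, h2, d', h3, h4, h5⟩
    exact ⟨d, h1, h2.trans h, d', h3, h4.trans h, h5⟩
  have h1 : Tendsto (fun t => μ.real (B t)) atTop (𝓝 (μ.real (⋃ t, B t))) :=
    (ENNReal.tendsto_toReal (measure_ne_top _ _)).comp (tendsto_measure_iUnion_atTop hm)
  have h2 : μ.real Om ≤ μ.real (⋃ t, B t) := by
    refine measureReal_mono fun x hx => ?_
    obtain ⟨d, h1, d', h2, h3⟩ := hx s
    exact Set.mem_iUnion.2 ⟨max d d', d, h1, le_max_left _ _, d', h2, le_max_right _ _, h3⟩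
  obtain ⟨t, h3, h4⟩ := ((h1.eventually (lt_mem_nhds (by linarith : μ.real Om / 2 < _))).and
    (eventually_gt_atTop s)).exists
  refine ⟨t, h4, h3.le.trans (measureReal_mono ?_)⟩
  rintro x ⟨d, h1, h2, d', h3, h4, h5⟩
  by_contra hx
  simp only [Set.mem_ofPred_eq, not_exists, not_and, not_lt] at hx
  have a1 := abs_le.1 (hx d h1 h2)
  have a2 := abs_le.1 (hx d' h3 h4)
  exact absurd h5 (not_lt.2 (abs_le.2 ⟨by linarith, by linarith⟩))

lemma transfer_null (hF : FiniteStmt) (hT : MeasurePreserving T μ μ) (hf : ∀ i, Measurable (f i))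
    (hb : ∀ i x, |f i x| ≤ 1) {N : ℕ → ℕ} (hN : Scales N) {δ : ℝ} (hδ : 0 < δ) :
    μ {x | ∀ s, ∃ d, s < d ∧ ∃ d', s < d' ∧
      2 * δ < |transfer_A T f (N d) x - transfer_A T f (N d') x|} = 0 := by
  by_contra hc
  set a : ℕ → X → ℝ := fun d => transfer_A T f (N d) with ha
  have ham : ∀ d, Measurable (a d) := fun d => transfer_meas hT.measurable hf _
  obtain ⟨c, hc0, hc⟩ := transfer_block ham hc
  choose nx hnx hnx' using hc
  let s : ℕ → ℕ := fun j => nx^[j] 0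
  have hs : ∀ j, s (j + 1) = nx (s j) := fun j => Function.iterate_succ_apply' _ _ _
  have hsm : StrictMono s := strictMono_nat_of_lt_succ fun j => by rw [hs]; exact hnx _
  obtain ⟨J, hJ, hfin⟩ := hF (δ * c / 8) (by positivity) 4 le_rfl
  let P : ℕ → ℕ → X → Prop := fun j d x => s j < d ∧ d ≤ s (j + 1) ∧ δ < |a d x - a (s (j + 1)) x|
  let E : ℕ → ℕ → Set X := fun j d => {x | P j d x ∧ ∀ d' < d, ¬ P j d' x}
  have hP : ∀ j d, MeasurableSet {x | P j d x} := fun j d =>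
    (MeasurableSet.const _).inter ((MeasurableSet.const _).inter
      (measurableSet_lt measurable_const ((ham _).sub (ham _)).abs))
  have hE : ∀ j d, MeasurableSet (E j d) := fun j d => by
    have : E j d = {x | P j d x} ∩ ⋂ d', ⋂ _ : d' < d, {x | P j d' x}ᶜ := by
      ext x; simp [E]
    rw [this]
    exact (hP j d).inter (MeasurableSet.iInter fun d' => MeasurableSet.iInter fun _ => (hP j d').compl)
  have hEc : ∀ j, c ≤ ∑ d ∈ Ioc (s j) (s (j + 1)), μ.real (E j d) := fun j => by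
    refine (hnx' (s j)).trans (le_trans (measureReal_mono ?_ (measure_ne_top _ _)) (measureReal_biUnion_finset_le _ _))
    intro x hx
    rw [← hs] at hx
    have hx' : ∃ d, P j d x := hx
    have h1 := Nat.find_spec hx'
    exact Set.mem_iUnion₂.2 ⟨Nat.find hx', mem_Ioc.2 ⟨h1.1, h1.2.1⟩, h1,
      fun d' hd' => Nat.find_min hx' hd'⟩
  let eh : ℕ → X → ℕ := fun j x => if h : ∃ d, P j d x then Nat.find h else s (j + 1)
  have heh : ∀ j x, s j < eh j x ∧ eh j x ≤ s (j + 1) := fun j x => by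
    simp only [eh]
    split_ifs with h
    · exact ⟨(Nat.find_spec h).1, (Nat.find_spec h).2.1⟩
    · exact ⟨hsm (Nat.lt_succ_self j), le_rfl⟩
  have heE : ∀ j d x, x ∈ E j d → eh j x = d := fun j d x hx => by
    simp only [eh, dif_pos (⟨d, hx.1⟩ : ∃ d, P j d x)]
    exact (Nat.find_eq_iff _).2 hx
  let w : ℕ → ℕ → ℤ → ℝ := fun d d' y => 1 - (if sg 4 (N d) d y = -1 then (1 : ℝ) else 0) -
    if sg 4 (N d') d' y = -1 then (1 : ℝ) else 0
  let Φ : X → ℝ := fun x => ∑ j ∈ range J, ∑ y ∈ nd (s J + 4) 0, ∑ d ∈ Ioc (s j) (s (j + 1)),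
    δ * w d (s (j + 1)) y * (E j d).indicator 1 (T^[y.toNat] x)
  have hΦ : ∀ x, Φ x ≤ δ * c / 8 * J * 2 ^ (s J + 4) := fun x => by
    refine le_trans (sum_le_sum fun j _ => sum_le_sum fun y hy => ?_)
      (hfin N (s J) s (fun j y => eh j (T^[y.toNat] x)) (fun i y => f i (T^[y.toNat] x)) hN hsm
        le_rfl (fun j y => heh j _) fun i y => hb i _)
    have hy0 : 0 ≤ y := by simpa [nd] using (mem_Ico.1 hy).1
    by_cases hx : ∃ d ∈ Ioc (s j) (s (j + 1)), T^[y.toNat] x ∈ E j d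
    · obtain ⟨d, hd, hx⟩ := hx
      rw [sum_eq_single_of_mem d hd fun d' _ hd' => by
        rw [Set.indicator_of_notMem fun h => hd' ((heE j d' _ h).symm.trans (heE j d _ hx)),
          mul_zero], Set.indicator_of_mem hx, heE j d _ hx, Pi.one_apply, mul_one]
      rcases sg_cases 4 (N d) d y with h1 | h1
      · rcases sg_cases 4 (N (s (j + 1))) (s (j + 1)) y with h2 | h2
        · rw [At, At, h1, h2, transfer_tav T f _ x hy0, transfer_tav T f _ x hy0,
            ← Complex.ofReal_sub, Complex.norm_real, Real.norm_eq_abs]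
          simp only [w, h1, h2]
          norm_num
          exact hx.1.2.2.le
        · refine le_trans ?_ (norm_nonneg _)
          simp [w, h1, h2]
      · refine le_trans (mul_nonpos_of_nonneg_of_nonpos hδ.le ?_) (norm_nonneg _)
        simp only [w, h1]
        split_ifs <;> norm_num at *
    · push Not at hx
      rw [sum_eq_zero fun d hd => by rw [Set.indicator_of_notMem (hx d hd), mul_zero]]
      exact norm_nonneg _
  have hint : ∀ j d (n : ℕ), Integrable (fun x => (E j d).indicator (1 : X → ℝ) (T^[n] x)) μ :=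
    fun j d n => ((hT.iterate n).integrable_comp_of_integrable
      ((integrable_const (1 : ℝ)).indicator (hE j d)) :)
  have hval : ∀ j d (n : ℕ), ∫ x, (E j d).indicator (1 : X → ℝ) (T^[n] x) ∂μ = μ.real (E j d) :=
    fun j d n => by
      rw [← integral_indicator_one (hE j d), ← (hT.iterate n).map_eq, integral_map
        (hT.iterate n).measurable.aemeasurable
        (measurable_one.indicator (hE j d)).aestronglyMeasurable, (hT.iterate n).map_eq]
  have hi1 : ∀ j (y : ℤ) d, Integrable (fun x => δ * w d (s (j + 1)) y *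
      (E j d).indicator (1 : X → ℝ) (T^[y.toNat] x)) μ := fun j y d => (hint j d _).const_mul _
  have hi2 := fun j (y : ℤ) => integrable_finsetSum (Ioc (s j) (s (j + 1))) fun d _ => hi1 j y d
  have hi3 := fun j => integrable_finsetSum (nd (s J + 4) 0) fun y _ => hi2 j y
  have h1 : ∫ x, Φ x ∂μ ≤ δ * c / 8 * J * 2 ^ (s J + 4) := by
    have := integral_mono (integrable_finsetSum (range J) fun j _ => hi3 j)
      (integrable_const (δ * c / 8 * J * 2 ^ (s J + 4))) hΦ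
    simpa using this
  have h2 : ∑ _j ∈ range J, δ * c / 4 * 2 ^ (s J + 4) ≤ ∫ x, Φ x ∂μ := by
    rw [integral_finsetSum _ fun j _ => hi3 j]
    refine sum_le_sum fun j hj => ?_
    rw [integral_finsetSum _ fun y _ => hi2 j y]
    simp only [integral_finsetSum _ fun d _ => hi1 j _ d, integral_const_mul, hval]
    rw [sum_comm]
    have hj' : s (j + 1) ≤ s J := hsm.monotone (mem_range.1 hj)
    calc δ * c / 4 * 2 ^ (s J + 4) = δ * (2 ^ (s J + 4) / 4) * c := by ring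
      _ ≤ δ * (2 ^ (s J + 4) / 4) * ∑ d ∈ Ioc (s j) (s (j + 1)), μ.real (E j d) := by
        gcongr; exact hEc j
      _ ≤ _ := by
        rw [mul_sum]
        refine sum_le_sum fun d hd => ?_
        rw [← sum_mul, ← mul_sum]
        gcongr
        exact transfer_sum_w hN ((mem_Ioc.1 hd).2.trans hj') hj'
  rw [sum_const, card_range, nsmul_eq_mul] at h2
  have : (0 : ℝ) < δ * c * J * 2 ^ (s J + 4) := by positivity
  linarith

lemma transfer_lac (hF : FiniteStmt) (hT : MeasurePreserving T μ μ) (hf : ∀ i, Measurable (f i))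
    (hb : ∀ i x, |f i x| ≤ 1) {N : ℕ → ℕ} (hN : Scales N) :
    ∀ᵐ x ∂μ, ∃ L, Tendsto (fun d => transfer_A T f (N d) x) atTop (𝓝 L) := by
  have h := ae_all_iff.2 fun m : ℕ => measure_eq_zero_iff_ae_notMem.1
    (transfer_null hF hT hf hb hN (δ := 1 / ((m : ℝ) + 1)) (by positivity))
  filter_upwards [h] with x hx
  refine cauchySeq_tendsto_of_complete (Metric.cauchySeq_iff.2 fun ε hε => ?_)
  obtain ⟨m, hm⟩ := exists_nat_one_div_lt (half_pos hε)
  have := hx m
  simp only [Set.mem_ofPred_eq, not_forall, not_exists, not_and, not_lt] at this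
  obtain ⟨s, hs⟩ := this
  exact ⟨s + 1, fun d hd d' hd' => (hs d hd d' hd').trans_lt (by linarith)⟩

lemma transfer_diff {u : ℕ → ℝ} (hu : ∀ n, |u n| ≤ 1) {M M' : ℕ} (h0 : 0 < M') (h : M' ≤ M) :
    |(M : ℝ)⁻¹ * ∑ n ∈ Icc 1 M, u n - (M' : ℝ)⁻¹ * ∑ n ∈ Icc 1 M', u n| ≤ 2 * (M - M') / M := by
  have hb : ∀ S : Finset ℕ, |∑ n ∈ S, u n| ≤ S.card := fun S =>
    (abs_sum_le_sum_abs _ _).trans (by simpa using sum_le_card_nsmul S _ 1 fun n _ => hu n)
  have h1 : ∑ n ∈ Icc 1 M, u n = ∑ n ∈ Icc 1 M', u n + ∑ n ∈ Ioc M' M, u n :=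
    (sum_Ioc_consecutive u (Nat.zero_le M') h).symm
  have h2 := hb (Icc 1 M')
  have h3 := hb (Ioc M' M)
  rw [Nat.card_Icc, Nat.add_sub_cancel] at h2
  rw [Nat.card_Ioc, Nat.cast_sub h] at h3
  have a0 : (0 : ℝ) < M' := by exact_mod_cast h0
  have a1 : (M' : ℝ) ≤ M := by exact_mod_cast h
  have a2 : (0 : ℝ) < M := by linarith
  rw [h1]
  set S := ∑ n ∈ Icc 1 M', u n
  set S' := ∑ n ∈ Ioc M' M, u n
  have h4 : (M : ℝ)⁻¹ * (S + S') - (M' : ℝ)⁻¹ * S = (S' - (M - M') * (S / M')) / M := by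
    field_simp; ring
  have h5 : |S / M'| ≤ 1 := by rw [abs_div, abs_of_pos a0, div_le_one a0]; exact h2
  rw [h4, abs_div, abs_of_pos a2]
  gcongr
  refine (abs_sub _ _).trans ?_
  rw [abs_mul, abs_of_nonneg (sub_nonneg.2 a1)]
  nlinarith [sub_nonneg.2 a1]

/-- The interleaved sequences of scales. -/
def transfer_N (k j b d : ℕ) : ℕ :=
  if k ≤ d ∧ d % 2 = b ∧ 2 ^ k ≤ j ∧ j < 2 ^ (k + 1) then j * 2 ^ (d - k) else 2 ^ d

lemma transfer_scales (k j b : ℕ) : Scales (transfer_N k j b) := fun d => by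
  unfold transfer_N
  split_ifs with h
  · obtain ⟨h1, -, h2, h3⟩ := h
    obtain ⟨e, rfl⟩ := Nat.exists_eq_add_of_le h1
    rw [Nat.add_sub_cancel_left, pow_add, add_right_comm, pow_add 2 (k + 1)]
    exact ⟨Nat.mul_le_mul_right _ h2, Nat.mul_lt_mul_of_pos_right h3 (by positivity)⟩
  · exact ⟨le_rfl, Nat.pow_lt_pow_right (by norm_num) (Nat.lt_succ_self d)⟩

lemma transfer_full {u : ℕ → ℝ} (hu : ∀ n, |u n| ≤ 1)
    (h : ∀ k j b, ∃ L, Tendsto (fun d => ((transfer_N k j b d : ℕ) : ℝ)⁻¹ *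
      ∑ n ∈ Icc 1 (transfer_N k j b d), u n) atTop (𝓝 L)) :
    ∃ L, Tendsto (fun N : ℕ => (N : ℝ)⁻¹ * ∑ n ∈ Icc 1 N, u n) atTop (𝓝 L) := by
  set A : ℕ → ℝ := fun N => (N : ℝ)⁻¹ * ∑ n ∈ Icc 1 N, u n with hA
  obtain ⟨L, hL⟩ := h 0 0 0
  have hL' : Tendsto (fun d => A (2 ^ d)) atTop (𝓝 L) := hL.congr fun d => by simp [transfer_N, hA]
  have h1 : ∀ k j b, Tendsto (fun d => A (transfer_N k j b d)) atTop (𝓝 L) := fun k j b => by
    obtain ⟨L', h'⟩ := h k j b
    rwa [tendsto_nhds_unique_of_frequently_eq hL' h' (frequently_atTop.2 fun m =>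
      ⟨2 * m + (if b = 0 then 1 else 0), by omega, ?_⟩)]
    have : (2 * m + (if b = 0 then 1 else 0)) % 2 ≠ b := by split_ifs <;> omega
    simp only [transfer_N, this, false_and, and_false, if_false, hA]
  refine ⟨L, Metric.tendsto_atTop.2 fun ε hε => ?_⟩
  obtain ⟨k, hk⟩ := exists_pow_lt_of_lt_one (show 0 < ε / 4 by positivity)
    (show (1 / 2 : ℝ) < 1 by norm_num)
  have h2 : ∀ᶠ d in atTop, ∀ j ∈ range (2 ^ (k + 1)), ∀ b ∈ range 2,
      dist (A (transfer_N k j b d)) L < ε / 2 :=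
    (eventually_all_finset _).2 fun j _ => (eventually_all_finset _).2 fun b _ =>
      Metric.tendsto_nhds.1 (h1 k j b) _ (half_pos hε)
  obtain ⟨d₀, hd₀⟩ := eventually_atTop.1 (h2.and (eventually_ge_atTop k))
  refine ⟨2 ^ d₀, fun M hM => ?_⟩
  have hM0 : M ≠ 0 := by have := Nat.two_pow_pos d₀; omega
  obtain ⟨h3, h4⟩ := hd₀ (Nat.log 2 M) (Nat.le_log_of_pow_le (by norm_num) hM)
  obtain ⟨e, he⟩ := Nat.exists_eq_add_of_le h4
  have a1 : 2 ^ (k + e) ≤ M := he ▸ Nat.pow_log_le_self 2 hM0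
  have a2 : M < 2 ^ (k + e + 1) := he ▸ Nat.lt_pow_succ_log_self (by norm_num) M
  have p : 0 < 2 ^ e := by positivity
  have b1 : 2 ^ k ≤ M / 2 ^ e := (Nat.le_div_iff_mul_le p).2 (by rwa [← pow_add])
  have b2 : M / 2 ^ e < 2 ^ (k + 1) :=
    (Nat.div_lt_iff_lt_mul p).2 (by rwa [← pow_add, add_right_comm])
  have h5 := h3 (M / 2 ^ e) (mem_range.2 b2) (Nat.log 2 M % 2)
    (mem_range.2 (Nat.mod_lt _ (by norm_num)))
  rw [transfer_N, if_pos ⟨h4, rfl, b1, b2⟩, he, Nat.add_sub_cancel_left] at h5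
  have h6 := transfer_diff hu (M' := M / 2 ^ e * 2 ^ e)
    (Nat.mul_pos ((Nat.two_pow_pos k).trans_le b1) p) (Nat.div_mul_le_self M _)
  have h7 : 2 * ((M : ℝ) - (M / 2 ^ e * 2 ^ e : ℕ)) / M ≤ 2 * (1 / 2) ^ k := by
    have c1 : (M : ℝ) ≤ (M / 2 ^ e * 2 ^ e : ℕ) + 2 ^ e := by
      exact_mod_cast (Nat.lt_div_mul_add p).le
    have c2 : (2 : ℝ) ^ k * 2 ^ e ≤ M := by rw [← pow_add]; exact_mod_cast a1
    have c3 : (0 : ℝ) < M := by positivity
    rw [div_le_iff₀ c3, one_div, inv_pow, mul_assoc]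
    gcongr
    rw [le_inv_mul_iff₀ (by positivity)]
    exact le_trans (by gcongr; linarith) c2
  rw [Real.dist_eq] at h5 ⊢
  have h8 := abs_sub_le (A M) (A (M / 2 ^ e * 2 ^ e)) L
  linarith

lemma transfer_rep {g : X → ℝ} (hg : MemLp g ⊤ μ) :
    ∃ (C : ℝ) (g' : X → ℝ), Measurable g' ∧ (∀ x, |g' x| ≤ 1) ∧ ∀ᵐ x ∂μ, g x = C * g' x := by
  obtain ⟨C, hC⟩ := eLpNormEssSup_lt_top_iff_isBoundedUnder.1
    (by simpa using hg.2 : eLpNormEssSup g μ < ⊤)
  have hC' : ∀ᵐ x ∂μ, ‖g x‖ ≤ C := hC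
  have hm := hg.1.aemeasurable
  have h0 : (0 : ℝ) < C + 1 := by positivity
  refine ⟨C + 1, fun x => max (-1) (min 1 (hm.mk g x / (C + 1))),
    measurable_const.max (measurable_const.min (hm.measurable_mk.div_const _)),
    fun x => abs_le.2 ⟨le_max_left _ _, max_le (by norm_num) (min_le_left _ _)⟩, ?_⟩
  filter_upwards [hC', hm.ae_eq_mk] with x h1 h2
  rw [Real.norm_eq_abs, abs_le] at h1
  rw [← h2, min_eq_right ((div_le_one h0).2 (by linarith)),
    max_eq_right ((le_div_iff₀ h0).2 (by linarith))]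
  field_simp

theorem main_of (h : FiniteStmt) : MainStmt := by
  intro X _ μ _ T hT f g k hf hg hk
  obtain ⟨C₀, f', m0, b0, e0⟩ := transfer_rep hf
  obtain ⟨C₁, g', m1, b1, e1⟩ := transfer_rep hg
  obtain ⟨C₂, k', m2, b2, e2⟩ := transfer_rep hk
  have hm : ∀ i, Measurable (![f', g', k'] i) := fun i => by fin_cases i <;> assumption
  have hb : ∀ i x, |![f', g', k'] i x| ≤ 1 := fun i => by fin_cases i <;> assumption
  have h1 := ae_all_iff.2 fun a => ae_all_iff.2 fun j => ae_all_iff.2 fun b =>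
    transfer_lac h hT hm hb (transfer_scales a j b)
  have h2 := fun {P : X → Prop} (e : ∀ᵐ x ∂μ, P x) =>
    ae_all_iff.2 fun n : ℕ => (hT.iterate n).quasiMeasurePreserving.ae e
  filter_upwards [h1, h2 e0, h2 e1, h2 e2] with x a0 a1 a2 a3
  obtain ⟨L, hL⟩ := transfer_full
    (u := fun n => f' (T^[n] x) * g' (T^[2 * n] x) * k' (T^[3 * n] x)) (fun n => by
      rw [abs_mul, abs_mul]
      exact mul_le_one₀ (mul_le_one₀ (b0 _) (abs_nonneg _) (b1 _)) (abs_nonneg _) (b2 _)) a0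
  refine ⟨C₀ * C₁ * C₂ * L, (hL.const_mul (C₀ * C₁ * C₂)).congr fun N => ?_⟩
  simp only [a1, a2, a3, mul_sum]
  exact sum_congr rfl fun n _ => by ring

end Pool.Agent.Lib.MP_9721b5_an
end
end

-- part Pool.Agent.Lib.MP_9721b5_an.Finite
section

/-! The chaining: from one level to the finite oscillation inequality. -/

set_option autoImplicit false

open Finset
open scoped Classical ComplexConjugate Pointwise

noncomputable section

namespace Pool.Agent.Lib.MP_9721b5_an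

/-- The weight of the level `d` at `y`. -/
def finK (J : ℕ) (e : ℕ → ℤ → ℕ) (d : ℕ) (y : ℤ) : ℝ :=
  (∑ j ∈ range J, if e j y = d then (1 : ℝ) else 0) / J

/-- Tail sums of the node averages. -/
def finL (l D : ℕ) (κ : ℕ → ℤ → ℝ) (d : ℕ) (y : ℤ) : ℝ := ∑ c ∈ Ico d (D + 1), nav l κ c y

/-- Labels at precision `2 ^ (-a)`. -/
def finLab (l D : ℕ) (κ : ℕ → ℤ → ℝ) (a d : ℕ) (y : ℤ) : ℕ := ⌊2 ^ a * finL l D κ d y⌋₊

/-- The end of the block of `d`. -/
def finTop (s : ℕ → ℕ) (d : ℕ) : ℕ := s (sInf {j | d ≤ s j})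

/-- The last level of the block with the same label. -/
def finPi (l D : ℕ) (κ : ℕ → ℤ → ℝ) (s : ℕ → ℕ) (a d : ℕ) (y : ℤ) : ℕ :=
  Nat.findGreatest (fun c => finLab l D κ a c y = finLab l D κ a d y) (finTop s d)

/-- End points. -/
def finEn (l D : ℕ) (κ : ℕ → ℤ → ℝ) (s : ℕ → ℕ) (J a d : ℕ) (y : ℤ) : Prop :=
  (∃ j ∈ range (J + 1), d = s j) ∨ finLab l D κ a d y ≠ finLab l D κ a (d + 1) y

/-- The weight which is still moving at precision `a`. -/
def finKa (l D : ℕ) (κ : ℕ → ℤ → ℝ) (s : ℕ → ℕ) (a d : ℕ) (y : ℤ) : ℝ :=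
  if d < finPi l D κ s a d y then κ d y else 0

lemma finK_nonneg (J : ℕ) (e : ℕ → ℤ → ℕ) (d : ℕ) (y : ℤ) : 0 ≤ finK J e d y := by
  unfold finK
  positivity

lemma finK_sum {J D : ℕ} {e : ℕ → ℤ → ℕ} {y : ℤ} (he : ∀ j < J, e j y ≤ D) (g : ℕ → ℝ) :
    ∑ d ∈ range (D + 1), finK J e d y * g d = (∑ j ∈ range J, g (e j y)) / J := by
  simp only [finK, div_mul_eq_mul_div, sum_mul]
  rw [← sum_div, sum_comm]
  congr 1
  refine sum_congr rfl fun j hj => ?_
  simp only [ite_mul, one_mul, zero_mul]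
  rw [sum_ite_eq, if_pos (mem_range.2 (Nat.lt_succ_iff.2 (he j (mem_range.1 hj))))]

lemma finK_ne {J : ℕ} {e : ℕ → ℤ → ℕ} {d : ℕ} {y : ℤ} (h : finK J e d y ≠ 0) :
    ∃ j < J, e j y = d := by
  by_contra hne
  push Not at hne
  refine h ?_
  rw [finK, sum_eq_zero fun j hj => if_neg (hne j (mem_range.1 hj)), zero_div]

lemma finK_ge {J : ℕ} {e : ℕ → ℤ → ℕ} {j : ℕ} (hj : j < J) (y : ℤ) :
    1 / (J : ℝ) ≤ finK J e (e j y) y := by
  refine div_le_div_of_nonneg_right ?_ (Nat.cast_nonneg J)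
  have := single_le_sum (f := fun i => if e i y = e j y then (1 : ℝ) else 0)
    (fun i _ => by positivity) (mem_range.2 hj)
  rwa [if_pos rfl] at this

lemma finTop_le {s : ℕ → ℕ} (hs : StrictMono s) (d : ℕ) : d ≤ finTop s d :=
  Nat.sInf_mem (s := {j | d ≤ s j}) ⟨d, hs.id_le d⟩

lemma finTop_eq {s : ℕ → ℕ} (hs : StrictMono s) {d j : ℕ} (h1 : s j < d) (h2 : d ≤ s (j + 1)) :
    finTop s d = s (j + 1) := by
  have h3 : sInf {j | d ≤ s j} ≤ j + 1 := Nat.sInf_le h2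
  have h4 : j < sInf {j | d ≤ s j} := hs.lt_iff_lt.1 (h1.trans_le (finTop_le hs d))
  rw [finTop, le_antisymm h3 h4]

section Lab

variable {l D : ℕ} {κ : ℕ → ℤ → ℝ} {s : ℕ → ℕ}

lemma finL_nonneg (hκ : ∀ d y, 0 ≤ κ d y) (d : ℕ) (y : ℤ) : 0 ≤ finL l D κ d y :=
  sum_nonneg fun c _ => nav_nonneg l hκ c y

lemma finL_anti (hκ : ∀ d y, 0 ≤ κ d y) {d d' : ℕ} (h : d ≤ d') (y : ℤ) :
    finL l D κ d' y ≤ finL l D κ d y :=
  sum_le_sum_of_subset_of_nonneg (Ico_subset_Ico_left h) fun c _ _ => nav_nonneg l hκ c y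

lemma finLab_anti (hκ : ∀ d y, 0 ≤ κ d y) (a : ℕ) {d d' : ℕ} (h : d ≤ d') (y : ℤ) :
    finLab l D κ a d' y ≤ finLab l D κ a d y :=
  Nat.floor_le_floor (mul_le_mul_of_nonneg_left (finL_anti hκ h y) (by positivity))

lemma finLab_det (a : ℕ) {d c : ℕ} (hc : d ≤ c) {y y' : ℤ}
    (h : y / 2 ^ (d + l) = y' / 2 ^ (d + l)) : finLab l D κ a c y = finLab l D κ a c y' := by
  unfold finLab finL
  rw [sum_congr rfl fun c' hc' => nav_det l κ c'
    (div_eq_of_le (Nat.add_le_add_right (hc.trans (mem_Ico.1 hc').1) l) h)]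

lemma finLab_refine {a a' : ℕ} (ha : a ≤ a') {d c : ℕ} {y : ℤ}
    (h : finLab l D κ a' c y = finLab l D κ a' d y) : finLab l D κ a c y = finLab l D κ a d y := by
  obtain ⟨b, rfl⟩ := Nat.exists_eq_add_of_le ha
  have key : ∀ d, finLab l D κ a d y = finLab l D κ (a + b) d y / 2 ^ b := fun d => by
    unfold finLab
    rw [← Nat.floor_div_natCast]
    congr 1
    push_cast
    rw [pow_add]
    field_simp
  rw [key, key, h]

lemma finL_sub_lt (hκ : ∀ d y, 0 ≤ κ d y) {a d d' : ℕ} {y : ℤ} (hd : d ≤ d') (hD : d' ≤ D + 1)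
    (h : finLab l D κ a d y = finLab l D κ a d' y) : ∑ c ∈ Ico d d', nav l κ c y < hf a := by
  have h1 := sum_Ico_consecutive (fun c => nav l κ c y) hd hD
  have h2 : 2 ^ a * finL l D κ d y < finLab l D κ a d y + 1 := Nat.lt_floor_add_one _
  have h3 : (finLab l D κ a d' y : ℝ) ≤ 2 ^ a * finL l D κ d' y :=
    Nat.floor_le (mul_nonneg (by positivity) (finL_nonneg hκ _ _))
  rw [h] at h2
  rw [hf_eq_inv, ← one_div, lt_div_iff₀ (by positivity)]
  unfold finL at h2 h3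
  rw [← h1] at h2
  linarith

lemma finLab_le (hκ : ∀ d y, 0 ≤ κ d y) (a d : ℕ) (y : ℤ) :
    (finLab l D κ a d y : ℝ) ≤ 2 ^ a * finL l D κ 0 y :=
  (Nat.floor_le (mul_nonneg (by positivity) (finL_nonneg hκ _ _))).trans
    (mul_le_mul_of_nonneg_left (finL_anti hκ (Nat.zero_le d) y) (by positivity))

lemma sum_finL {y0 : ℤ} (h1 : ∀ y ∈ nd (D + l) y0, ∑ d ∈ range (D + 1), κ d y ≤ 1) :
    ∑ y ∈ nd (D + l) y0, finL l D κ 0 y ≤ 2 ^ (D + l) := by
  unfold finL
  rw [sum_comm, Nat.Ico_zero_eq_range]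
  have h2 : ∀ c ∈ range (D + 1), ∑ y ∈ nd (D + l) y0, nav l κ c y = ∑ y ∈ nd (D + l) y0, κ c y := by
    intro c hc
    have := sum_nav l c (D + l) (Nat.add_le_add_right (Nat.lt_succ_iff.1 (mem_range.1 hc)) l) y0 κ
      (fun _ => 1) fun _ _ _ => rfl
    simpa only [mul_one] using this
  rw [sum_congr rfl h2, sum_comm]
  refine (sum_le_sum h1).trans ?_
  rw [sum_const, card_nd]
  simp

lemma finite_changes (f : ℕ → ℕ) (hf : ∀ j, f (j + 1) ≤ f j) (n : ℕ) :
    ∑ j ∈ range n, (if f j ≠ f (j + 1) then (1 : ℝ) else 0) ≤ f 0 := by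
  have h1 : ∀ j ∈ range n, (if f j ≠ f (j + 1) then (1 : ℝ) else 0) ≤ (f j : ℝ) - f (j + 1) := by
    intro j _
    split_ifs with h
    · have : f (j + 1) + 1 ≤ f j := lt_of_le_of_ne (hf j) h.symm
      have : ((f (j + 1) + 1 : ℕ) : ℝ) ≤ f j := by exact_mod_cast this
      push_cast at this
      linarith
    · exact sub_nonneg.2 (by exact_mod_cast hf j)
  refine (sum_le_sum h1).trans ?_
  rw [sum_range_sub' (fun j => (f j : ℝ))]
  linarith [(Nat.cast_nonneg (f n) : (0 : ℝ) ≤ f n)]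

lemma le_finPi (hs : StrictMono s) (a d : ℕ) (y : ℤ) : d ≤ finPi l D κ s a d y :=
  Nat.le_findGreatest (P := fun c => finLab l D κ a c y = finLab l D κ a d y) (finTop_le hs d) rfl

lemma finPi_le (a d : ℕ) (y : ℤ) : finPi l D κ s a d y ≤ finTop s d := Nat.findGreatest_le _

lemma finPi_spec (hs : StrictMono s) (a d : ℕ) (y : ℤ) :
    finLab l D κ a (finPi l D κ s a d y) y = finLab l D κ a d y :=
  Nat.findGreatest_spec (P := fun c => finLab l D κ a c y = finLab l D κ a d y) (finTop_le hs d) rfl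

lemma le_finPi_of {a d c : ℕ} {y : ℤ} (hc : c ≤ finTop s d)
    (h : finLab l D κ a c y = finLab l D κ a d y) : c ≤ finPi l D κ s a d y :=
  Nat.le_findGreatest (P := fun c => finLab l D κ a c y = finLab l D κ a d y) hc h

lemma finPi_det (hs : StrictMono s) (a d : ℕ) {y y' : ℤ}
    (h : y / 2 ^ (d + l) = y' / 2 ^ (d + l)) : finPi l D κ s a d y = finPi l D κ s a d y' := by
  have key : ∀ y y' : ℤ, y / 2 ^ (d + l) = y' / 2 ^ (d + l) →
      finPi l D κ s a d y ≤ finPi l D κ s a d y' := fun y y' h =>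
    le_finPi_of (finPi_le a d y) (by
      rw [← finLab_det a (le_finPi hs a d y) h, finPi_spec hs, finLab_det a le_rfl h])
  exact le_antisymm (key _ _ h) (key _ _ h.symm)

lemma finPi_anti (hs : StrictMono s) {a a' : ℕ} (ha : a ≤ a') (d : ℕ) (y : ℤ) :
    finPi l D κ s a' d y ≤ finPi l D κ s a d y :=
  le_finPi_of (finPi_le a' d y) (finLab_refine ha (finPi_spec hs a' d y))

lemma finLab_mid (hκ : ∀ d y, 0 ≤ κ d y) (hs : StrictMono s) {a d c : ℕ} {y : ℤ} (h1 : d ≤ c)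
    (h2 : c ≤ finPi l D κ s a d y) : finLab l D κ a c y = finLab l D κ a d y :=
  le_antisymm (finLab_anti hκ a h1 y) ((finPi_spec hs a d y).ge.trans (finLab_anti hκ a h2 y))

lemma finEn_pi (hs : StrictMono s) {J a a' d j : ℕ} (ha : a ≤ a') (hj : j ≤ J)
    (ht : finTop s d = s j) (y : ℤ) : finEn l D κ s J a' (finPi l D κ s a d y) y := by
  rcases (finPi_le (l := l) (D := D) (κ := κ) (s := s) a d y).eq_or_lt with h | h
  · exact Or.inl ⟨j, mem_range.2 (Nat.lt_succ_iff.2 hj), h.trans ht⟩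
  · refine Or.inr fun h1 => ?_
    have h2 := finLab_refine ha h1.symm
    rw [finPi_spec hs] at h2
    exact absurd (le_finPi_of h h2) (by omega)

lemma finEn_det {J a d : ℕ} {y y' : ℤ} (h : y / 2 ^ (d + l) = y' / 2 ^ (d + l))
    (H : finEn l D κ s J a d y) : finEn l D κ s J a d y' := by
  refine H.imp id fun h1 => ?_
  rwa [← finLab_det a le_rfl h, ← finLab_det a (Nat.le_succ d) h]

lemma finEn_count (hκ : ∀ d y, 0 ≤ κ d y) {y0 : ℤ}
    (h1 : ∀ y ∈ nd (D + l) y0, ∑ d ∈ range (D + 1), κ d y ≤ 1) (J a : ℕ) :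
    ∑ y ∈ nd (D + l) y0, ((range (D + 1)).filter fun d => finEn l D κ s J a d y).card ≤
      (J + 1 + 2 ^ a) * 2 ^ (D + l) := by
  have h2 : ∀ y ∈ nd (D + l) y0,
      ((((range (D + 1)).filter fun d => finEn l D κ s J a d y).card : ℕ) : ℝ) ≤
        (J + 1) + 2 ^ a * finL l D κ 0 y := by
    intro y _
    have h3 : ((range (D + 1)).filter fun d => finEn l D κ s J a d y) ⊆ (range (J + 1)).image s ∪
        (range (D + 1)).filter fun d => finLab l D κ a d y ≠ finLab l D κ a (d + 1) y := by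
      intro d hd
      rcases mem_filter.1 hd with ⟨h4, ⟨j, hj, rfl⟩ | h5⟩
      · exact mem_union_left _ (mem_image_of_mem s hj)
      · exact mem_union_right _ (mem_filter.2 ⟨h4, h5⟩)
    have h4 := (card_le_card h3).trans ((card_union_le _ _).trans
      (Nat.add_le_add_right (card_image_le.trans (card_range _).le) _))
    have h5 := finite_changes (fun d => finLab l D κ a d y)
      (fun d => finLab_anti hκ a (Nat.le_succ d) y) (D + 1)
    rw [sum_boole] at h5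
    have h6 := finLab_le (l := l) (D := D) hκ a 0 y
    have h7 := (Nat.cast_le (α := ℝ)).2 h4
    push_cast at h7
    linarith
  have h3 := sum_le_sum h2
  rw [sum_add_distrib, ← mul_sum, sum_const, card_nd, nsmul_eq_mul] at h3
  have h4 := mul_le_mul_of_nonneg_left (sum_finL h1) (by positivity : (0 : ℝ) ≤ 2 ^ a)
  rw [← Nat.cast_le (α := ℝ)]
  push_cast at h3 ⊢
  linarith

lemma finite_wts (hκ : ∀ d y, 0 ≤ κ d y) (hs : StrictMono s) {y0 : ℤ}
    (h1 : ∀ y ∈ nd (D + l) y0, ∑ d ∈ range (D + 1), κ d y ≤ 1)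
    (h2 : ∀ d y, κ d y ≠ 0 → finTop s d ≤ D) {a a' : ℕ} (ha : a ≤ a') :
    Wts l D y0 (finKa l D κ s a) (finPi l D κ s a) (finPi l D κ s a') (hf a) := by
  have hle : ∀ d y, finKa l D κ s a d y ≤ κ d y := fun d y => by
    unfold finKa
    split_ifs
    exacts [le_rfl, hκ d y]
  refine ⟨fun d y => ?_, fun y hy => (sum_le_sum fun d _ => hle d y).trans (h1 y hy),
    fun d _ y _ h => ⟨le_finPi hs a' d y, finPi_anti hs ha d y, (finPi_le a d y).trans
      (h2 d y fun h3 => h (by rw [finKa, h3, ite_self]))⟩,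
    fun d y y' h => finPi_det hs a d h, fun y _ c => ?_⟩
  · unfold finKa
    split_ifs
    exacts [hκ d y, le_rfl]
  · set S := (range (D + 1)).filter fun d => (d ≤ c ∧ c ≤ finPi l D κ s a d y) ∧
      d < finPi l D κ s a d y with hS
    have h3 : (∑ d ∈ range (D + 1), if d ≤ c ∧ c ≤ finPi l D κ s a d y then
        nav l (finKa l D κ s a) d y else 0) ≤ ∑ d ∈ S, nav l κ d y := by
      rw [hS, sum_filter]
      refine sum_le_sum fun d _ => ?_
      by_cases h4 : d ≤ c ∧ c ≤ finPi l D κ s a d y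
      · rw [if_pos h4]
        by_cases h5 : d < finPi l D κ s a d y
        · rw [if_pos ⟨h4, h5⟩]
          exact nav_mono l hle d y
        · rw [if_neg fun h => h5 h.2, nav, sum_eq_zero, zero_div]
          intro z hz
          rw [finKa, finPi_det hs a d (mem_nd.1 hz), if_neg h5]
      · rw [if_neg h4, if_neg fun h => h4 h.1]
    refine h3.trans ?_
    rcases S.eq_empty_or_nonempty with h4 | h4
    · rw [h4, sum_empty]
      exact (hf_pos a).le
    · obtain ⟨-, ⟨b1, b2⟩, -⟩ := mem_filter.1 (min'_mem S h4)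
      obtain ⟨c0, ⟨c1, c2⟩, c3⟩ := mem_filter.1 (max'_mem S h4)
      refine le_trans (sum_le_sum_of_subset_of_nonneg (fun d hd => mem_Ico.2 ⟨min'_le S d hd,
        Nat.lt_succ_iff.2 (le_max' S d hd)⟩) fun d _ _ => nav_nonneg l hκ d y)
        (finL_sub_lt (D := D) hκ ((min'_le S _ (max'_mem S h4)).trans (Nat.le_succ _))
          (mem_range.1 c0) ?_).le
      rw [← finLab_mid hκ hs b1 b2, finLab_mid hκ hs c1 c2, finLab_mid hκ hs (Nat.le_succ _) c3]

end Lab

lemma finite_core {l D J : ℕ} {s : ℕ → ℕ} {e : ℕ → ℤ → ℕ} (A : ℕ → ℤ → ℂ)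
    (hA : ∀ d y, ‖A d y‖ ≤ 1) (hs : StrictMono s) (hJ : 0 < J) (hD : s J ≤ D)
    (he : ∀ j y, s j < e j y ∧ e j y ≤ s (j + 1)) (a : ℕ → ℕ) (ha : ∀ i, a i ≤ a (i + 1)) (n : ℕ)
    (hn : J * 2 ^ (D + l) ≤ 2 ^ a n) (b : ℕ → ℝ)
    (hb : ∀ i, Osc l D 0 (finKa l D (finK J e) s (a i)) (finPi l D (finK J e) s (a i))
      (finPi l D (finK J e) s (a (i + 1))) A ≤ b i * 2 ^ (D + l)) :
    ∑ j ∈ range J, ∑ y ∈ nd (D + l) 0, ‖A (e j y) y - A (s (j + 1)) y‖ ≤
      (J * ∑ i ∈ range n, b i + 2 * 2 ^ a 0) * 2 ^ (D + l) := by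
  set κ := finK J e with hκdef
  have hκ : ∀ d y, 0 ≤ κ d y := finK_nonneg J e
  have hJ' : (0 : ℝ) < J := by exact_mod_cast hJ
  have heD : ∀ y, ∀ j < J, e j y ≤ D := fun y j hj => (he j y).2.trans ((hs.monotone hj).trans hD)
  have hone : ∀ y ∈ nd (D + l) 0, ∑ d ∈ range (D + 1), κ d y ≤ 1 := fun y _ => by
    have := finK_sum (heD y) fun _ => 1
    simp only [mul_one, sum_const, card_range, nsmul_eq_mul, div_self hJ'.ne'] at this
    exact this.le
  have hfix : ∀ y, ∀ j < J, finPi l D κ s (a n) (e j y) y = e j y := by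
    intro y j hj
    refine le_antisymm (not_lt.1 fun hlt => ?_) (le_finPi hs _ _ _)
    have h1 := finL_sub_lt (D := D) hκ (Nat.le_succ _) (Nat.succ_le_succ (heD y j hj))
      (finLab_mid hκ hs (Nat.le_succ _) hlt).symm
    rw [Nat.Ico_succ_singleton, sum_singleton, nav, hf_eq_inv, div_lt_iff₀ (by positivity)] at h1
    have h2 := (finK_ge hj y).trans (single_le_sum (f := fun z => κ (e j y) z)
      (fun z _ => hκ _ z) (self_mem_nd (e j y + l) y))
    have h3 : (2 : ℝ) ^ (e j y + l) ≤ 2 ^ (D + l) :=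
      pow_le_pow_right₀ (by norm_num) (Nat.add_le_add_right (heD y j hj) l)
    have h4 : (J : ℝ) * 2 ^ (D + l) ≤ 2 ^ a n := by exact_mod_cast hn
    have h5 := h2.trans_lt h1
    rw [div_lt_iff₀ hJ', mul_assoc, lt_inv_mul_iff₀ (by positivity)] at h5
    nlinarith
  have hpt : ∀ y, ∀ j ∈ range J, ‖A (e j y) y - A (s (j + 1)) y‖ ≤
      ∑ i ∈ range n, ‖A (finPi l D κ s (a (i + 1)) (e j y) y) y -
        A (finPi l D κ s (a i) (e j y) y) y‖ +
      2 * if finLab l D κ (a 0) (s j) y ≠ finLab l D κ (a 0) (s (j + 1)) y then 1 else 0 := by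
    intro y j hj
    have h1 := dist_le_range_sum_dist (fun i => A (finPi l D κ s (a i) (e j y) y) y) n
    simp only [hfix y j (mem_range.1 hj)] at h1
    simp only [dist_eq_norm'] at h1
    refine (norm_sub_le_norm_sub_add_norm_sub _ (A (finPi l D κ s (a 0) (e j y) y) y) _).trans
      (add_le_add h1 ?_)
    split_ifs with h2
    · exact (norm_sub_le _ _).trans ((add_le_add (hA _ _) (hA _ _)).trans (by norm_num))
    · have h3 := finTop_eq hs (he j y).1 (he j y).2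
      have h4 : finPi l D κ s (a 0) (e j y) y = s (j + 1) := by
        refine le_antisymm (h3 ▸ finPi_le _ _ _) (le_finPi_of h3.ge ?_)
        refine le_antisymm (finLab_anti hκ _ (he j y).2 y) ?_
        exact (finLab_anti hκ _ (he j y).1.le y).trans (not_not.1 h2).le
      simp [h4]
  rw [sum_comm]
  refine (sum_le_sum fun y _ => sum_le_sum (hpt y)).trans ?_
  simp only [sum_add_distrib]
  rw [add_mul]
  refine add_le_add ?_ ?_
  · rw [mul_assoc, sum_mul, mul_sum, sum_congr rfl fun y _ => sum_comm, sum_comm]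
    refine sum_le_sum fun i _ => le_trans (le_of_eq ?_) (mul_le_mul_of_nonneg_left (hb i) hJ'.le)
    rw [Osc, mul_sum]
    refine sum_congr rfl fun y _ => ?_
    have h1 := finK_sum (heD y) fun d => ‖A (finPi l D κ s (a (i + 1)) d y) y -
      A (finPi l D κ s (a i) d y) y‖
    rw [eq_div_iff hJ'.ne'] at h1
    rw [← h1, mul_comm]
    congr 1
    refine sum_congr rfl fun d _ => ?_
    unfold finKa
    split_ifs with h2
    · rfl
    · have h3 : finPi l D κ s (a i) d y = d := le_antisymm (not_lt.1 h2) (le_finPi hs _ _ _)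
      have h4 : finPi l D κ s (a (i + 1)) d y = d :=
        le_antisymm ((finPi_anti hs (ha i) d y).trans h3.le) (le_finPi hs _ _ _)
      simp [h3, h4]
  · refine le_trans (sum_le_sum fun y _ => ?_) ((mul_sum _ _ _).ge.trans
      (mul_le_mul_of_nonneg_left (sum_finL hone) (by positivity)))
    rw [← mul_sum, mul_assoc]
    refine mul_le_mul_of_nonneg_left ?_ (by norm_num)
    exact (finite_changes (fun j => finLab l D κ (a 0) (s j) y)
      (fun j => finLab_anti hκ _ (hs.monotone (Nat.le_succ j)) y) J).trans (finLab_le hκ _ _ y)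

lemma finite_asym (c C : ℕ) (hc : 0 < c) : ∃ K : ℕ, 2 ≤ K ∧ ∀ x, K ≤ x → (c * x) ^ C ≤ 2 ^ x := by
  have h1 := (tendsto_pow_const_div_const_pow_of_one_lt C (r := 2) (by norm_num)).eventually_le_const
    (show (0 : ℝ) < 1 / (c : ℝ) ^ C by positivity)
  obtain ⟨K, hK⟩ := Filter.eventually_atTop.1 h1
  refine ⟨max K 2, le_max_right _ _, fun x hx => ?_⟩
  have h2 := hK x ((le_max_left _ _).trans hx)
  rw [div_le_div_iff₀ (by positivity) (by positivity), one_mul] at h2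
  rw [← Nat.cast_le (α := ℝ)]
  push_cast
  rw [mul_pow, mul_comm]
  exact h2

theorem finite (h : LevelStmt) : FiniteStmt := by
  obtain ⟨C, hC⟩ := h
  intro δ hδ l hl
  obtain ⟨K, hK2, hK⟩ := finite_asym (32 * 2 ^ (C + 1)) C (by positivity)
  obtain ⟨m0, hm0⟩ := exists_nat_ge (max (8 / δ) (2 ^ l))
  have hm1 : 2 ^ l ≤ m0 := by exact_mod_cast (le_max_right _ _).trans hm0
  have hm2 : 2 ≤ m0 := le_trans (Nat.le_self_pow (by omega) 2) hm1
  have hm3 : 8 ≤ δ * m0 := by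
    have := (le_max_left _ _).trans hm0
    rwa [div_le_iff₀' hδ] at this
  set m : ℕ → ℕ := fun i => m0 * 2 ^ i with hm
  set x : ℕ → ℕ := fun i => K * m i ^ (C + 1) with hx
  have hm_ge : ∀ i, m0 ≤ m i := fun i => Nat.le_mul_of_pos_right _ (by positivity)
  have hxs : ∀ i, x (i + 1) = 2 ^ (C + 1) * x i := fun i => by
    simp only [hx, hm, pow_succ 2 i, mul_pow]
    ring
  have hB : 2 ≤ 2 ^ (C + 1) := Nat.le_self_pow (by omega) 2
  have hmx : ∀ i, m i + m i ^ C ≤ x i := fun i => by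
    have h1 : 1 ≤ m i := by linarith [hm_ge i]
    have h2 : m i ≤ m i ^ (C + 1) := Nat.le_self_pow (by omega) _
    have h3 : m i ^ C ≤ m i ^ (C + 1) := Nat.pow_le_pow_right h1 (by omega)
    have h4 : 2 * m i ^ (C + 1) ≤ x i := Nat.mul_le_mul_right _ hK2
    omega
  have hx0 : ∀ i, x 0 * 2 ^ i ≤ x i := fun i => by
    induction i with
    | zero => simp
    | succ i ih => rw [hxs, pow_succ 2 i]; nlinarith
  have hx1 : ∀ i, x 0 ≤ x i := fun i => le_trans (Nat.le_mul_of_pos_right _ (by positivity)) (hx0 i)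
  have hx2 : m0 ≤ x 0 := (hm_ge 0).trans (le_trans (Nat.le_add_right _ _) (hmx 0))
  refine ⟨2 ^ (32 * x 0), by positivity, fun N D s e F hN hs hD he hF => ?_⟩
  set J := 2 ^ (32 * x 0) with hJ
  have hJ0 : 0 < J := by positivity
  have hJ' : (0 : ℝ) < J := by exact_mod_cast hJ0
  have heD : ∀ y, ∀ j < J, e j y ≤ D := fun y j hj => (he j y).2.trans ((hs.monotone hj).trans hD)
  have hone : ∀ y ∈ nd (D + l) 0, ∑ d ∈ range (D + 1), finK J e d y ≤ 1 := fun y _ => by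
    have := finK_sum (heD y) fun _ => 1
    simp only [mul_one, sum_const, card_range, nsmul_eq_mul, div_self hJ'.ne'] at this
    exact this.le
  have htop : ∀ d y, finK J e d y ≠ 0 → ∃ j ≤ J, finTop s d = s j := fun d y h => by
    obtain ⟨j, hj, rfl⟩ := finK_ne h
    exact ⟨j + 1, hj, finTop_eq hs (he j y).1 (he j y).2⟩
  have ha : ∀ i, 8 * (2 * x i) ≤ 8 * (2 * x (i + 1)) := fun i => by rw [hxs]; nlinarith
  refine (finite_core (At l N fun i y => (F i y : ℂ)) (fun d y => norm_tav_le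
    (fun i y => by rw [Complex.norm_real]; exact hF i y) _ _ _) hs hJ0 hD he
    (fun i => 8 * (2 * x i)) ha (D + l + 1) ?_ (fun i => 2 / m i) fun i => ?_).trans ?_
  · rw [hJ, ← pow_add]
    refine Nat.pow_le_pow_right (by norm_num) ?_
    have h1 := hx0 (D + l + 1)
    have h2 : D + l + 1 < 2 ^ (D + l + 1) := Nat.lt_two_pow_self
    nlinarith
  · have hR1 : 8 * (2 * x i) ≤ 32 * 2 ^ (C + 1) * x i := by nlinarith
    refine (hC (m i) (32 * 2 ^ (C + 1) * x i) (2 * x i) (hm2.trans (hm_ge i))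
      (by have := hmx i; omega) hR1 l D 0 N F _ _ _
      (finEn l D (finK J e) s J (8 * (2 * x (i + 1)))) hl (hm1.trans (hm_ge i)) hN hF
      (finite_wts (finK_nonneg J e) hs hone (fun d y h => ?_) (ha i))
      (fun d y y' h H => finEn_det h H) (fun d _ y _ h => ?_)
      ((finEn_count (finK_nonneg J e) hone J _).trans (Nat.mul_le_mul_right _ ?_))).trans
      (mul_le_mul_of_nonneg_right ?_ (by positivity))
    · obtain ⟨j, hj, h1⟩ := htop d y h
      exact h1.le.trans ((hs.monotone hj).trans hD)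
    · obtain ⟨j, hj, h1⟩ := htop d y fun h3 => h (by rw [finKa, h3, ite_self])
      exact ⟨finEn_pi hs (ha i) hj h1 y, finEn_pi hs le_rfl hj h1 y⟩
    · have h0 := hx1 i
      obtain ⟨r, hr⟩ : ∃ r, 32 * 2 ^ (C + 1) * x i = r + 2 :=
        Nat.exists_eq_add_of_le' (by nlinarith)
      have h1 : J ≤ 2 ^ r := Nat.pow_le_pow_right (by norm_num) (by nlinarith)
      have h2 : 2 ^ (8 * (2 * x (i + 1))) ≤ 2 ^ r :=
        Nat.pow_le_pow_right (by norm_num) (by rw [hxs]; nlinarith)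
      have h3 : 1 ≤ 2 ^ r := Nat.one_le_two_pow
      rw [hr, pow_add]
      omega
    · have h0 : (0 : ℝ) < m i := by exact_mod_cast lt_of_lt_of_le (by norm_num) (hm2.trans (hm_ge i))
      have h1 : K ≤ x i := Nat.le_mul_of_pos_right _ (pow_pos (by exact_mod_cast h0) _)
      have h2 : m i * (2 ^ (m i ^ C) * (32 * 2 ^ (C + 1) * x i) ^ C) ≤ 2 ^ (2 * x i) := by
        refine (Nat.mul_le_mul Nat.lt_two_pow_self.le
          (Nat.mul_le_mul_left _ (hK _ h1))).trans ?_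
        rw [← pow_add, ← pow_add]
        exact Nat.pow_le_pow_right (by norm_num) (by have := hmx i; omega)
      have h3 : (m i : ℝ) * (2 ^ (m i ^ C) * ((32 * 2 ^ (C + 1) * x i : ℕ) : ℝ) ^ C) ≤
          2 ^ (2 * x i) := by exact_mod_cast h2
      rw [show (2 : ℝ) / m i = 1 / m i + 1 / m i by ring, hf_eq_inv]
      refine add_le_add le_rfl ?_
      rw [← div_eq_mul_inv, div_le_div_iff₀ (by positivity) h0]
      linarith
  · refine mul_le_mul_of_nonneg_right ?_ (by positivity)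
    have h0 : (0 : ℝ) < m0 := by exact_mod_cast lt_of_lt_of_le (by norm_num) hm2
    have h1 : ∑ i ∈ range (D + l + 1), (2 : ℝ) / m i ≤ δ / 2 := by
      have h2 : ∀ i, (2 : ℝ) / m i = 2 / m0 * (1 / 2) ^ i := fun i => by
        simp only [hm]
        push_cast
        rw [one_div, inv_pow]
        field_simp
      simp only [h2]
      rw [← mul_sum]
      refine (mul_le_mul_of_nonneg_left (sum_geometric_two_le _) (by positivity)).trans ?_
      rw [div_mul_eq_mul_div, div_le_iff₀ h0]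
      linarith
    have h2 : (J : ℝ) = 2 ^ (8 * (2 * x 0)) * 2 ^ (8 * (2 * x 0)) := by
      rw [hJ, ← pow_add]
      push_cast
      congr 1
      ring
    have h3 : (m0 : ℝ) ≤ 2 ^ (8 * (2 * x 0)) :=
      (nat_le_two_pow m0).trans (pow_le_pow_right₀ (by norm_num) (by omega))
    have h4 : (4 : ℝ) ≤ δ * 2 ^ (8 * (2 * x 0)) := by nlinarith
    have h5 := mul_le_mul_of_nonneg_right h4 (by positivity : (0 : ℝ) ≤ 2 ^ (8 * (2 * x 0)))
    have h6 := mul_le_mul_of_nonneg_left h1 hJ'.le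
    rw [mul_assoc, ← h2] at h5
    linarith

end Pool.Agent.Lib.MP_9721b5_an
end
end

-- part Pool.Agent.Lib.MP_9721b5_an.Cover
section

/-! Covering the large spectra of the derivatives by finitely many local affine maps. -/

set_option autoImplicit false

open Finset
open scoped Classical ComplexConjugate Pointwise

noncomputable section

namespace Pool.Agent.Lib.MP_9721b5_an

variable {p : ℕ} [NeZero p]

/-- A spanning list of large frequencies. -/
lemma cover_list {g : ZMod p → ℂ} {m R : ℕ} (hm : 2 ≤ m) (hmR : m ≤ R) {t : ZMod p}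
    {S : Finset (ZMod p)} (h1 : (1 / m : ℝ) ≤ mass g t S)
    (h2 : ∀ Λ ⊆ S, AddDissociated (Λ : Set (ZMod p)) → Λ.card ≤ R) :
    ∃ θ : Fin R → ZMod p, (∀ j, hf (3 * R) ≤ ‖ft (dl g t) (θ j)‖) ∧ ∃ S' : Finset (ZMod p),
      (1 / (2 * m : ℕ) : ℝ) ≤ mass g t S' ∧
      ∀ ξ ∈ S', ∃ r : Fin R → ℤ, (∀ j, |r j| ≤ 1) ∧ ξ = ∑ j, (r j : ZMod p) * θ j := by
  have hm0 : (0 : ℝ) < m := by exact_mod_cast (by omega : 0 < m)
  obtain ⟨E, hE, hEd, hEs⟩ := exists_diss_span S
  have hS : S.card ≤ 3 ^ R :=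
    (card_le_of_inSpan S E hEs).trans (Nat.pow_le_pow_right (by norm_num) (h2 E hE hEd))
  set a : ℝ := 1 / (2 * m * 3 ^ R) with ha
  set S' := S.filter fun ξ => a ≤ ‖ft (dl g t) ξ‖ ^ 2 with hS'
  have hmass : (1 / (2 * m : ℕ) : ℝ) ≤ mass g t S' := by
    have e1 := sum_filter_add_sum_filter_not S (fun ξ => a ≤ ‖ft (dl g t) ξ‖ ^ 2)
      fun ξ => ‖ft (dl g t) ξ‖ ^ 2
    have e2 : ∑ ξ ∈ S.filter fun ξ => ¬ a ≤ ‖ft (dl g t) ξ‖ ^ 2, ‖ft (dl g t) ξ‖ ^ 2 ≤
        3 ^ R * a := by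
      refine (sum_le_card_nsmul _ _ a fun ξ hξ => (not_le.1 (mem_filter.1 hξ).2).le).trans ?_
      rw [nsmul_eq_mul]
      gcongr
      exact_mod_cast (card_filter_le _ _).trans hS
    have e3 : 3 ^ R * a = 1 / (2 * m) := by
      rw [ha]
      field_simp
    have e4 : (1 / m : ℝ) = 1 / (2 * m) + 1 / (2 * m) := by
      field_simp
      norm_num
    unfold mass at h1 ⊢
    push_cast
    linarith
  have hne : S'.Nonempty := by
    rw [nonempty_iff_ne_empty]
    intro h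
    rw [h] at hmass
    simp only [mass, sum_empty] at hmass
    exact absurd hmass (not_le.2 (by positivity))
  obtain ⟨ξ0, hξ0⟩ := hne
  have hbig : ∀ ξ ∈ S', hf (3 * R) ≤ ‖ft (dl g t) ξ‖ := by
    intro ξ hξ
    refine (hf_anti (by omega : 2 * R ≤ 3 * R)).trans ?_
    refine (pow_le_pow_iff_left₀ (hf_pos _).le (norm_nonneg _) two_ne_zero).1
      (le_trans ?_ (mem_filter.1 hξ).2)
    have b1 : 2 * m * 3 ^ R ≤ 2 ^ (2 * R * 2) := by
      have c1 : m ≤ 2 ^ R := hmR.trans Nat.lt_two_pow_self.le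
      have c2 : 2 ≤ 2 ^ R := (hm.trans hmR).trans Nat.lt_two_pow_self.le
      have c3 : 3 ^ R ≤ 4 ^ R := Nat.pow_le_pow_left (by norm_num) R
      calc 2 * m * 3 ^ R ≤ 2 ^ R * 2 ^ R * 4 ^ R := by gcongr
        _ = 2 ^ (2 * R * 2) := by
          rw [show (4 : ℕ) = 2 ^ 2 by norm_num, ← pow_mul, ← pow_add, ← pow_add]
          congr 1
          ring
    rw [← hf_mul, hf_eq_inv, ha, one_div]
    exact inv_anti₀ (by positivity) (by exact_mod_cast b1)
  obtain ⟨Λ, hΛ, hΛd, hΛs⟩ := exists_diss_span S'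
  have hΛc : Λ.card ≤ R := h2 Λ (hΛ.trans (filter_subset _ _)) hΛd
  obtain ⟨e⟩ : Nonempty (Λ ↪ Fin R) := Function.Embedding.nonempty_of_card_le (by simpa using hΛc)
  refine ⟨Function.extend e Subtype.val fun _ => ξ0, fun j => hbig _ ?_, S', hmass, fun ξ hξ => ?_⟩
  · by_cases hj : ∃ a, e a = j
    · obtain ⟨a, rfl⟩ := hj
      rw [e.injective.extend_apply]
      exact hΛ a.2
    · rw [Function.extend_apply' _ _ _ hj]
      exact hξ0
  · obtain ⟨ε, hε, he⟩ := hΛs ξ hξ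
    refine ⟨Function.extend e (fun a => ε a) fun _ => 0, fun j => ?_, ?_⟩
    · by_cases hj : ∃ a, e a = j
      · obtain ⟨a, rfl⟩ := hj
        rw [e.injective.extend_apply]
        exact hε a
      · rw [Function.extend_apply' _ _ _ hj]
        simp
    · rw [he, ← sum_coe_sort]
      refine Fintype.sum_of_injective e e.injective _ _ (fun j hj => ?_) fun a => ?_
      · rw [Function.extend_apply' _ _ _ hj]
        simp
      · rw [e.injective.extend_apply, e.injective.extend_apply, zsmul_eq_mul]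

/-- Greedy covering. -/
lemma cover_greedy {α β : Type} [Fintype α] (T0 : Finset α) (OK : β → Prop) (On : β → α → Prop)
    (K M : ℕ) (hne : 0 < Fintype.card α)
    (h : ∀ U ⊆ T0, T0.card < K * U.card → ∃ b, OK b ∧ ∃ T' ⊆ U,
      Fintype.card α ≤ M * T'.card ∧ ∀ t ∈ T', On b t) :
    ∃ (L : Finset β) (U : Finset α), (∀ b ∈ L, OK b) ∧ L.card ≤ M + 1 ∧
      K * U.card ≤ T0.card ∧ ∀ t ∈ T0, t ∉ U → ∃ b ∈ L, On b t := by
  have key : ∀ i : ℕ, ∃ L : Finset β, (∀ b ∈ L, OK b) ∧ L.card ≤ i ∧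
      (K * (T0.filter fun t => ∀ b ∈ L, ¬ On b t).card ≤ T0.card ∨
        i * Fintype.card α + M * (T0.filter fun t => ∀ b ∈ L, ¬ On b t).card ≤ M * T0.card) := by
    intro i
    induction i with
    | zero => exact ⟨∅, by simp, by simp, Or.inr (by simp)⟩
    | succ i ih =>
      obtain ⟨L, h1, h2, h3⟩ := ih
      by_cases h4 : K * (T0.filter fun t => ∀ b ∈ L, ¬ On b t).card ≤ T0.card
      · exact ⟨L, h1, by omega, Or.inl h4⟩
      have h5 := h3.resolve_left h4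
      obtain ⟨b, hb, T', hT', hc, hOn⟩ := h _ (filter_subset _ _) (not_le.1 h4)
      refine ⟨insert b L, ?_, (card_insert_le _ _).trans (by omega), Or.inr ?_⟩
      · intro b' hb'
        rcases mem_insert.1 hb' with rfl | hb'
        · exact hb
        · exact h1 b' hb'
      · have h6 : (T0.filter fun t => ∀ b' ∈ insert b L, ¬ On b' t) ⊆
            (T0.filter fun t => ∀ b ∈ L, ¬ On b t) \ T' := by
          intro t ht
          obtain ⟨ht0, ht1⟩ := mem_filter.1 ht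
          exact mem_sdiff.2 ⟨mem_filter.2 ⟨ht0, fun b' hb' => ht1 b' (mem_insert_of_mem hb')⟩,
            fun ht' => ht1 b (mem_insert_self _ _) (hOn t ht')⟩
        have h7 := card_le_card h6
        have h8 := card_sdiff_add_card_eq_card hT'
        have h9 : M * ((T0.filter fun t => ∀ b' ∈ insert b L, ¬ On b' t).card + T'.card) ≤
            M * (T0.filter fun t => ∀ b ∈ L, ¬ On b t).card := Nat.mul_le_mul_left _ (by omega)
        rw [mul_add] at h9
        rw [add_mul, one_mul]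
        omega
  obtain ⟨L, h1, h2, h3⟩ := key (M + 1)
  refine ⟨L, _, h1, h2, h3.resolve_right fun h4 => ?_, fun t ht hU => ?_⟩
  · have h5 : M * T0.card ≤ M * Fintype.card α := Nat.mul_le_mul_left _ (card_le_univ _)
    rw [add_mul, one_mul] at h4
    omega
  · by_contra hcon
    exact hU (mem_filter.2 ⟨ht, fun b hb hO => hcon ⟨b, hb, hO⟩⟩)

theorem cover (hG : GraphStmt) : CoverStmt := by
  obtain ⟨C, hC⟩ := hG
  refine ⟨3 * C + 3, fun m R hm hmR p _ hp h5 g hg hS => ?_⟩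
  have hR : 2 ≤ R := hm.trans hmR
  obtain ⟨n, hn, hG⟩ := hC (3 * R) (by omega)
  obtain ⟨T0, hT0, hS⟩ := hS
  have hl : ∀ t : ZMod p, ∃ θ : Fin R → ZMod p, t ∈ T0 →
      (∀ j, hf (3 * R) ≤ ‖ft (dl g t) (θ j)‖) ∧ ∃ S' : Finset (ZMod p),
      (1 / (2 * m : ℕ) : ℝ) ≤ mass g t S' ∧
      ∀ ξ ∈ S', ∃ r : Fin R → ℤ, (∀ j, |r j| ≤ 1) ∧ ξ = ∑ j, (r j : ZMod p) * θ j := by
    intro t
    by_cases ht : t ∈ T0
    · obtain ⟨S, h1, h2⟩ := hS t ht
      obtain ⟨θ, hθ⟩ := cover_list hm hmR h1 h2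
      exact ⟨θ, fun _ => hθ⟩
    · exact ⟨0, fun h => absurd h ht⟩
  choose θ hθ using hl
  set M := 2 ^ ((3 * R) ^ C) with hM
  let OK : Finset (ZMod p) × (ZMod p → ZMod p) × ZMod p × ZMod p → Prop := fun b =>
    b.1.card ≤ (3 * R) ^ C ∧ AddOn (bohr b.1 (hf n)) b.2.1 ∧ SymOn (bohr b.1 (hf n)) b.2.1 (1 / 10)
  let On : Fin R → Finset (ZMod p) × (ZMod p → ZMod p) × ZMod p × ZMod p → ZMod p → Prop :=
    fun j b t => t - b.2.2.1 ∈ bohr b.1 (hf n / 4) ∧ θ t j = 2 * b.2.1 (t - b.2.2.1) + b.2.2.2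
  have hcov : ∀ j : Fin R,
      ∃ (L : Finset (Finset (ZMod p) × (ZMod p → ZMod p) × ZMod p × ZMod p)) (U : Finset (ZMod p)),
      (∀ b ∈ L, OK b) ∧ L.card ≤ M + 1 ∧ 2 * R * U.card ≤ T0.card ∧
        ∀ t ∈ T0, t ∉ U → ∃ b ∈ L, On j b t := by
    intro j
    refine cover_greedy T0 OK (On j) (2 * R) M Fintype.card_pos fun U hU hc => ?_
    have h1 : p ≤ 2 ^ (3 * R) * U.card := by
      have h2 : 2 * R ≤ 2 ^ (2 * R) := Nat.lt_two_pow_self.le
      calc p ≤ 2 ^ R * T0.card := hT0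
        _ ≤ 2 ^ R * (2 ^ (2 * R) * U.card) :=
          Nat.mul_le_mul_left _ (hc.le.trans (Nat.mul_le_mul_right _ h2))
        _ = _ := by ring
    obtain ⟨Γ, ψ, τ, c, T', a1, a2, a3, a4, a5, a6⟩ := hG p hp h5 g U (fun t => θ t j) hg h1
      fun t ht => (hθ t (hU ht)).1 j
    exact ⟨(Γ, ψ, τ, c), ⟨a1, a2, a3⟩, T', a4, by rw [ZMod.card]; exact a5, a6⟩
  choose L U hL1 hL2 hL3 hL4 using hcov
  obtain ⟨T1, hT1, hhalf, hT1c⟩ : ∃ T1 ⊆ T0, T0.card ≤ 2 * T1.card ∧
      ∀ t ∈ T1, ∀ j, ∃ b ∈ L j, On j b t := by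
    refine ⟨T0 \ univ.biUnion U, sdiff_subset, ?_, fun t ht j => hL4 j t (mem_sdiff.1 ht).1
      fun h => (mem_sdiff.1 ht).2 (mem_biUnion.2 ⟨j, mem_univ _, h⟩)⟩
    have h1 := card_le_card_sdiff_add_card (s := T0) (t := univ.biUnion U)
    have h3 : (univ.biUnion U).card ≤ ∑ j, (U j).card := card_biUnion_le
    have h4 : 2 * R * ∑ j, (U j).card ≤ R * T0.card := by
      rw [mul_sum]
      refine (sum_le_card_nsmul _ _ _ fun j _ => hL3 j).trans ?_
      simp
    have h6 : R * (2 * (univ.biUnion U).card) ≤ R * T0.card := by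
      refine le_trans ?_ h4
      rw [← mul_assoc, mul_comm R 2]
      exact Nat.mul_le_mul_left _ h3
    have h7 := Nat.le_of_mul_le_mul_left h6 (by omega)
    omega
  have hlab : ∀ t : ZMod p, ∃ lab : Fin R → Finset (ZMod p) × (ZMod p → ZMod p) × ZMod p × ZMod p,
      t ∈ T1 → ∀ j, lab j ∈ L j ∧ On j (lab j) t := by
    intro t
    by_cases ht : t ∈ T1
    · choose lab h1 using hT1c t ht
      exact ⟨lab, fun _ => h1⟩
    · exact ⟨fun _ => (∅, 0, 0, 0), fun h => absurd h ht⟩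
  choose lab hlab using hlab
  have hp0 : 0 < p := by omega
  have hmem : ∀ t ∈ T1, lab t ∈ Fintype.piFinset L := fun t ht =>
    Fintype.mem_piFinset.2 fun j => (hlab t ht j).1
  obtain ⟨t1, ht1⟩ : T1.Nonempty := by
    rw [← card_pos]
    by_contra h
    have h1 : T0.card = 0 := by omega
    rw [h1] at hT0
    omega
  obtain ⟨b, hb, hcard⟩ := exists_fiber T1 (Fintype.piFinset L) ⟨_, hmem t1 ht1⟩ lab hmem
  obtain ⟨T2, hT2c, hT2⟩ : ∃ T2 : Finset (ZMod p),
      T1.card ≤ (Fintype.piFinset L).card * T2.card ∧ ∀ t ∈ T2, t ∈ T0 ∧ ∀ j, On j (b j) t := by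
    refine ⟨_, hcard, fun t ht => ?_⟩
    obtain ⟨h1, h2⟩ := mem_filter.1 ht
    exact ⟨hT1 h1, fun j => h2 ▸ (hlab t h1 j).2⟩
  have hOK : ∀ j, OK (b j) := fun j => hL1 j _ (Fintype.mem_piFinset.1 hb j)
  obtain ⟨τ, hτ⟩ : T2.Nonempty := by
    rw [← card_pos]
    by_contra h
    have h1 : T2.card = 0 := by omega
    have h2 := card_pos.2 ⟨t1, ht1⟩
    rw [h1] at hT2c
    omega
  have p1 : (3 * R) ^ C ≤ R ^ (3 * C) := pow_le_pow_of (by nlinarith [Nat.mul_le_mul hR hR])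
  have p2 : R ≤ R ^ 1 := by simp
  have p3 : R * (3 * R) ^ C ≤ R ^ (1 + 3 * C) := mul_le_pow p2 p1
  have p4 : (3 * R) ^ C + 1 ≤ R ^ (3 * C + 1) :=
    add_le_pow hR p1 (Nat.one_le_pow _ _ (by omega))
  have p5 : R + 1 ≤ R ^ (1 + 1) := add_le_pow hR p2 (by omega)
  have p6 : R + 1 + ((3 * R) ^ C + 1) * R ≤ R ^ (3 * C + 2 + 1) :=
    add_le_pow hR (le_pow_mono hR p5 (by omega)) (mul_le_pow (c := 3 * C + 1) (d := 1) p4 p2)
  have hn0 := hf_pos n
  have hsub : ∀ j, (b j).1 ⊆ univ.biUnion fun j => (b j).1 := fun j =>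
    subset_biUnion_of_mem (fun j => (b j).1) (mem_univ j)
  have hd : ∀ t ∈ T2, ∀ j, t - τ ∈ bohr (b j).1 (hf n / 2) := fun t ht j => by
    have := sub_mem_bohr ((hT2 t ht).2 j).1 ((hT2 τ hτ).2 j).1
    rw [sub_sub_sub_cancel_right] at this
    exact mem_bohr_of_le this (by linarith)
  refine ⟨R, n, univ.biUnion fun j => (b j).1, fun j => (b j).2.1,
    fun j => 2 * (b j).2.1 (τ - (b j).2.2.1) + (b j).2.2.2, τ, T2, le_pow_mono hR p2 (by omega),
    le_pow_mono hR (hn.trans p1) (by omega), ?_, fun j => ?_, ?_, fun t ht => ⟨?_, ?_⟩⟩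
  · refine card_biUnion_le.trans ((sum_le_card_nsmul _ _ _ fun j _ => (hOK j).1).trans ?_)
    simpa using le_pow_mono hR p3 (by omega)
  · exact ⟨(hOK j).2.1.mono (bohr_mono (hsub j) le_rfl),
      (hOK j).2.2.mono (bohr_mono (hsub j) le_rfl) le_rfl⟩
  · have h1 : (Fintype.piFinset L).card ≤ 2 ^ (((3 * R) ^ C + 1) * R) := by
      rw [Fintype.card_piFinset, pow_mul]
      refine (prod_le_pow_card _ _ (2 ^ ((3 * R) ^ C + 1)) fun j _ => (hL2 j).trans ?_).trans
        (by simp)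
      have : 1 ≤ M := Nat.one_le_two_pow
      rw [pow_succ, ← hM]
      omega
    calc p ≤ 2 ^ R * T0.card := hT0
      _ ≤ 2 ^ R * (2 * (2 ^ (((3 * R) ^ C + 1) * R) * T2.card)) := by
        gcongr
        refine hhalf.trans ?_
        gcongr
        exact hT2c.trans (Nat.mul_le_mul_right _ h1)
      _ = 2 ^ (R + 1 + ((3 * R) ^ C + 1) * R) * T2.card := by ring
      _ ≤ _ := Nat.mul_le_mul_right _ (Nat.pow_le_pow_right (by norm_num) p6)
  · refine mem_bohr.2 fun γ hγ => ?_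
    obtain ⟨j, -, hj⟩ := mem_biUnion.1 hγ
    exact mem_bohr.1 (hd t ht j) γ hj
  · obtain ⟨S', h1, h2⟩ := (hθ t (hT2 t ht).1).2
    refine ⟨S', h1, fun ξ hξ => ?_⟩
    obtain ⟨r, hr, he⟩ := h2 ξ hξ
    refine ⟨r, hr, he.trans (sum_congr rfl fun j _ => ?_)⟩
    have h3 := (hOK j).2.1.map_sub (mem_bohr_of_le ((hT2 t ht).2 j).1 (by linarith))
      (mem_bohr_of_le ((hT2 τ hτ).2 j).1 (by linarith))
      (by rw [sub_sub_sub_cancel_right]; exact mem_bohr_of_le (hd t ht j) (by linarith))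
    rw [sub_sub_sub_cancel_right] at h3
    simp only [((hT2 t ht).2 j).2, h3]
    ring

end Pool.Agent.Lib.MP_9721b5_an
end
end
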