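import Pool.Agent.Lib.MP_9721b5_an.Basic
import Pool.Agent.Shared.AddComb.BSG

-- part Pool.Agent.Lib.MP_9721b5_an.BSG
section

/-!
The Balog-Szemeredi-Gowers theorem, in the form used here.
-/

set_option autoImplicit false

open Finset
open scoped Classical ComplexConjugate Pointwise

noncomputable section

namespace Pool.Agent.Lib.MP_9721b5_an

theorem bsg : BSGStmt := by
  intro G _ _ A R h
  rcases A.eq_empty_or_nonempty with rfl | hA
  · exact ⟨∅, Subset.refl _, by simp, by simp⟩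
  obtain ⟨B, h1, h2, h3⟩ := Pool.Agent.Shared.AddComb.bsg hA (K := 2 ^ R) (by positivity)
    (by exact_mod_cast h)
  have hB : (0 : ℝ) ≤ B.card := Nat.cast_nonneg _
  refine ⟨B, h1, ?_, ?_⟩
  · have : (A.card : ℝ) ≤ 2 ^ (R + 4) * B.card := by
      refine h2.trans (mul_le_mul_of_nonneg_right ?_ hB)
      rw [pow_add]
      nlinarith [pow_pos (two_pos (α := ℝ)) R]
    exact_mod_cast this
  · have : ((B - B).card : ℝ) ≤ 2 ^ (6 * R + 20) * B.card := by
      refine h3.trans (mul_le_mul_of_nonneg_right ?_ hB)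
      rw [pow_add, ← pow_mul, mul_comm R 6]
      nlinarith [pow_pos (two_pos (α := ℝ)) (6 * R)]
    exact_mod_cast this

end Pool.Agent.Lib.MP_9721b5_an
end
end

-- part Pool.Agent.Lib.MP_9721b5_an.Chain
section

/-!
A nested chain of dissociated spanning sets.
-/

set_option autoImplicit false

open Finset
open scoped Classical ComplexConjugate Pointwise

noncomputable section

namespace Pool.Agent.Lib.MP_9721b5_an

lemma chain_aux {G : Type} [AddCommGroup G] (D : ℕ) (S : ℕ → Finset G)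
    (hS : ∀ d, S (d + 1) ⊆ S d) : ∃ E : ℕ → Finset G, (∀ d, d < D → E (d + 1) ⊆ E d) ∧
      ∀ d ≤ D, E d ⊆ S d ∧ AddDissociated (E d : Set G) ∧ ∀ v ∈ S d, InSpan (E d) v := by
  induction D generalizing S with
  | zero =>
    obtain ⟨E, h⟩ := exists_diss_span (S 0)
    exact ⟨fun _ => E, fun _ _ => Subset.rfl, fun d hd => Nat.le_zero.1 hd ▸ h⟩
  | succ D ih =>
    obtain ⟨E, h1, h2⟩ := ih (fun d => S (d + 1)) fun d => hS _
    obtain ⟨h3, h4, -⟩ := h2 0 D.zero_le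
    obtain ⟨E0, h5, h6⟩ := exists_diss_span_ext (S 0) (E 0) (h3.trans (hS 0)) h4
    refine ⟨fun d => Nat.casesOn d E0 E, fun d hd => ?_, fun d hd => ?_⟩
    · cases d
      exacts [h5, h1 _ (by omega)]
    · cases d
      exacts [h6, h2 _ (by omega)]

theorem chain : ChainStmt := by
  refine ⟨5, fun R hR ι _ S D hι hS hb => ?_⟩
  have hf : ∀ d, (S d).Finite := fun d =>
    (Set.finite_Icc (fun _ => (-2 ^ R : ℤ)) fun _ => 2 ^ R).subset fun v hv =>
      ⟨fun j => (abs_le.1 (hb d v hv j)).1, fun j => (abs_le.1 (hb d v hv j)).2⟩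
  obtain ⟨E, h1, h2⟩ := chain_aux D (fun d => (hf d).toFinset) fun d =>
    Set.Finite.toFinset_mono (hS d)
  refine ⟨E, h1, fun d hd => ?_⟩
  obtain ⟨h3, h4, h5⟩ := h2 d hd
  have h6 : ∀ v ∈ E d, v ∈ S d := fun v hv => (hf d).mem_toFinset.1 (h3 hv)
  exact ⟨h6, diss_card hR hι _ h4 fun v hv => hb d v (h6 v hv),
    fun v hv => h5 v ((hf d).mem_toFinset.2 hv)⟩

end Pool.Agent.Lib.MP_9721b5_an
end
end

-- part Pool.Agent.Lib.MP_9721b5_an.Bump
section

/-! The Fourier expansion of the bump and its averages. -/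

set_option autoImplicit false

open Finset
open scoped Classical ComplexConjugate Pointwise

noncomputable section

namespace Pool.Agent.Lib.MP_9721b5_an

lemma bumpf_one (x : Tor) (n : ℕ) : ((((1 + (ex x).re) / 2) ^ n : ℝ) : ℂ) =
    ∑ k ∈ range (2 * n + 1), (((2 * n).choose k / 4 ^ n : ℝ) : ℂ) * ex (((k : ℤ) - n) • x) := by
  have h0 := ex_ne_zero x
  have h1 : (((1 + (ex x).re) / 2 : ℝ) : ℂ) = (ex x + 1) ^ 2 / (4 * ex x) := by
    have h2 := Complex.add_conj (ex x)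
    have h3 := ex_mul_neg x
    rw [← conj_ex] at h3
    push_cast at h2 ⊢
    field_simp
    linear_combination (-2 * ex x) * h2 + 2 * h3
  rw [Complex.ofReal_pow, h1, div_pow, ← pow_mul, add_pow, sum_div]
  refine sum_congr rfl fun k _ => ?_
  rw [ex_zsmul, zpow_sub₀ h0, zpow_natCast, zpow_natCast, mul_pow, one_pow]
  push_cast
  field_simp

lemma bumpf_sum (n : ℕ) : ∑ k ∈ range (2 * n + 1), ((2 * n).choose k / 4 ^ n : ℝ) = 1 := by
  have := bumpf_one 0 n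
  simp only [ex_zero, smul_zero, mul_one, Complex.one_re] at this
  norm_num only [one_pow] at this
  exact_mod_cast this.symm

lemma bumpf_expand (Γ : Finset Tor) (n : ℕ) : ∃ (S : Finset (Γ → ℕ)) (v : (Γ → ℕ) → Γ → ℤ)
    (c : (Γ → ℕ) → ℝ), (∀ k, 0 ≤ c k) ∧ ∑ k ∈ S, c k = 1 ∧ (∀ k ∈ S, ∀ γ, |v k γ| ≤ n) ∧
    (∃ k ∈ S, v k = 0 ∧ (1 / (2 * n + 1) : ℝ) ^ Γ.card ≤ c k) ∧
    ∀ h : ℤ, (bump Γ n h : ℂ) = ∑ k ∈ S, c k * ex (h • lin Γ (v k)) := by
  refine ⟨Fintype.piFinset fun _ => range (2 * n + 1), fun k γ => (k γ : ℤ) - n,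
    fun k => ∏ γ, ((2 * n).choose (k γ) / 4 ^ n : ℝ), fun k => by positivity, ?_, fun k hk γ => ?_,
    ⟨fun _ => n, by simp; omega, by funext γ; simp, ?_⟩, fun h => ?_⟩
  · rw [← prod_univ_sum (fun _ : Γ => range (2 * n + 1))
      fun _ k => ((2 * n).choose k / 4 ^ n : ℝ)]
    simp only [bumpf_sum, prod_const_one]
  · have := mem_range.1 (Fintype.mem_piFinset.1 hk γ)
    simp only [abs_le]; omega
  · simp only []
    rw [prod_const, card_univ, Fintype.card_coe]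
    refine pow_le_pow_left₀ (by positivity) ?_ _
    rw [div_le_div_iff₀ (by positivity) (by positivity), one_mul, mul_comm]
    exact_mod_cast Nat.four_pow_le_two_mul_add_one_mul_central_binom n
  · rw [bump, ← prod_coe_sort, Complex.ofReal_prod]
    simp only [bumpf_one]
    rw [prod_univ_sum]
    refine sum_congr rfl fun k _ => ?_
    rw [prod_mul_distrib, Complex.ofReal_prod, lin, smul_sum, ex_sum]
    simp only [smul_comm h]

lemma bumpf_mix {ι : Type} (S : Finset ι) (c : ι → ℝ) (h0 : ∀ k, 0 ≤ c k) (h1 : ∑ k ∈ S, c k = 1)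
    (D : ι → ℂ) (F : ι → Prop) [DecidablePred F] {B : ℝ} (hF : ∀ k ∈ S, F k → ‖D k - 1‖ ≤ B)
    (hF' : ∀ k ∈ S, ¬ F k → ‖D k‖ ≤ B) :
    ‖∑ k ∈ S, c k * D k - (∑ k ∈ S.filter F, c k : ℝ)‖ ≤ B := by
  rw [sum_filter, Complex.ofReal_sum, ← sum_sub_distrib, ← one_mul B, ← h1, sum_mul]
  refine norm_sum_le_of_le _ fun k hk => ?_
  split_ifs with h
  · rw [← mul_sub_one, norm_mul, Complex.norm_real, Real.norm_of_nonneg (h0 k)]
    exact mul_le_mul_of_nonneg_left (hF k hk h) (h0 k)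
  · rw [Complex.ofReal_zero, sub_zero, norm_mul, Complex.norm_real, Real.norm_of_nonneg (h0 k)]
    exact mul_le_mul_of_nonneg_left (hF' k hk h) (h0 k)

lemma bumpf_near (θ : Tor) (x : ℤ) {s : ℤ} (hs : s = 1 ∨ s = -1) {N : ℕ} (hN : 1 ≤ N) :
    ‖(∑ m ∈ Icc (1 : ℤ) N, ex ((x + s * m) • θ)) / N - 1‖ ≤ 63 / 10 * ((|(x : ℝ)| + N) * ‖θ‖) := by
  have h0 : (0 : ℝ) < N := by exact_mod_cast hN
  have h1 : (∑ m ∈ Icc (1 : ℤ) N, ex ((x + s * m) • θ)) / N - 1 =
      (∑ m ∈ Icc (1 : ℤ) N, (ex ((x + s * m) • θ) - 1)) / N := by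
    have : (N : ℂ) ≠ 0 := by exact_mod_cast h0.ne'
    rw [sum_sub_distrib, sub_div]
    simp [this]
  rw [h1, norm_div, Complex.norm_natCast, div_le_iff₀ h0]
  refine (norm_sum_le_of_le _ (n := fun _ => 63 / 10 * ((|(x : ℝ)| + N) * ‖θ‖)) fun m hm => ?_).trans
    (by simp [mul_comm])
  have h2 : |((x + s * m : ℤ) : ℝ)| ≤ |(x : ℝ)| + N := by
    have h3 := mem_Icc.1 hm
    have h4 : |x + s * m| ≤ |x| + N := (abs_add_le _ _).trans (by
      rcases hs with rfl | rfl <;> simp [abs_le] <;> omega)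
    exact_mod_cast h4
  refine (ex_sub_one_le _).trans (mul_le_mul (by linarith [Real.pi_lt_d2]) ((norm_zsmul_le' _ _).trans
    (mul_le_mul_of_nonneg_right h2 (norm_nonneg _))) (norm_nonneg _) (by norm_num))

lemma bumpf_far (θ : Tor) (x : ℤ) {s : ℤ} (hs : s = 1 ∨ s = -1) {N : ℕ} (hN : 1 ≤ N) {B : ℝ}
    (hB : 0 < B) (h : 1 / (2 * B * N) ≤ ‖θ‖) :
    ‖(∑ m ∈ Icc (1 : ℤ) N, ex ((x + s * m) • θ)) / N‖ ≤ B := by
  have h0 : (0 : ℝ) < N := by exact_mod_cast hN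
  obtain ⟨a, ha⟩ : ∃ a : ℤ, ∑ m ∈ Icc (1 : ℤ) N, ex ((x + s * m) • θ) =
      ∑ j ∈ Ico a (a + N), ex (j • θ) := by
    rcases hs with rfl | rfl
    · refine ⟨x + 1, sum_nbij' (fun m => x + 1 * m) (fun j => j - x) ?_ ?_ ?_ ?_ fun _ _ => rfl⟩ <;>
        simp only [mem_Icc, mem_Ico] <;> omega
    · refine ⟨x - N, sum_nbij' (fun m => x + -1 * m) (fun j => x - j) ?_ ?_ ?_ ?_ fun _ _ => rfl⟩ <;>
        simp only [mem_Icc, mem_Ico] <;> omega
  have h1 := geom_le θ a N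
  rw [ha, norm_div, Complex.norm_natCast, div_le_iff₀ h0]
  rw [div_le_iff₀ (by positivity)] at h
  nlinarith [norm_nonneg (∑ j ∈ Ico a (a + N), ex (j • θ)), mul_pos hB h0]

lemma bumpf_fin (Γ : Finset Tor) (n : ℕ) (ξ : Tor) :
    {r : ℝ | ∃ v : Γ → ℤ, (∀ γ, |v γ| ≤ n) ∧ r = ‖ξ + lin Γ v‖}.Finite :=
  ((Set.finite_Icc (fun _ : Γ => -(n : ℤ)) fun _ => n).image fun v => ‖ξ + lin Γ v‖).subset
    fun _ ⟨v, h, e⟩ => ⟨v, ⟨fun γ => (abs_le.1 (h γ)).1, fun γ => (abs_le.1 (h γ)).2⟩, e.symm⟩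

lemma bumpf_avg {ι : Type} (S : Finset ι) (J : Finset ℤ) (c : ι → ℝ) (G : ι → ℤ → ℂ) (N : ℂ) :
    (∑ m ∈ J, ∑ k ∈ S, c k * G k m) / N = ∑ k ∈ S, c k * ((∑ m ∈ J, G k m) / N) := by
  rw [sum_comm, sum_div]
  exact sum_congr rfl fun k _ => by rw [← mul_sum, mul_div_assoc]

lemma bumpf_lin_sub (Γ : Finset Tor) (v w : Γ → ℤ) : lin Γ (v - w) = lin Γ v - lin Γ w := by
  simp [lin, sub_smul]

theorem bumpS : BumpStmt := by
  intro Γ n ε T0 Nb hε hε1 hNb hT hS
  obtain ⟨S, v, c, h0, h1, h2, ⟨k₀, h3, h4, h5⟩, h6⟩ := bumpf_expand Γ n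
  have hNb' : (1 : ℝ) ≤ Nb := by exact_mod_cast hNb
  have hT' : (Nb : ℝ) ≤ T0 := by exact_mod_cast hT
  have hT0 : (0 : ℝ) < T0 := by linarith
  refine ⟨∑ k ∈ S.filter fun k => ‖lin Γ (v k)‖ ≤ ε / T0, c k,
    h5.trans (single_le_sum (fun k _ => h0 k) (mem_filter.2 ⟨h3, by
      simp only [h4, lin, Pi.zero_apply, zero_smul, sum_const_zero, norm_zero]; positivity⟩)),
    (sum_le_sum_of_subset_of_nonneg (filter_subset _ _) fun k _ _ => h0 k).trans_eq h1,
    fun x hx => ?_, fun ξ => ?_⟩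
  · rw [← Real.norm_eq_abs, ← Complex.norm_real, Complex.ofReal_sub, Complex.ofReal_div,
      Complex.ofReal_sum, Complex.ofReal_natCast]
    simp only [h6, show ∀ m : ℤ, x - m = x + -1 * m from fun m => by ring]
    rw [bumpf_avg S _ c fun k m => ex ((x + -1 * m) • lin Γ (v k))]
    refine bumpf_mix S c h0 h1 _ (fun k => ‖lin Γ (v k)‖ ≤ ε / T0) (fun k _ hk => ?_)
      fun k hk hk' => ?_
    · refine (bumpf_near _ x (Or.inr rfl) hNb).trans ?_
      have a1 : |(x : ℝ)| ≤ 2 * T0 := by exact_mod_cast hx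
      have a2 := mul_le_mul (show |(x : ℝ)| + Nb ≤ 3 * T0 by linarith) hk (norm_nonneg _)
        (by positivity)
      rw [show 3 * (T0 : ℝ) * (ε / T0) = 3 * ε by field_simp] at a2
      linarith
    · refine bumpf_far _ x (Or.inr rfl) hNb (by positivity) (le_trans ?_
        ((hS (v k) fun γ => (h2 k hk γ).trans (by omega)).resolve_left hk'))
      exact one_div_le_one_div_of_le (by positivity) (by nlinarith)
  · obtain ⟨v₀, a1, a2⟩ : ∃ v₀ : Γ → ℤ, (∀ γ, |v₀ γ| ≤ n) ∧ dz Γ n ξ = ‖ξ + lin Γ v₀‖ :=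
      Set.Nonempty.csInf_mem (s := {r : ℝ | ∃ v : Γ → ℤ, (∀ γ, |v γ| ≤ n) ∧ r = ‖ξ + lin Γ v‖})
        ⟨_, 0, by simp, rfl⟩ (bumpf_fin Γ n ξ)
    refine ⟨(∑ k ∈ S.filter fun k => ‖lin Γ (v k - v₀)‖ ≤ ε / T0, c k : ℝ), fun N s hs b1 b2 => ?_⟩
    have b3 : (Nb : ℝ) ≤ N := by exact_mod_cast b1
    have b4 : (N : ℝ) ≤ T0 := by exact_mod_cast b2
    have b5 : (0 : ℝ) < N := by linarith
    have b6 : bhat Γ n s N ξ = ∑ k ∈ S, c k *
        ((∑ m ∈ Icc (1 : ℤ) N, ex ((0 + s * m) • (ξ + lin Γ (v k)))) / N) := by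
      rw [← bumpf_avg S _ c fun k m => ex ((0 + s * m) • (ξ + lin Γ (v k))), bhat]
      simp only [h6, sum_mul, zero_add, smul_add, ex_add, mul_assoc, mul_comm (ex (_ • ξ))]
    have b7 : ∀ k, ξ + lin Γ (v k) = ξ + lin Γ v₀ + lin Γ (v k - v₀) := fun k => by
      rw [bumpf_lin_sub]; abel
    rw [b6]
    refine ⟨fun b8 => ?_, fun b8 => ?_⟩
    · refine bumpf_mix S c h0 h1 _ (fun k => ‖lin Γ (v k - v₀)‖ ≤ ε / T0) (fun k _ hk => ?_)
        fun k hk hk' => ?_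
      · refine (bumpf_near _ 0 hs (hNb.trans b1)).trans ?_
        have c1 : ‖ξ + lin Γ (v k)‖ ≤ 32 * ε / N + ε / N := by
          rw [b7]
          exact (norm_add_le _ _).trans (add_le_add (a2 ▸ b8)
            (hk.trans (div_le_div_of_nonneg_left hε.le b5 b4)))
        have c2 := mul_le_mul_of_nonneg_left c1 b5.le
        rw [show (N : ℝ) * (32 * ε / N + ε / N) = 33 * ε by field_simp; ring] at c2
        simp only [Int.cast_zero, abs_zero, zero_add]
        linarith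
      · refine bumpf_far _ 0 hs (hNb.trans b1) (by positivity) ?_
        have c1 := (hS (v k - v₀) fun γ => (abs_sub _ _).trans (by
          have := h2 k hk γ
          have := a1 γ
          omega)).resolve_left hk'
        have c2 := norm_sub_le (ξ + lin Γ (v k)) (ξ + lin Γ v₀)
        rw [b7 k, add_sub_cancel_left, ← b7 k, ← a2] at c2
        have c3 : 1 / (ε * N) ≤ 1 / (ε * Nb) :=
          one_div_le_one_div_of_le (by positivity) (mul_le_mul_of_nonneg_left b3 hε.le)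
        have c4 : 1 / (2 * (300 * ε) * N) + 32 * ε / N ≤ 1 / (ε * N) := by
          rw [div_add_div _ _ (by positivity) (by positivity),
            div_le_div_iff₀ (by positivity) (by positivity)]
          have : 0 ≤ ε * N ^ 2 * (599 - 19200 * ε ^ 2) :=
            mul_nonneg (by positivity) (by nlinarith)
          nlinarith
        linarith
    · have c1 := bumpf_mix S c h0 h1 (fun k =>
        (∑ m ∈ Icc (1 : ℤ) N, ex ((0 + s * m) • (ξ + lin Γ (v k)))) / N) (fun _ => False)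
        (B := 300 * ε) (fun _ _ h => h.elim) fun k hk _ =>
          bumpf_far _ 0 hs (hNb.trans b1) (by positivity) (le_trans
            (one_div_le_one_div_of_le (by positivity) (by nlinarith)) (b8.trans
              (csInf_le (bumpf_fin Γ n ξ).bddBelow ⟨v k, h2 k hk, rfl⟩)))
      simpa using c1

end Pool.Agent.Lib.MP_9721b5_an
end
end

-- part Pool.Agent.Lib.MP_9721b5_an.Approx
section

/-!
Bernstein approximation of a clipped combination of phases by a trigonometric polynomial.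
-/

set_option autoImplicit false

open Finset
open scoped Classical ComplexConjugate Pointwise

noncomputable section

namespace Pool.Agent.Lib.MP_9721b5_an

section Alg

variable {α : Type} [Fintype α] {P : α → ℤ → Tor}

/-- An indexed family of monomials collects into `InAlg`. -/
lemma approx_of_family {ι : Type} (s : Finset ι) (m : ι → α → ℤ) (c : ι → ℂ) {M : ℝ} {D : ℕ}
    {F : ℤ → ℂ} (h1 : ∑ i ∈ s, ‖c i‖ ≤ M) (h2 : ∀ i ∈ s, ∑ a, |m i a| ≤ D)
    (h3 : ∀ y, F y = ∑ i ∈ s, c i * ex (∑ a, m i a • P a y)) : InAlg P M D F := by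
  refine ⟨s.image m, fun v => ∑ i ∈ s with m i = v, c i, ?_, ?_, fun y => ?_⟩
  · refine le_trans (sum_le_sum fun v _ => norm_sum_le _ _) ?_
    rwa [sum_fiberwise_of_maps_to (fun i hi => mem_image_of_mem m hi)]
  · intro v hv
    obtain ⟨i, hi, rfl⟩ := mem_image.1 hv
    exact h2 i hi
  · rw [h3 y, ← sum_fiberwise_of_maps_to (fun i hi => mem_image_of_mem m hi)]
    refine sum_congr rfl fun v _ => ?_
    rw [sum_mul]
    refine sum_congr rfl fun i hi => ?_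
    rw [(mem_filter.1 hi).2]

lemma approx_mono {M M' : ℝ} {D D' : ℕ} {F : ℤ → ℂ} (h : InAlg P M D F) (hM : M ≤ M')
    (hD : D ≤ D') : InAlg P M' D' F := by
  obtain ⟨s, c, h1, h2, h3⟩ := h
  exact ⟨s, c, h1.trans hM, fun v hv => (h2 v hv).trans (by exact_mod_cast hD), h3⟩

lemma approx_congr {M : ℝ} {D : ℕ} {F F' : ℤ → ℂ} (h : InAlg P M D F) (hF : ∀ y, F' y = F y) :
    InAlg P M D F' := by
  obtain ⟨s, c, h1, h2, h3⟩ := h
  exact ⟨s, c, h1, h2, fun y => (hF y).trans (h3 y)⟩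

lemma approx_const (z : ℂ) : InAlg P ‖z‖ 0 fun _ => z :=
  ⟨{0}, fun _ => z, by simp, by simp, by simp⟩

lemma approx_add {M M' : ℝ} {D : ℕ} {F F' : ℤ → ℂ} (h : InAlg P M D F) (h' : InAlg P M' D F') :
    InAlg P (M + M') D fun y => F y + F' y := by
  obtain ⟨s, c, h1, h2, h3⟩ := h
  obtain ⟨s', c', h1', h2', h3'⟩ := h'
  refine approx_of_family (s.disjSum s') (Sum.elim id id) (Sum.elim c c') ?_ ?_ fun y => ?_
  · rw [sum_disjSum]
    exact add_le_add h1 h1'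
  · rintro (v | v) hv
    · exact h2 v (inl_mem_disjSum.1 hv)
    · exact h2' v (inr_mem_disjSum.1 hv)
  · rw [sum_disjSum, h3, h3']
    rfl

lemma approx_mul {M M' : ℝ} {D D' : ℕ} {F F' : ℤ → ℂ} (h : InAlg P M D F)
    (h' : InAlg P M' D' F') : InAlg P (M * M') (D + D') fun y => F y * F' y := by
  obtain ⟨s, c, h1, h2, h3⟩ := h
  obtain ⟨s', c', h1', h2', h3'⟩ := h'
  refine approx_of_family (s ×ˢ s') (fun q => q.1 + q.2) (fun q => c q.1 * c' q.2) ?_ ?_
    fun y => ?_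
  · simp only [norm_mul]
    rw [sum_product' (f := fun v v' => ‖c v‖ * ‖c' v'‖), ← sum_mul_sum]
    have a0 : 0 ≤ ∑ v ∈ s, ‖c v‖ := sum_nonneg fun _ _ => norm_nonneg _
    exact mul_le_mul h1 h1' (sum_nonneg fun _ _ => norm_nonneg _) (a0.trans h1)
  · intro q hq
    rw [mem_product] at hq
    have a1 := h2 _ hq.1
    have a2 := h2' _ hq.2
    have a3 : ∑ a, |(q.1 + q.2) a| ≤ ∑ a, |q.1 a| + ∑ a, |q.2 a| := by
      rw [← sum_add_distrib]
      exact sum_le_sum fun a _ => abs_add_le _ _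
    push_cast
    linarith
  · rw [h3, h3', sum_mul_sum, sum_product]
    refine sum_congr rfl fun v _ => sum_congr rfl fun v' _ => ?_
    simp only [Pi.add_apply, add_smul, sum_add_distrib, ex_add]
    ring

lemma approx_pow {D : ℕ} {F : ℤ → ℂ} (h : InAlg P 1 D F) (n : ℕ) :
    InAlg P 1 (n * D) fun y => F y ^ n := by
  induction n with
  | zero => simpa using approx_const (P := P) 1
  | succ n ih =>
    have := approx_mul ih h
    rw [one_mul, ← Nat.succ_mul] at this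
    exact approx_congr this fun y => pow_succ _ _

lemma approx_sum {ι : Type} (s : Finset ι) {M : ι → ℝ} {D : ℕ} {F : ι → ℤ → ℂ}
    (h : ∀ i ∈ s, InAlg P (M i) D (F i)) :
    InAlg P (∑ i ∈ s, M i) D fun y => ∑ i ∈ s, F i y := by
  induction s using Finset.induction_on with
  | empty => simpa using approx_mono (approx_const (P := P) 0) le_rfl (Nat.zero_le D)
  | insert a s ha ih =>
    simp only [sum_insert ha]
    exact approx_add (h a (mem_insert_self _ _)) (ih fun i hi => h i (mem_insert_of_mem hi))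

lemma approx_single (a : α) (n : ℤ) (hn : |n| ≤ 1) : InAlg P 1 1 fun y => ex (n • P a y) := by
  refine ⟨{Pi.single a n}, fun _ => 1, by simp, fun v hv => ?_, fun y => ?_⟩
  · rw [mem_singleton.1 hv, sum_eq_single a]
    · simpa using hn
    · intro b _ hb
      simp [hb]
    · simp
  · rw [sum_singleton, one_mul, sum_eq_single a]
    · simp
    · intro b _ hb
      simp [hb]
    · simp

lemma approx_re (a : α) (t : ℝ) : InAlg P |t| 1 fun y => ((t * (ex (P a y)).re : ℝ) : ℂ) := by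
  have h1 := approx_mul (approx_const (P := P) (t / 2 : ℝ))
    (approx_add (approx_single (P := P) a 1 (by simp)) (approx_single (P := P) a (-1) (by simp)))
  refine approx_congr (approx_mono h1 (le_of_eq ?_) le_rfl) fun y => ?_
  · rw [Complex.norm_real, Real.norm_eq_abs, abs_div]
    norm_num
  · rw [one_smul, neg_smul, one_smul, ← conj_ex, Complex.add_conj]
    push_cast
    ring

lemma approx_aff (w : α → ℝ) (t : ℝ) (h : |t| * ∑ a, |w a| ≤ 1 / 2) :
    InAlg P 1 1 fun y => ((1 / 2 + t * ∑ a, w a * (ex (P a y)).re : ℝ) : ℂ) := by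
  have h1 := approx_add (approx_mono (approx_const (P := P) ((1 / 2 : ℝ) : ℂ)) le_rfl zero_le_one)
    (approx_sum univ fun a _ => approx_re (P := P) a (t * w a))
  refine approx_congr (approx_mono h1 ?_ le_rfl) fun y => ?_
  · simp only [abs_mul, ← mul_sum]
    rw [Complex.norm_real, Real.norm_eq_abs, abs_of_pos (by norm_num : (0 : ℝ) < 1 / 2)]
    linarith
  · push_cast
    simp only [mul_sum, mul_assoc]

end Alg

lemma approx_abs_clip (u : ℝ) : |clip u| ≤ 1 := by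
  unfold clip
  rw [abs_le]
  exact ⟨le_max_left _ _, max_le (by norm_num) (min_le_left _ _)⟩

lemma approx_clip_lip (u v : ℝ) : |clip u - clip v| ≤ |u - v| := by
  unfold clip
  refine (abs_max_sub_max_le_max _ _ _ _).trans ?_
  rw [sub_self, abs_zero]
  refine max_le (abs_nonneg _) ((abs_min_sub_min_le_max _ _ _ _).trans ?_)
  rw [sub_self, abs_zero]
  exact max_le (abs_nonneg _) le_rfl

lemma approx_dev {k : ℕ} (hk : 1 ≤ k) (x : unitInterval) :
    ∑ j : Fin (k ^ 2 + 1), |(x : ℝ) - (j : ℝ) / (k ^ 2 : ℕ)| * bernstein (k ^ 2) j x ≤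
      1 / (2 * k) := by
  have hk0 : (0 : ℝ) < k := by exact_mod_cast hk
  have h1 := bernstein.probability (k ^ 2) x
  have h2 := bernstein.variance (n := k ^ 2) (by positivity) x
  simp only [bernstein.z] at h2
  have h3 : (x : ℝ) * (1 - x) / (k ^ 2 : ℕ) ≤ 1 / (4 * k ^ 2) := by
    push_cast
    rw [div_le_div_iff₀ (by positivity) (by positivity)]
    nlinarith [mul_nonneg (sq_nonneg (k : ℝ)) (sq_nonneg (2 * (x : ℝ) - 1))]
  have h4 : ∀ d : ℝ, |d| ≤ k * d ^ 2 + 1 / (4 * k) := by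
    intro d
    have : k * d ^ 2 + 1 / (4 * k) - |d| = (2 * k * |d| - 1) ^ 2 / (4 * k) := by
      rw [← sq_abs d]
      field_simp
      ring
    have : 0 ≤ (2 * k * |d| - 1) ^ 2 / (4 * k) := by positivity
    linarith
  calc _ ≤ ∑ j : Fin (k ^ 2 + 1), (k * (((x : ℝ) - (j : ℝ) / (k ^ 2 : ℕ)) ^ 2 *
          bernstein (k ^ 2) j x) + 1 / (4 * k) * bernstein (k ^ 2) j x) := by
        refine sum_le_sum fun j _ => ?_
        have := mul_le_mul_of_nonneg_right (h4 ((x : ℝ) - (j : ℝ) / (k ^ 2 : ℕ)))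
          (bernstein_nonneg (n := k ^ 2) (ν := j) (x := x))
        linarith
    _ = k * ((x : ℝ) * (1 - x) / (k ^ 2 : ℕ)) + 1 / (4 * k) := by
        rw [sum_add_distrib, ← mul_sum, ← mul_sum, h1, h2, mul_one]
    _ ≤ k * (1 / (4 * k ^ 2)) + 1 / (4 * k) := by gcongr
    _ = 1 / (2 * k) := by
        field_simp
        ring

theorem approx : ApproxStmt := by
  intro α _ P w k U hw hU hk
  have hU0 : 0 < U := by linarith
  have hk0 : (0 : ℝ) < k := by exact_mod_cast hk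
  set u : ℤ → ℝ := fun y => ∑ a, w a * (ex (P a y)).re with hu
  have hu1 : ∀ y, |u y| ≤ U := fun y => by
    refine (abs_sum_le_sum_abs _ _).trans (le_trans (sum_le_sum fun a _ => ?_) hw)
    rw [abs_mul]
    exact mul_le_of_le_one_right (abs_nonneg _) (abs_re_ex_le _)
  have hx : ∀ y, 1 / 2 + 1 / (2 * U) * u y ∈ unitInterval := fun y => by
    have h1 := abs_le.1 (hu1 y)
    have h2 : 1 / (2 * U) * u y = u y / U / 2 := by field_simp
    have h3 : -1 ≤ u y / U := by rw [le_div_iff₀ hU0]; linarith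
    have h4 : u y / U ≤ 1 := by rw [div_le_iff₀ hU0]; linarith
    constructor <;> linarith
  set x : ℤ → unitInterval := fun y => ⟨_, hx y⟩ with hxd
  have hxv : ∀ y, (x y : ℝ) = 1 / 2 + 1 / (2 * U) * u y := fun y => rfl
  set φ : Fin (k ^ 2 + 1) → ℝ := fun j => clip (U * (2 * ((j : ℝ) / (k ^ 2 : ℕ)) - 1)) with hφ
  refine ⟨fun y => ∑ j, φ j * bernstein (k ^ 2) j (x y), fun y => ⟨?_, ?_⟩, ?_⟩
  · refine (abs_sum_le_sum_abs _ _).trans ?_
    rw [← bernstein.probability (k ^ 2) (x y)]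
    refine sum_le_sum fun j _ => ?_
    rw [abs_mul, abs_of_nonneg bernstein_nonneg]
    exact mul_le_of_le_one_left bernstein_nonneg (approx_abs_clip _)
  · have h1 : ∑ j, φ j * bernstein (k ^ 2) j (x y) - clip (u y) =
        ∑ j, (φ j - clip (u y)) * bernstein (k ^ 2) j (x y) := by
      simp only [sub_mul, sum_sub_distrib, ← mul_sum, bernstein.probability, mul_one]
    change |∑ j, φ j * bernstein (k ^ 2) j (x y) - clip (u y)| ≤ _
    rw [h1]
    refine (abs_sum_le_sum_abs _ _).trans ?_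
    calc _ ≤ ∑ j : Fin (k ^ 2 + 1), 2 * U * (|(x y : ℝ) - (j : ℝ) / (k ^ 2 : ℕ)| *
            bernstein (k ^ 2) j (x y)) := by
          refine sum_le_sum fun j _ => ?_
          rw [abs_mul, abs_of_nonneg bernstein_nonneg, ← mul_assoc]
          refine mul_le_mul_of_nonneg_right ((approx_clip_lip _ _).trans (le_of_eq ?_))
            bernstein_nonneg
          have : U * (2 * ((j : ℝ) / (k ^ 2 : ℕ)) - 1) - u y =
              -(2 * U) * ((x y : ℝ) - (j : ℝ) / (k ^ 2 : ℕ)) := by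
            rw [hxv]
            field_simp
            ring
          rw [this, abs_mul, abs_neg, abs_of_pos (by positivity)]
      _ ≤ 2 * U * (1 / (2 * k)) := by
          rw [← mul_sum]
          exact mul_le_mul_of_nonneg_left (approx_dev hk _) (by positivity)
      _ = U / k := by field_simp
  · have hb : |1 / (2 * U)| * ∑ a, |w a| ≤ 1 / 2 := by
      rw [abs_of_pos (by positivity), div_mul_eq_mul_div, div_le_iff₀ (by positivity)]
      linarith
    have hX := approx_aff (P := P) w (1 / (2 * U)) hb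
    have hY := approx_aff (P := P) w (-(1 / (2 * U))) (by rwa [abs_neg])
    have hj : ∀ j : Fin (k ^ 2 + 1), InAlg P ((k ^ 2).choose j) (k ^ 2)
        fun y => ((φ j * bernstein (k ^ 2) j (x y) : ℝ) : ℂ) := by
      intro j
      have h1 := approx_mul (approx_const (P := P) ((φ j * (k ^ 2).choose j : ℝ) : ℂ))
        (approx_mul (approx_pow hX j) (approx_pow hY (k ^ 2 - j)))
      refine approx_congr (approx_mono h1 ?_ ?_) fun y => ?_
      · rw [Complex.norm_real, Real.norm_eq_abs, abs_mul, Nat.abs_cast, mul_one, mul_one]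
        exact mul_le_of_le_one_left (Nat.cast_nonneg _) (approx_abs_clip _)
      · have := j.is_le
        omega
      · rw [bernstein_apply, ← Complex.ofReal_pow, ← Complex.ofReal_pow, ← Complex.ofReal_mul,
          ← Complex.ofReal_mul, Complex.ofReal_inj, hxv]
        have : 1 - (1 / 2 + 1 / (2 * U) * u y) = 1 / 2 + -(1 / (2 * U)) * u y := by ring
        rw [this]
        ring
    refine approx_congr (approx_mono (approx_sum univ fun j _ => hj j) (le_of_eq ?_) le_rfl)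
      fun y => ?_
    · rw [Fin.sum_univ_eq_sum_range (fun j => (((k ^ 2).choose j : ℕ) : ℝ))]
      exact_mod_cast Nat.sum_range_choose (k ^ 2)
    · push_cast
      rfl

end Pool.Agent.Lib.MP_9721b5_an
end
end

-- part Pool.Agent.Lib.MP_9721b5_an.Cube
section

/-!
The cube lemma: on a combinatorial cube the largest distance to the lattice of frequencies is
nearly attained twice.
-/

set_option autoImplicit false

open Finset
open scoped Classical ComplexConjugate Pointwise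

noncomputable section

namespace Pool.Agent.Lib.MP_9721b5_an

lemma cube_cs {α β : Type*} (A : Finset α) (X : Finset β) (F : α → β → ℝ) :
    (∑ a ∈ A, ∑ x ∈ X, F a x) ^ 2 ≤ X.card * ∑ p ∈ A ×ˢ A, ∑ x ∈ X, F p.1 x * F p.2 x := by
  rw [sum_comm]
  refine sq_sum_le_card_mul_sum_sq.trans (le_of_eq ?_)
  rw [sum_comm]
  congr 1
  refine sum_congr rfl fun x _ => ?_
  rw [sq, sum_mul_sum, sum_product]

/-- selection of one of the two entries of a pair -/
def cubeSel (p : ℤ × ℤ) (i : Bool) : ℤ := cond i p.1 p.2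

lemma cube_box (A B S : Finset ℤ) (F : ℤ → ℤ → ℤ → ℝ) :
    (∑ a ∈ A, ∑ b ∈ B, ∑ s ∈ S, F a b s) ^ 8 ≤ ((A.card : ℝ) * B.card * S.card) ^ 6 *
      ∑ p ∈ A ×ˢ A, ∑ q ∈ B ×ˢ B, ∑ r ∈ S ×ˢ S, ∏ v : Bool × Bool × Bool,
        F (cubeSel p v.1) (cubeSel q v.2.1) (cubeSel r v.2.2) := by
  have h1 := cube_cs A (B ×ˢ S) fun a x => F a x.1 x.2
  have h2 := cube_cs B ((A ×ˢ A) ×ˢ S) fun b x => F x.1.1 b x.2 * F x.1.2 b x.2
  have h3 := cube_cs S ((A ×ˢ A) ×ˢ (B ×ˢ B)) fun s x =>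
    F x.1.1 x.2.1 s * F x.1.2 x.2.1 s * (F x.1.1 x.2.2 s * F x.1.2 x.2.2 s)
  have e0 : ∑ a ∈ A, ∑ x ∈ B ×ˢ S, F a x.1 x.2 = ∑ a ∈ A, ∑ b ∈ B, ∑ s ∈ S, F a b s :=
    sum_congr rfl fun a _ => sum_product _ _ _
  have e1 : ∑ b ∈ B, ∑ x ∈ (A ×ˢ A) ×ˢ S, F x.1.1 b x.2 * F x.1.2 b x.2 =
      ∑ p ∈ A ×ˢ A, ∑ x ∈ B ×ˢ S, F p.1 x.1 x.2 * F p.2 x.1 x.2 := by
    simp only [sum_product (s := A ×ˢ A) (t := S), sum_product (s := B) (t := S)]
    exact sum_comm
  have e2 : ∑ s ∈ S, ∑ x ∈ (A ×ˢ A) ×ˢ (B ×ˢ B),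
      F x.1.1 x.2.1 s * F x.1.2 x.2.1 s * (F x.1.1 x.2.2 s * F x.1.2 x.2.2 s) =
      ∑ q ∈ B ×ˢ B, ∑ x ∈ (A ×ˢ A) ×ˢ S,
        F x.1.1 q.1 x.2 * F x.1.2 q.1 x.2 * (F x.1.1 q.2 x.2 * F x.1.2 q.2 x.2) := by
    rw [sum_comm, sum_product (s := A ×ˢ A) (t := B ×ˢ B), sum_comm]
    exact sum_congr rfl fun q _ => (sum_product (s := A ×ˢ A) (t := S) (f := fun x =>
      F x.1.1 q.1 x.2 * F x.1.2 q.1 x.2 * (F x.1.1 q.2 x.2 * F x.1.2 q.2 x.2))).symm
  have e3 : ∑ r ∈ S ×ˢ S, ∑ x ∈ (A ×ˢ A) ×ˢ (B ×ˢ B),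
      F x.1.1 x.2.1 r.1 * F x.1.2 x.2.1 r.1 * (F x.1.1 x.2.2 r.1 * F x.1.2 x.2.2 r.1) *
        (F x.1.1 x.2.1 r.2 * F x.1.2 x.2.1 r.2 * (F x.1.1 x.2.2 r.2 * F x.1.2 x.2.2 r.2)) =
      ∑ p ∈ A ×ˢ A, ∑ q ∈ B ×ˢ B, ∑ r ∈ S ×ˢ S, ∏ v : Bool × Bool × Bool,
        F (cubeSel p v.1) (cubeSel q v.2.1) (cubeSel r v.2.2) := by
    rw [sum_comm, sum_product (s := A ×ˢ A) (t := B ×ˢ B)]
    refine sum_congr rfl fun p _ => sum_congr rfl fun q _ => sum_congr rfl fun r _ => ?_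
    simp only [Fintype.prod_prod_type, Fintype.prod_bool, cubeSel, cond_true, cond_false]
    ring
  rw [e0] at h1
  rw [e1] at h2
  rw [e2, e3] at h3
  simp only [card_product, Nat.cast_mul] at h1 h2 h3
  generalize ∑ a ∈ A, ∑ b ∈ B, ∑ s ∈ S, F a b s = T0 at h1 ⊢
  generalize ∑ p ∈ A ×ˢ A, ∑ x ∈ B ×ˢ S, F p.1 x.1 x.2 * F p.2 x.1 x.2 = T1 at h1 h2
  generalize ∑ q ∈ B ×ˢ B, ∑ x ∈ (A ×ˢ A) ×ˢ S,
    F x.1.1 q.1 x.2 * F x.1.2 q.1 x.2 * (F x.1.1 q.2 x.2 * F x.1.2 q.2 x.2) = T2 at h2 h3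
  generalize ∑ p ∈ A ×ˢ A, ∑ q ∈ B ×ˢ B, ∑ r ∈ S ×ˢ S, ∏ v : Bool × Bool × Bool,
    F (cubeSel p v.1) (cubeSel q v.2.1) (cubeSel r v.2.2) = T3 at h3 ⊢
  calc T0 ^ 8 = (T0 ^ 2) ^ 4 := by ring
    _ ≤ ((B.card : ℝ) * S.card * T1) ^ 4 := pow_le_pow_left₀ (sq_nonneg _) h1 4
    _ = ((B.card : ℝ) * S.card) ^ 4 * (T1 ^ 2) ^ 2 := by ring
    _ ≤ ((B.card : ℝ) * S.card) ^ 4 * ((A.card : ℝ) * A.card * S.card * T2) ^ 2 :=
        mul_le_mul_of_nonneg_left (pow_le_pow_left₀ (sq_nonneg _) h2 2) (by positivity)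
    _ = ((B.card : ℝ) * S.card) ^ 4 * ((A.card : ℝ) * A.card * S.card) ^ 2 * T2 ^ 2 := by ring
    _ ≤ ((B.card : ℝ) * S.card) ^ 4 * ((A.card : ℝ) * A.card * S.card) ^ 2 *
          ((A.card : ℝ) * A.card * (B.card * B.card) * T3) :=
        mul_le_mul_of_nonneg_left h3 (by positivity)
    _ = _ := by ring

lemma cube_exists_dz (Γ : Finset Tor) (n : ℕ) (ξ : Tor) :
    ∃ v : Γ → ℤ, (∀ γ, |v γ| ≤ n) ∧ dz Γ n ξ = ‖ξ + lin Γ v‖ := by
  refine Set.Nonempty.csInf_mem (s := {r : ℝ | ∃ v : Γ → ℤ, (∀ γ, |v γ| ≤ n) ∧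
    r = ‖ξ + lin Γ v‖}) ⟨_, 0, by simp, rfl⟩ ?_
  refine ((Fintype.piFinset fun _ : Γ => Icc (-(n : ℤ)) n).finite_toSet.image
    fun v => ‖ξ + lin Γ v‖).subset ?_
  rintro _ ⟨v, hv, rfl⟩
  exact ⟨v, mem_coe.2 (Fintype.mem_piFinset.2 fun γ => mem_Icc.2 (abs_le.1 (hv γ))), rfl⟩

/-- the sign of a vertex -/
def cubeSg (v : Bool × Bool × Bool) : ℤ := cond v.1 1 (-1) * cond v.2.1 1 (-1) * cond v.2.2 1 (-1)

lemma cube_sg (v : Bool × Bool × Bool) : cubeSg v = 1 ∨ cubeSg v = -1 := by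
  revert v
  decide

lemma cube_close {Γ : Finset Tor} {n : ℕ} {ε : ℝ} {T0 Nb : ℕ} (hε : 0 < ε) (hN : 1 ≤ Nb)
    (hT : 1 ≤ T0) (hS : Stab Γ n ε T0 Nb) (ρ : Bool × Bool × Bool → Tor)
    (h0 : ∑ v, cubeSg v • ρ v = 0)
    (hr : ∀ v, 16 * ε / T0 ≤ dz Γ n (ρ v) ∧ dz Γ n (ρ v) ≤ 1 / (4 * ε * Nb)) :
    ∃ v u, v ≠ u ∧ dz Γ n (ρ v) ≤ 8 * dz Γ n (ρ u) ∧ dz Γ n (ρ u) ≤ dz Γ n (ρ v) := by
  choose m hm1 hm2 using fun v => cube_exists_dz Γ n (ρ v)
  obtain ⟨v, -, hv⟩ := exists_max_image univ (fun v => dz Γ n (ρ v)) univ_nonempty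
  by_contra hc
  push Not at hc
  have hlt : ∀ u, u ≠ v → dz Γ n (ρ u) ≤ dz Γ n (ρ v) / 8 := fun u hu => by
    by_contra h
    exact absurd (hc v u hu.symm (by linarith [not_le.1 h])) (not_lt.2 (hv u (mem_univ u)))
  have hn : ∀ u, ‖cubeSg u • (ρ u + lin Γ (m u))‖ = dz Γ n (ρ u) := fun u => by
    rw [hm2]
    rcases cube_sg u with h | h <;> rw [h]
    · rw [one_zsmul]
    · rw [neg_one_zsmul, norm_neg]
  have hlin : lin Γ (fun γ => ∑ u, cubeSg u * m u γ) = ∑ u, cubeSg u • (ρ u + lin Γ (m u)) := by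
    simp only [smul_add, sum_add_distrib, h0, zero_add, lin, sum_smul, smul_sum, mul_smul]
    exact sum_comm
  have hrest : ‖∑ u ∈ univ.erase v, cubeSg u • (ρ u + lin Γ (m u))‖ ≤ 7 * (dz Γ n (ρ v) / 8) := by
    refine (norm_sum_le _ _).trans ((sum_le_card_nsmul _ _ (dz Γ n (ρ v) / 8) fun u hu => ?_).trans_eq ?_)
    · rw [hn]
      exact hlt u (ne_of_mem_erase hu)
    · rw [card_erase_of_mem (mem_univ v)]
      simp
  have hT' : (1 : ℝ) ≤ T0 := by exact_mod_cast hT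
  have hN' : (1 : ℝ) ≤ Nb := by exact_mod_cast hN
  have h1 := hS (fun γ => ∑ u, cubeSg u * m u γ) fun γ => by
    refine (abs_sum_le_sum_abs _ _).trans ((sum_le_card_nsmul _ _ (n : ℤ) fun u _ => ?_).trans_eq
      (by simp))
    rcases cube_sg u with h | h <;> simpa [h] using hm1 u γ
  rw [hlin, ← add_sum_erase _ _ (mem_univ v)] at h1
  have h2 := norm_add_le (cubeSg v • (ρ v + lin Γ (m v)))
    (∑ u ∈ univ.erase v, cubeSg u • (ρ u + lin Γ (m u)))
  have h3 := norm_sub_le (cubeSg v • (ρ v + lin Γ (m v)) +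
    ∑ u ∈ univ.erase v, cubeSg u • (ρ u + lin Γ (m u)))
    (∑ u ∈ univ.erase v, cubeSg u • (ρ u + lin Γ (m u)))
  rw [add_sub_cancel_right, hn] at h3
  rw [hn] at h2
  have p1 : 0 < ε / T0 := by positivity
  have p2 : 0 < 1 / (ε * Nb) := by positivity
  have e1 : 16 * ε / T0 = 16 * (ε / T0) := by ring
  have e2 : 1 / (4 * ε * Nb) = 1 / (ε * Nb) / 4 := by ring
  obtain ⟨r1, r2⟩ := hr v
  rcases h1 with h1 | h1 <;> linarith

lemma cube_pair (C : Finset ℤ) (Y : Finset (ℤ × ℤ)) (t : ℤ × ℤ → ℝ) (ht : ∀ z, 0 ≤ t z)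
    {i i' : Bool} (h : i ≠ i') {c : ℤ} (hc : c ≠ 0) (e e' : ℤ) :
    ∑ p ∈ C ×ˢ C, (if (c * cubeSel p i + e, c * cubeSel p i' + e') ∈ Y then
      t (c * cubeSel p i + e, c * cubeSel p i' + e') else 0) ≤ ∑ z ∈ Y, t z := by
  rw [← sum_image (f := fun z => if z ∈ Y then t z else 0)
    (g := fun p => (c * cubeSel p i + e, c * cubeSel p i' + e')), sum_ite_mem]
  · exact sum_le_sum_of_subset_of_nonneg inter_subset_right fun z _ _ => ht z
  · intro p _ q _ hpq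
    simp only [Prod.mk.injEq, add_left_inj, mul_right_inj' hc] at hpq
    cases i <;> cases i'
    · exact absurd rfl h
    · exact Prod.ext hpq.2 hpq.1
    · exact Prod.ext hpq.1 hpq.2
    · exact absurd rfl h

lemma cube_pairs (A B S : Finset ℤ) (Y : Finset (ℤ × ℤ)) (t : ℤ × ℤ → ℝ) (ht : ∀ z, 0 ≤ t z)
    {w : ℝ} (hw : 0 ≤ w) (hA : w ≤ A.card) (hB : w ≤ B.card) (hS : w ≤ S.card)
    {v u : Bool × Bool × Bool} (h : v ≠ u) :
    w ^ 2 * ∑ p ∈ A ×ˢ A, ∑ q ∈ B ×ˢ B, ∑ r ∈ S ×ˢ S,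
      (fun z => if z ∈ Y then t z else 0)
        (2 * cubeSel p v.1 - cubeSel q v.2.1 + 3 * cubeSel r v.2.2,
          2 * cubeSel p u.1 - cubeSel q u.2.1 + 3 * cubeSel r u.2.2) ≤
      ((A.card : ℝ) * B.card * S.card) ^ 2 * ∑ z ∈ Y, t z := by
  have hY : 0 ≤ ∑ z ∈ Y, t z := sum_nonneg fun z _ => ht z
  have aux : ∀ (P Q : Finset (ℤ × ℤ)) (G : ℤ × ℤ → ℤ × ℤ → ℝ), (∀ p q, G p q ≤ ∑ z ∈ Y, t z) →
      ∑ p ∈ P, ∑ q ∈ Q, G p q ≤ P.card * Q.card * ∑ z ∈ Y, t z := fun P Q G hG => by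
    refine (sum_le_card_nsmul _ _ _ fun p _ => sum_le_card_nsmul _ _ _ fun q _ => hG p q).trans_eq ?_
    simp only [nsmul_eq_mul]
    ring
  have fin : ∀ (a b c x : ℝ), w ≤ c → x ≤ a * a * (b * b) * ∑ z ∈ Y, t z →
      w ^ 2 * x ≤ (a * b * c) ^ 2 * ∑ z ∈ Y, t z := fun a b c x h1 h2 => by
    have h3 : 0 ≤ a * a * (b * b) * ∑ z ∈ Y, t z :=
      mul_nonneg (mul_nonneg (mul_self_nonneg _) (mul_self_nonneg _)) hY
    exact ((mul_le_mul_of_nonneg_left h2 (sq_nonneg w)).trans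
      (mul_le_mul_of_nonneg_right (pow_le_pow_left₀ hw h1 2) h3)).trans_eq (by ring)
  by_cases h3 : v.2.2 = u.2.2
  · rw [sum_congr rfl fun p _ => sum_comm]
    by_cases h2 : v.2.1 = u.2.1
    · have h1 : v.1 ≠ u.1 := fun h1 => h (Prod.ext h1 (Prod.ext h2 h3))
      rw [sum_comm, sum_congr rfl fun r _ => sum_comm,
        show (A.card : ℝ) * B.card * S.card = S.card * B.card * A.card by ring]
      refine fin _ _ _ _ hA ((aux _ _ _ fun r q => ?_).trans_eq (by simp))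
      refine le_trans (le_of_eq (sum_congr rfl fun p _ => ?_)) (cube_pair A Y t ht h1
        (c := 2) (by norm_num) (-cubeSel q v.2.1 + 3 * cubeSel r v.2.2)
        (-cubeSel q u.2.1 + 3 * cubeSel r u.2.2))
      simp only [sub_eq_add_neg, add_assoc]
    · rw [show (A.card : ℝ) * B.card * S.card = A.card * S.card * B.card by ring]
      refine fin _ _ _ _ hB ((aux _ _ _ fun p r => ?_).trans_eq (by simp))
      refine le_trans (le_of_eq (sum_congr rfl fun q _ => ?_)) (cube_pair B Y t ht h2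
        (c := -1) (by norm_num) (2 * cubeSel p v.1 + 3 * cubeSel r v.2.2)
        (2 * cubeSel p u.1 + 3 * cubeSel r u.2.2))
      have e : ∀ a b c : ℤ, a - b + c = -1 * b + (a + c) := fun a b c => by ring
      simp only [e]
  · refine fin _ _ _ _ hS ((aux _ _ _ fun p q => ?_).trans_eq (by simp))
    refine le_trans (le_of_eq (sum_congr rfl fun r _ => ?_)) (cube_pair S Y t ht h3
      (c := 3) (by norm_num) (2 * cubeSel p v.1 - cubeSel q v.2.1)
      (2 * cubeSel p u.1 - cubeSel q u.2.1))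
    rw [add_comm (3 * cubeSel r v.2.2), add_comm (3 * cubeSel r u.2.2)]

lemma cube_reindex (y0 : ℤ) (w : ℕ) (φ : ℤ → ℤ → ℝ) {s : ℤ} (hs : s ∈ Ico (0 : ℤ) w) :
    ∑ a ∈ Ico (y0 - 2 * w) (y0 + 2 * w), ∑ b ∈ Ico (y0 - w) (y0 + 3 * w),
      (if 2 * a - b + 3 * s ∈ Ico y0 (y0 + w) ∧ b - a - s ∈ Ico (0 : ℤ) w then
        φ (2 * a - b + 3 * s) (b - a - s) else 0) =
      ∑ y ∈ Ico y0 (y0 + w), ∑ x ∈ Ico (0 : ℤ) w, φ y x := by
  rw [← sum_product', ← sum_product', ← sum_filter]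
  refine sum_nbij' (fun p => (2 * p.1 - p.2 + 3 * s, p.2 - p.1 - s))
    (fun z => (z.1 + z.2 - 2 * s, z.1 + 2 * z.2 - s)) (fun p hp => ?_) (fun z hz => ?_)
    (fun p _ => ?_) (fun z _ => ?_) fun p _ => rfl
  · exact mem_product.2 (mem_filter.1 hp).2
  · simp only [mem_product, mem_Ico, mem_filter] at hz hs ⊢
    omega
  · ext <;> simp only <;> ring
  · ext <;> simp only <;> ring

theorem cube : CubeStmt := by
  intro Γ n ε T0 Nb Λ y0 w D κ lo hi τ hε hN hT hw hS hκ0 hκ1 hlh hτ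
  set Y := Ico y0 (y0 + w) with hY
  set φ : ℤ → ℤ → ℝ := fun y x => ∑ d ∈ range D,
    if lo d y ≤ dz Γ n (rho3 Λ y x) ∧ dz Γ n (rho3 Λ y x) ≤ hi d y then κ d y else 0 with hφ
  set t : ℤ × ℤ → ℝ := fun z => ∑ d ∈ range D, ∑ d' ∈ range D,
    if lo d z.1 ≤ 8 * hi d' z.2 ∧ lo d' z.2 ≤ 8 * hi d z.1 then κ d z.1 * κ d' z.2 else 0 with ht
  have ht0 : ∀ z, 0 ≤ t z := fun z => sum_nonneg fun d _ => sum_nonneg fun d' _ => by
    split_ifs
    · exact mul_nonneg (hκ0 _ _) (hκ0 _ _)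
    · exact le_rfl
  have hτ' : ∑ z ∈ Y ×ˢ Y, t z ≤ τ * (w : ℝ) ^ 2 := by
    rw [sum_product]
    exact hτ
  have hw' : (0 : ℝ) < w := by exact_mod_cast hw
  have hτ0 : 0 ≤ τ :=
    nonneg_of_mul_nonneg_left ((sum_nonneg fun z _ => ht0 z).trans hτ') (by positivity)
  have hφ0 : ∀ y x, 0 ≤ φ y x := fun y x => sum_nonneg fun d _ => by
    split_ifs
    · exact hκ0 _ _
    · exact le_rfl
  have hφ1 : ∀ y ∈ Y, ∀ x, φ y x ≤ 1 := fun y hy x =>
    (sum_le_sum fun d _ => by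
      split_ifs
      · exact le_rfl
      · exact hκ0 _ _).trans (hκ1 y hy)
  set A := Ico (y0 - 2 * w) (y0 + 2 * w) with hA
  set B := Ico (y0 - w) (y0 + 3 * w) with hB
  set S := Ico (0 : ℤ) w with hSS
  have cA : (A.card : ℝ) = 4 * w := by
    rw [hA, Int.card_Ico, show (y0 + 2 * w - (y0 - 2 * w)).toNat = 4 * w by omega]
    push_cast
    ring
  have cB : (B.card : ℝ) = 4 * w := by
    rw [hB, Int.card_Ico, show (y0 + 3 * w - (y0 - w)).toNat = 4 * w by omega]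
    push_cast
    ring
  have cS : (S.card : ℝ) = w := by simp [hSS]
  set F : ℤ → ℤ → ℤ → ℝ := fun a b s => if 2 * a - b + 3 * s ∈ Y ∧ b - a - s ∈ S then
    φ (2 * a - b + 3 * s) (b - a - s) else 0 with hF
  have hF0 : ∀ a b s, 0 ≤ F a b s := fun a b s => by
    simp only [hF]
    split_ifs
    · exact hφ0 _ _
    · exact le_rfl
  have hF1 : ∀ a b s, F a b s ≤ 1 := fun a b s => by
    simp only [hF]
    split_ifs with h
    · exact hφ1 _ h.1 _
    · exact zero_le_one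
  have hsum : ∑ a ∈ A, ∑ b ∈ B, ∑ s ∈ S, F a b s = w * ∑ y ∈ Y, ∑ x ∈ S, φ y x := by
    rw [sum_congr rfl fun a _ => sum_comm, sum_comm,
      sum_congr rfl fun s hs => cube_reindex y0 w φ hs, sum_const, nsmul_eq_mul, cS]
  have hprod : ∀ p q r : ℤ × ℤ, ∏ v : Bool × Bool × Bool,
      F (cubeSel p v.1) (cubeSel q v.2.1) (cubeSel r v.2.2) ≤
      ∑ e ∈ (univ : Finset (Bool × Bool × Bool)).offDiag,
        (fun z => if z ∈ Y ×ˢ Y then t z else 0)
          (2 * cubeSel p e.1.1 - cubeSel q e.1.2.1 + 3 * cubeSel r e.1.2.2,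
            2 * cubeSel p e.2.1 - cubeSel q e.2.2.1 + 3 * cubeSel r e.2.2.2) := by
    intro p q r
    have hnn : ∀ z, 0 ≤ (fun z => if z ∈ Y ×ˢ Y then t z else 0) z := fun z => by
      dsimp only
      split_ifs
      · exact ht0 z
      · exact le_rfl
    by_cases hz : ∃ v : Bool × Bool × Bool,
        F (cubeSel p v.1) (cubeSel q v.2.1) (cubeSel r v.2.2) = 0
    · obtain ⟨v, hv⟩ := hz
      rw [prod_eq_zero (mem_univ v) hv]
      exact sum_nonneg fun e _ => hnn _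
    push Not at hz
    set y : Bool × Bool × Bool → ℤ := fun v =>
      2 * cubeSel p v.1 - cubeSel q v.2.1 + 3 * cubeSel r v.2.2 with hy
    set x : Bool × Bool × Bool → ℤ := fun v =>
      cubeSel q v.2.1 - cubeSel p v.1 - cubeSel r v.2.2 with hx
    have hin : ∀ v, y v ∈ Y ∧
        F (cubeSel p v.1) (cubeSel q v.2.1) (cubeSel r v.2.2) = φ (y v) (x v) := fun v => by
      by_cases h : y v ∈ Y ∧ x v ∈ S
      · exact ⟨h.1, if_pos h⟩
      · exact absurd (if_neg h) (hz v)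
    obtain ⟨v, u, hvu, h1, h2⟩ := cube_close hε hN hT hS (fun v => rho3 Λ (y v) (x v)) (by
        have e : ∀ v, rho3 Λ (y v) (x v) = Λ 0 (cubeSel p v.1 + 2 * cubeSel r v.2.2) +
            (2 : ℤ) • Λ 1 (cubeSel q v.2.1 + cubeSel r v.2.2) +
            (3 : ℤ) • Λ 2 (2 * cubeSel q v.2.1 - cubeSel p v.1) := fun v => by
          rw [rho3, show y v + x v = cubeSel p v.1 + 2 * cubeSel r v.2.2 by
              simp only [hy, hx]; ring,
            show y v + 2 * x v = cubeSel q v.2.1 + cubeSel r v.2.2 by simp only [hy, hx]; ring,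
            show y v + 3 * x v = 2 * cubeSel q v.2.1 - cubeSel p v.1 by simp only [hy, hx]; ring]
        simp only [e, Fintype.sum_prod_type, Fintype.sum_bool, cubeSg, cond_true, cond_false]
        module)
      (fun v => by
        obtain ⟨d, hd, hne⟩ := exists_ne_zero_of_sum_ne_zero ((hin v).2 ▸ hz v)
        split_ifs at hne with h
        · have := hlh d (mem_range.1 hd) _ (hin v).1 hne
          exact ⟨this.1.trans h.1, h.2.trans this.2⟩
        · exact absurd rfl hne)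
    refine le_trans ?_ (single_le_sum (fun e _ => hnn _)
      (show (v, u) ∈ (univ : Finset (Bool × Bool × Bool)).offDiag from
        mem_offDiag.2 ⟨mem_univ _, mem_univ _, hvu⟩))
    refine (prod_le_prod_of_subset_of_le_one (subset_univ {v, u}) (fun _ _ => hF0 _ _ _)
      fun _ _ _ => hF1 _ _ _).trans ?_
    rw [prod_pair hvu, (hin v).2, (hin u).2]
    refine le_trans ?_ (if_pos (mem_product.2 ⟨(hin v).1, (hin u).1⟩)).ge
    rw [hφ, sum_mul_sum]
    refine sum_le_sum fun d _ => sum_le_sum fun d' _ => ?_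
    change _ ≤ if lo d (y v) ≤ 8 * hi d' (y u) ∧ lo d' (y u) ≤ 8 * hi d (y v) then
      κ d (y v) * κ d' (y u) else 0
    have hk := mul_nonneg (hκ0 d (y v)) (hκ0 d' (y u))
    split_ifs with a b c
    · exact le_rfl
    · exact absurd ⟨by linarith [a.1, b.2], by linarith [a.2, b.1]⟩ c
    all_goals simp [hk]
  have hbox := cube_box A B S F
  have hmain : (w : ℝ) ^ 2 * ∑ p ∈ A ×ˢ A, ∑ q ∈ B ×ˢ B, ∑ r ∈ S ×ˢ S, ∏ v : Bool × Bool × Bool,
      F (cubeSel p v.1) (cubeSel q v.2.1) (cubeSel r v.2.2) ≤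
      56 * (((A.card : ℝ) * B.card * S.card) ^ 2 * (τ * (w : ℝ) ^ 2)) := by
    refine le_trans (mul_le_mul_of_nonneg_left (sum_le_sum fun p _ => sum_le_sum fun q _ =>
      sum_le_sum fun r _ => hprod p q r) (sq_nonneg _)) ?_
    rw [sum_congr rfl fun p _ => sum_congr rfl fun q _ => sum_comm,
      sum_congr rfl fun p _ => sum_comm, sum_comm, mul_sum]
    refine (sum_le_card_nsmul _ _ _ fun e he => (cube_pairs A B S (Y ×ˢ Y) t ht0 hw'.le
      (by linarith) (by linarith) cS.ge (mem_offDiag.1 he).2.2).trans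
      (mul_le_mul_of_nonneg_left hτ' (sq_nonneg _))).trans_eq ?_
    rw [offDiag_card]
    simp
  rw [hsum, cA, cB, cS] at hbox
  rw [cA, cB, cS] at hmain
  generalize ∑ p ∈ A ×ˢ A, ∑ q ∈ B ×ˢ B, ∑ r ∈ S ×ˢ S, ∏ v : Bool × Bool × Bool,
    F (cubeSel p v.1) (cubeSel q v.2.1) (cubeSel r v.2.2) = T3 at hbox hmain
  change ((∑ y ∈ Y, ∑ x ∈ S, φ y x) / (16 * (w : ℝ) ^ 2)) ^ 8 ≤ 64 * τ
  generalize ∑ y ∈ Y, ∑ x ∈ S, φ y x = T at hbox
  have h1 : T3 ≤ 64 * τ * (4 * w * (4 * w) * w) ^ 2 := by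
    refine le_of_mul_le_mul_left (hmain.trans ?_) (show (0 : ℝ) < w ^ 2 by positivity)
    have : 0 ≤ (4 * w * (4 * w) * w) ^ 2 * (τ * (w : ℝ) ^ 2) := by positivity
    linarith
  rw [div_pow, div_le_iff₀ (by positivity)]
  refine le_of_mul_le_mul_left ?_ (show (0 : ℝ) < w ^ 8 by positivity)
  rw [← mul_pow]
  exact (hbox.trans (mul_le_mul_of_nonneg_left h1 (by positivity))).trans_eq (by ring)

end Pool.Agent.Lib.MP_9721b5_an
end
end
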