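import Pool.Agent.Lib.MP_9721b5_an.GraphA
import Pool.Agent.Lib.MP_9721b5_an.LevelB
import Pool.Agent.Lib.MP_9721b5_an.Basic

-- part Pool.Agent.Lib.MP_9721b5_an.LD
section

/-! The large deviation inverse theorem: reduction to a cyclic group of prime order. -/

set_option autoImplicit false

open Finset
open scoped Classical ComplexConjugate Pointwise

noncomputable section

namespace Pool.Agent.Lib.MP_9721b5_an

section Cyc

variable {p : ℕ} [NeZero p]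

lemma ld_inv_le {m m' : ℕ} (h0 : 0 < m) (h : m ≤ m') : (1 / m' : ℝ) ≤ 1 / m :=
  one_div_le_one_div_of_le (by exact_mod_cast h0) (by exact_mod_cast h)

lemma ld_pow_le {R R' a b : ℕ} (h : a ≤ 2 ^ R * b) (hR : R ≤ R') : a ≤ 2 ^ R' * b :=
  h.trans (Nat.mul_le_mul_right _ (Nat.pow_le_pow_right (by norm_num) hR))

lemma ld_spec_mono {g : ZMod p → ℂ} {m m' R R' : ℕ} (H : SpecH g m R) (h0 : 0 < m) (hm : m ≤ m')
    (hR : R ≤ R') : SpecH g m' R' := by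
  obtain ⟨T, hT, H⟩ := H
  refine ⟨T, ld_pow_le hT hR, fun t ht => ?_⟩
  obtain ⟨S, h1, h2⟩ := H t ht
  exact ⟨S, (ld_inv_le h0 hm).trans h1, fun Λ hΛ hd => (h2 Λ hΛ hd).trans hR⟩

lemma ld_graph_mono {g : ZMod p → ℂ} {m m' R R' : ℕ} (H : GraphH g m R) (h0 : 0 < m)
    (hm : m ≤ m') (hR : R ≤ R') : GraphH g m' R' := by
  obtain ⟨k, n, Γ, ψ, c, τ, T, h1, h2, h3, h4, h5, H⟩ := H
  refine ⟨k, n, Γ, ψ, c, τ, T, h1.trans hR, h2.trans hR, h3.trans hR, h4, ld_pow_le h5 hR,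
    fun t ht => ⟨(H t ht).1, ?_⟩⟩
  obtain ⟨S, h6, h7⟩ := (H t ht).2
  exact ⟨S, (ld_inv_le h0 hm).trans h6, h7⟩

lemma ld_out_mono {g : ZMod p → ℂ} {m m' R R' : ℕ} (H : OutH g m R) (h0 : 0 < m)
    (hm : m ≤ m') (hR : R ≤ R') : OutH g m' R' := by
  obtain ⟨k, Γ, ψ, h1, h2, h3, H⟩ := H
  refine ⟨k, Γ, ψ, h1.trans hR, h2.trans hR, h3.mono Subset.rfl (hf_anti hR) le_rfl,
    fun W hW hne => ?_⟩
  obtain ⟨r, ξ, h4, h5⟩ := H W (hW.trans (bohr_mono Subset.rfl (hf_anti hR))) hne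
  refine ⟨r, ξ, h4, le_trans ?_ h5⟩
  exact div_le_div_of_nonneg_left (by positivity) (by exact_mod_cast h0) (by exact_mod_cast hm)

/-- Parseval for a set given by an injective parametrisation. -/
lemma ld_parseval (α : ℤ → ZMod p) (S : Finset ℤ) (hα : Set.InjOn α S) :
    ∑ ξ : ZMod p, ‖∑ n ∈ S, ch (ξ * α n)‖ ^ 2 = p * S.card := by
  have hp : (0 : ℝ) < p := by exact_mod_cast NeZero.pos p
  have hpc : (p : ℂ) ≠ 0 := by exact_mod_cast NeZero.ne p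
  have h := parseval (fun x : ZMod p => if -x ∈ S.image α then (1 : ℂ) else 0)
  have h1 : ∀ ξ : ZMod p, ft (fun x : ZMod p => if -x ∈ S.image α then (1 : ℂ) else 0) ξ =
      (∑ n ∈ S, ch (ξ * α n)) / p := by
    intro ξ
    rw [ft]
    congr 1
    rw [← Equiv.sum_comp (Equiv.neg (ZMod p))]
    simp only [Equiv.neg_apply, neg_neg, mul_neg, ite_mul, one_mul, zero_mul]
    rw [← sum_filter, filter_mem_eq_inter, univ_inter, sum_image hα]
  have h2 : ∑ x : ZMod p, ‖if -x ∈ S.image α then (1 : ℂ) else 0‖ ^ 2 = S.card := by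
    rw [← Equiv.sum_comp (Equiv.neg (ZMod p))]
    simp only [Equiv.neg_apply, neg_neg]
    have : ∀ x : ZMod p, ‖if x ∈ S.image α then (1 : ℂ) else 0‖ ^ 2 =
        if x ∈ S.image α then (1 : ℝ) else 0 := by
      intro x; split_ifs <;> simp
    simp only [this]
    rw [← sum_filter, filter_mem_eq_inter, univ_inter, sum_const, card_image_of_injOn hα]
    simp
  simp only [h1, h2, norm_div, Complex.norm_natCast, div_pow] at h
  rw [← sum_div, div_eq_div_iff (by positivity) hp.ne'] at h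
  apply mul_right_cancel₀ hp.ne'
  rw [h]; ring

/-- A smooth kernel is a short combination of characters. -/
lemma ld_kernel {ι : Type} (α : ℤ → ZMod p) (A B : Finset ℤ) (hA : Set.InjOn α A)
    (hB : Set.InjOn α B) (E : Finset ι) (Φ : ι → ZMod p → ℂ) :
    ∃ ξ : ZMod p, ∑ y ∈ E, ‖∑ b ∈ B, ∑ a ∈ A, Φ y (α a + α b)‖ ≤
      p * (A.card + B.card) / 2 * ∑ y ∈ E, ‖ft (Φ y) ξ‖ := by
  obtain ⟨ξ0, -, hξ⟩ := exists_max_image univ (fun ξ : ZMod p => ∑ y ∈ E, ‖ft (Φ y) ξ‖)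
    univ_nonempty
  refine ⟨ξ0, ?_⟩
  set k : ZMod p → ℝ := fun ξ =>
    (‖∑ n ∈ A, ch (ξ * α n)‖ ^ 2 + ‖∑ n ∈ B, ch (ξ * α n)‖ ^ 2) / 2 with hk
  have hk0 : ∀ ξ, 0 ≤ k ξ := fun ξ => by positivity
  have h1 : ∀ y, ‖∑ b ∈ B, ∑ a ∈ A, Φ y (α a + α b)‖ ≤ ∑ ξ, k ξ * ‖ft (Φ y) ξ‖ := by
    intro y
    have h2 : ∑ b ∈ B, ∑ a ∈ A, Φ y (α a + α b) =
        ∑ ξ, (∑ n ∈ A, ch (ξ * α n)) * (∑ n ∈ B, ch (ξ * α n)) * ft (Φ y) ξ := by
      have h3 : ∀ a b, Φ y (α a + α b) =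
          ∑ ξ, ch (ξ * α a) * ch (ξ * α b) * ft (Φ y) ξ := by
        intro a b
        rw [ft_inv (Φ y) (α a + α b)]
        refine sum_congr rfl fun ξ _ => ?_
        rw [mul_add, ch_add]; ring
      simp only [h3]
      rw [sum_comm]
      simp only [sum_mul_sum]
      simp only [sum_mul]
      rw [sum_comm (s := univ)]
      refine sum_congr rfl fun a _ => ?_
      rw [sum_comm]
    rw [h2]
    refine (norm_sum_le _ _).trans (sum_le_sum fun ξ _ => ?_)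
    rw [norm_mul, norm_mul]
    refine mul_le_mul_of_nonneg_right ?_ (norm_nonneg _)
    simp only [hk]
    nlinarith [sq_nonneg (‖∑ n ∈ A, ch (ξ * α n)‖ - ‖∑ n ∈ B, ch (ξ * α n)‖)]
  have h2 : ∑ ξ, k ξ = p * (A.card + B.card) / 2 := by
    simp only [hk]
    rw [← sum_div, sum_add_distrib, ld_parseval α A hA, ld_parseval α B hB]; ring
  calc _ ≤ ∑ y ∈ E, ∑ ξ, k ξ * ‖ft (Φ y) ξ‖ := sum_le_sum fun y _ => h1 y
    _ = ∑ ξ, k ξ * ∑ y ∈ E, ‖ft (Φ y) ξ‖ := by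
        rw [sum_comm]; simp only [mul_sum]
    _ ≤ ∑ ξ, k ξ * ∑ y ∈ E, ‖ft (Φ y) ξ0‖ :=
        sum_le_sum fun ξ _ => mul_le_mul_of_nonneg_left (hξ ξ (mem_univ _)) (hk0 ξ)
    _ = _ := by rw [← sum_mul, h2]

lemma ld_inj {σ : ℤ} (hσ : σ = 1 ∨ σ = -1) (a : ℤ) :
    Set.InjOn (fun n : ℤ => ((σ * n : ℤ) : ZMod p)) (Ico a (a + p) : Finset ℤ) := by
  intro x hx y hy h
  simp only [coe_Ico, Set.mem_Ico] at hx hy
  have h1 := (ZMod.intCast_eq_intCast_iff_dvd_sub _ _ _).1 h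
  have h2 : (p : ℤ) ∣ y - x := by
    rcases hσ with rfl | rfl
    · simpa using h1
    · have : -1 * y - -1 * x = -(y - x) := by ring
      rw [this] at h1
      exact (dvd_neg).1 h1
  have h3 := Int.eq_zero_of_abs_lt_dvd h2 (by rw [abs_lt]; constructor <;> omega)
  omega

/-- Smoothing of the window: a single frequency carries a large average. -/
lemma ld_smooth {ι : Type} {m N : ℕ} (hm : 2 ≤ m) (hN : 1 ≤ N) (hNp : N < p) (hp : p ≤ 2 * (m * N))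
    {σ : ℤ} (hσ : σ = 1 ∨ σ = -1) (E : Finset ι) (Φ : ι → ZMod p → ℂ) (hΦ : ∀ y x, ‖Φ y x‖ ≤ 1)
    (hE : ∀ y ∈ E, (N : ℝ) / m ≤ ‖∑ n ∈ Icc (1 : ℤ) N, Φ y ((σ * n : ℤ) : ZMod p)‖) :
    ∃ ξ : ZMod p, (E.card : ℝ) / ((m ^ 7 : ℕ) : ℝ) ≤ ∑ y ∈ E, ‖ft (Φ y) ξ‖ := by
  obtain ⟨L, hL1, hL2, hL3⟩ : ∃ L : ℕ, L < N ∧ 8 * m * L ≤ N ∧ N < 8 * m * (L + 1) :=
    ⟨N / (8 * m), Nat.div_lt_self hN (by omega), Nat.mul_div_le _ _,
      Nat.lt_mul_div_succ _ (by omega)⟩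
  have hinj := ld_inj (p := p) hσ 0
  obtain ⟨ξ, hξ⟩ := ld_kernel (fun n : ℤ => ((σ * n : ℤ) : ZMod p)) (Ico 1 (N + 1))
    (Ico 0 (L + 1)) (hinj.mono (by
      intro x hx; simp only [coe_Ico, Set.mem_Ico] at hx ⊢; omega))
    (hinj.mono (by intro x hx; simp only [coe_Ico, Set.mem_Ico] at hx ⊢; omega)) E Φ
  refine ⟨ξ, ?_⟩
  have hc1 : ((Ico (1 : ℤ) (N + 1)).card : ℝ) = N := by simp
  have hc2 : ((Ico (0 : ℤ) (L + 1)).card : ℝ) = L + 1 := by
    rw [Int.card_Ico]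
    have : ((L : ℤ) + 1 - 0).toNat = L + 1 := by omega
    rw [this]; push_cast; ring
  rw [hc1, hc2] at hξ
  have hm' : (2 : ℝ) ≤ m := by exact_mod_cast hm
  have hN' : (1 : ℝ) ≤ N := by exact_mod_cast hN
  have hL2' : 8 * (m : ℝ) * L ≤ N := by exact_mod_cast hL2
  have hL3' : (N : ℝ) ≤ 8 * m * (L + 1) := by exact_mod_cast hL3.le
  have hp' : (p : ℝ) ≤ 2 * (m * N) := by exact_mod_cast hp
  have hL0 : (0 : ℝ) ≤ L := Nat.cast_nonneg _
  have h1 : ∀ y ∈ E, (L + 1) * (3 * N / (4 * m) : ℝ) ≤ ‖∑ b ∈ Ico (0 : ℤ) (L + 1),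
      ∑ a ∈ Ico (1 : ℤ) (N + 1), Φ y (((σ * a : ℤ) : ZMod p) + ((σ * b : ℤ) : ZMod p))‖ := by
    intro y hy
    set F : ℤ → ℂ := fun n => Φ y ((σ * n : ℤ) : ZMod p) with hF
    have h2 : ∀ a b : ℤ, Φ y (((σ * a : ℤ) : ZMod p) + ((σ * b : ℤ) : ZMod p)) = F (a + b) := by
      intro a b
      simp only [hF]
      congr 1; push_cast; ring
    simp only [h2]
    have h3 := hE y hy
    have h4 : Icc (1 : ℤ) N = Ico (1 : ℤ) (N + 1) := by
      ext x; simp only [mem_Icc, mem_Ico]; omega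
    rw [h4] at h3
    have h5 : ‖∑ b ∈ Ico (0 : ℤ) (L + 1), (∑ a ∈ Ico (1 : ℤ) (N + 1), F (a + b) -
        ∑ a ∈ Ico (1 : ℤ) (N + 1), F a)‖ ≤ (L + 1) * (2 * L) := by
      refine (norm_sum_le _ _).trans ?_
      rw [← hc2, ← nsmul_eq_mul, ← sum_const]
      refine sum_le_sum fun b hb => (sum_shift_le F (fun x => hΦ y _) _ _ b).trans ?_
      rw [mem_Ico] at hb
      have h6 : (0 : ℝ) ≤ b := by exact_mod_cast hb.1
      have h7 : (b : ℝ) ≤ L := by exact_mod_cast (by omega : b ≤ L)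
      rw [abs_of_nonneg h6]; linarith
    rw [sum_sub_distrib, sum_const, nsmul_eq_mul] at h5
    have h6 := norm_sub_norm_le (((Ico (0 : ℤ) (L + 1)).card : ℂ) * ∑ a ∈ Ico (1 : ℤ) (N + 1), F a)
      (∑ b ∈ Ico (0 : ℤ) (L + 1), ∑ a ∈ Ico (1 : ℤ) (N + 1), F (a + b))
    rw [norm_sub_rev, norm_mul, Complex.norm_natCast, hc2] at h6
    have h7 : (L + 1) * ((N : ℝ) / m) ≤ (L + 1) * ‖∑ a ∈ Ico (1 : ℤ) (N + 1), F a‖ :=
      mul_le_mul_of_nonneg_left h3 (by positivity)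
    have h8 : 2 * (L : ℝ) ≤ N / (4 * m) := by
      rw [le_div_iff₀ (by positivity)]; linarith
    have h9 : (L + 1) * (2 * (L : ℝ)) ≤ (L + 1) * (N / (4 * m)) :=
      mul_le_mul_of_nonneg_left h8 (by positivity)
    have h10 : (3 * N / (4 * m) : ℝ) = N / m - N / (4 * m) := by field_simp; ring
    rw [h10]
    linarith
  have h2 := (sum_le_sum h1).trans hξ
  rw [sum_const, nsmul_eq_mul] at h2
  set S := ∑ y ∈ E, ‖ft (Φ y) ξ‖
  have hS : 0 ≤ S := sum_nonneg fun _ _ => norm_nonneg _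
  have h3 : (p : ℝ) * (N + (L + 1)) / 2 ≤ (L + 1) * N * (9 * m ^ 2) := by
    have h4 : (N : ℝ) + (L + 1) ≤ 9 * m * (L + 1) := by nlinarith
    calc (p : ℝ) * (N + (L + 1)) / 2 ≤ 2 * (m * N) * (9 * m * (L + 1)) / 2 := by gcongr
      _ = _ := by ring
  have h4 : (L + 1) * N * (E.card * (3 / (4 * m))) ≤ (L + 1) * N * (9 * (m : ℝ) ^ 2 * S) := by
    calc _ = E.card * ((L + 1) * (3 * N / (4 * m) : ℝ)) := by ring
      _ ≤ _ := h2
      _ ≤ (L + 1) * N * (9 * m ^ 2) * S := mul_le_mul_of_nonneg_right h3 hS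
      _ = _ := by ring
  have h5 := le_of_mul_le_mul_left h4 (by positivity)
  rw [← mul_div_assoc, div_le_iff₀ (by positivity)] at h5
  rw [div_le_iff₀ (by positivity)]
  have h6 : (16 : ℝ) ≤ m ^ 4 := by
    calc (16 : ℝ) = 2 ^ 4 := by norm_num
      _ ≤ _ := by gcongr
  have h7 : S * (16 * (m : ℝ) ^ 3) ≤ S * (m ^ 4 * m ^ 3) := by gcongr
  have h8 : 0 ≤ S * (m : ℝ) ^ 3 := by positivity
  push_cast
  nlinarith

/-- A frequency is absorbed in the two auxiliary functions. -/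
lemma ld_absorb (hp : p.Prime) (g u v : ZMod p → ℂ) (a : ZMod p) {b c : ZMod p} (hbc : b ≠ c)
    (ξ : ZMod p) : ∃ η : ZMod p, ∀ y, ft (fun n => g (y + a * n) * u (y + b * n) * v (y + c * n)) ξ =
      (∑ n, g (y + a * n) * (u (y + b * n) * ch (η * (y + b * n))) *
        (v (y + c * n) * ch (-(η * (y + c * n))))) / p := by
  have := Fact.mk hp
  refine ⟨ξ / (c - b), fun y => ?_⟩
  have h0 : c - b ≠ 0 := sub_ne_zero.2 hbc.symm
  rw [ft]
  congr 1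
  refine sum_congr rfl fun n _ => ?_
  have : -(ξ * n) = ξ / (c - b) * (y + b * n) + -(ξ / (c - b) * (y + c * n)) := by
    field_simp; ring
  rw [this, ch_add]; ring

/-- The extension by zero of a function on an interval. -/
def ldG (p : ℕ) (y0 : ℤ) (len : ℕ) (f : ℤ → ℂ) (x : ZMod p) : ℂ :=
  if (x - y0).val < len then f (y0 + (x - y0).val) else 0

lemma ldG_le {y0 : ℤ} {len : ℕ} {f : ℤ → ℂ} (hf : ∀ y, ‖f y‖ ≤ 1) (x : ZMod p) :
    ‖ldG p y0 len f x‖ ≤ 1 := by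
  unfold ldG
  split_ifs
  · exact hf _
  · simp

lemma ldG_cast (y0 : ℤ) (len : ℕ) (f : ℤ → ℂ) {y : ℤ} (h0 : y0 ≤ y) (h1 : y < y0 + p) :
    ldG p y0 len f (y : ZMod p) = if y < y0 + len then f y else 0 := by
  have h : ((((y : ZMod p) - y0).val : ℕ) : ℤ) = y - y0 := by
    rw [← Int.cast_sub, ZMod.val_intCast]
    exact Int.emod_eq_of_lt (by omega) (by omega)
  unfold ldG
  rw [h]
  have h2 : y0 + (y - y0) = y := by ring
  rw [h2]
  refine if_congr ?_ rfl rfl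
  omega

end Cyc

lemma ld_ne {p : ℕ} (hp : 5 ≤ p) {a b : ℕ} (ha : a < 5) (hb : b < 5) (hab : a ≠ b) :
    (a : ZMod p) ≠ b := by
  intro h
  rw [ZMod.natCast_eq_natCast_iff', Nat.mod_eq_of_lt (by omega), Nat.mod_eq_of_lt (by omega)] at h
  exact hab h

/-- The first step: the spectral hypothesis for the extension of the chosen function. -/
lemma ld_spec (hE : ElimStmt) : ∃ C : ℕ, 1 ≤ C ∧ ∀ m R : ℕ, 2 ≤ m → m ≤ R →
    ∀ (y0 : ℤ) (len N : ℕ) (f : Fin 3 → ℤ → ℂ) (σ : ℤ) (E : Finset ℤ) (i : Fin 3) (p : ℕ)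
    [NeZero p], p.Prime → 5 ≤ p → len < p → p ≤ 2 * len → 1 ≤ N → N < p → len ≤ m * N →
    (∀ j y, ‖f j y‖ ≤ 1) → E ⊆ Ico y0 (y0 + len) → p ≤ 2 ^ (R + 2) * E.card → (σ = 1 ∨ σ = -1) →
    (∀ y ∈ E, y + 3 * (σ * N) ∈ Ico y0 (y0 + len) ∧ (1 / m : ℝ) ≤ ‖tav f σ N y‖) →
    SpecH (ldG p y0 len (f i)) (m ^ C) (R ^ C) := by
  obtain ⟨C, hC⟩ := hE
  refine ⟨7 * C + 1, by omega, ?_⟩
  intro m R hm hmR y0 len N f σ E i p _ hp hp5 hlp hpl hN hNp hlN hf hE hpE hσ H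
  have hR : 2 ≤ R := hm.trans hmR
  set G : Fin 3 → ZMod p → ℂ := fun j => ldG p y0 len (f j) with hG
  have hG1 : ∀ j x, ‖G j x‖ ≤ 1 := fun j x => ldG_le (hf j) x
  set Φ : ZMod p → ZMod p → ℂ :=
    fun y n => G 0 (y + 1 * n) * G 1 (y + 2 * n) * G 2 (y + 3 * n) with hΦ
  have hΦ1 : ∀ y n, ‖Φ y n‖ ≤ 1 := by
    intro y n
    simp only [hΦ, norm_mul]
    exact mul_le_one₀ (mul_le_one₀ (hG1 _ _) (norm_nonneg _) (hG1 _ _)) (norm_nonneg _) (hG1 _ _)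
  have hinj : Set.InjOn (fun y : ℤ => (y : ZMod p)) E := by
    have := ld_inj (p := p) (σ := 1) (Or.inl rfl) y0
    simp only [one_mul] at this
    refine this.mono fun x hx => ?_
    have := mem_Ico.1 (hE hx)
    simp only [coe_Ico, Set.mem_Ico]; omega
  have hN0 : (0 : ℝ) < N := by exact_mod_cast hN
  obtain ⟨ξ, hξ⟩ := ld_smooth hm hN hNp (by omega) hσ E (fun y => Φ (y : ZMod p))
    (fun y => hΦ1 _) (by
      intro y hy
      obtain ⟨h1, h2⟩ := H y hy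
      have h3 := mem_Ico.1 (hE hy)
      rw [mem_Ico] at h1
      rw [tav, norm_div, Complex.norm_natCast, le_div_iff₀ hN0] at h2
      have h4 : ∀ n ∈ Icc (1 : ℤ) N, Φ (y : ZMod p) ((σ * n : ℤ) : ZMod p) =
          f 0 (y + σ * n) * f 1 (y + 2 * (σ * n)) * f 2 (y + 3 * (σ * n)) := by
        intro n hn
        rw [mem_Icc] at hn
        have h5 : ∀ (j : Fin 3) (z : ℤ), y0 ≤ z → z < y0 + len → G j (z : ZMod p) = f j z := by
          intro j z h5 h6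
          simp only [hG]
          rw [ldG_cast y0 len (f j) h5 (by omega), if_pos h6]
        rw [← h5 0 (y + σ * n) (by rcases hσ with rfl | rfl <;> omega)
            (by rcases hσ with rfl | rfl <;> omega),
          ← h5 1 (y + 2 * (σ * n)) (by rcases hσ with rfl | rfl <;> omega)
            (by rcases hσ with rfl | rfl <;> omega),
          ← h5 2 (y + 3 * (σ * n)) (by rcases hσ with rfl | rfl <;> omega)
            (by rcases hσ with rfl | rfl <;> omega)]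
        simp only [hΦ]
        push_cast
        rw [one_mul]
      rw [sum_congr rfl h4]
      calc (N : ℝ) / m = 1 / m * N := by ring
        _ ≤ _ := h2)
  rw [← sum_image (f := fun y : ZMod p => ‖ft (Φ y) ξ‖) hinj, ← card_image_of_injOn hinj] at hξ
  rw [← card_image_of_injOn hinj] at hpE
  set E' := E.image fun y : ℤ => (y : ZMod p)
  have hm7 : 2 ≤ m ^ 7 := hm.trans (Nat.le_self_pow (by norm_num) m)
  have hR7 : R + 2 ≤ R ^ 7 := by
    have h1 : R + 2 ≤ R ^ (1 + 1) := add_le_pow hR (by simp) (by simpa using hR)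
    exact le_pow_mono hR h1 (by norm_num)
  have key : ∀ (g u v : ZMod p → ℂ) (a b c : ZMod p), (∀ x, ‖g x‖ ≤ 1) → (∀ x, ‖u x‖ ≤ 1) →
      (∀ x, ‖v x‖ ≤ 1) → a ≠ 0 → b ≠ 0 → c ≠ 0 → a ≠ b → a ≠ c → b ≠ c →
      (∀ y n, Φ y n = g (y + a * n) * u (y + b * n) * v (y + c * n)) →
      SpecH g (m ^ (7 * C + 1)) (R ^ (7 * C + 1)) := by
    intro g u v a b c hg hu hv ha hb hc hab hac hbc heq
    obtain ⟨η, hη⟩ := ld_absorb hp g u v a hbc ξ
    have h1 := hC (m ^ 7) (R ^ 7) hm7 (Nat.pow_le_pow_left hmR 7) p hp g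
      (fun x => u x * ch (η * x)) (fun x => v x * ch (-(η * x))) a b c E' hg
      (fun x => by simpa using hu x) (fun x => by simpa using hv x) ha hb hc hab hac hbc
      (ld_pow_le hpE hR7) (by
        refine hξ.trans (le_of_eq (sum_congr rfl fun y _ => ?_))
        rw [← hη y]
        congr 2
        exact funext (heq y))
    rw [← pow_mul, ← pow_mul] at h1
    exact ld_spec_mono h1 (by positivity) (Nat.pow_le_pow_right (by omega) (by omega))
      (Nat.pow_le_pow_right (by omega) (by omega))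
  have n10 : (1 : ZMod p) ≠ 0 := by simpa using ld_ne hp5 (a := 1) (b := 0) (by omega) (by omega) (by omega)
  have n20 : (2 : ZMod p) ≠ 0 := by simpa using ld_ne hp5 (a := 2) (b := 0) (by omega) (by omega) (by omega)
  have n30 : (3 : ZMod p) ≠ 0 := by simpa using ld_ne hp5 (a := 3) (b := 0) (by omega) (by omega) (by omega)
  have n12 : (1 : ZMod p) ≠ 2 := by exact_mod_cast ld_ne hp5 (a := 1) (b := 2) (by omega) (by omega) (by omega)
  have n13 : (1 : ZMod p) ≠ 3 := by exact_mod_cast ld_ne hp5 (a := 1) (b := 3) (by omega) (by omega) (by omega)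
  have n23 : (2 : ZMod p) ≠ 3 := by exact_mod_cast ld_ne hp5 (a := 2) (b := 3) (by omega) (by omega) (by omega)
  fin_cases i
  · exact key (G 0) (G 1) (G 2) 1 2 3 (hG1 0) (hG1 1) (hG1 2) n10 n20 n30 n12 n13 n23
      fun y n => rfl
  · exact key (G 1) (G 0) (G 2) 2 1 3 (hG1 1) (hG1 0) (hG1 2) n20 n10 n30 n12.symm n23 n13
      fun y n => by simp only [hΦ]; ring
  · exact key (G 2) (G 0) (G 1) 3 1 2 (hG1 2) (hG1 0) (hG1 1) n30 n10 n20 n13.symm n23.symm n12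
      fun y n => by simp only [hΦ]; ring

theorem ld (hE : ElimStmt) (hC : CoverStmt) (hN : NestStmt) (hA : AtomStmt) : LDStmt := by
  obtain ⟨a1, ha1, h1⟩ := ld_spec hE
  obtain ⟨C2, h2⟩ := hC
  obtain ⟨C3, h3⟩ := hN
  obtain ⟨C4, h4⟩ := hA
  set a2 := a1 * C2 + a1 + 1 with ha2
  set a3 := a2 * C3 + 2 with ha3
  refine ⟨a3 * C4 + a3 + 1, ?_⟩
  intro m R hm hmR y0 len N f s E i hN hlen hlN hfb hE hcard H
  have hR : 2 ≤ R := hm.trans hmR
  have hne : E.Nonempty := by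
    rw [← card_pos]
    by_contra h
    have : E.card = 0 := by omega
    rw [this] at hcard; omega
  have hlen3 : 3 * N + 1 ≤ len := by
    obtain ⟨y, hy⟩ := hne
    obtain ⟨h5, h6, -⟩ := H y hy
    have h7 := mem_Ico.1 (hE hy)
    rw [mem_Ico] at h6
    rcases h5 with h5 | h5 <;> rw [h5] at h6 <;> omega
  obtain ⟨p, hp, hlp, hpl⟩ := Nat.exists_prime_lt_and_le_two_mul len hlen.ne'
  have : NeZero p := ⟨hp.ne_zero⟩
  have hp5 : 5 ≤ p := by omega
  obtain ⟨σ, hσ, hσE⟩ : ∃ σ : ℤ, (σ = 1 ∨ σ = -1) ∧ E.card ≤ 2 * (E.filter fun y => s y = σ).card := by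
    have h5 : E ⊆ (E.filter fun y => s y = 1) ∪ (E.filter fun y => s y = -1) := by
      intro y hy
      rcases (H y hy).1 with h | h
      · exact mem_union_left _ (mem_filter.2 ⟨hy, h⟩)
      · exact mem_union_right _ (mem_filter.2 ⟨hy, h⟩)
    have h6 := (card_le_card h5).trans (card_union_le _ _)
    by_cases h : E.card ≤ 2 * (E.filter fun y => s y = 1).card
    · exact ⟨1, Or.inl rfl, h⟩
    · exact ⟨-1, Or.inr rfl, by omega⟩
  have hg : ∀ x : ZMod p, ‖ldG p y0 len (f i) x‖ ≤ 1 := ldG_le (hfb i)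
  have hpw : ∀ a : ℕ, 1 ≤ a → 2 ≤ m ^ a ∧ m ^ a ≤ R ^ a := fun a ha =>
    ⟨hm.trans (Nat.le_self_pow (by omega) m), Nat.pow_le_pow_left hmR a⟩
  have hmp : ∀ {a b : ℕ}, a ≤ b → m ^ a ≤ m ^ b := fun h => Nat.pow_le_pow_right (by omega) h
  have hRp : ∀ {a b : ℕ}, a ≤ b → R ^ a ≤ R ^ b := fun h => Nat.pow_le_pow_right (by omega) h
  have h2m : ∀ a : ℕ, 2 * m ^ a ≤ m ^ (a + 1) := fun a => by
    rw [pow_succ, mul_comm]; exact Nat.mul_le_mul_left _ hm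
  have s1 := h1 m R hm hmR y0 len N f σ (E.filter fun y => s y = σ) i p hp hp5 hlp hpl hN
    (by omega) hlN hfb ((filter_subset _ _).trans hE) (by
      calc p ≤ 2 * len := hpl
        _ ≤ 2 * (2 ^ R * (2 * (E.filter fun y => s y = σ).card)) :=
          Nat.mul_le_mul_left _ (hcard.trans (Nat.mul_le_mul_left _ hσE))
        _ = _ := by ring) hσ (by
      intro y hy
      obtain ⟨hy, hs⟩ := mem_filter.1 hy
      rw [← hs]
      exact (H y hy).2)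
  have s2 := h2 _ _ (hpw a1 ha1).1 (hpw a1 ha1).2 p hp hp5 _ hg s1
  rw [← pow_mul] at s2
  have s2' : GraphH (ldG p y0 len (f i)) (m ^ a2) (R ^ a2) :=
    ld_graph_mono s2 (by positivity) ((h2m a1).trans (hmp (by omega))) (hRp (by omega))
  have s3 := h3 _ _ (hpw a2 (by omega)).1 (hpw a2 (by omega)).2 p _ hg s2'
  rw [← pow_mul, ← pow_mul] at s3
  have s3' : OutH (ldG p y0 len (f i)) (m ^ a3) (R ^ a3) :=
    ld_out_mono s3 (by positivity) (hmp (by omega)) (hRp (by omega))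
  obtain ⟨a, b1, b2, b3⟩ := h4 _ _ (hpw a3 (by omega)).1 (hpw a3 (by omega)).2 p _ hg s3' y0
  rw [← pow_mul] at b1 b2
  have hR3 : R + 1 ≤ R ^ a3 := by
    have h5 : R + 1 ≤ R ^ (1 + 1) := add_le_pow hR (by simp) (by simp; omega)
    exact h5.trans (hRp (by omega))
  have hsub : Ico y0 (y0 + len) ⊆ Ico y0 (y0 + p) := Ico_subset_Ico le_rfl (by omega)
  refine ⟨a, b1.mono (hRp (by omega)), ?_, ?_⟩
  · have h5 : ((Ico y0 (y0 + len)).filter
        fun y => ¬ a.Good (hf (R ^ (a3 * C4 + a3 + 1))) (hf R) y) ⊆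
        (Ico y0 (y0 + p)).filter fun y => ¬ a.Good (hf (R ^ (a3 * C4))) (hf (R ^ a3)) y := by
      intro y hy
      rw [mem_filter] at hy ⊢
      exact ⟨hsub hy.1, fun h => hy.2 (h.mono (hf_anti (hRp (by omega))) (hf_anti (by omega)))⟩
    have h6 : (p : ℝ) ≤ 2 * len := by exact_mod_cast hpl
    have h7 := hf_anti hR3
    rw [hf_succ] at h7
    calc _ ≤ (((Ico y0 (y0 + p)).filter
          fun y => ¬ a.Good (hf (R ^ (a3 * C4))) (hf (R ^ a3)) y).card : ℝ) := by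
          exact_mod_cast card_le_card h5
      _ ≤ hf (R ^ a3) * p := b2
      _ ≤ hf R / 2 * (2 * len) := mul_le_mul h7 h6 (by positivity) (by linarith [hf_pos R])
      _ = _ := by ring
  · have h5 : ∑ y ∈ Ico y0 (y0 + p), (ldG p y0 len (f i) (y : ZMod p) * conj (ex (a.ph.P y))).re =
        ∑ y ∈ Ico y0 (y0 + len), (f i y * conj (ex (a.ph.P y))).re := by
      rw [← sum_subset hsub]
      · refine sum_congr rfl fun y hy => ?_
        rw [mem_Ico] at hy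
        rw [ldG_cast y0 len (f i) hy.1 (by omega), if_pos hy.2]
      · intro y hy hy'
        rw [mem_Ico] at hy hy'
        rw [ldG_cast y0 len (f i) hy.1 hy.2, if_neg (by omega)]
        simp
    rw [h5] at b3
    refine le_trans ?_ b3
    have h6 : (len : ℝ) ≤ p := by exact_mod_cast hlp.le
    have h7 : 2 * ((m ^ a3 : ℕ) : ℝ) ≤ (m : ℝ) ^ (a3 * C4 + a3 + 1) := by
      exact_mod_cast (h2m a3).trans (hmp (by omega))
    have h8 : (0 : ℝ) < 2 * ((m ^ a3 : ℕ) : ℝ) := by positivity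
    exact div_le_div₀ (by positivity) h6 h8 h7

end Pool.Agent.Lib.MP_9721b5_an
end
end

-- part Pool.Agent.Lib.MP_9721b5_an.Graph
section

/-! From a Freiman homomorphism to a local symmetric affine map. -/

set_option autoImplicit false

open Finset
open scoped Classical ComplexConjugate Pointwise

noncomputable section

namespace Pool.Agent.Lib.MP_9721b5_an

/-- Polynomially bounded functions. -/
def GraphPb (f : ℕ → ℕ) : Prop := ∃ c, ∀ R, 2 ≤ R → f R ≤ R ^ c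

lemma GraphPb.id : GraphPb fun R => R := ⟨1, fun R _ => by simp⟩

lemma GraphPb.const (a : ℕ) : GraphPb fun _ => a :=
  ⟨a, fun _ hR => const_le_pow hR Nat.lt_two_pow_self.le⟩

lemma GraphPb.add {f g : ℕ → ℕ} (hf : GraphPb f) (hg : GraphPb g) : GraphPb fun R => f R + g R := by
  obtain ⟨c, hc⟩ := hf
  obtain ⟨d, hd⟩ := hg
  exact ⟨c + d + 1, fun R hR => add_le_pow hR (le_pow_mono hR (hc R hR) (by omega))
    (le_pow_mono hR (hd R hR) (by omega))⟩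

lemma GraphPb.mul {f g : ℕ → ℕ} (hf : GraphPb f) (hg : GraphPb g) : GraphPb fun R => f R * g R := by
  obtain ⟨c, hc⟩ := hf
  obtain ⟨d, hd⟩ := hg
  exact ⟨c + d, fun R hR => mul_le_pow (hc R hR) (hd R hR)⟩

lemma GraphPb.pow {f : ℕ → ℕ} (hf : GraphPb f) (k : ℕ) : GraphPb fun R => f R ^ k := by
  obtain ⟨c, hc⟩ := hf
  exact ⟨c * k, fun R hR => pow_le_pow_of (hc R hR)⟩

variable {p : ℕ} [NeZero p]

/-- A Freiman homomorphism induces an additive map on sets of fourfold sums. -/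
lemma graph_phi {T B : Finset (ZMod p)} {θ : ZMod p → ZMod p}
    (hθ : ∀ a b : Fin 6 → ZMod p, (∀ i, a i ∈ T) → (∀ i, b i ∈ T) → ∑ i, a i = ∑ i, b i →
      ∑ i, θ (a i) = ∑ i, θ (b i))
    (hB : ∀ b ∈ B, ∃ a1 ∈ T, ∃ a2 ∈ T, ∃ a3 ∈ T, ∃ a4 ∈ T, b = a1 + a2 - a3 - a4) :
    ∃ φ : ZMod p → ZMod p, AddOn B φ ∧ ∀ t ∈ T, ∀ t' ∈ T, t - t' ∈ B → φ (t - t') = θ t - θ t' := by
  choose! a1 h1 a2 h2 a3 h3 a4 h4 h5 using hB
  have key : ∀ x1 ∈ T, ∀ x2 ∈ T, ∀ x3 ∈ T, ∀ x4 ∈ T, ∀ x5 ∈ T, ∀ x6 ∈ T, ∀ y1 ∈ T, ∀ y2 ∈ T,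
      ∀ y3 ∈ T, ∀ y4 ∈ T, ∀ y5 ∈ T, ∀ y6 ∈ T,
      x1 + x2 + x3 + x4 + x5 + x6 = y1 + y2 + y3 + y4 + y5 + y6 →
      θ x1 + θ x2 + θ x3 + θ x4 + θ x5 + θ x6 = θ y1 + θ y2 + θ y3 + θ y4 + θ y5 + θ y6 := by
    intro x1 _ x2 _ x3 _ x4 _ x5 _ x6 _ y1 _ y2 _ y3 _ y4 _ y5 _ y6 _ h
    have := hθ ![x1, x2, x3, x4, x5, x6] ![y1, y2, y3, y4, y5, y6]
      (fun i => by fin_cases i <;> assumption) (fun i => by fin_cases i <;> assumption)
      (by simpa [Fin.sum_univ_six] using h)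
    simpa [Fin.sum_univ_six] using this
  refine ⟨fun b => θ (a1 b) + θ (a2 b) - θ (a3 b) - θ (a4 b), fun h hh k hk hhk => ?_,
    fun t ht t' ht' hb => ?_⟩
  · have := key _ (h1 h hh) _ (h2 h hh) _ (h1 k hk) _ (h2 k hk) _ (h3 _ hhk) _ (h4 _ hhk)
      _ (h3 h hh) _ (h4 h hh) _ (h3 k hk) _ (h4 k hk) _ (h1 _ hhk) _ (h2 _ hhk)
      (by linear_combination h5 _ hhk - h5 h hh - h5 k hk)
    linear_combination -this
  · have := key _ ht _ (h3 _ hb) _ (h4 _ hb) _ ht _ ht _ ht _ ht' _ (h1 _ hb) _ (h2 _ hb)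
      _ ht _ ht _ ht (by linear_combination h5 _ hb)
    linear_combination -this

/-- The symmetry argument. -/
lemma graph_sym {g : ZMod p → ℂ} (hg : ∀ x, ‖g x‖ ≤ 1) {T Γ : Finset (ZMod p)}
    {θ φ : ZMod p → ZMod p} {R R1 K : ℕ} (hT : p ≤ 2 ^ R1 * T.card) (hΓ : Γ.card ≤ K)
    (hθ : ∀ t ∈ T, hf R ≤ ‖ft (dl g t) (θ t)‖) (hφ : AddOn (bohr Γ (hf K)) φ)
    (hφθ : ∀ t ∈ T, ∀ t' ∈ T, t - t' ∈ bohr Γ (hf K) → φ (t - t') = θ t - θ t')
    {R2 n0 : ℕ} (hR2 : R2 = R1 + (K + 5) * K) (hn0 : n0 = 8 * R + R2 + 1) :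
    ∃ S : Finset (ZMod p), p ≤ 2 ^ (R2 + n0) * S.card ∧ ∀ w ∈ bohr Γ (hf (3 * K + n0 + 18)),
      ∀ b1 ∈ S, ∀ b2 ∈ S, ∀ b3 ∈ S, ∀ b4 ∈ S, nm (graphOm φ w (b1 + b2 - b3 - b4)) ≤ 1 / 64 := by
  have hp : (0 : ℝ) < p := by exact_mod_cast NeZero.pos p
  have hTne : T.Nonempty := card_pos.1 (Nat.pos_of_mul_pos_left ((NeZero.pos p).trans_le hT))
  have hK := hf_pos K
  have e5 : hf (K + 5) = hf K / 32 := by rw [hf_add]; norm_num [hf]; ring
  have e3 : hf (K + 3) = hf K / 8 := by rw [hf_add]; norm_num [hf]; ring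
  obtain ⟨τ, hτ, hH⟩ := graph_recenter T Γ hTne (hf_pos (K + 5)).le
  set H := (bohr Γ (hf (K + 5) + hf (K + 5))).filter fun h => τ + h ∈ T with hHdef
  have hHp : p ≤ 2 ^ R2 * H.card := hR2 ▸ graph_dens hT (card_bohr_ge' Γ le_rfl hΓ) hH
  have hHne : H.Nonempty := card_pos.1 (Nat.pos_of_mul_pos_left ((NeZero.pos p).trans_le hHp))
  have hHB : ∀ h ∈ H, h ∈ bohr Γ (hf K / 16) := fun h hh =>
    mem_bohr_of_le (mem_filter.1 hh).1 (by rw [e5]; linarith)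
  have hw : hf (3 * K + n0 + 18) * (4 * ((K + 3 : ℕ) + 2) * (K + 1)) ≤ hf (K + 3) * hf (n0 + 7) := by
    rw [← hf_add, mul_comm]
    refine mul_hf_le (a := 2 + (K + 5) + (K + 1)) ?_ (by omega)
    have h1 := nat_le_two_pow (K + 5)
    have h2 := nat_le_two_pow (K + 1)
    push_cast at h1 h2 ⊢
    rw [pow_add, pow_add]
    gcongr
    · norm_num
    · linarith
  obtain ⟨ρ, hρ1, hρ2, hReg⟩ := exists_reg Γ hΓ (le_refl (hf (K + 3))) (hf_pos _).le hw
  have hwK : hf (3 * K + n0 + 18) ≤ hf K / 8 := e3 ▸ hf_anti (by omega)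
  rw [e3] at hρ1 hρ2
  have hsub : H ⊆ bohr Γ ρ := fun h hh => mem_bohr_of_le (hHB h hh) (by linarith)
  have hcore := graph_core hg φ τ (θ τ) hsub hHne (hf_pos R).le fun a ha => by
    have h1 := hφθ _ (mem_filter.1 ha).2 τ hτ
      (by simpa using mem_bohr_of_le (hHB a ha) (by linarith))
    rw [add_sub_cancel_left] at h1
    rw [h1, add_sub_cancel]
    exact hθ _ (mem_filter.1 ha).2
  have hs : 2 * hf n0 * p ≤ hf R ^ 8 * H.card := by
    have h1 : (p : ℝ) ≤ 2 ^ R2 * H.card := by exact_mod_cast hHp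
    have h2 : 2 * hf n0 = hf R ^ 8 * hf R2 := by
      rw [hn0, hf_succ, hf_add, mul_comm 8 R, hf_mul]; ring
    have h3 := hf_mul_two_pow R2
    have h4 := mul_le_mul_of_nonneg_left h1 (hf_pos R2).le
    rw [← mul_assoc, h3, one_mul] at h4
    rw [h2, mul_assoc]
    exact mul_le_mul_of_nonneg_left h4 (pow_nonneg (hf_pos R).le 8)
  obtain ⟨b0, hb0, hS⟩ := graph_pick hHne
    (fun b' b => ‖∑ a ∈ bohr Γ ρ, ch (graphOm φ a b' - graphOm φ a b)‖)
    (L := (bohr Γ ρ).card) (a := hf n0)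
    (by exact_mod_cast (card_le_univ _).trans (ZMod.card p).le) (hf_pos n0).le
    (fun b' b => (norm_sum_le _ _).trans (by simp)) (Nat.cast_nonneg _) hs
    (le_of_eq_of_le (by ring) hcore)
  set S := H.filter fun b => hf n0 * ((bohr Γ ρ).card : ℝ) ≤
    ‖∑ a ∈ bohr Γ ρ, ch (graphOm φ a b0 - graphOm φ a b)‖ with hSdef
  refine ⟨S, ?_, fun w hw' b1 h1 b2 h2 b3 h3 b4 h4 => ?_⟩
  · have h1 : (H.card : ℝ) ≤ 2 ^ n0 * S.card := by
      have := mul_le_mul_of_nonneg_left hS (show (0 : ℝ) ≤ 2 ^ n0 by positivity)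
      rwa [← mul_assoc, mul_comm _ (hf n0), hf_mul_two_pow, one_mul] at this
    have h2 : H.card ≤ 2 ^ n0 * S.card := by exact_mod_cast h1
    rw [pow_add, mul_assoc]
    exact hHp.trans (Nat.mul_le_mul_left _ h2)
  · have e7 : hf (n0 + 7) = hf n0 / 128 := by rw [hf_add]; norm_num [hf]; ring
    have hsm : ∀ b ∈ S, nm (graphOm φ w b0 - graphOm φ w b) ≤ 1 / 256 := fun b hb =>
      graph_small (χ := fun a => graphOm φ a b0 - graphOm φ a b) (hf_pos n0) (by linarith)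
        (hf_pos _).le (e7 ▸ hReg) hw' (fun x hx => by
          have := hφ x (mem_bohr_of_le hx (by linarith)) w (mem_bohr_of_le hw' (by linarith))
            (mem_bohr_of_le (add_mem_bohr hx hw') (by linarith))
          simp only [graphOm, this]
          ring) (mem_filter.1 hb).2
    have m1 := hHB b1 (mem_filter.1 h1).1
    have m2 := hHB b2 (mem_filter.1 h2).1
    have m3 := hHB b3 (mem_filter.1 h3).1
    have m4 := hHB b4 (mem_filter.1 h4).1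
    have m12 := add_mem_bohr m1 m2
    have m123 := sub_mem_bohr m12 m3
    have m1234 := sub_mem_bohr m123 m4
    have f1 := hφ b1 (mem_bohr_of_le m1 (by linarith)) b2 (mem_bohr_of_le m2 (by linarith))
      (mem_bohr_of_le m12 (by linarith))
    have f2 := hφ.map_sub (mem_bohr_of_le m12 (by linarith)) (mem_bohr_of_le m3 (by linarith))
      (mem_bohr_of_le m123 (by linarith))
    have f3 := hφ.map_sub (mem_bohr_of_le m123 (by linarith)) (mem_bohr_of_le m4 (by linarith))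
      (mem_bohr_of_le m1234 (by linarith))
    have e : graphOm φ w (b1 + b2 - b3 - b4) =
        ((graphOm φ w b0 - graphOm φ w b3) + (graphOm φ w b0 - graphOm φ w b4)) -
          ((graphOm φ w b0 - graphOm φ w b1) + (graphOm φ w b0 - graphOm φ w b2)) := by
      simp only [graphOm, f3, f2, f1]
      ring
    rw [e]
    have := nm_sub_le ((graphOm φ w b0 - graphOm φ w b3) + (graphOm φ w b0 - graphOm φ w b4))
      ((graphOm φ w b0 - graphOm φ w b1) + (graphOm φ w b0 - graphOm φ w b2))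
    linarith [nm_add_le (graphOm φ w b0 - graphOm φ w b3) (graphOm φ w b0 - graphOm φ w b4),
      nm_add_le (graphOm φ w b0 - graphOm φ w b1) (graphOm φ w b0 - graphOm φ w b2),
      hsm b1 h1, hsm b2 h2, hsm b3 h3, hsm b4 h4]

lemma graph_half (hp : p.Prime) (h5 : 5 ≤ p) : ∃ u : ZMod p, 2 * u = 1 := by
  haveI := Fact.mk hp
  have h2 : (2 : ZMod p) ≠ 0 := by
    intro h
    have : ((2 : ℕ) : ZMod p) = 0 := by exact_mod_cast h
    have := Nat.le_of_dvd two_pos ((ZMod.natCast_eq_zero_iff 2 p).1 this)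
    omega
  exact ⟨2⁻¹, mul_inv_cancel₀ h2⟩

lemma graph_mem_image {Γ : Finset (ZMod p)} {u h : ZMod p} {r : ℝ}
    (hh : h ∈ bohr (Γ.image (· * u)) r) : u * h ∈ bohr Γ r :=
  mem_bohr.2 fun γ hγ => by
    rw [← mul_assoc]
    exact mem_bohr.1 hh _ (mem_image_of_mem _ hγ)

/-- Halving and recentering. -/
lemma graph_final {T Γ1 Γ3 : Finset (ZMod p)} {θ φ : ZMod p → ZMod p} {u : ZMod p}
    (hu : 2 * u = 1) {R1 K1 K3 n : ℕ} (hT : p ≤ 2 ^ R1 * T.card) (h1 : Γ1.card ≤ K1)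
    (h3 : Γ3.card ≤ K3) (hn : K1 + 1 ≤ n) (hφ : AddOn (bohr Γ1 (hf K1)) φ)
    (hφθ : ∀ t ∈ T, ∀ t' ∈ T, t - t' ∈ bohr Γ1 (hf K1) → φ (t - t') = θ t - θ t')
    (hsym : ∀ w ∈ bohr Γ1 (hf n), ∀ s ∈ bohr Γ3 (hf n), nm (graphOm φ w s) ≤ 1 / 64) :
    ∃ (Γ : Finset (ZMod p)) (ψ : ZMod p → ZMod p) (τ c : ZMod p) (T' : Finset (ZMod p)),
      Γ.card ≤ K1 + K3 ∧ AddOn (bohr Γ (hf n)) ψ ∧ SymOn (bohr Γ (hf n)) ψ (1 / 10) ∧
      T' ⊆ T ∧ p ≤ 2 ^ (R1 + (n + 3) * (K1 + K3)) * T'.card ∧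
      ∀ t ∈ T', t - τ ∈ bohr Γ (hf n / 4) ∧ θ t = 2 * ψ (t - τ) + c := by
  set Γ := (Γ1 ∪ Γ3).image (· * u) with hΓ
  have hcard : Γ.card ≤ K1 + K3 :=
    card_image_le.trans ((card_union_le _ _).trans (add_le_add h1 h3))
  have hTne : T.Nonempty := card_pos.1 (Nat.pos_of_mul_pos_left ((NeZero.pos p).trans_le hT))
  have hn0 := hf_pos n
  have hn1 : hf n ≤ hf K1 / 2 := hf_succ K1 ▸ hf_anti hn
  have e3 : hf (n + 3) = hf n / 8 := by rw [hf_add]; norm_num [hf]; ring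
  have m1 : ∀ h ∈ bohr Γ (hf n), u * h ∈ bohr Γ1 (hf n) := fun h hh =>
    bohr_mono subset_union_left le_rfl (graph_mem_image hh)
  have m3 : ∀ h ∈ bohr Γ (hf n), u * h ∈ bohr Γ3 (hf n) := fun h hh =>
    bohr_mono subset_union_right le_rfl (graph_mem_image hh)
  have m2 : ∀ h ∈ bohr Γ (hf n), u * h ∈ bohr Γ1 (hf K1) := fun h hh =>
    mem_bohr_of_le (m1 h hh) (by linarith)
  obtain ⟨τ, hτ, hH⟩ := graph_recenter T Γ hTne (hf_pos (n + 3)).le
  refine ⟨Γ, fun h => φ (u * h), τ, θ τ,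
    ((bohr Γ (hf (n + 3) + hf (n + 3))).filter fun h => τ + h ∈ T).image (τ + ·), hcard,
    fun h hh k hk hhk => ?_, fun h hh k hk => ?_, fun t ht => ?_, ?_, fun t ht => ?_⟩
  · have := m2 _ hhk
    rw [mul_add] at this
    simp only [mul_add]
    exact hφ _ (m2 h hh) _ (m2 k hk) this
  · have e : φ (u * h) * k - φ (u * k) * h =
        graphOm φ (u * h) (u * k) + graphOm φ (u * h) (u * k) := by
      simp only [graphOm]
      linear_combination (φ (u * k) * h - φ (u * h) * k) * hu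
    simp only [e]
    linarith [nm_add_le (graphOm φ (u * h) (u * k)) (graphOm φ (u * h) (u * k)),
      hsym _ (m1 h hh) _ (m3 k hk)]
  · obtain ⟨h, hh, rfl⟩ := mem_image.1 ht
    exact (mem_filter.1 hh).2
  · rw [card_image_of_injective _ (add_right_injective τ)]
    exact graph_dens hT (card_bohr_ge' Γ le_rfl hcard) hH
  · obtain ⟨h, hh, rfl⟩ := mem_image.1 ht
    obtain ⟨hh1, hh2⟩ := mem_filter.1 hh
    have hh3 : h ∈ bohr Γ (hf n) := mem_bohr_of_le hh1 (by rw [e3]; linarith)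
    have e : u * h + u * h = h := by linear_combination h * hu
    have hh4 : u * h + u * h ∈ bohr Γ1 (hf K1) :=
      mem_bohr_of_le (add_mem_bohr (m1 h hh3) (m1 h hh3)) (by linarith)
    have f1 := hφ _ (m2 h hh3) _ (m2 h hh3) hh4
    rw [e] at f1 hh4
    have f2 := hφθ _ hh2 τ hτ (by simpa using hh4)
    simp only [add_sub_cancel_left] at f2 ⊢
    exact ⟨mem_bohr_of_le hh1 (by rw [e3]; linarith), by linear_combination f1 - f2⟩

theorem graph (hF : FreimanStmt) (hB : BSStmt) : GraphStmt := by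
  obtain ⟨CF, hF⟩ := hF
  obtain ⟨CB, hB⟩ := hB
  obtain ⟨R1, hR1, b1⟩ : ∃ f : ℕ → ℕ, (∀ R, f R = R ^ CF + 2) ∧ GraphPb f :=
    ⟨_, fun _ => rfl, (GraphPb.id.pow CF).add (.const 2)⟩
  obtain ⟨K1, hK1, b2⟩ : ∃ f : ℕ → ℕ, (∀ R, f R = R1 R ^ CB) ∧ GraphPb f :=
    ⟨_, fun _ => rfl, b1.pow CB⟩
  obtain ⟨R2, hR2, b3⟩ : ∃ f : ℕ → ℕ, (∀ R, f R = R1 R + (K1 R + 5) * K1 R) ∧ GraphPb f :=
    ⟨_, fun _ => rfl, b1.add ((b2.add (.const 5)).mul b2)⟩
  obtain ⟨n0, hn0, b4⟩ : ∃ f : ℕ → ℕ, (∀ R, f R = 8 * R + R2 R + 1) ∧ GraphPb f :=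
    ⟨_, fun _ => rfl, ((((GraphPb.const 8).mul .id).add b3).add (.const 1))⟩
  obtain ⟨K3, hK3, b5⟩ : ∃ f : ℕ → ℕ, (∀ R, f R = (R2 R + n0 R) ^ CB) ∧ GraphPb f :=
    ⟨_, fun _ => rfl, (b3.add b4).pow CB⟩
  obtain ⟨n, hn, b6⟩ : ∃ f : ℕ → ℕ, (∀ R, f R = 3 * K1 R + n0 R + 18 + K3 R) ∧ GraphPb f :=
    ⟨_, fun _ => rfl, (((((GraphPb.const 3).mul b2).add b4).add (.const 18)).add b5)⟩
  obtain ⟨C, hC⟩ := (b6.add (b2.add b5)).add (b1.add ((b6.add (.const 3)).mul (b2.add b5)))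
  simp only at hC
  refine ⟨C, fun R hR => ⟨n R, le_trans (by omega) (hC R hR), ?_⟩⟩
  intro p _ hp h5 g T θ hg hT hθ
  obtain ⟨T1, hT1, hT1p, hFr⟩ := hF R hR p hp g T θ hg hT hθ
  have hT1' : p ≤ 2 ^ R1 R * T1.card := hT1p.trans
    (Nat.mul_le_mul_right _ (Nat.pow_le_pow_right two_pos (by rw [hR1]; omega)))
  obtain ⟨Γ1, hΓ1, hrep⟩ := hB (R1 R) (by rw [hR1]; omega) p T1 hT1'
  rw [← hK1] at hΓ1 hrep
  obtain ⟨φ, hφ, hφθ⟩ := graph_phi hFr hrep
  obtain ⟨S, hS, hsym⟩ := graph_sym hg hT1' hΓ1 (fun t ht => hθ t (hT1 ht)) hφ hφθ (hR2 R) (hn0 R)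
  obtain ⟨Γ3, hΓ3, hrep3⟩ := hB (R2 R + n0 R) (by rw [hn0]; omega) p S hS
  rw [← hK3] at hΓ3 hrep3
  obtain ⟨u, hu⟩ := graph_half hp h5
  obtain ⟨Γ, ψ, τ, c, T', a1, a2, a3, a4, a5, a6⟩ := graph_final (n := n R) hu hT1' hΓ1 hΓ3
    (by rw [hn]; omega) hφ hφθ fun w hw s hs => by
      obtain ⟨s1, c1, s2, c2, s3, c3, s4, c4, rfl⟩ :=
        hrep3 s (mem_bohr_of_le hs (hf_anti (by rw [hn]; omega)))
      exact hsym w (mem_bohr_of_le hw (hf_anti (by rw [hn]; omega))) s1 c1 s2 c2 s3 c3 s4 c4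
  have hC' := hC R hR
  exact ⟨Γ, ψ, τ, c, T', a1.trans (le_trans (by omega) hC'), a2, a3, a4.trans hT1,
    a5.trans (Nat.mul_le_mul_right _ (Nat.pow_le_pow_right two_pos (le_trans (by omega) hC'))), a6⟩

end Pool.Agent.Lib.MP_9721b5_an
end
end

-- part Pool.Agent.Lib.MP_9721b5_an.Elim
section

/-! Elimination of two of the three functions. -/

set_option autoImplicit false

open Finset
open scoped Classical ComplexConjugate Pointwise

noncomputable section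

namespace Pool.Agent.Lib.MP_9721b5_an

section

variable {p : ℕ} [NeZero p] [Fact p.Prime]

lemma elim_sum {M : Type} [AddCommMonoid M] (F : ZMod p → M) {k : ZMod p} (hk : k ≠ 0)
    (y : ZMod p) : ∑ n, F (y + k * n) = ∑ z, F z :=
  Equiv.sum_comp ((Equiv.mulLeft₀ k hk).trans (Equiv.addLeft y)) F

lemma elim_tri (W G V : ZMod p → ℂ) (a : ZMod p) {c : ZMod p} (hc : c ≠ 0) :
    ∑ y, ∑ n, W y * G (y + a * n) * V (y + c * n) =
      (p : ℂ) ^ 2 * ∑ η, ft G η * ft W ((a / c - 1) * η) * ft V (-(a / c) * η) := by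
  have hp : (p : ℂ) ≠ 0 := Nat.cast_ne_zero.2 (NeZero.ne p)
  have h1 : ∀ y, ∑ n, W y * G (y + a * n) * V (y + c * n) = ∑ η, ∑ z, ft G η *
      (W y * ch (-((a / c - 1) * η * y))) * (V z * ch (-(-(a / c) * η * z))) := by
    intro y
    rw [sum_comm, ← elim_sum (fun z => ∑ η, ft G η *
      (W y * ch (-((a / c - 1) * η * y))) * (V z * ch (-(-(a / c) * η * z)))) hc y]
    refine sum_congr rfl fun n _ => ?_
    rw [ft_inv G (y + a * n), mul_sum, sum_mul]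
    refine sum_congr rfl fun η _ => ?_
    have : η * (y + a * n) = -((a / c - 1) * η * y) + -(-(a / c) * η * (y + c * n)) := by
      field_simp
      ring
    rw [this, ch_add]
    ring
  simp only [h1]
  rw [sum_comm, mul_sum]
  refine sum_congr rfl fun η _ => ?_
  simp only [← mul_sum, ← sum_mul]
  unfold ft
  field_simp

lemma elim_cs (u : ZMod p → ℂ) (hu : ∀ x, ‖u x‖ ≤ 1) (F : ZMod p → ZMod p → ℂ) :
    ‖∑ x, u x * ∑ n, F x n‖ ^ 2 ≤ p * ∑ h, ‖∑ x, ∑ n, F x (n + h) * conj (F x n)‖ := by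
  have h1 : ‖∑ x, u x * ∑ n, F x n‖ ≤ ∑ x, ‖∑ n, F x n‖ :=
    (norm_sum_le _ _).trans (sum_le_sum fun x _ => by
      rw [norm_mul]
      exact mul_le_of_le_one_left (norm_nonneg _) (hu x))
  have h2 := sq_sum_le_card_mul_sum_sq (s := univ) (f := fun x => ‖∑ n, F x n‖)
  rw [card_univ, ZMod.card] at h2
  have h3 : ((∑ x, ‖∑ n, F x n‖ ^ 2 : ℝ) : ℂ) = ∑ h, ∑ x, ∑ n, F x (n + h) * conj (F x n) := by
    rw [sum_comm]
    push_cast
    refine sum_congr rfl fun x _ => ?_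
    rw [sum_comm, ← Complex.mul_conj', map_sum, mul_sum]
    refine sum_congr rfl fun n _ => ?_
    rw [← sum_mul]
    congr 1
    exact (Equiv.sum_comp (Equiv.addLeft n) (F x)).symm
  have h4 : ∑ x, ‖∑ n, F x n‖ ^ 2 ≤ ∑ h, ‖∑ x, ∑ n, F x (n + h) * conj (F x n)‖ := by
    refine le_trans (le_of_eq ?_) (norm_sum_le _ _)
    rw [← h3, Complex.norm_real, Real.norm_of_nonneg (sum_nonneg fun _ _ => sq_nonneg _)]
  exact (pow_le_pow_left₀ (norm_nonneg _) h1 2).trans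
    (h2.trans (mul_le_mul_of_nonneg_left h4 (Nat.cast_nonneg p)))

/-- The mass of the large spectrum. -/
lemma elim_mass (W G V : ZMod p → ℂ) (hG : ∀ x, ‖G x‖ ≤ 1) (hV : ∀ x, ‖V x‖ ≤ 1) (κ : ZMod p)
    {μ : ZMod p} (hμ : μ ≠ 0) {γ : ℝ} (hγ : 0 ≤ γ) (hr : 0 < ∑ x, ‖W x‖)
    (h : 2 * γ * ((∑ x, ‖W x‖) / p) ≤ ‖∑ η, ft G η * ft W (κ * η) * ft V (μ * η)‖) :
    γ ^ 2 ≤ ∑ η ∈ univ.filter fun η => γ * ((∑ x, ‖W x‖) / p) ≤ ‖ft W (κ * η)‖,
      ‖ft G η‖ ^ 2 := by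
  have hp : (0 : ℝ) < p := Nat.cast_pos.2 (Nat.pos_of_ne_zero (NeZero.ne p))
  set ρ := (∑ x, ‖W x‖) / p with hρ
  have hρ0 : 0 < ρ := by positivity
  set S := univ.filter fun η => γ * ρ ≤ ‖ft W (κ * η)‖ with hS
  have hV2 : ∑ η, ‖ft V (μ * η)‖ ^ 2 ≤ 1 := by
    have := elim_sum (fun η => ‖ft V η‖ ^ 2) hμ 0
    simp only [zero_add] at this
    rw [this]
    exact parseval_le_one V hV
  have hcs : ∀ A : Finset (ZMod p), (∑ η ∈ A, ‖ft G η‖ * ‖ft V (μ * η)‖) ^ 2 ≤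
      ∑ η ∈ A, ‖ft G η‖ ^ 2 := fun A =>
    (sum_mul_sq_le_sq_mul_sq A _ _).trans (mul_le_of_le_one_right
      (sum_nonneg fun _ _ => sq_nonneg _) ((sum_le_sum_of_subset_of_nonneg (subset_univ A)
        fun _ _ _ => sq_nonneg _).trans hV2))
  have h1 : ∑ η, ‖ft G η‖ * ‖ft V (μ * η)‖ ≤ 1 :=
    (sq_le_one_iff₀ (sum_nonneg fun _ _ => by positivity)).1
      ((hcs univ).trans (parseval_le_one G hG))
  have h2 : ‖∑ η, ft G η * ft W (κ * η) * ft V (μ * η)‖ ≤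
      ρ * ∑ η ∈ S, ‖ft G η‖ * ‖ft V (μ * η)‖ + γ * ρ * ∑ η, ‖ft G η‖ * ‖ft V (μ * η)‖ := by
    refine (norm_sum_le _ _).trans ?_
    rw [hS, sum_filter, mul_sum, mul_sum, ← sum_add_distrib]
    refine sum_le_sum fun η _ => ?_
    rw [norm_mul, norm_mul, mul_right_comm]
    have h0 : 0 ≤ ‖ft G η‖ * ‖ft V (μ * η)‖ := by positivity
    split_ifs with hη
    · have := mul_le_mul_of_nonneg_left (norm_ft_le W (κ * η)) h0
      have h3 : 0 ≤ γ * ρ * (‖ft G η‖ * ‖ft V (μ * η)‖) := by positivity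
      linarith
    · have := mul_le_mul_of_nonneg_left (not_le.1 hη).le h0
      linarith
  have h3 : γ ≤ ∑ η ∈ S, ‖ft G η‖ * ‖ft V (μ * η)‖ := by
    refine le_of_mul_le_mul_left ?_ hρ0
    have := mul_le_mul_of_nonneg_left h1 (show 0 ≤ γ * ρ by positivity)
    linarith
  exact (pow_le_pow_left₀ hγ h3 2).trans (hcs S)

lemma elim_chang (hC : ChangStmt) (W : ZMod p → ℂ) {κ : ZMod p} (hκ : κ ≠ 0) {M γ : ℝ}
    (hγ : 0 < γ) (hγ1 : γ ≤ 1) (hM : 1 ≤ M) (hr : 0 < ∑ x, ‖W x‖)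
    (hW : ∀ x, ‖W x‖ * p ≤ M * ∑ y, ‖W y‖) {Λ : Finset (ZMod p)}
    (hΛ : AddDissociated (Λ : Set (ZMod p)))
    (h : ∀ η ∈ Λ, γ * ((∑ x, ‖W x‖) / p) ≤ ‖ft W (κ * η)‖) :
    (Λ.card : ℝ) * γ ^ 2 ≤ 8 * Real.log (2 * M) := by
  have hp : (0 : ℝ) < p := Nat.cast_pos.2 (Nat.pos_of_ne_zero (NeZero.ne p))
  have h1 : ∑ x, ‖W (κ⁻¹ * x)‖ = ∑ x, ‖W x‖ := by
    simpa only [zero_add] using elim_sum (fun x => ‖W x‖) (inv_ne_zero hκ) 0
  refine hC p (fun x => W (κ⁻¹ * x)) M γ Λ hγ hγ1 hM (by rwa [h1]) (fun x => by rw [h1]; exact hW _)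
    hΛ fun η hη => ?_
  have h2 : ∑ x, W (κ⁻¹ * x) * ch (-(η * x)) = ∑ x, W x * ch (-(κ * η * x)) := by
    rw [← elim_sum (fun x => W (κ⁻¹ * x) * ch (-(η * x))) hκ 0]
    refine sum_congr rfl fun x _ => ?_
    rw [zero_add, inv_mul_cancel_left₀ hκ, mul_comm κ η, mul_assoc]
  have h3 := h η hη
  rw [ft, norm_div, Complex.norm_natCast, ← mul_div_assoc, div_le_div_iff_of_pos_right hp] at h3
  rw [h1, h2]
  exact h3

omit [Fact p.Prime] in
/-- Many shifts with a large trilinear form. -/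
lemma elim_pop {j r : ZMod p → ℝ} {e δ : ℝ} (he : 0 < e) (hδ : 0 ≤ δ) (hjr : ∀ h, j h ≤ r h)
    (hr0 : ∀ h, 0 ≤ r h) (hre : ∀ h, r h ≤ e) (hr : ∑ h, r h = e ^ 2) (hj : δ * e ^ 2 ≤ ∑ h, j h) :
    δ * e / 2 ≤ (univ.filter fun h => δ * r h / 4 ≤ j h ∧ δ * e ^ 2 / (4 * p) ≤ r h).card := by
  have hp : (0 : ℝ) < p := Nat.cast_pos.2 (Nat.pos_of_ne_zero (NeZero.ne p))
  have h1 : ∑ h, j h ≤ ∑ h, ((if δ * r h / 4 ≤ j h ∧ δ * e ^ 2 / (4 * p) ≤ r h then e else 0) +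
      (δ / 4 * r h + δ * e ^ 2 / (4 * p))) := by
    refine sum_le_sum fun h _ => ?_
    have a1 : 0 ≤ δ / 4 * r h := mul_nonneg (by positivity) (hr0 h)
    have a2 : 0 ≤ δ * e ^ 2 / (4 * p) := by positivity
    have := hjr h
    have := hre h
    split_ifs with hh
    · linarith
    · rcases not_and_or.1 hh with a | a
      · linarith [not_le.1 a]
      · linarith [not_le.1 a]
  rw [sum_add_distrib, sum_add_distrib, ← sum_filter, sum_const, ← mul_sum, hr, sum_const,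
    card_univ, ZMod.card, nsmul_eq_mul, nsmul_eq_mul] at h1
  have h2 : (p : ℝ) * (δ * e ^ 2 / (4 * p)) = δ * e ^ 2 / 4 := by field_simp
  refine le_of_mul_le_mul_right ?_ he
  linarith

end

lemma elim_num1 {m : ℕ} (hm : 2 ≤ m) :
    (1 / (m ^ 17 : ℕ) : ℝ) ≤ (1 / (8 * (m : ℝ) ^ 2)) ^ 2 := by
  have hm0 : (2 : ℝ) ≤ m := by exact_mod_cast hm
  rw [div_pow, one_pow]
  refine one_div_le_one_div_of_le (by positivity) ?_
  have e1 : (2 : ℝ) ^ 13 ≤ (m : ℝ) ^ 13 := by gcongr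
  push_cast
  calc (8 * (m : ℝ) ^ 2) ^ 2 = 64 * (m : ℝ) ^ 4 := by ring
    _ ≤ (m : ℝ) ^ 13 * (m : ℝ) ^ 4 := by gcongr; linarith
    _ = (m : ℝ) ^ 17 := by ring

lemma elim_num2 {m R L : ℕ} (hm : 2 ≤ m) (hmR : m ≤ R)
    (a4 : (L : ℝ) * (1 / (8 * (m : ℝ) ^ 2)) ^ 2 ≤
      8 * Real.log (2 * (4 * (m : ℝ) ^ 2 * (2 ^ R) ^ 2))) : L ≤ R ^ 17 := by
  have hR : 2 ≤ R := hm.trans hmR
  have hm0 : (2 : ℝ) ≤ m := by exact_mod_cast hm
  have hmR' : (m : ℝ) ≤ R := by exact_mod_cast hmR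
  have hmp : (m : ℝ) ≤ 2 ^ R := hmR'.trans (nat_le_two_pow R)
  have a5 : Real.log (2 * (4 * (m : ℝ) ^ 2 * (2 ^ R) ^ 2)) ≤ 8 * R := by
    have e1 : 2 * (4 * (m : ℝ) ^ 2 * (2 ^ R) ^ 2) ≤ 2 ^ (8 * R) := by
      calc 2 * (4 * (m : ℝ) ^ 2 * (2 ^ R) ^ 2) ≤ 2 * (4 * (2 ^ R) ^ 2 * (2 ^ R) ^ 2) := by
            gcongr
        _ = 2 ^ (4 * R + 3) := by ring
        _ ≤ _ := pow_le_pow_right₀ one_le_two (by omega)
    refine (Real.log_le_log (by positivity) e1).trans ?_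
    rw [Real.log_pow]
    push_cast
    refine mul_le_of_le_one_right (by positivity) ?_
    linarith [Real.log_two_lt_d9]
  have a6 : (L : ℝ) ≤ 4096 * (R : ℝ) ^ 5 := by
    have e1 := mul_le_mul_of_nonneg_right (a4.trans (mul_le_mul_of_nonneg_left a5
      (by norm_num))) (show (0 : ℝ) ≤ (8 * m ^ 2) ^ 2 by positivity)
    calc (L : ℝ) = L * (1 / (8 * (m : ℝ) ^ 2)) ^ 2 * (8 * m ^ 2) ^ 2 := by field_simp
      _ ≤ 8 * (8 * R) * (8 * m ^ 2) ^ 2 := e1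
      _ ≤ 8 * (8 * R) * (8 * R ^ 2) ^ 2 := by gcongr
      _ = _ := by ring
  have a7 : L ≤ 4096 * R ^ 5 := by exact_mod_cast a6
  exact a7.trans (poly_le (k := 12) hR (by norm_num))

theorem elim (hC : ChangStmt) : ElimStmt := by
  refine ⟨17, fun m R hm hmR p _ hpp g u v a b c E hg hu hv ha hb hc hab hac hbc hE hs => ?_⟩
  have : Fact p.Prime := ⟨hpp⟩
  have hp : (0 : ℝ) < p := Nat.cast_pos.2 hpp.pos
  have hR : 2 ≤ R := hm.trans hmR
  have hm0 : (2 : ℝ) ≤ m := by exact_mod_cast hm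
  have hmR' : (m : ℝ) ≤ R := by exact_mod_cast hmR
  have hE' : (p : ℝ) ≤ 2 ^ R * E.card := by exact_mod_cast hE
  have he : (0 : ℝ) < E.card := pos_of_mul_pos_right (hp.trans_le hE') (by positivity)
  choose θ hθ using fun y => exists_ex_mul_norm (∑ n, g (y + a * n) * u (y + b * n) * v (y + c * n))
  set w : ZMod p → ℂ := fun y => if y ∈ E then ex (-θ y) else 0 with hw
  have hwn : ∀ y, ‖w y‖ = if y ∈ E then 1 else 0 := fun y => by
    simp only [hw]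
    split_ifs <;> simp
  have hw1 : ∀ y, ‖w y‖ ≤ 1 := fun y => by
    rw [hwn]
    split_ifs <;> norm_num
  have hws : ∑ y, ‖w y‖ = E.card := by simp [hwn]
  set F : ZMod p → ZMod p → ℂ := fun x n =>
    w (x - b * n) * g (x + (a - b) * n) * v (x + (c - b) * n) with hF
  have h1 : (E.card : ℝ) / m * p ≤ ‖∑ x, u x * ∑ n, F x n‖ := by
    have e1 : ∑ x, u x * ∑ n, F x n =
        ∑ y, w y * ∑ n, g (y + a * n) * u (y + b * n) * v (y + c * n) := by
      simp only [mul_sum]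
      rw [sum_comm, sum_comm (s := univ) (f := fun y n => w y * _)]
      refine sum_congr rfl fun n _ => ?_
      rw [← Equiv.sum_comp (Equiv.addRight (b * n))]
      refine sum_congr rfl fun y _ => ?_
      simp only [hF, Equiv.coe_addRight, add_sub_cancel_right]
      rw [show y + b * n + (a - b) * n = y + a * n by ring,
        show y + b * n + (c - b) * n = y + c * n by ring]
      ring
    have e2 : ∑ y, w y * ∑ n, g (y + a * n) * u (y + b * n) * v (y + c * n) =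
        ((∑ y ∈ E, ‖∑ n, g (y + a * n) * u (y + b * n) * v (y + c * n)‖ : ℝ) : ℂ) := by
      push_cast
      rw [← sum_subset (subset_univ E) fun y _ hy => by simp only [hw, if_neg hy, zero_mul]]
      refine sum_congr rfl fun y hy => ?_
      simp only [hw, if_pos hy]
      conv_lhs => rw [← hθ y]
      rw [← mul_assoc, mul_comm (ex _), ex_mul_neg, one_mul]
    rw [e1, e2, Complex.norm_real, Real.norm_of_nonneg (sum_nonneg fun _ _ => norm_nonneg _),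
      ← le_div_iff₀ hp, sum_div]
    simpa only [norm_div, Complex.norm_natCast] using hs
  set J : ZMod p → ℂ := fun h => ∑ y, ∑ n, dl w (-b * h) y * dl g ((a - b) * h) (y + a * n) *
    dl v ((c - b) * h) (y + c * n) with hJ
  have h2 : ∀ h, ∑ x, ∑ n, F x (n + h) * conj (F x n) = J h := by
    intro h
    simp only [hJ]
    rw [sum_comm, sum_comm (s := univ) (f := fun y n => dl w _ y * _ * _)]
    refine sum_congr rfl fun n _ => ?_
    rw [← Equiv.sum_comp (Equiv.addRight (b * n))]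
    refine sum_congr rfl fun y _ => ?_
    simp only [hF, dl, Equiv.coe_addRight, add_sub_cancel_right, map_mul]
    rw [show y + b * n + (a - b) * n = y + a * n by ring,
      show y + b * n + (c - b) * n = y + c * n by ring,
      show y + b * n - b * (n + h) = y + -b * h by ring,
      show y + b * n + (a - b) * (n + h) = y + a * n + (a - b) * h by ring,
      show y + b * n + (c - b) * (n + h) = y + c * n + (c - b) * h by ring]
    ring
  have h3 := (pow_le_pow_left₀ (by positivity) h1 2).trans (elim_cs u hu F)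
  simp only [h2] at h3
  set r : ZMod p → ℝ := fun h => ∑ y, ‖dl w (-b * h) y‖ with hr
  have hdl : ∀ t y, ‖dl w t y‖ = ‖w (y + t)‖ * ‖w y‖ := fun t y => by
    rw [dl, norm_mul, Complex.norm_conj]
  have h4 := elim_pop (j := fun h => ‖J h‖ / p) (r := r) (δ := 1 / m ^ 2) he (by positivity)
    (fun h => by
      rw [div_le_iff₀ hp, hr, sum_mul]
      refine (norm_sum_le _ _).trans (sum_le_sum fun y _ => (norm_sum_le _ _).trans
        ((sum_le_card_nsmul _ _ ‖dl w (-b * h) y‖ fun n _ => ?_).trans (le_of_eq ?_)))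
      · rw [norm_mul, norm_mul, mul_assoc]
        exact mul_le_of_le_one_right (norm_nonneg _)
          (mul_le_one₀ (norm_dl_le hg _ _) (norm_nonneg _) (norm_dl_le hv _ _))
      · rw [card_univ, ZMod.card, nsmul_eq_mul, mul_comm])
    (fun h => sum_nonneg fun _ _ => norm_nonneg _)
    (fun h => by
      rw [← hws]
      refine sum_le_sum fun y _ => ?_
      rw [hdl]
      exact mul_le_of_le_one_left (norm_nonneg _) (hw1 _))
    (by
      simp only [hr, hdl]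
      rw [sum_comm, sq, ← hws, mul_sum]
      refine sum_congr rfl fun y _ => ?_
      rw [← sum_mul, elim_sum (fun z => ‖w z‖) (neg_ne_zero.2 hb) y])
    (by
      rw [← sum_div, le_div_iff₀ hp]
      refine le_of_mul_le_mul_left (le_trans (le_of_eq ?_) h3) hp
      field_simp)
  set S0 := univ.filter fun h => 1 / (m : ℝ) ^ 2 * r h / 4 ≤ ‖J h‖ / p ∧
    1 / (m : ℝ) ^ 2 * (E.card : ℝ) ^ 2 / (4 * p) ≤ r h with hS0
  have hab' : a - b ≠ 0 := sub_ne_zero.2 hab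
  have hmp : (m : ℝ) ≤ 2 ^ R := hmR'.trans (nat_le_two_pow R)
  refine ⟨S0.image fun h => (a - b) * h, ?_, fun t ht => ?_⟩
  · rw [card_image_of_injective _ (mul_right_injective₀ hab')]
    have e1 : (E.card : ℝ) ≤ 2 * m ^ 2 * S0.card := by
      have := mul_le_mul_of_nonneg_left h4 (show (0 : ℝ) ≤ 2 * m ^ 2 by positivity)
      refine le_trans (le_of_eq ?_) this
      field_simp
    have e2 : 3 * R + 1 ≤ R ^ 17 := by
      have := poly_le (a := 4) (c := 1) (k := 16) hR (by norm_num)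
      rw [pow_one] at this
      exact le_trans (by omega) this
    have e3 : (p : ℝ) ≤ 2 ^ (R ^ 17) * S0.card := by
      calc (p : ℝ) ≤ 2 ^ R * (2 * (2 ^ R) ^ 2 * S0.card) := by
            refine hE'.trans (mul_le_mul_of_nonneg_left (e1.trans ?_) (by positivity))
            gcongr
        _ = 2 ^ (3 * R + 1) * S0.card := by ring
        _ ≤ _ := by gcongr; norm_num
    exact_mod_cast e3
  · obtain ⟨h, hh, rfl⟩ := mem_image.1 ht
    obtain ⟨a1, a2⟩ := (mem_filter.1 hh).2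
    have hr0 : 0 < r h := lt_of_lt_of_le (by positivity) a2
    have hκ : a / c - 1 ≠ 0 := sub_ne_zero.2 fun h0 => hac ((div_eq_one_iff_eq hc).1 h0)
    have hμ : -(a / c) ≠ 0 := neg_ne_zero.2 (div_ne_zero ha hc)
    have a3 := elim_mass (dl w (-b * h)) (dl g ((a - b) * h)) (dl v ((c - b) * h))
      (norm_dl_le hg _) (norm_dl_le hv _) (a / c - 1) hμ (γ := 1 / (8 * m ^ 2)) (by positivity)
      hr0 (by
        simp only [hJ] at a1
        rw [elim_tri _ _ _ a hc, norm_mul, norm_pow, Complex.norm_natCast] at a1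
        refine le_of_mul_le_mul_left (le_trans (le_of_eq ?_) (a1.trans (le_of_eq ?_))) hp
        · simp only [hr]
          field_simp
          ring
        · field_simp)
    refine ⟨_, le_trans ?_ a3, fun Λ hΛ hd => ?_⟩
    · exact elim_num1 hm
    · have hM : (1 : ℝ) ≤ 4 * m ^ 2 * (2 ^ R) ^ 2 :=
        one_le_mul_of_one_le_of_one_le (by nlinarith only [hm0])
          (one_le_pow₀ (one_le_pow₀ one_le_two))
      refine elim_num2 hm hmR (elim_chang hC (dl w (-b * h)) hκ (by positivity) ?_ hM hr0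
        (fun x => ?_) hd fun η hη => (mem_filter.1 (hΛ hη)).2)
      · rw [div_le_one (by positivity)]
        nlinarith only [hm0]
      · refine (mul_le_of_le_one_left hp.le (norm_dl_le hw1 _ _)).trans
          (le_trans ?_ (mul_le_mul_of_nonneg_left a2 (by positivity)))
        have e1 : 4 * (m : ℝ) ^ 2 * (2 ^ R) ^ 2 * (1 / (m : ℝ) ^ 2 * (E.card : ℝ) ^ 2 / (4 * p)) =
            (2 ^ R * E.card) ^ 2 / p := by field_simp
        rw [e1, le_div_iff₀ hp, ← sq]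
        exact pow_le_pow_left₀ hp.le hE' 2

end Pool.Agent.Lib.MP_9721b5_an
end
end
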