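import Pool.Agent.Lib.MP_9721b5_an.Basic
import Pool.Agent.Lib.MP_9721b5_an.GraphA

-- part Pool.Agent.Lib.MP_9721b5_an.Freiman
section

/-! Large Fourier coefficients of derivatives give a Freiman homomorphism on a dense set. -/

set_option autoImplicit false

open Finset
open scoped Classical ComplexConjugate Pointwise

noncomputable section

namespace Pool.Agent.Lib.MP_9721b5_an

section Energy

variable {p : ℕ} [NeZero p]

lemma freiman_pair {ι : Type*} (S : Finset ι) (a : ι → ZMod p) :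
    ((‖∑ i ∈ S, ch (a i)‖ ^ 2 : ℝ) : ℂ) = ∑ q ∈ S ×ˢ S, ch (a q.1 - a q.2) := by
  rw [Complex.ofReal_pow, ← Complex.mul_conj', map_sum, sum_mul_sum, sum_product]
  simp only [ch_sub]

lemma freiman_quad {ι : Type*} (S : Finset ι) (a : ι → ZMod p) :
    ((‖∑ i ∈ S, ch (a i)‖ ^ 4 : ℝ) : ℂ) =
      ∑ q ∈ (S ×ˢ S) ×ˢ S ×ˢ S, ch (a q.1.1 - a q.1.2 - (a q.2.1 - a q.2.2)) := by
  have h := freiman_pair (S ×ˢ S) fun q => a q.1 - a q.2
  rw [← freiman_pair, Complex.norm_real, Real.norm_of_nonneg (by positivity), ← pow_mul] at h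
  rw [h]

/-- autocorrelation of a derivative -/
def freimanCor (g : ZMod p → ℂ) (h u : ZMod p) : ℂ := ∑ y, dl g h (u + y) * conj (dl g h y)

lemma freiman_cor_symm (g : ZMod p → ℂ) (h u : ZMod p) : freimanCor g h u = freimanCor g u h := by
  refine sum_congr rfl fun y _ => ?_
  simp only [dl, map_mul, Complex.conj_conj]
  rw [show u + y + h = h + y + u by ring, add_comm y h, add_comm y u]
  ring

lemma freiman_ft_cor (g : ZMod p → ℂ) (h η : ZMod p) :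
    ft (freimanCor g h) η = p * ((‖ft (dl g h) η‖ ^ 2 : ℝ) : ℂ) := by
  have hp : (p : ℂ) ≠ 0 := Nat.cast_ne_zero.2 (NeZero.ne p)
  have h1 : ft (freimanCor g h) η = ∑ y, ft (fun u => dl g h (u + y)) η * conj (dl g h y) := by
    simp only [ft, freimanCor, sum_mul, sum_div, div_mul_eq_mul_div]
    rw [sum_comm]
    refine sum_congr rfl fun y _ => sum_congr rfl fun u _ => by ring
  have h2 : ∑ y, ch (η * y) * conj (dl g h y) = p * conj (ft (dl g h) η) := by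
    rw [ft, map_div₀, map_sum, Complex.conj_natCast, mul_div_cancel₀ _ hp]
    refine sum_congr rfl fun y _ => ?_
    rw [map_mul (starRingEnd ℂ) (dl g h y), conj_ch, neg_neg, mul_comm]
  rw [h1]
  simp only [ft_shift, mul_assoc]
  rw [← mul_sum, h2, Complex.ofReal_pow, ← Complex.mul_conj']
  ring

lemma freiman_dual (g : ZMod p → ℂ) (h ξ : ZMod p) :
    (p : ℂ) * ((‖ft (dl g h) ξ‖ ^ 2 : ℝ) : ℂ) =
      ∑ u, ∑ η, ((‖ft (dl g u) η‖ ^ 2 : ℝ) : ℂ) * ch (η * h - ξ * u) := by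
  have hp : (p : ℂ) ≠ 0 := Nat.cast_ne_zero.2 (NeZero.ne p)
  rw [← freiman_ft_cor, ft, sum_div]
  refine sum_congr rfl fun u _ => ?_
  rw [freiman_cor_symm, ft_inv (freimanCor g u) h, sum_mul, sum_div]
  refine sum_congr rfl fun η _ => ?_
  rw [freiman_ft_cor, sub_eq_add_neg, ch_add]
  field_simp

lemma freiman_four (T : Finset (ZMod p)) (θ : ZMod p → ZMod p) :
    ∑ u, ∑ η, ‖∑ h ∈ T, ch (η * h - θ h * u)‖ ^ 4 = (p : ℝ) ^ 2 *
      (((T ×ˢ T) ×ˢ T ×ˢ T).filter fun q => q.1.1 - q.1.2 = q.2.1 - q.2.2 ∧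
        θ q.1.1 - θ q.1.2 = θ q.2.1 - θ q.2.2).card := by
  apply Complex.ofReal_injective
  simp only [Complex.ofReal_sum, freiman_quad, card_filter]
  push_cast
  rw [sum_congr rfl fun u _ => sum_comm, sum_comm, mul_sum]
  refine sum_congr rfl fun q _ => ?_
  have h1 : ∀ u η : ZMod p, ch (η * q.1.1 - θ q.1.1 * u - (η * q.1.2 - θ q.1.2 * u) -
      (η * q.2.1 - θ q.2.1 * u - (η * q.2.2 - θ q.2.2 * u))) =
      ch ((θ q.2.1 - θ q.2.2 - (θ q.1.1 - θ q.1.2)) * u) *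
        ch ((q.1.1 - q.1.2 - (q.2.1 - q.2.2)) * η) := fun u η => by
    rw [← ch_add]
    congr 1
    ring
  simp only [h1, ← mul_sum, ← sum_mul, sum_ch_mul, sub_eq_zero]
  by_cases c1 : q.1.1 - q.1.2 = q.2.1 - q.2.2
  · by_cases c2 : θ q.1.1 - θ q.1.2 = θ q.2.1 - θ q.2.2
    · simp [c1, c2, sq]
    · simp [c2, Ne.symm c2]
  · simp [c1]

/-- a graph inside the region of large Fourier coefficients has many additive quadruples -/
lemma freiman_gowers {g : ZMod p → ℂ} (hg : ∀ x, ‖g x‖ ≤ 1) (T : Finset (ZMod p))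
    (θ : ZMod p → ZMod p) {α : ℝ} (hα : 0 ≤ α)
    (h : α * p ≤ ∑ t ∈ T, ‖ft (dl g t) (θ t)‖ ^ 2) :
    α ^ 4 * (p : ℝ) ^ 3 ≤ (((T ×ˢ T) ×ˢ T ×ˢ T).filter fun q => q.1.1 - q.1.2 = q.2.1 - q.2.2 ∧
      θ q.1.1 - θ q.1.2 = θ q.2.1 - θ q.2.2).card := by
  have hp : (0 : ℝ) < p := Nat.cast_pos.2 (NeZero.pos p)
  obtain ⟨B, hB⟩ : ∃ B : ZMod p → ZMod p → ℂ, B = fun u η => ∑ h ∈ T, ch (η * h - θ h * u) :=
    ⟨_, rfl⟩
  choose η0 _ h0 using fun u => exists_max_image univ (fun η => ‖B u η‖) univ_nonempty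
  have h1 : (p : ℂ) * ((∑ t ∈ T, ‖ft (dl g t) (θ t)‖ ^ 2 : ℝ) : ℂ) =
      ∑ u, ∑ η, ((‖ft (dl g u) η‖ ^ 2 : ℝ) : ℂ) * B u η := by
    simp only [Complex.ofReal_sum, mul_sum, freiman_dual, hB]
    rw [sum_comm]
    exact sum_congr rfl fun u _ => sum_comm
  have h2 : p * (α * p) ≤ ∑ u, ‖B u (η0 u)‖ := by
    refine (mul_le_mul_of_nonneg_left h hp.le).trans ((le_abs_self _).trans ?_)
    rw [← Real.norm_eq_abs, ← Complex.norm_real, Complex.ofReal_mul, Complex.ofReal_natCast, h1]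
    refine norm_sum_le_of_le _ fun u _ => (norm_sum_le_of_le
      (n := fun η => ‖ft (dl g u) η‖ ^ 2 * ‖B u (η0 u)‖) _ fun η _ => ?_).trans ?_
    · rw [norm_mul, Complex.norm_real, Real.norm_of_nonneg (sq_nonneg _)]
      exact mul_le_mul_of_nonneg_left (h0 u η (mem_univ _)) (sq_nonneg _)
    · rw [← sum_mul]
      exact mul_le_of_le_one_left (norm_nonneg _) (parseval_le_one _ (norm_dl_le hg u))
  have h3 := pow_sum_le_card_mul_sum_pow (s := univ) (f := fun u => ‖B u (η0 u)‖)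
    (fun _ _ => norm_nonneg _) 3
  have h4 : ∑ u, ‖B u (η0 u)‖ ^ (3 + 1) ≤ ∑ u, ∑ η, ‖B u η‖ ^ 4 :=
    sum_le_sum fun u _ => single_le_sum (f := fun η => ‖B u η‖ ^ 4) (fun _ _ => by positivity)
      (mem_univ _)
  rw [card_univ, ZMod.card] at h3
  have h7 : ∑ u, ∑ η, ‖B u η‖ ^ 4 = ∑ u, ∑ η, ‖∑ h ∈ T, ch (η * h - θ h * u)‖ ^ 4 := by
    rw [hB]
  rw [h7, freiman_four] at h4
  have h5 := (pow_le_pow_left₀ (by positivity) h2 (3 + 1)).trans
    (h3.trans (mul_le_mul_of_nonneg_left h4 (by positivity)))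
  refine le_of_mul_le_mul_left ?_ (pow_pos hp 5)
  calc _ = (p * (α * p)) ^ (3 + 1) := by ring
    _ ≤ _ := h5
    _ = _ := by ring

lemma freiman_energy {g : ZMod p → ℂ} (hg : ∀ x, ‖g x‖ ≤ 1) (T : Finset (ZMod p))
    (θ : ZMod p → ZMod p) {R : ℕ} (hT : p ≤ 2 ^ R * T.card)
    (h : ∀ t ∈ T, hf R ≤ ‖ft (dl g t) (θ t)‖) :
    p ^ 3 ≤ 2 ^ (12 * R) *
      addEnergy (T.image fun t => (t, θ t)) (T.image fun t => (t, θ t)) := by
  have h0 := hf_pos R
  have hT' : hf R * p ≤ T.card := by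
    have : (p : ℝ) ≤ 2 ^ R * T.card := by exact_mod_cast hT
    calc hf R * p ≤ hf R * (2 ^ R * T.card) := mul_le_mul_of_nonneg_left this h0.le
      _ = T.card := by rw [← mul_assoc, hf_mul_two_pow, one_mul]
  have h1 : hf R ^ 3 * p ≤ ∑ t ∈ T, ‖ft (dl g t) (θ t)‖ ^ 2 := by
    have := card_nsmul_le_sum T (fun t => ‖ft (dl g t) (θ t)‖ ^ 2) (hf R ^ 2) fun t ht =>
      pow_le_pow_left₀ h0.le (h t ht) 2
    rw [nsmul_eq_mul] at this
    calc hf R ^ 3 * p = hf R * p * hf R ^ 2 := by ring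
      _ ≤ T.card * hf R ^ 2 := mul_le_mul_of_nonneg_right hT' (by positivity)
      _ ≤ _ := this
  have h2 := freiman_gowers hg T θ (by positivity) h1
  have h3 : (((T ×ˢ T) ×ˢ T ×ˢ T).filter fun q => q.1.1 - q.1.2 = q.2.1 - q.2.2 ∧
      θ q.1.1 - θ q.1.2 = θ q.2.1 - θ q.2.2).card ≤
      addEnergy (T.image fun t => (t, θ t)) (T.image fun t => (t, θ t)) := by
    refine card_le_card_of_injOn (fun q => (((q.1.1, θ q.1.1), (q.2.1, θ q.2.1)),
      ((q.2.2, θ q.2.2), (q.1.2, θ q.1.2)))) (fun q hq => ?_) fun q _ q' _ e => ?_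
    · simp only [coe_filter, mem_product, Set.mem_ofPred_eq] at hq ⊢
      obtain ⟨⟨⟨a1, a2⟩, a3, a4⟩, e1, e2⟩ := hq
      refine ⟨⟨⟨mem_image_of_mem _ a1, mem_image_of_mem _ a3⟩, mem_image_of_mem _ a4,
        mem_image_of_mem _ a2⟩, ?_⟩
      rw [Prod.mk_add_mk, Prod.mk_add_mk, Prod.mk.injEq]
      exact ⟨by linear_combination e1, by linear_combination e2⟩
    · simp only [Prod.mk.injEq] at e
      exact Prod.ext (Prod.ext e.1.1.1 e.2.2.1) (Prod.ext e.1.2.1 e.2.1.1)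
  have h4 : (hf R ^ 3) ^ 4 * (p : ℝ) ^ 3 ≤
      addEnergy (T.image fun t => (t, θ t)) (T.image fun t => (t, θ t)) :=
    h2.trans (by exact_mod_cast h3)
  have h5 : (2 : ℝ) ^ (12 * R) * (hf R ^ 3) ^ 4 = 1 := by
    rw [← pow_mul, ← hf_mul, mul_comm R, mul_comm, hf_mul_two_pow]
  have h6 : (p : ℝ) ^ 3 ≤ 2 ^ (12 * R) *
      addEnergy (T.image fun t => (t, θ t)) (T.image fun t => (t, θ t)) := by
    calc (p : ℝ) ^ 3 = 2 ^ (12 * R) * ((hf R ^ 3) ^ 4 * (p : ℝ) ^ 3) := by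
          rw [← mul_assoc, h5, one_mul]
      _ ≤ _ := mul_le_mul_of_nonneg_left h4 (by positivity)
  exact_mod_cast h6

end Energy

lemma freiman_sum_mem {G : Type} [AddCommGroup G] [DecidableEq G] {B : Finset G} {n : ℕ}
    {a : Fin n → G} (ha : ∀ i, a i ∈ B) : ∑ i, a i ∈ n • B :=
  mem_nsmul.2 ⟨fun i => ⟨a i, ha i⟩, List.sum_ofFn⟩

/-- a graph with small difference set has few vertical defects -/
lemma freiman_vert {G H : Type} [AddCommGroup G] [AddCommGroup H] [DecidableEq (G × H)]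
    (B : Finset (G × H)) (hB : B.Nonempty) (hg : ∀ b ∈ B, ∀ b' ∈ B, b.1 = b'.1 → b = b') (K : ℕ)
    (hK : (B - B).card ≤ K * B.card) : ∃ V : Finset H, V.card ≤ K ^ 13 ∧
      ∀ a b : Fin 6 → G × H, (∀ i, a i ∈ B) → (∀ i, b i ∈ B) → ∑ i, (a i).1 = ∑ i, (b i).1 →
        ∑ i, (a i).2 - ∑ i, (b i).2 ∈ V := by
  refine ⟨((6 • B - 6 • B).filter fun x => x.1 = 0).image Prod.snd, card_image_le.trans ?_,
    fun a b ha hb e => ?_⟩
  · set V := (6 • B - 6 • B).filter fun x => x.1 = 0 with hV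
    have h0 : (0 : ℚ≥0) < B.card := by exact_mod_cast hB.card_pos
    have h1 := pluennecke_ruzsa_inequality_nsmul_sub_nsmul_sub hB B 7 6
    have h2 : ((B - B).card / B.card : ℚ≥0) ≤ K := by
      rw [div_le_iff₀ h0]; exact_mod_cast hK
    have h3 : (7 • B - 6 • B).card ≤ K ^ 13 * B.card := by
      have := h1.trans (mul_le_mul_of_nonneg_right (pow_le_pow_left₀ (by positivity) h2 _) h0.le)
      exact_mod_cast this
    have h4 : (V ×ˢ B).card ≤ (7 • B - 6 • B).card := by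
      refine card_le_card_of_injOn (fun q => q.1 + q.2) (fun q hq => ?_) fun q hq q' hq' e => ?_
      · obtain ⟨a1, a2⟩ := mem_product.1 (mem_coe.1 hq)
        obtain ⟨x, hx, y, hy, e⟩ := mem_sub.1 (mem_filter.1 a1).1
        refine mem_coe.2 (mem_sub.2 ⟨x + q.2, ?_, y, hy, ?_⟩)
        · rw [succ_nsmul]; exact add_mem_add hx a2
        · simp only [← e]; abel
      · obtain ⟨a1, a2⟩ := mem_product.1 (mem_coe.1 hq)
        obtain ⟨b1, b2⟩ := mem_product.1 (mem_coe.1 hq')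
        have e1 := congrArg Prod.fst e
        simp only [Prod.fst_add, (mem_filter.1 a1).2, (mem_filter.1 b1).2, zero_add] at e1
        have e2 := hg _ a2 _ b2 e1
        simp only [e2, add_left_inj] at e
        exact Prod.ext e e2
    rw [card_product] at h4
    exact Nat.le_of_mul_le_mul_right (h4.trans h3) hB.card_pos
  · refine mem_image.2 ⟨∑ i, a i - ∑ i, b i, mem_filter.2
      ⟨sub_mem_sub (freiman_sum_mem ha) (freiman_sum_mem hb), ?_⟩, ?_⟩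
    · rw [Prod.fst_sub, Prod.fst_sum, Prod.fst_sum, e, sub_self]
    · rw [Prod.snd_sub, Prod.snd_sum, Prod.snd_sum]

/-- a dilation which moves a small set away from zero -/
lemma freiman_dilate {p : ℕ} [NeZero p] (hp : p.Prime) (V : Finset (ZMod p)) {v : ℕ} (hv : 0 < v)
    (hV : V.card ≤ v) (hpv : 2 * v < p) :
    ∃ s : ZMod p, ∀ z ∈ V, z ≠ 0 → 1 / (8 * v : ℝ) < nm (s * z) := by
  have := Fact.mk hp
  by_contra hcon
  push Not at hcon
  have hv' : (0 : ℝ) < v := by exact_mod_cast hv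
  have h1 : (univ : Finset (ZMod p)) ⊆ (V.erase 0).biUnion fun z =>
      univ.filter fun s => nm (s * z) ≤ 1 / (8 * v : ℝ) := fun s _ => by
    obtain ⟨z, hz, h0, h⟩ := hcon s
    exact mem_biUnion.2 ⟨z, mem_erase.2 ⟨h0, hz⟩, mem_filter.2 ⟨mem_univ _, h⟩⟩
  have h2 : ∀ z ∈ V.erase 0, ((univ.filter fun s => nm (s * z) ≤ 1 / (8 * v : ℝ)).card : ℝ) ≤
      2 * (1 / (8 * v : ℝ)) * p + 1 := fun z hz => by
    refine le_trans ?_ (card_nm_le (p := p) (1 / (8 * v : ℝ)) (by positivity))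
    exact_mod_cast card_le_card_of_injOn (fun s => s * z) (fun s hs => by simpa using hs)
      fun s _ s' _ e => mul_right_cancel₀ (mem_erase.1 hz).1 e
  have h3 := (card_le_card h1).trans card_biUnion_le
  rw [card_univ, ZMod.card] at h3
  have h4 : (p : ℝ) ≤ ∑ z ∈ V.erase 0,
      ((univ.filter fun s => nm (s * z) ≤ 1 / (8 * v : ℝ)).card : ℝ) := by exact_mod_cast h3
  have h5 := h4.trans (sum_le_card_nsmul _ _ _ h2)
  have h6 : ((V.erase 0).card : ℝ) ≤ v := by exact_mod_cast card_erase_le.trans hV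
  rw [nsmul_eq_mul] at h5
  have h7 := h5.trans (mul_le_mul_of_nonneg_right h6 (by positivity))
  have h8 : (v : ℝ) * (2 * (1 / (8 * v : ℝ)) * p + 1) = p / 4 + v := by field_simp; ring
  have h9 : 2 * (v : ℝ) < p := by exact_mod_cast hpv
  linarith

theorem freiman (h : BSGStmt) : FreimanStmt := by
  refine ⟨12, fun R hR p _ hp g T θ hg hT hθ => ?_⟩
  have hp0 := NeZero.pos p
  have hinj : Function.Injective fun t : ZMod p => (t, θ t) := fun t t' e => congrArg Prod.fst e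
  have hA : (T.image fun t => (t, θ t)).card = T.card := card_image_of_injective _ hinj
  have hTp : T.card ≤ p := by simpa using card_le_univ T
  obtain ⟨B, hBA, hB1, hB2⟩ := h (ZMod p × ZMod p) (T.image fun t => (t, θ t)) (12 * R)
    ((Nat.pow_le_pow_left (hA.trans_le hTp) 3).trans (freiman_energy hg T θ hT hθ))
  rw [hA] at hB1
  have hT0 : 0 < T.card := Nat.pos_of_mul_pos_left (hp0.trans_le hT)
  have hB0 : 0 < B.card := Nat.pos_of_mul_pos_left (hT0.trans_le hB1)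
  have hgr : ∀ b ∈ B, b.1 ∈ T ∧ b = (b.1, θ b.1) := fun b hb => by
    obtain ⟨t, ht, rfl⟩ := mem_image.1 (hBA hb)
    exact ⟨ht, rfl⟩
  obtain ⟨V, hV, hVm⟩ := freiman_vert B (card_pos.1 hB0)
    (fun b hb b' hb' e => by rw [(hgr b hb).2, (hgr b' hb').2, e]) _ hB2
  set v := (2 ^ (6 * (12 * R) + 20)) ^ 13 with hv
  have hv0 : 0 < v := by positivity
  have hR12 : 2048 * R ≤ R ^ 12 := by
    have := poly_le (a := 2048) (c := 1) (k := 11) hR (by norm_num)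
    rwa [pow_one] at this
  by_cases hpv : p ≤ 2 * v
  · obtain ⟨t, ht⟩ := card_pos.1 hT0
    refine ⟨{t}, singleton_subset_iff.2 ht, ?_, fun a b ha hb _ => ?_⟩
    · rw [card_singleton, mul_one]
      refine hpv.trans ?_
      rw [hv, ← pow_mul, ← pow_succ']
      exact Nat.pow_le_pow_right (by norm_num) (by omega)
    · simp only [mem_singleton] at ha hb
      simp only [ha, hb]
  obtain ⟨s, hs⟩ := freiman_dilate hp V hv0 hV (not_le.1 hpv)
  obtain ⟨B', hB', hc, hcl⟩ := exists_cluster_one B (fun b => tc (s * b.2)) (64 * v) (by positivity)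
  refine ⟨B'.image Prod.fst, fun t ht => ?_, ?_, fun a b ha hb e => ?_⟩
  · obtain ⟨b, hb, rfl⟩ := mem_image.1 ht
    exact (hgr b (hB' hb)).1
  · rw [card_image_of_injOn fun b hb b' hb' e => by
      rw [(hgr b (hB' hb)).2, (hgr b' (hB' hb')).2, e]]
    calc p ≤ 2 ^ R * T.card := hT
      _ ≤ 2 ^ R * (2 ^ (12 * R + 4) * (64 * v * B'.card)) :=
          Nat.mul_le_mul_left _ (hB1.trans (Nat.mul_le_mul_left _ hc))
      _ = 2 ^ (R + (12 * R + 4) + 6 + (6 * (12 * R) + 20) * 13) * B'.card := by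
          rw [hv, ← pow_mul]
          generalize (6 * (12 * R) + 20) * 13 = X
          ring
      _ ≤ _ := Nat.mul_le_mul_right _ (Nat.pow_le_pow_right (by norm_num) (by omega))
  · have hm : ∀ t ∈ B'.image Prod.fst, (t, θ t) ∈ B' := fun t ht => by
      obtain ⟨b, hb, rfl⟩ := mem_image.1 ht
      rwa [← (hgr b (hB' hb)).2]
    have hz := hVm (fun i => (a i, θ (a i))) (fun i => (b i, θ (b i)))
      (fun i => hB' (hm _ (ha i))) (fun i => hB' (hm _ (hb i))) e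
    by_contra hne
    have h1 := hs _ hz (sub_ne_zero.2 hne)
    have h2 : nm (s * (∑ i, θ (a i) - ∑ i, θ (b i))) ≤ ∑ _i : Fin 6, 1 / ((64 * v : ℕ) : ℝ) := by
      rw [← sum_sub_distrib, mul_sum]
      refine (nm_sum_le _ _).trans (sum_le_sum fun i _ => ?_)
      rw [mul_sub, nm, tc_sub]
      exact (hcl _ (hm _ (ha i)) _ (hm _ (hb i))).le
    have hv' : (0 : ℝ) < v := by exact_mod_cast hv0
    have h3 : ∑ _i : Fin 6, 1 / ((64 * v : ℕ) : ℝ) ≤ 1 / (8 * v : ℝ) := by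
      rw [sum_const, card_univ, Fintype.card_fin, nsmul_eq_mul]
      push_cast
      rw [mul_one_div, div_le_div_iff₀ (by positivity) (by positivity)]
      linarith
    exact absurd (h1.trans_le (h2.trans h3)) (lt_irrefl _)

end Pool.Agent.Lib.MP_9721b5_an
end
end

-- part Pool.Agent.Lib.MP_9721b5_an.Nest
section

/-! The nested Bohr set iteration. -/

set_option autoImplicit false

open Finset
open scoped Classical ComplexConjugate Pointwise

noncomputable section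

namespace Pool.Agent.Lib.MP_9721b5_an

/-! ### Parameters -/

/-- Polynomially bounded functions. -/
def nestPoly (f : ℕ → ℕ) : Prop := ∃ C : ℕ, ∀ R : ℕ, 2 ≤ R → f R ≤ R ^ C

lemma nest_poly_const (a : ℕ) : nestPoly fun _ => a :=
  ⟨a, fun _ hR => const_le_pow hR (Nat.lt_two_pow_self).le⟩

lemma nest_poly_id : nestPoly fun R => R := ⟨1, fun R _ => by simp⟩

lemma nestPoly.add {f g : ℕ → ℕ} (h1 : nestPoly f) (h2 : nestPoly g) :
    nestPoly fun R => f R + g R := by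
  obtain ⟨a, ha⟩ := h1
  obtain ⟨b, hb⟩ := h2
  exact ⟨a + b + 1, fun R hR => add_le_pow hR (le_pow_mono hR (ha R hR) (by omega))
    (le_pow_mono hR (hb R hR) (by omega))⟩

lemma nestPoly.mul {f g : ℕ → ℕ} (h1 : nestPoly f) (h2 : nestPoly g) :
    nestPoly fun R => f R * g R := by
  obtain ⟨a, ha⟩ := h1
  obtain ⟨b, hb⟩ := h2
  exact ⟨a + b, fun R hR => mul_le_pow (ha R hR) (hb R hR)⟩

lemma nestPoly.pow {f : ℕ → ℕ} (h1 : nestPoly f) (d : ℕ) : nestPoly fun R => f R ^ d := by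
  obtain ⟨a, ha⟩ := h1
  exact ⟨a * d, fun R hR => pow_le_pow_of (ha R hR)⟩

lemma nest_gap (s m K e : ℕ) :
    4 * (s + 6 * (2 * (e + 4 * (s + 8) * (m + 1) * (K + 1)) + 1) * (m + 1) + 2) * (K + 1) * 2 ^ e
      ≤ 2 ^ (2 * (e + 4 * (s + 8) * (m + 1) * (K + 1)) + 1) := by
  obtain ⟨N, hN⟩ : ∃ N, N = 4 * (s + 8) * (m + 1) * (K + 1) := ⟨_, rfl⟩
  rw [← hN]
  obtain ⟨x, hx⟩ : ∃ x, x = e + N := ⟨_, rfl⟩
  rw [← hx]
  have h1 : s + 6 * (2 * x + 1) * (m + 1) + 2 ≤ (s + 8) * ((2 * x + 1) * (m + 1)) := by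
    have : 1 ≤ (2 * x + 1) * (m + 1) := Nat.mul_pos (by omega) (by omega)
    nlinarith
  have h2 : N ≤ 2 ^ N := (Nat.lt_two_pow_self).le
  have h3 : 2 * x + 1 ≤ 2 * 2 ^ x := by
    have : x < 2 ^ x := Nat.lt_two_pow_self
    omega
  calc 4 * (s + 6 * (2 * x + 1) * (m + 1) + 2) * (K + 1) * 2 ^ e
      ≤ 4 * ((s + 8) * ((2 * x + 1) * (m + 1))) * (K + 1) * 2 ^ e := by gcongr
    _ = N * (2 * x + 1) * 2 ^ e := by rw [hN]; ring
    _ ≤ 2 ^ N * (2 * 2 ^ x) * 2 ^ e := by gcongr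
    _ = 2 ^ (2 * x + 1) := by rw [hx]; ring

lemma nest_params (CK CT : ℕ) : ∃ C : ℕ, CT ≤ C ∧ ∀ R : ℕ, 2 ≤ R → ∃ Rk e s0 a K N : ℕ,
    (R + 1) ^ CT ≤ Rk ∧ R ^ 5 + 6 ≤ Rk ∧ Rk ^ CK + R + 1 ≤ e ∧ Rk ≤ e ∧ R + R ^ 5 + 2 ≤ e ∧
    R + e + 3 ≤ s0 ∧ 2 ≤ a ∧ R + (R ^ 5 + 1) * (Rk ^ CK + 1) ≤ K ∧
    s0 + 6 * a * (R ^ 5 + 1) ≤ N ∧ 4 * (N + 2) * (K + 1) * 2 ^ e ≤ 2 ^ a ∧
    K + N + R + (N * K + R + 1) ^ CT ≤ R ^ C := by
  let Rk : ℕ → ℕ := fun R => (R + 1) ^ CT + R ^ 5 + 6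
  let e : ℕ → ℕ := fun R => Rk R ^ CK + Rk R + R + R ^ 5 + 2
  let s0 : ℕ → ℕ := fun R => R + e R + 3
  let K : ℕ → ℕ := fun R => R + (R ^ 5 + 1) * (Rk R ^ CK + 1)
  let a : ℕ → ℕ := fun R => 2 * (e R + 4 * (s0 R + 8) * (R ^ 5 + 1) * (K R + 1)) + 1
  let N : ℕ → ℕ := fun R => s0 R + 6 * a R * (R ^ 5 + 1)
  have h5 : nestPoly fun R => R ^ 5 := nest_poly_id.pow 5
  have h51 : nestPoly fun R => R ^ 5 + 1 := h5.add (nest_poly_const 1)
  have hRk : nestPoly Rk :=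
    (((nest_poly_id.add (nest_poly_const 1)).pow CT).add h5).add (nest_poly_const 6)
  have he : nestPoly e :=
    ((((hRk.pow CK).add hRk).add nest_poly_id).add h5).add (nest_poly_const 2)
  have hs0 : nestPoly s0 := (nest_poly_id.add he).add (nest_poly_const 3)
  have hK : nestPoly K := nest_poly_id.add (h51.mul ((hRk.pow CK).add (nest_poly_const 1)))
  have ha : nestPoly a :=
    ((nest_poly_const 2).mul (he.add ((((nest_poly_const 4).mul (hs0.add (nest_poly_const 8))).mul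
      h51).mul (hK.add (nest_poly_const 1))))).add (nest_poly_const 1)
  have hN : nestPoly N := hs0.add (((nest_poly_const 6).mul ha).mul h51)
  obtain ⟨C, hC⟩ : nestPoly fun R => K R + N R + R + (N R * K R + R + 1) ^ CT :=
    ((hK.add hN).add nest_poly_id).add
      ((((hN.mul hK).add nest_poly_id).add (nest_poly_const 1)).pow CT)
  refine ⟨C + CT, by omega, fun R hR => ⟨Rk R, e R, s0 R, a R, K R, N R, ?_, ?_, ?_, ?_, ?_, ?_,
    ?_, le_rfl, le_rfl, nest_gap _ _ _ _, le_pow_mono hR (hC R hR) (by omega)⟩⟩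
  · simp only [Rk]; omega
  · simp only [Rk]; omega
  · simp only [e]; omega
  · simp only [e]; omega
  · simp only [e]; omega
  · simp only [s0]; omega
  · have : 2 ≤ e R := by simp only [e]; omega
    simp only [a]; omega

/-! ### Small lemmas -/

lemma nest_insert {G : Type} [AddCommGroup G] {E : Finset G} {v : G}
    (hE : AddDissociated (E : Set G)) (hv : ¬ InSpan E v) :
    ∃ E' : Finset G, E'.card = E.card + 1 ∧ AddDissociated (E' : Set G) ∧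
      ∀ w ∈ E', w = v ∨ w ∈ E := by
  obtain ⟨h1, h2⟩ := diss_insert hE hv
  exact ⟨insert v E, card_insert_of_notMem h1, h2, fun w hw => mem_insert.1 hw⟩

lemma nest_hf_le {x y : ℕ} (c : ℕ) (h : y + c ≤ x) : 2 ^ c * hf x ≤ hf y :=
  mul_hf_le le_rfl h

variable {p : ℕ} [NeZero p]

lemma nest_reg {K N e a : ℕ} (h : 4 * (N + 2) * (K + 1) * 2 ^ e ≤ 2 ^ a)
    (Γ : Finset (ZMod p)) (n : ℕ) (hΓ : Γ.card ≤ K) (hn : n ≤ N) :
    ∃ ρ : ℝ, hf (n + 1) ≤ ρ ∧ ρ ≤ hf n ∧ Reg Γ ρ (hf (n + a)) (hf e) := by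
  have h1 : (4 * (n + 2) * (K + 1) * 2 ^ e : ℕ) ≤ 2 ^ a := le_trans (by gcongr) h
  have h2 : (4 * ((n : ℝ) + 2) * (K + 1)) * 2 ^ e ≤ 2 ^ a := by exact_mod_cast h1
  have h3 : hf a * (4 * ((n : ℝ) + 2) * (K + 1)) ≤ hf e := by
    have ha := hf_mul_two_pow a
    have he := hf_mul_two_pow e
    have hpa := hf_pos a
    have hpe := hf_pos e
    have := mul_le_mul_of_nonneg_left h2 (mul_pos hpa hpe).le
    calc hf a * (4 * ((n : ℝ) + 2) * (K + 1))
        = hf a * (4 * ((n : ℝ) + 2) * (K + 1)) * (hf e * 2 ^ e) := by rw [he, mul_one]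
      _ = hf a * hf e * ((4 * ((n : ℝ) + 2) * (K + 1)) * 2 ^ e) := by ring
      _ ≤ hf a * hf e * 2 ^ a := this
      _ = hf e * (hf a * 2 ^ a) := by ring
      _ = hf e := by rw [ha, mul_one]
  obtain ⟨ρ, h4, h5, h6⟩ := exists_reg Γ (n := n) (K := K) (e := e) (ρ := hf n) (w := hf (n + a))
    hΓ le_rfl (hf_pos _).le (by
      rw [hf_add, mul_assoc]
      exact mul_le_mul_of_nonneg_left h3 (hf_pos n).le)
  exact ⟨ρ, by rw [hf_succ]; exact h4, h5, h6⟩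

lemma nest_aff_shift {k : ℕ} {B : Finset (ZMod p)} {ψ : Fin k → ZMod p → ZMod p}
    (hψ : ∀ j, AddOn B (ψ j)) (c : Fin k → ZMod p) (v : Fin k → ℤ) {x h : ZMod p}
    (hx : x ∈ B) (hh : h ∈ B) (hxh : x + h ∈ B) :
    aff ψ c v (x + h) = aff ψ c v x + 2 * cmb ψ v h := by
  simp only [aff, cmb, mul_sum, ← sum_add_distrib]
  refine sum_congr rfl fun j _ => ?_
  rw [hψ j x hx h hh hxh]
  ring

lemma nest_aff_new {k : ℕ} (ψ : Fin k → ZMod p → ZMod p) (c : Fin k → ZMod p) (v : Fin k → ℤ)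
    (x h : ZMod p) :
    aff ψ (fun j => 2 * ψ j x + c j) v h = aff ψ c v x + 2 * cmb ψ v h := by
  simp only [aff, cmb, mul_sum, ← sum_add_distrib]
  refine sum_congr rfl fun j _ => ?_
  ring

/-- The map v -> tc (aff psi c v h * u) as an additive homomorphism. -/
def nestHom {k : ℕ} (ψ : Fin k → ZMod p → ZMod p) (c : Fin k → ZMod p) (h u : ZMod p) :
    (Fin k → ℤ) →+ Tor :=
  AddMonoidHom.mk' (fun v => tc (aff ψ c v h * u)) (by
    intro v w
    rw [← tc_add, ← add_mul]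
    simp only [aff, Pi.add_apply, Int.cast_add, add_mul, sum_add_distrib])

lemma nest_span {k : ℕ} (ψ : Fin k → ZMod p → ZMod p) (c : Fin k → ZMod p) (h u : ZMod p)
    {E : Finset (Fin k → ℤ)} {v : Fin k → ℤ} (hv : InSpan E v) (θ : ℝ)
    (hθ : ∀ w ∈ E, nm (aff ψ c w h * u) ≤ θ) : nm (aff ψ c v h * u) ≤ E.card * θ :=
  hv.norm_le (nestHom ψ c h u) θ hθ

lemma nest_locCorr {k : ℕ} {g : ZMod p → ℂ} {m m' : ℕ} {ψ : Fin k → ZMod p → ZMod p}
    {W : Finset (ZMod p)} (h : LocCorr g m ψ W) (hm : 0 < m) (hmm : m ≤ m') :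
    LocCorr g m' ψ W := by
  obtain ⟨r, ξ, h1, h2⟩ := h
  refine ⟨r, ξ, h1, le_trans ?_ h2⟩
  have : (0 : ℝ) < m := by exact_mod_cast hm
  have : (m : ℝ) ≤ m' := by exact_mod_cast hmm
  gcongr

/-! ### The iteration -/

/-- The state of the iteration after i steps. -/
def nestState {k : ℕ} (Γ0 T : Finset (ZMod p)) (ψ : Fin k → ZMod p → ZMod p)
    (c : Fin k → ZMod p) (τ0 : ZMod p) (R K1 Rk e a s0 i : ℕ) : Prop :=
  ∃ (E : Finset (Fin k → ℤ)) (GY GU : Finset (ZMod p)) (ρY : ℝ) (τ : ZMod p),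
    E.card = i ∧ AddDissociated (E : Set (Fin k → ℤ)) ∧ (∀ v ∈ E, ∀ j, |v j| ≤ 2) ∧
    Γ0 ⊆ GY ∧ GY ⊆ GU ∧ GU.card ≤ R + i * (K1 + 1) ∧
    hf (s0 + 6 * a * i + a) ≤ ρY ∧ Reg GY ρY (hf (s0 + 6 * a * i + a)) (hf e) ∧
    (hf R - 2 * i * hf e) * (bohr GY ρY).card ≤
      (((bohr GY ρY).filter fun y => τ + y ∈ T).card : ℝ) ∧
    ∀ v ∈ E, ∀ y ∈ bohr GY (2 * ρY), ∀ u ∈ bohr GU (hf (s0 + 6 * a * i + a)),
      nm (aff ψ c v (τ + y - τ0) * u) ≤ 2 * hf Rk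

lemma nest_zero {k : ℕ} (Γ0 T : Finset (ZMod p)) (ψ : Fin k → ZMod p → ZMod p)
    (c : Fin k → ZMod p) (τ0 : ZMod p) (R K1 Rk e a s0 : ℕ) (hΓ : Γ0.card ≤ R)
    (hT : p ≤ 2 ^ R * T.card) (ha : 1 ≤ a)
    (hreg : ∃ ρ : ℝ, hf (s0 + 1) ≤ ρ ∧ ρ ≤ hf s0 ∧ Reg Γ0 ρ (hf (s0 + a)) (hf e)) :
    nestState Γ0 T ψ c τ0 R K1 Rk e a s0 0 := by
  obtain ⟨ρ, h1, -, h3⟩ := hreg
  obtain ⟨z, hz⟩ := exists_translate T (bohr Γ0 ρ)
  refine ⟨∅, Γ0, Γ0, ρ, z, card_empty, by simp, by simp, Subset.refl _, Subset.refl _,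
    by simpa using hΓ, ?_, by simpa using h3, ?_, by simp⟩
  · exact le_trans (hf_anti (by omega)) h1
  · have hp : (0 : ℝ) < p := by exact_mod_cast NeZero.pos p
    have h4 : (p : ℝ) ≤ 2 ^ R * T.card := by exact_mod_cast hT
    have h5 : (T.card : ℝ) * (bohr Γ0 ρ).card ≤
        p * (((bohr Γ0 ρ).filter fun y => z + y ∈ T).card : ℝ) := by exact_mod_cast hz
    have h6 : hf R * p ≤ T.card := by
      calc hf R * p ≤ hf R * (2 ^ R * T.card) := mul_le_mul_of_nonneg_left h4 (hf_pos R).le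
        _ = (hf R * 2 ^ R) * T.card := by ring
        _ = T.card := by rw [hf_mul_two_pow, one_mul]
    have h7 : p * (hf R * (bohr Γ0 ρ).card) ≤
        p * (((bohr Γ0 ρ).filter fun y => z + y ∈ T).card : ℝ) := by
      calc p * (hf R * (bohr Γ0 ρ).card) = (hf R * p) * (bohr Γ0 ρ).card := by ring
        _ ≤ T.card * (bohr Γ0 ρ).card := mul_le_mul_of_nonneg_right h6 (Nat.cast_nonneg _)
        _ ≤ _ := h5
    simpa using le_of_mul_le_mul_left h7 hp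

lemma nest_dens {R m0 e i : ℕ} (hi : i ≤ m0) (h5 : R + m0 + 2 ≤ e) :
    hf (R + 1) ≤ hf R - 2 * i * hf e - 2 * hf e := by
  have h1 : (2 * ((m0 : ℝ) + 1)) ≤ 2 ^ (m0 + 1) := by
    have : m0 + 1 ≤ 2 ^ m0 := Nat.lt_two_pow_self
    have h : ((m0 : ℝ) + 1) ≤ 2 ^ m0 := by exact_mod_cast this
    rw [pow_succ]; linarith
  have h2 : (2 * ((m0 : ℝ) + 1)) * hf e ≤ hf (R + 1) := mul_hf_le h1 (by omega)
  have h3 : (i : ℝ) ≤ m0 := by exact_mod_cast hi
  have h4 := hf_succ R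
  have h6 := hf_pos e
  nlinarith

lemma nest_step {k : ℕ} {g : ZMod p → ℂ} {m M : ℕ} {Γ0 T : Finset (ZMod p)}
    {ψ : Fin k → ZMod p → ZMod p} {c : Fin k → ZMod p} {τ0 : ZMod p} {ρ0 : ℝ}
    {R eT K1 Rk e a s0 K N L m0 i : ℕ}
    (hk : k ≤ R) (hρ0 : hf R ≤ ρ0) (hadd : ∀ j, AddOn (bohr Γ0 ρ0) (ψ j))
    (hF : Forms Γ0 (hf (R + e)) ψ (hf e))
    (hT : ∀ t ∈ T, t - τ0 ∈ bohr Γ0 (ρ0 / 2) ∧ Lives g m ψ c t (t - τ0))
    (h1 : eT ≤ Rk) (h2 : m0 + 6 ≤ Rk) (h3 : K1 + R + 1 ≤ e) (h4 : Rk ≤ e) (h5 : R + m0 + 2 ≤ e)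
    (h6 : R + e + 3 ≤ s0) (h7 : 2 ≤ a) (h8 : R + (m0 + 1) * (K1 + 1) ≤ K)
    (h9 : s0 + 6 * a * (m0 + 1) ≤ N)
    (hreg : ∀ (Γ : Finset (ZMod p)) (n : ℕ), Γ.card ≤ K → n ≤ N →
      ∃ ρ : ℝ, hf (n + 1) ≤ ρ ∧ ρ ≤ hf n ∧ Reg Γ ρ (hf (n + a)) (hf e))
    (hKill : ∀ (Γ : Finset (ZMod p)) (φ : ZMod p → ZMod p) (ξ : ZMod p) (ρ1 ρ2 ρ3 : ℝ),
      0 ≤ ρ3 → ρ3 ≤ ρ2 → ρ2 ≤ ρ1 → Reg Γ ρ1 ρ2 (hf K1) → Reg Γ ρ2 ρ3 (hf K1) →
      AddOn (bohr Γ (2 * ρ1)) φ → SymOn (bohr Γ (2 * ρ1)) φ (hf K1) →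
      hf Rk * (bohr Γ ρ1).card ≤ ‖∑ x ∈ bohr Γ ρ1, ch (φ x * x + ξ * x)‖ →
      ∃ Γ1 : Finset (ZMod p), Γ1.card ≤ K1 ∧ ∀ w ∈ bohr Γ ρ2,
        ∀ u ∈ bohr (Γ ∪ Γ1) (min ρ3 (hf K1)), nm (2 * φ w * u) ≤ hf Rk)
    (hTerm : ∀ (c : Fin k → ZMod p) (τ : ZMod p) (Γ : Finset (ZMod p)) (ρC ρX ρ1 : ℝ)
      (H : Finset (ZMod p)) (Q : (Fin k → ℤ) → Prop), 0 ≤ ρ1 → ρ1 ≤ ρX → 2 * ρX ≤ ρC →
      Reg Γ ρC (2 * ρX) (hf eT) → Reg Γ ρX ρ1 1 → Forms Γ (4 * ρC) ψ (hf eT) →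
      H ⊆ bohr Γ ρX → (bohr Γ ρX).card ≤ 2 ^ (R + 1) * H.card →
      p ≤ 2 ^ (N * K + R + 1) * H.card →
      (∀ h ∈ H, Lives g m ψ c (τ + h) h) → Q 0 → (∀ v, Q v → Q (-v)) →
      (∀ v : Fin k → ℤ, (∀ j, |v j| ≤ 2) → Q v → ∀ h ∈ H, ∀ u ∈ bohr Γ ρC,
        nm (aff ψ c v h * u) ≤ 1 / 25) →
      (∀ v : Fin k → ℤ, (∀ j, |v j| ≤ 2) → ¬ Q v → ∀ ξ : ZMod p,
        ‖∑ x ∈ bohr Γ ρ1, ch (cmb ψ v x * x + ξ * x)‖ ≤ hf eT * (bohr Γ ρ1).card) →
      ∃ Γ1 : Finset (ZMod p), Γ1.card ≤ L ∧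
        ∀ W ⊆ bohr (Γ ∪ Γ1) (min ρ1 (hf L)), W.Nonempty → LocCorr g M ψ W)
    (hi : i ≤ m0) (hs : nestState Γ0 T ψ c τ0 R K1 Rk e a s0 i) :
    nestState Γ0 T ψ c τ0 R K1 Rk e a s0 (i + 1) ∨
      ∃ Γ : Finset (ZMod p), Γ0 ⊆ Γ ∧ Γ.card ≤ K + L ∧
        ∀ W ⊆ bohr Γ (hf (N + L)), W.Nonempty → LocCorr g M ψ W := by
  obtain ⟨E, GY, GU, ρY, τ, hE1, hE2, hE3, hG1, hG2, hG3, hY1, hY2, hY3, hY4⟩ := hs
  have hs' : s0 + 6 * a * (i + 1) + a = s0 + 6 * a * i + a + 6 * a := by ring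
  have hN : s0 + 6 * a * i + a + 5 * a ≤ N := by
    have : 6 * a * (i + 1) ≤ 6 * a * (m0 + 1) := Nat.mul_le_mul_left _ (by omega)
    have h : 6 * a * (i + 1) = 6 * a * i + 6 * a := by ring
    omega
  have hK : R + i * (K1 + 1) + (K1 + 1) ≤ K := by
    have : (i + 1) * (K1 + 1) ≤ (m0 + 1) * (K1 + 1) := Nat.mul_le_mul_right _ (by omega)
    have h : (i + 1) * (K1 + 1) = i * (K1 + 1) + (K1 + 1) := by ring
    omega
  have hu0 : s0 + a ≤ s0 + 6 * a * i + a := by omega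
  generalize hu : s0 + 6 * a * i + a = u at hY1 hY2 hY4 hs' hN hu0
  have hGK : GU.card ≤ K := by omega
  have hG0 : Γ0 ⊆ GU := hG1.trans hG2
  have he0 : 0 ≤ hf e := (hf_pos e).le
  have hρY : 0 ≤ ρY := le_trans (hf_pos u).le hY1
  have hd := nest_dens (R := R) hi h5
  obtain ⟨ρC, hC1, hC2, hC3⟩ := hreg GU u hGK (by omega)
  obtain ⟨ρX, hX1, hX2, hX3⟩ := hreg GU (u + a + 1) hGK (by omega)
  obtain ⟨ρ1, hA1, hA2, hA3⟩ := hreg GU (u + 2 * a + 1) hGK (by omega)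
  obtain ⟨ρ2, hB1, hB2, hB3⟩ := hreg GU (u + 3 * a + 1) hGK (by omega)
  have hu8 : 8 * hf u ≤ ρ0 := by
    have := nest_hf_le (x := u) (y := R) 3 (by omega)
    norm_num at this
    linarith
  have hu4 : 4 * hf u ≤ hf (R + e) := by
    have := nest_hf_le (x := u) (y := R + e) 2 (by omega)
    norm_num at this
    linarith
  have hup := hf_pos u
  have hXu : ρX ≤ hf u := le_trans hX2 (hf_anti (by omega))
  have hAu : ρ1 ≤ hf u := le_trans hA2 (hf_anti (by omega))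
  have hA0 : 0 ≤ ρ1 := le_trans (hf_pos _).le hA1
  have hX0 : 0 ≤ ρX := le_trans (hf_pos _).le hX1
  by_cases htest : ∃ v : Fin k → ℤ, (∀ j, |v j| ≤ 2) ∧ ¬ InSpan E v ∧ ∃ ξ : ZMod p,
      hf eT * (bohr GU ρ1).card < ‖∑ x ∈ bohr GU ρ1, ch (cmb ψ v x * x + ξ * x)‖
  · left
    obtain ⟨v, hv1, hv2, ξ, hv3⟩ := htest
    have hF1 : Forms GU (2 * ρ1) ψ (hf e) := hF.mono hG0 (by linarith) le_rfl
    have heK : hf e ≤ hf K1 := hf_anti (by omega)
    have hsym : SymOn (bohr GU (2 * ρ1)) (cmb ψ v) (hf K1) := by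
      refine (hF1.cmb_sym v 2 (by simpa using hv1)).mono (Subset.refl _) ?_
      refine mul_hf_le (a := R + 1) ?_ (by omega)
      have hk' : (k : ℝ) ≤ R := by exact_mod_cast hk
      have := nat_le_two_pow R
      rw [pow_succ]
      push_cast
      linarith
    obtain ⟨Γ1, hΓ1, hkill⟩ := hKill GU (cmb ψ v) ξ ρ1 ρ2 (hf (u + 3 * a + 1 + a)) (hf_pos _).le
      (le_trans (hf_anti (by omega)) hB1) (le_trans hB2 (le_trans (hf_anti (by omega)) hA1))
      (hA3.mono he0 (le_trans hB2 (hf_anti (by omega))) heK) (hB3.mono he0 le_rfl heK)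
      (hF1.cmb_add v) hsym
      (le_trans (mul_le_mul_of_nonneg_right (hf_anti h1) (Nat.cast_nonneg _)) hv3.le)
    have hcard : (GU ∪ Γ1).card ≤ R + i * (K1 + 1) + K1 :=
      le_trans (card_union_le _ _) (by omega)
    obtain ⟨ρZ, hZ1, hZ2, hZ3⟩ := hreg (GU ∪ Γ1) (u + 5 * a) (by omega) hN
    have hZ0 : 0 ≤ ρZ := le_trans (hf_pos _).le hZ1
    have hZu : 2 * ρZ ≤ hf u := by
      have := nest_hf_le (x := u + 5 * a) (y := u) 1 (by omega)
      norm_num at this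
      linarith
    have hZB : 2 * ρZ ≤ ρ2 := by
      have := nest_hf_le (x := u + 5 * a) (y := u + 3 * a + 1 + 1) 1 (by omega)
      norm_num at this
      linarith
    have hsub : GY ⊆ GU ∪ Γ1 := hG2.trans subset_union_left
    obtain ⟨y0, hy0, hden⟩ := recenter hY2 he0 hup.le hρY T (bohr (GU ∪ Γ1) ρZ)
      (bohr_mono hsub (by linarith)) τ _ hY3
    have hpos : 0 < ((bohr (GU ∪ Γ1) ρZ).filter fun x => τ + y0 + x ∈ T).card := by
      have hb : (0 : ℝ) < (bohr (GU ∪ Γ1) ρZ).card := by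
        exact_mod_cast card_bohr_pos (GU ∪ Γ1) hZ0
      have := mul_pos (lt_of_lt_of_le (hf_pos (R + 1)) hd) hb
      exact_mod_cast lt_of_lt_of_le this hden
    obtain ⟨x0, hx0⟩ := card_pos.1 hpos
    obtain ⟨hx1, hx2⟩ := mem_filter.1 hx0
    have hτ : τ + y0 - τ0 ∈ bohr Γ0 (ρ0 / 2 + ρZ) := by
      have := sub_mem_bohr (hT _ hx2).1 (bohr_mono (hG1.trans hsub) le_rfl hx1)
      rwa [show τ + y0 + x0 - τ0 - x0 = τ + y0 - τ0 by ring] at this
    obtain ⟨E', hE1', hE2', hE3'⟩ := nest_insert hE2 hv2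
    refine ⟨E', GU ∪ Γ1, insert (aff ψ c v (τ + y0 - τ0)) (GU ∪ Γ1), ρZ, τ + y0, by omega, hE2',
      ?_, hG1.trans hsub, subset_insert _ _, ?_, ?_, ?_, ?_, ?_⟩
    · intro w hw
      rcases hE3' w hw with rfl | hw
      · exact hv1
      · exact hE3 w hw
    · refine le_trans (card_insert_le _ _) ?_
      have h : (i + 1) * (K1 + 1) = i * (K1 + 1) + (K1 + 1) := by ring
      omega
    · rw [hs']
      exact le_trans (hf_anti (by omega)) hZ1
    · rw [hs', show u + 6 * a = u + 5 * a + a by ring]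
      exact hZ3
    · refine le_trans (le_of_eq ?_) hden
      push_cast
      ring
    · rw [hs']
      intro w hw y hy z hz
      rcases hE3' w hw with rfl | hw
      · have hy' : y ∈ bohr Γ0 (2 * ρZ) := bohr_mono (hG1.trans hsub) le_rfl hy
        have hsh := nest_aff_shift hadd c w (mem_bohr_of_le hτ (by linarith))
          (mem_bohr_of_le hy' (by linarith)) (mem_bohr_of_le (add_mem_bohr hτ hy') (by linarith))
        rw [show τ + y0 + y - τ0 = τ + y0 - τ0 + y by ring, hsh, add_mul]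
        refine le_trans (nm_add_le _ _) ?_
        have hz1 : nm (aff ψ c w (τ + y0 - τ0) * z) ≤ hf Rk :=
          le_trans (mem_bohr.1 hz _ (mem_insert_self _ _)) (hf_anti (by omega))
        have hz2 := hkill y (bohr_mono subset_union_left hZB hy) z
          (bohr_mono (subset_insert _ _) (le_min (hf_anti (by omega)) (hf_anti (by omega))) hz)
        linarith
      · have hy' : y0 + y ∈ bohr GY (2 * ρY) :=
          mem_bohr_of_le (add_mem_bohr hy0 (bohr_mono hsub le_rfl hy)) (by linarith)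
        have := hY4 w hw (y0 + y) hy' z
          (bohr_mono (subset_union_left.trans (subset_insert _ _)) (hf_anti (by omega)) hz)
        rwa [← add_assoc] at this
  · right
    push Not at htest
    obtain ⟨y0, hy0, hden⟩ := recenter hY2 he0 hup.le hρY T (bohr GU ρX)
      (bohr_mono hG2 hXu) τ _ hY3
    obtain ⟨H, hH⟩ : ∃ H, H = (bohr GU ρX).filter fun x => τ + y0 + x ∈ T := ⟨_, rfl⟩
    rw [← hH] at hden
    have hH1 : ∀ h ∈ H, h ∈ bohr GU ρX ∧ τ + y0 + h ∈ T := fun h hh => by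
      rw [hH] at hh; exact mem_filter.1 hh
    have hH2 : (bohr GU ρX).card ≤ 2 ^ (R + 1) * H.card := by
      have h10 : hf (R + 1) * (bohr GU ρX).card ≤ H.card :=
        le_trans (mul_le_mul_of_nonneg_right hd (Nat.cast_nonneg _)) hden
      have h11 : ((bohr GU ρX).card : ℝ) ≤ 2 ^ (R + 1) * H.card := by
        calc ((bohr GU ρX).card : ℝ) = (hf (R + 1) * 2 ^ (R + 1)) * (bohr GU ρX).card := by
              rw [hf_mul_two_pow, one_mul]
          _ = 2 ^ (R + 1) * (hf (R + 1) * (bohr GU ρX).card) := by ring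
          _ ≤ _ := mul_le_mul_of_nonneg_left h10 (by positivity)
      exact_mod_cast h11
    have hH3 : p ≤ 2 ^ (N * K + R + 1) * H.card := by
      calc p ≤ 2 ^ (N * K) * (bohr GU ρX).card :=
            card_bohr_ge' GU (le_trans (hf_anti (by omega)) hX1) hGK
        _ ≤ 2 ^ (N * K) * (2 ^ (R + 1) * H.card) := Nat.mul_le_mul_left _ hH2
        _ = 2 ^ (N * K + R + 1) * H.card := by ring
    have hsh : ∀ (v : Fin k → ℤ), ∀ h ∈ H,
        aff ψ (fun j => 2 * ψ j (τ + y0 - τ0) + c j) v h = aff ψ c v (τ + y0 + h - τ0) := by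
      intro v h hh
      obtain ⟨ha1, ha2⟩ := hH1 h hh
      have ha3 : h ∈ bohr Γ0 ρX := bohr_mono hG0 le_rfl ha1
      have ha4 := (hT _ ha2).1
      have ha5 : τ + y0 - τ0 ∈ bohr Γ0 (ρ0 / 2 + ρX) := by
        have := sub_mem_bohr ha4 ha3
        rwa [show τ + y0 + h - τ0 - h = τ + y0 - τ0 by ring] at this
      rw [show τ + y0 + h - τ0 = τ + y0 - τ0 + h by ring] at ha4 ⊢
      rw [nest_aff_new, nest_aff_shift hadd c v (mem_bohr_of_le ha5 (by linarith))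
        (mem_bohr_of_le ha3 (by linarith)) (mem_bohr_of_le ha4 (by linarith))]
    have heT : hf e ≤ hf eT := hf_anti (by omega)
    have hXC : 2 * ρX ≤ hf (u + a) := by
      have := nest_hf_le (x := u + a + 1) (y := u + a) 1 le_rfl
      norm_num at this
      linarith
    obtain ⟨Γ1, hΓ1, hout⟩ := hTerm (fun j => 2 * ψ j (τ + y0 - τ0) + c j) (τ + y0) GU ρC ρX ρ1 H
      (InSpan E) hA0 (le_trans hA2 (le_trans (hf_anti (by omega)) hX1))
      (le_trans hXC (le_trans (hf_anti (by omega)) hC1)) (hC3.mono he0 hXC heT)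
      (hX3.mono he0 (le_trans hA2 (hf_anti (by omega))) (hf_le_one e))
      (hF.mono hG0 (by linarith) heT) (fun h hh => (hH1 h hh).1) hH2 hH3
      (by
        intro h hh
        obtain ⟨S, hS1, hS2⟩ := (hT _ (hH1 h hh).2).2
        refine ⟨S, hS1, fun ξ hξ => ?_⟩
        obtain ⟨r, hr1, hr2⟩ := hS2 ξ hξ
        exact ⟨r, hr1, by rw [hsh r h hh]; exact hr2⟩)
      (InSpan.zero E) (fun v hv => hv.neg)
      (by
        intro v _ hv h hh z hz
        rw [hsh v h hh]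
        have hy' : y0 + h ∈ bohr GY (2 * ρY) :=
          mem_bohr_of_le (add_mem_bohr hy0 (bohr_mono hG2 le_rfl (hH1 h hh).1)) (by linarith)
        have h10 := nest_span ψ c (τ + y0 + h - τ0) z hv (2 * hf Rk) (fun w hw => by
          have := hY4 w hw (y0 + h) hy' z (mem_bohr_of_le hz hC2)
          rwa [← add_assoc] at this)
        have h11 : (i : ℝ) * hf Rk ≤ hf 6 := by
          refine mul_hf_le (a := m0) ?_ (by omega)
          have hi' : (i : ℝ) ≤ m0 := by exact_mod_cast hi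
          exact hi'.trans (nat_le_two_pow m0)
        have h12 : hf 6 = 1 / 64 := by norm_num [hf]
        rw [hE1] at h10
        linarith)
      htest
    refine ⟨GU ∪ Γ1, hG0.trans subset_union_left, le_trans (card_union_le _ _) (by omega), ?_⟩
    intro W hW hWn
    refine hout W (hW.trans (bohr_mono (Subset.refl _) (le_min ?_ (hf_anti (by omega))))) hWn
    exact le_trans (hf_anti (by omega)) hA1

theorem nest (hK : KillStmt) (hT : TermStmt) : NestStmt := by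
  obtain ⟨CK, hK⟩ := hK
  obtain ⟨CT, hT⟩ := hT
  obtain ⟨C, hC1, hC⟩ := nest_params CK CT
  refine ⟨C, fun m R hm hmR p _ g hg hG => ?_⟩
  have hR : 2 ≤ R := hm.trans hmR
  obtain ⟨Rk, e, s0, a, K, N, h1, h2, h3, h4, h5, h6, h7, h8, h9, h10, h11⟩ := hC R hR
  obtain ⟨k, n, Γ0, ψ, c, τ0, T, hk, hn, hΓ0, hF, hTp, hTm⟩ := hG
  have hreg := fun (Γ : Finset (ZMod p)) (n : ℕ) => nest_reg h10 Γ n
  have hF' : Forms Γ0 (hf (R + e)) ψ (hf e) := by
    intro j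
    have hle : hf (R + e) ≤ hf n * hf e := by
      rw [← hf_add]; exact hf_anti (by omega)
    refine ⟨(hF j).1.mono (bohr_mono (Subset.refl _) (hf_anti (by omega))), ?_⟩
    refine (SymOn.scale (hF j).1 (hF j).2 (by norm_num) (hf_pos n).le e).mono
      (bohr_mono (Subset.refl _) hle) ?_
    have := hf_pos e
    linarith
  have hRK : R ≤ K := by omega
  have hbound : ∀ i, nestState Γ0 T ψ c τ0 R (Rk ^ CK) Rk e a s0 i → i ≤ R ^ 5 := by
    rintro i ⟨E, -, -, -, -, hE1, hE2, hE3, -⟩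
    rw [← hE1]
    refine diss_card hR (by simpa using hk) E hE2 fun v hv j => (hE3 v hv j).trans ?_
    calc (2 : ℤ) = 2 ^ 1 := by norm_num
      _ ≤ 2 ^ R := pow_le_pow_right₀ (by norm_num) (by omega)
  have key : ∀ i, nestState Γ0 T ψ c τ0 R (Rk ^ CK) Rk e a s0 i ∨
      ∃ Γ : Finset (ZMod p), Γ0 ⊆ Γ ∧ Γ.card ≤ K + (N * K + R + 1) ^ CT ∧
        ∀ W ⊆ bohr Γ (hf (N + (N * K + R + 1) ^ CT)), W.Nonempty → LocCorr g (m ^ CT) ψ W := by
    intro i
    induction i with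
    | zero =>
      exact Or.inl (nest_zero Γ0 T ψ c τ0 R _ Rk e a s0 hΓ0 hTp (by omega)
        (hreg Γ0 s0 (hΓ0.trans hRK) (by omega)))
    | succ i ih =>
      rcases ih with ih | ih
      · exact nest_step hk (hf_anti hn) (fun j => (hF j).1) hF' hTm h1 h2 h3 h4 h5 h6 h7 h8 h9 hreg
          (hK Rk (by omega) p)
          (fun c τ Γ ρC ρX ρ1 H Q => hT m (R + 1) (N * K + R + 1) hm (by omega) (by omega) p g k ψ
            c τ Γ ρC ρX ρ1 H Q hg (by omega))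
          (hbound i ih) ih
      · exact Or.inr ih
  rcases key (R ^ 5 + 1) with h | ⟨Γ, hΓ1, hΓ2, hΓ3⟩
  · have := hbound _ h
    omega
  · refine ⟨k, Γ, ψ, by omega, by omega, hF.mono hΓ1 (hf_anti (by omega)) le_rfl, ?_⟩
    intro W hW hWn
    exact nest_locCorr (hΓ3 W (hW.trans (bohr_mono (Subset.refl _) (hf_anti (by omega)))) hWn)
      (by positivity) (Nat.pow_le_pow_right (by omega) hC1)

end Pool.Agent.Lib.MP_9721b5_an
end
end

-- part Pool.Agent.Lib.MP_9721b5_an.KillZ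
section

/-! A local homomorphism that is often small is small on a Bohr set. -/

set_option autoImplicit false

open Finset
open scoped Classical ComplexConjugate Pointwise

noncomputable section

namespace Pool.Agent.Lib.MP_9721b5_an

lemma killz_eq {p : ℕ} {x y : ℤ} (h : (x : ZMod p) = y) (hb : |x - y| < p) : x = y := by
  have h1 : (p : ℤ) ∣ x - y := (ZMod.intCast_eq_intCast_iff_dvd_sub y x p).1 h.symm
  have := Int.eq_zero_of_abs_lt_dvd h1 hb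
  omega

lemma killz_norm {Γ : Finset Tor} {ρ θ : ℝ} {φ : ℤ → Tor} (hφ : AddZ Γ ρ φ) {a b c d : ℤ}
    (ha : BZ Γ (ρ / 4) a ∧ ‖φ a‖ ≤ θ) (hb : BZ Γ (ρ / 4) b ∧ ‖φ b‖ ≤ θ)
    (hc : BZ Γ (ρ / 4) c ∧ ‖φ c‖ ≤ θ) (hd : BZ Γ (ρ / 4) d ∧ ‖φ d‖ ≤ θ) :
    ‖φ (a + b - c - d)‖ ≤ 4 * θ := by
  have one : ∀ x, BZ Γ (ρ / 4) x → BZ Γ ρ x := fun x hx γ hγ => by
    have := hx γ hγ
    have := norm_nonneg (x • γ)
    linarith
  have two : ∀ x y, BZ Γ (ρ / 4) x → BZ Γ (ρ / 4) y → BZ Γ ρ (x + y) := fun x y hx hy γ hγ => by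
    have := hx γ hγ
    have := hy γ hγ
    have := norm_nonneg (x • γ)
    have := norm_add_le (x • γ) (y • γ)
    rw [add_zsmul]
    linarith
  have four : BZ Γ ρ (a + b - c - d) := fun γ hγ => by
    have := ha.1 γ hγ
    have := hb.1 γ hγ
    have := hc.1 γ hγ
    have := hd.1 γ hγ
    have := norm_add_le (a • γ) (b • γ)
    have := norm_sub_le (a • γ + b • γ) (c • γ)
    have := norm_sub_le (a • γ + b • γ - c • γ) (d • γ)
    rw [sub_zsmul, sub_zsmul, add_zsmul, ← sub_eq_add_neg, ← sub_eq_add_neg]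
    linarith
  have e0 : a + b - c - d + (c + d) = a + b := by ring
  have e1 := hφ a b (one a ha.1) (one b hb.1) (two a b ha.1 hb.1)
  have e2 := hφ c d (one c hc.1) (one d hd.1) (two c d hc.1 hd.1)
  have e3 := hφ _ _ four (two c d hc.1 hd.1) (by rw [e0]; exact two a b ha.1 hb.1)
  rw [e0, e1, e2] at e3
  have e4 : φ (a + b - c - d) = φ a + φ b - φ c - φ d := by
    rw [e3]
    abel
  have := norm_add_le (φ a) (φ b)
  have := norm_sub_le (φ a + φ b) (φ c)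
  have := norm_sub_le (φ a + φ b - φ c) (φ d)
  rw [e4]
  linarith [ha.2, hb.2, hc.2, hd.2]

theorem killz (hB : BSStmt) : KillZStmt := by
  obtain ⟨C, hC⟩ := hB
  refine ⟨3 * C, fun R hR Γ ρ θ φ M hM hφ hL => ?_⟩
  set X := (Icc (-(2 * M : ℤ)) (2 * M)).filter fun x => BZ Γ (ρ / 4) x ∧ ‖φ x‖ ≤ θ with hX
  have hXb : ∀ x ∈ X, |x| ≤ 2 * M := fun x hx => abs_le.2 (mem_Icc.1 (mem_filter.1 hx).1)
  have : NeZero (10 * M + 1) := ⟨by omega⟩
  have hinj : Set.InjOn (fun x : ℤ => (x : ZMod (10 * M + 1))) X := by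
    intro x hx y hy h
    refine killz_eq h ?_
    have h1 := abs_le.1 (hXb x hx)
    have h2 := abs_le.1 (hXb y hy)
    rw [abs_lt]
    push_cast
    constructor <;> omega
  have hcard : 10 * M + 1 ≤ 2 ^ (R + 4) * (X.image fun x : ℤ => (x : ZMod (10 * M + 1))).card := by
    rw [card_image_of_injOn hinj]
    have h1 : hf R * M ≤ X.card := hL
    have h2 : (M : ℝ) ≤ 2 ^ R * X.card := by
      calc (M : ℝ) = 2 ^ R * (hf R * M) := by
            rw [← mul_assoc, mul_comm (2 ^ R), hf_mul_two_pow, one_mul]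
        _ ≤ _ := by gcongr
    have h3 : M ≤ 2 ^ R * X.card := by exact_mod_cast h2
    rw [pow_add, mul_right_comm]
    omega
  obtain ⟨Γ0, hΓ0, hb⟩ := hC (R + 4) (by omega) (10 * M + 1) _ hcard
  have hpow : (R + 4) ^ C ≤ R ^ (3 * C) := pow_le_pow_of (by nlinarith [Nat.mul_le_mul hR hR])
  refine ⟨Γ0.image tc, (card_image_le.trans hΓ0).trans hpow, fun h hh hz => ?_⟩
  obtain ⟨a1, h1, a2, h2, a3, h3, a4, h4, he⟩ :=
    hb _ (mem_bohr_of_le ((BZ_image Γ0 _ h).1 hz) (hf_anti hpow))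
  obtain ⟨x1, g1, rfl⟩ := mem_image.1 h1
  obtain ⟨x2, g2, rfl⟩ := mem_image.1 h2
  obtain ⟨x3, g3, rfl⟩ := mem_image.1 h3
  obtain ⟨x4, g4, rfl⟩ := mem_image.1 h4
  have e : h = x1 + x2 - x3 - x4 := by
    refine killz_eq (p := 10 * M + 1) (by push_cast; exact he) ?_
    have := abs_le.1 (hXb _ g1)
    have := abs_le.1 (hXb _ g2)
    have := abs_le.1 (hXb _ g3)
    have := abs_le.1 (hXb _ g4)
    have := abs_le.1 hh
    rw [abs_lt]
    push_cast
    constructor <;> omega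
  rw [e]
  exact killz_norm hφ (mem_filter.1 g1).2 (mem_filter.1 g2).2 (mem_filter.1 g3).2
    (mem_filter.1 g4).2

end Pool.Agent.Lib.MP_9721b5_an
end
end
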