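import Pool.Agent.Lib.MP_9721b5_an.Basic
import Pool.Agent.Lib.MP_9721b5_an.LevelB
import Pool.Agent.Lib.MP_9721b5_an.GraphA

-- part Pool.Agent.Lib.MP_9721b5_an.StructA
section

/-! Combinatorial parts of the structure step: splitting into stretches, counting bad points. -/

set_option autoImplicit false

open Finset
open scoped Classical ComplexConjugate Pointwise

noncomputable section

namespace Pool.Agent.Lib.MP_9721b5_an

/-- Polynomial growth. -/
def StructPoly (f : ℕ → ℕ) : Prop := ∃ c : ℕ, ∀ R, 2 ≤ R → f R ≤ R ^ c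

lemma StructPoly.id : StructPoly fun R => R := ⟨1, fun R _ => by simp⟩

lemma StructPoly.const (a : ℕ) : StructPoly fun _ => a :=
  ⟨a, fun _ hR => const_le_pow hR Nat.lt_two_pow_self.le⟩

lemma StructPoly.add {f g : ℕ → ℕ} (hf : StructPoly f) (hg : StructPoly g) :
    StructPoly fun R => f R + g R := by
  obtain ⟨c, hc⟩ := hf
  obtain ⟨d, hd⟩ := hg
  exact ⟨c + d + 1, fun R hR => add_le_pow hR (le_pow_mono hR (hc R hR) (by omega))
    (le_pow_mono hR (hd R hR) (by omega))⟩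

lemma StructPoly.mul {f g : ℕ → ℕ} (hf : StructPoly f) (hg : StructPoly g) :
    StructPoly fun R => f R * g R := by
  obtain ⟨c, hc⟩ := hf
  obtain ⟨d, hd⟩ := hg
  exact ⟨c + d, fun R hR => mul_le_pow (hc R hR) (hd R hR)⟩

lemma StructPoly.pow {f : ℕ → ℕ} (hf : StructPoly f) (k : ℕ) : StructPoly fun R => f R ^ k := by
  obtain ⟨c, hc⟩ := hf
  exact ⟨c * k, fun R hR => pow_le_pow_of (hc R hR)⟩

section Split

variable {l D : ℕ} {y0 : ℤ} {κ : ℕ → ℤ → ℝ} {q q' : ℕ → ℤ → ℕ} {η : ℝ}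

lemma struct_cross (H : Wts l D y0 κ q q' η) (hη : 0 ≤ η) (c : ℕ) :
    (∑ y ∈ nd (D + l) y0, ∑ d ∈ range (D + 1), if d ≤ c ∧ c ≤ q d y then κ d y else 0) ≤
      η * 2 ^ (D + l) := by
  by_cases hc : c ≤ D
  · exact H.cross_le le_rfl (self_mem_nd _ _) c hc
  · refine le_trans (le_of_eq (sum_eq_zero fun y hy => sum_eq_zero fun d hd => ?_)) (by positivity)
    split_ifs with h
    · by_contra h0
      have := H.lev d (Nat.lt_succ_iff.1 (mem_range.1 hd)) y hy h0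
      omega
    · rfl

lemma struct_osc_triv (H : Wts l D y0 κ q q' η) {A : ℕ → ℤ → ℂ} (hA : ∀ d y, ‖A d y‖ ≤ 1) :
    Osc l D y0 κ q q' A ≤ 2 * 2 ^ (D + l) := by
  have h1 : ∀ y ∈ nd (D + l) y0,
      ∑ d ∈ range (D + 1), κ d y * ‖A (q' d y) y - A (q d y) y‖ ≤ 2 := by
    intro y hy
    calc ∑ d ∈ range (D + 1), κ d y * ‖A (q' d y) y - A (q d y) y‖
        ≤ ∑ d ∈ range (D + 1), κ d y * 2 := sum_le_sum fun d _ =>
          mul_le_mul_of_nonneg_left ((norm_sub_le _ _).trans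
            (by linarith [hA (q' d y) y, hA (q d y) y])) (H.nn d y)
      _ ≤ 2 := by rw [← sum_mul]; linarith [H.one y hy]
  refine (sum_le_card_nsmul _ _ _ h1).trans (le_of_eq ?_)
  rw [card_nd, nsmul_eq_mul]
  push_cast
  ring

lemma struct_lohi (D : ℕ) (ρ : ℕ → ℕ) (k : ℕ) : ∃ lo hi : ℕ,
    (∀ d ≤ D, ρ d = k → lo ≤ d ∧ d ≤ hi) ∧ (lo ≤ hi → hi ≤ D ∧ ρ lo = ρ hi) := by
  by_cases h : ∃ d, d ≤ D ∧ ρ d = k
  · obtain ⟨d0, hd0, hk⟩ := id h
    refine ⟨Nat.find h, Nat.findGreatest (fun d => ρ d = k) D, fun d hd hdk =>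
      ⟨Nat.find_min' h ⟨hd, hdk⟩, Nat.le_findGreatest hd hdk⟩, fun _ =>
      ⟨Nat.findGreatest_le D, ?_⟩⟩
    rw [(Nat.find_spec h).2, Nat.findGreatest_spec (P := fun d => ρ d = k) hd0 hk]
  · exact ⟨1, 0, fun d hd hk => (h ⟨d, hd, hk⟩).elim, fun h => by omega⟩

/-- Splitting the scales into stretches on which `ρ` returns to its value. -/
lemma struct_split (H : Wts l D y0 κ q q' η) (hη : 0 ≤ η) {A : ℕ → ℤ → ℂ}
    (hA : ∀ d y, ‖A d y‖ ≤ 1) (m g : ℕ) (hg : 1 ≤ g) (ρ : ℕ → ℕ) (hρ : ∀ d ≤ D, ρ d < m) {B : ℝ}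
    (hB0 : 0 ≤ B)
    (hB : ∀ b0 t, b0 + g ≤ t → t + g ≤ D → ρ b0 = ρ (t + g) →
      Osc l D y0 (fun d y => if b0 + g ≤ q' d y ∧ q d y ≤ t then κ d y else 0) q q' A ≤ B) :
    Osc l D y0 κ q q' A ≤ m * (B + 4 * g * (η * 2 ^ (D + l))) := by
  choose lo hi h1 h2 using struct_lohi D ρ
  set w : ℕ → ℕ → ℤ → ℝ := fun c d y => if d ≤ c ∧ c ≤ q d y then κ d y else 0 with hw
  have hw0 : ∀ c d y, 0 ≤ w c d y := fun c d y => by
    simp only [hw]
    split_ifs
    · exact H.nn d y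
    · exact le_rfl
  set u : ℕ → ℕ → ℤ → ℝ := fun k d y =>
    (if lo k + g ≤ q' d y ∧ q d y + g ≤ hi k then κ d y else 0) * ‖A (q' d y) y - A (q d y) y‖ +
      2 * ∑ i ∈ range g, (w (lo k + i) d y + w (hi k - i) d y) with hu
  have hs0 : ∀ k d y, 0 ≤ ∑ i ∈ range g, (w (lo k + i) d y + w (hi k - i) d y) :=
    fun k d y => sum_nonneg fun i _ => add_nonneg (hw0 _ _ _) (hw0 _ _ _)
  have hi0 : ∀ k d y, 0 ≤ (if lo k + g ≤ q' d y ∧ q d y + g ≤ hi k then κ d y else 0) *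
      ‖A (q' d y) y - A (q d y) y‖ := fun k d y => by
    refine mul_nonneg ?_ (norm_nonneg _)
    split_ifs
    · exact H.nn d y
    · exact le_rfl
  have hu0 : ∀ k d y, 0 ≤ u k d y := fun k d y =>
    add_nonneg (hi0 k d y) (mul_nonneg two_pos.le (hs0 k d y))
  have key : ∀ y ∈ nd (D + l) y0, ∀ d ∈ range (D + 1),
      κ d y * ‖A (q' d y) y - A (q d y) y‖ ≤ ∑ k ∈ range m, u k d y := by
    intro y hy d hd
    by_cases h0 : κ d y = 0
    · rw [h0, zero_mul]
      exact sum_nonneg fun k _ => hu0 k d y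
    obtain ⟨e1, e2, e3⟩ := H.lev d (Nat.lt_succ_iff.1 (mem_range.1 hd)) y hy h0
    obtain ⟨e4, e5⟩ := h1 _ (q d y) e3 rfl
    refine le_trans ?_ (single_le_sum (fun k _ => hu0 k d y) (mem_range.2 (hρ _ e3)))
    simp only [hu]
    by_cases hc : lo (ρ (q d y)) + g ≤ q' d y ∧ q d y + g ≤ hi (ρ (q d y))
    · rw [if_pos hc]
      linarith [hs0 (ρ (q d y)) d y]
    · have hn : ‖A (q' d y) y - A (q d y) y‖ ≤ 2 :=
        (norm_sub_le _ _).trans (by linarith [hA (q' d y) y, hA (q d y) y])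
      have hk : κ d y ≤ ∑ i ∈ range g, (w (lo (ρ (q d y)) + i) d y + w (hi (ρ (q d y)) - i) d y) := by
        have hsing : ∀ i ∈ range g, w (lo (ρ (q d y)) + i) d y + w (hi (ρ (q d y)) - i) d y ≤
            ∑ i ∈ range g, (w (lo (ρ (q d y)) + i) d y + w (hi (ρ (q d y)) - i) d y) :=
          fun i hi' => single_le_sum
            (f := fun i => w (lo (ρ (q d y)) + i) d y + w (hi (ρ (q d y)) - i) d y)
            (fun i _ => add_nonneg (hw0 _ _ _) (hw0 _ _ _)) hi'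
        rcases not_and_or.1 hc with h | h
        · refine le_trans ?_ (hsing (q' d y - lo (ρ (q d y))) (mem_range.2 (by omega)))
          have : w (lo (ρ (q d y)) + (q' d y - lo (ρ (q d y)))) d y = κ d y :=
            if_pos (by omega)
          linarith [hw0 (hi (ρ (q d y)) - (q' d y - lo (ρ (q d y)))) d y]
        · refine le_trans ?_ (hsing (hi (ρ (q d y)) - q d y) (mem_range.2 (by omega)))
          have : w (hi (ρ (q d y)) - (hi (ρ (q d y)) - q d y)) d y = κ d y :=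
            if_pos (by omega)
          linarith [hw0 (lo (ρ (q d y)) + (hi (ρ (q d y)) - q d y)) d y]
      rw [if_neg hc, zero_mul, zero_add]
      nlinarith [H.nn d y]
  have hk : ∀ k, ∑ y ∈ nd (D + l) y0, ∑ d ∈ range (D + 1), u k d y ≤
      B + 4 * g * (η * 2 ^ (D + l)) := by
    intro k
    simp only [hu, sum_add_distrib, ← mul_sum]
    refine add_le_add ?_ ?_
    · by_cases hc : lo k + g + g ≤ hi k
      · obtain ⟨e1, e2⟩ := h2 k (by omega)
        have := hB (lo k) (hi k - g) (by omega) (by omega)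
          (by rw [Nat.sub_add_cancel (by omega), e2])
        refine le_trans (le_of_eq ?_) this
        refine sum_congr rfl fun y _ => sum_congr rfl fun d _ => ?_
        congr 1
        exact if_congr (by omega) rfl rfl
      · refine le_trans (le_of_eq (sum_eq_zero fun y hy => sum_eq_zero fun d hd => ?_)) hB0
        split_ifs with h
        · by_cases h0 : κ d y = 0
          · rw [h0, zero_mul]
          · have := H.lev d (Nat.lt_succ_iff.1 (mem_range.1 hd)) y hy h0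
            omega
        · exact zero_mul _
    · have e1 : ∀ c : ℕ → ℕ, ∑ y ∈ nd (D + l) y0, ∑ d ∈ range (D + 1), ∑ i ∈ range g,
          w (c i) d y ≤ g * (η * 2 ^ (D + l)) := by
        intro c
        calc ∑ y ∈ nd (D + l) y0, ∑ d ∈ range (D + 1), ∑ i ∈ range g, w (c i) d y
            = ∑ i ∈ range g, ∑ y ∈ nd (D + l) y0, ∑ d ∈ range (D + 1), w (c i) d y := by
              rw [sum_comm (s := range g)]
              exact sum_congr rfl fun y _ => sum_comm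
          _ ≤ g * (η * 2 ^ (D + l)) := by
              refine (sum_le_card_nsmul _ _ _ fun i _ => struct_cross H hη (c i)).trans ?_
              rw [card_range, nsmul_eq_mul]
      linarith [e1 fun i => lo k + i, e1 fun i => hi k - i]
  calc Osc l D y0 κ q q' A
      ≤ ∑ y ∈ nd (D + l) y0, ∑ d ∈ range (D + 1), ∑ k ∈ range m, u k d y :=
        sum_le_sum fun y hy => sum_le_sum fun d hd => key y hy d hd
    _ = ∑ k ∈ range m, ∑ y ∈ nd (D + l) y0, ∑ d ∈ range (D + 1), u k d y := by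
        rw [sum_comm (s := range m)]
        exact sum_congr rfl fun y _ => sum_comm
    _ ≤ m * (B + 4 * g * (η * 2 ^ (D + l))) := by
        refine (sum_le_card_nsmul _ _ _ fun k _ => hk k).trans ?_
        rw [card_range, nsmul_eq_mul]

lemma struct_restrict (H : Wts l D y0 κ q q' η) {t : ℕ} (ht : t ≤ D) {y1 : ℤ}
    (hy : y1 ∈ nd (D + l) y0) (P : ℕ → ℤ → Prop) [∀ d y, Decidable (P d y)]
    (hP : ∀ d y, P d y → q d y ≤ t) :
    Wts l t y1 (fun d y => if P d y then κ d y else 0) q q' η := by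
  have e : (fun d y => if P d y then κ d y else 0) =
      fun d y => @ite _ (P d y) (Classical.propDecidable _) (κ d y) 0 := by
    funext d y
    by_cases h : P d y
    · rw [if_pos h, if_pos h]
    · rw [if_neg h, if_neg h]
  rw [e]
  exact H.restrict ht hy P hP

/-- The oscillation of a weight living below level `t` is a sum over the nodes of level `t`. -/
lemma struct_nodes (H : Wts l D y0 κ q q' η) {t : ℕ} (ht : t ≤ D) (P : ℕ → ℤ → Prop)
    [∀ d y, Decidable (P d y)] (hP : ∀ d y, P d y → q d y ≤ t) (A : ℕ → ℤ → ℂ) (a b : ℝ) (F : ℤ → ℝ)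
    (h : ∀ y1 ∈ nd (D + l) y0, Osc l t y1 (fun d y => if P d y then κ d y else 0) q q' A ≤
      a * 2 ^ (t + l) + b * ∑ y ∈ nd (t + l) y1, F y) :
    Osc l D y0 (fun d y => if P d y then κ d y else 0) q q' A ≤
      a * 2 ^ (D + l) + b * ∑ y ∈ nd (D + l) y0, F y := by
  obtain ⟨Y, hY, hYm, hsum⟩ := sum_nd_split (M := ℝ) (e := t + l) (e' := D + l) (by omega) y0
  have e1 : Osc l D y0 (fun d y => if P d y then κ d y else 0) q q' A =
      ∑ y1 ∈ Y, Osc l t y1 (fun d y => if P d y then κ d y else 0) q q' A := by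
    unfold Osc
    rw [← hsum]
    refine sum_congr rfl fun y hy => (sum_subset (range_mono (by omega)) fun d hd hd' => ?_).symm
    beta_reduce
    split_ifs with hp
    · by_cases h0 : κ d y = 0
      · rw [h0, zero_mul]
      · have := H.lev d (Nat.lt_succ_iff.1 (mem_range.1 hd)) y hy h0
        have := hP d y hp
        rw [mem_range] at hd'
        omega
    · exact zero_mul _
  rw [e1, hsum F]
  refine (sum_le_sum fun y1 hy1 => h y1 (hYm y1 hy1)).trans (le_of_eq ?_)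
  rw [sum_add_distrib, sum_const, ← mul_sum, hY, nsmul_eq_mul]
  have : (2 : ℝ) ^ (D + l) = 2 ^ (D + l - (t + l)) * 2 ^ (t + l) := by
    rw [← pow_add, Nat.sub_add_cancel (by omega)]
  rw [this]
  push_cast
  ring

end Split

lemma struct_shift_card (a b : ℤ) (P Q : ℤ → Prop) (hPQ : ∀ y, P y → Q y) (k : ℤ) (K : ℕ)
    (hk0 : 0 ≤ k) (hk : k ≤ K) [DecidablePred Q] [DecidablePred fun y => P (y + k)] :
    ((Ico a b).filter fun y => P (y + k)).card ≤ ((Ico a b).filter Q).card + K := by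
  have h1 : ((Ico a b).filter fun y => P (y + k)).card ≤
      (((Ico a b).filter Q) ∪ Ico b (b + K)).card := by
    refine card_le_card_of_injOn (fun y => y + k) (fun y hy => ?_) fun y _ y' _ h => by
      simpa using h
    have hy := mem_filter.1 (mem_coe.1 hy)
    have h2 := mem_Ico.1 hy.1
    refine mem_coe.2 (mem_union.2 ?_)
    beta_reduce
    by_cases h3 : y + k < b
    · exact Or.inl (mem_filter.2 ⟨mem_Ico.2 ⟨by omega, h3⟩, hPQ _ hy.2⟩)
    · exact Or.inr (mem_Ico.2 ⟨by omega, by omega⟩)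
  refine h1.trans ((card_union_le _ _).trans ?_)
  simp

/-- The average number of bad progressions. -/
lemma struct_badv {ι : Type} [Fintype ι] (c : SCtx ι) (hN : 1 ≤ c.Nb) (e : ℕ) (y0 : ℤ) :
    ∑ y ∈ nd e y0, c.badv y ≤ 3 * (((nd e y0).filter fun y =>
      ∃ i, ¬ (c.a i).Good c.Γ c.ρ c.ψ c.η y).card : ℝ) + 9 * c.Nb := by
  have hN' : (0 : ℝ) < c.Nb := by exact_mod_cast hN
  set bad := ((nd e y0).filter fun y => ∃ i, ¬ (c.a i).Good c.Γ c.ρ c.ψ c.η y).card with hbad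
  have h1 : ∀ x ∈ Icc (1 : ℤ) c.Nb,
      ((nd e y0).filter fun y => ¬ c.Good3 y x).card ≤ 3 * bad + 9 * c.Nb := by
    intro x hx
    have hx := mem_Icc.1 hx
    have h2 : ∀ (i : Fin 3) (k : ℤ), 0 ≤ k → k ≤ 3 * c.Nb → ((nd e y0).filter fun y =>
        ¬ (c.a i).Good c.Γ c.ρ c.ψ c.η (y + k)).card ≤ bad + 3 * c.Nb := fun i k hk0 hk =>
      struct_shift_card _ _ (fun y => ¬ (c.a i).Good c.Γ c.ρ c.ψ c.η y)
        (fun y => ∃ i, ¬ (c.a i).Good c.Γ c.ρ c.ψ c.η y) (fun y h => ⟨i, h⟩) k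
        (3 * c.Nb) hk0 (by push_cast; exact hk)
    have h3 : ((nd e y0).filter fun y => ¬ c.Good3 y x) ⊆
        (((nd e y0).filter fun y => ¬ (c.a 0).Good c.Γ c.ρ c.ψ c.η (y + x)) ∪
          ((nd e y0).filter fun y => ¬ (c.a 1).Good c.Γ c.ρ c.ψ c.η (y + 2 * x))) ∪
          ((nd e y0).filter fun y => ¬ (c.a 2).Good c.Γ c.ρ c.ψ c.η (y + 3 * x)) := by
      intro y hy
      have hy := mem_filter.1 hy
      simp only [mem_union, mem_filter, hy.1, true_and]
      have := hy.2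
      unfold SCtx.Good3 at this
      tauto
    have h4 := (card_le_card h3).trans ((card_union_le _ _).trans
      (Nat.add_le_add_right (card_union_le _ _) _))
    have := h2 0 x (by omega) (by omega)
    have := h2 1 (2 * x) (by omega) (by omega)
    have := h2 2 (3 * x) (by omega) (by omega)
    omega
  have h5 : ∑ y ∈ nd e y0, ((Icc (1 : ℤ) c.Nb).filter fun x => ¬ c.Good3 y x).card ≤
      c.Nb * (3 * bad + 9 * c.Nb) := by
    simp only [card_filter]
    rw [sum_comm]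
    simp only [← card_filter]
    refine (sum_le_card_nsmul _ _ _ h1).trans ?_
    simp
  unfold SCtx.badv
  rw [← sum_div, div_le_iff₀ hN', ← Nat.cast_sum]
  calc _ ≤ ((c.Nb * (3 * bad + 9 * c.Nb) : ℕ) : ℝ) := by exact_mod_cast h5
    _ = _ := by push_cast; ring

lemma struct_even {h : ℤ} {ρ : ℝ} (hρ : ρ < 1 / 2) (H : ‖h • (((1 / 2 : ℝ) : ℝ) : Tor)‖ ≤ ρ) :
    Even h := by
  by_contra hodd
  obtain ⟨k, rfl⟩ := Int.not_even_iff_odd.1 hodd
  have h1 : (2 * k + 1) • (((1 / 2 : ℝ) : ℝ) : Tor) = (((1 / 2 : ℝ) : ℝ) : Tor) := by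
    rw [add_smul, one_smul, add_eq_right, ← AddCircle.coe_zsmul, AddCircle.coe_eq_zero_iff]
    exact ⟨k, by simp; ring⟩
  rw [h1, AddCircle.norm_half_period_eq] at H
  norm_num at H
  linarith

lemma struct_exp_le {x : ℝ} {m : ℕ} (h : (m : ℝ) ≤ x) : Real.exp (-x) ≤ hf m := by
  calc Real.exp (-x) ≤ Real.exp (m * (-1)) := Real.exp_le_exp.2 (by linarith)
    _ = Real.exp (-1) ^ m := Real.exp_nat_mul _ _
    _ ≤ hf m := pow_le_pow_left₀ (Real.exp_pos _).le (by
        have := Real.exp_neg_one_lt_half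
        linarith) m

lemma struct_chain_anti {α : Type} {E : ℕ → Finset α} {D : ℕ} (h : ∀ d, d < D → E (d + 1) ⊆ E d)
    {d d' : ℕ} (h1 : d ≤ d') (h2 : d' ≤ D) : E d' ⊆ E d := by
  induction d', h1 using Nat.le_induction with
  | base => exact Subset.rfl
  | succ k hk ih => exact (h k (by omega)).trans (ih (by omega))

lemma struct_mu3_le {ι : Type} {a : Fin 3 → Ph ι} {R : ℕ} (h : ∀ i y j, |(a i).r y j| ≤ R)
    (y x : ℤ) (j : ι) : |mu3 a y x j| ≤ (14 * R : ℕ) := by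
  have h0 := abs_le.1 (h 0 (y + x) j)
  have h1 := abs_le.1 (h 1 (y + 2 * x) j)
  have h2 := abs_le.1 (h 2 (y + 3 * x) j)
  unfold mu3
  rw [abs_le]
  push_cast
  constructor <;> omega

lemma struct_pow_hf {a k d : ℕ} (h : a + k ≤ d) : (2 : ℝ) ^ a ≤ hf k * 2 ^ d := by
  calc (2 : ℝ) ^ a = hf k * 2 ^ (a + k) := by
        rw [pow_add, mul_comm (2 ^ a), ← mul_assoc, hf_mul_two_pow, one_mul]
    _ ≤ hf k * 2 ^ d :=
        mul_le_mul_of_nonneg_left (pow_le_pow_right₀ one_le_two h) (hf_pos k).le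

lemma Scales.struct_ge {N : ℕ → ℕ} (hN : Scales N) (d : ℕ) : (2 : ℝ) ^ d ≤ N d := by
  exact_mod_cast (hN d).1

lemma Scales.struct_le {N : ℕ → ℕ} (hN : Scales N) (d : ℕ) : (N d : ℝ) ≤ 2 ^ (d + 1) := by
  exact_mod_cast (hN d).2.le

lemma Scales.struct_hf {N : ℕ → ℕ} (hN : Scales N) {a k d : ℕ} (h : a + k ≤ d) :
    (2 : ℝ) ^ a ≤ hf k * N d :=
  (struct_pow_hf h).trans (mul_le_mul_of_nonneg_left (hN.struct_ge d) (hf_pos k).le)

lemma Scales.struct_floor {N : ℕ → ℕ} (hN : Scales N) {a k d : ℕ} (h : a + k ≤ d) :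
    2 ^ a ≤ ⌊hf k * N d⌋₊ :=
  Nat.le_floor (by push_cast; exact hN.struct_hf h)

end Pool.Agent.Lib.MP_9721b5_an
end
end

-- part Pool.Agent.Lib.MP_9721b5_an.Struct
section

/-! The oscillation bound for three locally quadratic phases: choice of parameters. -/

set_option autoImplicit false

open Finset
open scoped Classical ComplexConjugate Pointwise

noncomputable section

namespace Pool.Agent.Lib.MP_9721b5_an

/-- One stretch of scales. -/
lemma struct_one (hB : BumpStmt) (hS : StretchStmt) {R E : ℕ} (hE : 1 ≤ E) (hER : 8 * E ≤ R)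
    {ι : Type} [Fintype ι] {Γ : Finset Tor} {ψ : ι → ℤ → Tor} (a : Fin 3 → Ph ι) {l D : ℕ}
    {y0 : ℤ} {N : ℕ → ℕ} {s : ℕ → ℤ → ℤ} {κ : ℕ → ℤ → ℝ} {q q' : ℕ → ℤ → ℕ}
    (hadd : ∀ j, AddZ Γ (hf R) (ψ j)) (hl1 : 1 ≤ l) (hl : l ≤ R) (hN : Scales N)
    (hs : ∀ d y, s d y = 1 ∨ s d y = -1) (H : Wts l D y0 κ q q' (hf (8 * E)))
    {Γ' : Finset Tor} {n' b e g K m0 m1 : ℕ} (E0 : Finset (ι → ℤ)) (E1 : Finset (Γ' → ℤ))
    {b0 t : ℕ} (hbt : b0 + g ≤ t) (htD : t + g ≤ D) (hK : Γ'.card ≤ K)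
    (he : R + K * (b + 2) + 20 ≤ e)
    (htail : ((R + K * (b + 2) : ℕ) : ℝ) ≤ 4 * hf n' ^ 2 * ((2 ^ b : ℕ) : ℝ))
    (hg : 2 * e + 2 * R + m0 + m1 + 2 ≤ g)
    (hsmall : ∀ h, BZ Γ' (hf n') h → Even h ∧ BZ Γ (hf R / 3) h)
    (hE0 : E0.card ≤ m0) (hE1 : E1.card ≤ m1)
    (hkill : ∀ v ∈ E0, ∃ d', t + g ≤ d' ∧ ∀ h : ℤ, |h| ≤ ⌊hf (8 * E) * N d'⌋₊ →
      BZ Γ' (hf n') h → ‖(2 : ℤ) • cz ψ v h‖ ≤ 4 * (1 / (⌊hf (8 * E) * N d'⌋₊ : ℝ)))
    (hsc : ∀ y x, ¬ InSpan E0 (mu3 a y x) → ∀ d, b0 ≤ d → d ≤ D → 1 ≤ ⌊hf (8 * E) * N d⌋₊ →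
      ∀ ξ : Tor, ‖∑ h ∈ Uset Γ (hf (8 * R)) ⌊hf (8 * E) * N d⌋₊,
        ∑ w ∈ Uset Γ (hf (8 * R)) ⌊hf (8 * E) * N d⌋₊,
          ex ((h + w) • ξ + (h + w) • cz ψ (mu3 a y x) (h + w))‖ ≤
        hf (8 * E) * ((Uset Γ (hf (8 * R)) ⌊hf (8 * E) * N d⌋₊).card : ℝ) ^ 2)
    (hst1 : ∀ v : Γ' → ℤ, (∀ γ, |v γ| ≤ 8 * ((2 ^ b : ℕ) : ℤ)) →
      ‖lin Γ' v‖ < 1 / (hf e * N b0) → InSpan E1 v)
    (hst2 : ∀ v ∈ E1, ‖lin Γ' v‖ ≤ 1 / (hf e * N (t + g))) :
    Osc l D y0 (fun d y => if b0 + g ≤ q' d y ∧ q d y ≤ t then κ d y else 0) q q'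
      (fun d y => tav (wave a) (s d y) (N d) y) ≤
      (2000 * e + 2000) * (hf E * 2 ^ (D + l) + (((nd (D + l) y0).filter fun y =>
        ∃ i, ¬ (a i).Good Γ (hf R) ψ (hf (8 * E)) y).card : ℝ)) := by
  have hε := hf_pos e
  have hη := hf_pos (8 * E)
  have hε1 : hf e ≤ 1 / 100 := (hf_anti (show 7 ≤ e by omega)).trans (by norm_num [hf])
  have hη1 : hf (8 * E) ≤ 1 / 100 := (hf_anti (show 7 ≤ 8 * E by omega)).trans (by norm_num [hf])
  have hNb1 : 1 ≤ N b0 := Nat.one_le_two_pow.trans (hN b0).1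
  have hT : ((2 ^ (t + l) : ℕ) : ℝ) = 2 ^ (t + l) := by push_cast; rfl
  have hT0 : (0 : ℝ) < 2 ^ (t + l) := by positivity
  have hNbT : (N b0 : ℝ) ≤ hf e * (2 ^ (t + l) : ℕ) := by
    rw [hT]
    exact (hN.struct_le b0).trans (struct_pow_hf (by omega))
  have hNbT' : N b0 ≤ 2 ^ (t + l) :=
    (hN b0).2.le.trans (Nat.pow_le_pow_right two_pos (by omega))
  have hstab : Stab Γ' (2 ^ b) (hf e) (2 ^ (t + l)) (N b0) := by
    intro v hv
    refine or_iff_not_imp_right.2 fun h => ?_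
    have h1 := (hst1 v hv (not_le.1 h)).norm_le (linHom Γ') _ hst2
    refine le_trans h1 ?_
    have h2 : (0 : ℝ) < N (t + g) := lt_of_lt_of_le (by positivity) (hN.struct_ge _)
    rw [hT, mul_one_div, div_le_div_iff₀ (by positivity) hT0, ← mul_assoc, ← hf_add]
    refine le_trans ?_ (hN.struct_hf (a := m1 + (t + l)) (by omega))
    rw [pow_add 2 m1]
    refine mul_le_mul_of_nonneg_right (le_trans ?_ (nat_le_two_pow m1)) hT0.le
    exact_mod_cast hE1
  obtain ⟨Z, hZ0, hZ1, heqd, hdich⟩ := hB Γ' (2 ^ b) (hf e) (2 ^ (t + l)) (N b0) hε hε1 hNb1 hNbT'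
    hstab
  have hZ : hf (K * (b + 2)) ≤ Z := by
    refine le_trans ?_ hZ0
    refine (hf_anti (Nat.mul_le_mul_right _ hK)).trans ?_
    rw [mul_comm, hf_mul]
    refine pow_le_pow_left₀ (hf_pos _).le ?_ _
    rw [hf_eq_inv, one_div]
    refine inv_anti₀ (by positivity) ?_
    push_cast
    rw [pow_add]
    linarith [one_le_pow₀ (one_le_two (α := ℝ)) (n := b)]
  have hηZ : hf (R + K * (b + 2)) ≤ hf (8 * E) * Z := by
    rw [hf_add]
    exact mul_le_mul (hf_anti hER) hZ (hf_pos _).le hη.le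
  let c : SCtx ι := ⟨Γ, hf R, ψ, a, hf (8 * E), Γ', hf n', 2 ^ b, hf e, 2 ^ (t + l), N b0, Z,
    InSpan E0⟩
  have hok : c.OK :=
    { add := hadd
      rho := (hf_pos R).le
      eta0 := hη
      eta1 := hη1
      eps0 := hε
      eps1 := (mul_hf_le (a := 20) (by norm_num) he).trans hηZ
      Z1 := hZ1
      Nb1 := hNb1
      NbT := hNbT
      small := hsmall
      kill := by
        intro y x hr h hh hb
        have h1 := InSpan.norm_le hr ((2 : ℤ) • czHom ψ h)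
          (4 * (1 / 2 ^ (t + l + e + m0 + 2))) fun v hv => by
            obtain ⟨d', hd', hk⟩ := hkill v hv
            have h2 := hN.struct_floor (a := t + l + e + m0 + 2) (k := 8 * E) (d := d') (by omega)
            have h3 : 2 ^ (t + l) ≤ ⌊hf (8 * E) * N d'⌋₊ :=
              (Nat.pow_le_pow_right two_pos (by omega)).trans h2
            refine (hk h (hh.trans (Int.ofNat_le.2 h3)) hb).trans ?_
            refine mul_le_mul_of_nonneg_left (one_div_le_one_div_of_le (by positivity) ?_)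
              (by norm_num)
            exact_mod_cast h2
        refine le_trans h1 ?_
        change _ ≤ hf e / ((2 ^ (t + l) : ℕ) : ℝ)
        have h4 : (E0.card : ℝ) ≤ 2 ^ m0 := le_trans (by exact_mod_cast hE0) (nat_le_two_pow m0)
        refine (mul_le_mul_of_nonneg_right h4 (by positivity)).trans (le_of_eq ?_)
        rw [hT, hf_eq_inv]
        field_simp
        ring
      tail := fun h hh => (bump_tail Γ' _ (hf_pos n').le hh).trans
        ((struct_exp_le htail).trans hηZ)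
      eqd := heqd
      dich := hdich
      stab := hstab }
  have hscale : ∀ d, b0 + g ≤ d → d ≤ t → c.Scale (N d) := by
    intro d h1 h2
    refine ⟨(hN.struct_le b0).trans (hN.struct_hf (by omega)),
      (hN d).2.le.trans (Nat.pow_le_pow_right two_pos (by omega)),
      Uset Γ (hf (8 * R)) ⌊hf (8 * E) * N d⌋₊, ⟨0, ?_⟩, fun h hh => ?_, fun y x hr ξ => ?_⟩
    · exact mem_filter.2 ⟨mem_Icc.2 ⟨by omega, by omega⟩, BZ.zero _ (hf_pos _).le⟩
    · obtain ⟨h3, h4⟩ := mem_filter.1 hh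
      refine ⟨le_trans ?_ (Nat.floor_le (a := hf (8 * E) * N d) (by positivity)), h4.le ?_⟩
      · exact_mod_cast abs_le.2 (mem_Icc.1 h3)
      · refine (hf_anti (show R + 3 ≤ 8 * R by omega)).trans ?_
        change hf (R + 3) ≤ hf R / 6
        rw [hf_succ, hf_succ, hf_succ]
        linarith [hf_pos R]
    · exact hsc y x hr d (by omega) (by omega)
        (hN.struct_floor (a := 0) (k := 8 * E) (d := d) (by omega)) ξ
  have hG : 1 ≤ c.ε ^ 2 * 2 ^ (2 * e) := by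
    change 1 ≤ hf e ^ 2 * 2 ^ (2 * e)
    rw [← hf_mul, mul_comm e 2, hf_mul_two_pow]
  have h1 := struct_nodes H (t := t) (by omega) (fun d y => b0 + g ≤ q' d y ∧ q d y ≤ t)
    (fun d y h => h.2) (fun d y => tav (wave a) (s d y) (N d) y)
    (1000 * (((2 * e : ℕ) : ℝ) + 1) * hf E) 100 c.badv fun y1 hy1 => by
      have hW := struct_restrict H (t := t) (by omega) hy1
        (fun d y => b0 + g ≤ q' d y ∧ q d y ≤ t) fun d y h => h.2
      refine hS ι c hok l t y1 N s _ q q' E (2 * e) rfl rfl hN hs hW (fun d hd y hy h0 => ?_) hG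
      have h2 := hW.lev d hd y hy h0
      have h3 : b0 + g ≤ q' d y ∧ q d y ≤ t := by
        by_contra h4
        exact h0 (if_neg h4)
      exact ⟨hscale _ h3.1 (by omega), hscale _ (by omega) h3.2⟩
  refine h1.trans ?_
  have h2 := struct_badv c hNb1 (D + l) y0
  have h3 : (N b0 : ℝ) ≤ hf E * 2 ^ (D + l) :=
    (hN.struct_le b0).trans (struct_pow_hf (by omega))
  change _ ≤ 3 * (((nd (D + l) y0).filter fun y =>
    ∃ i, ¬ (a i).Good Γ (hf R) ψ (hf (8 * E)) y).card : ℝ) + 9 * (N b0 : ℝ) at h2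
  generalize (((nd (D + l) y0).filter fun y =>
    ∃ i, ¬ (a i).Good Γ (hf R) ψ (hf (8 * E)) y).card) = bad at h2 ⊢
  have h4 : 0 ≤ hf E * 2 ^ (D + l) := mul_nonneg (hf_pos E).le (by positivity)
  rw [mul_assoc]
  generalize hf E * 2 ^ (D + l) = X at h3 h4 ⊢
  push_cast
  have h5 : (0 : ℝ) ≤ bad := Nat.cast_nonneg _
  have h6 : (0 : ℝ) ≤ e * bad := by positivity
  nlinarith

lemma struct_tail {R K n' c b : ℕ} (h1 : R ≤ n') (hc : c = K + n' + 1) (hb : b = 2 * n' + 2 * c) :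
    ((R + K * (b + 2) : ℕ) : ℝ) ≤ 4 * hf n' ^ 2 * ((2 ^ b : ℕ) : ℝ) := by
  have e1 : 4 * hf n' ^ 2 * ((2 ^ b : ℕ) : ℝ) = ((4 * (2 ^ c * 2 ^ c) : ℕ) : ℝ) := by
    have := hf_mul_two_pow n'
    rw [hb]
    push_cast
    calc 4 * hf n' ^ 2 * (2 : ℝ) ^ (2 * n' + 2 * c)
        = 4 * (hf n' * 2 ^ n') ^ 2 * (2 ^ c * 2 ^ c) := by ring
      _ = 4 * (2 ^ c * 2 ^ c) := by rw [this]; ring
  rw [e1, Nat.cast_le]
  have h2 : c < 2 ^ c := Nat.lt_two_pow_self
  have h3 : 2 * K ≤ 2 ^ c := by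
    have : K < 2 ^ K := Nat.lt_two_pow_self
    have : 2 ^ (K + 1) ≤ 2 ^ c := Nat.pow_le_pow_right two_pos (by omega)
    omega
  have h4 : K * (b + 2) ≤ 2 * (2 ^ c * 2 ^ c) := by
    calc K * (b + 2) ≤ K * (4 * c) := Nat.mul_le_mul_left _ (by omega)
      _ = 2 * (2 * K * c) := by ring
      _ ≤ 2 * (2 ^ c * 2 ^ c) := Nat.mul_le_mul_left _ (Nat.mul_le_mul h3 h2.le)
  have h5 : 2 ^ c ≤ 2 ^ c * 2 ^ c := Nat.le_mul_self _
  omega

theorem struct (hK : KillZStmt) (hN : NLStmt) (hC : ChainStmt) (hB : BumpStmt)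
    (hS : StretchStmt) : StructStmt := by
  obtain ⟨CK, hK⟩ := hK
  obtain ⟨CN, hN⟩ := hN
  obtain ⟨CC, hC⟩ := hC
  let P1 : ℕ → ℕ := fun R => ((8 * R) ^ (CN + 1)) ^ CK
  let m0 : ℕ → ℕ := fun R => (R + 4) ^ CC
  let K : ℕ → ℕ := fun R => R + 1 + m0 R * P1 R
  let n' : ℕ → ℕ := fun R => P1 R + R + 2
  let b : ℕ → ℕ := fun R => 2 * n' R + 2 * (K R + n' R + 1)
  let e : ℕ → ℕ := fun R => R + K R * (b R + 2) + 20
  let m1 : ℕ → ℕ := fun R => (K R + b R + 3) ^ CC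
  let g : ℕ → ℕ := fun R => 2 * e R + 2 * R + m0 R + m1 R + 2
  have c := StructPoly.const
  have i := StructPoly.id
  have pP1 : StructPoly P1 := (((c 8).mul i).pow _).pow _
  have pm0 : StructPoly m0 := (i.add (c 4)).pow _
  have pK : StructPoly K := (i.add (c 1)).add (pm0.mul pP1)
  have pn : StructPoly n' := (pP1.add i).add (c 2)
  have pb : StructPoly b := ((c 2).mul pn).add ((c 2).mul ((pK.add pn).add (c 1)))
  have pe : StructPoly e := (i.add (pK.mul (pb.add (c 2)))).add (c 20)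
  have pm1 : StructPoly m1 := ((pK.add pb).add (c 3)).pow _
  have pg : StructPoly g := (((((c 2).mul pe).add ((c 2).mul i)).add pm0).add pm1).add (c 2)
  obtain ⟨C, hCR⟩ : StructPoly fun R => (m0 R + m1 R + 1) * (2000 * e R + 2000 + 4 * g R) :=
    ((pm0.add pm1).add (c 1)).mul ((((c 2000).mul pe).add (c 2000)).add ((c 4).mul pg))
  refine ⟨C, fun R E hR hER ι _ Γ ψ a l D y0 N s κ q q' hι hΓ hψ hr hl1 hl hNs hs H => ?_⟩
  have hCR' : (((m0 R + m1 R + 1) * (2000 * e R + 2000 + 4 * g R) : ℕ) : ℝ) ≤ (R : ℝ) ^ C := by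
    exact_mod_cast hCR R hR
  have hA : ∀ d y, ‖tav (wave a) (s d y) (N d) y‖ ≤ 1 := fun d y =>
    norm_tav_le (fun i y => (norm_ex _).le) _ _ _
  set X := hf E * 2 ^ (D + l) + (((nd (D + l) y0).filter fun y =>
    ∃ i, ¬ (a i).Good Γ (hf R) ψ (hf (8 * E)) y).card : ℝ) with hX
  have hX1 : hf E * 2 ^ (D + l) ≤ X := le_add_of_nonneg_right (Nat.cast_nonneg _)
  have hX0 : 0 ≤ X := le_trans (mul_nonneg (hf_pos E).le (by positivity)) hX1
  refine le_trans ?_ (mul_le_mul_of_nonneg_right hCR' hX0)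
  rcases Nat.eq_zero_or_pos E with rfl | hE
  · refine (struct_osc_triv H hA).trans ?_
    rw [hf_zero, one_mul] at hX1
    refine mul_le_mul ?_ hX1 (by positivity) (by positivity)
    have : 1 * 2 ≤ (m0 R + m1 R + 1) * (2000 * e R + 2000 + 4 * g R) :=
      Nat.mul_le_mul (by omega) (by omega)
    exact_mod_cast this
  have hadd : ∀ j, AddZ Γ (hf R) (ψ j) := fun j => (hψ j).1
  have h81 : 8 * hf (8 * R) ≤ hf R := mul_hf_le (a := 3) (by norm_num) (by omega)
  have hρ1 := hf_pos (8 * R)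
  let M : ℕ → ℕ := fun d => ⌊hf (8 * E) * N d⌋₊
  let low : (ι → ℤ) → ℕ → Prop := fun v d => 1 ≤ M d ∧
    Low Γ (2 * hf (8 * R)) (fun h => (2 : ℤ) • cz ψ v h) (M d) (1 / M d) (hf ((8 * R) ^ CN))
  obtain ⟨E0, hE0a, hE0⟩ := hC (R + 4) (by omega) ι
    (fun d => {v | (∀ j, |v j| ≤ (14 * R : ℕ)) ∧ ∃ d', d ≤ d' ∧ d' ≤ D ∧ low v d'}) D (by omega)
    (fun d v hv => ⟨hv.1, hv.2.imp fun d' h => ⟨by omega, h.2⟩⟩) (fun d v hv j => by
      refine (hv.1 j).trans ?_
      have : R < 2 ^ R := Nat.lt_two_pow_self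
      have : 14 * R ≤ 2 ^ (R + 4) := by rw [pow_add]; omega
      exact_mod_cast this)
  have hkz : ∀ v : ι → ℤ, ∃ Γv : Finset Tor, Γv.card ≤ P1 R ∧ ∀ d', d' ≤ D → low v d' →
      ∃ d'', d' ≤ d'' ∧ ∀ h : ℤ, |h| ≤ M d'' → BZ Γv (hf (P1 R)) h →
        ‖(2 : ℤ) • cz ψ v h‖ ≤ 4 * (1 / (M d'' : ℝ)) := by
    intro v
    by_cases hv : ∃ d', d' ≤ D ∧ low v d'
    · obtain ⟨d0, hd0, hl0⟩ := hv
      have hl := Nat.findGreatest_spec (P := low v) hd0 hl0
      obtain ⟨Γv, h1, h2⟩ := hK ((8 * R) ^ (CN + 1))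
        (le_trans (by omega) (Nat.le_self_pow (Nat.succ_ne_zero CN) (8 * R))) Γ (8 * hf (8 * R)) _
        (fun h => (2 : ℤ) • cz ψ v h) _ hl.1 (((AddZ.cz hadd v).zsmul 2).mono Subset.rfl h81)
        (hl.2.mono (by linarith) le_rfl
          (hf_anti (Nat.pow_le_pow_right (by omega) (Nat.le_succ CN))))
      exact ⟨Γv, h1, fun d' hd' hl' => ⟨_, Nat.le_findGreatest hd' hl', h2⟩⟩
    · exact ⟨∅, by simp, fun d' hd' hl' => (hv ⟨d', hd', hl'⟩).elim⟩
  choose Γv hΓv hkill using hkz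
  let Γ' : Finset Tor := insert (((1 / 2 : ℝ) : ℝ) : Tor) Γ ∪ (E0 0).biUnion Γv
  have hK' : Γ'.card ≤ K R := by
    refine (card_union_le _ _).trans (add_le_add ((card_insert_le _ _).trans (by omega)) ?_)
    exact (card_biUnion_le_card_mul _ _ _ fun v _ => hΓv v).trans
      (Nat.mul_le_mul_right _ (hE0 0 (Nat.zero_le D)).2.1)
  have hε := hf_pos (e R)
  obtain ⟨E1, hE1a, hE1⟩ := hC (K R + b R + 3) (by omega) Γ'
    (fun d => {v | (∀ γ, |v γ| ≤ 8 * ((2 ^ b R : ℕ) : ℤ)) ∧ ‖lin Γ' v‖ < 1 / (hf (e R) * N d)}) D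
    (by rw [Fintype.card_coe]; omega)
    (fun d v hv => ⟨hv.1, hv.2.trans_le (one_div_le_one_div_of_le
      (mul_pos hε (lt_of_lt_of_le (by positivity) (hNs.struct_ge d)))
      (mul_le_mul_of_nonneg_left ((hNs.struct_le d).trans (hNs.struct_ge _)) hε.le))⟩)
    (fun d v hv j => by
      refine (hv.1 j).trans ?_
      have : 8 * 2 ^ b R ≤ 2 ^ (K R + b R + 3) := by
        have : 2 ^ (b R + 3) ≤ 2 ^ (K R + b R + 3) := Nat.pow_le_pow_right two_pos (by omega)
        rw [pow_add] at this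
        omega
      exact_mod_cast this)
  have hsmall : ∀ h, BZ Γ' (hf (n' R)) h → Even h ∧ BZ Γ (hf R / 3) h := by
    intro h hh
    have h1 : hf (n' R) ≤ hf (R + 2) := hf_anti (by simp only [n']; omega)
    rw [hf_succ (R + 1), hf_succ R] at h1
    have := hf_le_one R
    have := hf_pos R
    exact ⟨struct_even (by linarith) (hh _ (mem_union_left _ (mem_insert_self _ _))),
      hh.mono ((subset_insert _ _).trans subset_union_left) (by linarith)⟩
  have hsym : ∀ v : ι → ℤ, (∀ j, |v j| ≤ (14 * R : ℕ)) →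
      SymZ Γ (hf (8 * R)) (cz ψ v) (hf (8 * R + 4)) := by
    intro v hv
    have h1 := SymZ.cz (fun j => SymZ.scale (hψ j).1 (hψ j).2 (by norm_num) (hf_pos R).le (7 * R))
      v _ hv
    rw [← hf_add, show R + 7 * R = 8 * R by ring] at h1
    refine h1.mono Subset.rfl le_rfl ?_
    rw [mul_assoc (1 / 10 : ℝ), ← hf_add, ← mul_assoc]
    refine mul_hf_le (a := R + R + 1) ?_ (by omega)
    have h2 : (Fintype.card ι : ℝ) ≤ R := by exact_mod_cast hι
    have h3 := nat_le_two_pow R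
    have h4 : (0 : ℝ) ≤ R := Nat.cast_nonneg _
    have h5 : (Fintype.card ι : ℝ) * R ≤ 2 ^ R * 2 ^ R :=
      mul_le_mul (h2.trans h3) h3 h4 (by positivity)
    have h6 : (0 : ℝ) ≤ 2 ^ R * 2 ^ R := by positivity
    rw [pow_succ, pow_add]
    push_cast
    linarith
  have hsplit := struct_split H (hf_pos _).le hA (m0 R + m1 R + 1) (g R) (by simp only [g]; omega)
    (fun d => (E0 d).card + (E1 d).card)
    (fun d hd => Nat.lt_succ_of_le (add_le_add (hE0 d hd).2.1 (hE1 d hd).2.1))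
    (B := (2000 * e R + 2000) * X) (by positivity) fun b0 t hbt htD hρ => by
      have s0 : E0 (t + g R) ⊆ E0 b0 := struct_chain_anti hE0a (by omega) htD
      have s1 : E1 (t + g R) ⊆ E1 b0 := struct_chain_anti hE1a (by omega) htD
      have c0 := card_le_card s0
      have c1 := card_le_card s1
      have e0 : E0 (t + g R) = E0 b0 := eq_of_subset_of_card_le s0 (by omega)
      have e1 : E1 (t + g R) = E1 b0 := eq_of_subset_of_card_le s1 (by omega)
      have hb0 : b0 ≤ D := by omega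
      refine struct_one hB hS hE hER a hadd hl1 hl hNs hs H (n' := n' R) (b := b R) (K := K R)
        (m0 := m0 R) (m1 := m1 R) (E0 b0) (E1 b0) hbt htD hK' le_rfl
        (struct_tail (by simp only [n']; omega) rfl rfl) le_rfl hsmall (hE0 b0 hb0).2.1
        (hE1 b0 hb0).2.1 (fun v hv => ?_) (fun y x hr' d h1 h2 h3 ξ => ?_)
        (fun v h1 h2 => (hE1 b0 hb0).2.2 v ⟨h1, h2⟩)
        (fun v hv => ((hE1 _ htD).1 v (e1.symm ▸ hv)).2.le)
      · obtain ⟨-, d', h1, h2, h3⟩ := (hE0 _ htD).1 v (e0.symm ▸ hv)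
        obtain ⟨d'', h4, h5⟩ := hkill v d' h2 h3
        refine ⟨d'', h1.trans h4, fun h hh hb => h5 h hh (hb.mono ?_ (hf_anti ?_))⟩
        · exact (subset_biUnion_of_mem Γv
            (struct_chain_anti hE0a (Nat.zero_le b0) hb0 hv)).trans subset_union_right
        · simp only [n']
          omega
      · have hmu := struct_mu3_le hr y x
        have hlow : ¬ Low Γ (2 * hf (8 * R)) (fun h => (2 : ℤ) • cz ψ (mu3 a y x) h) (M d)
            (1 / M d) (hf ((8 * R) ^ CN)) := fun hL =>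
          hr' ((hE0 b0 hb0).2.2 _ ⟨hmu, d, h1, h2, h3, hL⟩)
        refine (hN (8 * R) (by omega) Γ _ _ _ ξ (by omega) le_rfl h3
          ((AddZ.cz hadd _).mono Subset.rfl (by linarith)) (hsym _ hmu) hlow).trans ?_
        exact mul_le_mul_of_nonneg_right (hf_anti (by omega)) (by positivity)
  refine hsplit.trans ?_
  have h1 : hf (8 * E) * 2 ^ (D + l) ≤ X :=
    (mul_le_mul_of_nonneg_right (hf_anti (by omega)) (by positivity)).trans hX1
  rw [Nat.cast_mul, mul_assoc _ _ X]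
  refine mul_le_mul_of_nonneg_left ?_ (Nat.cast_nonneg _)
  push_cast
  have h2 : (0 : ℝ) ≤ g R := Nat.cast_nonneg _
  nlinarith

end Pool.Agent.Lib.MP_9721b5_an
end
end

-- part Pool.Agent.Lib.MP_9721b5_an.NL
section

/-!
A form that is rarely small gives a small quadratic exponential sum.
-/

set_option autoImplicit false

open Finset
open scoped Classical ComplexConjugate Pointwise

noncomputable section

namespace Pool.Agent.Lib.MP_9721b5_an

lemma nl_parseval {T : ℕ} [NeZero T] (U : Finset ℤ)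
    (hU : ∀ w ∈ U, ∀ w' ∈ U, (w : ZMod T) = w' → w = w') (a : ℤ → Tor) :
    ∑ j : ZMod T, ‖∑ w ∈ U, ex (w • tc j + a w)‖ ^ 2 = T * U.card := by
  have h1 : ∀ j : ZMod T, ((‖∑ w ∈ U, ex (w • tc j + a w)‖ ^ 2 : ℝ) : ℂ) =
      ∑ w ∈ U, ∑ w' ∈ U, ex (a w - a w') * ch (((w : ZMod T) - (w' : ZMod T)) * j) := fun j => by
    rw [← Complex.normSq_eq_norm_sq, ← Complex.mul_conj, map_sum, sum_mul_sum]
    refine sum_congr rfl fun w _ => sum_congr rfl fun w' _ => ?_
    rw [← ex_sub, ch, ← ex_add, sub_mul, tc_sub, zsmul_tc, zsmul_tc]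
    congr 1
    abel
  apply Complex.ofReal_injective
  rw [Complex.ofReal_sum, sum_congr rfl fun j _ => h1 j, sum_comm]
  rw [sum_congr rfl (g := fun _ => (T : ℂ)) fun w hw => ?_]
  · simp [mul_comm]
  rw [sum_comm, sum_eq_single_of_mem w hw fun w' hw' hne => ?_]
  · rw [← mul_sum, sum_ch_mul]
    simp
  · rw [← mul_sum, sum_ch_mul, if_neg fun h => hne (hU _ hw _ hw' (sub_eq_zero.1 h)).symm, mul_zero]

theorem nl : NLStmt := by
  refine ⟨5, fun R hR Γ ρ ψ M ξ hΓ hρ hM hadd hsym hlow => ?_⟩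
  have hη := hf_pos R
  have hρ0 : 0 ≤ ρ := hη.le.trans hρ
  have hM0 : (0 : ℝ) < M := Nat.cast_pos.2 hM
  have hpi := Real.pi_lt_d2
  obtain ⟨T, hT⟩ : ∃ T : ℕ, T = 2 ^ (R + 6) * M := ⟨_, rfl⟩
  have hT1 : 64 * M ≤ T := by
    rw [hT, pow_add]
    exact Nat.mul_le_mul_right _ (Nat.le_mul_of_pos_left _ (by positivity))
  have : NeZero T := ⟨by omega⟩
  have hT2 : hf R * T = 64 * M := by
    rw [hT]
    push_cast
    linear_combination (64 * M : ℝ) * hf_mul_two_pow R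
  have hT0 : (0 : ℝ) < T := Nat.cast_pos.2 (by omega)
  set U := Uset Γ ρ M with hU
  have hUm : ∀ w ∈ U, |w| ≤ M ∧ BZ Γ ρ w := fun w hw => by
    rw [hU, Uset, mem_filter, mem_Icc] at hw
    exact ⟨abs_le.2 hw.1, hw.2⟩
  have hU2 : ∀ w ∈ U, BZ Γ (2 * ρ) w := fun w hw => (hUm w hw).2.le (by linarith)
  choose J hJ using fun h : ℤ => exists_tc_near (p := T) (ξ + (2 : ℤ) • ψ h)
  let G : ZMod T → ℝ := fun j => ‖∑ w ∈ U, ex (w • tc j + w • ψ w)‖
  have h1 : ∀ h ∈ U, ‖∑ w ∈ U, ex ((h + w) • ξ + (h + w) • ψ (h + w))‖ ≤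
      G (J h) + hf R / 2 * U.card := fun h hh => by
    have e : G (J h) = ‖∑ w ∈ U, ex (h • ξ + h • ψ h + (w • tc (J h) + w • ψ w))‖ := by
      simp only [ex_add (h • ξ + h • ψ h), ← mul_sum, norm_mul, norm_ex, one_mul, G]
    rw [e]
    refine (norm_le_insert' _ _).trans (add_le_add le_rfl ?_)
    rw [← sum_sub_distrib, mul_comm, ← nsmul_eq_mul]
    refine (norm_sum_le _ _).trans (sum_le_card_nsmul _ _ _ fun w hw => (ex_sub_ex_le _ _).trans ?_)
    rw [hadd h w (hU2 h hh) (hU2 w hw) (two_mul ρ ▸ (hUm h hh).2.add (hUm w hw).2)]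
    have e1 : (h + w) • ξ + (h + w) • (ψ h + ψ w) - (h • ξ + h • ψ h + (w • tc (J h) + w • ψ w)) =
        (h • ψ w - w • ψ h) + w • (ξ + (2 : ℤ) • ψ h - tc (J h)) := by
      simp only [add_smul, smul_add, smul_sub, two_smul]
      abel
    have e2 := hsym w h (hUm w hw).2 (hUm h hh).2
    have e3 : ‖w • (ξ + (2 : ℤ) • ψ h - tc (J h))‖ ≤ hf R / 64 := by
      have e4 : |(w : ℝ)| ≤ M := by exact_mod_cast (hUm w hw).1
      refine (norm_zsmul_le' _ _).trans ((mul_le_mul e4 (hJ h) (norm_nonneg _) hM0.le).trans ?_)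
      rw [mul_one_div, div_le_iff₀ hT0]
      linarith
    have e4 := norm_add_le_of_le e2 e3
    rw [hf_add, show hf 4 = 1 / 16 by norm_num [hf]] at e4
    rw [e1]
    calc _ ≤ 2 * 3.15 * (hf R * (1 / 16) + hf R / 64) := by gcongr
      _ ≤ _ := by linarith
  have h2 : ∀ j, ((U.filter fun h => J h = j).card : ℝ) ≤ hf (R ^ 5) * M := fun j => by
    rcases (U.filter fun h => J h = j).eq_empty_or_nonempty with h | ⟨h0, hh0⟩
    · rw [h, card_empty, Nat.cast_zero]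
      exact mul_nonneg (hf_pos _).le hM0.le
    refine le_trans (Nat.cast_le.2 (card_le_card_of_injOn (· - h0) (fun h hh => ?_)
      sub_left_injective.injOn)) (not_le.1 hlow).le
    rw [mem_coe, mem_filter] at hh ⊢
    rw [mem_filter] at hh0
    beta_reduce
    have e1 := abs_le.1 (hUm h hh.1).1
    have e2 := abs_le.1 (hUm h0 hh0.1).1
    have e3 : BZ Γ (2 * ρ) (h - h0) := two_mul ρ ▸ (hUm h hh.1).2.sub (hUm h0 hh0.1).2
    refine ⟨mem_Icc.2 (by omega), e3, ?_⟩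
    have e4 : (2 : ℤ) • ψ (h - h0) =
        (ξ + (2 : ℤ) • ψ h - tc (J h)) - (ξ + (2 : ℤ) • ψ h0 - tc (J h0)) := by
      rw [hadd.map_sub (hU2 h hh.1) (hU2 h0 hh0.1) e3, hh.2, hh0.2, smul_sub]
      abel
    rw [e4]
    refine (norm_sub_le_of_le (hJ h) (hJ h0)).trans ?_
    have : (64 * M : ℝ) ≤ T := by exact_mod_cast hT1
    rw [← add_div, div_le_div_iff₀ hT0 hM0]
    linarith
  have h3 : ∑ h ∈ U, G (J h) ^ 2 ≤ hf (R ^ 5) * M * (T * U.card) := by
    rw [← nl_parseval U (fun w hw w' hw' e => ?_) fun w => w • ψ w, mul_sum,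
      ← sum_fiberwise U J fun h => G (J h) ^ 2]
    · refine sum_le_sum fun j _ => ?_
      rw [sum_congr rfl fun h hh => by rw [(mem_filter.1 hh).2], sum_const, nsmul_eq_mul]
      exact mul_le_mul_of_nonneg_right (h2 j) (sq_nonneg _)
    · have e1 := abs_le.1 (hUm w hw).1
      have e2 := abs_le.1 (hUm w' hw').1
      exact (Int.eq_of_sub_eq_zero (Int.eq_zero_of_abs_lt_dvd
        ((ZMod.intCast_eq_intCast_iff_dvd_sub _ _ _).1 e) (abs_lt.2 (by omega)))).symm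
  have h4 : (M : ℝ) * hf (R * R) ≤ U.card := by
    have e1 := card_Uset_ge Γ R M hρ
    have e2 : M ≤ 2 ^ (R * R) * U.card := (Nat.le_succ M).trans (e1.trans
      (Nat.mul_le_mul_right _ (Nat.pow_le_pow_right two_pos (Nat.mul_le_mul_left _ hΓ))))
    have e3 : (M : ℝ) ≤ 2 ^ (R * R) * U.card := by exact_mod_cast e2
    rw [hf_eq_inv, mul_inv_le_iff₀ (by positivity)]
    linarith
  have h5 : hf (R ^ 5) * M * T ≤ (hf R / 2 * U.card) ^ 2 := by
    have e1 : hf (R ^ 5) ≤ hf (R * R + R * R + R + R + R + 8) := hf_anti (by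
      have : 8 * (R * R) ≤ R ^ 5 := by
        rw [show R ^ 5 = R ^ 3 * (R * R) by ring]
        exact Nat.mul_le_mul_right _ (Nat.pow_le_pow_left hR 3)
      nlinarith)
    simp only [hf_add, show hf 8 = 1 / 256 by norm_num [hf]] at e1
    calc _ ≤ hf (R * R) * hf (R * R) * hf R * hf R * hf R * (1 / 256) * M * T := by gcongr
      _ = (hf R / 2 * (M * hf (R * R))) ^ 2 := by
        linear_combination (hf (R * R) ^ 2 * hf R ^ 2 * M / 256) * hT2
      _ ≤ _ := by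
        have := hf_pos (R * R)
        gcongr
  have h6 : ∑ h ∈ U, G (J h) ≤ hf R / 2 * U.card * U.card := by
    refine le_of_sq_le_sq ?_ (by positivity)
    refine sq_sum_le_card_mul_sum_sq.trans ((mul_le_mul_of_nonneg_left h3 U.card.cast_nonneg).trans ?_)
    nlinarith [mul_le_mul_of_nonneg_left h5 (sq_nonneg (U.card : ℝ))]
  refine (norm_sum_le _ _).trans ((sum_le_sum h1).trans ?_)
  rw [sum_add_distrib, sum_const, nsmul_eq_mul]
  linarith

end Pool.Agent.Lib.MP_9721b5_an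
end
end
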