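import Pool.Agent.Lib.MP_9721b5_an.Basic
import Pool.Agent.Lib.MP_9721b5_an.LevelB

-- part Pool.Agent.Lib.MP_9721b5_an.Stretch
section

/-! The oscillation bound inside one stretch of scales. -/

set_option autoImplicit false

open Finset
open scoped Classical ComplexConjugate Pointwise

noncomputable section

namespace Pool.Agent.Lib.MP_9721b5_an

section

variable {ι : Type} [Fintype ι]

lemma stretch_Zpos {c : SCtx ι} (h : c.OK) : 0 < c.Z := by
  have h1 := h.eps0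
  have h2 := h.eps1
  have h3 := h.eta0
  by_contra hz
  have hz' : c.Z ≤ 0 := not_lt.1 hz
  nlinarith

lemma stretch_eps_le {c : SCtx ι} (h : c.OK) : c.ε ≤ 1 / 30000 := by
  have h2 := h.eps1
  have h3 := h.eta0
  have h4 := h.eta1
  have h5 := h.Z1
  have h6 := stretch_Zpos h
  nlinarith

lemma stretch_Npos {c : SCtx ι} (h : c.OK) {N : ℕ} (hN : (c.Nb : ℝ) ≤ c.ε * N) :
    (0 : ℝ) < N ∧ c.Nb ≤ N := by
  have h1 : (1 : ℝ) ≤ c.Nb := by exact_mod_cast h.Nb1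
  have h2 := stretch_eps_le h
  have h3 := h.eps0
  have h4 : (0 : ℝ) ≤ N := Nat.cast_nonneg _
  have h5 : (c.Nb : ℝ) ≤ N := by nlinarith
  exact ⟨by linarith, by exact_mod_cast h5⟩

/-- The real form of the convolution step. -/
lemma stretch_conv (hV : ConvStmt) {c : SCtx ι} (h : c.OK) (a0 : ℤ) (N : ℕ) (Ξ : ℤ → ℝ)
    (hN : (c.Nb : ℝ) ≤ c.ε * N) (hT : ∀ x ∈ Ico a0 (a0 + N), |x| ≤ c.T0) (hΞ : ∀ x, |Ξ x| ≤ 1) :
    |(∑ x ∈ Ico a0 (a0 + N), Ξ x) / N - (∑ x ∈ Icc (1 : ℤ) c.Nb, ∑ k ∈ Ico a0 (a0 + N),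
      bump c.Γ' c.n k * Ξ (x + k)) / (c.Nb * N * c.Z)| ≤ c.η / 10 := by
  have H := hV ι c h a0 N (fun x => (Ξ x : ℂ)) hN hT (by
    intro x
    rw [Complex.norm_real]
    exact hΞ x)
  rw [← Real.norm_eq_abs, ← Complex.norm_real]
  push_cast
  exact H

lemma stretch_mass (hV : ConvStmt) {c : SCtx ι} (h : c.OK) (a0 : ℤ) (N : ℕ)
    (hN : (c.Nb : ℝ) ≤ c.ε * N) (hT : ∀ x ∈ Ico a0 (a0 + N), |x| ≤ c.T0) :
    (1 - c.η / 10) * (N * c.Z) ≤ ∑ k ∈ Ico a0 (a0 + N), bump c.Γ' c.n k ∧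
      ∑ k ∈ Ico a0 (a0 + N), bump c.Γ' c.n k ≤ 2 * (N * c.Z) := by
  have H := stretch_conv hV h a0 N (fun _ => 1) hN hT (by simp)
  have hNp := (stretch_Npos h hN).1
  have hZ := stretch_Zpos h
  have hb : (0 : ℝ) < c.Nb := by exact_mod_cast h.Nb1
  have hη := h.eta1
  set M := ∑ k ∈ Ico a0 (a0 + N), bump c.Γ' c.n k with hM
  have e1 : (∑ _x ∈ Ico a0 (a0 + N), (1 : ℝ)) / N = 1 := by
    simp only [sum_const, Int.card_Ico, add_sub_cancel_left, Int.toNat_natCast, nsmul_eq_mul,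
      mul_one]
    exact div_self hNp.ne'
  have e2 : (∑ _x ∈ Icc (1 : ℤ) c.Nb, ∑ k ∈ Ico a0 (a0 + N), bump c.Γ' c.n k * 1) /
      (c.Nb * N * c.Z) = M / (N * c.Z) := by
    simp only [mul_one, sum_const, Int.card_Icc, add_sub_cancel_right, Int.toNat_natCast,
      nsmul_eq_mul, ← hM]
    field_simp
  rw [e1, e2, abs_le] at H
  have hNZ : 0 < N * c.Z := mul_pos hNp hZ
  constructor
  · rw [← le_div_iff₀ hNZ]; linarith [H.2]
  · rw [← div_le_iff₀ hNZ]; linarith [H.1]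

lemma stretch_bhat_le (hV : ConvStmt) {c : SCtx ι} (h : c.OK) {N : ℕ} {s : ℤ}
    (hN : (c.Nb : ℝ) ≤ c.ε * N) (hT : N ≤ c.T0) (hs : s = 1 ∨ s = -1) (ξ : Tor) :
    ‖bhat c.Γ' c.n s N ξ‖ ≤ 2 * c.Z := by
  obtain ⟨a0, ha, hsum⟩ := sum_sign ℝ hs N
  have hNp := (stretch_Npos h hN).1
  have H := (stretch_mass hV h a0 N hN (fun x hx => (ha x hx).trans (by exact_mod_cast hT))).2
  unfold bhat
  rw [norm_div, Complex.norm_natCast, div_le_iff₀ hNp]
  refine (norm_sum_le _ _).trans ?_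
  have : ∑ j ∈ Icc (1 : ℤ) N, ‖(bump c.Γ' c.n (s * j) : ℂ) * ex ((s * j) • ξ)‖ =
      ∑ j ∈ Icc (1 : ℤ) N, bump c.Γ' c.n (s * j) := by
    refine sum_congr rfl fun j _ => ?_
    rw [norm_mul, norm_ex, mul_one, Complex.norm_real, Real.norm_eq_abs,
      abs_of_nonneg (bump_nonneg _ _ _)]
  rw [this, hsum (bump c.Γ' c.n)]
  linarith

lemma stretch_bhat_sub {c : SCtx ι} (h : c.OK) {N N' : ℕ} {s s' : ℤ}
    (hN' : (c.Nb : ℝ) ≤ c.ε * N') (hNN : N' ≤ N) (hT : N ≤ c.T0) (hs : s = 1 ∨ s = -1)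
    (hs' : s' = 1 ∨ s' = -1) (ξ : Tor)
    (hξ : ¬ (32 * c.ε / N < dz c.Γ' c.n ξ ∧ dz c.Γ' c.n ξ < 1 / (32 * c.ε * N'))) :
    ‖bhat c.Γ' c.n s' N' ξ - bhat c.Γ' c.n s N ξ‖ ≤ 2 * c.η * c.Z := by
  obtain ⟨κ, hκ⟩ := h.dich ξ
  obtain ⟨hp, hb⟩ := stretch_Npos h hN'
  have hNN' : (N' : ℝ) ≤ N := by exact_mod_cast hNN
  have he := h.eps0
  have h3 := h.eps1
  have A := hκ N s hs (hb.trans hNN) hT
  have B := hκ N' s' hs' hb (hNN.trans hT)
  rcases not_and_or.1 hξ with h1 | h1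
  · have h1' := not_lt.1 h1
    have h2 : 32 * c.ε / N ≤ 32 * c.ε / N' := by gcongr
    have a1 := A.1 h1'
    have a2 := B.1 (h1'.trans h2)
    have := norm_sub_le_norm_sub_add_norm_sub (bhat c.Γ' c.n s' N' ξ) κ (bhat c.Γ' c.n s N ξ)
    rw [norm_sub_rev κ] at this
    linarith
  · have h1' := not_lt.1 h1
    have h2 : 1 / (32 * c.ε * N) ≤ 1 / (32 * c.ε * N') := by gcongr
    have a1 := A.2 (h2.trans h1')
    have a2 := B.2 h1'
    have := norm_sub_le (bhat c.Γ' c.n s' N' ξ) (bhat c.Γ' c.n s N ξ)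
    linarith

/-- The points x whose frequency lies in the transition range. -/
def stretch_mid (c : SCtx ι) (N N' : ℕ) (y x : ℤ) : Prop :=
  c.Good3 y x ∧ c.Rk (mu3 c.a y x) ∧
    32 * c.ε / N < dz c.Γ' c.n (rho3 (fun i => (c.a i).Λ) y x) ∧
    dz c.Γ' c.n (rho3 (fun i => (c.a i).Λ) y x) < 1 / (32 * c.ε * N')

def stretch_cnt (c : SCtx ι) (N N' : ℕ) (y : ℤ) : ℝ :=
  ∑ x ∈ Icc (1 : ℤ) c.Nb, if stretch_mid c N N' y x then 1 else 0

lemma stretch_main_sub (hV : ConvStmt) {c : SCtx ι} (h : c.OK) {N N' : ℕ} {s s' : ℤ}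
    (hN' : (c.Nb : ℝ) ≤ c.ε * N') (hNN : N' ≤ N) (hT : N ≤ c.T0) (hs : s = 1 ∨ s = -1)
    (hs' : s' = 1 ∨ s' = -1) (y : ℤ) :
    ‖c.main s' N' y - c.main s N y‖ ≤
      2 * c.η + 4 * c.badv y + 4 * (stretch_cnt c N N' y / c.Nb) := by
  have hb : (0 : ℝ) < c.Nb := by exact_mod_cast h.Nb1
  have hZ := stretch_Zpos h
  have hη := h.eta0
  have hNN' : (N' : ℝ) ≤ N := by exact_mod_cast hNN
  have hN : (c.Nb : ℝ) ≤ c.ε * N := hN'.trans (by have := h.eps0; gcongr)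
  unfold SCtx.main SCtx.badv stretch_cnt
  rw [← sub_div, ← sum_sub_distrib, norm_div, Complex.norm_natCast, div_le_iff₀ hb]
  refine (norm_sum_le _ _).trans ?_
  have e : (2 * c.η + 4 * ((((Icc (1 : ℤ) c.Nb).filter fun x => ¬ c.Good3 y x).card : ℝ) / c.Nb) +
      4 * ((∑ x ∈ Icc (1 : ℤ) c.Nb, if stretch_mid c N N' y x then (1 : ℝ) else 0) / c.Nb)) *
      c.Nb = ∑ x ∈ Icc (1 : ℤ) c.Nb, (2 * c.η + 4 * (if ¬ c.Good3 y x then (1 : ℝ) else 0) +
        4 * (if stretch_mid c N N' y x then (1 : ℝ) else 0)) := by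
    rw [sum_add_distrib, sum_add_distrib, ← mul_sum, ← mul_sum, ← mul_sum, card_filter]
    simp only [sum_const, Int.card_Icc, add_sub_cancel_right, Int.toNat_natCast, nsmul_eq_mul]
    push_cast
    field_simp
  rw [e]
  refine sum_le_sum fun x _ => ?_
  have i1 : (0 : ℝ) ≤ if ¬ c.Good3 y x then 1 else 0 := by split_ifs <;> norm_num
  have i2 : (0 : ℝ) ≤ if stretch_mid c N N' y x then 1 else 0 := by split_ifs <;> norm_num
  by_cases hR : c.Rk (mu3 c.a y x)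
  · rw [if_pos hR, if_pos hR, ← mul_sub, ← sub_div, norm_mul, norm_ex, one_mul, norm_div,
      Complex.norm_real, Real.norm_eq_abs, abs_of_pos hZ, div_le_iff₀ hZ]
    set ξ := rho3 (fun i => (c.a i).Λ) y x with hξ
    have b4 : ‖bhat c.Γ' c.n s' N' ξ - bhat c.Γ' c.n s N ξ‖ ≤ 4 * c.Z := by
      have := norm_sub_le (bhat c.Γ' c.n s' N' ξ) (bhat c.Γ' c.n s N ξ)
      have b1 := stretch_bhat_le hV h hN' (hNN.trans hT) hs' ξ
      have b2 := stretch_bhat_le hV h hN hT hs ξ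
      linarith
    by_cases hG : c.Good3 y x
    · by_cases hm : stretch_mid c N N' y x
      · rw [if_pos hm]
        nlinarith [mul_nonneg i1 hZ.le, mul_pos hη hZ]
      · have := stretch_bhat_sub h hN' hNN hT hs hs' ξ (fun hh => hm ⟨hG, hR, hh.1, hh.2⟩)
        nlinarith [mul_nonneg i1 hZ.le, mul_nonneg i2 hZ.le]
    · rw [if_pos hG]
      nlinarith [mul_nonneg i2 hZ.le, mul_pos hη hZ]
  · rw [if_neg hR, if_neg hR, sub_self, norm_zero]
    linarith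

/-- A small shift keeps the frequency in a slightly larger range. -/
lemma stretch_shift {c : SCtx ι} (h : c.OK) {N N' : ℕ} (hN' : (c.Nb : ℝ) ≤ c.ε * N')
    (hNN : N' ≤ N) (hT : N ≤ c.T0) {y x k : ℤ} (hm : stretch_mid c N N' y x) (hk : |k| ≤ c.T0)
    (hB : BZ c.Γ' c.ρ' k) :
    16 * c.ε / N ≤ dz c.Γ' c.n (rho3 (fun i => (c.a i).Λ) y (x + k)) ∧
      dz c.Γ' c.n (rho3 (fun i => (c.a i).Λ) y (x + k)) ≤ 1 / (16 * c.ε * N') := by
  obtain ⟨hG, hR, h1, h2⟩ := hm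
  have hs := (shift3 h.add h.rho c.a (hG.1.inner h.rho) (hG.2.1.inner h.rho)
    (hG.2.2.inner h.rho) (h.small k hB).2).2.1
  have hk' := h.kill y x hR k hk hB
  have hl := (dz_lip c.Γ' c.n (rho3 (fun i => (c.a i).Λ) y x)
    ((2 : ℤ) • cz c.ψ (mu3 c.a y x) k)).trans hk'
  rw [← hs, abs_le] at hl
  have hp := (stretch_Npos h hN').1
  have hNN' : (N' : ℝ) ≤ N := by exact_mod_cast hNN
  have hT' : (N : ℝ) ≤ c.T0 := by exact_mod_cast hT
  have he := h.eps0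
  have he1 := stretch_eps_le h
  have hNp : (0 : ℝ) < N := by linarith
  have hTp : (0 : ℝ) < c.T0 := by linarith
  have a1 : c.ε / c.T0 ≤ 16 * c.ε / N := by
    rw [div_le_div_iff₀ hTp hNp]; nlinarith
  have a2 : c.ε / c.T0 ≤ 1 / (32 * c.ε * N') := by
    rw [div_le_div_iff₀ hTp (by positivity)]
    have : c.ε * (32 * c.ε) ≤ 1 := by nlinarith
    nlinarith
  have a3 : 32 * c.ε / N = 16 * c.ε / N + 16 * c.ε / N := by ring
  have a4 : 1 / (16 * c.ε * N') = 1 / (32 * c.ε * N') + 1 / (32 * c.ε * N') := by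
    field_simp; norm_num
  constructor
  · linarith [hl.1]
  · linarith [hl.2]

/-- The small shifts carry at least half of the mass of the bump. -/
lemma stretch_small (hV : ConvStmt) {c : SCtx ι} (h : c.OK) :
    c.T0 * c.Z / 2 ≤ ∑ k ∈ Ico (0 : ℤ) (0 + c.T0),
      if BZ c.Γ' c.ρ' k then bump c.Γ' c.n k else 0 := by
  have hT : ∀ x ∈ Ico (0 : ℤ) (0 + c.T0), |x| ≤ c.T0 := by
    intro x hx
    rw [mem_Ico] at hx
    rw [abs_of_nonneg hx.1]; omega
  have H := (stretch_mass hV h 0 c.T0 h.NbT hT).1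
  have hZ := stretch_Zpos h
  have hη := h.eta0
  have hη1 := h.eta1
  have hTp := (stretch_Npos h h.NbT).1
  have H2 : ∑ k ∈ Ico (0 : ℤ) (0 + c.T0), bump c.Γ' c.n k ≤ ∑ k ∈ Ico (0 : ℤ) (0 + c.T0),
      ((if BZ c.Γ' c.ρ' k then bump c.Γ' c.n k else 0) + c.η * c.Z) := by
    refine sum_le_sum fun k _ => ?_
    split_ifs with hk
    · have := mul_pos hη hZ
      linarith
    · have := h.tail k hk
      linarith
  rw [sum_add_distrib] at H2
  simp only [sum_const, Int.card_Ico, add_sub_cancel_left, Int.toNat_natCast, nsmul_eq_mul] at H2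
  have hTZ := mul_pos hTp hZ
  nlinarith

/-- The transition count is bounded by the count over a long window. -/
lemma stretch_count (hV : ConvStmt) {c : SCtx ι} (h : c.OK) (y : ℤ) (D : ℕ) (κ : ℕ → ℝ)
    (N N' : ℕ → ℕ) (hκ : ∀ d, 0 ≤ κ d) (h1 : ∑ d ∈ range D, κ d ≤ 1)
    (hN : ∀ d ∈ range D, κ d ≠ 0 → (c.Nb : ℝ) ≤ c.ε * N' d ∧ N' d ≤ N d ∧ N d ≤ c.T0) :
    ∑ d ∈ range D, κ d * (stretch_cnt c (N d) (N' d) y / c.Nb) ≤
      2 * ((∑ x ∈ Ico (0 : ℤ) c.T0, ∑ d ∈ range D,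
        if 16 * c.ε / N d ≤ dz c.Γ' c.n (rho3 (fun i => (c.a i).Λ) y x) ∧
          dz c.Γ' c.n (rho3 (fun i => (c.a i).Λ) y x) ≤ 1 / (16 * c.ε * N' d)
        then κ d else 0) / c.T0 + c.η / 10) := by
  set Ξ : ℤ → ℝ := fun x => ∑ d ∈ range D,
    if 16 * c.ε / N d ≤ dz c.Γ' c.n (rho3 (fun i => (c.a i).Λ) y x) ∧
      dz c.Γ' c.n (rho3 (fun i => (c.a i).Λ) y x) ≤ 1 / (16 * c.ε * N' d)
    then κ d else 0 with hΞ
  have hT : ∀ x ∈ Ico (0 : ℤ) (0 + c.T0), |x| ≤ c.T0 := by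
    intro x hx
    rw [mem_Ico] at hx
    rw [abs_of_nonneg hx.1]; omega
  have hΞ0 : ∀ x, 0 ≤ Ξ x := fun x => sum_nonneg fun d _ => by
    split_ifs
    · exact hκ d
    · exact le_rfl
  have hΞ1 : ∀ x, |Ξ x| ≤ 1 := fun x => by
    rw [abs_of_nonneg (hΞ0 x)]
    refine le_trans (sum_le_sum fun d _ => ?_) h1
    split_ifs
    · exact le_rfl
    · exact hκ d
  have H := (abs_le.1 (stretch_conv hV h 0 c.T0 Ξ h.NbT hT hΞ1)).1
  have hS := stretch_small hV h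
  have hZ := stretch_Zpos h
  have hTp := (stretch_Npos h h.NbT).1
  have hb : (0 : ℝ) < c.Nb := by exact_mod_cast h.Nb1
  set W : ℤ → ℝ := fun x => ∑ d ∈ range D,
    κ d * (if stretch_mid c (N d) (N' d) y x then 1 else 0) with hW
  have hW0 : ∀ x, 0 ≤ W x := fun x => sum_nonneg fun d _ => mul_nonneg (hκ d) (by
    split_ifs <;> norm_num)
  have key : ∀ x, c.T0 * c.Z / 2 * W x ≤
      ∑ k ∈ Ico (0 : ℤ) (0 + c.T0), bump c.Γ' c.n k * Ξ (x + k) := by
    intro x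
    refine (mul_le_mul_of_nonneg_right hS (hW0 x)).trans ?_
    rw [sum_mul]
    refine sum_le_sum fun k hk => ?_
    split_ifs with hB
    · refine mul_le_mul_of_nonneg_left ?_ (bump_nonneg _ _ _)
      refine sum_le_sum fun d hd => ?_
      by_cases hz : κ d = 0
      · simp [hz]
      · by_cases hm : stretch_mid c (N d) (N' d) y x
        · obtain ⟨n1, n2, n3⟩ := hN d hd hz
          rw [if_pos hm, if_pos (stretch_shift h n1 n2 n3 hm (hT k hk) hB), mul_one]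
        · rw [if_neg hm, mul_zero]
          split_ifs
          · exact hκ d
          · exact le_rfl
    · rw [zero_mul]
      exact mul_nonneg (bump_nonneg _ _ _) (hΞ0 _)
  have e1 : ∑ d ∈ range D, κ d * (stretch_cnt c (N d) (N' d) y / c.Nb) =
      (∑ x ∈ Icc (1 : ℤ) c.Nb, W x) / c.Nb := by
    simp only [hW, stretch_cnt]
    rw [sum_comm, sum_div]
    refine sum_congr rfl fun d _ => ?_
    rw [← mul_sum, mul_div_assoc]
  have e2 : (∑ x ∈ Icc (1 : ℤ) c.Nb, W x) / c.Nb / 2 ≤ (∑ x ∈ Icc (1 : ℤ) c.Nb,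
      ∑ k ∈ Ico (0 : ℤ) (0 + c.T0), bump c.Γ' c.n k * Ξ (x + k)) / (c.Nb * c.T0 * c.Z) := by
    have := sum_le_sum fun x (_ : x ∈ Icc (1 : ℤ) c.Nb) => key x
    rw [← mul_sum] at this
    rw [le_div_iff₀ (by positivity)]
    refine le_trans (le_of_eq ?_) this
    field_simp
  rw [e1]
  rw [zero_add] at H e2
  linarith

lemma stretch_scales {N : ℕ → ℕ} (hN : Scales N) {a b : ℕ} (hab : a ≤ b) : N a ≤ N b := by
  rcases hab.eq_or_lt with rfl | hlt
  · exact le_rfl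
  · have h1 := (hN a).2
    have h2 := (hN b).1
    have h3 : 2 ^ (a + 1) ≤ 2 ^ b := Nat.pow_le_pow_right (by norm_num) hlt
    omega

lemma stretch_tie_lev {N : ℕ → ℕ} (hN : Scales N) {ε : ℝ} (he : 0 < ε) {G a b : ℕ}
    (hG : 1 ≤ ε ^ 2 * 2 ^ G) (h : 16 * ε / N a ≤ 8 * (1 / (16 * ε * N b))) : b ≤ a + G := by
  have a1 : ((2 : ℝ)) ^ b ≤ N b := by exact_mod_cast (hN b).1
  have a2 : (N a : ℝ) < 2 ^ (a + 1) := by exact_mod_cast (hN a).2
  have a3 : ((2 : ℝ)) ^ a ≤ N a := by exact_mod_cast (hN a).1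
  have pa : (0 : ℝ) < 2 ^ a := by positivity
  have pb : (0 : ℝ) < 2 ^ b := by positivity
  have pG : (0 : ℝ) < 2 ^ G := by positivity
  have na : (0 : ℝ) < N a := by linarith
  have nb : (0 : ℝ) < N b := by linarith
  rw [mul_one_div, div_le_div_iff₀ na (by positivity)] at h
  have b1 : 32 * ε ^ 2 * N b ≤ N a := by nlinarith
  have b2 : 32 * ε ^ 2 * 2 ^ b ≤ 2 * 2 ^ a := by
    have : 32 * ε ^ 2 * 2 ^ b ≤ 32 * ε ^ 2 * N b := by gcongr
    rw [pow_succ] at a2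
    linarith
  have b3 : (2 : ℝ) ^ b ≤ 2 ^ (a + G) := by
    rw [pow_add]
    have c1 : (2 : ℝ) ^ b ≤ ε ^ 2 * 2 ^ G * 2 ^ b := by nlinarith
    have c2 : ε ^ 2 * 2 ^ b ≤ 2 ^ a := by nlinarith [sq_nonneg ε]
    nlinarith
  exact (pow_le_pow_iff_right₀ (by norm_num : (1 : ℝ) < 2)).1 b3

/-- The weight of the pairs that begin at most G levels above P and end above P. -/
lemma stretch_half {l t : ℕ} {y0 : ℤ} {κ : ℕ → ℤ → ℝ} {q q' : ℕ → ℤ → ℕ} {η : ℝ}
    (H : Wts l t y0 κ q q' η) (P G : ℕ) :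
    (∑ y ∈ nd (t + l) y0, ∑ d ∈ range (t + 1), if d ≤ P + G ∧ P ≤ q d y then κ d y else 0) ≤
      (G + 1) * η * 2 ^ (t + l) := by
  have A : ∀ i ∈ range (G + 1), (∑ y ∈ nd (t + l) y0, ∑ d ∈ range (t + 1),
      if d ≤ min (P + i) t ∧ min (P + i) t ≤ q d y then κ d y else 0) ≤ η * 2 ^ (t + l) :=
    fun i _ => H.cross_le le_rfl (self_mem_nd _ _) _ (min_le_right _ _)
  have B := sum_le_sum A
  rw [sum_const, card_range, nsmul_eq_mul] at B
  push_cast at B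
  rw [mul_assoc]
  refine le_trans ?_ B
  rw [sum_comm (s := range (G + 1))]
  refine sum_le_sum fun y hy => ?_
  rw [sum_comm (s := range (G + 1))]
  refine sum_le_sum fun d hd => ?_
  have nn : ∀ i ∈ range (G + 1),
      0 ≤ if d ≤ min (P + i) t ∧ min (P + i) t ≤ q d y then κ d y else 0 := by
    intro i _
    split_ifs
    · exact H.nn d y
    · exact le_rfl
  split_ifs with hc
  · by_cases hz : κ d y = 0
    · rw [hz]; simp
    · have hd' : d ≤ t := by rw [mem_range] at hd; omega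
      obtain ⟨l1, l2, l3⟩ := H.lev d hd' y hy hz
      have hi : max d P - P ∈ range (G + 1) := by rw [mem_range]; omega
      refine le_trans ?_ (single_le_sum nn hi)
      rw [if_pos (by omega)]
  · exact sum_nonneg nn

lemma stretch_tie {l t : ℕ} {y0 : ℤ} {κ : ℕ → ℤ → ℝ} {q q' : ℕ → ℤ → ℕ} {η : ℝ}
    (H : Wts l t y0 κ q q' η) (hη : 0 ≤ η) {N : ℕ → ℕ} (hN : Scales N) {ε : ℝ} (he : 0 < ε)
    {G : ℕ} (hG : 1 ≤ ε ^ 2 * 2 ^ G) :
    (∑ y ∈ nd (t + l) y0, ∑ y' ∈ nd (t + l) y0, ∑ d ∈ range (t + 1), ∑ d' ∈ range (t + 1),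
      if 16 * ε / N (q d y) ≤ 8 * (1 / (16 * ε * N (q' d' y'))) ∧
        16 * ε / N (q d' y') ≤ 8 * (1 / (16 * ε * N (q' d y))) then κ d y * κ d' y' else 0) ≤
      2 * (G + 1) * η * ((2 : ℝ) ^ (t + l)) ^ 2 := by
  set F : ℤ → ℤ → ℕ → ℕ → ℝ := fun y y' d d' =>
    κ d y * (if d' ≤ q d y + G ∧ q d y ≤ q d' y' then κ d' y' else 0) with hF
  have F0 : ∀ y y' d d', 0 ≤ F y y' d d' := fun y y' d d' => mul_nonneg (H.nn _ _) (by
    split_ifs
    · exact H.nn _ _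
    · exact le_rfl)
  have S1 : (∑ y ∈ nd (t + l) y0, ∑ y' ∈ nd (t + l) y0, ∑ d ∈ range (t + 1),
      ∑ d' ∈ range (t + 1), F y y' d d') ≤ (G + 1) * η * ((2 : ℝ) ^ (t + l)) ^ 2 := by
    have : ∀ y ∈ nd (t + l) y0, (∑ y' ∈ nd (t + l) y0, ∑ d ∈ range (t + 1),
        ∑ d' ∈ range (t + 1), F y y' d d') ≤ (G + 1) * η * 2 ^ (t + l) := by
      intro y hy
      rw [sum_comm]
      have b : ∀ d ∈ range (t + 1), (∑ y' ∈ nd (t + l) y0, ∑ d' ∈ range (t + 1), F y y' d d') ≤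
          κ d y * ((G + 1) * η * 2 ^ (t + l)) := by
        intro d _
        simp only [hF, ← mul_sum]
        exact mul_le_mul_of_nonneg_left (stretch_half H (q d y) G) (H.nn _ _)
      refine (sum_le_sum b).trans ?_
      rw [← sum_mul]
      exact mul_le_of_le_one_left (by positivity) (H.one y hy)
    refine (sum_le_sum this).trans (le_of_eq ?_)
    rw [sum_const, card_nd, nsmul_eq_mul]
    push_cast
    ring
  have S2 : (∑ y ∈ nd (t + l) y0, ∑ y' ∈ nd (t + l) y0, ∑ d ∈ range (t + 1),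
      ∑ d' ∈ range (t + 1), F y' y d' d) = ∑ y ∈ nd (t + l) y0, ∑ y' ∈ nd (t + l) y0,
      ∑ d ∈ range (t + 1), ∑ d' ∈ range (t + 1), F y y' d d' := by
    rw [sum_comm]
    refine sum_congr rfl fun y _ => sum_congr rfl fun y' _ => ?_
    rw [sum_comm]
  have S3 : (∑ y ∈ nd (t + l) y0, ∑ y' ∈ nd (t + l) y0, ∑ d ∈ range (t + 1),
      ∑ d' ∈ range (t + 1), (F y y' d d' + F y' y d' d)) ≤
      2 * (G + 1) * η * ((2 : ℝ) ^ (t + l)) ^ 2 := by
    simp only [sum_add_distrib]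
    rw [S2]
    linarith
  refine le_trans ?_ S3
  refine sum_le_sum fun y hy => sum_le_sum fun y' hy' => sum_le_sum fun d hd =>
    sum_le_sum fun d' hd' => ?_
  have f1 := F0 y y' d d'
  have f2 := F0 y' y d' d
  split_ifs with hc
  · by_cases hz : κ d y = 0
    · rw [hz, zero_mul]; linarith
    by_cases hz' : κ d' y' = 0
    · rw [hz', mul_zero]; linarith
    rw [mem_range] at hd hd'
    have l1 := (H.lev d (by omega) y hy hz).1
    have l2 := (H.lev d' (by omega) y' hy' hz').1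
    have t1 := stretch_tie_lev hN he hG hc.1
    have t2 := stretch_tie_lev hN he hG hc.2
    rcases le_total (q d y) (q d' y') with hq | hq
    · have : F y y' d d' = κ d y * κ d' y' := by
        simp only [hF]
        rw [if_pos ⟨by omega, hq⟩]
      linarith
    · have : F y' y d' d = κ d y * κ d' y' := by
        simp only [hF]
        rw [if_pos ⟨by omega, hq⟩, mul_comm]
      linarith
  · linarith

lemma stretch_root {x : ℝ} {G E : ℕ} (h : x ^ 8 ≤ 64 * (2 * (G + 1) * hf (8 * E))) :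
    x ≤ 2 * (G + 1) * hf E := by
  have hp := hf_pos E
  have hG : (1 : ℝ) ≤ G + 1 := by have : (0 : ℝ) ≤ G := Nat.cast_nonneg _; linarith
  refine le_of_pow_le_pow_left₀ (n := 8) (by norm_num) (by positivity) (h.trans ?_)
  rw [mul_comm 8 E, hf_mul, mul_pow, mul_pow]
  have h1 : (G + 1 : ℝ) ≤ (G + 1) ^ 8 := le_self_pow₀ hG (by norm_num)
  have h2 : 0 < hf E ^ 8 := by positivity
  nlinarith

end

theorem stretch (hV : ConvStmt) (hP : PointStmt) (hC : CubeStmt) : StretchStmt := by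
  intro ι _ c h l t y0 N s κ q q' E G hT0 hη hN hs hW hSc hG
  have hTp := (stretch_Npos h h.NbT).1
  have hTr : (c.T0 : ℝ) = 2 ^ (t + l) := by rw [hT0]; push_cast; rfl
  have hnd : nd (t + l) y0 = Ico (y0 / 2 ^ (t + l) * 2 ^ (t + l))
      (y0 / 2 ^ (t + l) * 2 ^ (t + l) + (c.T0 : ℤ)) := by
    rw [hT0]; push_cast; rfl
  have he := h.eps0
  have hη0 := h.eta0
  have hb : (0 : ℝ) < c.Nb := by exact_mod_cast h.Nb1
  have hlev : ∀ y ∈ nd (t + l) y0, ∀ d ∈ range (t + 1), κ d y ≠ 0 →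
      (c.Nb : ℝ) ≤ c.ε * N (q' d y) ∧ N (q' d y) ≤ N (q d y) ∧ N (q d y) ≤ c.T0 := by
    intro y hy d hd hz
    have hd' : d ≤ t := by rw [mem_range] at hd; omega
    obtain ⟨s1, s2⟩ := hSc d hd' y hy hz
    exact ⟨s1.1, stretch_scales hN (hW.lev d hd' y hy hz).2.1, s2.2.1⟩
  -- the cube lemma
  have hT1 : 1 ≤ c.T0 := by rw [hT0]; exact Nat.one_le_two_pow
  have cube := hC c.Γ' c.n c.ε c.T0 c.Nb (fun i => (c.a i).Λ) (y0 / 2 ^ (t + l) * 2 ^ (t + l))
    c.T0 (t + 1) κ (fun d y => 16 * c.ε / N (q d y)) (fun d y => 1 / (16 * c.ε * N (q' d y)))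
    (2 * (G + 1) * c.η) he h.Nb1 hT1 hT1 h.stab hW.nn (by rw [← hnd]; exact hW.one) (by
      rw [← hnd]
      intro d hd y hy hz
      obtain ⟨n1, n2, n3⟩ := hlev y hy d (mem_range.2 hd) hz
      obtain ⟨p1, p2⟩ := stretch_Npos h n1
      have n2' : (N (q' d y) : ℝ) ≤ N (q d y) := by exact_mod_cast n2
      have n3' : (N (q d y) : ℝ) ≤ c.T0 := by exact_mod_cast n3
      have p2' : (c.Nb : ℝ) ≤ N (q' d y) := by exact_mod_cast p2
      constructor
      · have : (0 : ℝ) < N (q d y) := by linarith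
        gcongr
      · refine one_div_le_one_div_of_le (by positivity) ?_
        nlinarith) (by
      rw [← hnd, hTr]
      exact stretch_tie hW hη0.le hN he hG)
  rw [← hnd, hη] at cube
  have cube2 := stretch_root cube
  rw [div_le_iff₀ (by positivity)] at cube2
  set S : ℤ → ℝ := fun y => ∑ x ∈ Ico (0 : ℤ) c.T0, ∑ d ∈ range (t + 1),
    if 16 * c.ε / N (q d y) ≤ dz c.Γ' c.n (rho3 (fun i => (c.a i).Λ) y x) ∧
      dz c.Γ' c.n (rho3 (fun i => (c.a i).Λ) y x) ≤ 1 / (16 * c.ε * N (q' d y))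
    then κ d y else 0 with hS
  have cube3 : ∑ y ∈ nd (t + l) y0, S y ≤ 2 * (G + 1) * hf E * (16 * (c.T0 : ℝ) ^ 2) := cube2
  -- the bound at one point
  have pt : ∀ y ∈ nd (t + l) y0, ∑ d ∈ range (t + 1), κ d y *
      ‖tav (wave c.a) (s (q' d y) y) (N (q' d y)) y - tav (wave c.a) (s (q d y) y) (N (q d y)) y‖
      ≤ 203 * c.η + 24 * c.badv y + 8 * (S y / c.T0) := by
    intro y hy
    have hbad : 0 ≤ c.badv y := by unfold SCtx.badv; positivity
    have b : ∀ d ∈ range (t + 1), κ d y * ‖tav (wave c.a) (s (q' d y) y) (N (q' d y)) y -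
        tav (wave c.a) (s (q d y) y) (N (q d y)) y‖ ≤ κ d y * (202 * c.η + 24 * c.badv y) +
        4 * (κ d y * (stretch_cnt c (N (q d y)) (N (q' d y)) y / c.Nb)) := by
      intro d hd
      by_cases hz : κ d y = 0
      · simp [hz]
      have hd' : d ≤ t := by rw [mem_range] at hd; omega
      obtain ⟨s1, s2⟩ := hSc d hd' y hy hz
      obtain ⟨n1, n2, n3⟩ := hlev y hy d hd hz
      have p1 := hP ι c h _ _ y s1 (hs (q' d y) y)
      have p2 := hP ι c h _ _ y s2 (hs (q d y) y)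
      have p3 := stretch_main_sub hV h n1 n2 n3 (hs (q d y) y) (hs (q' d y) y) y
      have t1 := norm_sub_le_norm_sub_add_norm_sub (tav (wave c.a) (s (q' d y) y) (N (q' d y)) y)
        (c.main (s (q' d y) y) (N (q' d y)) y) (tav (wave c.a) (s (q d y) y) (N (q d y)) y)
      have t2 := norm_sub_le_norm_sub_add_norm_sub (c.main (s (q' d y) y) (N (q' d y)) y)
        (c.main (s (q d y) y) (N (q d y)) y) (tav (wave c.a) (s (q d y) y) (N (q d y)) y)
      rw [norm_sub_rev] at p2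
      have t3 : ‖tav (wave c.a) (s (q' d y) y) (N (q' d y)) y -
          tav (wave c.a) (s (q d y) y) (N (q d y)) y‖ ≤ (202 * c.η + 24 * c.badv y) +
          4 * (stretch_cnt c (N (q d y)) (N (q' d y)) y / c.Nb) := by linarith
      have := mul_le_mul_of_nonneg_left t3 (hW.nn d y)
      linarith
    refine (sum_le_sum b).trans ?_
    rw [sum_add_distrib, ← sum_mul, ← mul_sum]
    have c1 := stretch_count hV h y (t + 1) (fun d => κ d y) (fun d => N (q d y))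
      (fun d => N (q' d y)) (fun d => hW.nn d y) (hW.one y hy) (hlev y hy)
    have c2 : (∑ d ∈ range (t + 1), κ d y) * (202 * c.η + 24 * c.badv y) ≤
        202 * c.η + 24 * c.badv y := mul_le_of_le_one_left (by positivity) (hW.one y hy)
    have c3 : ∑ d ∈ range (t + 1), κ d y * (stretch_cnt c (N (q d y)) (N (q' d y)) y / c.Nb) ≤
        2 * (S y / c.T0 + c.η / 10) := c1
    linarith
  unfold Osc
  refine (sum_le_sum pt).trans ?_
  rw [sum_add_distrib, sum_add_distrib, sum_const, card_nd, nsmul_eq_mul, ← mul_sum, ← mul_sum,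
    ← sum_div]
  push_cast
  rw [← hTr]
  have hbs : 0 ≤ ∑ y ∈ nd (t + l) y0, c.badv y := sum_nonneg fun y _ => by
    unfold SCtx.badv; positivity
  have d1 : (∑ y ∈ nd (t + l) y0, S y) / c.T0 ≤ 32 * ((G + 1) * hf E * c.T0) := by
    rw [div_le_iff₀ hTp]
    refine cube3.trans (le_of_eq ?_)
    ring
  have d2 : c.η ≤ (G + 1) * hf E := by
    have a1 : c.η ≤ hf E := by rw [hη]; exact hf_anti (by omega)
    have a2 : (0 : ℝ) ≤ G := Nat.cast_nonneg _
    have a3 := hf_pos E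
    nlinarith
  have d3 : c.T0 * c.η ≤ (G + 1) * hf E * c.T0 := by nlinarith
  have d4 : 0 ≤ (G + 1) * hf E * c.T0 := by have := hf_pos E; positivity
  nlinarith

end Pool.Agent.Lib.MP_9721b5_an
end
end

-- part Pool.Agent.Lib.MP_9721b5_an.Point
section

/-! The convolution lemma and the pointwise description of the trilinear average of three
locally quadratic phases. -/

set_option autoImplicit false

open Finset
open scoped Classical ComplexConjugate Pointwise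

noncomputable section

namespace Pool.Agent.Lib.MP_9721b5_an

lemma point_Z_pos {ι : Type} [Fintype ι] {c : SCtx ι} (hc : c.OK) : 0 < c.Z := by
  have h1 := hc.eps1
  have h2 := hc.eps0
  have h3 := hc.eta0
  by_contra h
  push Not at h
  nlinarith

lemma point_Nb_pos {ι : Type} [Fintype ι] {c : SCtx ι} (hc : c.OK) : (0 : ℝ) < c.Nb := by
  have := hc.Nb1
  exact_mod_cast this

lemma point_N_pos {ι : Type} [Fintype ι] {c : SCtx ι} (hc : c.OK) {N : ℕ}
    (hN : (c.Nb : ℝ) ≤ c.ε * N) : (0 : ℝ) < N := by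
  have h1 := point_Nb_pos hc
  have h2 := hc.eps0
  by_contra h
  push Not at h
  nlinarith

lemma point_card_Ico (a0 : ℤ) (N : ℕ) : ((Ico a0 (a0 + N)).card : ℝ) = N := by
  simp

lemma point_card_Icc (N : ℕ) : ((Icc (1 : ℤ) N).card : ℝ) = N := by
  simp

lemma point_norm_bump (Γ : Finset Tor) (n : ℕ) (h : ℤ) (z : ℂ) :
    ‖(bump Γ n h : ℂ) * z‖ = bump Γ n h * ‖z‖ := by
  rw [norm_mul, Complex.norm_real, Real.norm_of_nonneg (bump_nonneg _ _ _)]

theorem conv : ConvStmt := by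
  intro ι _ c hc a0 N Ξ hN hW hΞ
  have hZ := point_Z_pos hc
  have hNb := point_Nb_pos hc
  have hN0 := point_N_pos hc hN
  have hε := hc.eps0
  set W := Ico a0 (a0 + N) with hWd
  have h1 : ∀ x ∈ Icc (1 : ℤ) c.Nb, ‖∑ h ∈ W, (bump c.Γ' c.n h : ℂ) * Ξ (x + h) -
      ∑ z ∈ W, (bump c.Γ' c.n (z - x) : ℂ) * Ξ z‖ ≤ 2 * c.Nb := by
    intro x hx
    have := sum_shift_le (fun z => (bump c.Γ' c.n (z - x) : ℂ) * Ξ z) (fun z => by
      rw [point_norm_bump]
      exact mul_le_one₀ (bump_le_one _ _ _) (norm_nonneg _) (hΞ z)) a0 (a0 + N) x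
    simp only [add_sub_cancel_right] at this
    simp only [add_comm x]
    refine this.trans ?_
    rw [mem_Icc] at hx
    have h2 : (0 : ℝ) ≤ x := by exact_mod_cast (by omega : (0 : ℤ) ≤ x)
    have h3 : (x : ℝ) ≤ c.Nb := by exact_mod_cast hx.2
    rw [abs_of_nonneg h2]
    linarith
  have h2 : ∀ z ∈ W, ‖∑ x ∈ Icc (1 : ℤ) c.Nb, (bump c.Γ' c.n (z - x) : ℂ) * Ξ z -
      (c.Nb * c.Z : ℂ) * Ξ z‖ ≤ c.Nb * (20 * c.ε) := by
    intro z hz
    have h3 := hc.eqd z ((hW z hz).trans (by omega))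
    have h4 : (∑ x ∈ Icc (1 : ℤ) c.Nb, (bump c.Γ' c.n (z - x) : ℂ) * Ξ z) - (c.Nb * c.Z : ℂ) * Ξ z =
        ((c.Nb * ((∑ m ∈ Icc (1 : ℤ) c.Nb, bump c.Γ' c.n (z - m)) / c.Nb - c.Z) : ℝ) : ℂ) * Ξ z := by
      rw [← sum_mul, ← sub_mul]
      congr 1
      rw [mul_sub, mul_div_cancel₀ _ hNb.ne']
      push_cast
      rfl
    rw [h4, norm_mul, Complex.norm_real, Real.norm_eq_abs, abs_mul, abs_of_pos hNb]
    calc _ ≤ c.Nb * (20 * c.ε) * 1 := by gcongr; exact hΞ z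
      _ = _ := mul_one _
  have h3 : ‖(∑ x ∈ Icc (1 : ℤ) c.Nb, ∑ h ∈ W, (bump c.Γ' c.n h : ℂ) * Ξ (x + h)) -
      (c.Nb * c.Z : ℂ) * ∑ z ∈ W, Ξ z‖ ≤ c.Nb * (2 * c.Nb) + N * (c.Nb * (20 * c.ε)) := by
    have e : (∑ x ∈ Icc (1 : ℤ) c.Nb, ∑ h ∈ W, (bump c.Γ' c.n h : ℂ) * Ξ (x + h)) -
        (c.Nb * c.Z : ℂ) * ∑ z ∈ W, Ξ z =
        ∑ x ∈ Icc (1 : ℤ) c.Nb, (∑ h ∈ W, (bump c.Γ' c.n h : ℂ) * Ξ (x + h) -
          ∑ z ∈ W, (bump c.Γ' c.n (z - x) : ℂ) * Ξ z) +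
        ∑ z ∈ W, (∑ x ∈ Icc (1 : ℤ) c.Nb, (bump c.Γ' c.n (z - x) : ℂ) * Ξ z -
          (c.Nb * c.Z : ℂ) * Ξ z) := by
      rw [sum_sub_distrib, sum_sub_distrib, sum_comm (s := W), mul_sum]
      ring
    rw [e]
    refine (norm_add_le _ _).trans (add_le_add ?_ ?_)
    · refine (norm_sum_le _ _).trans ((sum_le_sum h1).trans ?_)
      rw [sum_const, nsmul_eq_mul, point_card_Icc]
    · refine (norm_sum_le _ _).trans ((sum_le_sum h2).trans ?_)
      rw [sum_const, nsmul_eq_mul, point_card_Ico]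
  have hNc : (N : ℂ) ≠ 0 := by exact_mod_cast hN0.ne'
  have hNbc : (c.Nb : ℂ) ≠ 0 := by exact_mod_cast hNb.ne'
  have hZc : (c.Z : ℂ) ≠ 0 := by exact_mod_cast hZ.ne'
  have e : (∑ x ∈ W, Ξ x) / N - (∑ x ∈ Icc (1 : ℤ) c.Nb, ∑ h ∈ W,
      (bump c.Γ' c.n h : ℂ) * Ξ (x + h)) / (c.Nb * N * c.Z) =
      -((∑ x ∈ Icc (1 : ℤ) c.Nb, ∑ h ∈ W, (bump c.Γ' c.n h : ℂ) * Ξ (x + h)) -
      (c.Nb * c.Z : ℂ) * ∑ z ∈ W, Ξ z) / ((c.Nb * N * c.Z : ℝ) : ℂ) := by
    push_cast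
    field_simp
    ring
  have hp : 0 < (c.Nb * N * c.Z : ℝ) := by positivity
  rw [e, norm_div, norm_neg, Complex.norm_real, Real.norm_of_nonneg hp.le, div_le_iff₀ hp]
  refine h3.trans ?_
  have h5 := hc.eps1
  calc c.Nb * (2 * c.Nb) + N * (c.Nb * (20 * c.ε))
      ≤ c.Nb * (2 * (c.ε * N)) + N * (c.Nb * (20 * c.ε)) := by gcongr
    _ = c.Nb * N * (22 * c.ε) := by ring
    _ ≤ c.Nb * N * (c.η * c.Z / 10) := by gcongr; linarith
    _ = _ := by ring

/-- The three points of the progression with step n are inner points. -/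
def pointIn {ι : Type} [Fintype ι] (c : SCtx ι) (y n : ℤ) : Prop :=
  (c.a 0).Inner c.Γ c.ρ c.ψ c.η (y + n) ∧ (c.a 1).Inner c.Γ c.ρ c.ψ c.η (y + 2 * n) ∧
    (c.a 2).Inner c.Γ c.ρ c.ψ c.η (y + 3 * n)

lemma point_in_of_good {ι : Type} [Fintype ι] {c : SCtx ι} (hc : c.OK) {y x h : ℤ}
    (hx : c.Good3 y x) (hh : BZ c.Γ (c.ρ / 3) h) : pointIn c y (x + h) := by
  have hρ := hc.rho
  refine ⟨?_, ?_, ?_⟩
  · have := hx.1 h (hh.le (by linarith))
    rwa [add_assoc] at this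
  · have := hx.2.1 (2 * h) ((hh.mul 2).le (by norm_num; linarith))
    rwa [add_assoc, ← mul_add] at this
  · have := hx.2.2 (3 * h) ((hh.mul 3).le (by norm_num; linarith))
    rwa [add_assoc, ← mul_add] at this

lemma point_mass (hV : ConvStmt) {ι : Type} [Fintype ι] {c : SCtx ι} (hc : c.OK) {a0 : ℤ} {N : ℕ}
    (hN : (c.Nb : ℝ) ≤ c.ε * N) (hW : ∀ x ∈ Ico a0 (a0 + N), |x| ≤ c.T0) :
    ∑ h ∈ Ico a0 (a0 + N), bump c.Γ' c.n h ≤ (1 + c.η / 10) * (N * c.Z) := by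
  have hZ := point_Z_pos hc
  have hNb := point_Nb_pos hc
  have hN0 := point_N_pos hc hN
  have h1 := hV ι c hc a0 N (fun _ => 1) hN hW (fun _ => by simp)
  have e : (∑ x ∈ Ico a0 (a0 + N), (1 : ℂ)) / N - (∑ x ∈ Icc (1 : ℤ) c.Nb, ∑ h ∈ Ico a0 (a0 + N),
      (bump c.Γ' c.n h : ℂ) * 1) / (c.Nb * N * c.Z) =
      ((1 - (∑ h ∈ Ico a0 (a0 + N), bump c.Γ' c.n h) / (N * c.Z) : ℝ) : ℂ) := by
    have hNc : (N : ℂ) ≠ 0 := by exact_mod_cast hN0.ne'
    have hNbc : (c.Nb : ℂ) ≠ 0 := by exact_mod_cast hNb.ne'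
    have hZc : (c.Z : ℂ) ≠ 0 := by exact_mod_cast hZ.ne'
    simp only [sum_const, nsmul_eq_mul, mul_one]
    push_cast
    simp only [Int.card_Ico, add_sub_cancel_left, Int.toNat_natCast, Int.card_Icc,
      add_sub_cancel_right]
    field_simp
  rw [e, Complex.norm_real, Real.norm_eq_abs, abs_le] at h1
  rw [← div_le_iff₀ (by positivity)]
  linarith [h1.1]

lemma point_split (hV : ConvStmt) {ι : Type} [Fintype ι] {c : SCtx ι} (hc : c.OK) {a0 : ℤ} {N : ℕ}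
    (hN : (c.Nb : ℝ) ≤ c.ε * N) (hW : ∀ x ∈ Ico a0 (a0 + N), |x| ≤ c.T0) (y : ℤ)
    (D : ℤ → ℤ → ℝ) {B δ : ℝ} (hB0 : 0 ≤ B) (hδ : 0 ≤ δ) (hB : ∀ x h, D x h ≤ B)
    (hD : ∀ x, c.Good3 y x → ∀ h ∈ Ico a0 (a0 + N), BZ c.Γ' c.ρ' h → D x h ≤ δ) :
    (∑ x ∈ Icc (1 : ℤ) c.Nb, ∑ h ∈ Ico a0 (a0 + N), bump c.Γ' c.n h * D x h) /
      (c.Nb * N * c.Z) ≤ 2 * δ + B * c.η + 2 * B * c.badv y := by
  have hZ := point_Z_pos hc
  have hNb := point_Nb_pos hc
  have hN0 := point_N_pos hc hN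
  have hm := point_mass hV hc hN hW
  have hη := hc.eta0
  have hη1 := hc.eta1
  have hm2 : ∑ h ∈ Ico a0 (a0 + N), bump c.Γ' c.n h ≤ 2 * (N * c.Z) :=
    hm.trans (by gcongr; linarith)
  have h1 : ∀ x ∈ Icc (1 : ℤ) c.Nb, ∑ h ∈ Ico a0 (a0 + N), bump c.Γ' c.n h * D x h ≤
      N * c.Z * (2 * δ + B * c.η) + (if ¬ c.Good3 y x then 1 else 0) * (2 * B * (N * c.Z)) := by
    intro x _
    by_cases hx : c.Good3 y x
    · rw [if_neg (not_not.2 hx), zero_mul, add_zero]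
      calc ∑ h ∈ Ico a0 (a0 + N), bump c.Γ' c.n h * D x h
          ≤ ∑ h ∈ Ico a0 (a0 + N), (bump c.Γ' c.n h * δ + c.η * c.Z * B) := by
            refine sum_le_sum fun h hh => ?_
            have hb := bump_nonneg c.Γ' c.n h
            by_cases hs : BZ c.Γ' c.ρ' h
            · have := mul_le_mul_of_nonneg_left (hD x hx h hh hs) hb
              have : 0 ≤ c.η * c.Z * B := by positivity
              linarith
            · have h2 := mul_le_mul_of_nonneg_left (hB x h) hb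
              have h3 := mul_le_mul_of_nonneg_right (hc.tail h hs) hB0
              have : 0 ≤ bump c.Γ' c.n h * δ := by positivity
              linarith
        _ = (∑ h ∈ Ico a0 (a0 + N), bump c.Γ' c.n h) * δ + N * (c.η * c.Z * B) := by
            rw [sum_add_distrib, ← sum_mul, sum_const, nsmul_eq_mul, point_card_Ico]
        _ ≤ 2 * (N * c.Z) * δ + N * (c.η * c.Z * B) := by gcongr
        _ = _ := by ring
    · rw [if_pos hx, one_mul]
      calc ∑ h ∈ Ico a0 (a0 + N), bump c.Γ' c.n h * D x h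
          ≤ ∑ h ∈ Ico a0 (a0 + N), bump c.Γ' c.n h * B :=
            sum_le_sum fun h _ => mul_le_mul_of_nonneg_left (hB x h) (bump_nonneg _ _ _)
        _ = (∑ h ∈ Ico a0 (a0 + N), bump c.Γ' c.n h) * B := by rw [sum_mul]
        _ ≤ 2 * (N * c.Z) * B := by gcongr
        _ ≤ _ := by
            have : 0 ≤ N * c.Z * (2 * δ + B * c.η) := by positivity
            linarith
  rw [div_le_iff₀ (by positivity)]
  refine (sum_le_sum h1).trans (le_of_eq ?_)
  rw [sum_add_distrib, sum_const, nsmul_eq_mul, point_card_Icc, ← sum_mul, sum_boole, SCtx.badv]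
  field_simp

lemma point_bad (hV : ConvStmt) {ι : Type} [Fintype ι] {c : SCtx ι} (hc : c.OK) {a0 : ℤ} {N : ℕ}
    (hN : (c.Nb : ℝ) ≤ c.ε * N) (hW : ∀ x ∈ Ico a0 (a0 + N), |x| ≤ c.T0) (y : ℤ) :
    (∑ n ∈ Ico a0 (a0 + N), (if pointIn c y n then 0 else 1 : ℝ)) / N ≤
      2 * c.η + 2 * c.badv y := by
  have h1 := hV ι c hc a0 N (fun n => ((if pointIn c y n then 0 else 1 : ℝ) : ℂ)) hN hW
    (fun n => by by_cases h : pointIn c y n <;> simp [h])
  have h2 := point_split hV hc hN hW y (fun x h => if pointIn c y (x + h) then 0 else 1)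
    (B := 1) (δ := 0) zero_le_one le_rfl
    (fun x h => by by_cases h' : pointIn c y (x + h) <;> simp [h'])
    (fun x hx h _ hs => by rw [if_pos (point_in_of_good hc hx (hc.small h hs).2)])
  have e : (∑ x ∈ Ico a0 (a0 + N), ((if pointIn c y x then 0 else 1 : ℝ) : ℂ)) / N -
      (∑ x ∈ Icc (1 : ℤ) c.Nb, ∑ h ∈ Ico a0 (a0 + N), (bump c.Γ' c.n h : ℂ) *
        ((if pointIn c y (x + h) then 0 else 1 : ℝ) : ℂ)) / (c.Nb * N * c.Z) =
      (((∑ n ∈ Ico a0 (a0 + N), (if pointIn c y n then 0 else 1 : ℝ)) / N -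
      (∑ x ∈ Icc (1 : ℤ) c.Nb, ∑ h ∈ Ico a0 (a0 + N), bump c.Γ' c.n h *
        (if pointIn c y (x + h) then 0 else 1 : ℝ)) / (c.Nb * N * c.Z) : ℝ) : ℂ) := by
    simp only [Complex.ofReal_sub, Complex.ofReal_div, Complex.ofReal_sum, Complex.ofReal_mul,
      Complex.ofReal_natCast]
  rw [e, Complex.norm_real, Real.norm_eq_abs, abs_le] at h1
  have := hc.eta0
  linarith [h1.2]

lemma point_two (hV : ConvStmt) {ι : Type} [Fintype ι] {c : SCtx ι} (hc : c.OK) {a0 : ℤ} {N : ℕ}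
    (hS : c.Scale N) (hW : ∀ x ∈ Ico a0 (a0 + N), |x| ≤ c.T0) (y : ℤ) :
    ‖(∑ n ∈ Ico a0 (a0 + N), if c.Rk (mu3 c.a y n) then 0 else ex (phi3 c.a y n)) / N‖ ≤
      26 * c.η + 2 * c.badv y := by
  obtain ⟨hN, -, U, hU0, hU, hU2⟩ := hS
  have hN0 := point_N_pos hc hN
  have hη := hc.eta0
  have hb := point_bad hV hc hN hW y
  set Θ : ℤ → ℂ := fun n => if c.Rk (mu3 c.a y n) then 0 else ex (phi3 c.a y n) with hΘ
  have hΘ1 : ∀ n, ‖Θ n‖ ≤ 1 := fun n => by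
    by_cases h : c.Rk (mu3 c.a y n) <;> simp [hΘ, h]
  have hu : (0 : ℝ) < U.card := by exact_mod_cast hU0.card_pos
  have h1 : ∀ h ∈ U, ∀ w ∈ U, ‖∑ n ∈ Ico a0 (a0 + N), Θ n -
      ∑ n ∈ Ico a0 (a0 + N), Θ (n + (h + w))‖ ≤ 4 * c.η * N := by
    intro h hh w hw
    rw [norm_sub_rev]
    refine (sum_shift_le Θ hΘ1 _ _ _).trans ?_
    have h2 := (hU h hh).1
    have h3 := (hU w hw).1
    have h4 := abs_add_le (h : ℝ) w
    push_cast at h2 h3 ⊢
    linarith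
  have h2 : ∀ n ∈ Ico a0 (a0 + N), ‖∑ h ∈ U, ∑ w ∈ U, Θ (n + (h + w))‖ ≤
      (20 * c.η + if pointIn c y n then 0 else 1) * (U.card : ℝ) ^ 2 := by
    intro n _
    by_cases hn : pointIn c y n
    · rw [if_pos hn, add_zero]
      have hs : ∀ h ∈ U, ∀ w ∈ U, _ := fun h hh w hw => shift3 hc.add hc.rho c.a hn.1 hn.2.1 hn.2.2
        (k := h + w) (((hU h hh).2.add (hU w hw).2).le (by linarith))
      by_cases hR : c.Rk (mu3 c.a y n)
      · have : ∑ h ∈ U, ∑ w ∈ U, Θ (n + (h + w)) = 0 :=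
          sum_eq_zero fun h hh => sum_eq_zero fun w hw => by
            simp only [hΘ, (hs h hh w hw).1, if_pos hR]
        rw [this, norm_zero]
        positivity
      · have h3 := hU2 y n hR (rho3 (fun i => (c.a i).Λ) y n)
        set G : ℤ → ℂ := fun k => ex (k • rho3 (fun i => (c.a i).Λ) y n +
          k • cz c.ψ (mu3 c.a y n) k) with hG
        have h4 : ∀ h ∈ U, ∀ w ∈ U, ‖Θ (n + (h + w)) - ex (phi3 c.a y n) * G (h + w)‖ ≤
            19 * c.η := by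
          intro h hh w hw
          simp only [hΘ, (hs h hh w hw).1, if_neg hR, hG]
          rw [← ex_add]
          refine (ex_sub_ex_le _ _).trans ?_
          have h5 := (hs h hh w hw).2.2
          rw [sub_sub, sub_sub] at h5
          have hπ := Real.pi_lt_d2
          calc _ ≤ 2 * 3.15 * (3 * c.η) := by gcongr
            _ ≤ _ := by linarith
        have e : ∑ h ∈ U, ∑ w ∈ U, Θ (n + (h + w)) = ex (phi3 c.a y n) * ∑ h ∈ U, ∑ w ∈ U, G (h + w)
            + ∑ h ∈ U, ∑ w ∈ U, (Θ (n + (h + w)) - ex (phi3 c.a y n) * G (h + w)) := by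
          simp only [sum_sub_distrib, mul_sum]
          ring
        rw [e]
        refine (norm_add_le _ _).trans ?_
        rw [norm_mul, norm_ex, one_mul]
        have h5 : ‖∑ h ∈ U, ∑ w ∈ U, (Θ (n + (h + w)) - ex (phi3 c.a y n) * G (h + w))‖ ≤
            19 * c.η * (U.card : ℝ) ^ 2 := by
          refine (norm_sum_le _ _).trans ((sum_le_sum fun h hh => (norm_sum_le _ _).trans
            (sum_le_sum (h4 h hh))).trans (le_of_eq ?_))
          simp only [sum_const, nsmul_eq_mul]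
          ring
        linarith
    · rw [if_neg hn]
      refine (norm_sum_le _ _).trans ((sum_le_sum fun h _ => (norm_sum_le _ _).trans
        (sum_le_sum fun w _ => hΘ1 _)).trans ?_)
      simp only [sum_const, nsmul_eq_mul]
      have : 0 ≤ 20 * c.η * (U.card : ℝ) ^ 2 := by positivity
      nlinarith
  have e : ((U.card : ℂ) ^ 2) * ∑ n ∈ Ico a0 (a0 + N), Θ n =
      ∑ h ∈ U, ∑ w ∈ U, (∑ n ∈ Ico a0 (a0 + N), Θ n - ∑ n ∈ Ico a0 (a0 + N), Θ (n + (h + w))) +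
      ∑ n ∈ Ico a0 (a0 + N), ∑ h ∈ U, ∑ w ∈ U, Θ (n + (h + w)) := by
    rw [sum_comm (s := Ico a0 (a0 + N))]
    simp only [sum_comm (s := Ico a0 (a0 + N)), sum_sub_distrib, sum_const, nsmul_eq_mul]
    ring
  have h3 : (U.card : ℝ) ^ 2 * ‖∑ n ∈ Ico a0 (a0 + N), Θ n‖ ≤ (U.card : ℝ) ^ 2 *
      (24 * c.η * N + ∑ n ∈ Ico a0 (a0 + N), (if pointIn c y n then 0 else 1 : ℝ)) := by
    have := congrArg norm e
    rw [norm_mul, norm_pow, Complex.norm_natCast] at this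
    rw [this]
    refine (norm_add_le _ _).trans ((add_le_add ((norm_sum_le _ _).trans (sum_le_sum fun h hh =>
      (norm_sum_le _ _).trans (sum_le_sum (h1 h hh)))) ((norm_sum_le _ _).trans
        (sum_le_sum h2))).trans (le_of_eq ?_))
    rw [← sum_mul (Ico a0 (a0 + N)), sum_add_distrib]
    simp only [sum_const, nsmul_eq_mul, point_card_Ico]
    ring
  have h4 := le_of_mul_le_mul_left h3 (by positivity)
  rw [norm_div, Complex.norm_natCast, div_le_iff₀ hN0]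
  rw [div_le_iff₀ hN0] at hb
  linarith

lemma point_one (hV : ConvStmt) {ι : Type} [Fintype ι] {c : SCtx ι} (hc : c.OK) {a0 : ℤ} {N : ℕ}
    (hN : (c.Nb : ℝ) ≤ c.ε * N) (hW : ∀ x ∈ Ico a0 (a0 + N), |x| ≤ c.T0) (y : ℤ) :
    ‖(∑ n ∈ Ico a0 (a0 + N), if c.Rk (mu3 c.a y n) then ex (phi3 c.a y n) else 0) / N -
      (∑ x ∈ Icc (1 : ℤ) c.Nb, ∑ h ∈ Ico a0 (a0 + N), (bump c.Γ' c.n h : ℂ) *
        (if c.Rk (mu3 c.a y x) then ex (phi3 c.a y x + h • rho3 (fun i => (c.a i).Λ) y x) else 0)) /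
        (c.Nb * N * c.Z)‖ ≤ 41 * c.η + 4 * c.badv y := by
  have hZ := point_Z_pos hc
  have hNb := point_Nb_pos hc
  have hN0 := point_N_pos hc hN
  have hη := hc.eta0
  have hε := hc.eps0
  have hε1 : c.ε ≤ c.η / 300 := by
    have h1 := hc.eps1
    have h2 := mul_le_mul_of_nonneg_left hc.Z1 hη.le
    linarith
  have hT : (0 : ℝ) < c.T0 := by
    have := hc.NbT
    by_contra h
    push Not at h
    nlinarith
  set Θ : ℤ → ℂ := fun n => if c.Rk (mu3 c.a y n) then ex (phi3 c.a y n) else 0 with hΘ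
  set M : ℤ → ℤ → ℂ := fun x h => if c.Rk (mu3 c.a y x) then
    ex (phi3 c.a y x + h • rho3 (fun i => (c.a i).Λ) y x) else 0 with hM
  have hΘ1 : ∀ n, ‖Θ n‖ ≤ 1 := fun n => by
    by_cases h : c.Rk (mu3 c.a y n) <;> simp [hΘ, h]
  have hM1 : ∀ x h, ‖M x h‖ ≤ 1 := fun n _ => by
    by_cases h : c.Rk (mu3 c.a y n) <;> simp [hM, h]
  have h1 := hV ι c hc a0 N Θ hN hW hΘ1
  have h2 := point_split hV hc hN hW y (fun x h => ‖Θ (x + h) - M x h‖) (B := 2) (δ := 19 * c.η)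
    zero_le_two (by positivity)
    (fun x h => (norm_sub_le _ _).trans (by linarith [hΘ1 (x + h), hM1 x h])) (by
      intro x hx h hh hs
      obtain ⟨⟨j, hj⟩, hs'⟩ := hc.small h hs
      obtain ⟨h3, -, h4⟩ := shift3 hc.add hc.rho c.a (hx.1.inner hc.rho) (hx.2.1.inner hc.rho)
        (hx.2.2.inner hc.rho) hs'
      by_cases hR : c.Rk (mu3 c.a y x)
      · simp only [hΘ, hM, h3, if_pos hR]
        refine (ex_sub_ex_le _ _).trans ?_
        have h5 := hc.kill y x hR h (hW h hh) hs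
        have h6 : ‖h • cz c.ψ (mu3 c.a y x) h‖ ≤ c.ε := by
          have e : h • cz c.ψ (mu3 c.a y x) h = j • ((2 : ℤ) • cz c.ψ (mu3 c.a y x) h) := by
            rw [smul_smul]
            congr 1
            omega
          have h7 : |(j : ℝ)| ≤ c.T0 := by
            have := hW h hh
            have h8 : |j| ≤ c.T0 := by
              rw [abs_le] at this ⊢
              omega
            exact_mod_cast h8
          rw [e]
          refine (norm_zsmul_le' _ _).trans ?_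
          calc _ ≤ c.T0 * (c.ε / c.T0) := by gcongr
            _ = c.ε := by field_simp
        have h7 : ‖phi3 c.a y (x + h) - (phi3 c.a y x + h • rho3 (fun i => (c.a i).Λ) y x)‖ ≤
            3 * c.η + c.ε := by
          have e : phi3 c.a y (x + h) - (phi3 c.a y x + h • rho3 (fun i => (c.a i).Λ) y x) =
              (phi3 c.a y (x + h) - phi3 c.a y x - h • rho3 (fun i => (c.a i).Λ) y x -
                h • cz c.ψ (mu3 c.a y x) h) + h • cz c.ψ (mu3 c.a y x) h := by abel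
          rw [e]
          exact (norm_add_le _ _).trans (add_le_add h4 h6)
        have hπ := Real.pi_lt_d2
        calc _ ≤ 2 * 3.15 * (3 * c.η + c.ε) := by gcongr
          _ ≤ _ := by linarith
      · simp only [hΘ, hM, h3, if_neg hR, sub_self, norm_zero]
        positivity)
  have hp : 0 < (c.Nb * N * c.Z : ℝ) := by positivity
  have h3 : ‖(∑ x ∈ Icc (1 : ℤ) c.Nb, ∑ h ∈ Ico a0 (a0 + N), (bump c.Γ' c.n h : ℂ) * Θ (x + h)) /
      (c.Nb * N * c.Z) - (∑ x ∈ Icc (1 : ℤ) c.Nb, ∑ h ∈ Ico a0 (a0 + N),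
        (bump c.Γ' c.n h : ℂ) * M x h) / (c.Nb * N * c.Z)‖ ≤
      (∑ x ∈ Icc (1 : ℤ) c.Nb, ∑ h ∈ Ico a0 (a0 + N), bump c.Γ' c.n h * ‖Θ (x + h) - M x h‖) /
      (c.Nb * N * c.Z) := by
    have e : (c.Nb * N * c.Z : ℂ) = ((c.Nb * N * c.Z : ℝ) : ℂ) := by push_cast; rfl
    rw [← sub_div, norm_div, e, Complex.norm_real, Real.norm_of_nonneg hp.le, ← sum_sub_distrib]
    refine div_le_div_of_nonneg_right ((norm_sum_le _ _).trans (sum_le_sum fun x _ => ?_)) hp.le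
    rw [← sum_sub_distrib]
    refine (norm_sum_le _ _).trans (sum_le_sum fun h _ => ?_)
    rw [← mul_sub, point_norm_bump]
  refine (norm_sub_le_norm_sub_add_norm_sub _ _ _).trans ((add_le_add h1 (h3.trans h2)).trans ?_)
  linarith

theorem point (hV : ConvStmt) : PointStmt := by
  intro ι _ c hc N s y hS hs
  obtain ⟨a0, hW0, hsum⟩ := sum_sign ℂ hs N
  have hW : ∀ x ∈ Ico a0 (a0 + N), |x| ≤ c.T0 := fun x hx =>
    (hW0 x hx).trans (by exact_mod_cast hS.2.1)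
  have h1 := point_one hV hc hS.1 hW y
  have h2 := point_two hV hc hS hW y
  have hZ := point_Z_pos hc
  have hNb := point_Nb_pos hc
  have hN0 := point_N_pos hc hS.1
  have hNc : (N : ℂ) ≠ 0 := by exact_mod_cast hN0.ne'
  have hNbc : (c.Nb : ℂ) ≠ 0 := by exact_mod_cast hNb.ne'
  have hZc : (c.Z : ℂ) ≠ 0 := by exact_mod_cast hZ.ne'
  have e1 : tav (wave c.a) s N y =
      (∑ n ∈ Ico a0 (a0 + N), if c.Rk (mu3 c.a y n) then ex (phi3 c.a y n) else 0) / N +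
      (∑ n ∈ Ico a0 (a0 + N), if c.Rk (mu3 c.a y n) then 0 else ex (phi3 c.a y n)) / N := by
    rw [tav_wave, hsum fun n => ex (phi3 c.a y n), ← add_div, ← sum_add_distrib]
    congr 1
    refine sum_congr rfl fun n _ => ?_
    by_cases h : c.Rk (mu3 c.a y n) <;> simp [h]
  have e2 : c.main s N y = (∑ x ∈ Icc (1 : ℤ) c.Nb, ∑ h ∈ Ico a0 (a0 + N), (bump c.Γ' c.n h : ℂ) *
        (if c.Rk (mu3 c.a y x) then ex (phi3 c.a y x + h • rho3 (fun i => (c.a i).Λ) y x) else 0)) /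
        (c.Nb * N * c.Z) := by
    rw [SCtx.main, mul_assoc, ← div_div, div_right_comm, sum_div (a := (N * c.Z : ℂ))]
    congr 1
    refine sum_congr rfl fun x _ => ?_
    by_cases h : c.Rk (mu3 c.a y x)
    · simp only [if_pos h, bhat, ex_add]
      rw [hsum fun j => (bump c.Γ' c.n j : ℂ) * ex (j • rho3 (fun i => (c.a i).Λ) y x), div_div,
        ← mul_div_assoc, mul_sum]
      congr 1
      exact sum_congr rfl fun j _ => by ring
    · simp [h]
  have hb : 0 ≤ c.badv y := by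
    unfold SCtx.badv
    positivity
  have hη := hc.eta0
  rw [e1, e2, add_sub_right_comm]
  refine (norm_add_le _ _).trans ((add_le_add h1 h2).trans ?_)
  linarith

end Pool.Agent.Lib.MP_9721b5_an
end
end
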