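import Pool.Agent.Lib.MP_9721b5_an.LevelB
import Pool.Agent.Lib.MP_9721b5_an.Basic
import Pool.Agent.Lib.MP_9721b5_an.GraphA
import Pool.Agent.Lib.MP_9721b5_an.Tri.Stmts

-- part Pool.Agent.Lib.MP_9721b5_an.LevelC
section

/-! The potential and the increment step for one level of the chaining. -/

set_option autoImplicit false

open Finset
open scoped Classical ComplexConjugate Pointwise

noncomputable section

namespace Pool.Agent.Lib.MP_9721b5_an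

/-- the Huber function -/
def levelcHub (u : ℝ) : ℝ := clip u * u - clip u ^ 2 / 2

lemma levelc_abs_clip (u : ℝ) : |clip u| ≤ 1 := by
  unfold clip
  rw [abs_le]
  exact ⟨le_max_left _ _, max_le (by norm_num) (min_le_left _ _)⟩

lemma levelc_key (u : ℝ) {t : ℝ} (ht : |t| ≤ 1) :
    t * u - t ^ 2 / 2 + (t - clip u) ^ 2 / 2 ≤ levelcHub u := by
  obtain ⟨h1, h2⟩ := abs_le.1 ht
  have h : (u - clip u) * (t - clip u) ≤ 0 := by
    unfold clip
    rcases le_total 1 u with h3 | h3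
    · rw [min_eq_left h3, max_eq_right (by norm_num)]
      nlinarith
    · rw [min_eq_right h3]
      rcases le_total (-1) u with h4 | h4
      · rw [max_eq_right h4]
        simp
      · rw [max_eq_left h4]
        nlinarith
  unfold levelcHub
  nlinarith

lemma levelc_nonneg (u : ℝ) {t : ℝ} (ht : |t| ≤ 1) : 0 ≤ levelcHub u - t * u + 1 / 2 := by
  have h1 := levelc_key u ht
  have h2 : t ^ 2 ≤ 1 := by rwa [sq_le_one_iff_abs_le_one]
  nlinarith [sq_nonneg (t - clip u)]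

lemma levelc_add (u v : ℝ) : levelcHub (v + u) ≤ levelcHub u + clip u * v + v ^ 2 / 2 := by
  have h1 := levelc_key u (levelc_abs_clip (v + u))
  rw [levelcHub]
  nlinarith [sq_nonneg (v - (clip (v + u) - clip u))]

/-- the telescoping triples -/
def levelcMix (F Fs : Fin 3 → ℤ → ℝ) (i : Fin 3) : Fin 3 → ℤ → ℂ := fun j y =>
  ((if j = i then (F j y - Fs j y) / 2 else if j < i then Fs j y else F j y : ℝ) : ℂ)

lemma levelc_mix_le {F Fs : Fin 3 → ℤ → ℝ} (hF : ∀ i y, |F i y| ≤ 1) (hFs : ∀ i y, |Fs i y| ≤ 1)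
    (i j : Fin 3) (y : ℤ) : ‖levelcMix F Fs i j y‖ ≤ 1 := by
  rw [levelcMix, Complex.norm_real, Real.norm_eq_abs]
  split_ifs
  · have h1 := abs_le.1 (hF j y)
    have h2 := abs_le.1 (hFs j y)
    rw [abs_le]
    constructor <;> linarith
  · exact hFs j y
  · exact hF j y

lemma levelc_tele (F Fs : Fin 3 → ℤ → ℝ) (s : ℤ) (N : ℕ) (y : ℤ) :
    tav (fun i y => (F i y : ℂ)) s N y - tav (fun i y => (Fs i y : ℂ)) s N y =
      2 * ∑ i, tav (levelcMix F Fs i) s N y := by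
  simp only [tav, ← sum_div, ← sub_div, ← mul_div_assoc, ← sum_sub_distrib]
  congr 1
  rw [sum_comm, mul_sum]
  refine sum_congr rfl fun n _ => ?_
  simp [Fin.sum_univ_three, levelcMix]
  ring

/-- the body of the inverse theorem -/
def levelcL (C : ℕ) : Prop :=
  ∀ m R : ℕ, 2 ≤ m → m ≤ R → ∀ (y0 : ℤ) (len N : ℕ) (f : Fin 3 → ℤ → ℂ) (s : ℤ → ℤ)
    (E : Finset ℤ) (i : Fin 3), 1 ≤ N → 0 < len → len ≤ m * N → (∀ j y, ‖f j y‖ ≤ 1) →
    E ⊆ Ico y0 (y0 + len) → len ≤ 2 ^ R * E.card →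
    (∀ y ∈ E, (s y = 1 ∨ s y = -1) ∧ y + 3 * (s y * N) ∈ Ico y0 (y0 + len) ∧
      (1 / m : ℝ) ≤ ‖tav f (s y) N y‖) →
    ∃ a : Atom, a.OK (R ^ C) ∧
      (((Ico y0 (y0 + len)).filter fun y => ¬ a.Good (hf (R ^ C)) (hf R) y).card : ℝ) ≤
        hf R * len ∧
      (len : ℝ) / (m : ℝ) ^ C ≤ ∑ y ∈ Ico y0 (y0 + len), (f i y * conj (ex (a.ph.P y))).re

/-- a failing node gives an atom correlating with one of the residuals -/
lemma levelc_atom {C : ℕ} (hL : levelcL C) {m R l : ℕ} (hm : 2 ≤ m) (hR : m ≤ R) (hl : 4 ≤ l)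
    (hlm : 2 ^ l ≤ m) {N : ℕ → ℕ} (hN : Scales N) {F Fs : Fin 3 → ℤ → ℝ}
    (hF : ∀ i y, |F i y| ≤ 1) (hFs : ∀ i y, |Fs i y| ≤ 1) {d : ℕ} {y : ℤ}
    (h : 3 * hf R * 2 ^ (d + l) < (((nd (d + l) y).filter fun z => 6 / (m : ℝ) <
      ‖At l N (fun i y => (F i y : ℂ)) d z - At l N (fun i y => (Fs i y : ℂ)) d z‖).card : ℝ)) :
    ∃ (a : Atom) (i : Fin 3), a.OK (R ^ C) ∧
      (∑ z ∈ nd (d + l) y, if a.Good (hf (R ^ C)) (hf R) z then (0 : ℝ) else 1) ≤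
        ∑ _z ∈ nd (d + l) y, hf R ∧
      ∑ _z ∈ nd (d + l) y, 2 * ((m : ℝ) ^ C)⁻¹ ≤
        ∑ z ∈ nd (d + l) y, (F i z - Fs i z) * (ex (a.ph.P z)).re := by
  set E : Fin 3 → Finset ℤ := fun i =>
    (nd (d + l) y).filter fun z => 1 / (m : ℝ) ≤ ‖At l N (levelcMix F Fs i) d z‖ with hE
  have h1 : ∃ i, hf R * 2 ^ (d + l) ≤ (E i).card := by
    by_contra hn
    push Not at hn
    have h2 : ((nd (d + l) y).filter fun z => 6 / (m : ℝ) <
        ‖At l N (fun i y => (F i y : ℂ)) d z - At l N (fun i y => (Fs i y : ℂ)) d z‖) ⊆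
        univ.biUnion E := by
      intro z hz
      rw [mem_filter] at hz
      by_contra hz'
      have h3 : ∀ i, ‖At l N (levelcMix F Fs i) d z‖ ≤ 1 / (m : ℝ) := fun i => by
        by_contra h4
        exact hz' (mem_biUnion.2 ⟨i, mem_univ _, mem_filter.2 ⟨hz.1, (not_le.1 h4).le⟩⟩)
      have h4 := hz.2
      simp only [At] at h3 h4
      rw [levelc_tele, norm_mul] at h4
      have h5 := (norm_sum_le _ _).trans (sum_le_sum fun i (_ : i ∈ univ) => h3 i)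
      simp only [sum_const, card_univ, Fintype.card_fin, nsmul_eq_mul, Nat.cast_ofNat,
        Complex.norm_ofNat] at h4 h5
      have : 6 / (m : ℝ) = 2 * (3 * (1 / m)) := by ring
      linarith
    have h3 : (((univ.biUnion E).card : ℕ) : ℝ) ≤ ∑ i, ((E i).card : ℝ) := by
      exact_mod_cast card_biUnion_le
    have h4 : (((nd (d + l) y).filter fun z => 6 / (m : ℝ) <
        ‖At l N (fun i y => (F i y : ℂ)) d z - At l N (fun i y => (Fs i y : ℂ)) d z‖).card : ℝ) ≤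
        (univ.biUnion E).card := by exact_mod_cast card_le_card h2
    rw [Fin.sum_univ_three] at h3
    linarith [hn 0, hn 1, hn 2]
  obtain ⟨i, hi⟩ := h1
  have hnd : Ico (y / 2 ^ (d + l) * 2 ^ (d + l))
      (y / 2 ^ (d + l) * 2 ^ (d + l) + ((2 ^ (d + l) : ℕ) : ℤ)) = nd (d + l) y := by
    simp [nd]
  obtain ⟨a, a1, a2, a3⟩ := hL m R hm hR (y / 2 ^ (d + l) * 2 ^ (d + l)) (2 ^ (d + l)) (N d)
    (levelcMix F Fs i) (fun z => sg l (N d) d z) (E i) i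
    ((Nat.one_le_two_pow).trans (hN d).1) (by positivity)
    (by rw [pow_add, mul_comm]; exact Nat.mul_le_mul hlm (hN d).1) (levelc_mix_le hF hFs i)
    (by rw [hnd]; exact filter_subset _ _)
    (by
      have h2 := mul_le_mul_of_nonneg_left hi (show (0 : ℝ) ≤ 2 ^ R by positivity)
      rw [← mul_assoc, mul_comm _ (hf R), hf_mul_two_pow, one_mul] at h2
      exact_mod_cast h2)
    (fun z hz => by
      rw [hnd]
      have hz' := mem_filter.1 hz
      refine ⟨sg_cases _ _ _ _, ?_, hz'.2⟩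
      rw [← nd_eq hz'.1]
      exact sg_mem hl (hN d).2 z)
  rw [hnd] at a2 a3
  refine ⟨a, i, a1, ?_, ?_⟩
  · rw [sum_const, card_nd, nsmul_eq_mul, mul_comm]
    refine le_trans (le_of_eq ?_) a2
    rw [card_filter]
    push_cast
    refine sum_congr rfl fun z _ => ?_
    by_cases hz : a.Good (hf (R ^ C)) (hf R) z <;> simp [hz]
  · have e1 : ∀ z, (levelcMix F Fs i i z * conj (ex (a.ph.P z))).re =
        (F i z - Fs i z) * (ex (a.ph.P z)).re / 2 := fun z => by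
      rw [levelcMix, if_pos rfl, Complex.re_ofReal_mul, Complex.conj_re]
      ring
    simp only [e1, ← sum_div] at a3
    rw [sum_const, card_nd, nsmul_eq_mul]
    rw [div_eq_mul_inv] at a3
    linarith

/-- states of the iteration -/
abbrev levelcSt := Σ n : ℕ, Fin n → Atom × Fin 3

/-- the sum of the atoms attached to the slot i -/
def levelcU (c : ℝ) (σ : levelcSt) (i : Fin 3) (y : ℤ) : ℝ :=
  ∑ a, (if (σ.2 a).2 = i then c else 0) * (ex ((σ.2 a).1.ph.P y)).re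

def levelcPot (F : Fin 3 → ℤ → ℝ) (c : ℝ) (σ : levelcSt) (y : ℤ) : ℝ :=
  ∑ i, (levelcHub (levelcU c σ i y) - F i y * levelcU c σ i y + 1 / 2)

def levelcBad (ρ ε : ℝ) (σ : levelcSt) (y : ℤ) : ℝ :=
  ∑ a, if (σ.2 a).1.Good ρ ε y then 0 else 1

/-- adding an atom -/
def levelcCons (a : Atom) (i : Fin 3) (σ : levelcSt) : levelcSt := ⟨σ.1 + 1, Fin.cons (a, i) σ.2⟩

lemma levelc_pot_nonneg {F : Fin 3 → ℤ → ℝ} (hF : ∀ i y, |F i y| ≤ 1) (c : ℝ) (σ : levelcSt)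
    (y : ℤ) : 0 ≤ levelcPot F c σ y := sum_nonneg fun i _ => levelc_nonneg _ (hF i y)

lemma levelc_bad_nonneg (ρ ε : ℝ) (σ : levelcSt) (y : ℤ) : 0 ≤ levelcBad ρ ε σ y :=
  sum_nonneg fun a _ => by positivity

lemma levelc_bad_cons (ρ ε : ℝ) (a : Atom) (i : Fin 3) (σ : levelcSt) (y : ℤ) :
    levelcBad ρ ε (levelcCons a i σ) y =
      levelcBad ρ ε σ y + if a.Good ρ ε y then 0 else 1 := by
  rw [add_comm]
  exact Fin.sum_univ_succ (n := σ.1) _

lemma levelc_u_cons (c : ℝ) (a : Atom) (i j : Fin 3) (σ : levelcSt) (y : ℤ) :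
    levelcU c (levelcCons a i σ) j y =
      (if i = j then c else 0) * (ex (a.ph.P y)).re + levelcU c σ j y :=
  Fin.sum_univ_succ (n := σ.1) _

lemma levelc_pot_cons (F : Fin 3 → ℤ → ℝ) {c : ℝ} (hc : 0 ≤ c) (a : Atom) (i : Fin 3)
    (σ : levelcSt) (y : ℤ) {s : ℝ} (hs : |s - clip (levelcU c σ i y)| ≤ c / 2) :
    levelcPot F c (levelcCons a i σ) y ≤
      levelcPot F c σ y + c ^ 2 - c * ((F i y - s) * (ex (a.ph.P y)).re) := by
  have h1 : ∀ j, levelcHub (levelcU c (levelcCons a i σ) j y) -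
      F j y * levelcU c (levelcCons a i σ) j y + 1 / 2 ≤
      levelcHub (levelcU c σ j y) - F j y * levelcU c σ j y + 1 / 2 +
        if i = j then c ^ 2 - c * ((F i y - s) * (ex (a.ph.P y)).re) else 0 := by
    intro j
    rw [levelc_u_cons]
    split_ifs with hj
    · subst hj
      have h2 := levelc_add (levelcU c σ i y) (c * (ex (a.ph.P y)).re)
      have h3 := abs_re_ex_le (a.ph.P y)
      generalize (ex (a.ph.P y)).re = r at h2 h3 ⊢
      have h4 : r ^ 2 ≤ 1 := by rwa [sq_le_one_iff_abs_le_one]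
      have h5 : |(s - clip (levelcU c σ i y)) * r| ≤ c / 2 * 1 := by
        rw [abs_mul]
        exact mul_le_mul hs h3 (abs_nonneg _) (by linarith)
      have h6 := mul_le_mul_of_nonneg_left (abs_le.1 h5).1 hc
      have h7 := mul_le_mul_of_nonneg_left h4 (sq_nonneg c)
      nlinarith
    · simp
  refine (sum_le_sum fun j _ => h1 j).trans (le_of_eq ?_)
  rw [sum_add_distrib, sum_ite_eq, if_pos (mem_univ _), levelcPot]
  ring

end Pool.Agent.Lib.MP_9721b5_an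
end
end

-- part Pool.Agent.Lib.MP_9721b5_an.Level
section

/-! One level of the chaining. -/

set_option autoImplicit false

open Finset
open scoped Classical ComplexConjugate Pointwise

noncomputable section

namespace Pool.Agent.Lib.MP_9721b5_an

/-- polynomial growth -/
def levelPb (f : ℕ → ℕ → ℕ) : Prop := ∃ c : ℕ, ∀ m R : ℕ, 2 ≤ m → m ≤ R → f m R ≤ R ^ c

lemma levelPb.const (a : ℕ) : levelPb fun _ _ => a :=
  ⟨a, fun _ _ h1 h2 => const_le_pow (h1.trans h2) Nat.lt_two_pow_self.le⟩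

lemma levelPb.fst : levelPb fun m _ => m := ⟨1, fun _ _ _ h => by simpa using h⟩

lemma levelPb.snd : levelPb fun _ R => R := ⟨1, fun _ _ _ _ => by simp⟩

lemma levelPb.add {f g : ℕ → ℕ → ℕ} (hf : levelPb f) (hg : levelPb g) :
    levelPb fun m R => f m R + g m R := by
  obtain ⟨a, ha⟩ := hf
  obtain ⟨b, hb⟩ := hg
  exact ⟨a + b + 1, fun m R h1 h2 => add_le_pow (h1.trans h2)
    (le_pow_mono (h1.trans h2) (ha m R h1 h2) (by omega))
    (le_pow_mono (h1.trans h2) (hb m R h1 h2) (by omega))⟩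

lemma levelPb.mul {f g : ℕ → ℕ → ℕ} (hf : levelPb f) (hg : levelPb g) :
    levelPb fun m R => f m R * g m R := by
  obtain ⟨a, ha⟩ := hf
  obtain ⟨b, hb⟩ := hg
  exact ⟨a + b, fun m R h1 h2 => mul_le_pow (ha m R h1 h2) (hb m R h1 h2)⟩

lemma levelPb.pow {f : ℕ → ℕ → ℕ} (hf : levelPb f) (n : ℕ) : levelPb fun m R => f m R ^ n := by
  obtain ⟨a, ha⟩ := hf
  exact ⟨a * n, fun m R h1 h2 => pow_le_pow_of (ha m R h1 h2)⟩

/-- number of generations -/
def levelT (C m : ℕ) : ℕ := 12 * m * ((48 * m) ^ C) ^ 2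

/-- square root of the degree -/
def levelK (C m : ℕ) : ℕ := 2 * levelT C m * (48 * m) ^ C

/-- parameter of the inverse theorem -/
def levelR (C m R : ℕ) : ℕ := R + levelK C m ^ 2 + 48 * m

/-- parameter of the structured estimate -/
def levelR1 (C m R : ℕ) : ℕ := (levelT C m + 1) * levelR C m R ^ C + levelK C m ^ 2 + R

lemma level_const (CL CS : ℕ) : ∃ C : ℕ, ∀ m R : ℕ, 2 ≤ m → m ≤ R →
    4 * (levelT CL m + 1) ^ 2 * ((2 ^ levelK CL m ^ 2) ^ 3 * levelR1 CL m R ^ CS) ≤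
      2 ^ m ^ C * R ^ C := by
  have h0 : levelPb fun m _ => (48 * m) ^ CL := ((levelPb.const 48).mul levelPb.fst).pow CL
  have h1 : levelPb fun m _ => levelT CL m :=
    ((levelPb.const 12).mul levelPb.fst).mul (h0.pow 2)
  have h2 : levelPb fun m _ => levelK CL m ^ 2 := (((levelPb.const 2).mul h1).mul h0).pow 2
  have h3 : levelPb fun m R => levelR CL m R :=
    (levelPb.snd.add h2).add ((levelPb.const 48).mul levelPb.fst)
  have h4 : levelPb fun m R => levelR1 CL m R :=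
    (((h1.add (levelPb.const 1)).mul (h3.pow CL)).add h2).add levelPb.snd
  obtain ⟨a, ha⟩ := h2.mul (levelPb.const 3)
  obtain ⟨b, hb⟩ := ((levelPb.const 4).mul ((h1.add (levelPb.const 1)).pow 2)).mul (h4.pow CS)
  refine ⟨a + b, fun m R hm hR => ?_⟩
  have h5 := le_pow_mono hm (ha m m hm le_rfl) (show a ≤ a + b by omega)
  have h6 := le_pow_mono (hm.trans hR) (hb m R hm hR) (show b ≤ a + b by omega)
  calc _ = 2 ^ (levelK CL m ^ 2 * 3) * (4 * (levelT CL m + 1) ^ 2 * levelR1 CL m R ^ CS) := by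
        rw [pow_mul]; ring
    _ ≤ _ := Nat.mul_le_mul (Nat.pow_le_pow_right (by norm_num) h5) h6

lemma level_arith {m M t S e η β Z : ℝ} (hm : 0 < m) (hM : 0 < M) (ht : t = 12 * m * M ^ 2)
    (hS : 1 ≤ S) (he : 0 ≤ e) (hη : η ≤ e) (hβ : β ≤ e) (hZ : 4 * (t + 1) ^ 2 * S ≤ Z) :
    (t + 1) * (S * (e + 0) + 2 * η) + (t + 1) ^ 2 * (S * β) +
      2 * (3 / 2) / (M⁻¹ ^ 2 * (t + 1)) ≤ 1 / (4 * m) + Z * e := by
  have t0 : 0 ≤ t := by rw [ht]; positivity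
  have h1 : 2 * (3 / 2) / (M⁻¹ ^ 2 * (t + 1)) ≤ 1 / (4 * m) := by
    rw [div_le_div_iff₀ (by positivity) (by positivity), ht]
    have : M⁻¹ ^ 2 * (12 * m * M ^ 2 + 1) = 12 * m + M⁻¹ ^ 2 := by field_simp
    rw [this]
    have : 0 < M⁻¹ ^ 2 := by positivity
    linarith
  have h2 : S * (e + 0) + 2 * η ≤ (t + 1) * (3 * S * e) := by
    have a1 : e ≤ S * e := le_mul_of_one_le_left he hS
    have a2 : 0 ≤ t * (3 * S * e) := by positivity
    linarith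
  have h3 := mul_le_mul_of_nonneg_left h2 (show 0 ≤ t + 1 by linarith)
  have h4 := mul_le_mul_of_nonneg_left hβ (show 0 ≤ (t + 1) ^ 2 * S by positivity)
  have h5 := mul_le_mul_of_nonneg_right hZ he
  linarith

theorem level (hL : LDStmt) (hS : StructStmt) (hA : ApproxStmt) : LevelStmt := by
  obtain ⟨CL, hL⟩ := hL
  obtain ⟨CS, hS⟩ := hS
  obtain ⟨C, hC⟩ := level_const CL CS
  refine ⟨C, fun m R E hm hR hE l D y0 N F κ q q' En hl hlm hN hF H hEn hq hNE => ?_⟩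
  have hC' := hC m R hm hR
  set M1 := (48 * m) ^ CL with hM1
  set t0 := levelT CL m with ht0
  set k := levelK CL m with hk
  set R' := levelR CL m R with hR'
  set R1 := levelR1 CL m R with hR1
  have e1 : t0 = 12 * m * M1 ^ 2 := rfl
  have e2 : k = 2 * t0 * M1 := rfl
  have e3 : R' = R + k ^ 2 + 48 * m := rfl
  have e4 : R1 = t0 * R' ^ CL + R' ^ CL + k ^ 2 + R := by
    rw [← add_one_mul]; rfl
  have M0 : 0 < M1 := by positivity
  have M0' : (0 : ℝ) < M1 := by exact_mod_cast M0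
  have M1' : (1 : ℝ) ≤ M1 := by exact_mod_cast M0
  have m0 : (0 : ℝ) < m := by positivity
  have t1 : 0 < t0 := by rw [e1]; positivity
  have t1' : (1 : ℝ) ≤ t0 := by exact_mod_cast t1
  have k1 : 0 < k := by rw [e2]; positivity
  have c1 : (M1 : ℝ)⁻¹ ≤ 1 := inv_le_one_of_one_le₀ M1'
  have hlR : l ≤ R := (Nat.lt_two_pow_self.le.trans hlm).trans hR
  have hap : ∀ (σ : levelcSt) (i : Fin 3), ∃ Fs : ℤ → ℝ, σ.1 ≤ t0 →
      (∀ y, |Fs y| ≤ 1 ∧ |Fs y - clip (levelcU (M1 : ℝ)⁻¹ σ i y)| ≤ (M1 : ℝ)⁻¹ / 2) ∧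
      InAlg (fun a => (σ.2 a).1.ph.P) (2 ^ k ^ 2) (k ^ 2) (fun y => (Fs y : ℂ)) := by
    intro σ i
    by_cases h : σ.1 ≤ t0
    · obtain ⟨Fs, h1, h2⟩ := hA (Fin σ.1) (fun a => (σ.2 a).1.ph.P)
        (fun a => if (σ.2 a).2 = i then (M1 : ℝ)⁻¹ else 0) k t0 (by
          refine (sum_le_card_nsmul _ _ 1 fun a _ => ?_).trans ?_
          · split_ifs
            · rwa [abs_of_nonneg (by positivity)]
            · simp
          · simpa using h) t1' k1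
      refine ⟨Fs, fun _ => ⟨fun y => ⟨(h1 y).1, (h1 y).2.trans (le_of_eq ?_)⟩, h2⟩⟩
      rw [e2]
      push_cast
      field_simp
    · exact ⟨0, fun h' => (h h').elim⟩
  choose Fs hFs using hap
  have main := levela_main (St := levelcSt) (l := l) (q := q) (q' := q') (En := En)
    (A := At l N fun i y => (F i y : ℂ))
    (fun j σ => σ.1 + j ≤ t0 ∧ ∀ a, (σ.2 a).1.OK (R' ^ CL)) (levelcPot F (M1 : ℝ)⁻¹)
    (levelcBad (hf (R' ^ CL)) (hf R')) (fun σ => At l N fun i y => (Fs σ i y : ℂ))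
    (η := hf (8 * E)) (a := 6 / ((48 * m : ℕ) : ℝ)) (γ := 3 * hf R') (c := (M1 : ℝ)⁻¹ ^ 2)
    (S := ((2 : ℝ) ^ k ^ 2) ^ 3 * (R1 : ℝ) ^ CS) (e := hf E) (β := hf R') (hf_pos _).le
    (by positivity) (by linarith [hf_pos R']) (by positivity) (by positivity) (hf_pos _).le
    (hf_pos _).le (fun d y => norm_tav_le (fun i y => by simpa using hF i y) _ _ _)
    (fun j σ hσ d y => norm_tav_le
      (fun i y => by simpa using ((hFs σ i (by omega)).1 y).1) _ _ _)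
    (levelc_pot_nonneg hF _) (levelc_bad_nonneg _ _) hEn
    (fun j σ hσ D y0 κ H => levelb_struct hS (fun a => (σ.2 a).1) hσ.2 (by omega) (by omega)
      (by
        have := Nat.mul_le_mul_right (R' ^ CL) (show σ.1 ≤ t0 by omega)
        rw [Fintype.card_fin]
        omega)
      (by omega) (show k ^ 2 ≤ R1 by omega) (by omega) _ (fun i => (hFs σ i (by omega)).2)
      (by omega) (by omega) hN H)
    (fun j σ hσ d y h => by
      obtain ⟨a, i, a1, a2, a3⟩ := levelc_atom hL (m := 48 * m) (R := R') (by omega) (by omega)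
        hl (by omega) hN hF (fun i y => ((hFs σ i (by omega)).1 y).1) h
      refine ⟨levelcCons a i σ, fun j' hj => ⟨?_, fun b => ?_⟩, ?_, ?_⟩
      · have := hσ.1
        change σ.1 + 1 + j' ≤ t0
        omega
      · exact Fin.cases (motive := fun b => ((levelcCons a i σ).2 b).1.OK (R' ^ CL)) a1 hσ.2 b
      · have h1 := sum_le_sum fun z (_ : z ∈ nd (d + l) y) => levelc_pot_cons F
          (show 0 ≤ (M1 : ℝ)⁻¹ by positivity) a i σ z ((hFs σ i (by omega)).1 z).2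
        have h2 := mul_le_mul_of_nonneg_left a3 (show 0 ≤ (M1 : ℝ)⁻¹ by positivity)
        have h3 : ((48 * m : ℕ) : ℝ) ^ CL = M1 := by rw [hM1, Nat.cast_pow]
        rw [h3] at h2
        simp only [sum_add_distrib, sum_sub_distrib, ← mul_sum, sum_const, nsmul_eq_mul]
          at h1 h2 ⊢
        linarith
      · simp only [levelc_bad_cons, sum_add_distrib]
        linarith)
    t0 ⟨0, Fin.elim0⟩ ⟨by simp, fun a => a.elim0⟩ D y0 κ H hq
  refine main.trans ?_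
  have b1 : levelcBad (hf (R' ^ CL)) (hf R') ⟨0, Fin.elim0⟩ = fun _ => 0 := by
    funext y
    simp [levelcBad]
  have b2 : levelcPot F (M1 : ℝ)⁻¹ ⟨0, Fin.elim0⟩ = fun _ => 3 / 2 := by
    funext y
    simp [levelcPot, levelcU, levelcHub, clip]
    norm_num
  have b3 := level_arith m0 M0' (t := t0) (by rw [e1]; push_cast; ring)
    (S := ((2 : ℝ) ^ k ^ 2) ^ 3 * (R1 : ℝ) ^ CS) (e := hf E) (η := hf (8 * E)) (β := hf R')
    (Z := 2 ^ m ^ C * (R : ℝ) ^ C)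
    (one_le_mul_of_one_le_of_one_le (one_le_pow₀ (one_le_pow₀ one_le_two))
      (one_le_pow₀ (by exact_mod_cast (show 1 ≤ R1 by omega))))
    (hf_pos E).le (hf_anti (by omega)) (hf_anti (by omega)) (by exact_mod_cast hC')
  have b4 : ∑ y ∈ nd (D + l) y0, levelaNE En D y ≤ 2 ^ R * 2 ^ (D + l) := by
    simp only [levela_ne_eq]
    exact_mod_cast hNE
  have b5 : 4 * (3 * hf R') * 2 ^ R ≤ 1 / (4 * m) := by
    have h1 : ((48 * m : ℕ) : ℝ) * hf R' ≤ hf R := mul_hf_le (nat_le_two_pow _) (by omega)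
    have h2 := mul_le_mul_of_nonneg_right h1 (show (0 : ℝ) ≤ 2 ^ R by positivity)
    rw [hf_mul_two_pow] at h2
    rw [le_div_iff₀ (by positivity)]
    push_cast at h2
    linarith
  have b6 : ∀ y ∈ nd (D + l) y0,
      2 * (6 / ((48 * m : ℕ) : ℝ)) * ∑ d ∈ range (D + 1), κ d y ≤ 1 / (4 * m) := fun y hy => by
    refine (mul_le_of_le_one_right (by positivity) (H.one y hy)).trans (le_of_eq ?_)
    push_cast
    field_simp
    norm_num
  rw [b1, b2]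
  refine (sum_le_sum (g := fun y => 1 / (4 * m) + 4 * (3 * hf R') * levelaNE En D y +
    (1 / (4 * m) + 2 ^ m ^ C * (R : ℝ) ^ C * hf E)) fun y hy => by linarith [b6 y hy]).trans ?_
  simp only [sum_add_distrib, ← mul_sum, sum_const, card_nd, nsmul_eq_mul]
  have b7 := mul_le_mul_of_nonneg_left b4 (show 0 ≤ 4 * (3 * hf R') by linarith [hf_pos R'])
  have b8 := mul_le_mul_of_nonneg_right b5 (show (0 : ℝ) ≤ 2 ^ (D + l) by positivity)
  have b9 : (1 : ℝ) / m = 4 * (1 / (4 * m)) := by field_simp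
  have b10 : 0 ≤ 1 / (4 * (m : ℝ)) * 2 ^ (D + l) := by positivity
  rw [b9]
  push_cast
  linarith

end Pool.Agent.Lib.MP_9721b5_an
end
end

-- part Pool.Agent.Lib.MP_9721b5_an.AtomF
section

/-! From local correlations to a cellwise quadratic phase. -/

set_option autoImplicit false

open Finset
open scoped Classical ComplexConjugate Pointwise

noncomputable section

namespace Pool.Agent.Lib.MP_9721b5_an

variable {p : ℕ} [NeZero p]

/-- A partition in cells of small diameter with a small boundary; `z y` is the base point of the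
cell of `y`. -/
lemma atomf_cells (Γ : Finset (ZMod p)) (a b : ℕ) :
    ∃ (z : ZMod p → ZMod p) (Bad : Finset (ZMod p)), (∀ y, z (z y) = z y) ∧
      (∀ y, y - z y ∈ bohr Γ (hf a)) ∧ (Bad.card : ℝ) ≤ Γ.card * (4 * hf b * p) ∧
      ∀ y ∉ Bad, ∀ h ∈ bohr Γ (hf (a + b)), z (y + h) = z y := by
  have hQ : 0 < 2 ^ a := Nat.two_pow_pos a
  obtain ⟨arc, -, h1, h2⟩ := Pool.Agent.Tri.exists_arc hQ
  choose σ hσ using fun γ : ZMod p => Pool.Agent.Tri.arc_shift (univ : Finset (ZMod p))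
    (fun y => tc (γ * y)) hQ (hf_pos b)
  set cell : ZMod p → ZMod p → ℕ := fun y γ => if γ ∈ Γ then arc (tc (γ * y) + σ γ) else 0
    with hcell
  have hz : ∀ y, cell (Function.invFun cell (cell y)) = cell y :=
    fun y => Function.invFun_eq ⟨y, rfl⟩
  refine ⟨fun y => Function.invFun cell (cell y), Γ.biUnion fun γ =>
    univ.filter fun y => ‖((2 ^ a : ℕ) : ℤ) • (tc (γ * y) + σ γ)‖ ≤ hf b,
    fun y => congrArg (Function.invFun cell) (hz y), fun y => ?_, ?_, fun y hy h hh => ?_⟩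
  · rw [mem_bohr]
    intro γ hγ
    have h3 := congrFun (hz y) γ
    simp only [hcell, if_pos hγ] at h3
    have h4 := h1 _ _ h3.symm
    rw [add_sub_add_right_eq_sub, ← tc_sub, ← mul_sub] at h4
    refine h4.trans (le_of_eq ?_)
    rw [hf_eq_inv, one_div]
    norm_cast
  · refine le_trans (Nat.cast_le.2 card_biUnion_le) ?_
    rw [Nat.cast_sum]
    refine (sum_le_card_nsmul _ _ (4 * hf b * p) fun γ _ => ?_).trans (by rw [nsmul_eq_mul])
    have h3 := hσ γ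
    rw [Pool.Agent.Tri.cnt_eq_card, card_univ, ZMod.card] at h3
    exact h3
  · have h3 : cell (y + h) = cell y := by
      funext γ
      simp only [hcell]
      split_ifs with hγ
      · by_contra h4
        rw [mul_add, tc_add, add_right_comm] at h4
        refine hy (mem_biUnion.2 ⟨γ, hγ, mem_filter.2 ⟨mem_univ _, (h2 _ _ h4).trans ?_⟩⟩)
        have h5 : ‖tc (γ * h)‖ ≤ hf (a + b) := mem_bohr.1 hh γ hγ
        calc ((2 ^ a : ℕ) : ℝ) * ‖tc (γ * h)‖ ≤ 2 ^ a * (hf a * hf b) := by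
              rw [← hf_add]; push_cast; gcongr
          _ = hf a * 2 ^ a * hf b := by ring
          _ = hf b := by rw [hf_mul_two_pow, one_mul]
      · rfl
    simp only [h3]

variable {k : ℕ}

/-- The local quadratic phase. -/
def atomfQ (ψ : Fin k → ZMod p → ZMod p) (r : Fin k → ℤ) (ξ v : ZMod p) : ZMod p :=
  cmb ψ r v * v + ξ * v

/-- The correlation on the cell with base point `c`. -/
def atomfS (g : ZMod p → ℂ) (ψ : Fin k → ZMod p → ZMod p) (z : ZMod p → ZMod p) (c : ZMod p)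
    (r : Fin k → ℤ) (ξ : ZMod p) : ℂ :=
  ∑ y ∈ univ.filter fun y => z y = c, g y * ch (-atomfQ ψ r ξ (y - c))

lemma atomf_max (g : ZMod p → ℂ) (ψ : Fin k → ZMod p → ZMod p) (z : ZMod p → ZMod p)
    (c : ZMod p) : ∃ (r : Fin k → ℤ) (ξ : ZMod p), (∀ j, |r j| ≤ 1) ∧
      ∀ (r' : Fin k → ℤ) (ξ' : ZMod p), (∀ j, |r' j| ≤ 1) →
        ‖atomfS g ψ z c r' ξ'‖ ≤ ‖atomfS g ψ z c r ξ‖ := by
  have hm : ∀ r : Fin k → ℤ, r ∈ Fintype.piFinset (fun _ : Fin k => Icc (-1 : ℤ) 1) ↔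
      ∀ j, |r j| ≤ 1 := fun r => by simp only [Fintype.mem_piFinset, mem_Icc, abs_le]
  obtain ⟨⟨r, ξ⟩, h1, h2⟩ := exists_max_image
    (Fintype.piFinset (fun _ : Fin k => Icc (-1 : ℤ) 1) ×ˢ (univ : Finset (ZMod p)))
    (fun q => ‖atomfS g ψ z c q.1 q.2‖)
    ⟨(0, 0), mem_product.2 ⟨(hm 0).2 fun _ => by simp, mem_univ _⟩⟩
  exact ⟨r, ξ, (hm r).1 (mem_product.1 h1).1, fun r' ξ' hr' =>
    h2 (r', ξ') (mem_product.2 ⟨(hm r').2 hr', mem_univ _⟩)⟩

lemma atomf_asym {Γ : Finset (ZMod p)} {ψ : Fin k → ZMod p → ZMod p} {R : ℕ} (hk : k ≤ R)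
    (hψ : Forms Γ (hf R) ψ (1 / 10)) {r : Fin k → ℤ} (hr : ∀ j, |r j| ≤ 1) {u v : ZMod p}
    (hv : v ∈ bohr Γ (hf (3 * R + 2))) (hu : u ∈ bohr Γ (hf R)) :
    nm (cmb ψ r v * u - cmb ψ r u * v) ≤ hf (R + 2) / 10 := by
  have hv' : v ∈ bohr Γ (hf R * hf (2 * R + 2)) := by
    rw [← hf_add]
    exact mem_bohr_of_le hv (hf_anti (by omega))
  have h1 := cmb_asym_le ψ r 1 hr v u _ fun j =>
    SymOn.scale_left (hψ j).1 (hψ j).2 (by norm_num) (hf_pos R).le (2 * R + 2) hv' hu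
  have h2 : (k : ℝ) * hf (2 * R + 2) ≤ hf (R + 2) :=
    mul_hf_le (a := R) (le_trans (by exact_mod_cast hk) (nat_le_two_pow R)) (by omega)
  rw [Nat.cast_one] at h1
  linarith

lemma atomf_split {Γ : Finset (ZMod p)} {ψ : Fin k → ZMod p → ZMod p} {ρ ε : ℝ}
    (hψ : Forms Γ ρ ψ ε) (r : Fin k → ℤ) (ξ : ZMod p) {u v : ZMod p} (hu : u ∈ bohr Γ ρ)
    (hv : v ∈ bohr Γ ρ) (huv : u + v ∈ bohr Γ ρ) :
    atomfQ ψ r ξ (u + v) = atomfQ ψ r ξ u + atomfQ ψ r (ξ + 2 * cmb ψ r u) v +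
      (cmb ψ r v * u - cmb ψ r u * v) := by
  unfold atomfQ
  rw [hψ.cmb_add r u hu v hv huv]
  ring

/-- The contribution of one full cell. -/
lemma atomf_cell {g : ZMod p → ℂ} (hg : ∀ x, ‖g x‖ ≤ 1) {Γ : Finset (ZMod p)}
    {ψ : Fin k → ZMod p → ZMod p} {R : ℕ} (hk : k ≤ R) (hψ : Forms Γ (hf R) ψ (1 / 10))
    {z : ZMod p → ZMod p} (hz : ∀ y, y - z y ∈ bohr Γ (hf (3 * R + 2))) {r : Fin k → ℤ}
    (hr : ∀ j, |r j| ≤ 1) (ξ : ZMod p) {x c : ZMod p} (hc : c - x ∈ bohr Γ (hf R))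
    (hfull : ∀ y, z y = c → y - x ∈ bohr Γ (hf R)) :
    ‖∑ y ∈ univ.filter fun y => z y = c, g y * ch (-atomfQ ψ r ξ (y - x))‖ ≤
      ‖atomfS g ψ z c r (ξ + 2 * cmb ψ r (c - x))‖ +
        hf (R + 2) * (univ.filter fun y => z y = c).card := by
  have h1 : ‖atomfS g ψ z c r (ξ + 2 * cmb ψ r (c - x))‖ =
      ‖∑ y ∈ univ.filter fun y => z y = c, g y * ch (-(atomfQ ψ r ξ (c - x) +
        atomfQ ψ r (ξ + 2 * cmb ψ r (c - x)) (y - c)))‖ := by
    rw [← one_mul ‖atomfS g ψ z c r _‖, ← norm_ch (-atomfQ ψ r ξ (c - x)), ← norm_mul, atomfS,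
      mul_sum]
    congr 1
    refine sum_congr rfl fun y _ => ?_
    rw [neg_add, ch_add]
    ring
  rw [h1]
  refine (norm_le_norm_add_norm_sub' _ _).trans (add_le_add le_rfl ?_)
  rw [← sum_sub_distrib, mul_comm (hf (R + 2)), ← nsmul_eq_mul]
  refine (norm_sum_le _ _).trans (sum_le_card_nsmul _ _ _ fun y hy => ?_)
  have hy' : z y = c := (mem_filter.1 hy).2
  have hv : y - c ∈ bohr Γ (hf (3 * R + 2)) := hy' ▸ hz y
  have huv : c - x + (y - c) = y - x := by ring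
  have h2 := atomf_split hψ r ξ hc (mem_bohr_of_le hv (hf_anti (by omega)))
    (by rw [huv]; exact hfull y hy')
  rw [huv] at h2
  rw [← mul_sub, norm_mul]
  refine (mul_le_of_le_one_left (norm_nonneg _) (hg y)).trans ((ch_sub_ch_le _ _).trans ?_)
  have h3 : -atomfQ ψ r ξ (y - x) - -(atomfQ ψ r ξ (c - x) +
      atomfQ ψ r (ξ + 2 * cmb ψ r (c - x)) (y - c)) =
      -(cmb ψ r (y - c) * (c - x) - cmb ψ r (c - x) * (y - c)) := by rw [h2]; ring
  rw [h3, nm_neg]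
  have h4 := atomf_asym hk hψ hr hv hc
  have h5 := nm_nonneg (cmb ψ r (y - c) * (c - x) - cmb ψ r (c - x) * (y - c))
  have h6 := Real.pi_lt_four
  nlinarith [hf_pos (R + 2)]

/-- The correlation on a translate of the regular Bohr set is carried by the full cells. -/
lemma atomf_window {g : ZMod p → ℂ} (hg : ∀ x, ‖g x‖ ≤ 1) {Γ : Finset (ZMod p)}
    {ψ : Fin k → ZMod p → ZMod p} {R a : ℕ} (hk : k ≤ R) (hψ : Forms Γ (hf R) ψ (1 / 10))
    (ha : 3 * R + 2 ≤ a) {ρ : ℝ} (hρ : ρ ≤ hf R) (hreg : Reg Γ ρ (2 * hf a) (hf (R + 2)))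
    {z : ZMod p → ZMod p} (hzz : ∀ y, z (z y) = z y) (hz : ∀ y, y - z y ∈ bohr Γ (hf a))
    {M : ZMod p → ℝ} (hM0 : ∀ c, 0 ≤ M c)
    (hM : ∀ c r ξ, (∀ j, |r j| ≤ 1) → ‖atomfS g ψ z c r ξ‖ ≤ M c) {r : Fin k → ℤ}
    (hr : ∀ j, |r j| ≤ 1) (ξ x : ZMod p) :
    ‖∑ w ∈ bohr Γ ρ, g (x + w) * ch (-(cmb ψ r w * w + ξ * w))‖ ≤
      ∑ w ∈ bohr Γ ρ, M (x + w) + 2 * hf (R + 2) * (bohr Γ ρ).card := by
  have ha0 := hf_pos a
  have he0 := hf_pos (R + 2)
  set A : Finset (ZMod p) := (bohr Γ ρ).map (Equiv.addLeft x).toEmbedding with hA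
  have hmA : ∀ y, y ∈ A ↔ y - x ∈ bohr Γ ρ := fun y => by
    rw [hA, mem_map_equiv, ← neg_add_eq_sub]
    rfl
  set C : Finset (ZMod p) := A.filter fun c => ∀ y, z y = c → y ∈ A with hC
  set B : Finset (ZMod p) := univ.filter fun y => z y ∈ C with hB
  have hBA : B ⊆ A := fun y hy => (mem_filter.1 (mem_filter.1 hy).2).2 y rfl
  have e1 : ∑ w ∈ bohr Γ ρ, g (x + w) * ch (-(cmb ψ r w * w + ξ * w)) =
      ∑ y ∈ A, g y * ch (-atomfQ ψ r ξ (y - x)) := by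
    rw [hA, sum_map]
    refine sum_congr rfl fun w _ => ?_
    simp [atomfQ]
  have e2 : ∑ w ∈ bohr Γ ρ, M (x + w) = ∑ c ∈ A, M c := by
    rw [hA, sum_map]
    rfl
  have e3 : ∀ {β : Type} [AddCommMonoid β] (F : ZMod p → β),
      ∑ y ∈ B, F y = ∑ c ∈ C, ∑ y ∈ univ.filter fun y => z y = c, F y := fun F => by
    rw [← sum_fiberwise_of_maps_to (s := B) (t := C) (g := z) fun y hy => (mem_filter.1 hy).2]
    refine sum_congr rfl fun c hc => sum_congr ?_ fun _ _ => rfl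
    ext y
    simp only [hB, mem_filter, mem_univ, true_and]
    exact ⟨fun h => h.2, fun h => ⟨h ▸ hc, h⟩⟩
  have b1 : ((A \ B).card : ℝ) ≤ hf (R + 2) * (bohr Γ ρ).card := by
    refine le_trans ?_ (hreg.card_sdiff_le he0.le (by positivity))
    refine Nat.cast_le.2 (card_le_card_of_injOn (fun y => y - x) (fun y hy => ?_)
      fun y _ y' _ h => sub_left_injective h)
    obtain ⟨h1, h2⟩ := mem_sdiff.1 (mem_coe.1 hy)
    refine mem_coe.2 (mem_sdiff.2 ⟨mem_bohr_of_le ((hmA y).1 h1) (by linarith), fun h3 => h2 ?_⟩)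
    have h4 : ∀ y', z y' = z y → y' ∈ A := fun y' h => by
      have h5 := add_mem_bohr h3 (sub_mem_bohr (hz y') (hz y))
      rw [h] at h5
      rw [hmA, show y' - x = y - x + (y' - z y - (y - z y)) by ring]
      exact mem_bohr_of_le h5 (by linarith)
    exact mem_filter.2 ⟨mem_univ _, mem_filter.2 ⟨h4 _ (hzz y), h4⟩⟩
  have b2 : ‖∑ y ∈ B, g y * ch (-atomfQ ψ r ξ (y - x))‖ ≤
      ∑ c ∈ A, M c + hf (R + 2) * (bohr Γ ρ).card := by
    have h1 : ∑ c ∈ C, ((univ.filter fun y => z y = c).card : ℝ) ≤ (bohr Γ ρ).card := by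
      have h2 := e3 fun _ => (1 : ℝ)
      simp only [sum_const, nsmul_eq_mul, mul_one] at h2
      rw [← h2]
      exact Nat.cast_le.2 ((card_le_card hBA).trans (card_map _).le)
    rw [e3]
    refine (norm_sum_le _ _).trans (le_trans (sum_le_sum (g := fun c => M c +
      hf (R + 2) * (univ.filter fun y => z y = c).card) fun c hc => ?_) ?_)
    · obtain ⟨h2, h3⟩ := mem_filter.1 hc
      exact (atomf_cell hg hk hψ (fun y => mem_bohr_of_le (hz y) (hf_anti ha)) hr ξ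
        (mem_bohr_of_le ((hmA c).1 h2) hρ) fun y hy =>
          mem_bohr_of_le ((hmA y).1 (h3 y hy)) hρ).trans (add_le_add (hM c r _ hr) le_rfl)
    · rw [sum_add_distrib, ← mul_sum]
      exact add_le_add (sum_le_sum_of_subset_of_nonneg (filter_subset _ _) fun c _ _ => hM0 c)
        (mul_le_mul_of_nonneg_left h1 he0.le)
  have b3 := norm_sum_sub_sum_le A B (fun y => g y * ch (-atomfQ ψ r ξ (y - x))) fun y => by
    rw [norm_mul, norm_ch, mul_one]; exact hg y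
  rw [sdiff_eq_empty_iff_subset.2 hBA, card_empty, Nat.cast_zero, add_zero] at b3
  rw [e1, e2]
  refine (norm_le_norm_add_norm_sub' _ (∑ y ∈ B, g y * ch (-atomfQ ψ r ξ (y - x)))).trans ?_
  linarith

lemma atomf_cz (ψ : Fin k → ZMod p → ZMod p) (r : Fin k → ℤ) (h : ℤ) :
    cz (fun j (n : ℤ) => tc (ψ j (n : ZMod p))) r h = tc (cmb ψ r (h : ZMod p)) := by
  unfold cz cmb
  rw [tc_sum]
  exact sum_congr rfl fun j _ => zsmul_tc _ _

theorem atom : AtomStmt := by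
  refine ⟨5, fun m R hm hmR p _ g hg ⟨k, Γ, ψ, hk, hΓ, hψ, hL⟩ y0 => ?_⟩
  have hR : 2 ≤ R := hm.trans hmR
  have hC : 6 * R + 11 ≤ R ^ 5 := by
    have : 16 * R ^ 1 ≤ R ^ 5 := poly_le (k := 4) hR (by norm_num)
    rw [pow_one] at this
    omega
  have hp : (0 : ℝ) < p := by exact_mod_cast NeZero.pos p
  obtain ⟨ρ, hρ1, hρ2, hreg⟩ := exists_reg Γ (n := R) (K := R) (e := R + 2) (ρ := hf R)
    (w := 2 * hf (4 * R + 8)) hΓ le_rfl (by have := hf_pos (4 * R + 8); positivity) (by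
      have h1 : (R : ℝ) + 2 ≤ 2 ^ (R + 2) := by exact_mod_cast nat_le_two_pow (R + 2)
      have h2 : (R : ℝ) + 1 ≤ 2 ^ (R + 1) := by exact_mod_cast nat_le_two_pow (R + 1)
      have h3 : 8 * (((R : ℝ) + 2) * (R + 1)) ≤ 2 ^ (2 * R + 6) := by
        calc 8 * (((R : ℝ) + 2) * (R + 1)) ≤ 8 * (2 ^ (R + 2) * 2 ^ (R + 1)) := by gcongr
          _ = 2 ^ (2 * R + 6) := by ring
      have h4 := mul_hf_le (n := R + (R + 2)) (m := 4 * R + 8) h3 (by omega)
      rw [hf_add R] at h4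
      linarith)
  have hρ0 : 0 ≤ ρ := le_trans (half_pos (hf_pos R)).le hρ1
  obtain ⟨z, Bad, hzz, hz, hBad, hin⟩ := atomf_cells Γ (4 * R + 8) (2 * R + 2)
  choose rc ξc hrc hmax using atomf_max g ψ z
  choose θ hθ using fun c => exists_ex_mul_norm (atomfS g ψ z c (rc c) (ξc c))
  obtain ⟨r, ξ, hr, hcorr⟩ := hL (bohr Γ ρ) (bohr_mono Subset.rfl hρ2) ⟨0, zero_mem_bohr Γ hρ0⟩
  have hW : (0 : ℝ) < (bohr Γ ρ).card := by exact_mod_cast card_bohr_pos Γ hρ0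
  have hsum : (p : ℝ) / (2 * m) ≤ ∑ c, ‖atomfS g ψ z c (rc c) (ξc c)‖ := by
    have h1 := hcorr.trans (sum_le_sum fun x _ => atomf_window hg hk hψ (by omega) hρ2 hreg hzz hz
      (M := fun c => ‖atomfS g ψ z c (rc c) (ξc c)‖) (fun c => norm_nonneg _) hmax (hr x) (ξ x) x)
    have h0 : ∀ w ∈ bohr Γ ρ, ∑ x, ‖atomfS g ψ z (x + w) (rc (x + w)) (ξc (x + w))‖ =
        ∑ c, ‖atomfS g ψ z c (rc c) (ξc c)‖ := fun w _ =>
      Equiv.sum_comp (Equiv.addRight w) fun c => ‖atomfS g ψ z c (rc c) (ξc c)‖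
    rw [sum_add_distrib, sum_comm, sum_congr rfl h0] at h1
    simp only [sum_const, nsmul_eq_mul, card_univ, ZMod.card] at h1
    have hm' : (0 : ℝ) < m := by exact_mod_cast (by omega : 0 < m)
    have h2 : (m : ℝ) * hf (R + 2) ≤ hf 2 :=
      mul_hf_le (a := R) (le_trans (by exact_mod_cast hmR) (nat_le_two_pow R)) (by omega)
    have h3 : hf 2 = 1 / 4 := by norm_num [hf]
    have h4 : 2 * hf (R + 2) ≤ 1 / (2 * m) := by
      rw [le_div_iff₀ (by positivity)]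
      linarith
    refine le_of_mul_le_mul_left ?_ hW
    have h5 := mul_le_mul_of_nonneg_left (mul_le_mul_of_nonneg_right h4 hW.le) hp.le
    have h6 : (p : ℝ) * (bohr Γ ρ).card / m =
        (bohr Γ ρ).card * (p / (2 * m)) + p * (1 / (2 * m) * (bohr Γ ρ).card) := by
      field_simp
      ring
    linarith
  have hle : hf (R ^ 5) ≤ hf R := hf_anti (by omega)
  refine ⟨⟨k, Γ.image tc, fun j n => tc (ψ j n),
    ⟨fun y => θ (z y) + tc (atomfQ ψ (rc (z y)) (ξc (z y)) (y - z y)),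
      fun y => tc (ξc (z y) + 2 * cmb ψ (rc (z y)) (y - z y)), fun y => rc (z y)⟩⟩,
    ⟨by dsimp only; omega, card_image_le.trans (by omega), fun j => ⟨fun h h' a1 a2 a3 => ?_,
      fun h h' a1 a2 => ?_⟩, fun y j => hrc _ j⟩, ?_, ?_⟩
  · rw [BZ_image] at a1 a2 a3
    rw [Int.cast_add] at a3
    dsimp only
    rw [Int.cast_add, (hψ j).1 _ (mem_bohr_of_le a1 hle) _ (mem_bohr_of_le a2 hle)
      (mem_bohr_of_le a3 hle), tc_add]
  · rw [BZ_image] at a1 a2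
    dsimp only
    rw [zsmul_tc, zsmul_tc, ← tc_sub, mul_comm (h' : ZMod p), mul_comm (h : ZMod p)]
    exact (hψ j).2 _ (mem_bohr_of_le a1 hle) _ (mem_bohr_of_le a2 hle)
  · have h1 : (Bad.card : ℝ) ≤ hf R * p := by
      have h2 : 4 * (Γ.card : ℝ) ≤ 2 ^ (R + 2) := by
        have : (Γ.card : ℝ) ≤ 2 ^ R := le_trans (by exact_mod_cast hΓ) (nat_le_two_pow R)
        rw [pow_add]
        linarith
      have h3 := mul_le_mul_of_nonneg_right (mul_hf_le (n := R) (m := 2 * R + 2) h2 (by omega))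
        hp.le
      linarith
    refine le_trans (Nat.cast_le.2 ?_) h1
    have h2 : ((Ico y0 (y0 + p)).filter fun y : ℤ => (y : ZMod p) ∈ Bad).card = Bad.card := by
      rw [card_filter, sum_Ico_zmod (fun x => if x ∈ Bad then 1 else 0) y0]
      simp
    rw [← h2]
    refine card_le_card (monotone_filter_right _ fun y _ hy => ?_)
    by_contra hyB
    refine hy fun h hh h' hh' => ?_
    change BZ (Γ.image tc) _ _ at hh hh'
    rw [BZ_image] at hh hh'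
    have hs : hf (R ^ 5) + hf (R ^ 5) ≤ hf (4 * R + 8 + (2 * R + 2)) := by
      have := hf_anti (m := 4 * R + 8 + (2 * R + 2) + 1) (n := R ^ 5) (by omega)
      rw [hf_succ] at this
      linarith
    have z1 : z ((y + h : ℤ) : ZMod p) = z y := by
      rw [Int.cast_add]
      exact hin _ hyB _ (mem_bohr_of_le hh (by linarith [hf_pos (R ^ 5)]))
    have z2 : z ((y + h + h' : ℤ) : ZMod p) = z ((y + h : ℤ) : ZMod p) := by
      rw [z1, Int.cast_add, Int.cast_add, add_assoc]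
      exact hin _ hyB _ (mem_bohr_of_le (add_mem_bohr hh hh') hs)
    have v1 := mem_bohr_of_le (hz ((y + h : ℤ) : ZMod p)) (hf_anti (by omega : R ≤ 4 * R + 8))
    have v2 := mem_bohr_of_le (hz ((y + h + h' : ℤ) : ZMod p)) (hf_anti (by omega : R ≤ 4 * R + 8))
    dsimp only
    rw [z2] at v2 ⊢
    generalize z ((y + h : ℤ) : ZMod p) = c at v1 v2 ⊢
    have e1 : ((y + h + h' : ℤ) : ZMod p) - c = ((y + h : ℤ) : ZMod p) - c + h' := by
      rw [Int.cast_add (y + h)]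
      ring
    rw [e1] at v2 ⊢
    generalize ((y + h : ℤ) : ZMod p) - c = v at v1 v2 ⊢
    have v3 := mem_bohr_of_le hh' hle
    rw [atomf_cz]
    refine ⟨?_, ?_, rfl⟩
    · rw [atomf_split hψ _ _ v1 v3 v2, add_sub_add_left_eq_sub, zsmul_tc, zsmul_tc, ← tc_sub,
        ← tc_sub, ← tc_sub]
      have h3 := atomf_asym hk hψ (hrc c) (mem_bohr_of_le hh' (hf_anti (by omega))) v1
      have h4 := hf_anti (by omega : R ≤ R + 2)
      refine le_trans (le_of_eq ?_) (h3.trans (by linarith [hf_pos (R + 2)]))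
      unfold nm atomfQ
      congr 2
      ring
    · rw [hψ.cmb_add _ _ v1 _ v3 v2, zsmul_tc, ← tc_add]
      congr 1
      push_cast
      ring
  · refine hsum.trans (le_of_eq ?_)
    dsimp only
    rw [sum_Ico_zmod (fun y => (g y * conj (ex (θ (z y) +
      tc (atomfQ ψ (rc (z y)) (ξc (z y)) (y - z y))))).re) y0]
    refine Eq.trans (sum_congr rfl fun c _ => ?_)
      (sum_fiberwise_of_maps_to (s := univ) (t := univ) (g := z) (fun y _ => mem_univ _) _)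
    have h1 : ∑ y ∈ univ.filter fun y => z y = c, g y * conj (ex (θ (z y) +
        tc (atomfQ ψ (rc (z y)) (ξc (z y)) (y - z y)))) =
        ex (-θ c) * atomfS g ψ z c (rc c) (ξc c) := by
      rw [atomfS, mul_sum]
      refine sum_congr rfl fun y hy => ?_
      rw [(mem_filter.1 hy).2, conj_ex, neg_add, ex_add, ← tc_neg, ch]
      ring
    rw [← Complex.re_sum, h1]
    conv_rhs => rw [← hθ c]
    rw [← mul_assoc, ← ex_add, neg_add_cancel, ex_zero, one_mul, Complex.ofReal_re]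

end Pool.Agent.Lib.MP_9721b5_an
end
end

-- part Pool.Agent.Lib.MP_9721b5_an.TermA
section

/-! Abstract inequalities for the terminal step: duality, large sieve, Fourier expansions. -/

set_option autoImplicit false

open Finset
open scoped Classical ComplexConjugate Pointwise

noncomputable section

namespace Pool.Agent.Lib.MP_9721b5_an

lemma term_conj_mul (z : ℂ) : conj z * z = ((‖z‖ ^ 2 : ℝ) : ℂ) := by
  rw [mul_comm, Complex.mul_conj, Complex.normSq_eq_norm_sq]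

lemma term_norm_sum_le {α : Type*} (U : Finset α) (f : α → ℂ) (L : ℝ)
    (hf : ∀ u ∈ U, ‖f u‖ ≤ L) : ‖∑ u ∈ U, f u‖ ≤ U.card * L := by
  refine (norm_sum_le _ _).trans ?_
  simpa using sum_le_card_nsmul U (fun u => ‖f u‖) L hf

/-- Duality. -/
lemma term_dual {ι α : Type*} (s : Finset ι) (U : Finset α) (φ : ι → α → ℂ) (a : α → ℂ)
    (M : ι → ℝ) (hM : ∀ i, 0 ≤ M i) :
    (∑ i ∈ s, M i * ‖∑ u ∈ U, a u * φ i u‖ ^ 2) ^ 2 ≤ (∑ u ∈ U, ‖a u‖ ^ 2) *
      ∑ u ∈ U, ‖∑ i ∈ s, ((M i : ℂ) * conj (∑ u ∈ U, a u * φ i u)) * φ i u‖ ^ 2 := by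
  set b : ι → ℂ := fun i => ∑ u ∈ U, a u * φ i u with hb
  set Y : α → ℂ := fun u => ∑ i ∈ s, ((M i : ℂ) * conj (b i)) * φ i u with hY
  have h0 : 0 ≤ ∑ i ∈ s, M i * ‖b i‖ ^ 2 := sum_nonneg fun i _ => mul_nonneg (hM i) (by positivity)
  have h1 : ((∑ i ∈ s, M i * ‖b i‖ ^ 2 : ℝ) : ℂ) = ∑ u ∈ U, a u * Y u := by
    have : ∀ i, ((M i * ‖b i‖ ^ 2 : ℝ) : ℂ) = ∑ u ∈ U, a u * (((M i : ℂ) * conj (b i)) * φ i u) := by
      intro i
      rw [Complex.ofReal_mul, ← term_conj_mul]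
      have : ∑ u ∈ U, a u * (((M i : ℂ) * conj (b i)) * φ i u) =
          ((M i : ℂ) * conj (b i)) * ∑ u ∈ U, a u * φ i u := by
        rw [mul_sum]; exact sum_congr rfl fun u _ => by ring
      rw [this]; ring
    rw [Complex.ofReal_sum, sum_congr rfl fun i _ => this i, sum_comm]
    exact sum_congr rfl fun u _ => by rw [hY, mul_sum]
  have h2 : ∑ i ∈ s, M i * ‖b i‖ ^ 2 ≤ ∑ u ∈ U, ‖a u‖ * ‖Y u‖ := by
    have : ‖((∑ i ∈ s, M i * ‖b i‖ ^ 2 : ℝ) : ℂ)‖ = ∑ i ∈ s, M i * ‖b i‖ ^ 2 := by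
      rw [Complex.norm_real, Real.norm_eq_abs, abs_of_nonneg h0]
    rw [← this, h1]
    refine (norm_sum_le _ _).trans (le_of_eq ?_)
    exact sum_congr rfl fun u _ => norm_mul _ _
  calc (∑ i ∈ s, M i * ‖b i‖ ^ 2) ^ 2 ≤ (∑ u ∈ U, ‖a u‖ * ‖Y u‖) ^ 2 := by gcongr
    _ ≤ _ := sum_mul_sq_le_sq_mul_sq _ _ _

/-- Expansion of a square. -/
lemma term_expand {ι α : Type*} (s : Finset ι) (U : Finset α) (y : ι → α → ℂ) :
    ∑ u ∈ U, ‖∑ i ∈ s, y i u‖ ^ 2 ≤ ∑ i ∈ s, ∑ j ∈ s, ‖∑ u ∈ U, y i u * conj (y j u)‖ := by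
  have h0 : 0 ≤ ∑ u ∈ U, ‖∑ i ∈ s, y i u‖ ^ 2 := sum_nonneg fun u _ => by positivity
  have h1 : ((∑ u ∈ U, ‖∑ i ∈ s, y i u‖ ^ 2 : ℝ) : ℂ) =
      ∑ i ∈ s, ∑ j ∈ s, ∑ u ∈ U, y i u * conj (y j u) := by
    rw [Complex.ofReal_sum]
    have : ∀ u, ((‖∑ i ∈ s, y i u‖ ^ 2 : ℝ) : ℂ) = ∑ i ∈ s, ∑ j ∈ s, y i u * conj (y j u) := by
      intro u
      rw [← term_conj_mul, mul_comm, map_sum, sum_mul_sum]
    rw [sum_congr rfl fun u _ => this u, sum_comm]
    exact sum_congr rfl fun i _ => sum_comm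
  have h2 : ‖((∑ u ∈ U, ‖∑ i ∈ s, y i u‖ ^ 2 : ℝ) : ℂ)‖ = ∑ u ∈ U, ‖∑ i ∈ s, y i u‖ ^ 2 := by
    rw [Complex.norm_real, Real.norm_eq_abs, abs_of_nonneg h0]
  rw [← h2, h1]
  exact (norm_sum_le _ _).trans (sum_le_sum fun i _ => norm_sum_le _ _)

/-- The inequality of Halasz and Montgomery. -/
lemma term_HM {ι α : Type*} (s : Finset ι) (U : Finset α) (φ : ι → α → ℂ) (a : α → ℂ)
    (M : ι → ℝ) (hM : ∀ i, 0 ≤ M i) (Λ : ℝ) (hΛ0 : 0 ≤ Λ)
    (hΛ : ∀ i ∈ s, ∑ j ∈ s, M j * ‖∑ u ∈ U, φ i u * conj (φ j u)‖ ≤ Λ) :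
    ∑ i ∈ s, M i * ‖∑ u ∈ U, a u * φ i u‖ ^ 2 ≤ (∑ u ∈ U, ‖a u‖ ^ 2) * Λ := by
  have h1 := term_dual s U φ a M hM
  have h2 := term_expand s U fun i u => ((M i : ℂ) * conj (∑ u ∈ U, a u * φ i u)) * φ i u
  set b : ι → ℂ := fun i => ∑ u ∈ U, a u * φ i u with hb
  set G : ι → ι → ℝ := fun i j => ‖∑ u ∈ U, φ i u * conj (φ j u)‖ with hG
  set Q := ∑ i ∈ s, M i * ‖b i‖ ^ 2 with hQ
  set A := ∑ u ∈ U, ‖a u‖ ^ 2 with hA
  have hA0 : 0 ≤ A := sum_nonneg fun u _ => by positivity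
  have hQ0 : 0 ≤ Q := sum_nonneg fun i _ => mul_nonneg (hM i) (by positivity)
  have hGs : ∀ i j, G i j = G j i := by
    intro i j
    simp only [hG]
    rw [← Complex.norm_conj, map_sum]
    congr 1
    exact sum_congr rfl fun u _ => by rw [map_mul, Complex.conj_conj, mul_comm]
  have h3 : ∀ i j, ‖∑ u ∈ U, (((M i : ℂ) * conj (b i)) * φ i u) *
      conj (((M j : ℂ) * conj (b j)) * φ j u)‖ ≤
      (M i * ‖b i‖ ^ 2 * (M j * G i j) + M j * ‖b j‖ ^ 2 * (M i * G j i)) / 2 := by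
    intro i j
    have : ∑ u ∈ U, (((M i : ℂ) * conj (b i)) * φ i u) * conj (((M j : ℂ) * conj (b j)) * φ j u) =
        (((M i : ℂ) * conj (b i)) * conj ((M j : ℂ) * conj (b j))) *
          ∑ u ∈ U, φ i u * conj (φ j u) := by
      rw [mul_sum]
      exact sum_congr rfl fun u _ => by rw [map_mul ((starRingEnd ℂ)) _ (φ j u)]; ring
    rw [this, norm_mul, norm_mul, Complex.norm_conj, norm_mul, norm_mul, Complex.norm_conj,
      Complex.norm_conj, Complex.norm_real, Complex.norm_real, Real.norm_eq_abs, Real.norm_eq_abs,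
      abs_of_nonneg (hM i), abs_of_nonneg (hM j), hGs j i]
    have hG0 : 0 ≤ G i j := norm_nonneg _
    have h4 : 0 ≤ M i * M j * G i j := mul_nonneg (mul_nonneg (hM i) (hM j)) hG0
    have h5 := mul_nonneg h4 (sq_nonneg (‖b i‖ - ‖b j‖))
    change M i * ‖b i‖ * (M j * ‖b j‖) * G i j ≤ _
    nlinarith
  have h6 : ∑ i ∈ s, ∑ j ∈ s, M i * ‖b i‖ ^ 2 * (M j * G i j) ≤ Q * Λ := by
    rw [hQ, sum_mul]
    refine sum_le_sum fun i hi => ?_
    rw [← mul_sum]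
    exact mul_le_mul_of_nonneg_left (hΛ i hi) (mul_nonneg (hM i) (by positivity))
  have h7 : ∑ i ∈ s, ∑ j ∈ s, ‖∑ u ∈ U, (((M i : ℂ) * conj (b i)) * φ i u) *
      conj (((M j : ℂ) * conj (b j)) * φ j u)‖ ≤ Q * Λ := by
    refine (sum_le_sum fun i _ => sum_le_sum fun j _ => h3 i j).trans ?_
    simp only [← sum_div, sum_add_distrib]
    have : ∑ i ∈ s, ∑ j ∈ s, M j * ‖b j‖ ^ 2 * (M i * G j i) =
        ∑ i ∈ s, ∑ j ∈ s, M i * ‖b i‖ ^ 2 * (M j * G i j) := sum_comm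
    rw [this]
    linarith
  have h8 : Q ^ 2 ≤ A * (Q * Λ) := h1.trans (mul_le_mul_of_nonneg_left (h2.trans h7) hA0)
  rcases hQ0.eq_or_lt with h | h
  · rw [← h]; exact mul_nonneg hA0 hΛ0
  · have : Q * Q ≤ Q * (A * Λ) := by nlinarith
    exact le_of_mul_le_mul_left this h

variable {p : ℕ} [NeZero p]

lemma term_p_pos : (0 : ℝ) < p := by exact_mod_cast Nat.pos_of_ne_zero (NeZero.ne p)

/-- Parseval for a weighted sum of translates. -/
lemma term_conv (f : ZMod p → ℂ) (U : Finset (ZMod p)) (a : ZMod p → ℂ) :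
    ∑ z, ‖∑ u ∈ U, a u * f (z + u)‖ ^ 2 =
      p * ∑ ξ, ‖ft f ξ‖ ^ 2 * ‖∑ u ∈ U, a u * ch (ξ * u)‖ ^ 2 := by
  have h1 := parseval fun z => ∑ u ∈ U, a u * f (z + u)
  have h2 : ∀ ξ, ft (fun z => ∑ u ∈ U, a u * f (z + u)) ξ =
      ft f ξ * ∑ u ∈ U, a u * ch (ξ * u) := by
    intro ξ
    have : ∀ u, a u * (ft f ξ * ch (ξ * u)) =
        (∑ x, a u * f (x + u) * ch (-(ξ * x))) / p := by
      intro u
      rw [← ft_shift]
      unfold ft
      rw [← mul_div_assoc, mul_sum]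
      congr 1
      exact sum_congr rfl fun x _ => by ring
    rw [mul_sum, sum_congr rfl fun u _ => (by rw [← this u]; ring :
      ft f ξ * (a u * ch (ξ * u)) = (∑ x, a u * f (x + u) * ch (-(ξ * x))) / p), ← sum_div,
      sum_comm]
    unfold ft
    congr 1
    exact sum_congr rfl fun x _ => by rw [sum_mul]
  have hp := term_p_pos (p := p)
  rw [eq_div_iff hp.ne'] at h1
  rw [← h1, mul_comm]
  congr 1
  exact sum_congr rfl fun ξ _ => by rw [h2, norm_mul, mul_pow]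

lemma term_two_pi : 2 * Real.pi ≤ 7 := by linarith [Real.pi_lt_d2]

/-- Changing the phases a little. -/
lemma term_approx {α : Type*} (U : Finset α) (f : α → ℂ) (L e : ℝ) (θ θ' : α → ZMod p)
    (c0 : ZMod p) (hf : ∀ u ∈ U, ‖f u‖ ≤ L) (hθ : ∀ u ∈ U, nm (θ u - (c0 + θ' u)) ≤ e) :
    ‖∑ u ∈ U, f u * ch (θ u)‖ ≤ ‖∑ u ∈ U, f u * ch (θ' u)‖ + U.card * (7 * e * L) := by
  have h1 : ‖∑ u ∈ U, f u * ch (θ u) - ch c0 * ∑ u ∈ U, f u * ch (θ' u)‖ ≤
      U.card * (7 * e * L) := by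
    rw [mul_sum, ← sum_sub_distrib]
    refine term_norm_sum_le _ _ _ fun u hu => ?_
    have : f u * ch (θ u) - ch c0 * (f u * ch (θ' u)) = f u * (ch (θ u) - ch (c0 + θ' u)) := by
      rw [ch_add]; ring
    rw [this, norm_mul]
    have h2 := ch_sub_ch_le (θ u) (c0 + θ' u)
    have h3 := hθ u hu
    have h4 := nm_nonneg (θ u - (c0 + θ' u))
    have h5 : ‖ch (θ u) - ch (c0 + θ' u)‖ ≤ 7 * e := by
      refine h2.trans ?_
      have := term_two_pi
      have := Real.pi_pos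
      nlinarith
    calc ‖f u‖ * ‖ch (θ u) - ch (c0 + θ' u)‖ ≤ L * (7 * e) :=
          mul_le_mul (hf u hu) h5 (norm_nonneg _) ((norm_nonneg _).trans (hf u hu))
      _ = 7 * e * L := by ring
  have h2 : ‖ch c0 * ∑ u ∈ U, f u * ch (θ' u)‖ = ‖∑ u ∈ U, f u * ch (θ' u)‖ := by
    rw [norm_mul, norm_ch, one_mul]
  have h3 := norm_sub_norm_le (∑ u ∈ U, f u * ch (θ u)) (ch c0 * ∑ u ∈ U, f u * ch (θ' u))
  linarith

lemma term_half (U : Finset (ZMod p)) (ζ : ZMod p) (h : ∀ u ∈ U, nm (ζ * u) ≤ 1 / 25) :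
    (U.card : ℝ) ^ 2 / 2 ≤ ‖∑ u ∈ U, ch (ζ * u)‖ ^ 2 := by
  have h1 := term_approx U (fun _ => 1) 1 (1 / 25) (fun _ => 0) (fun u => ζ * u) 0
    (by simp) (fun u hu => by simpa using h u hu)
  simp only [one_mul, ch_zero, sum_const, nsmul_eq_mul, mul_one, Complex.norm_natCast] at h1
  have h2 : (18 / 25 : ℝ) * U.card ≤ ‖∑ u ∈ U, ch (ζ * u)‖ := by linarith
  have h3 : ((18 / 25 : ℝ) * U.card) ^ 2 ≤ ‖∑ u ∈ U, ch (ζ * u)‖ ^ 2 := by gcongr
  nlinarith [sq_nonneg (U.card : ℝ)]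

lemma term_parseval_ind (B : Finset (ZMod p)) (b : ZMod p → ℂ) (hb : ∀ x, ‖b x‖ ≤ 1) :
    ∑ ξ, ‖ft (fun x => if x ∈ B then b x else 0) ξ‖ ^ 2 ≤ B.card / p := by
  rw [parseval]
  refine div_le_div_of_nonneg_right ?_ (term_p_pos (p := p)).le
  have : ∀ x, ‖(if x ∈ B then b x else 0)‖ ^ 2 ≤ if x ∈ B then (1 : ℝ) else 0 := by
    intro x
    split_ifs
    · exact pow_le_one₀ (norm_nonneg _) (hb x)
    · simp
  refine (sum_le_sum fun x _ => this x).trans (le_of_eq ?_)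
  simp

/-- A local correlation has an absolutely convergent Fourier expansion. -/
lemma term_wiener (H B X : Finset (ZMod p)) (a b : ZMod p → ℂ) (ha : ∀ h, ‖a h‖ ≤ 1)
    (hb : ∀ h, ‖b h‖ ≤ 1) (hB : ∀ x ∈ X, ∀ h ∈ H, x + h ∈ B) :
    ∃ d : ZMod p → ℂ, (∑ ξ, ‖d ξ‖) ^ 2 ≤ H.card * B.card ∧
      ∀ x ∈ X, ∑ h ∈ H, a h * b (x + h) = ∑ ξ, d ξ * ch (ξ * x) := by
  set a' : ZMod p → ℂ := fun h => if h ∈ H then a h else 0 with ha'
  set b' : ZMod p → ℂ := fun h => if h ∈ B then b h else 0 with hb'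
  have hp := term_p_pos (p := p)
  refine ⟨fun ξ => p * ft a' (-ξ) * ft b' ξ, ?_, fun x hx => ?_⟩
  · have h1 : ∑ ξ, ‖(p : ℂ) * ft a' (-ξ) * ft b' ξ‖ = p * ∑ ξ, ‖ft a' (-ξ)‖ * ‖ft b' ξ‖ := by
      rw [mul_sum]
      exact sum_congr rfl fun ξ _ => by rw [norm_mul, norm_mul, Complex.norm_natCast, mul_assoc]
    have h2 := sum_mul_sq_le_sq_mul_sq univ (fun ξ => ‖ft a' (-ξ)‖) (fun ξ => ‖ft b' ξ‖)
    have h3 : ∑ ξ, ‖ft a' (-ξ)‖ ^ 2 = ∑ ξ, ‖ft a' ξ‖ ^ 2 :=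
      Equiv.sum_comp (Equiv.neg (ZMod p)) fun ξ => ‖ft a' ξ‖ ^ 2
    have h4 := term_parseval_ind H a ha
    have h5 := term_parseval_ind B b hb
    rw [h3] at h2
    have h6 : (∑ ξ, ‖ft a' ξ‖ ^ 2) * ∑ ξ, ‖ft b' ξ‖ ^ 2 ≤ (H.card / p) * (B.card / p) :=
      mul_le_mul h4 h5 (sum_nonneg fun _ _ => by positivity) (by positivity)
    rw [h1, mul_pow]
    calc (p : ℝ) ^ 2 * (∑ ξ, ‖ft a' (-ξ)‖ * ‖ft b' ξ‖) ^ 2 ≤
          (p : ℝ) ^ 2 * ((H.card / p) * (B.card / p)) :=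
          mul_le_mul_of_nonneg_left (h2.trans h6) (by positivity)
      _ = H.card * B.card := by field_simp
  · rw [← corr_eq a' b' x]
    have : ∀ h, a' h * b' (x + h) = if h ∈ H then a h * b (x + h) else 0 := by
      intro h
      by_cases hh : h ∈ H
      · simp [ha', hb', hh, hB x hx h hh]
      · simp [ha', hh]
    rw [sum_congr rfl fun h _ => this h]
    simp

/-- A phase with small exponential sums is orthogonal to functions of bounded Wiener norm. -/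
lemma term_cross_pt (X : Finset (ZMod p)) (q : ZMod p → ZMod p) (E : ℝ)
    (htest : ∀ ξ, ‖∑ x ∈ X, ch (q x + ξ * x)‖ ≤ E) (D D' d d' : ZMod p → ℂ)
    (hD : ∀ x ∈ X, D x = ∑ ξ, d ξ * ch (ξ * x)) (hD' : ∀ x ∈ X, D' x = ∑ ξ, d' ξ * ch (ξ * x))
    (η : ZMod p) :
    ‖∑ x ∈ X, (D x * conj (D' x)) * ch (q x + η * x)‖ ≤ (∑ ξ, ‖d ξ‖) * (∑ ξ, ‖d' ξ‖) * E := by
  have h1 : ∑ x ∈ X, (D x * conj (D' x)) * ch (q x + η * x) =
      ∑ ξ, ∑ ξ', (d ξ * conj (d' ξ')) * ∑ x ∈ X, ch (q x + (η + ξ - ξ') * x) := by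
    have : ∀ x ∈ X, (D x * conj (D' x)) * ch (q x + η * x) =
        ∑ ξ, ∑ ξ', (d ξ * conj (d' ξ')) * ch (q x + (η + ξ - ξ') * x) := by
      intro x hx
      rw [hD x hx, hD' x hx, map_sum, sum_mul_sum, sum_mul]
      refine sum_congr rfl fun ξ _ => ?_
      rw [sum_mul]
      refine sum_congr rfl fun ξ' _ => ?_
      have : q x + (η + ξ - ξ') * x = (q x + η * x) + (ξ * x - ξ' * x) := by ring
      rw [this, ch_add (q x + η * x), ch_sub, map_mul]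
      ring
    rw [sum_congr rfl this, sum_comm]
    refine sum_congr rfl fun ξ _ => ?_
    rw [sum_comm]
    exact sum_congr rfl fun ξ' _ => by rw [mul_sum]
  rw [h1, sum_mul_sum, sum_mul]
  refine (norm_sum_le _ _).trans (sum_le_sum fun ξ _ => ?_)
  rw [sum_mul]
  refine (norm_sum_le _ _).trans (sum_le_sum fun ξ' _ => ?_)
  rw [norm_mul, norm_mul, Complex.norm_conj]
  exact mul_le_mul_of_nonneg_left (htest _) (by positivity)

/-- The diagonal terms. -/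
lemma term_diag (H Cs Cp W : Finset (ZMod p)) (G : ZMod p → ℂ) (hG : ∀ x, ‖G x‖ ≤ 1) (g0 Y : ℝ)
    (hg0 : 0 ≤ g0) (hCp : ∀ u ∈ Cs, ∀ h ∈ H, u + h ∈ Cp) (hW : W.Nonempty)
    (hspec : ∀ ζ, g0 * H.card ≤ ‖∑ h ∈ H, ch (-(ζ * h))‖ → ∀ w ∈ W, nm (ζ * w) ≤ 1 / 25)
    (hY : ∀ ξ, ∑ y, ‖∑ w ∈ W, ch (-(ξ * w)) * (if y + w ∈ Cp then G (y + w) else 0)‖ ^ 2 ≤
      Y * (W.card : ℝ) ^ 2) (a : ZMod p → ℂ) :
    ∑ u ∈ Cs, ‖∑ h ∈ H, a h * G (u + h)‖ ^ 2 ≤
      (∑ h ∈ H, ‖a h‖ ^ 2) * (H.card * (g0 * Cp.card + 2 * Y)) := by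
  set Φ : ZMod p → ℂ := fun x => if x ∈ Cp then G x else 0 with hΦ
  have hp := term_p_pos (p := p)
  have hWc : (0 : ℝ) < W.card := by exact_mod_cast hW.card_pos
  have hY0 : 0 ≤ Y := by
    have h1 := hY 0
    have h2 : 0 ≤ Y * (W.card : ℝ) ^ 2 := le_trans (sum_nonneg fun _ _ => by positivity) h1
    exact nonneg_of_mul_nonneg_left h2 (by positivity)
  have h1 : ∑ u ∈ Cs, ‖∑ h ∈ H, a h * G (u + h)‖ ^ 2 ≤ ∑ u, ‖∑ h ∈ H, a h * Φ (u + h)‖ ^ 2 := by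
    have : ∀ u ∈ Cs, ‖∑ h ∈ H, a h * G (u + h)‖ ^ 2 = ‖∑ h ∈ H, a h * Φ (u + h)‖ ^ 2 := by
      intro u hu
      congr 2
      exact sum_congr rfl fun h hh => by simp [hΦ, hCp u hu h hh]
    rw [sum_congr rfl this]
    exact sum_le_sum_of_subset_of_nonneg (subset_univ _) fun _ _ _ => by positivity
  rw [term_conv] at h1
  have h2 := term_HM univ H (fun ξ h => ch (ξ * h)) a (fun ξ => ‖ft Φ ξ‖ ^ 2)
    (fun _ => by positivity) (H.card * (g0 * Cp.card + 2 * Y) / p) (by positivity) (by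
      intro ξ _
      have h3 : ∀ ξ', ‖ft Φ ξ'‖ ^ 2 * ‖∑ h ∈ H, ch (ξ * h) * conj (ch (ξ' * h))‖ ≤
          g0 * H.card * ‖ft Φ ξ'‖ ^ 2 + (2 * H.card / (W.card : ℝ) ^ 2) *
            (‖ft Φ ξ'‖ ^ 2 * ‖∑ w ∈ W, ch (-(ξ * w)) * ch (ξ' * w)‖ ^ 2) := by
        intro ξ'
        have e1 : ∑ h ∈ H, ch (ξ * h) * conj (ch (ξ' * h)) = ∑ h ∈ H, ch (-((ξ' - ξ) * h)) :=
          sum_congr rfl fun h _ => by rw [← ch_sub]; congr 1; ring
        have e2 : ∑ w ∈ W, ch (-(ξ * w)) * ch (ξ' * w) = ∑ w ∈ W, ch ((ξ' - ξ) * w) :=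
          sum_congr rfl fun w _ => by rw [← ch_add]; congr 1; ring
        rw [e1, e2]
        have hM : 0 ≤ ‖ft Φ ξ'‖ ^ 2 := by positivity
        by_cases hs : g0 * H.card ≤ ‖∑ h ∈ H, ch (-((ξ' - ξ) * h))‖
        · have h4 := term_half W (ξ' - ξ) (hspec _ hs)
          have h5 : ‖∑ h ∈ H, ch (-((ξ' - ξ) * h))‖ ≤ H.card := by
            simpa using term_norm_sum_le H (fun h => ch (-((ξ' - ξ) * h))) 1 (by simp)
          have h6 : (H.card : ℝ) ≤ (2 * H.card / (W.card : ℝ) ^ 2) *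
              ‖∑ w ∈ W, ch ((ξ' - ξ) * w)‖ ^ 2 := by
            calc (H.card : ℝ) = (2 * H.card / (W.card : ℝ) ^ 2) * ((W.card : ℝ) ^ 2 / 2) := by
                  field_simp
              _ ≤ _ := mul_le_mul_of_nonneg_left h4 (by positivity)
          have h7 : 0 ≤ g0 * H.card * ‖ft Φ ξ'‖ ^ 2 := by positivity
          have h8 := mul_le_mul_of_nonneg_left (h5.trans h6) hM
          nlinarith
        · have h7 : 0 ≤ (2 * H.card / (W.card : ℝ) ^ 2) *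
              (‖ft Φ ξ'‖ ^ 2 * ‖∑ w ∈ W, ch ((ξ' - ξ) * w)‖ ^ 2) := by positivity
          have h8 := mul_le_mul_of_nonneg_left (not_le.1 hs).le hM
          nlinarith
      refine (sum_le_sum fun ξ' _ => h3 ξ').trans ?_
      rw [sum_add_distrib, ← mul_sum, ← mul_sum]
      have h4 := term_parseval_ind Cp G hG
      have h5 := term_conv Φ W fun w => ch (-(ξ * w))
      have h6 : ∑ ξ', ‖ft Φ ξ'‖ ^ 2 * ‖∑ w ∈ W, ch (-(ξ * w)) * ch (ξ' * w)‖ ^ 2 ≤
          Y * (W.card : ℝ) ^ 2 / p := by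
        rw [le_div_iff₀ hp, mul_comm, ← h5]
        exact hY ξ
      calc g0 * H.card * ∑ ξ', ‖ft Φ ξ'‖ ^ 2 + (2 * H.card / (W.card : ℝ) ^ 2) *
            ∑ ξ', ‖ft Φ ξ'‖ ^ 2 * ‖∑ w ∈ W, ch (-(ξ * w)) * ch (ξ' * w)‖ ^ 2 ≤
            g0 * H.card * (Cp.card / p) + (2 * H.card / (W.card : ℝ) ^ 2) *
              (Y * (W.card : ℝ) ^ 2 / p) :=
            add_le_add (mul_le_mul_of_nonneg_left h4 (by positivity))
              (mul_le_mul_of_nonneg_left h6 (by positivity))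
        _ = _ := by field_simp)
  refine h1.trans ((mul_le_mul_of_nonneg_left h2 hp.le).trans (le_of_eq ?_))
  field_simp

omit [NeZero p] in
/-- The duality argument at one base point. -/
lemma term_core {ι : Type*} (I : Finset ι) (H Cs : Finset (ZMod p)) (hCs : Cs.Nonempty)
    (a0 : ZMod p → ℂ) (e G : ι → ZMod p → ℂ) (ha0 : ∀ u, ‖a0 u‖ ≤ 1) (he : ∀ i u, ‖e i u‖ ≤ 1)
    (hG : ∀ i u, ‖G i u‖ ≤ 1) (lam β γ : ℝ) (hlam : 0 ≤ lam) (hβ : 0 ≤ β) (hγ : 0 ≤ γ)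
    (hβγ : (I.card : ℝ) ^ 2 * β ≤ γ ^ 2)
    (hdiag : ∀ i ∈ I, ∀ a : ZMod p → ℂ, ∑ u ∈ Cs, ‖∑ h ∈ H, a h * G i (u + h)‖ ^ 2 ≤
      (∑ h ∈ H, ‖a h‖ ^ 2) * (H.card * Cs.card * lam))
    (hcross : ∀ i ∈ I, ∀ j ∈ I, i ≠ j → ∀ a a' : ZMod p → ℂ, (∀ h, ‖a h‖ ≤ 1) → (∀ h, ‖a' h‖ ≤ 1) →
      ‖∑ u ∈ Cs, (e i u * ∑ h ∈ H, a h * G i (u + h)) *
        conj (e j u * ∑ h ∈ H, a' h * G j (u + h))‖ ≤ Cs.card * (H.card : ℝ) ^ 2 * β) :
    ∑ i ∈ I, ∑ h ∈ H, ‖∑ u ∈ Cs, a0 u * (e i u * G i (u + h))‖ ^ 2 ≤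
      (Cs.card : ℝ) ^ 2 * H.card * (lam + γ) := by
  have hN : (0 : ℝ) < Cs.card := by exact_mod_cast hCs.card_pos
  set N : ℝ := (Cs.card : ℝ) with hNdef
  set K : ι → ZMod p → ℂ := fun i h => ∑ u ∈ Cs, a0 u * (e i u * G i (u + h)) with hK
  set a : ι → ZMod p → ℂ := fun i h => ((1 / N : ℝ) : ℂ) * conj (K i h) with ha
  have hKN : ∀ i h, ‖K i h‖ ≤ N := by
    intro i h
    have := term_norm_sum_le Cs (fun u => a0 u * (e i u * G i (u + h))) 1 fun u _ => by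
      rw [norm_mul, norm_mul]
      exact mul_le_one₀ (ha0 u) (by positivity) (mul_le_one₀ (he i u) (norm_nonneg _) (hG i _))
    simpa using this
  have hna : ∀ i h, ‖a i h‖ = ‖K i h‖ / N := by
    intro i h
    simp only [ha]
    rw [norm_mul, Complex.norm_conj, Complex.norm_real, Real.norm_eq_abs,
      abs_of_nonneg (by positivity)]
    ring
  have ha1 : ∀ i h, ‖a i h‖ ≤ 1 := by
    intro i h
    rw [hna, div_le_one hN]
    exact hKN i h
  set S := ∑ i ∈ I, ∑ h ∈ H, ‖K i h‖ ^ 2 with hS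
  have hS0 : 0 ≤ S := sum_nonneg fun _ _ => sum_nonneg fun _ _ => by positivity
  have h1 := term_dual (I ×ˢ H) Cs (fun ih u => e ih.1 u * G ih.1 (u + ih.2)) a0
    (fun _ => 1 / N) (fun _ => by positivity)
  have e1 : ∑ ih ∈ I ×ˢ H, 1 / N * ‖∑ u ∈ Cs, a0 u * (e ih.1 u * G ih.1 (u + ih.2))‖ ^ 2 =
      S / N := by
    rw [← mul_sum, sum_product, hS]
    ring
  have e2 : ∀ u, ∑ ih ∈ I ×ˢ H, (((1 / N : ℝ) : ℂ) *
      conj (∑ u ∈ Cs, a0 u * (e ih.1 u * G ih.1 (u + ih.2)))) * (e ih.1 u * G ih.1 (u + ih.2)) =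
      ∑ i ∈ I, e i u * ∑ h ∈ H, a i h * G i (u + h) := by
    intro u
    rw [sum_product]
    refine sum_congr rfl fun i _ => ?_
    rw [mul_sum]
    exact sum_congr rfl fun h _ => by simp only [ha, hK]; ring
  have h2 : ∑ u ∈ Cs, ‖a0 u‖ ^ 2 ≤ N := by
    simpa using sum_le_card_nsmul Cs (fun u => ‖a0 u‖ ^ 2) 1
      fun u _ => pow_le_one₀ (norm_nonneg _) (ha0 u)
  simp only [e2] at h1
  rw [e1] at h1
  have h3 := term_expand I Cs fun i u => e i u * ∑ h ∈ H, a i h * G i (u + h)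
  have h4 : ∀ i ∈ I, ∑ j ∈ I, ‖∑ u ∈ Cs, (e i u * ∑ h ∈ H, a i h * G i (u + h)) *
      conj (e j u * ∑ h ∈ H, a j h * G j (u + h))‖ ≤
      (∑ h ∈ H, ‖K i h‖ ^ 2) / N ^ 2 * (H.card * N * lam) + I.card * (N * (H.card : ℝ) ^ 2 * β) := by
    intro i hi
    rw [← add_sum_erase I _ hi]
    refine add_le_add ?_ ?_
    · have h5 := hdiag i hi (a i)
      have h6 : ∑ h ∈ H, ‖a i h‖ ^ 2 = (∑ h ∈ H, ‖K i h‖ ^ 2) / N ^ 2 := by
        rw [sum_div]
        exact sum_congr rfl fun h _ => by rw [hna, div_pow]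
      rw [h6] at h5
      refine le_trans ?_ h5
      refine (norm_sum_le _ _).trans (sum_le_sum fun u _ => ?_)
      rw [norm_mul, Complex.norm_conj, norm_mul, ← sq, mul_pow]
      exact mul_le_of_le_one_left (by positivity) (pow_le_one₀ (norm_nonneg _) (he i u))
    · have h5 := sum_le_card_nsmul (I.erase i) (fun j => ‖∑ u ∈ Cs,
        (e i u * ∑ h ∈ H, a i h * G i (u + h)) * conj (e j u * ∑ h ∈ H, a j h * G j (u + h))‖)
        (N * (H.card : ℝ) ^ 2 * β) fun j hj =>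
          hcross i hi j (mem_of_mem_erase hj) (ne_of_mem_erase hj).symm _ _ (ha1 i) (ha1 j)
      refine h5.trans ?_
      rw [nsmul_eq_mul]
      have : ((I.erase i).card : ℝ) ≤ I.card := by exact_mod_cast card_erase_le
      exact mul_le_mul_of_nonneg_right this (by positivity)
  have h5 := h3.trans (sum_le_sum h4)
  rw [sum_add_distrib, ← sum_mul, ← sum_div, ← hS, sum_const, nsmul_eq_mul] at h5
  have h6 : (S / N) ^ 2 ≤ N * (S / N ^ 2 * (H.card * N * lam) +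
      I.card * (I.card * (N * (H.card : ℝ) ^ 2 * β))) :=
    h1.trans (mul_le_mul h2 h5 (sum_nonneg fun _ _ => by positivity) hN.le)
  set T := S / N ^ 2 with hT
  have hT0 : 0 ≤ T := by positivity
  have e3 : S / N = N * T := by rw [hT]; field_simp
  have h7 : N ^ 2 * T ^ 2 ≤ N ^ 2 * (T * (H.card * lam) + (H.card * γ) ^ 2) := by
    have h8 : (H.card : ℝ) ^ 2 * ((I.card : ℝ) ^ 2 * β) ≤ (H.card : ℝ) ^ 2 * γ ^ 2 :=
      mul_le_mul_of_nonneg_left hβγ (by positivity)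
    have h9 := mul_le_mul_of_nonneg_left h8 (sq_nonneg N)
    rw [e3] at h6
    nlinarith
  have h8 : T ^ 2 ≤ T * (H.card * lam) + (H.card * γ) ^ 2 :=
    le_of_mul_le_mul_left h7 (by positivity)
  have h9 : T ≤ H.card * lam + H.card * γ := by
    by_contra hcon
    rw [not_le] at hcon
    have hA : 0 ≤ (H.card : ℝ) * lam := by positivity
    have hB : 0 ≤ (H.card : ℝ) * γ := by positivity
    nlinarith
  have e4 : S = N ^ 2 * T := by rw [hT]; field_simp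
  rw [e4]
  nlinarith [sq_nonneg N, mul_le_mul_of_nonneg_left h9 (sq_nonneg N)]

end Pool.Agent.Lib.MP_9721b5_an
end
end
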