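import Pool.Agent.Lib.MP_9721b5_an.Basic
import Pool.Agent.Lib.MP_9721b5_an.TermA
import Pool.Agent.Lib.MP_9721b5_an.Cover
import Pool.Agent.Lib.MP_9721b5_an.Elim
import Pool.Agent.Lib.MP_9721b5_an.Chang
import Pool.Agent.Lib.MP_9721b5_an.KillZ
import Pool.Agent.Lib.MP_9721b5_an.Cube
import Pool.Agent.Lib.MP_9721b5_an.GraphA
import Pool.Agent.Lib.MP_9721b5_an.NL
import Pool.Agent.Lib.MP_9721b5_an.Point

-- part Pool.Agent.Lib.MP_9721b5_an.TermB
section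

/-! The estimates on Bohr sets for the terminal step. -/

set_option autoImplicit false

open Finset
open scoped Classical ComplexConjugate Pointwise

noncomputable section

namespace Pool.Agent.Lib.MP_9721b5_an

variable {p : ℕ} [NeZero p]

/-- Expansion of a local quadratic form. -/
lemma term_phase {B : Finset (ZMod p)} {φ : ZMod p → ZMod p} {e : ℝ} (ha : AddOn B φ)
    (hs : SymOn B φ e) {u h : ZMod p} (hu : u ∈ B) (hh : h ∈ B) (huh : u + h ∈ B) :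
    nm (φ (u + h) * (u + h) - (φ u * u + 2 * φ u * h + φ h * h)) ≤ e := by
  rw [ha u hu h hh huh]
  have : (φ u + φ h) * (u + h) - (φ u * u + 2 * φ u * h + φ h * h) = φ h * u - φ u * h := by ring
  rw [this]
  exact hs h hh u hu

lemma term_shift {Γ : Finset (ZMod p)} {ρ w ε : ℝ} (h : Reg Γ ρ w ε) (hε0 : 0 ≤ ε) (hw : 0 ≤ w)
    (F : ZMod p → ℂ) (L : ℝ) (hL : 0 < L) (hF : ∀ x, ‖F x‖ ≤ L) {u : ZMod p} (hu : u ∈ bohr Γ w) :
    ‖∑ x ∈ bohr Γ ρ, F (x + u) - ∑ x ∈ bohr Γ ρ, F x‖ ≤ 2 * ε * (bohr Γ ρ).card * L := by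
  have h1 := h.shift hε0 hw (fun x => F x / L) (fun x => by
    rw [norm_div, Complex.norm_real, Real.norm_eq_abs, abs_of_pos hL, div_le_one hL]
    exact hF x) hu
  rw [← sum_div, ← sum_div, ← sub_div, norm_div, Complex.norm_real, Real.norm_eq_abs,
    abs_of_pos hL, div_le_iff₀ hL] at h1
  exact h1

/-- The cross terms. -/
lemma term_cross {Γ : Finset (ZMod p)} {ρC ρX ρ1 ε e L : ℝ} (φ : ZMod p → ZMod p) (cv : ZMod p)
    (H : Finset (ZMod p)) (G G' a a' : ZMod p → ℂ) (hG : ∀ x, ‖G x‖ ≤ 1) (hG' : ∀ x, ‖G' x‖ ≤ 1)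
    (ha : ∀ x, ‖a x‖ ≤ 1) (ha' : ∀ x, ‖a' x‖ ≤ 1) (hHn : H.Nonempty)
    (hreg : Reg Γ ρC (2 * ρX) ε) (hε0 : 0 ≤ ε) (h1 : 0 ≤ ρ1) (h1X : ρ1 ≤ ρX) (hXC : 2 * ρX ≤ ρC)
    (hadd : AddOn (bohr Γ (4 * ρC)) φ) (hsym : SymOn (bohr Γ (4 * ρC)) φ e)
    (hH : H ⊆ bohr Γ ρX) (hL : ((bohr Γ (ρX + ρ1)).card : ℝ) ≤ L * H.card)
    (htest : ∀ ξ, ‖∑ x ∈ bohr Γ ρ1, ch (φ x * x + ξ * x)‖ ≤ ε * (bohr Γ ρ1).card) :
    ‖∑ u ∈ bohr Γ ρC, ((∑ h ∈ H, a h * G (u + h)) * conj (∑ h ∈ H, a' h * G' (u + h))) *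
      ch (φ u * u - cv * u)‖ ≤ (bohr Γ ρC).card * (H.card : ℝ) ^ 2 * (L * ε + 7 * e + 2 * ε) := by
  set D : ZMod p → ℂ := fun u => ∑ h ∈ H, a h * G (u + h) with hD
  set D' : ZMod p → ℂ := fun u => ∑ h ∈ H, a' h * G' (u + h) with hD'
  set F : ZMod p → ℂ := fun u => (D u * conj (D' u)) * ch (φ u * u - cv * u) with hF
  set X := bohr Γ ρ1 with hX
  set Cs := bohr Γ ρC with hCs
  have hHc : (0 : ℝ) < H.card := by exact_mod_cast hHn.card_pos
  have hXc : (0 : ℝ) < X.card := by exact_mod_cast card_bohr_pos Γ h1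
  have hDn : ∀ u, ‖D u‖ ≤ H.card := fun u => by
    simpa using term_norm_sum_le H (fun h => a h * G (u + h)) 1 fun h _ => by
      rw [norm_mul]; exact mul_le_one₀ (ha h) (norm_nonneg _) (hG _)
  have hDn' : ∀ u, ‖D' u‖ ≤ H.card := fun u => by
    simpa using term_norm_sum_le H (fun h => a' h * G' (u + h)) 1 fun h _ => by
      rw [norm_mul]; exact mul_le_one₀ (ha' h) (norm_nonneg _) (hG' _)
  have hDD : ∀ u, ‖D u * conj (D' u)‖ ≤ (H.card : ℝ) ^ 2 := fun u => by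
    rw [norm_mul, Complex.norm_conj, sq]
    exact mul_le_mul (hDn u) (hDn' u) (norm_nonneg _) hHc.le
  have hFn : ∀ u, ‖F u‖ ≤ (H.card : ℝ) ^ 2 := fun u => by
    simp only [hF]
    rw [norm_mul, norm_ch, mul_one]
    exact hDD u
  -- the inner sum at a fixed base point
  have hin : ∀ u ∈ Cs, ‖∑ x ∈ X, F (u + x)‖ ≤
      X.card * ((H.card : ℝ) ^ 2 * (L * ε + 7 * e)) := by
    intro u hu
    have hB : ∀ x ∈ X, ∀ h ∈ H, x + h ∈ bohr Γ (ρX + ρ1) := fun x hx h hh => by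
      rw [add_comm x h]; exact add_mem_bohr (hH hh) hx
    obtain ⟨d, hd1, hd2⟩ := term_wiener H _ X a (fun y => G (u + y)) ha (fun _ => hG _) hB
    obtain ⟨d', hd1', hd2'⟩ := term_wiener H _ X a' (fun y => G' (u + y)) ha' (fun _ => hG' _) hB
    have h2 := term_cross_pt X (fun x => φ x * x) _ htest (fun x => D (u + x)) (fun x => D' (u + x))
      d d' (fun x hx => by rw [← hd2 x hx]; simp only [hD, add_assoc])
      (fun x hx => by rw [← hd2' x hx]; simp only [hD', add_assoc]) (2 * φ u - cv)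
    have h3 := term_approx X (fun x => D (u + x) * conj (D' (u + x))) ((H.card : ℝ) ^ 2) e
      (fun x => φ (u + x) * (u + x) - cv * (u + x)) (fun x => φ x * x + (2 * φ u - cv) * x)
      (φ u * u - cv * u) (fun x _ => hDD _) (fun x hx => by
        have h4 := term_phase hadd hsym (u := u) (h := x) (mem_bohr_of_le hu (by linarith))
          (mem_bohr_of_le hx (by linarith)) (mem_bohr_of_le (add_mem_bohr hu hx) (by linarith))
        have : φ (u + x) * (u + x) - cv * (u + x) - (φ u * u - cv * u + (φ x * x + (2 * φ u - cv) * x))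
            = φ (u + x) * (u + x) - (φ u * u + 2 * φ u * x + φ x * x) := by ring
        rw [this]; exact h4)
    have h5 : (∑ ξ, ‖d ξ‖) * (∑ ξ, ‖d' ξ‖) ≤ H.card * (L * H.card) := by
      have h6 : (H.card : ℝ) * (bohr Γ (ρX + ρ1)).card ≤ H.card * (L * H.card) :=
        mul_le_mul_of_nonneg_left hL hHc.le
      nlinarith [sq_nonneg ((∑ ξ, ‖d ξ‖) - ∑ ξ, ‖d' ξ‖)]
    have h6 := mul_le_mul_of_nonneg_right h5 (mul_nonneg hε0 hXc.le)
    calc ‖∑ x ∈ X, F (u + x)‖ ≤ H.card * (L * H.card) * (ε * X.card) +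
          X.card * (7 * e * (H.card : ℝ) ^ 2) := h3.trans (add_le_add (h2.trans h6) le_rfl)
      _ = _ := by ring
  have hsh : ∀ x ∈ X, ‖∑ u ∈ Cs, F (u + x) - ∑ u ∈ Cs, F u‖ ≤ 2 * ε * Cs.card * (H.card : ℝ) ^ 2 :=
    fun x hx => term_shift hreg hε0 (by linarith) F _ (by positivity) hFn
      (mem_bohr_of_le hx (by linarith))
  have h7 : (X.card : ℂ) * ∑ u ∈ Cs, F u =
      ∑ u ∈ Cs, ∑ x ∈ X, F (u + x) - ∑ x ∈ X, (∑ u ∈ Cs, F (u + x) - ∑ u ∈ Cs, F u) := by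
    rw [sum_sub_distrib, sum_comm]
    simp
  have h8 : (X.card : ℝ) * ‖∑ u ∈ Cs, F u‖ ≤
      Cs.card * (X.card * ((H.card : ℝ) ^ 2 * (L * ε + 7 * e))) +
        X.card * (2 * ε * Cs.card * (H.card : ℝ) ^ 2) := by
    rw [← Complex.norm_natCast, ← norm_mul, h7, Complex.norm_natCast]
    exact (norm_sub_le _ _).trans
      (add_le_add (term_norm_sum_le _ _ _ hin) (term_norm_sum_le _ _ _ hsh))
  refine le_of_mul_le_mul_left (h8.trans (le_of_eq ?_)) hXc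
  ring

/-- The local correlation controls the mass near a frequency. -/
lemma term_Y {Γ : Finset (ZMod p)} {ρC ρX ρ1 ε e : ℝ} (g : ZMod p → ℂ) (hg : ∀ x, ‖g x‖ ≤ 1)
    (φ : ZMod p → ZMod p) (x0 : ZMod p) (W : Finset (ZMod p)) (Mx : ZMod p → ℝ)
    (hreg : Reg Γ ρC (2 * ρX) ε) (hε0 : 0 ≤ ε) (h1 : 0 ≤ ρ1) (h1X : ρ1 ≤ ρX)
    (hXC : 2 * ρX ≤ ρC)
    (hadd : AddOn (bohr Γ (4 * ρC)) φ) (hsym : SymOn (bohr Γ (4 * ρC)) φ e)
    (hW : W ⊆ bohr Γ ρ1)
    (hMx : ∀ x ξ, ‖∑ w ∈ W, g (x + w) * ch (-(φ w * w + ξ * w))‖ ≤ Mx x) (ξ : ZMod p) :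
    ∑ y, ‖∑ w ∈ W, ch (-(ξ * w)) * (if y + w ∈ bohr Γ (ρC + ρX) then
      g (x0 + (y + w)) * ch (-(φ (y + w) * (y + w))) else 0)‖ ^ 2 ≤
      W.card * (∑ y ∈ bohr Γ ρC, Mx (x0 + y)) +
        (7 * e + ε) * (bohr Γ ρC).card * (W.card : ℝ) ^ 2 := by
  set F : ZMod p → ℝ := fun y => ‖∑ w ∈ W, ch (-(ξ * w)) * (if y + w ∈ bohr Γ (ρC + ρX) then
      g (x0 + (y + w)) * ch (-(φ (y + w) * (y + w))) else 0)‖ with hF
  have hF0 : ∀ y, 0 ≤ F y := fun y => norm_nonneg _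
  have hFW : ∀ y, F y ≤ W.card := fun y => by
    have := term_norm_sum_le W (fun w => ch (-(ξ * w)) * (if y + w ∈ bohr Γ (ρC + ρX) then
      g (x0 + (y + w)) * ch (-(φ (y + w) * (y + w))) else 0)) 1 fun w _ => by
        rw [norm_mul, norm_ch, one_mul]
        split_ifs
        · rw [norm_mul, norm_ch, mul_one]; exact hg _
        · simp
    rwa [mul_one] at this
  have hM0 : ∀ x, 0 ≤ Mx x := fun x => (norm_nonneg _).trans (hMx x 0)
  have hW0 : (0 : ℝ) ≤ W.card := Nat.cast_nonneg _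
  have hin : ∀ y ∈ bohr Γ ρC, F y ≤ Mx (x0 + y) + W.card * (7 * e * 1) := by
    intro y hy
    have h2 := term_approx W (fun w => g (x0 + y + w)) 1 e
      (fun w => -(ξ * w) - φ (y + w) * (y + w)) (fun w => -(φ w * w + (ξ + 2 * φ y) * w))
      (-(φ y * y)) (fun w _ => hg _) (fun w hw => by
        have h4 := term_phase hadd hsym (u := y) (h := w) (mem_bohr_of_le hy (by linarith))
          (mem_bohr_of_le (hW hw) (by linarith))
          (mem_bohr_of_le (add_mem_bohr hy (hW hw)) (by linarith))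
        have : -(ξ * w) - φ (y + w) * (y + w) - (-(φ y * y) + -(φ w * w + (ξ + 2 * φ y) * w)) =
            -(φ (y + w) * (y + w) - (φ y * y + 2 * φ y * w + φ w * w)) := by ring
        rw [this, nm_neg]; exact h4)
    refine le_trans (le_of_eq ?_) (h2.trans (add_le_add (hMx _ _) le_rfl))
    simp only [hF]
    congr 1
    refine sum_congr rfl fun w hw => ?_
    rw [if_pos (mem_bohr_of_le (add_mem_bohr hy (hW hw)) (by linarith)), sub_eq_add_neg, ch_add,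
      add_assoc]
    ring
  have hpt : ∀ y, F y ^ 2 ≤
      (if y ∈ bohr Γ ρC then W.card * Mx (x0 + y) + 7 * e * (W.card : ℝ) ^ 2 else 0) +
      (if y ∈ bohr Γ (ρC + 2 * ρX) \ bohr Γ (ρC - 2 * ρX) then (W.card : ℝ) ^ 2 else 0) := by
    intro y
    by_cases hy : y ∈ bohr Γ ρC
    · rw [if_pos hy]
      have h2 : F y ^ 2 ≤ W.card * Mx (x0 + y) + 7 * e * (W.card : ℝ) ^ 2 := by
        calc F y ^ 2 = F y * F y := sq _
          _ ≤ W.card * (Mx (x0 + y) + W.card * (7 * e * 1)) :=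
            mul_le_mul (hFW y) (hin y hy) (hF0 y) hW0
          _ = _ := by ring
      refine h2.trans (le_add_of_nonneg_right ?_)
      split_ifs <;> positivity
    · rw [if_neg hy, zero_add]
      split_ifs with h2
      · exact pow_le_pow_left₀ (hF0 y) (hFW y) 2
      · have h3 : y ∉ bohr Γ (ρC + 2 * ρX) := by
          intro h3
          apply h2
          exact mem_sdiff.2 ⟨h3, fun h4 => hy (mem_bohr_of_le h4 (by linarith))⟩
        have h4 : F y = 0 := by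
          simp only [hF]
          rw [norm_eq_zero]
          refine sum_eq_zero fun w hw => ?_
          rw [if_neg, mul_zero]
          intro h5
          apply h3
          have h6 := sub_mem_bohr h5 (hW hw)
          rw [add_sub_cancel_right] at h6
          exact mem_bohr_of_le h6 (by linarith)
        rw [h4]; simp
  refine (sum_le_sum fun y _ => hpt y).trans ?_
  rw [sum_add_distrib, sum_ite_mem, sum_ite_mem, univ_inter, univ_inter, sum_add_distrib,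
    ← mul_sum, sum_const, sum_const, nsmul_eq_mul, nsmul_eq_mul]
  have h5 := hreg.card_sdiff_le hε0 (by linarith)
  have h6 := mul_le_mul_of_nonneg_right h5 (sq_nonneg (W.card : ℝ))
  nlinarith

/-- Comparison of the two correlations. -/
lemma term_CK {Γ : Finset (ZMod p)} {ρC ρX e : ℝ} (g : ZMod p → ℂ) (hg : ∀ x, ‖g x‖ ≤ 1)
    (φ : ZMod p → ZMod p) (ci τ z h : ZMod p) (he0 : 0 ≤ e) (hX0 : 0 ≤ ρX) (hXC : 2 * ρX ≤ ρC)
    (hadd : AddOn (bohr Γ (4 * ρC)) φ) (hsym : SymOn (bohr Γ (4 * ρC)) φ e)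
    (hh : h ∈ bohr Γ ρX) :
    ‖∑ u ∈ bohr Γ ρC, ch (-((2 * φ h + ci) * u)) * dl g (τ + h) (z + u)‖ ^ 2 ≤
      ‖∑ u ∈ bohr Γ ρC, conj (g (z + u)) * (ch (φ u * u - ci * u) *
        (g (z + τ + (u + h)) * ch (-(φ (u + h) * (u + h)))))‖ ^ 2 +
        14 * e * ((bohr Γ ρC).card : ℝ) ^ 2 := by
  have h2 := term_approx (bohr Γ ρC) (fun u => dl g (τ + h) (z + u)) 1 e
    (fun u => -((2 * φ h + ci) * u)) (fun u => (φ u * u - ci * u) + -(φ (u + h) * (u + h)))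
    (φ h * h) (fun u _ => norm_dl_le hg _ _) (fun u hu => by
      have h4 := term_phase hadd hsym (u := h) (h := u) (mem_bohr_of_le hh (by linarith))
        (mem_bohr_of_le hu (by linarith)) (mem_bohr_of_le (add_mem_bohr hh hu) (by linarith))
      have : -((2 * φ h + ci) * u) - (φ h * h + ((φ u * u - ci * u) + -(φ (u + h) * (u + h)))) =
          φ (h + u) * (h + u) - (φ h * h + 2 * φ h * u + φ u * u) := by
        rw [add_comm h u]; ring
      rw [this]; exact h4)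
  have e1 : ∑ u ∈ bohr Γ ρC, ch (-((2 * φ h + ci) * u)) * dl g (τ + h) (z + u) =
      ∑ u ∈ bohr Γ ρC, dl g (τ + h) (z + u) * ch (-((2 * φ h + ci) * u)) :=
    sum_congr rfl fun u _ => mul_comm _ _
  have e2 : ∑ u ∈ bohr Γ ρC, conj (g (z + u)) * (ch (φ u * u - ci * u) *
      (g (z + τ + (u + h)) * ch (-(φ (u + h) * (u + h))))) =
      ∑ u ∈ bohr Γ ρC, dl g (τ + h) (z + u) * ch ((φ u * u - ci * u) + -(φ (u + h) * (u + h))) := by
    refine sum_congr rfl fun u _ => ?_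
    have : z + τ + (u + h) = z + u + (τ + h) := by ring
    rw [ch_add, this]
    unfold dl
    ring
  rw [e1, e2]
  have h3 : ∀ θ : ZMod p → ZMod p,
      ‖∑ u ∈ bohr Γ ρC, dl g (τ + h) (z + u) * ch (θ u)‖ ≤ (bohr Γ ρC).card := fun θ => by
    simpa using term_norm_sum_le (bohr Γ ρC) (fun u => dl g (τ + h) (z + u) * ch (θ u)) 1
      fun u _ => by rw [norm_mul, norm_ch, mul_one]; exact norm_dl_le hg _ _
  have h4 := h3 fun u => -((2 * φ h + ci) * u)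
  have h5 := h3 fun u => (φ u * u - ci * u) + -(φ (u + h) * (u + h))
  set A := ‖∑ u ∈ bohr Γ ρC, dl g (τ + h) (z + u) * ch (-((2 * φ h + ci) * u))‖ with hA
  set B := ‖∑ u ∈ bohr Γ ρC,
    dl g (τ + h) (z + u) * ch ((φ u * u - ci * u) + -(φ (u + h) * (u + h)))‖ with hB
  set N : ℝ := ((bohr Γ ρC).card : ℝ) with hN
  have hA0 : 0 ≤ A := norm_nonneg _
  have hB0 : 0 ≤ B := norm_nonneg _
  have hN0 : 0 ≤ N := Nat.cast_nonneg _
  have h6 : (A - B) * (A + B) ≤ (N * (7 * e * 1)) * (A + B) :=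
    mul_le_mul_of_nonneg_right (by linarith) (by positivity)
  have h7 : (N * (7 * e * 1)) * (A + B) ≤ (N * (7 * e * 1)) * (2 * N) :=
    mul_le_mul_of_nonneg_left (by linarith) (by positivity)
  nlinarith

/-- Spectral mass gives local correlation with one of the chosen frequencies. -/
lemma term_lives {ι : Type*} (f : ZMod p → ℂ) (I : Finset ι) (η : ι → ZMod p)
    (Cs S : Finset (ZMod p)) (δ : ℝ) (hS : δ ≤ ∑ ξ ∈ S, ‖ft f ξ‖ ^ 2)
    (hI : ∀ ξ ∈ S, ∃ i ∈ I, ∀ u ∈ Cs, nm ((ξ - η i) * u) ≤ 1 / 25) :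
    p * (δ * ((Cs.card : ℝ) ^ 2 / 2)) ≤
      ∑ z, ∑ i ∈ I, ‖∑ u ∈ Cs, ch (-(η i * u)) * f (z + u)‖ ^ 2 := by
  rw [sum_comm, sum_congr rfl fun i _ => term_conv f Cs fun u => ch (-(η i * u)), ← mul_sum,
    sum_comm]
  refine mul_le_mul_of_nonneg_left ?_ (term_p_pos (p := p)).le
  calc δ * ((Cs.card : ℝ) ^ 2 / 2) ≤ (∑ ξ ∈ S, ‖ft f ξ‖ ^ 2) * ((Cs.card : ℝ) ^ 2 / 2) :=
        mul_le_mul_of_nonneg_right hS (by positivity)
    _ ≤ ∑ ξ ∈ S, ∑ i ∈ I, ‖ft f ξ‖ ^ 2 * ‖∑ u ∈ Cs, ch (-(η i * u)) * ch (ξ * u)‖ ^ 2 := by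
        rw [sum_mul]
        refine sum_le_sum fun ξ hξ => ?_
        obtain ⟨i, hi, h1⟩ := hI ξ hξ
        have h2 := term_half Cs _ h1
        have e1 : ∑ u ∈ Cs, ch ((ξ - η i) * u) = ∑ u ∈ Cs, ch (-(η i * u)) * ch (ξ * u) :=
          sum_congr rfl fun u _ => by rw [← ch_add]; congr 1; ring
        rw [e1] at h2
        refine (mul_le_mul_of_nonneg_left h2 (by positivity)).trans ?_
        exact single_le_sum (f := fun i =>
          ‖ft f ξ‖ ^ 2 * ‖∑ u ∈ Cs, ch (-(η i * u)) * ch (ξ * u)‖ ^ 2)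
          (fun _ _ => by positivity) hi
    _ ≤ _ := sum_le_sum_of_subset_of_nonneg (subset_univ _)
        fun _ _ _ => sum_nonneg fun _ _ => by positivity

lemma term_mem_cube {k : ℕ} (r : Fin k → ℤ) :
    r ∈ Fintype.piFinset (fun _ : Fin k => Icc (-1 : ℤ) 1) ↔ ∀ j, |r j| ≤ 1 := by
  rw [Fintype.mem_piFinset]
  exact forall_congr' fun j => by rw [mem_Icc, abs_le]

/-- A maximal separated family of types. -/
lemma term_exists_I (k : ℕ) (Rk : (Fin k → ℤ) → Prop) (h0 : Rk 0) (hsym : ∀ v, Rk v → Rk (-v)) :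
    ∃ I : Finset (Fin k → ℤ), I.card ≤ 3 ^ k ∧ (∀ i ∈ I, ∀ j, |i j| ≤ 1) ∧
      (∀ i ∈ I, ∀ i' ∈ I, i ≠ i' → ¬ Rk (i - i')) ∧
      ∀ r : Fin k → ℤ, (∀ j, |r j| ≤ 1) → ∃ i ∈ I, Rk (r - i) := by
  set Q := Fintype.piFinset (fun _ : Fin k => Icc (-1 : ℤ) 1) with hQ
  obtain ⟨I, hI1, hI2⟩ := (Q.powerset.filter fun I : Finset (Fin k → ℤ) =>
    ∀ i ∈ I, ∀ i' ∈ I, i ≠ i' → ¬ Rk (i - i')).exists_max_image Finset.card
    ⟨∅, mem_filter.2 ⟨empty_mem_powerset _, by simp⟩⟩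
  obtain ⟨h1, h2⟩ := mem_filter.1 hI1
  have h3 : I ⊆ Q := mem_powerset.1 h1
  refine ⟨I, ?_, fun i hi => (term_mem_cube i).1 (h3 hi), h2, fun r hr => ?_⟩
  · refine (card_le_card h3).trans (le_of_eq ?_)
    rw [hQ, Fintype.card_piFinset]
    simp
  · by_contra hcon
    have h4 : ∀ i ∈ I, ¬ Rk (r - i) := fun i hi h => hcon ⟨i, hi, h⟩
    have h5 : r ∉ I := fun h => h4 r h (by simpa using h0)
    have := hI2 (insert r I) (mem_filter.2 ⟨mem_powerset.2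
      (insert_subset ((term_mem_cube r).2 hr) h3), by
        intro i hi i' hi' hne
        rcases mem_insert.1 hi with e1 | hi1
        · rcases mem_insert.1 hi' with e2 | hi2
          · exact absurd (e1.trans e2.symm) hne
          · rw [e1]; exact h4 i' hi2
        · rcases mem_insert.1 hi' with e2 | hi2
          · rw [e2]
            intro h
            exact h4 i hi1 (by simpa using hsym _ h)
          · exact h2 i hi1 i' hi2 hne⟩)
    rw [card_insert_of_notMem h5] at this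
    omega

lemma term_argmax {k : ℕ} (T : ZMod p → (Fin k → ℤ) → ZMod p → ℝ) :
    ∃ (r : ZMod p → Fin k → ℤ) (ξ : ZMod p → ZMod p), (∀ x j, |r x j| ≤ 1) ∧
      ∀ x r' ξ', (∀ j, |r' j| ≤ 1) → T x r' ξ' ≤ T x (r x) (ξ x) := by
  have : ∀ x, ∃ a : (Fin k → ℤ) × ZMod p, (∀ j, |a.1 j| ≤ 1) ∧
      ∀ r' ξ', (∀ j, |r' j| ≤ 1) → T x r' ξ' ≤ T x a.1 a.2 := by
    intro x
    obtain ⟨a, h1, h2⟩ := (Fintype.piFinset (fun _ : Fin k => Icc (-1 : ℤ) 1) ×ˢ
      (univ : Finset (ZMod p))).exists_max_image (fun a => T x a.1 a.2)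
      ⟨(0, 0), mem_product.2 ⟨(term_mem_cube _).2 (by simp), mem_univ _⟩⟩
    exact ⟨a, (term_mem_cube _).1 (mem_product.1 h1).1, fun r' ξ' hr =>
      h2 (r', ξ') (mem_product.2 ⟨(term_mem_cube _).2 hr, mem_univ _⟩)⟩
  choose a h1 h2 using this
  exact ⟨fun x => (a x).1, fun x => (a x).2, h1, h2⟩

/-- The large spectrum of a dense set has low dimension. -/
lemma term_chang (hC : ChangStmt) (H : Finset (ZMod p)) (R' : ℕ) (hH : p ≤ 2 ^ R' * H.card)
    (g0 : ℝ) (h0 : 0 < g0) (h1 : g0 ≤ 1) :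
    ∃ Γ1 : Finset (ZMod p), (Γ1.card : ℝ) * g0 ^ 2 ≤ 8 * (R' + 1) ∧
      ∀ ζ, g0 * H.card ≤ ‖∑ h ∈ H, ch (-(ζ * h))‖ → InSpan Γ1 ζ := by
  obtain ⟨E, hE1, hE2, hE3⟩ := exists_diss_span
    (univ.filter fun ζ : ZMod p => g0 * H.card ≤ ‖∑ h ∈ H, ch (-(ζ * h))‖)
  refine ⟨E, ?_, fun ζ hζ => hE3 ζ (mem_filter.2 ⟨mem_univ _, hζ⟩)⟩
  have hp := term_p_pos (p := p)
  have hH' : (p : ℝ) ≤ 2 ^ R' * H.card := by exact_mod_cast hH
  have e1 : ∑ x, ‖(if x ∈ H then (1 : ℂ) else 0)‖ = H.card := by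
    have : ∀ x, ‖(if x ∈ H then (1 : ℂ) else 0)‖ = if x ∈ H then (1 : ℝ) else 0 := by
      intro x; split_ifs <;> simp
    rw [sum_congr rfl fun x _ => this x]
    simp
  have hHc : (0 : ℝ) < H.card := by
    by_contra hcon
    have : (H.card : ℝ) = 0 := le_antisymm (not_lt.1 hcon) (Nat.cast_nonneg _)
    rw [this, mul_zero] at hH'
    linarith
  have h2 := hC p (fun x => if x ∈ H then (1 : ℂ) else 0) (2 ^ R') g0 E h0 h1
    (one_le_pow₀ (by norm_num)) (by rw [e1]; exact hHc) (fun x => by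
      rw [e1]
      refine le_trans ?_ hH'
      refine mul_le_of_le_one_left hp.le ?_
      split_ifs <;> simp) hE2 (fun ξ hξ => by
      rw [e1]
      refine (mem_filter.1 (hE1 hξ)).2.trans (le_of_eq ?_)
      congr 1
      simp only [ite_mul, one_mul, zero_mul]
      rw [sum_ite_mem, univ_inter])
  refine h2.trans ?_
  rw [← pow_succ', Real.log_pow]
  have h3 : Real.log 2 ≤ 1 := by linarith [Real.log_two_lt_d9]
  have h4 : (0 : ℝ) ≤ ((R' + 1 : ℕ) : ℝ) := Nat.cast_nonneg _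
  have h5 := mul_le_mul_of_nonneg_left h3 h4
  push_cast at h5 ⊢
  linarith

end Pool.Agent.Lib.MP_9721b5_an
end
end

-- part Pool.Agent.Lib.MP_9721b5_an.Term
section

/-! The terminal step of the nested iteration. -/

set_option autoImplicit false

open Finset
open scoped Classical ComplexConjugate Pointwise

noncomputable section

namespace Pool.Agent.Lib.MP_9721b5_an

lemma term_main {p : ℕ} [NeZero p] (g : ZMod p → ℂ) {k : ℕ} (ψ : Fin k → ZMod p → ZMod p)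
    (c : Fin k → ZMod p) (τ : ZMod p) (Γ : Finset (ZMod p)) (ρC ρX ρ1 ε e L : ℝ)
    (H W : Finset (ZMod p)) (Rk : (Fin k → ℤ) → Prop) (m : ℕ)
    (hg : ∀ x, ‖g x‖ ≤ 1) (h1 : 0 ≤ ρ1) (h1X : ρ1 ≤ ρX) (hXC : 2 * ρX ≤ ρC) (hε0 : 0 ≤ ε)
    (hε1 : ε ≤ 1) (he0 : 0 ≤ e) (hL0 : 0 ≤ L) (hreg : Reg Γ ρC (2 * ρX) ε)
    (hform : ∀ v : Fin k → ℤ, (∀ j, |v j| ≤ 2) →
      AddOn (bohr Γ (4 * ρC)) (cmb ψ v) ∧ SymOn (bohr Γ (4 * ρC)) (cmb ψ v) e)
    (hH : H ⊆ bohr Γ ρX) (hHn : H.Nonempty) (hL : ((bohr Γ (ρX + ρ1)).card : ℝ) ≤ L * H.card)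
    (hlive : ∀ h ∈ H, Lives g m ψ c (τ + h) h) (hR0 : Rk 0) (hRs : ∀ v, Rk v → Rk (-v))
    (hR1 : ∀ v : Fin k → ℤ, (∀ j, |v j| ≤ 2) → Rk v → ∀ h ∈ H, ∀ u ∈ bohr Γ ρC,
      nm (aff ψ c v h * u) ≤ 1 / 25)
    (hR2 : ∀ v : Fin k → ℤ, (∀ j, |v j| ≤ 2) → ¬ Rk v → ∀ ξ : ZMod p,
      ‖∑ x ∈ bohr Γ ρ1, ch (cmb ψ v x * x + ξ * x)‖ ≤ ε * (bohr Γ ρ1).card)
    (hW : W ⊆ bohr Γ ρ1) (hWn : W.Nonempty)
    (hspec : ∀ ζ, (1 / m : ℝ) / 16 * H.card ≤ ‖∑ h ∈ H, ch (-(ζ * h))‖ →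
      ∀ w ∈ W, nm (ζ * w) ≤ 1 / 25)
    (hn1 : (3 : ℝ) ^ k * (14 * e) ≤ (1 / m : ℝ) / 16) (hn2 : 2 * (7 * e + ε) ≤ (1 / m : ℝ) / 16)
    (hn3 : ((3 : ℝ) ^ k) ^ 2 * (L * ε + 7 * e + 2 * ε) ≤ ((1 / m : ℝ) / 16) ^ 2) :
    ∃ (r : ZMod p → Fin k → ℤ) (ξ : ZMod p → ZMod p), (∀ x j, |r x j| ≤ 1) ∧
      (p * W.card : ℝ) * ((1 / m : ℝ) / 16) ≤
        ∑ x, ‖∑ w ∈ W, g (x + w) * ch (-(cmb ψ (r x) w * w + ξ x * w))‖ := by
  obtain ⟨I, hI1, hI2, hI3, hI4⟩ := term_exists_I k Rk hR0 hRs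
  obtain ⟨r, ξ, hr, hmax⟩ := term_argmax fun (x : ZMod p) (r' : Fin k → ℤ) (ξ' : ZMod p) =>
    ‖∑ w ∈ W, g (x + w) * ch (-(cmb ψ r' w * w + ξ' * w))‖
  refine ⟨r, ξ, hr, ?_⟩
  set Mx : ZMod p → ℝ := fun x =>
    ‖∑ w ∈ W, g (x + w) * ch (-(cmb ψ (r x) w * w + ξ x * w))‖ with hMx
  set δ : ℝ := 1 / m with hδ
  have hδ0 : 0 ≤ δ := by rw [hδ]; positivity
  have hX0 : 0 ≤ ρX := h1.trans h1X
  have hC0 : 0 ≤ ρC := by linarith
  have hp := term_p_pos (p := p)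
  have hN : (0 : ℝ) < (bohr Γ ρC).card := by exact_mod_cast card_bohr_pos Γ hC0
  have hHc : (0 : ℝ) < H.card := by exact_mod_cast hHn.card_pos
  have hWc : (0 : ℝ) < W.card := by exact_mod_cast hWn.card_pos
  have hIc : (I.card : ℝ) ≤ 3 ^ k := by exact_mod_cast hI1
  have h12 : ∀ i ∈ I, ∀ j, |i j| ≤ 2 := fun i hi j => (hI2 i hi j).trans (by norm_num)
  have hsub : ∀ a b : Fin k → ℤ, (∀ j, |a j| ≤ 1) → (∀ j, |b j| ≤ 1) → ∀ j, |(a - b) j| ≤ 2 := by
    intro a b ha hb j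
    have h2 := abs_le.1 (ha j)
    have h3 := abs_le.1 (hb j)
    rw [Pi.sub_apply, abs_le]
    constructor <;> linarith [h2.1, h2.2, h3.1, h3.2]
  have hCp : ((bohr Γ (ρC + ρX)).card : ℝ) ≤ 2 * (bohr Γ ρC).card := by
    have h2 := hreg.card_add_le hε0 (by linarith)
    have h3 : ((bohr Γ (ρC + ρX)).card : ℝ) ≤ (bohr Γ (ρC + 2 * ρX)).card := by
      exact_mod_cast card_le_card (bohr_mono Subset.rfl (by linarith))
    nlinarith
  set N : ℝ := ((bohr Γ ρC).card : ℝ) with hNdef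
  set cc : (Fin k → ℤ) → ZMod p := fun i => ∑ j, (i j : ZMod p) * c j with hcc
  set K : ZMod p → (Fin k → ℤ) → ZMod p → ℝ := fun z i h =>
    ‖∑ u ∈ bohr Γ ρC, conj (g (z + u)) * (ch (cmb ψ i u * u - cc i * u) *
      (g (z + τ + (u + h)) * ch (-(cmb ψ i (u + h) * (u + h)))))‖ ^ 2 with hK
  set T : ZMod p → ℝ := fun z => ∑ y ∈ bohr Γ ρC, Mx (z + τ + y) with hT
  have hT0 : ∀ z, 0 ≤ T z := fun z => sum_nonneg fun _ _ => norm_nonneg _
  -- the upper bound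
  have hup : ∀ z, ∑ i ∈ I, ∑ h ∈ H, K z i h ≤
      N ^ 2 * H.card * ((δ / 8 + 2 * T z / (N * W.card) + 2 * (7 * e + ε)) + δ / 16) := by
    intro z
    have hG : ∀ (i : Fin k → ℤ) (s : ZMod p),
        ‖g (z + τ + s) * ch (-(cmb ψ i s * s))‖ ≤ 1 := fun i s => by
      rw [norm_mul, norm_ch, mul_one]; exact hg _
    refine term_core I H (bohr Γ ρC) (card_pos.1 (card_bohr_pos Γ hC0)) (fun u => conj (g (z + u)))
      (fun i u => ch (cmb ψ i u * u - cc i * u))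
      (fun i s => g (z + τ + s) * ch (-(cmb ψ i s * s)))
      (fun u => by rw [Complex.norm_conj]; exact hg _) (fun i u => (norm_ch _).le) hG _
      (L * ε + 7 * e + 2 * ε) _ (by have := hT0 z; positivity) (by positivity) (by positivity)
      (le_trans (by gcongr) hn3) (fun i hi a => ?_) (fun i hi j hj hij a a' ha ha' => ?_)
    · have h2 := term_diag H (bohr Γ ρC) (bohr Γ (ρC + ρX)) W
        (fun s => g (z + τ + s) * ch (-(cmb ψ i s * s))) (hG i) (δ / 16)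
        (T z / W.card + (7 * e + ε) * N) (by positivity)
        (fun u hu h hh => add_mem_bohr hu (hH hh)) hWn hspec (fun ξ' => by
          refine (term_Y g hg (cmb ψ i) (z + τ) W Mx hreg hε0 h1 h1X hXC (hform i (h12 i hi)).1
            (hform i (h12 i hi)).2 hW (fun x ξ'' => hmax x i ξ'' (hI2 i hi)) ξ').trans
            (le_of_eq ?_)
          simp only [hT, hNdef]
          field_simp) a
      refine h2.trans (mul_le_mul_of_nonneg_left ?_ (sum_nonneg fun _ _ => by positivity))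
      rw [mul_assoc]
      refine mul_le_mul_of_nonneg_left ?_ hHc.le
      have e1 : N * (δ / 8 + 2 * T z / (N * W.card) + 2 * (7 * e + ε)) =
          δ / 16 * (2 * N) + 2 * (T z / W.card + (7 * e + ε) * N) := by
        field_simp
        ring
      rw [e1]
      exact add_le_add (mul_le_mul_of_nonneg_left hCp (by positivity)) le_rfl
    · have hv := hsub i j (hI2 i hi) (hI2 j hj)
      have h2 := term_cross (cmb ψ (i - j)) (cc i - cc j) H
        (fun s => g (z + τ + s) * ch (-(cmb ψ i s * s)))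
        (fun s => g (z + τ + s) * ch (-(cmb ψ j s * s))) a a' (hG i) (hG j) ha ha' hHn hreg hε0 h1
        h1X hXC (hform _ hv).1 (hform _ hv).2 hH hL (hR2 _ hv (hI3 i hi j hj hij))
      refine le_trans (le_of_eq ?_) h2
      congr 1
      refine sum_congr rfl fun u _ => ?_
      have e1 : cmb ψ (i - j) u * u - (cc i - cc j) * u =
          (cmb ψ i u * u - cc i * u) - (cmb ψ j u * u - cc j * u) := by
        rw [cmb_sub]; ring
      rw [e1, ch_sub (cmb ψ i u * u - cc i * u), map_mul (starRingEnd ℂ) (ch _)]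
      ring
  -- the lower bound
  have hlow : ∀ h ∈ H, p * (δ * (N ^ 2 / 2)) - p * (I.card * (14 * e * N ^ 2)) ≤
      ∑ z, ∑ i ∈ I, K z i h := by
    intro h hh
    obtain ⟨S, hS1, hS2⟩ := hlive h hh
    have h2 := term_lives (dl g (τ + h)) I (fun i => aff ψ c i h) (bohr Γ ρC) S δ hS1 (by
      intro ζ hζ
      obtain ⟨r', hr1, hr2⟩ := hS2 ζ hζ
      obtain ⟨i, hi, hi2⟩ := hI4 r' hr1
      refine ⟨i, hi, fun u hu => ?_⟩
      rw [hr2, ← aff_sub]
      exact hR1 _ (hsub r' i hr1 (hI2 i hi)) hi2 h hh u hu)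
    have h3 : ∑ z, ∑ i ∈ I, ‖∑ u ∈ bohr Γ ρC, ch (-(aff ψ c i h * u)) * dl g (τ + h) (z + u)‖ ^ 2 ≤
        ∑ z : ZMod p, ∑ i ∈ I, (K z i h + 14 * e * N ^ 2) := by
      refine sum_le_sum fun z _ => sum_le_sum fun i hi => ?_
      rw [aff_eq]
      exact term_CK g hg (cmb ψ i) (cc i) τ z h he0 hX0 hXC (hform i (h12 i hi)).1
        (hform i (h12 i hi)).2 (hH hh)
    simp only [sum_add_distrib, sum_const, nsmul_eq_mul, card_univ, ZMod.card] at h3
    linarith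
  have h4 : H.card * (p * (δ * (N ^ 2 / 2)) - p * (I.card * (14 * e * N ^ 2))) ≤
      ∑ z, ∑ i ∈ I, ∑ h ∈ H, K z i h := by
    have h5 := card_nsmul_le_sum H _ _ hlow
    rw [nsmul_eq_mul] at h5
    refine h5.trans (le_of_eq ?_)
    rw [sum_comm]
    exact sum_congr rfl fun z _ => sum_comm
  have h5 : ∑ z, T z = N * ∑ x, Mx x := by
    simp only [hT]
    rw [sum_comm]
    have : ∀ y, ∑ z, Mx (z + τ + y) = ∑ x, Mx x := fun y => by
      simp only [add_assoc]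
      exact Equiv.sum_comp (Equiv.addRight (τ + y)) Mx
    rw [sum_congr rfl fun y _ => this y, sum_const, nsmul_eq_mul]
  have h6 : ∑ z, N ^ 2 * H.card * ((δ / 8 + 2 * T z / (N * W.card) + 2 * (7 * e + ε)) + δ / 16) =
      N ^ 2 * H.card * (p * (δ / 8 + 2 * (7 * e + ε) + δ / 16) + 2 * (∑ x, Mx x) / W.card) := by
    rw [← mul_sum]
    congr 1
    simp only [sum_add_distrib, sum_const, nsmul_eq_mul, card_univ, ZMod.card]
    rw [← sum_div, ← mul_sum, h5]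
    field_simp
    ring
  have h7 := h4.trans ((sum_le_sum fun z _ => hup z).trans h6.le)
  have h8 : I.card * (14 * e) ≤ δ / 16 := le_trans (by gcongr) hn1
  have h9 : N ^ 2 * H.card * (p * (δ / 2 - I.card * (14 * e))) ≤
      N ^ 2 * H.card * (p * (δ / 8 + 2 * (7 * e + ε) + δ / 16) + 2 * (∑ x, Mx x) / W.card) := by
    refine le_trans (le_of_eq ?_) h7
    ring
  have h10 := le_of_mul_le_mul_left h9 (by positivity)
  have h11 : p * (δ / 8) ≤ 2 * (∑ x, Mx x) / W.card := by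
    have h12 := mul_le_mul_of_nonneg_left h8 hp.le
    have h13 := mul_le_mul_of_nonneg_left hn2 hp.le
    have h14 := mul_nonneg hp.le hδ0
    nlinarith
  rw [le_div_iff₀ hWc] at h11
  linarith

lemma term_num {m R k : ℕ} (hm : 2 ≤ m) (hmR : m ≤ R) (hk : k ≤ R) :
    (3 : ℝ) ^ k * (14 * (k * 2 * hf (R ^ 16))) ≤ (1 / m : ℝ) / 16 ∧
    2 * (7 * (k * 2 * hf (R ^ 16)) + hf (R ^ 16)) ≤ (1 / m : ℝ) / 16 ∧
    ((3 : ℝ) ^ k) ^ 2 * (2 * 2 ^ R * hf (R ^ 16) + 7 * (k * 2 * hf (R ^ 16)) + 2 * hf (R ^ 16)) ≤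
      ((1 / m : ℝ) / 16) ^ 2 := by
  have hR : 2 ≤ R := hm.trans hmR
  have hm0 : (0 : ℝ) < m := by exact_mod_cast (by omega : 0 < m)
  set X : ℝ := 2 ^ R with hX
  set ε := hf (R ^ 16) with hε
  have hε0 : 0 < ε := hf_pos _
  have hX1 : 1 ≤ X := one_le_pow₀ (by norm_num)
  have hRX : (R : ℝ) ≤ X := nat_le_two_pow R
  have hkX : (k : ℝ) ≤ X := le_trans (by exact_mod_cast hk) hRX
  have hmX : (m : ℝ) ≤ X := le_trans (by exact_mod_cast hmR) hRX
  have h3 : (3 : ℝ) ^ k ≤ X ^ 2 := by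
    calc (3 : ℝ) ^ k ≤ 4 ^ k := by gcongr; norm_num
      _ ≤ 4 ^ R := by gcongr; norm_num
      _ = X ^ 2 := by rw [hX, ← pow_mul, mul_comm, pow_mul]; norm_num
  have h4 : 7 * R + 13 ≤ R ^ 16 := by
    have h5 : 14 * R ^ 1 ≤ R ^ 5 := poly_le (k := 4) hR (by norm_num)
    have h6 : R ^ 5 ≤ R ^ 16 := Nat.pow_le_pow_right (by omega) (by norm_num)
    rw [pow_one] at h5
    omega
  have h5 : X ^ 7 * 8192 * ε ≤ 1 := by
    have := mul_hf_le (x := X ^ 7 * 8192) (a := 7 * R + 13) (n := 0) (m := R ^ 16)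
      (le_of_eq (by rw [hX, pow_add, ← pow_mul, mul_comm R 7]; norm_num)) (by omega)
    rwa [hf_zero] at this
  have hX0 : 0 < X := by linarith
  have h6 : (1 / X) ≤ (1 / m : ℝ) := one_div_le_one_div_of_le hm0 hmX
  have hp : ∀ a b : ℕ, a ≤ b → X ^ a ≤ X ^ b := fun a b h => pow_le_pow_right₀ hX1 h
  refine ⟨?_, ?_, ?_⟩
  · calc (3 : ℝ) ^ k * (14 * (k * 2 * ε)) ≤ X ^ 2 * (14 * (X * 2 * ε)) := by gcongr
      _ ≤ (1 / X) / 16 := by
        rw [div_div, le_div_iff₀ (by positivity)]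
        have := mul_le_mul_of_nonneg_right (hp 4 7 (by norm_num)) hε0.le
        have h7 : 0 ≤ X ^ 7 * ε := by positivity
        nlinarith
      _ ≤ _ := by gcongr
  · calc 2 * (7 * (k * 2 * ε) + ε) ≤ 2 * (7 * (X * 2 * ε) + X * ε) := by
          gcongr
          exact le_mul_of_one_le_left hε0.le hX1
      _ ≤ (1 / X) / 16 := by
        rw [div_div, le_div_iff₀ (by positivity)]
        have := mul_le_mul_of_nonneg_right (hp 2 7 (by norm_num)) hε0.le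
        have h7 : 0 ≤ X ^ 7 * ε := by positivity
        nlinarith
      _ ≤ _ := by gcongr
  · calc ((3 : ℝ) ^ k) ^ 2 * (2 * X * ε + 7 * (k * 2 * ε) + 2 * ε) ≤
          (X ^ 2) ^ 2 * (2 * X * ε + 7 * (X * 2 * ε) + 2 * (X * ε)) := by
          gcongr
          exact le_mul_of_one_le_left hε0.le hX1
      _ ≤ ((1 / X) / 16) ^ 2 := by
        rw [div_div, div_pow, one_pow, le_div_iff₀ (by positivity)]
        have h7 : 0 ≤ X ^ 7 * ε := by positivity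
        nlinarith
      _ ≤ _ := by gcongr

theorem term (hC : ChangStmt) : TermStmt := by
  refine ⟨16, ?_⟩
  intro m R R' hm hmR hRR p _ g k ψ c τ Γ ρC ρX ρ1 H Rk hg hk h1 h1X hXC hreg hregX hforms hH hHX
    hpH hlive hR0 hRs hR1 hR2
  have hR' : 2 ≤ R' := (hm.trans hmR).trans hRR
  have hm0 : (0 : ℝ) < m := by exact_mod_cast (by omega : 0 < m)
  have hm1 : (1 : ℝ) ≤ m := by exact_mod_cast (by omega : 1 ≤ m)
  obtain ⟨Γ1, hΓ1, hΓ2⟩ := term_chang hC H R' hpH ((1 / m : ℝ) / 16) (by positivity) (by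
    have : (1 / m : ℝ) ≤ 1 := by rw [div_le_one hm0]; exact hm1
    linarith)
  have hcard : Γ1.card ≤ R' ^ 15 := by
    have h2 : (Γ1.card : ℝ) ≤ 8 * (R' + 1) * (16 * m) ^ 2 := by
      rw [div_div, div_pow, one_pow, mul_one_div, div_le_iff₀ (by positivity)] at hΓ1
      linarith
    have h3 : Γ1.card ≤ 8 * (R' + 1) * (16 * m) ^ 2 := by exact_mod_cast h2
    have h4 : 8 * (R' + 1) * (16 * m) ^ 2 ≤ 8 * (2 * R') * (16 * R') ^ 2 := by
      have : m ≤ R' := hmR.trans hRR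
      gcongr
      omega
    have h5 : 4096 * R' ^ 3 ≤ R' ^ (3 + 12) := poly_le hR' (by norm_num)
    calc Γ1.card ≤ 8 * (2 * R') * (16 * R') ^ 2 := h3.trans h4
      _ = 4096 * R' ^ 3 := by ring
      _ ≤ _ := h5
  refine ⟨Γ1, le_pow_mono hR' hcard (by norm_num), fun W hW hWn => ?_⟩
  have hHn : H.Nonempty := by
    rw [← card_pos]
    have hp : 0 < p := Nat.pos_of_ne_zero (NeZero.ne p)
    rcases Nat.eq_zero_or_pos H.card with h | h
    · rw [h, mul_zero] at hpH; omega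
    · exact h
  obtain ⟨hn1, hn2, hn3⟩ := term_num hm hmR hk
  have hε0 := (hf_pos (R ^ 16)).le
  obtain ⟨r, ξ, hr, hfin⟩ := term_main g ψ c τ Γ ρC ρX ρ1 (hf (R ^ 16)) (k * 2 * hf (R ^ 16))
    (2 * 2 ^ R) H W Rk m hg h1 h1X hXC hε0 (hf_le_one _) (by positivity) (by positivity) hreg
    (fun v hv => ⟨hforms.cmb_add v, by
      have := hforms.cmb_sym v 2 (by exact_mod_cast hv)
      rwa [Nat.cast_ofNat] at this⟩) hH hHn (by
      have h2 := hregX.card_add_le (by norm_num) h1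
      have h3 : ((bohr Γ ρX).card : ℝ) ≤ 2 ^ R * H.card := by exact_mod_cast hHX
      linarith) hlive hR0 hRs hR1 hR2
    (hW.trans (bohr_mono subset_union_left (min_le_left _ _))) hWn (fun ζ hζ w hw => by
      have h2 := nm_inSpan (hΓ2 ζ hζ) w (hf (R' ^ 16)) fun a ha =>
        (mem_bohr.1 (hW hw) a (mem_union_right _ ha)).trans (min_le_right _ _)
      have h3 : (Γ1.card : ℝ) * hf (R' ^ 16) ≤ hf 5 := by
        refine mul_hf_le (a := R' ^ 15) ?_ ?_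
        · exact le_trans (by exact_mod_cast hcard) (nat_le_two_pow (R' ^ 15))
        · exact add_le_pow hR' (const_le_pow hR' (by norm_num)) le_rfl
      have h4 : hf 5 ≤ 1 / 25 := by unfold hf; norm_num
      linarith) hn1 hn2 hn3
  refine ⟨r, ξ, hr, le_trans ?_ hfin⟩
  have h5 : 16 * m ^ 1 ≤ m ^ 16 := le_pow_mono hm (poly_le (k := 4) hm (by norm_num)) (by norm_num)
  have h6 : (16 * m : ℝ) ≤ ((m ^ 16 : ℕ) : ℝ) := by
    rw [pow_one] at h5
    exact_mod_cast h5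
  rw [div_div, mul_one_div, mul_comm (m : ℝ) 16]
  exact div_le_div_of_nonneg_left (by positivity) (by positivity) h6

end Pool.Agent.Lib.MP_9721b5_an
end
end

-- part Pool.Agent.Lib.MP_9721b5_an.All
section

/-!
Assembly of all the steps.
-/

namespace Pool.Agent.Lib.MP_9721b5_an

/-- Pointwise convergence of the averages of f(T^n x) g(T^(2n) x) h(T^(3n) x). -/
theorem mainStmt : MainStmt :=
  main_of (finite (level
    (ld (elim chang) (cover (graph (freiman bsg) (bs chang))) (nest kill (term chang)) atom)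
    (struct (killz (bs chang)) nl chain bumpS (stretch conv (point conv) cube)) approx))

end Pool.Agent.Lib.MP_9721b5_an
end
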