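import Pool.Agent.Lib.MP_9721b5_an.All

/-!
Complex functions and spaces in an arbitrary universe.
-/

set_option autoImplicit false

open MeasureTheory Filter Finset

namespace Pool.Agent.Lib.MP_9721b5_an

theorem cplx_small (X : Type) [MeasurableSpace X] (μ : Measure X) [IsProbabilityMeasure μ]
    (T : X → X) (hT : MeasurePreserving T μ μ) (f g h : X → ℂ) (hf : MemLp f ⊤ μ)
    (hg : MemLp g ⊤ μ) (hh : MemLp h ⊤ μ) :
    ∀ᵐ x ∂μ, ∃ L : ℂ, Tendsto (fun N : ℕ => (N : ℂ)⁻¹ *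
      ∑ n ∈ Icc 1 N, f (T^[n] x) * g (T^[2 * n] x) * h (T^[3 * n] x)) atTop (nhds L) := by
  let P : Fin 2 → ℂ → ℝ := ![Complex.re, Complex.im]
  have hP : ∀ (a : Fin 2) (u : X → ℂ), MemLp u ⊤ μ → MemLp (fun x => P a (u x)) ⊤ μ := by
    intro a u hu
    fin_cases a
    · exact hu.re
    · exact hu.im
  have h1 := ae_all_iff.2 fun a : Fin 2 => ae_all_iff.2 fun b : Fin 2 =>
    ae_all_iff.2 fun c : Fin 2 => mainStmt X μ T hT _ _ _ (hP a f hf) (hP b g hg) (hP c h hh)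
  filter_upwards [h1] with x hx
  choose L hL using hx
  refine ⟨∑ a : Fin 2, ∑ b : Fin 2, ∑ c : Fin 2,
    Complex.I ^ (a.val + b.val + c.val) * (L a b c : ℂ), ?_⟩
  refine (tendsto_finsetSum _ fun a _ => tendsto_finsetSum _ fun b _ =>
    tendsto_finsetSum _ fun c _ => ((Complex.continuous_ofReal.tendsto _).comp
      (hL a b c)).const_mul (Complex.I ^ (a.val + b.val + c.val))).congr fun N => ?_
  have hz : ∀ z : ℂ, z = ∑ a : Fin 2, Complex.I ^ a.val * (P a z : ℂ) := by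
    intro z
    simp [P, Fin.sum_univ_two, mul_comm Complex.I]
  have h2 : ∀ u v w : ℂ, u * v * w = ∑ a : Fin 2, ∑ b : Fin 2, ∑ c : Fin 2,
      Complex.I ^ (a.val + b.val + c.val) * ((P a u : ℂ) * (P b v : ℂ) * (P c w : ℂ)) := by
    intro u v w
    conv_lhs => rw [hz u, hz v, hz w]
    simp only [sum_mul, mul_sum, pow_add]
    rw [sum_comm]
    simp only [Fin.sum_univ_two]
    ring
  simp only [Function.comp_apply]
  push_cast
  rw [sum_congr rfl fun n _ => h2 _ _ _]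
  simp only [mul_sum, Fin.sum_univ_two, sum_add_distrib, mul_add]
  simp only [← mul_sum]
  ring

theorem cplx_all {X : Type*} [MeasurableSpace X] (μ : Measure X) [IsProbabilityMeasure μ]
    (T : X → X) (hT : MeasurePreserving T μ μ) (f g h : X → ℂ) (hf : MemLp f ⊤ μ)
    (hg : MemLp g ⊤ μ) (hh : MemLp h ⊤ μ) :
    ∀ᵐ x ∂μ, ∃ L : ℂ, Tendsto (fun N : ℕ => (N : ℂ)⁻¹ *
      ∑ n ∈ Icc 1 N, f (T^[n] x) * g (T^[2 * n] x) * h (T^[3 * n] x)) atTop (nhds L) := by
  have mf := hf.1.aemeasurable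
  have mg := hg.1.aemeasurable
  have mh := hh.1.aemeasurable
  let Φ : X → ℕ → ℂ × ℂ × ℂ := fun x n =>
    (mf.mk f (T^[n] x), mg.mk g (T^[n] x), mh.mk h (T^[n] x))
  have hΦ : Measurable Φ := measurable_pi_iff.2 fun n =>
    (mf.measurable_mk.comp (hT.measurable.iterate n)).prodMk
      ((mg.measurable_mk.comp (hT.measurable.iterate n)).prodMk
        (mh.measurable_mk.comp (hT.measurable.iterate n)))
  let S : (ℕ → ℂ × ℂ × ℂ) → ℕ → ℂ × ℂ × ℂ := fun ω n => ω (n + 1)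
  have hS : Measurable S := measurable_pi_iff.2 fun n => measurable_pi_apply _
  have hc : S ∘ Φ = Φ ∘ T := rfl
  have hit : ∀ (k : ℕ) (ω : ℕ → ℂ × ℂ × ℂ) (n : ℕ), (S^[k] ω) n = ω (n + k) := by
    intro k
    induction k with
    | zero => intro ω n; rfl
    | succ k ih => intro ω n; rw [Function.iterate_succ_apply, ih]; rfl
  have : IsProbabilityMeasure (μ.map Φ) := Measure.isProbabilityMeasure_map hΦ.aemeasurable
  have hp : MeasurePreserving S (μ.map Φ) (μ.map Φ) :=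
    ⟨hS, by rw [Measure.map_map hS hΦ, hc, ← Measure.map_map hΦ hT.measurable, hT.map_eq]⟩
  have m0 : Measurable fun ω : ℕ → ℂ × ℂ × ℂ => ω 0 := measurable_pi_apply 0
  have h1 := cplx_small _ (μ.map Φ) S hp (fun ω => (ω 0).1) (fun ω => (ω 0).2.1)
    (fun ω => (ω 0).2.2)
    ((memLp_map_measure_iff m0.fst.aestronglyMeasurable hΦ.aemeasurable).2
      (hf.ae_eq mf.ae_eq_mk))
    ((memLp_map_measure_iff m0.snd.fst.aestronglyMeasurable hΦ.aemeasurable).2
      (hg.ae_eq mg.ae_eq_mk))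
    ((memLp_map_measure_iff m0.snd.snd.aestronglyMeasurable hΦ.aemeasurable).2
      (hh.ae_eq mh.ae_eq_mk))
  have h2 := fun {P : X → Prop} (e : ∀ᵐ x ∂μ, P x) =>
    ae_all_iff.2 fun n : ℕ => (hT.iterate n).quasiMeasurePreserving.ae e
  filter_upwards [ae_of_ae_map hΦ.aemeasurable h1, h2 mf.ae_eq_mk, h2 mg.ae_eq_mk,
    h2 mh.ae_eq_mk] with x a0 a1 a2 a3
  simpa only [a1, a2, a3, hit, zero_add] using a0

end Pool.Agent.Lib.MP_9721b5_an
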