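import Pool.Agent.Shared.Ergodic.Birkhoff

-- part Pool.Agent.Lib.MP_9721b5_an.Tools
section

set_option autoImplicit false

open MeasureTheory Filter Topology Finset Complex
open Pool.Agent.Shared.Ergodic

namespace Pool.Agent.Lib.MP_9721b5_an

/-- finite measures on a product of lines are determined by their characteristic functionals -/
lemma ext_of_char {ι : Type*} (ν₁ ν₂ : Measure (ι → ℝ)) [IsFiniteMeasure ν₁] [IsFiniteMeasure ν₂]
    (h : ∀ (s : Finset ι) (t : ι → ℝ),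
      ∫ y, cexp ((∑ i ∈ s, t i * y i : ℝ) * I) ∂ν₁ = ∫ y, cexp ((∑ i ∈ s, t i * y i : ℝ) * I) ∂ν₂) :
    ν₁ = ν₂ := by
  classical
  have key : ∀ s : Finset ι, ν₁.map s.restrict = ν₂.map s.restrict := by
    intro s
    apply Measure.ext_of_charFunDual
    funext L
    rw [charFunDual_apply, charFunDual_apply,
      integral_map (Finset.measurable_restrict s).aemeasurable (by fun_prop),
      integral_map (Finset.measurable_restrict s).aemeasurable (by fun_prop)]
    let t : ι → ℝ := fun i => if hi : i ∈ s then L (Pi.single ⟨i, hi⟩ 1) else 0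
    have hL : ∀ y : ι → ℝ, L (s.restrict y) = ∑ i ∈ s, t i * y i := by
      intro y
      rw [← Finset.sum_attach s]
      have : s.restrict y = ∑ i : s, y i • (Pi.single i 1 : s → ℝ) := by
        ext j
        simp [Finset.sum_apply, Pi.single_apply]
      rw [this, map_sum]
      refine Finset.sum_congr rfl fun i _ => ?_
      simp [t, i.2, mul_comm]
    simp_rw [hL]
    exact h s t
  have h1 : IsProjectiveLimit ν₁ (fun s : Finset ι => ν₁.map s.restrict) := fun _ => rfl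
  have h2 : IsProjectiveLimit ν₂ (fun s : Finset ι => ν₁.map s.restrict) := fun s => (key s).symm
  exact h1.unique h2

/-- almost everywhere convergence of the Cesaro averages -/
def Conv {Ω : Type*} [MeasurableSpace Ω] (P : Measure Ω) (F : ℕ → Ω → ℂ) : Prop :=
  ∀ᵐ x ∂P, ∃ L, Tendsto (fun N : ℕ => (N : ℂ)⁻¹ * ∑ n ∈ range N, F n x) atTop (𝓝 L)

/-- a real process whose characteristic functional is shift invariant -/
lemma conv_of_stationary {Ω : Type*} [MeasurableSpace Ω] (P : Measure Ω) [IsProbabilityMeasure P]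
    (Y : ℕ → Ω → ℝ) (hY : ∀ n, Measurable (Y n))
    (h : ∀ (s : Finset ℕ) (t : ℕ → ℝ),
      ∫ ω, cexp ((∑ n ∈ s, t n * Y (n + 1) ω : ℝ) * I) ∂P =
        ∫ ω, cexp ((∑ n ∈ s, t n * Y n ω : ℝ) * I) ∂P) :
    Conv P fun n ω => cexp (Y n ω * I) := by
  let Φ : Ω → ℕ → ℝ := fun ω n => Y n ω
  have hΦ : Measurable Φ := measurable_pi_lambda _ hY
  let S : (ℕ → ℝ) → ℕ → ℝ := fun y n => y (n + 1)
  have hS : Measurable S := measurable_pi_lambda _ fun n => measurable_pi_apply _
  have : IsProbabilityMeasure (P.map Φ) := Measure.isProbabilityMeasure_map hΦ.aemeasurable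
  have hmp : MeasurePreserving S (P.map Φ) (P.map Φ) := by
    refine ⟨hS, ?_⟩
    apply ext_of_char
    intro s t
    have hm : Measurable fun y : ℕ → ℝ => cexp ((∑ i ∈ s, t i * y i : ℝ) * I) := by fun_prop
    rw [Measure.map_map hS hΦ, integral_map (hS.comp hΦ).aemeasurable hm.aestronglyMeasurable,
      integral_map hΦ.aemeasurable hm.aestronglyMeasurable]
    exact h s t
  have hB := birkhoff_complex hmp (f := fun y => cexp (y 0 * I)) (by fun_prop) 1
    (fun y => by rw [Complex.norm_exp_ofReal_mul_I])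
  have hit : ∀ (n : ℕ) (y : ℕ → ℝ) (m : ℕ), (S^[n] y) m = y (m + n) := by
    intro n
    induction n with
    | zero => intro y m; rfl
    | succ n ih =>
      intro y m
      rw [Function.iterate_succ_apply, ih]
      rfl
  have := ae_of_ae_map hΦ.aemeasurable hB
  filter_upwards [this] with ω hω
  simpa [hit, Φ] using hω

variable {X : Type*} [MeasurableSpace X] {μ : Measure X}

lemma Conv.add {F G : ℕ → X → ℂ} (hF : Conv μ F) (hG : Conv μ G) :
    Conv μ fun n x => F n x + G n x := by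
  filter_upwards [hF, hG] with x ⟨a, ha⟩ ⟨b, hb⟩
  refine ⟨a + b, (ha.add hb).congr fun N => ?_⟩
  rw [sum_add_distrib, mul_add]

lemma Conv.mul_left {F : ℕ → X → ℂ} (hF : Conv μ F) (c : X → ℂ) :
    Conv μ fun n x => c x * F n x := by
  filter_upwards [hF] with x ⟨a, ha⟩
  refine ⟨c x * a, (ha.const_mul (c x)).congr fun N => ?_⟩
  rw [← mul_sum]; ring

lemma conv_zero : Conv μ fun _ _ => 0 :=
  Eventually.of_forall fun _ => ⟨0, by simp⟩

/-- closure under approximation controlled by an ergodic average -/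
lemma conv_of_approx [IsProbabilityMeasure μ] {T : X → X} (hT : MeasurePreserving T μ μ)
    (F : ℕ → X → ℂ)
    (h : ∀ ε > 0, ∃ (G : ℕ → X → ℂ) (g : X → ℝ) (C : ℝ), Conv μ G ∧ Measurable g ∧
      (∀ x, |g x| ≤ C) ∧ (∀ x, 0 ≤ g x) ∧ ∫ x, g x ∂μ ≤ ε ∧
      ∀ n x, ‖F n x - G n x‖ ≤ g (T^[n] x)) : Conv μ F := by
  choose G g C hG hg hC h0 hint hle using fun m : ℕ => h (1 / ((m : ℝ) + 1)) (by positivity)
  have hup0 : ∀ m x, 0 ≤ upper T (g m) x := fun m x =>
    le_limsup_of_frequently_le (Frequently.of_forall fun N =>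
      mul_nonneg (by positivity) (sum_nonneg fun n _ => h0 m _)) (bddAbove_avg T (C m) (hC m) x)
  have hsmall : ∀ r : ℕ, ∀ᵐ x ∂μ, ∃ m, upper T (g m) x < 1 / ((r : ℝ) + 1) := by
    intro r
    have hr : (0 : ℝ) < 1 / ((r : ℝ) + 1) := by positivity
    rw [ae_iff]
    have hle' : ∀ m : ℕ, 1 / ((r : ℝ) + 1) *
        μ.real {x | ¬∃ m, upper T (g m) x < 1 / ((r : ℝ) + 1)} ≤ 1 / ((m : ℝ) + 1) := by
      intro m
      have h1 := mul_meas_ge_le_integral_of_nonneg (μ := μ) (f := upper T (g m))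
        (Eventually.of_forall (hup0 m))
        (integrable_of_bdd (measurable_upper hT.measurable (hg m)) (C m)
          (abs_upper_le T (C m) (hC m))) (1 / ((r : ℝ) + 1))
      have h2 := integral_upper_le hT (hg m) (C m) (hC m)
      refine le_trans (mul_le_mul_of_nonneg_left (measureReal_mono ?_) hr.le)
        (h1.trans (h2.trans (hint m)))
      intro x hx
      simp only [not_exists, not_lt, Set.mem_ofPred_eq] at hx
      exact hx m
    have h3 : 1 / ((r : ℝ) + 1) *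
        μ.real {x | ¬∃ m, upper T (g m) x < 1 / ((r : ℝ) + 1)} ≤ 0 :=
      ge_of_tendsto' tendsto_one_div_add_atTop_nhds_zero_nat hle'
    have h4 : μ.real {x | ¬∃ m, upper T (g m) x < 1 / ((r : ℝ) + 1)} = 0 :=
      le_antisymm (le_of_not_gt fun h5 => absurd (mul_pos hr h5) (not_lt.2 h3)) measureReal_nonneg
    exact (measureReal_eq_zero_iff (measure_ne_top _ _)).1 h4
  filter_upwards [ae_all_iff.2 hsmall, ae_all_iff.2 hG] with x hx1 hx2
  apply cauchySeq_tendsto_of_complete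
  rw [Metric.cauchySeq_iff']
  intro ε hε
  obtain ⟨r, hr⟩ := exists_nat_one_div_lt (show 0 < ε / 4 by positivity)
  obtain ⟨m, hm⟩ := hx1 r
  obtain ⟨L, hL⟩ := hx2 m
  have e1 : ∀ᶠ N in atTop, avg T (g m) x N < ε / 4 :=
    eventually_lt_of_limsup_lt (hm.trans hr) (bddAbove_avg T (C m) (hC m) x)
  have e2 := (Metric.tendsto_nhds.1 hL) (ε / 4) (by positivity)
  obtain ⟨N₀, hN₀⟩ := eventually_atTop.1 (e1.and e2)
  have key : ∀ N ≥ N₀, dist ((N : ℂ)⁻¹ * ∑ n ∈ range N, F n x) L < ε / 2 := by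
    intro N hN
    obtain ⟨a, b⟩ := hN₀ N hN
    have : dist ((N : ℂ)⁻¹ * ∑ n ∈ range N, F n x) ((N : ℂ)⁻¹ * ∑ n ∈ range N, G m n x) ≤
        avg T (g m) x N := by
      rw [dist_eq_norm, ← mul_sub, ← sum_sub_distrib, norm_mul, avg, norm_inv, Complex.norm_natCast]
      refine mul_le_mul_of_nonneg_left ?_ (by positivity)
      exact (norm_sum_le _ _).trans (sum_le_sum fun n _ => hle m n x)
    linarith [dist_triangle ((N : ℂ)⁻¹ * ∑ n ∈ range N, F n x)
      ((N : ℂ)⁻¹ * ∑ n ∈ range N, G m n x) L]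
  refine ⟨N₀, fun N hN => ?_⟩
  have a := key N hN
  have b := key N₀ le_rfl
  linarith [dist_triangle_right ((N : ℂ)⁻¹ * ∑ n ∈ range N, F n x)
    ((N₀ : ℂ)⁻¹ * ∑ n ∈ range N₀, F n x) L]

/-- integrating out an independent coordinate -/
lemma conv_of_prod {Ω : Type*} [MeasurableSpace Ω] (P : Measure Ω) [IsProbabilityMeasure P]
    [SFinite μ] (F : ℕ → X × Ω → ℂ) (hF : ∀ n, Measurable (F n)) (hb : ∀ n z, ‖F n z‖ ≤ 1)
    (h : Conv (μ.prod P) F) : Conv μ fun n x => ∫ ω, F n (x, ω) ∂P := by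
  filter_upwards [Measure.ae_ae_of_ae_prod h] with x hx
  have hm : ∀ n, Measurable fun ω => F n (x, ω) := fun n => (hF n).comp measurable_prodMk_left
  have hi : ∀ n, Integrable (fun ω => F n (x, ω)) P := fun n =>
    Integrable.of_bound (hm n).aestronglyMeasurable 1 (Eventually.of_forall fun ω => hb n _)
  refine ⟨∫ ω, limUnder atTop (fun N : ℕ => (N : ℂ)⁻¹ * ∑ n ∈ range N, F n (x, ω)) ∂P, ?_⟩
  have := tendsto_integral_of_dominated_convergence (μ := P)
    (F := fun (N : ℕ) ω => (N : ℂ)⁻¹ * ∑ n ∈ range N, F n (x, ω))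
    (f := fun ω => limUnder atTop (fun N : ℕ => (N : ℂ)⁻¹ * ∑ n ∈ range N, F n (x, ω)))
    (fun _ => (1 : ℝ)) (fun N => (measurable_const.mul
      (Finset.measurable_sum _ fun n _ => hm n)).aestronglyMeasurable) (integrable_const _)
    (fun N => Eventually.of_forall fun ω => ?_) ?_
  · refine this.congr fun N => ?_
    rw [integral_const_mul, integral_finsetSum _ fun n _ => hi n]
  · rcases Nat.eq_zero_or_pos N with rfl | hN
    · simp
    have hN' : (0 : ℝ) < N := by exact_mod_cast hN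
    rw [norm_mul, norm_inv, Complex.norm_natCast, inv_mul_le_iff₀ hN']
    refine (norm_sum_le _ _).trans ?_
    calc ∑ n ∈ range N, ‖F n (x, ω)‖ ≤ ∑ _n ∈ range N, (1 : ℝ) := sum_le_sum fun n _ => hb n _
      _ = N * 1 := by simp
  · filter_upwards [hx] with ω hω
    exact tendsto_nhds_limUnder hω

end Pool.Agent.Lib.MP_9721b5_an
end

-- part Pool.Agent.Lib.MP_9721b5_an.Gauss
section

set_option autoImplicit false

open MeasureTheory ProbabilityTheory Filter Topology Finset Complex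
open Pool.Agent.Shared.Ergodic

namespace Pool.Agent.Lib.MP_9721b5_an

section Algebra

variable {V : Type*} [AddCommGroup V] [Module ℝ V] (M : V →ₗ[ℝ] ℝ) (B : V →ₗ[ℝ] V →ₗ[ℝ] ℝ)

/-- logarithm of the characteristic function -/
noncomputable def psi (v : V) : ℂ := (M v : ℝ) * I - (B v v : ℝ) / 2

lemma psi_decouple {K : Type*} [Fintype K] (c : ℝ) (hc : c * c = 1 / 2) (b : K → V) :
    psi M B (∑ j, b j) + ∑ p : K × K, psi M B (c • (b p.1 - b p.2)) =
      ∑ j, ((M (b j) : ℝ) * I - (Fintype.card K * B (b j) (b j) : ℝ) / 2) := by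
  have h1 : ∑ p : K × K, M (c • (b p.1 - b p.2)) = 0 := by
    simp only [map_smul, map_sub, smul_eq_mul, ← mul_sum, sum_sub_distrib, Fintype.sum_prod_type]
    rw [sum_comm (f := fun _ j => M (b j))]
    simp
  have h2 : B (∑ j, b j) (∑ j, b j) + ∑ p : K × K, B (c • (b p.1 - b p.2)) (c • (b p.1 - b p.2)) =
      ∑ j, Fintype.card K * B (b j) (b j) := by
    have h3 : ∀ p : K × K, B (c • (b p.1 - b p.2)) (c • (b p.1 - b p.2)) =
        (1 / 2) * (B (b p.1) (b p.1) + B (b p.2) (b p.2) - B (b p.1) (b p.2) - B (b p.2) (b p.1)) := by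
      intro p
      simp only [map_smul, map_sub, LinearMap.smul_apply, LinearMap.sub_apply, smul_eq_mul]
      rw [← hc]; ring
    simp only [h3, ← mul_sum, sum_sub_distrib, sum_add_distrib, Fintype.sum_prod_type, map_sum,
      LinearMap.sum_apply]
    rw [sum_comm (f := fun _ j => B (b j) (b j)), sum_comm (f := fun i j => B (b i) (b j))]
    simp only [sum_const, card_univ, nsmul_eq_mul, ← mul_sum]
    ring
  have h1' := congrArg (fun r : ℝ => (r : ℂ)) h1
  have h2' := congrArg (fun r : ℝ => (r : ℂ)) h2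
  simp only [psi, sum_sub_distrib, ← sum_mul, ← sum_div, map_sum]
  push_cast at h1' h2' ⊢
  simp only [map_sum] at h2'
  push_cast at h2'
  linear_combination I * h1' - h2' / 2

lemma psi_parallelogram (c : ℝ) (hc : c * c = 1 / 2) (a r : V) :
    psi M B (c • (a - r)) + psi M B (c • r + c • a) =
      (2 * c * M a : ℝ) * I - (B a a + B r r : ℝ) / 2 := by
  have hc' : (c : ℂ) * c = 1 / 2 := by
    have := congrArg (fun r : ℝ => (r : ℂ)) hc
    push_cast at this
    exact this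
  simp only [psi, map_smul, map_sub, map_add, LinearMap.smul_apply, LinearMap.sub_apply,
    LinearMap.add_apply, smul_eq_mul]
  push_cast
  linear_combination (-(B a a : ℂ) - (B r r : ℂ)) * hc'

end Algebra

variable {X : Type*} [MeasurableSpace X] {μ : Measure X} [IsProbabilityMeasure μ]
  {H : Submodule ℝ (X → ℝ)}

/-- mean on a Gaussian space -/
noncomputable def meanL (hg : ∀ ξ ∈ H, HasGaussianLaw ξ μ) : H →ₗ[ℝ] ℝ where
  toFun ξ := ∫ x, (ξ : X → ℝ) x ∂μ
  map_add' ξ η := integral_add (hg _ ξ.2).integrable (hg _ η.2).integrable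
  map_smul' c _ := integral_const_mul c _

/-- covariance on a Gaussian space -/
noncomputable def covL (hg : ∀ ξ ∈ H, HasGaussianLaw ξ μ) : H →ₗ[ℝ] H →ₗ[ℝ] ℝ :=
  LinearMap.mk₂ ℝ (fun ξ η => cov[(ξ : X → ℝ), (η : X → ℝ); μ])
    (fun ξ ξ' η => covariance_add_left (hg _ ξ.2).memLp_two (hg _ ξ'.2).memLp_two
      (hg _ η.2).memLp_two)
    (fun c _ _ => covariance_smul_left c)
    (fun ξ η η' => covariance_add_right (hg _ ξ.2).memLp_two (hg _ η.2).memLp_two
      (hg _ η'.2).memLp_two)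
    (fun c _ _ => covariance_smul_right c)

lemma integral_exp_eq (hg : ∀ ξ ∈ H, HasGaussianLaw ξ μ) (ξ : H) :
    ∫ x, cexp ((ξ : X → ℝ) x * I) ∂μ = cexp (psi (meanL hg) (covL hg) ξ) := by
  have h := (hg _ ξ.2).charFun_map_eq (1 : ℝ)
  rw [charFun_apply_real, integral_map (hg _ ξ.2).aemeasurable (by fun_prop)] at h
  simp only [ofReal_one, one_mul, RCLike.inner_apply, conj_trivial, mul_one] at h
  rw [h, psi]
  congr 2
  simp only [covL, LinearMap.mk₂_apply]
  rw [covariance_self (hg _ ξ.2).aemeasurable]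

/-- Koopman operator on the Gaussian space -/
def koop (T : X → X) (hT : ∀ ξ ∈ H, ξ ∘ T ∈ H) : H →ₗ[ℝ] H where
  toFun ξ := ⟨(ξ : X → ℝ) ∘ T, hT _ ξ.2⟩
  map_add' _ _ := rfl
  map_smul' _ _ := rfl

omit [MeasurableSpace X] in
lemma koop_pow (T : X → X) (hT : ∀ ξ ∈ H, ξ ∘ T ∈ H) (n : ℕ) :
    ∀ (ξ : H) (x : X), (((koop T hT ^ n) ξ : H) : X → ℝ) x = (ξ : X → ℝ) (T^[n] x) := by
  induction n with
  | zero => intro ξ x; rfl
  | succ n ih =>
    intro ξ x
    rw [pow_succ, Module.End.mul_apply, ih, Function.iterate_succ_apply']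
    rfl

omit [IsProbabilityMeasure μ] in
lemma meanL_koop (hm : ∀ ξ ∈ H, Measurable ξ) (hg : ∀ ξ ∈ H, HasGaussianLaw ξ μ) {T : X → X}
    (hT : ∀ ξ ∈ H, ξ ∘ T ∈ H) (hp : MeasurePreserving T μ μ) (ξ : H) :
    meanL hg (koop T hT ξ) = meanL hg ξ := by
  have := integral_map (μ := μ) hp.measurable.aemeasurable (f := (ξ : X → ℝ))
    (hm _ ξ.2).aestronglyMeasurable
  rw [hp.map_eq] at this
  exact this.symm

lemma covL_koop (hm : ∀ ξ ∈ H, Measurable ξ) (hg : ∀ ξ ∈ H, HasGaussianLaw ξ μ) {T : X → X}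
    (hT : ∀ ξ ∈ H, ξ ∘ T ∈ H) (hp : MeasurePreserving T μ μ) (ξ η : H) :
    covL hg (koop T hT ξ) (koop T hT η) = covL hg ξ η := by
  have := covariance_map (μ := μ) (X := (ξ : X → ℝ)) (Y := (η : X → ℝ)) (Z := T)
    (hm _ ξ.2).aestronglyMeasurable (hm _ η.2).aestronglyMeasurable hp.measurable.aemeasurable
  rw [hp.map_eq] at this
  exact this.symm

lemma integral_exp_pi (hg : ∀ ξ ∈ H, HasGaussianLaw ξ μ) {J : Type*} [Fintype J] (v : J → H) :
    ∫ ω : J → X, cexp ((∑ i, (v i : X → ℝ) (ω i) : ℝ) * I) ∂(Measure.pi fun _ => μ) =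
      cexp (∑ i, psi (meanL hg) (covL hg) (v i)) := by
  have := integral_fintype_prod_eq_prod (μ := fun _ : J => μ) (𝕜 := ℂ)
    (fun i x => cexp ((v i : X → ℝ) x * I))
  simp_rw [integral_exp_eq hg] at this
  rw [Complex.exp_sum, ← this]
  congr 1
  funext ω
  rw [← Complex.exp_sum, ← sum_mul]
  push_cast
  rfl

lemma integral_exp_prod (hg : ∀ ξ ∈ H, HasGaussianLaw ξ μ) {J : Type*} [Fintype J] (u : H)
    (v : J → H) :
    ∫ z : X × (J → X), cexp (((u : X → ℝ) z.1 + ∑ i, (v i : X → ℝ) (z.2 i) : ℝ) * I)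
        ∂(μ.prod (Measure.pi fun _ => μ)) =
      cexp (psi (meanL hg) (covL hg) u + ∑ i, psi (meanL hg) (covL hg) (v i)) := by
  have := integral_prod_mul (μ := μ) (ν := Measure.pi fun _ : J => μ)
    (fun x => cexp ((u : X → ℝ) x * I))
    (fun ω : J → X => cexp ((∑ i, (v i : X → ℝ) (ω i) : ℝ) * I))
  rw [integral_exp_eq hg, integral_exp_pi hg, ← Complex.exp_add] at this
  rw [← this]
  congr 1
  funext z
  rw [← Complex.exp_add]
  push_cast
  ring_nf

/-- the decoupling step, for abstract isometries -/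
lemma conv_exp_abstract (hm : ∀ ξ ∈ H, Measurable ξ) (hg : ∀ ξ ∈ H, HasGaussianLaw ξ μ)
    {K : Type} [Fintype K] (U : K → H →ₗ[ℝ] H) (R : K → K → H →ₗ[ℝ] H)
    (hUM : ∀ j ξ, meanL hg (U j ξ) = meanL hg ξ)
    (hUB : ∀ j ξ η, covL hg (U j ξ) (U j η) = covL hg ξ η)
    (hRM : ∀ i j ξ, meanL hg (R i j ξ) = meanL hg ξ)
    (hRB : ∀ i j ξ η, covL hg (R i j ξ) (R i j η) = covL hg ξ η)
    (hUR : ∀ i j n ξ, (U j ^ n) ξ = (U i ^ n) ((R i j ^ n) ξ)) (a : K → H) :
    Conv μ fun n x => cexp (((∑ j, (U j ^ n) (a j) : H) : X → ℝ) x * I) := by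
  obtain ⟨c, hc⟩ : ∃ c : ℝ, c * c = 1 / 2 :=
    ⟨Real.sqrt (1 / 2), Real.mul_self_sqrt (by norm_num)⟩
  have powM : ∀ (A : H →ₗ[ℝ] H), (∀ ξ, meanL hg (A ξ) = meanL hg ξ) →
      ∀ n ξ, meanL hg ((A ^ n) ξ) = meanL hg ξ := by
    intro A hA n
    induction n with
    | zero => intro ξ; rfl
    | succ n ih => intro ξ; rw [pow_succ, Module.End.mul_apply, ih, hA]
  have powB : ∀ (A : H →ₗ[ℝ] H), (∀ ξ η, covL hg (A ξ) (A η) = covL hg ξ η) →
      ∀ n ξ η, covL hg ((A ^ n) ξ) ((A ^ n) η) = covL hg ξ η := by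
    intro A hA n
    induction n with
    | zero => intro ξ η; rfl
    | succ n ih => intro ξ η; rw [pow_succ, Module.End.mul_apply, Module.End.mul_apply, ih, hA]
  let J := (K × K) ⊕ (K × K)
  let u : ℕ → H := fun n => ∑ j, (U j ^ n) (a j)
  let v : ℕ → J → H := fun n => Sum.elim
    (fun p => c • ((U p.1 ^ n) (a p.1) - (U p.2 ^ n) (a p.2)))
    (fun p => c • (R p.1 p.2 ^ n) (a p.2))
  let w : J → H := Sum.elim (fun _ => 0) (fun p => c • a p.1)
  let P : Measure (J → X) := Measure.pi fun _ => μ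
  let Y : ℕ → X × (J → X) → ℝ := fun n z => (u n : X → ℝ) z.1 + ∑ i, (v n i : X → ℝ) (z.2 i)
  have hmY : ∀ (u : H) (v : J → H),
      Measurable fun z : X × (J → X) => (u : X → ℝ) z.1 + ∑ i, (v i : X → ℝ) (z.2 i) :=
    fun u v => ((hm _ u.2).comp measurable_fst).add (Finset.measurable_sum _ fun i _ =>
      (hm _ (v i).2).comp ((measurable_pi_apply i).comp measurable_snd))
  have hlin : ∀ (s : Finset ℕ) (t : ℕ → ℝ) (d : ℕ) (z : X × (J → X)),
      ∑ n ∈ s, t n * Y (n + d) z = ((∑ n ∈ s, t n • u (n + d) : H) : X → ℝ) z.1 +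
        ∑ i, ((∑ n ∈ s, t n • v (n + d) i : H) : X → ℝ) (z.2 i) := by
    intro s t d z
    simp only [Y, mul_add, sum_add_distrib, mul_sum, Submodule.coe_sum, Submodule.coe_smul,
      Finset.sum_apply, Pi.smul_apply, smul_eq_mul]
    rw [sum_comm]
  have hpsi : ∀ (s : Finset ℕ) (t : ℕ → ℝ) (d : ℕ),
      psi (meanL hg) (covL hg) (∑ n ∈ s, t n • u (n + d)) +
        ∑ i, psi (meanL hg) (covL hg) (∑ n ∈ s, t n • v (n + d) i) =
      ∑ j, ((meanL hg (∑ n ∈ s, t n • (U j ^ n) (a j)) : ℝ) * I -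
        (Fintype.card K * covL hg (∑ n ∈ s, t n • (U j ^ n) (a j))
          (∑ n ∈ s, t n • (U j ^ n) (a j)) : ℝ) / 2) +
      ∑ p : K × K, psi (meanL hg) (covL hg) (c • ∑ n ∈ s, t n • (R p.1 p.2 ^ n) (a p.2)) := by
    intro s t d
    have e1 : ∀ (A : H →ₗ[ℝ] H) (ξ : H), ∑ n ∈ s, t n • (A ^ (n + d)) ξ =
        (A ^ d) (∑ n ∈ s, t n • (A ^ n) ξ) := by
      intro A ξ
      rw [map_sum]
      refine sum_congr rfl fun n _ => ?_
      rw [map_smul, add_comm, pow_add, Module.End.mul_apply]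
    have e2 : ∑ n ∈ s, t n • u (n + d) = ∑ j, (U j ^ d) (∑ n ∈ s, t n • (U j ^ n) (a j)) := by
      simp only [u, smul_sum, ← e1]
      rw [sum_comm]
    have e3 : ∀ p : K × K, ∑ n ∈ s, t n • v (n + d) (Sum.inl p) =
        c • ((U p.1 ^ d) (∑ n ∈ s, t n • (U p.1 ^ n) (a p.1)) -
          (U p.2 ^ d) (∑ n ∈ s, t n • (U p.2 ^ n) (a p.2))) := by
      intro p
      simp only [v, Sum.elim_inl, ← e1, ← sum_sub_distrib, smul_sum]
      refine sum_congr rfl fun n _ => ?_
      rw [smul_comm, smul_sub (t n)]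
    have e4 : ∀ p : K × K, ∑ n ∈ s, t n • v (n + d) (Sum.inr p) =
        (R p.1 p.2 ^ d) (c • ∑ n ∈ s, t n • (R p.1 p.2 ^ n) (a p.2)) := by
      intro p
      rw [map_smul, ← e1, smul_sum]
      simp only [v, Sum.elim_inr]
      refine sum_congr rfl fun n _ => ?_
      rw [smul_comm]
    rw [Fintype.sum_sum_type, ← add_assoc, e2]
    simp only [e3, e4]
    rw [psi_decouple _ _ c hc]
    congr 1
    · refine sum_congr rfl fun j _ => ?_
      rw [powM _ (hUM j), powB _ (hUB j)]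
    · refine sum_congr rfl fun p _ => ?_
      rw [psi, psi, powM _ (hRM _ _), powB _ (hRB _ _)]
  have h1 : Conv (μ.prod P) fun n z => cexp (Y n z * I) := by
    refine conv_of_stationary _ Y (fun n => hmY _ _) fun s t => ?_
    have a1 := hlin s t 1
    have a0 := hlin s t 0
    simp only [add_zero] at a0
    simp_rw [a1, a0]
    rw [integral_exp_prod hg, integral_exp_prod hg, hpsi s t 1]
    have := hpsi s t 0
    simp only [add_zero] at this
    rw [this]
  have h2 := h1.mul_left fun z => cexp ((∑ i, (w i : X → ℝ) (z.2 i) : ℝ) * I)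
  have h3 : ∀ n (z : X × (J → X)), cexp ((∑ i, (w i : X → ℝ) (z.2 i) : ℝ) * I) * cexp (Y n z * I) =
      cexp (((u n : X → ℝ) z.1 + ∑ i, ((v n i + w i : H) : X → ℝ) (z.2 i) : ℝ) * I) := by
    intro n z
    rw [← Complex.exp_add]
    simp only [Y, Submodule.coe_add, Pi.add_apply, sum_add_distrib]
    push_cast
    ring_nf
  simp only [h3] at h2
  have h4 := conv_of_prod P _ (fun n => by
      have := hmY (u n) (fun i => v n i + w i)
      fun_prop) (fun n z => by rw [Complex.norm_exp_ofReal_mul_I]) h2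
  let κ : ℂ := ∑ p : K × K, ((2 * c * meanL hg (a p.1) : ℝ) * I -
    (covL hg (a p.1) (a p.1) + covL hg (a p.2) (a p.2) : ℝ) / 2)
  have h5 : ∀ n, ∑ i, psi (meanL hg) (covL hg) (v n i + w i) = κ := by
    intro n
    rw [Fintype.sum_sum_type, ← sum_add_distrib]
    refine sum_congr rfl fun p _ => ?_
    simp only [v, w, Sum.elim_inl, Sum.elim_inr, add_zero]
    have := psi_parallelogram (meanL hg) (covL hg) c hc (a p.1) ((R p.1 p.2 ^ n) (a p.2))
    rw [powB _ (hRB _ _)] at this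
    rw [← this, hUR p.1 p.2 n, ← map_sub, ← map_smul, psi, psi, powM _ (hUM _), powB _ (hUB _)]
    rfl
  have h6 : ∀ n x, ∫ ω, cexp (((u n : X → ℝ) x + ∑ i, ((v n i + w i : H) : X → ℝ) (ω i) : ℝ) * I) ∂P
      = cexp κ * cexp ((u n : X → ℝ) x * I) := by
    intro n x
    rw [← h5 n, ← integral_exp_pi hg, ← integral_mul_const]
    congr 1
    funext ω
    rw [← Complex.exp_add]
    push_cast
    ring_nf
  simp only [h6] at h4
  have h7 := h4.mul_left fun _ => cexp (-κ)
  simp only [← Complex.exp_add, neg_add_cancel_left] at h7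
  exact h7

end Pool.Agent.Lib.MP_9721b5_an
end

-- part Pool.Agent.Lib.MP_9721b5_an.Dense
section

set_option autoImplicit false

open MeasureTheory Filter Topology Finset Complex
open scoped ComplexConjugate

namespace Pool.Agent.Lib.MP_9721b5_an

variable {X : Type*} [mX : MeasurableSpace X] {ν : Measure X} {H : Submodule ℝ (X → ℝ)}

lemma meas_of_gen (hgen : mX = ⨆ ξ ∈ H, MeasurableSpace.comap ξ (borel ℝ)) :
    ∀ ξ ∈ H, Measurable ξ := by
  intro ξ hξ
  rw [measurable_iff_comap_le, hgen]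
  exact le_iSup₂_of_le (f := fun (ξ : X → ℝ) (_ : ξ ∈ H) => MeasurableSpace.comap ξ (borel ℝ))
    ξ hξ le_rfl

lemma eq_zero_of_orth_real (hgen : mX = ⨆ ξ ∈ H, MeasurableSpace.comap ξ (borel ℝ))
    (r : X → ℝ) (hr : Integrable r ν)
    (h : ∀ ξ ∈ H, ∫ x, (r x : ℂ) * cexp (ξ x * I) ∂ν = 0) : r =ᵐ[ν] 0 := by
  have hm := meas_of_gen hgen
  let Ξ : X → H → ℝ := fun x ξ => (ξ : X → ℝ) x
  have hΞ : Measurable Ξ := measurable_pi_lambda _ fun ξ => hm _ ξ.2
  have hcomap : mX ≤ MeasurableSpace.comap Ξ MeasurableSpace.pi := by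
    rw [hgen]
    refine iSup₂_le fun ξ hξ => ?_
    have : ξ = (fun y : H → ℝ => y ⟨ξ, hξ⟩) ∘ Ξ := rfl
    rw [this, ← MeasurableSpace.comap_comp]
    exact MeasurableSpace.comap_mono (measurable_pi_apply (⟨ξ, hξ⟩ : H)).comap_le
  let ν₁ := ν.withDensity fun x => ENNReal.ofReal (r x)
  let ν₂ := ν.withDensity fun x => ENNReal.ofReal (-r x)
  have : IsFiniteMeasure ν₁ := isFiniteMeasure_withDensity_ofReal hr.2
  have : IsFiniteMeasure ν₂ := isFiniteMeasure_withDensity_ofReal hr.neg.2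
  have ha₁ : AEMeasurable (fun x => ENNReal.ofReal (r x)) ν := hr.aemeasurable.ennreal_ofReal
  have ha₂ : AEMeasurable (fun x => ENNReal.ofReal (-r x)) ν := hr.aemeasurable.neg.ennreal_ofReal
  have key : ν₁.map Ξ = ν₂.map Ξ := by
    apply ext_of_char
    intro s t
    have hme : Measurable fun y : H → ℝ => cexp ((∑ i ∈ s, t i * y i : ℝ) * I) := by fun_prop
    rw [integral_map hΞ.aemeasurable hme.aestronglyMeasurable,
      integral_map hΞ.aemeasurable hme.aestronglyMeasurable,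
      integral_withDensity_eq_integral_toReal_smul₀ ha₁ (by simp),
      integral_withDensity_eq_integral_toReal_smul₀ ha₂ (by simp), ← sub_eq_zero]
    have hb : ∀ g : X → ℝ, Integrable g ν →
        Integrable (fun x => g x • cexp ((∑ i ∈ s, t i * Ξ x i : ℝ) * I)) ν := by
      intro g hg
      refine hg.smul_bdd 1 (hme.comp hΞ).aestronglyMeasurable (Eventually.of_forall fun x => ?_)
      rw [Complex.norm_exp_ofReal_mul_I]
    rw [← integral_sub (hb _ ?_) (hb _ ?_)]
    · rw [← h (∑ i ∈ s, t i • i : H) (Subtype.prop _)]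
      congr 1
      funext x
      rw [← sub_smul, ENNReal.toReal_ofReal', ENNReal.toReal_ofReal', max_zero_sub_max_neg_zero_eq_self]
      simp [Ξ, Finset.sum_apply]
    · simp only [ENNReal.toReal_ofReal']
      exact hr.pos_part
    · simp only [ENNReal.toReal_ofReal']
      exact hr.neg_part
  have key2 : ν₁ = ν₂ := by
    ext A hA
    obtain ⟨B, hB, rfl⟩ := hcomap A hA
    rw [← Measure.map_apply hΞ hB, ← Measure.map_apply hΞ hB, key]
  have h3 := (withDensity_eq_iff ha₁ ha₂ ?_).1 key2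
  · filter_upwards [h3] with x hx
    have := congrArg ENNReal.toReal hx
    rw [ENNReal.toReal_ofReal', ENNReal.toReal_ofReal'] at this
    have h4 := max_zero_sub_max_neg_zero_eq_self (r x)
    simp only [Pi.zero_apply]
    linarith
  · exact ((lintegral_mono fun x => Real.ofReal_le_enorm (r x)).trans_lt hr.2).ne

lemma eq_zero_of_orth (hgen : mX = ⨆ ξ ∈ H, MeasurableSpace.comap ξ (borel ℝ))
    (q : X → ℂ) (hq : Integrable q ν)
    (h : ∀ ξ ∈ H, ∫ x, q x * cexp (ξ x * I) ∂ν = 0) : q =ᵐ[ν] 0 := by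
  have hm := meas_of_gen hgen
  have h' : ∀ ξ ∈ H, ∫ x, conj (q x) * cexp (ξ x * I) ∂ν = 0 := by
    intro ξ hξ
    have := congrArg conj (h (-ξ) (H.neg_mem hξ))
    rw [← integral_conj, map_zero] at this
    rw [← this]
    congr 1
    funext x
    rw [map_mul, ← Complex.exp_conj]
    simp
  have hb : ∀ ξ ∈ H, ∀ g : X → ℂ, Integrable g ν →
      Integrable (fun x => g x * cexp (ξ x * I)) ν := by
    intro ξ hξ g hg
    have := hm ξ hξ
    refine hg.mul_bdd (c := 1) (Measurable.aestronglyMeasurable (by fun_prop))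
      (Eventually.of_forall fun x => ?_)
    rw [Complex.norm_exp_ofReal_mul_I]
  have hc : Integrable (fun x => conj (q x)) ν :=
    (Complex.conjCLE.toContinuousLinearMap.integrable_comp hq)
  have h1 := eq_zero_of_orth_real hgen (fun x => (q x).re) hq.re fun ξ hξ => by
    have : ∀ x, (((q x).re : ℝ) : ℂ) * cexp (ξ x * I) =
        (1 / 2) * (q x * cexp (ξ x * I) + conj (q x) * cexp (ξ x * I)) := by
      intro x
      rw [← add_mul, Complex.add_conj]
      push_cast
      ring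
    simp_rw [this]
    rw [integral_const_mul, integral_add (hb ξ hξ _ hq) (hb ξ hξ _ hc), h ξ hξ, h' ξ hξ]
    simp
  have h2 := eq_zero_of_orth_real hgen (fun x => (q x).im) hq.im fun ξ hξ => by
    have : ∀ x, (((q x).im : ℝ) : ℂ) * cexp (ξ x * I) =
        (-I / 2) * (q x * cexp (ξ x * I) - conj (q x) * cexp (ξ x * I)) := by
      intro x
      rw [← sub_mul, Complex.sub_conj]
      push_cast
      linear_combination ((q x).im * cexp (ξ x * I)) * Complex.I_mul_I
    simp_rw [this]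
    rw [integral_const_mul, integral_sub (hb ξ hξ _ hq) (hb ξ hξ _ hc), h ξ hξ, h' ξ hξ]
    simp
  filter_upwards [h1, h2] with x a b
  exact Complex.ext a b

/-- the exponentials of the elements of `H` -/
def expSet (H : Submodule ℝ (X → ℝ)) : Set (X → ℂ) := {e | ∃ ξ ∈ H, e = fun x => cexp (ξ x * I)}

lemma exists_approx [IsProbabilityMeasure ν]
    (hgen : mX = ⨆ ξ ∈ H, MeasurableSpace.comap ξ (borel ℝ))
    (φ : X → ℂ) (hφ : Measurable φ) (C : ℝ) (hC : ∀ x, ‖φ x‖ ≤ C) (ε : ℝ) (hε : 0 < ε) :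
    ∃ ψ ∈ Submodule.span ℂ (expSet H), ∫ x, ‖φ x - ψ x‖ ∂ν ≤ ε := by
  have hm := meas_of_gen hgen
  have hL : ∀ ξ ∈ H, MemLp (fun x => cexp (ξ x * I)) 2 ν := by
    intro ξ hξ
    have := hm ξ hξ
    exact MemLp.of_bound (Measurable.aestronglyMeasurable (by fun_prop)) 1
      (Eventually.of_forall fun x => by rw [Complex.norm_exp_ofReal_mul_I])
  let K : Submodule ℂ (Lp ℂ 2 ν) :=
    Submodule.span ℂ {g | ∃ ξ, ∃ hξ : ξ ∈ H, g = (hL ξ hξ).toLp _}
  have hK : K.topologicalClosure = ⊤ := by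
    rw [Submodule.topologicalClosure_eq_top_iff, eq_bot_iff]
    intro q hq
    rw [Submodule.mem_bot]
    have hqi : Integrable q ν := (Lp.memLp q).integrable (by norm_num)
    have := eq_zero_of_orth hgen q hqi fun ξ hξ => by
      have h1 := (Submodule.mem_orthogonal _ _).1 hq ((hL (-ξ) (H.neg_mem hξ)).toLp _)
        (Submodule.subset_span ⟨-ξ, H.neg_mem hξ, rfl⟩)
      rw [L2.inner_def] at h1
      rw [← h1]
      refine integral_congr_ae ?_
      filter_upwards [(hL (-ξ) (H.neg_mem hξ)).coeFn_toLp] with x hx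
      rw [hx, RCLike.inner_apply, ← Complex.exp_conj]
      simp
    exact Lp.ext (this.trans (Lp.coeFn_zero _ _ _).symm)
  have hφL : MemLp φ 2 ν := MemLp.of_bound hφ.aestronglyMeasurable C (Eventually.of_forall hC)
  have hmem : hφL.toLp φ ∈ closure (K : Set (Lp ℂ 2 ν)) := by
    rw [← Submodule.topologicalClosure_coe, hK]; trivial
  obtain ⟨g, hgK, hg⟩ := Metric.mem_closure_iff.1 hmem ε hε
  have hrep : ∀ g ∈ K, ∃ ψ ∈ Submodule.span ℂ (expSet H), (g : X → ℂ) =ᵐ[ν] ψ := by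
    intro g hg
    induction hg using Submodule.span_induction with
    | mem g hg =>
      obtain ⟨ξ, hξ, rfl⟩ := hg
      exact ⟨_, Submodule.subset_span ⟨ξ, hξ, rfl⟩, (hL ξ hξ).coeFn_toLp⟩
    | zero => exact ⟨0, Submodule.zero_mem _, Lp.coeFn_zero _ _ _⟩
    | add g g' _ _ h1 h2 =>
      obtain ⟨ψ, a, b⟩ := h1
      obtain ⟨ψ', a', b'⟩ := h2
      exact ⟨ψ + ψ', Submodule.add_mem _ a a', (Lp.coeFn_add _ _).trans (b.add b')⟩
    | smul c g _ h1 =>
      obtain ⟨ψ, a, b⟩ := h1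
      exact ⟨c • ψ, Submodule.smul_mem _ c a, (Lp.coeFn_smul _ _).trans (b.const_smul c)⟩
  obtain ⟨ψ, hψ, hgψ⟩ := hrep g hgK
  refine ⟨ψ, hψ, ?_⟩
  have e1 : (fun x => φ x - ψ x) =ᵐ[ν] (hφL.toLp φ - g : Lp ℂ 2 ν) := by
    filter_upwards [Lp.coeFn_sub (hφL.toLp φ) g, hφL.coeFn_toLp, hgψ] with x a b c
    rw [a, Pi.sub_apply, b, c]
  have e2 : ∫ x, ‖φ x - ψ x‖ ∂ν = (eLpNorm (hφL.toLp φ - g : Lp ℂ 2 ν) 1 ν).toReal := by
    rw [eLpNorm_one_eq_lintegral_enorm, ← integral_norm_eq_lintegral_enorm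
      (Lp.aestronglyMeasurable _)]
    refine integral_congr_ae ?_
    filter_upwards [e1] with x hx
    rw [hx]
  rw [e2]
  rw [dist_eq_norm, Lp.norm_def] at hg
  refine le_trans (ENNReal.toReal_mono (Lp.eLpNorm_ne_top _) ?_) hg.le
  exact eLpNorm_le_eLpNorm_of_exponent_le (by norm_num) (Lp.aestronglyMeasurable _)

end Pool.Agent.Lib.MP_9721b5_an
end

-- part Pool.Agent.Lib.MP_9721b5_an.Main
section

set_option autoImplicit false

open MeasureTheory ProbabilityTheory Filter Topology Finset Complex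
open Pool.Agent.Shared.Ergodic

namespace Pool.Agent.Lib.MP_9721b5_an

variable {X : Type*} [mX : MeasurableSpace X] {μ : Measure X} [IsProbabilityMeasure μ]
  {H : Submodule ℝ (X → ℝ)} {K : Type} [Fintype K]

lemma conv_exp (T : K → X ≃ᵐ X) (hT : ∀ j, MeasurePreserving (T j) μ μ)
    (hcomm : ∀ i j x, T i (T j x) = T j (T i x))
    (hm : ∀ ξ ∈ H, Measurable ξ) (hg : ∀ ξ ∈ H, HasGaussianLaw ξ μ)
    (hinv : ∀ j, ∀ ξ ∈ H, ξ ∘ T j ∈ H ∧ ξ ∘ (T j).symm ∈ H)
    (f : K → X → ℂ) (hf : ∀ j, f j ∈ expSet H) :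
    Conv μ fun n x => ∏ j, f j ((T j)^[n] x) := by
  choose a ha hfa using hf
  have hR : ∀ i j, ∀ ξ ∈ H, ξ ∘ (T j ∘ (T i).symm) ∈ H := fun i j ξ hξ =>
    (hinv i _ (hinv j ξ hξ).1).2
  have hRp : ∀ i j, MeasurePreserving (T j ∘ (T i).symm) μ μ := fun i j =>
    (hT j).comp (hT i).symm
  have hit : ∀ i j n x, (T j)^[n] x = (T j ∘ (T i).symm)^[n] ((T i)^[n] x) := by
    intro i j n x
    have hc : Function.Commute (T j ∘ (T i).symm) (T i) := by
      intro y
      simp [hcomm i j]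
    rw [← Function.comp_apply (f := (T j ∘ (T i).symm)^[n]), ← hc.comp_iterate]
    congr 1
    funext y
    simp
  have := conv_exp_abstract hm hg (fun j => koop (T j) fun ξ hξ => (hinv j ξ hξ).1)
    (fun i j => koop (T j ∘ (T i).symm) (hR i j))
    (fun j => meanL_koop hm hg _ (hT j)) (fun j => covL_koop hm hg _ (hT j))
    (fun i j => meanL_koop hm hg _ (hRp i j)) (fun i j => covL_koop hm hg _ (hRp i j))
    (fun i j n ξ => by
      ext x
      rw [koop_pow, koop_pow, koop_pow, hit i j]) (fun j => ⟨a j, ha j⟩)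
  convert this using 3 with n x
  simp only [hfa, Submodule.coe_sum, Finset.sum_apply, koop_pow]
  rw [← Complex.exp_sum, ← sum_mul]
  push_cast
  rfl

lemma conv_bdd (T : K → X ≃ᵐ X) (hT : ∀ j, MeasurePreserving (T j) μ μ)
    (hcomm : ∀ i j x, T i (T j x) = T j (T i x))
    (hm : ∀ ξ ∈ H, Measurable ξ) (hg : ∀ ξ ∈ H, HasGaussianLaw ξ μ)
    (hinv : ∀ j, ∀ ξ ∈ H, ξ ∘ T j ∈ H ∧ ξ ∘ (T j).symm ∈ H)
    (f : K → X → ℂ)
    (hf : ∀ j, Measurable[⨆ ξ ∈ H, MeasurableSpace.comap ξ (borel ℝ)] (f j) ∧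
      ∃ C, ∀ x, ‖f j x‖ ≤ C) :
    Conv μ fun n x => ∏ j, f j ((T j)^[n] x) := by
  classical
  have hle : (⨆ ξ ∈ H, MeasurableSpace.comap ξ (borel ℝ)) ≤ mX :=
    iSup₂_le fun ξ hξ => (hm ξ hξ).comap_le
  have hspan : ∀ ψ ∈ Submodule.span ℂ (expSet H),
      Measurable[⨆ ξ ∈ H, MeasurableSpace.comap ξ (borel ℝ)] ψ ∧ ∃ C, ∀ x, ‖ψ x‖ ≤ C := by
    intro ψ hψ
    induction hψ using Submodule.span_induction with
    | mem g hg =>
      obtain ⟨ξ, hξ, rfl⟩ := hg
      have := meas_of_gen (mX := ⨆ ξ ∈ H, MeasurableSpace.comap ξ (borel ℝ)) rfl ξ hξ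
      exact ⟨by fun_prop, 1, fun x => by rw [Complex.norm_exp_ofReal_mul_I]⟩
    | zero => exact ⟨measurable_const, 0, fun x => by simp⟩
    | add g g' _ _ h1 h2 =>
      obtain ⟨a, C, b⟩ := h1
      obtain ⟨a', C', b'⟩ := h2
      exact ⟨a.add a', C + C', fun x => (norm_add_le _ _).trans (add_le_add (b x) (b' x))⟩
    | smul c g _ h1 =>
      obtain ⟨a, C, b⟩ := h1
      exact ⟨a.const_smul c, ‖c‖ * C, fun x => by
        rw [Pi.smul_apply, norm_smul]; exact mul_le_mul_of_nonneg_left (b x) (norm_nonneg _)⟩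
  have main : ∀ s : Finset K, ∀ f : K → X → ℂ,
      (∀ j, Measurable[⨆ ξ ∈ H, MeasurableSpace.comap ξ (borel ℝ)] (f j) ∧
        ∃ C, ∀ x, ‖f j x‖ ≤ C) → (∀ j ∉ s, f j ∈ expSet H) →
      Conv μ fun n x => ∏ j, f j ((T j)^[n] x) := by
    intro s
    induction s using Finset.induction_on with
    | empty => exact fun f _ h2 => conv_exp T hT hcomm hm hg hinv f fun j => h2 j (by simp)
    | insert j s hj ih =>
      intro f h1 h2
      let W : ℕ → X → ℂ := fun n x => ∏ i ∈ univ.erase j, f i ((T i)^[n] x)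
      have hW : ∀ (ψ : X → ℂ) n x, ∏ i, Function.update f j ψ i ((T i)^[n] x) =
          ψ ((T j)^[n] x) * W n x := by
        intro ψ n x
        rw [← mul_prod_erase _ _ (mem_univ j), Function.update_self]
        congr 1
        exact prod_congr rfl fun i hi => by rw [Function.update_of_ne (ne_of_mem_erase hi)]
      obtain ⟨D, hD0, hD⟩ : ∃ D : ℝ, 0 < D ∧ ∀ n x, ‖W n x‖ ≤ D := by
        choose C hC using fun i => (h1 i).2
        refine ⟨∏ i ∈ univ.erase j, (|C i| + 1), prod_pos fun i _ => by positivity,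
          fun n x => ?_⟩
        rw [norm_prod]
        exact prod_le_prod (fun i _ => norm_nonneg _) fun i _ =>
          (hC i _).trans ((le_abs_self _).trans (by linarith))
      have h3 : ∀ ψ ∈ Submodule.span ℂ (expSet H),
          Conv μ fun n x => ψ ((T j)^[n] x) * W n x := by
        intro ψ hψ
        induction hψ using Submodule.span_induction with
        | mem g hg =>
          have := ih (Function.update f j g) (fun i => ?_) (fun i hi => ?_)
          · simpa only [hW] using this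
          · by_cases hij : i = j
            · subst hij
              rw [Function.update_self]
              exact hspan g (Submodule.subset_span hg)
            · rw [Function.update_of_ne hij]; exact h1 i
          · by_cases hij : i = j
            · subst hij
              rw [Function.update_self]
              exact hg
            · rw [Function.update_of_ne hij]
              exact h2 i (by simp [hij, hi])
        | zero => simpa using conv_zero
        | add g g' _ _ a b => simpa only [Pi.add_apply, add_mul] using a.add b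
        | smul c g _ a =>
          simpa only [Pi.smul_apply, smul_eq_mul, mul_assoc] using a.mul_left fun _ => c
      have h4 : ∀ n x, ∏ i, f i ((T i)^[n] x) = f j ((T j)^[n] x) * W n x := by
        intro n x
        rw [← hW, Function.update_eq_self]
      simp only [h4]
      refine conv_of_approx (hT j) _ fun ε hε => ?_
      obtain ⟨hfm, C, hC⟩ := h1 j
      have : IsProbabilityMeasure (μ.trim hle) :=
        ⟨by rw [trim_measurableSet_eq hle MeasurableSet.univ, measure_univ]⟩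
      obtain ⟨ψ, hψ, hε'⟩ := exists_approx (mX := ⨆ ξ ∈ H, MeasurableSpace.comap ξ (borel ℝ))
        (ν := μ.trim hle) rfl (f j) hfm C hC (ε / D) (by positivity)
      obtain ⟨hψm, C', hC'⟩ := hspan ψ hψ
      have hms : Measurable[⨆ ξ ∈ H, MeasurableSpace.comap ξ (borel ℝ)]
          fun x => ‖f j x - ψ x‖ := measurable_norm.comp (hfm.sub hψm)
      rw [← integral_trim hle hms.stronglyMeasurable] at hε'
      refine ⟨_, fun x => ‖f j x - ψ x‖ * D, (C + C') * D, h3 ψ hψ,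
        (hms.mono hle le_rfl).mul_const D, fun x => ?_, fun x => by positivity, ?_, fun n x => ?_⟩
      · rw [abs_of_nonneg (by positivity)]
        exact mul_le_mul_of_nonneg_right ((norm_sub_le _ _).trans (add_le_add (hC x) (hC' x))) hD0.le
      · rw [integral_mul_const]
        rwa [le_div_iff₀ hD0] at hε'
      · rw [← sub_mul, norm_mul]
        exact mul_le_mul_of_nonneg_left (hD n x) (norm_nonneg _)
  exact main univ f hf fun j hj => absurd (mem_univ j) hj

lemma tendsto_Icc_of_range (u : ℕ → ℂ) (C : ℝ) (hC : ∀ n, ‖u n‖ ≤ C) (L : ℂ)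
    (h : Tendsto (fun N : ℕ => (N : ℂ)⁻¹ * ∑ n ∈ range N, u n) atTop (𝓝 L)) :
    Tendsto (fun N : ℕ => (N : ℂ)⁻¹ * ∑ n ∈ Icc 1 N, u n) atTop (𝓝 L) := by
  have h2 : Tendsto (fun N : ℕ => (N : ℝ)⁻¹ * (2 * C)) atTop (𝓝 0) := by
    simpa using (tendsto_inv_atTop_nhds_zero_nat (𝕜 := ℝ)).mul_const (2 * C)
  have h3 : Tendsto (fun N : ℕ => (N : ℂ)⁻¹ * (u N - u 0)) atTop (𝓝 0) := by
    refine squeeze_zero_norm (fun N => ?_) h2
    rw [norm_mul, norm_inv, Complex.norm_natCast]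
    refine mul_le_mul_of_nonneg_left ?_ (by positivity)
    linarith [norm_sub_le (u N) (u 0), hC N, hC 0]
  have h4 := h.add h3
  rw [add_zero] at h4
  refine h4.congr fun N => ?_
  rw [← mul_add]
  congr 1
  have e1 := Finset.sum_range_succ u N
  have e2 : ∑ n ∈ range (N + 1), u n = u 0 + ∑ n ∈ Icc 1 N, u n := by
    rw [range_eq_Ico, sum_eq_sum_Ico_succ_bot (Nat.succ_pos N)]
    rfl
  linear_combination e2 - e1

theorem gaussian_multiple (T : K → X ≃ᵐ X) (hT : ∀ j, MeasurePreserving (T j) μ μ)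
    (hcomm : ∀ i j x, T i (T j x) = T j (T i x))
    (hm : ∀ ξ ∈ H, Measurable ξ) (hg : ∀ ξ ∈ H, HasGaussianLaw ξ μ)
    (hinv : ∀ j, ∀ ξ ∈ H, ξ ∘ T j ∈ H ∧ ξ ∘ (T j).symm ∈ H)
    (f : K → X → ℂ) (hf : ∀ j, MemLp (f j) ⊤ μ)
    (hfH : ∀ j, ∃ g : X → ℂ,
      Measurable[⨆ ξ ∈ H, MeasurableSpace.comap ξ (borel ℝ)] g ∧ f j =ᵐ[μ] g) :
    ∀ᵐ x ∂μ, ∃ L : ℂ,
      Tendsto (fun N : ℕ => (N : ℂ)⁻¹ * ∑ n ∈ Icc 1 N, ∏ j, f j ((T j)^[n] x)) atTop (𝓝 L) := by
  classical
  have hrep : ∀ j, ∃ (g : X → ℂ) (C : ℝ),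
      Measurable[⨆ ξ ∈ H, MeasurableSpace.comap ξ (borel ℝ)] g ∧ (∀ x, ‖g x‖ ≤ C) ∧
        f j =ᵐ[μ] g := by
    intro j
    obtain ⟨g, hgm, hfg⟩ := hfH j
    obtain ⟨C, hC⟩ := eLpNormEssSup_lt_top_iff_isBoundedUnder.1
      (by simpa using (hf j).2 : eLpNormEssSup (f j) μ < ⊤)
    have hC' : ∀ᵐ x ∂μ, ‖f j x‖ ≤ C := hC
    refine ⟨fun x => if ‖g x‖ ≤ C then g x else 0, C, ?_, fun x => ?_, ?_⟩
    · exact Measurable.ite ((measurable_norm.comp hgm) measurableSet_Iic) hgm measurable_const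
    · dsimp only
      split_ifs with h
      · exact h
      · simp
    · filter_upwards [hfg, hC'] with x a b
      rw [← a, if_pos b]
  choose g C hgm hgC hfg using hrep
  have h1 := conv_bdd T hT hcomm hm hg hinv g fun j => ⟨hgm j, C j, hgC j⟩
  have h2 : ∀ᵐ x ∂μ, ∀ j n, f j ((T j)^[n] x) = g j ((T j)^[n] x) :=
    ae_all_iff.2 fun j => ae_all_iff.2 fun n =>
      ((hT j).iterate n).quasiMeasurePreserving.ae (hfg j)
  filter_upwards [h1, h2] with x ⟨L, hL⟩ hx
  refine ⟨L, ?_⟩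
  simp only [hx]
  refine tendsto_Icc_of_range _ (∏ j, C j) (fun n => ?_) L hL
  rw [norm_prod]
  exact prod_le_prod (fun i _ => norm_nonneg _) fun i _ => hgC i _

end Pool.Agent.Lib.MP_9721b5_an
end
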